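import Pool.Agent.Lib.P3852C.Defs

/-!
# Følner sequences on countable abelian groups (1.1)

Enumerate `G = {k 0, k 1, ...}`; `μ n` is the law of `∏_{i < n} (k i) ^ (a i)` with `a` uniform in
`(Fin n → Fin n)` (for `n = 0`: the point mass at `1`). Translation by `k m`, `m < n`, changes the
average of a function bounded by `1` by at most `2 / n`.
-/

set_option autoImplicit false

namespace Pool.Agent.Lib.P3852C

open Filter Topology

namespace FolExAux

section

variable {G : Type} {ι : Type}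

open Classical in
/-- push-forward of a finitely supported probability weight -/
noncomputable def push (T : Finset ι) (u : ι → ℝ) (hu : ∀ t, 0 ≤ u t) (h1 : ∑ t ∈ T, u t = 1)
    (P : ι → G) : FW G where
  s := T.image P
  w := fun x => ∑ t ∈ T.filter (fun t => P t = x), u t
  nonneg := fun x => Finset.sum_nonneg fun t _ => hu t
  supp := by
    intro x hx
    apply Finset.sum_eq_zero
    intro t ht
    rw [Finset.mem_filter] at ht
    exact absurd (Finset.mem_image.2 ⟨t, ht.1, ht.2⟩) hx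
  sum_one := by
    rw [Finset.sum_fiberwise_of_maps_to (fun t ht => Finset.mem_image_of_mem P ht), h1]

theorem push_avg (T : Finset ι) (u : ι → ℝ) (hu : ∀ t, 0 ≤ u t) (h1 : ∑ t ∈ T, u t = 1)
    (P : ι → G) (f : G → ℂ) : (push T u hu h1 P).avg f = ∑ t ∈ T, u t • f (P t) := by
  classical
  unfold FW.avg push
  simp only
  rw [← Finset.sum_fiberwise_of_maps_to (g := P) (t := T.image P)
    (fun t ht => Finset.mem_image_of_mem P ht)]
  refine Finset.sum_congr rfl fun x _ => ?_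
  rw [Finset.sum_smul]
  refine Finset.sum_congr (by congr) fun t ht => ?_
  rw [Finset.mem_filter] at ht
  rw [ht.2]

end

variable {G : Type} [CommGroup G]

/-- almost invariance -/
def AInv (μ : FW G) (h : G) (ε : ℝ) : Prop := ∀ f : G → ℂ, (∀ x, ‖f x‖ ≤ 1) →
    ‖μ.avg (fun x => f (h * x)) - μ.avg f‖ ≤ ε

theorem avg_norm_le (μ : FW G) (f : G → ℂ) (C : ℝ) (hf : ∀ x, ‖f x‖ ≤ C) : ‖μ.avg f‖ ≤ C := by
  unfold FW.avg
  calc ‖∑ x ∈ μ.s, μ.w x • f x‖ ≤ ∑ x ∈ μ.s, ‖μ.w x • f x‖ := norm_sum_le _ _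
    _ ≤ ∑ x ∈ μ.s, μ.w x * C := by
        refine Finset.sum_le_sum fun x _ => ?_
        rw [norm_smul, Real.norm_of_nonneg (μ.nonneg x)]
        exact mul_le_mul_of_nonneg_left (hf x) (μ.nonneg x)
    _ = C := by rw [← Finset.sum_mul, μ.sum_one, one_mul]

theorem avg_sub (μ : FW G) (f g : G → ℂ) : μ.avg f - μ.avg g = μ.avg (fun x => f x - g x) := by
  unfold FW.avg
  rw [← Finset.sum_sub_distrib]
  exact Finset.sum_congr rfl fun x _ => (smul_sub _ _ _).symm

/-- convolution -/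
noncomputable def conv (μ ν : FW G) : FW G :=
  push (μ.s ×ˢ ν.s) (fun p => μ.w p.1 * ν.w p.2) (fun p => mul_nonneg (μ.nonneg _) (ν.nonneg _))
    (by rw [Finset.sum_product, ← Finset.sum_mul_sum, μ.sum_one, ν.sum_one, one_mul])
    (fun p => p.1 * p.2)

theorem conv_avg (μ ν : FW G) (f : G → ℂ) :
    (conv μ ν).avg f = μ.avg (fun x => ν.avg (fun y => f (x * y))) := by
  unfold conv
  rw [push_avg, Finset.sum_product]
  unfold FW.avg
  refine Finset.sum_congr rfl fun x _ => ?_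
  rw [Finset.smul_sum]
  refine Finset.sum_congr rfl fun y _ => ?_
  rw [smul_smul]

theorem conv_avg' (μ ν : FW G) (f : G → ℂ) :
    (conv μ ν).avg f = ν.avg (fun y => μ.avg (fun x => f (y * x))) := by
  rw [conv_avg]
  unfold FW.avg
  simp only [Finset.smul_sum]
  rw [Finset.sum_comm]
  refine Finset.sum_congr rfl fun y _ => Finset.sum_congr rfl fun x _ => ?_
  rw [smul_comm, mul_comm x y]

theorem AInv.conv_left {μ : FW G} {h : G} {ε : ℝ} (hμ : AInv μ h ε) (ν : FW G) :
    AInv (conv μ ν) h ε := by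
  intro f hf
  rw [conv_avg', conv_avg', avg_sub]
  apply avg_norm_le
  intro y
  have h1 := hμ (fun x => f (y * x)) (fun x => hf _)
  have h2 : (fun x => f (h * (y * x))) = fun x => f (y * (h * x)) := by
    funext x
    rw [mul_left_comm]
  rw [h2]
  exact h1

theorem AInv.conv_right {ν : FW G} {h : G} {ε : ℝ} (hν : AInv ν h ε) (μ : FW G) :
    AInv (conv μ ν) h ε := by
  intro f hf
  rw [conv_avg, conv_avg, avg_sub]
  apply avg_norm_le
  intro x
  have h1 := hν (fun y => f (x * y)) (fun y => hf _)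
  have h2 : (fun y => f (h * (x * y))) = fun y => f (x * (h * y)) := by
    funext y
    rw [mul_left_comm]
  rw [h2]
  exact h1

/-- the uniform weight on the powers `h ^ j`, `j ≤ n` -/
noncomputable def ivl (h : G) (n : ℕ) : FW G :=
  push (Finset.range (n + 1)) (fun _ => 1 / ((n : ℝ) + 1)) (fun _ => by positivity)
    (by
      rw [Finset.sum_const, Finset.card_range, nsmul_eq_mul]
      push_cast
      field_simp) (fun j => h ^ j)

theorem ivl_inv (h : G) (n : ℕ) : AInv (ivl h n) h (2 / ((n : ℝ) + 1)) := by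
  intro f hf
  have hn : (0 : ℝ) < (n : ℝ) + 1 := by positivity
  have h1 : (ivl h n).avg (fun x => f (h * x)) - (ivl h n).avg f =
      (1 / ((n : ℝ) + 1)) • (f (h ^ (n + 1)) - f (h ^ 0)) := by
    unfold ivl
    rw [push_avg, push_avg, ← Finset.smul_sum, ← Finset.smul_sum, ← smul_sub,
      ← Finset.sum_sub_distrib]
    congr 1
    rw [← Finset.sum_range_sub (fun j => f (h ^ j))]
    refine Finset.sum_congr rfl fun j _ => ?_
    rw [pow_succ']
  rw [h1, norm_smul, Real.norm_of_nonneg (by positivity)]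
  have h2 : ‖f (h ^ (n + 1)) - f (h ^ 0)‖ ≤ 2 := by
    calc ‖f (h ^ (n + 1)) - f (h ^ 0)‖ ≤ ‖f (h ^ (n + 1))‖ + ‖f (h ^ 0)‖ := norm_sub_le _ _
      _ ≤ 1 + 1 := add_le_add (hf _) (hf _)
      _ = 2 := by norm_num
  calc 1 / ((n : ℝ) + 1) * ‖f (h ^ (n + 1)) - f (h ^ 0)‖ ≤ 1 / ((n : ℝ) + 1) * 2 :=
        mul_le_mul_of_nonneg_left h2 (by positivity)
    _ = 2 / ((n : ℝ) + 1) := by ring

/-- the convolution of the first `i` intervals -/
noncomputable def MM (k : ℕ → G) (n : ℕ) : ℕ → FW G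
  | 0 => ivl 1 n
  | i + 1 => conv (MM k n i) (ivl (k i) n)

theorem MM_inv (k : ℕ → G) (n i m : ℕ) (hm : m < i) : AInv (MM k n i) (k m) (2 / ((n : ℝ) + 1)) := by
  induction i with
  | zero => omega
  | succ i ih =>
    rcases Nat.lt_succ_iff_lt_or_eq.1 hm with h | h
    · exact (ih h).conv_left _
    · rw [h]
      exact (ivl_inv (k i) n).conv_right _

theorem sum_le_one (μ : FW G) (t : Finset G) : ∑ x ∈ t, μ.w x ≤ 1 := by
  classical
  have h1 : ∑ x ∈ t, μ.w x = ∑ x ∈ t ∩ μ.s, μ.w x := by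
    symm
    apply Finset.sum_subset Finset.inter_subset_left
    intro x hx hx2
    apply μ.supp
    intro h
    exact hx2 (Finset.mem_inter.2 ⟨hx, h⟩)
  rw [h1, ← μ.sum_one]
  exact Finset.sum_le_sum_of_subset_of_nonneg Finset.inter_subset_right fun x _ _ => μ.nonneg x

open Classical in
theorem avg_ind (μ : FW G) (p : G → G) (hp : Function.Injective p) (g x0 : G) (hx0 : p x0 = g) :
    μ.avg (fun x => if p x = g then (1 : ℂ) else 0) = (μ.w x0 : ℂ) := by
  unfold FW.avg
  have h1 : ∀ x, μ.w x • (if p x = g then (1 : ℂ) else 0) = if x = x0 then (μ.w x0 : ℂ) else 0 := by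
    intro x
    by_cases hx : x = x0
    · rw [hx, if_pos hx0, if_pos rfl, Complex.real_smul, mul_one]
    · rw [if_neg hx, if_neg, smul_zero]
      intro h
      exact hx (hp (h.trans hx0.symm))
  simp only [h1]
  rw [Finset.sum_ite_eq']
  split_ifs with h
  · rfl
  · rw [μ.supp x0 h, Complex.ofReal_zero]

end FolExAux

open FolExAux in
theorem exists_fol (G : Type) [CommGroup G] [Countable G] : Nonempty (Fol G) := by
  obtain ⟨k, hk⟩ := exists_surjective_nat G
  refine ⟨⟨fun n => MM k n n, ?_⟩⟩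
  intro h ε hε
  obtain ⟨m, rfl⟩ := hk h
  obtain ⟨N, hN⟩ := exists_nat_gt (2 / ε)
  rw [eventually_atTop]
  refine ⟨max (m + 1) N, fun n hn f hf => ?_⟩
  have h1 : m < n := lt_of_lt_of_le (Nat.lt_succ_self m) ((le_max_left _ _).trans hn)
  have h2 : N ≤ n := (le_max_right _ _).trans hn
  refine (MM_inv k n n m h1 f hf).trans ?_
  have h3 : (N : ℝ) ≤ n := by exact_mod_cast h2
  rw [div_le_iff₀ (by positivity)]
  rw [div_lt_iff₀ hε] at hN
  nlinarith

open FolExAux in
/-- In an infinite group the weights of the points tend to `0` uniformly: take `m` distinct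
elements `h i`, test invariance on indicators of points: `m (w g - ε/2) ≤ 1`. -/
theorem Fol.small {G : Type} [CommGroup G] [Infinite G] (φ : Fol G) {ε : ℝ} (hε : 0 < ε) :
    ∀ᶠ n in atTop, ∀ g : G, (φ.μ n).w g ≤ ε := by
  classical
  obtain ⟨m, hm⟩ := exists_nat_gt (2 / ε)
  obtain ⟨t, ht⟩ := Infinite.exists_subset_card_eq G m
  have h1 : ∀ᶠ n in atTop, ∀ h ∈ t, ∀ f : G → ℂ, (∀ x, ‖f x‖ ≤ 1) →
      ‖(φ.μ n).avg (fun x => f (h * x)) - (φ.μ n).avg f‖ ≤ ε / 2 := by
    have h2 : ∀ h ∈ t, ∀ᶠ n in atTop, ∀ f : G → ℂ, (∀ x, ‖f x‖ ≤ 1) →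
      ‖(φ.μ n).avg (fun x => f (h * x)) - (φ.μ n).avg f‖ ≤ ε / 2 := fun h _ =>
        φ.inv h (ε / 2) (by positivity)
    exact (Filter.eventually_all_finset t).2 h2
  filter_upwards [h1] with n hn g
  have hmpos : (0 : ℝ) < m := lt_trans (by positivity) hm
  have h3 : ∀ h ∈ t, (φ.μ n).w g - ε / 2 ≤ (φ.μ n).w (h⁻¹ * g) := by
    intro h hh
    have h4 := hn h hh (fun x => if x = g then 1 else 0) (by
      intro x
      split_ifs
      · simp
      · simp)
    have e1 := avg_ind (φ.μ n) (fun x => h * x) (mul_right_injective h) g (h⁻¹ * g)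
      (mul_inv_cancel_left h g)
    have e2 := avg_ind (φ.μ n) (fun x => x) Function.injective_id g g rfl
    rw [e1, e2, ← Complex.ofReal_sub, Complex.norm_real, Real.norm_eq_abs, abs_le] at h4
    linarith [h4.1]
  have h5 : ∑ h ∈ t, ((φ.μ n).w g - ε / 2) ≤ ∑ h ∈ t, (φ.μ n).w (h⁻¹ * g) := Finset.sum_le_sum h3
  have h6 : ∑ h ∈ t, (φ.μ n).w (h⁻¹ * g) ≤ 1 := by
    have h7 : ∑ h ∈ t, (φ.μ n).w (h⁻¹ * g) = ∑ x ∈ t.image (fun h => h⁻¹ * g), (φ.μ n).w x := by
      rw [Finset.sum_image]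
      intro a _ b _ hab
      have : a⁻¹ = b⁻¹ := mul_right_cancel hab
      exact inv_injective this
    rw [h7]
    exact sum_le_one _ _
  rw [Finset.sum_const, ht, nsmul_eq_mul] at h5
  have h8 : (m : ℝ) * ((φ.μ n).w g - ε / 2) ≤ 1 := h5.trans h6
  rw [div_lt_iff₀ hε] at hm
  by_contra hcon
  push Not at hcon
  have h9 : ε / 2 < (φ.μ n).w g - ε / 2 := by linarith
  have h10 : (m : ℝ) * (ε / 2) < (m : ℝ) * ((φ.μ n).w g - ε / 2) := mul_lt_mul_of_pos_left h9 hmpos
  nlinarith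

end Pool.Agent.Lib.P3852C
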