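import Pool.Agent.Lib.P3852C.Defs

/-!
# Haar measure on the compact group `X A` (1.5)

`X A` is a compact second countable abelian group under pointwise multiplication
(put a `CommGroup` structure on it, `IsTopologicalGroup`); take the Haar probability measure
(`MeasureTheory.Measure.haarMeasure ⊤`, or `exists` any left invariant probability).
For `x ≠ 0` there is a character `θ₀` with `θ₀ x ≠ 1`
(`CharacterModule.exists_character_apply_ne_zero_of_ne_zero`, and `ℚ/ℤ → Circle`), and
`∫ ev x = ∫ ev x (θ₀ θ) = (θ₀ x) ∫ ev x`.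
-/

set_option autoImplicit false

namespace Pool.Agent.Lib.P3852C

open MeasureTheory

namespace HaarXAux

/-- `q ↦ exp (2 π i q)` -/
private noncomputable def expQ : ℚ →+ Additive Circle where
  toFun q := Additive.ofMul (Circle.exp (2 * Real.pi * (q : ℝ)))
  map_zero' := by simp
  map_add' q r := by
    rw [← ofMul_mul, ← Circle.exp_add]
    congr 2
    push_cast
    ring

private theorem expQ_int (q : ℚ) (hq : q ∈ AddSubgroup.zmultiples (1 : ℚ)) : expQ q = 0 := by
  obtain ⟨n, rfl⟩ := AddSubgroup.mem_zmultiples_iff.mp hq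
  have h : Circle.exp (2 * Real.pi * (((n • (1 : ℚ)) : ℚ) : ℝ)) = 1 := by
    rw [← Circle.exp_zero, Circle.exp_eq_exp]
    exact ⟨n, by push_cast [zsmul_eq_mul]; ring⟩
  change Additive.ofMul (Circle.exp (2 * Real.pi * (((n • (1 : ℚ)) : ℚ) : ℝ))) = 0
  rw [h]
  rfl

private theorem int_of_expQ (q : ℚ) (hq : expQ q = 0) : q ∈ AddSubgroup.zmultiples (1 : ℚ) := by
  have h : Circle.exp (2 * Real.pi * (q : ℝ)) = 1 := hq
  rw [← Circle.exp_zero, Circle.exp_eq_exp] at h
  obtain ⟨n, hn⟩ := h
  rw [AddSubgroup.mem_zmultiples_iff]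
  refine ⟨n, ?_⟩
  have hpi := Real.pi_pos
  have h2 : (q : ℝ) = n := by
    have h3 : 2 * Real.pi * ((q : ℝ) - n) = 0 := by linarith
    have h4 := (mul_eq_zero.mp h3).resolve_left (by positivity)
    linarith
  have h5 : q = n := by exact_mod_cast h2
  rw [h5]
  simp

private noncomputable def emb : AddCircle (1 : ℚ) →+ Additive Circle :=
  QuotientAddGroup.lift _ expQ (fun q hq => expQ_int q hq)

private theorem emb_ne (y : AddCircle (1 : ℚ)) (hy : y ≠ 0) : emb y ≠ 0 := by
  intro h
  obtain ⟨q, rfl⟩ := QuotientAddGroup.mk_surjective y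
  apply hy
  rw [QuotientAddGroup.eq_zero_iff]
  exact int_of_expQ q h

variable {A : Type} [AddCommGroup A]

private noncomputable def grp : CommGroup (X A) where
  mul θ φ := ⟨fun x => θ.fn x * φ.fn x, fun x y => by
    rw [θ.map_add, φ.map_add]; exact mul_mul_mul_comm _ _ _ _⟩
  one := ⟨fun _ => 1, fun _ _ => (one_mul _).symm⟩
  inv θ := ⟨fun x => (θ.fn x)⁻¹, fun x y => by rw [θ.map_add, mul_inv]⟩
  mul_assoc θ φ ψ := X.ext (funext fun x => mul_assoc _ _ _)
  one_mul θ := X.ext (funext fun x => one_mul _)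
  mul_one θ := X.ext (funext fun x => mul_one _)
  inv_mul_cancel θ := X.ext (funext fun x => inv_mul_cancel _)
  mul_comm θ φ := X.ext (funext fun x => mul_comm _ _)

attribute [local instance] grp

private theorem fn_mul (θ φ : X A) (x : A) : (θ * φ).fn x = θ.fn x * φ.fn x := rfl

private theorem ev_mul (θ φ : X A) (x : A) : ev x (θ * φ) = ev x θ * ev x φ := by
  rw [ev, fn_mul, Circle.coe_mul]
  rfl

private theorem topgrp : IsTopologicalGroup (X A) where
  continuous_mul := by
    rw [continuous_induced_rng]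
    refine continuous_pi fun x => ?_
    exact ((X.continuous_apply x).comp continuous_fst).mul
      ((X.continuous_apply x).comp continuous_snd)
  continuous_inv := by
    rw [continuous_induced_rng]
    refine continuous_pi fun x => ?_
    exact (X.continuous_apply x).inv

private theorem haar_aux [Countable A] (hsep : ∀ x : A, x ≠ 0 → ∃ θ : X A, θ.fn x ≠ 1) :
    ∃ m : Measure (X A), IsProbabilityMeasure m ∧ ∀ x : A, x ≠ 0 → ∫ θ, ev x θ ∂m = 0 := by
  have : IsTopologicalGroup (X A) := topgrp
  refine ⟨Measure.haarMeasure (⊤ : TopologicalSpace.PositiveCompacts (X A)), ⟨?_⟩, ?_⟩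
  · have h := Measure.haarMeasure_self (K₀ := (⊤ : TopologicalSpace.PositiveCompacts (X A)))
    simpa using h
  · intro x hx
    obtain ⟨θ₀, h0⟩ := hsep x hx
    have h1 := integral_mul_left_eq_self
      (μ := Measure.haarMeasure (⊤ : TopologicalSpace.PositiveCompacts (X A)))
      (fun θ => ev x θ) θ₀
    simp only [ev_mul] at h1
    rw [integral_const_mul] at h1
    have h2 : ev x θ₀ ≠ 1 := by
      intro h3
      apply h0
      apply Subtype.ext
      exact h3
    have h4 : (ev x θ₀ - 1) * ∫ θ, ev x θ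
        ∂(Measure.haarMeasure (⊤ : TopologicalSpace.PositiveCompacts (X A))) = 0 := by
      rw [sub_mul, h1, one_mul, sub_self]
    exact (mul_eq_zero.mp h4).resolve_left (sub_ne_zero.mpr h2)

end HaarXAux

/-- characters separate points -/
theorem exists_character_ne_one (A : Type) [AddCommGroup A] (x : A) (hx : x ≠ 0) :
    ∃ θ : X A, θ.fn x ≠ 1 := by
  obtain ⟨c, hc⟩ := CharacterModule.exists_character_apply_ne_zero_of_ne_zero hx
  refine ⟨⟨fun y => Additive.toMul (HaarXAux.emb (c y)), fun y z => ?_⟩, ?_⟩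
  · rw [map_add, map_add, toMul_add]
  · intro h
    exact HaarXAux.emb_ne _ hc h

theorem exists_haar (A : Type) [AddCommGroup A] [Countable A] :
    ∃ m : Measure (X A), IsProbabilityMeasure m ∧ ∀ x : A, x ≠ 0 → ∫ θ, ev x θ ∂m = 0 :=
  HaarXAux.haar_aux (exists_character_ne_one A)

end Pool.Agent.Lib.P3852C
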