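import Pool.Agent.Lib.P3852C.Defs
import Pool.Agent.Lib.P3852C.FolEx
import Pool.Agent.Lib.P3852C.HaarX

/-!
# Bochner's theorem for countable abelian groups (1.5)

With a Følner sequence `μ n` on `A` (`exists_fol (Multiplicative A)`):
`κ n x = ∑ y, √(μ n y * μ n (y - x)) → 1` (since `1 - κ ≤ (1/2) ∑ |μ n y - μ n (y - x)|`),
`f n = ∑ x, κ n x * c x * conj (ev x) = ∑ y y', √(μ y) √(μ y') c (y - y') conj (ev y) ev y' ≥ 0`,
`∫ f n * ev x ∂haar = κ n x * c x`. The probability measures `f n • haar` have a limit point in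
the compact space `ProbabilityMeasure (X A)` (`MeasureTheory.Measure.Prokhorov`).
-/

set_option autoImplicit false

namespace Pool.Agent.Lib.P3852C

open MeasureTheory Filter Topology

namespace BochnerAux

variable {A : Type} [AddCommGroup A]

theorem sqrt_sub_sq_le {a b : ℝ} (ha : 0 ≤ a) (hb : 0 ≤ b) : (√a - √b) ^ 2 ≤ |a - b| := by
  have h2 := Real.mul_self_sqrt ha
  have h3 := Real.mul_self_sqrt hb
  have e : a - b = (√a - √b) * (√a + √b) := by linear_combination -h2 + h3
  have h1 : |a - b| = |√a - √b| * (√a + √b) := by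
    rw [e, abs_mul, abs_of_nonneg (add_nonneg (Real.sqrt_nonneg a) (Real.sqrt_nonneg b))]
  have h4 : |√a - √b| ≤ √a + √b := by
    rw [abs_le]
    constructor <;> linarith [Real.sqrt_nonneg a, Real.sqrt_nonneg b]
  rw [h1, ← sq_abs, sq]
  exact mul_le_mul_of_nonneg_left h4 (abs_nonneg _)

theorem exists_w (A : Type) [AddCommGroup A] [Countable A] :
    ∃ (s : ℕ → Finset A) (w : ℕ → A → ℝ), (∀ n y, 0 ≤ w n y) ∧ (∀ n y, y ∉ s n → w n y = 0) ∧
      (∀ n, ∑ y ∈ s n, w n y = 1) ∧ ∀ x : A, ∀ ε : ℝ, 0 < ε → ∀ᶠ n in atTop, ∀ f : A → ℂ,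
        (∀ y, ‖f y‖ ≤ 1) → ‖∑ y ∈ s n, w n y • f (x + y) - ∑ y ∈ s n, w n y • f y‖ ≤ ε := by
  have : Countable (Multiplicative A) := inferInstanceAs (Countable A)
  obtain ⟨φ⟩ := exists_fol (Multiplicative A)
  exact ⟨fun n => (φ.μ n).s, fun n => (φ.μ n).w, fun n => (φ.μ n).nonneg, fun n => (φ.μ n).supp,
    fun n => (φ.μ n).sum_one, fun x ε hε => φ.inv (Multiplicative.ofAdd x) ε hε⟩

/-- the correlation of the square roots of the weights -/
noncomputable def kap (s : Finset A) (w : A → ℝ) (x : A) : ℝ := ∑ y ∈ s, √(w y) * √(w (y - x))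

theorem kap_eq [DecidableEq A] {s : Finset A} {w : A → ℝ} (h0 : ∀ y, y ∉ s → w y = 0) (x : A) :
    ∑ y ∈ s, ∑ y' ∈ s, (if y - y' = x then √(w y) * √(w y') else 0) = kap s w x := by
  unfold kap
  refine Finset.sum_congr rfl fun y _ => ?_
  have h1 : ∀ y' ∈ s, (if y - y' = x then √(w y) * √(w y') else 0) =
      if y' = y - x then √(w y) * √(w y') else 0 := by
    intro y' _
    by_cases h : y - y' = x
    · rw [if_pos h, if_pos (by rw [← h]; abel)]
    · rw [if_neg h, if_neg (fun e => h (by rw [e]; abel))]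
  rw [Finset.sum_congr rfl h1, Finset.sum_ite_eq']
  split_ifs with h
  · rfl
  · rw [h0 _ h, Real.sqrt_zero, mul_zero]

theorem kap_eq' [DecidableEq A] {s : Finset A} {w : A → ℝ} (h0 : ∀ y, y ∉ s → w y = 0) (x : A) :
    ∑ y ∈ s, ∑ y' ∈ s, (if y - y' = -x then √(w y) * √(w y') else 0) = kap s w x := by
  rw [Finset.sum_comm, ← kap_eq h0 x]
  refine Finset.sum_congr rfl fun y _ => Finset.sum_congr rfl fun y' _ => ?_
  have h1 : (y' - y = -x) ↔ (y - y' = x) := by
    constructor
    · intro h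
      rw [← neg_sub, h, neg_neg]
    · intro h
      rw [← neg_sub, h]
  by_cases h : y - y' = x
  · rw [if_pos h, if_pos (h1.2 h), mul_comm]
  · rw [if_neg h, if_neg (fun e => h (h1.1 e))]

theorem kap_zero {s : Finset A} {w : A → ℝ} (hw : ∀ y, 0 ≤ w y) (h1 : ∑ y ∈ s, w y = 1) :
    kap s w 0 = 1 := by
  unfold kap
  rw [← h1]
  refine Finset.sum_congr rfl fun y _ => ?_
  rw [sub_zero, Real.mul_self_sqrt (hw y)]

theorem kap_near {s : Finset A} {w : A → ℝ} (hw : ∀ y, 0 ≤ w y) (h0 : ∀ y, y ∉ s → w y = 0)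
    (h1 : ∑ y ∈ s, w y = 1) (x : A) {ε : ℝ}
    (hf : ∀ f : A → ℂ, (∀ y, ‖f y‖ ≤ 1) →
      ‖∑ y ∈ s, w y • f (x + y) - ∑ y ∈ s, w y • f y‖ ≤ ε) : |kap s w x - 1| ≤ ε := by
  classical
  set T : Finset A := s ∪ s.image (fun y => x + y) with hT
  have hsT : s ⊆ T := Finset.subset_union_left
  have hiT : s.image (fun y => x + y) ⊆ T := Finset.subset_union_right
  -- sums over `T`
  have e1 : ∀ g : A → ℂ, ∑ y ∈ s, w y • g y = ∑ y ∈ T, w y • g y := by
    intro g
    refine Finset.sum_subset hsT fun y _ hy => ?_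
    rw [h0 y hy, zero_smul]
  have e2 : ∀ g : A → ℂ, ∑ y ∈ s, w y • g (x + y) = ∑ z ∈ T, w (z - x) • g z := by
    intro g
    have h2 : ∑ z ∈ s.image (fun y => x + y), w (z - x) • g z = ∑ z ∈ T, w (z - x) • g z := by
      refine Finset.sum_subset hiT fun z _ hz => ?_
      have h3 : z - x ∉ s := fun h => hz (Finset.mem_image.2 ⟨z - x, h, by abel⟩)
      rw [h0 _ h3, zero_smul]
    rw [← h2, Finset.sum_image (fun a _ b _ h => add_left_cancel h)]
    refine Finset.sum_congr rfl fun y _ => ?_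
    rw [add_sub_cancel_left]
  have r1 : ∑ y ∈ T, w y = 1 := by
    rw [← h1]
    exact (Finset.sum_subset hsT fun y _ hy => h0 y hy).symm
  have r2 : ∑ y ∈ T, w (y - x) = 1 := by
    have h2 : ∑ z ∈ s.image (fun y => x + y), w (z - x) = ∑ z ∈ T, w (z - x) := by
      refine Finset.sum_subset hiT fun z _ hz => ?_
      have h3 : z - x ∉ s := fun h => hz (Finset.mem_image.2 ⟨z - x, h, by abel⟩)
      exact h0 _ h3
    rw [← h2, Finset.sum_image (fun a _ b _ h => add_left_cancel h), ← h1]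
    refine Finset.sum_congr rfl fun y _ => ?_
    rw [add_sub_cancel_left]
  have r3 : kap s w x = ∑ y ∈ T, √(w y) * √(w (y - x)) := by
    unfold kap
    refine Finset.sum_subset hsT fun y _ hy => ?_
    rw [h0 y hy, Real.sqrt_zero, zero_mul]
  -- the test function
  set f : A → ℂ := fun z => ((SignType.sign (w (z - x) - w z) : ℝ) : ℂ) with hfd
  have hf1 : ∀ y, ‖f y‖ ≤ 1 := by
    intro y
    simp only [hfd, Complex.norm_real, Real.norm_eq_abs]
    rcases lt_trichotomy (w (y - x) - w y) 0 with h | h | h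
    · rw [sign_neg h]
      simp
    · rw [h, sign_zero]
      simp
    · rw [sign_pos h]
      simp
  have h4 := hf f hf1
  rw [e2 f, e1 f, ← Finset.sum_sub_distrib] at h4
  have h5 : ∑ z ∈ T, (w (z - x) • f z - w z • f z) =
      ((∑ z ∈ T, |w z - w (z - x)| : ℝ) : ℂ) := by
    push_cast
    refine Finset.sum_congr rfl fun z _ => ?_
    rw [← sub_smul, Complex.real_smul, hfd]
    rw [← Complex.ofReal_mul]
    congr 1
    rw [abs_sub_comm]
    exact self_mul_sign _
  rw [h5, Complex.norm_real, Real.norm_eq_abs] at h4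
  have h6 : ∑ z ∈ T, |w z - w (z - x)| ≤ ε := (le_abs_self _).trans h4
  have h7 : ∑ z ∈ T, (√(w z) - √(w (z - x))) ^ 2 = 2 - 2 * kap s w x := by
    have h8 : ∀ z ∈ T, (√(w z) - √(w (z - x))) ^ 2 =
        w z + w (z - x) - 2 * (√(w z) * √(w (z - x))) := by
      intro z _
      have h9 := Real.mul_self_sqrt (hw z)
      have h10 := Real.mul_self_sqrt (hw (z - x))
      linear_combination h9 + h10
    rw [Finset.sum_congr rfl h8, Finset.sum_sub_distrib, Finset.sum_add_distrib, r1, r2,
      ← Finset.mul_sum, ← r3]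
    norm_num
  have h11 : ∑ z ∈ T, (√(w z) - √(w (z - x))) ^ 2 ≤ ε :=
    (Finset.sum_le_sum fun z _ => sqrt_sub_sq_le (hw z) (hw (z - x))).trans h6
  have h12 : 0 ≤ ∑ z ∈ T, (√(w z) - √(w (z - x))) ^ 2 :=
    Finset.sum_nonneg fun z _ => sq_nonneg _
  rw [h7] at h11 h12
  have h13 : 0 ≤ ε := h12.trans h11
  rw [abs_le]
  constructor <;> linarith

/-- the density -/
noncomputable def den (c : A → ℝ) (s : Finset A) (w : A → ℝ) (θ : X A) : ℝ :=
  ∑ y ∈ s, ∑ y' ∈ s, √(w y) * √(w y') * c (y - y') * (ev (y - y') θ).re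

theorem den_nonneg {c : A → ℝ} (hc : PD c) (s : Finset A) (w : A → ℝ) (θ : X A) :
    0 ≤ den c s w θ := by
  have h1 := hc.pos s (fun y => √(w y) * (ev y θ).re)
  have h2 := hc.pos s (fun y => √(w y) * (ev y θ).im)
  have h3 : den c s w θ =
      (∑ y ∈ s, ∑ y' ∈ s, (√(w y) * (ev y θ).re) * (√(w y') * (ev y' θ).re) * c (y - y')) +
      ∑ y ∈ s, ∑ y' ∈ s, (√(w y) * (ev y θ).im) * (√(w y') * (ev y' θ).im) * c (y - y') := by
    unfold den
    rw [← Finset.sum_add_distrib]
    refine Finset.sum_congr rfl fun y _ => ?_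
    rw [← Finset.sum_add_distrib]
    refine Finset.sum_congr rfl fun y' _ => ?_
    rw [ev_sub, Complex.mul_re, Complex.conj_re, Complex.conj_im]
    ring
  rw [h3]
  exact add_nonneg h1 h2

theorem continuous_den (c : A → ℝ) (s : Finset A) (w : A → ℝ) : Continuous (den c s w) := by
  unfold den
  refine continuous_finsetSum _ fun y _ => continuous_finsetSum _ fun y' _ => ?_
  exact continuous_const.mul (Complex.continuous_re.comp (continuous_ev _))

theorem integrable_of_cont [Countable A] {m : Measure (X A)} [IsFiniteMeasure m] {f : X A → ℂ}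
    (hf : Continuous f) : Integrable f m := by
  obtain ⟨C, hC⟩ := isCompact_univ.exists_bound_of_continuousOn hf.continuousOn
  exact Integrable.of_bound hf.aestronglyMeasurable C
    (Eventually.of_forall fun x => hC x (Set.mem_univ x))

theorem integral_re_mul [Countable A] [DecidableEq A] {m : Measure (X A)}
    [IsProbabilityMeasure m] (hm : ∀ x : A, x ≠ 0 → ∫ θ, ev x θ ∂m = 0) (z x : A) :
    ∫ θ, (((ev z θ).re : ℝ) : ℂ) * ev x θ ∂m =
      ((if z = -x then 1 else 0) + (if z = x then 1 else 0)) / 2 := by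
  have hm' : ∀ x : A, ∫ θ, ev x θ ∂m = if x = 0 then 1 else 0 := by
    intro x
    by_cases h : x = 0
    · rw [if_pos h, h]
      simp
    · rw [if_neg h, hm x h]
  have h1 : ∀ θ : X A, (((ev z θ).re : ℝ) : ℂ) * ev x θ =
      (1 / 2 : ℂ) * ev (z + x) θ + (1 / 2 : ℂ) * ev (x - z) θ := by
    intro θ
    rw [Complex.re_eq_add_conj, ev_add, ev_sub]
    ring
  simp_rw [h1]
  rw [integral_add ((integrable_of_cont (continuous_ev _)).const_mul _)
    ((integrable_of_cont (continuous_ev _)).const_mul _), integral_const_mul, integral_const_mul,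
    hm', hm']
  have e1 : (z + x = 0) ↔ (z = -x) := add_eq_zero_iff_eq_neg
  have e2 : (x - z = 0) ↔ (z = x) := by rw [sub_eq_zero, eq_comm]
  simp only [e1, e2]
  ring

theorem integral_den [Countable A] {c : A → ℝ} (hc : PD c) {s : Finset A} {w : A → ℝ}
    (h0 : ∀ y, y ∉ s → w y = 0) {m : Measure (X A)}
    [IsProbabilityMeasure m] (hm : ∀ x : A, x ≠ 0 → ∫ θ, ev x θ ∂m = 0) (x : A) :
    ∫ θ, ((den c s w θ : ℝ) : ℂ) * ev x θ ∂m = ((c x * kap s w x : ℝ) : ℂ) := by
  classical
  have h1 : ∀ θ : X A, ((den c s w θ : ℝ) : ℂ) * ev x θ = ∑ y ∈ s, ∑ y' ∈ s,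
      ((√(w y) * √(w y') * c (y - y') : ℝ) : ℂ) * ((((ev (y - y') θ).re : ℝ) : ℂ) * ev x θ) := by
    intro θ
    unfold den
    push_cast
    rw [Finset.sum_mul]
    refine Finset.sum_congr rfl fun y _ => ?_
    rw [Finset.sum_mul]
    refine Finset.sum_congr rfl fun y' _ => ?_
    ring
  simp_rw [h1]
  have hint : ∀ y y' : A, Integrable (fun θ : X A =>
      ((√(w y) * √(w y') * c (y - y') : ℝ) : ℂ) * ((((ev (y - y') θ).re : ℝ) : ℂ) * ev x θ)) m := by
    intro y y'
    refine integrable_of_cont ?_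
    exact continuous_const.mul ((Complex.continuous_ofReal.comp
      (Complex.continuous_re.comp (continuous_ev _))).mul (continuous_ev x))
  rw [integral_finsetSum _ fun y _ => integrable_finsetSum _ fun y' _ => hint y y']
  have h2 : ∀ y ∈ s, ∫ θ, ∑ y' ∈ s,
      ((√(w y) * √(w y') * c (y - y') : ℝ) : ℂ) * ((((ev (y - y') θ).re : ℝ) : ℂ) * ev x θ) ∂m =
      ∑ y' ∈ s, (((c x * (if y - y' = -x then √(w y) * √(w y') else 0) +
        c x * (if y - y' = x then √(w y) * √(w y') else 0)) / 2 : ℝ) : ℂ) := by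
    intro y _
    rw [integral_finsetSum _ fun y' _ => hint y y']
    refine Finset.sum_congr rfl fun y' _ => ?_
    rw [integral_const_mul, integral_re_mul hm]
    by_cases h3 : y - y' = -x
    · by_cases h4 : y - y' = x
      · rw [if_pos h3, if_pos h4, if_pos h3, if_pos h4, h4]
        push_cast
        ring
      · rw [if_pos h3, if_neg h4, if_pos h3, if_neg h4, h3, hc.even]
        push_cast
        ring
    · by_cases h4 : y - y' = x
      · rw [if_neg h3, if_pos h4, if_neg h3, if_pos h4, h4]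
        push_cast
        ring
      · rw [if_neg h3, if_neg h4, if_neg h3, if_neg h4]
        push_cast
        ring
  rw [Finset.sum_congr rfl h2]
  have h5 : ∑ y ∈ s, ∑ y' ∈ s, ((c x * (if y - y' = -x then √(w y) * √(w y') else 0) +
        c x * (if y - y' = x then √(w y) * √(w y') else 0)) / 2) = c x * kap s w x := by
    have h6 : ∀ y ∈ s, ∑ y' ∈ s, ((c x * (if y - y' = -x then √(w y) * √(w y') else 0) +
        c x * (if y - y' = x then √(w y) * √(w y') else 0)) / 2) =
        (c x / 2) * (∑ y' ∈ s, if y - y' = -x then √(w y) * √(w y') else 0) +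
        (c x / 2) * (∑ y' ∈ s, if y - y' = x then √(w y) * √(w y') else 0) := by
      intro y _
      rw [Finset.mul_sum, Finset.mul_sum, ← Finset.sum_add_distrib]
      refine Finset.sum_congr rfl fun y' _ => ?_
      ring
    rw [Finset.sum_congr rfl h6, Finset.sum_add_distrib, ← Finset.mul_sum, ← Finset.mul_sum,
      kap_eq' h0 x, kap_eq h0 x]
    ring
  rw [← h5]
  push_cast
  rfl

theorem exists_prob [Countable A] {c : A → ℝ} (hc : PD c) (h0c : c 0 = 1) {s : Finset A}
    {w : A → ℝ} (hw : ∀ y, 0 ≤ w y) (h0 : ∀ y, y ∉ s → w y = 0) (h1 : ∑ y ∈ s, w y = 1)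
    {m : Measure (X A)} [IsProbabilityMeasure m] (hm : ∀ x : A, x ≠ 0 → ∫ θ, ev x θ ∂m = 0) :
    ∃ P : ProbabilityMeasure (X A), ∀ x, ∫ θ, ev x θ ∂(P : Measure (X A)) =
      ((c x * kap s w x : ℝ) : ℂ) := by
  have hcont := continuous_den c s w
  have hnn := den_nonneg hc s w
  set Q : Measure (X A) := m.withDensity (fun θ => ENNReal.ofReal (den c s w θ)) with hQ
  have hint : Integrable (den c s w) m := by
    have := (integrable_of_cont (m := m) (Complex.continuous_ofReal.comp hcont)).re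
    exact this
  have htot : ∫ θ, den c s w θ ∂m = 1 := by
    have h2 := integral_den hc h0 hm 0
    simp only [ev_zero, mul_one] at h2
    rw [integral_complex_ofReal, kap_zero hw h1, h0c, mul_one] at h2
    exact_mod_cast h2
  have hprob : IsProbabilityMeasure Q := by
    refine ⟨?_⟩
    rw [hQ, withDensity_apply _ MeasurableSet.univ, Measure.restrict_univ,
      ← ofReal_integral_eq_lintegral_ofReal hint (Eventually.of_forall hnn), htot,
      ENNReal.ofReal_one]
  refine ⟨⟨Q, hprob⟩, fun x => ?_⟩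
  show ∫ θ, ev x θ ∂Q = _
  rw [hQ, integral_withDensity_eq_integral_toReal_smul (hcont.measurable.ennreal_ofReal)
    (Eventually.of_forall fun θ => ENNReal.ofReal_lt_top), ← integral_den hc h0 hm x]
  refine integral_congr_ae (Eventually.of_forall fun θ => ?_)
  show (ENNReal.ofReal (den c s w θ)).toReal • ev x θ = _
  rw [ENNReal.toReal_ofReal (hnn θ), Complex.real_smul]

end BochnerAux

open BochnerAux

theorem bochner {A : Type} [AddCommGroup A] [Countable A] (c : A → ℝ) (hc : PD c)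
    (h0 : c 0 = 1) : ∃ P : Measure (X A), IsProbabilityMeasure P ∧ Rep P c := by
  obtain ⟨m, hmp, hm⟩ := exists_haar A
  obtain ⟨s, w, hw, hw0, hw1, hinv⟩ := exists_w A
  choose P hP using fun n => exists_prob hc h0 (hw n) (hw0 n) (hw1 n) hm
  have hk : ∀ x, Tendsto (fun n => kap (s n) (w n) x) atTop (𝓝 1) := by
    intro x
    rw [Metric.tendsto_atTop']
    intro ε hε
    have h1 := hinv x (ε / 2) (half_pos hε)
    obtain ⟨N, hN⟩ := eventually_atTop.1 h1
    refine ⟨N, fun n hn => ?_⟩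
    rw [Real.dist_eq]
    exact (kap_near (hw n) (hw0 n) (hw1 n) x (hN n hn.le)).trans_lt (half_lt_self hε)
  -- limit along an ultrafilter
  set U : Ultrafilter ℕ := Ultrafilter.of atTop with hU
  have hUle : (U : Filter ℕ) ≤ atTop := Ultrafilter.of_le atTop
  obtain ⟨R, _, hR⟩ := isCompact_univ.ultrafilter_le_nhds (U.map P) (by simp)
  have hR' : Tendsto P U (𝓝 R) := hR
  rw [ProbabilityMeasure.tendsto_iff_forall_integral_tendsto] at hR'
  refine ⟨R, inferInstance, fun x => ?_⟩
  have hlim : Tendsto (fun n => c x * kap (s n) (w n) x) U (𝓝 (c x)) := by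
    have := ((hk x).const_mul (c x)).mono_left hUle
    rwa [mul_one] at this
  have hi : Integrable (ev x) (R : Measure (X A)) := integrable_of_cont (continuous_ev x)
  have hin : ∀ n, Integrable (ev x) (P n : Measure (X A)) :=
    fun n => integrable_of_cont (continuous_ev x)
  have hre : ∫ θ, (ev x θ).re ∂(R : Measure (X A)) = c x := by
    have h1 := hR' (BoundedContinuousFunction.mkOfCompact
      ⟨fun θ => (ev x θ).re, Complex.continuous_re.comp (continuous_ev x)⟩)
    refine tendsto_nhds_unique h1 ?_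
    refine hlim.congr fun n => ?_
    show _ = ∫ θ, (ev x θ).re ∂(P n : Measure (X A))
    have h2 := integral_re (hin n)
    have h3 : (∫ θ, ev x θ ∂(P n : Measure (X A))).re = c x * kap (s n) (w n) x := by
      rw [hP n x]
      exact Complex.ofReal_re _
    rw [← h3]
    exact h2.symm
  have him : ∫ θ, (ev x θ).im ∂(R : Measure (X A)) = 0 := by
    have h1 := hR' (BoundedContinuousFunction.mkOfCompact
      ⟨fun θ => (ev x θ).im, Complex.continuous_im.comp (continuous_ev x)⟩)
    refine tendsto_nhds_unique h1 ?_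
    refine (tendsto_const_nhds (x := (0 : ℝ))).congr fun n => ?_
    show _ = ∫ θ, (ev x θ).im ∂(P n : Measure (X A))
    have h2 := integral_im (hin n)
    have h3 : (∫ θ, ev x θ ∂(P n : Measure (X A))).im = 0 := by
      rw [hP n x]
      exact Complex.ofReal_im _
    rw [← h3]
    exact h2.symm
  apply Complex.ext
  · rw [Complex.ofReal_re, ← hre]
    exact (integral_re hi).symm
  · rw [Complex.ofReal_im, ← him]
    exact (integral_im hi).symm

end Pool.Agent.Lib.P3852C
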