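import Pool.Agent.Lib.P3852C.Defs

/-!
# §9: the Hilbert space lemma
-/

set_option autoImplicit false

namespace Pool.Agent.Lib.P3852C

open MeasureTheory Filter Topology

namespace CrumVAux

variable {F : Subfield ℂ} {H : Type} [NormedAddCommGroup H]
    [InnerProductSpace ℂ H]

/-- the orbit over a disc -/
def S (U : F → H →ₗᵢ[ℂ] H) (ξ : H) (t : ℝ) : Set H := {v | ∃ x : F, ‖(x : ℂ)‖ < t ∧ v = U x ξ}

/-- the closed convex hull of the orbit over a disc -/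
def C (U : F → H →ₗᵢ[ℂ] H) (ξ : H) (t : ℝ) : Set H := closure (convexHull ℝ (S U ξ t))

theorem S_mono (U : F → H →ₗᵢ[ℂ] H) (ξ : H) {t t' : ℝ} (h : t ≤ t') : S U ξ t ⊆ S U ξ t' := by
  rintro v ⟨x, hx, rfl⟩
  exact ⟨x, hx.trans_le h, rfl⟩

theorem C_mono (U : F → H →ₗᵢ[ℂ] H) (ξ : H) {t t' : ℝ} (h : t ≤ t') : C U ξ t ⊆ C U ξ t' :=
  closure_mono (convexHull_mono (S_mono U ξ h))

theorem S_nonempty (U : F → H →ₗᵢ[ℂ] H) (ξ : H) {t : ℝ} (ht : 0 < t) : (S U ξ t).Nonempty :=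
  ⟨U 0 ξ, 0, by simpa using ht, rfl⟩

theorem C_nonempty (U : F → H →ₗᵢ[ℂ] H) (ξ : H) {t : ℝ} (ht : 0 < t) : (C U ξ t).Nonempty :=
  (S_nonempty U ξ ht).mono ((subset_convexHull ℝ _).trans subset_closure)

theorem C_convex (U : F → H →ₗᵢ[ℂ] H) (ξ : H) (t : ℝ) : Convex ℝ (C U ξ t) :=
  (convex_convexHull ℝ _).closure

/-- translation -/
theorem C_translate (U : F → H →ₗᵢ[ℂ] H) (hU : ∀ x y v, U (x + y) v = U x (U y v)) (ξ : H) (t : ℝ)
    (y : F) {v : H} (hv : v ∈ C U ξ t) : U y v ∈ C U ξ (t + ‖(y : ℂ)‖) := by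
  have h1 : (U y) '' convexHull ℝ (S U ξ t) ⊆ convexHull ℝ (S U ξ (t + ‖(y : ℂ)‖)) := by
    have h2 := LinearMap.image_convexHull ((U y).toLinearMap.restrictScalars ℝ) (S U ξ t)
    have h3 : ((U y).toLinearMap.restrictScalars ℝ) '' S U ξ t ⊆ S U ξ (t + ‖(y : ℂ)‖) := by
      rintro _ ⟨v, ⟨x, hx, rfl⟩, rfl⟩
      refine ⟨y + x, ?_, ?_⟩
      · have h4 : ‖((y + x : F) : ℂ)‖ ≤ ‖(y : ℂ)‖ + ‖(x : ℂ)‖ := by
          rw [Subfield.coe_add]
          exact norm_add_le _ _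
        linarith
      · rw [hU]
        rfl
    have h5 := (h2.le).trans (convexHull_mono h3)
    exact h5
  have h2 : U y v ∈ (U y) '' closure (convexHull ℝ (S U ξ t)) := ⟨v, hv, rfl⟩
  have h3 := image_closure_subset_closure_image (U y).continuous h2
  exact closure_mono h1 h3

/-- the squared norms on the convex hull are bounded below -/
theorem hull_lower (U : F → H →ₗᵢ[ℂ] H) (ξ : H) (t ε₀ : ℝ)
    (h : ∀ (s : Finset F) (w : F → ℝ), (∀ x ∈ s, ‖(x : ℂ)‖ < t) → (∀ x, 0 ≤ w x) →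
      ∑ x ∈ s, w x = 1 → ε₀ ≤ ‖∑ x ∈ s, (w x : ℂ) • U x ξ‖ ^ 2) (v : H)
    (hv : v ∈ convexHull ℝ (S U ξ t)) : ε₀ ≤ ‖v‖ ^ 2 := by
  -- the set of the averages is convex
  set L : (F →₀ ℝ) →ₗ[ℝ] H := Finsupp.linearCombination ℝ (fun x => U x ξ) with hL
  set P : Set (F →₀ ℝ) := {p | (∀ x, 0 ≤ p x) ∧ (∑ x ∈ p.support, p x = 1) ∧
    ∀ x, p x ≠ 0 → ‖(x : ℂ)‖ < t} with hP
  have hPc : Convex ℝ P := by
    intro p hp q hq a b ha hb hab
    refine ⟨fun x => ?_, ?_, fun x hx => ?_⟩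
    · rw [Finsupp.add_apply, Finsupp.smul_apply, Finsupp.smul_apply, smul_eq_mul, smul_eq_mul]
      exact add_nonneg (mul_nonneg ha (hp.1 x)) (mul_nonneg hb (hq.1 x))
    · have h1 : ∀ r : F →₀ ℝ, ∑ x ∈ r.support, r x = Finsupp.linearCombination ℝ (fun _ : F => (1 : ℝ)) r := by
        intro r
        rw [Finsupp.linearCombination_apply, Finsupp.sum]
        exact Finset.sum_congr rfl fun x _ => by rw [smul_eq_mul, mul_one]
      have hp1 := hp.2.1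
      have hq1 := hq.2.1
      rw [h1] at hp1 hq1 ⊢
      rw [map_add, map_smul, map_smul, hp1, hq1, smul_eq_mul, smul_eq_mul, mul_one, mul_one, hab]
    · by_cases h1 : p x = 0
      · refine hq.2.2 x fun h2 => hx ?_
        rw [Finsupp.add_apply, Finsupp.smul_apply, Finsupp.smul_apply, h1, h2, smul_zero, smul_zero,
          add_zero]
      · exact hp.2.2 x h1
  have h1 : convexHull ℝ (S U ξ t) ⊆ L '' P := by
    refine convexHull_min ?_ (hPc.linear_image L)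
    rintro _ ⟨x, hx, rfl⟩
    refine ⟨Finsupp.single x 1, ⟨fun y => ?_, ?_, fun y hy => ?_⟩, ?_⟩
    · rw [Finsupp.single_apply]
      split_ifs <;> norm_num
    · rw [Finsupp.support_single x one_ne_zero, Finset.sum_singleton, Finsupp.single_eq_same]
    · have : x = y := by
        by_contra hne
        exact hy (Finsupp.single_eq_of_ne (Ne.symm hne))
      rw [← this]
      exact hx
    · rw [hL, Finsupp.linearCombination_single, one_smul]
  obtain ⟨p, hp, rfl⟩ := h1 hv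
  have h2 := h p.support p (fun x hx => hp.2.2 x (Finsupp.mem_support_iff.1 hx)) hp.1 hp.2.1
  have h3 : L p = ∑ x ∈ p.support, ((p x : ℝ) : ℂ) • U x ξ := by
    rw [hL, Finsupp.linearCombination_apply, Finsupp.sum]
    exact Finset.sum_congr rfl fun x _ => (Complex.coe_smul _ _).symm
  rwa [h3]

theorem C_lower (U : F → H →ₗᵢ[ℂ] H) (ξ : H) (t ε₀ : ℝ)
    (h : ∀ (s : Finset F) (w : F → ℝ), (∀ x ∈ s, ‖(x : ℂ)‖ < t) → (∀ x, 0 ≤ w x) →
      ∑ x ∈ s, w x = 1 → ε₀ ≤ ‖∑ x ∈ s, (w x : ℂ) • U x ξ‖ ^ 2) (v : H)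
    (hv : v ∈ C U ξ t) : ε₀ ≤ ‖v‖ ^ 2 := by
  have hcl : IsClosed {v : H | ε₀ ≤ ‖v‖ ^ 2} := isClosed_le continuous_const (continuous_norm.pow 2)
  exact closure_minimal (fun v hv => hull_lower U ξ t ε₀ h v hv) hcl hv

theorem C_span (U : F → H →ₗᵢ[ℂ] H) (ξ : H) (t : ℝ) :
    C U ξ t ⊆ (Submodule.span ℂ (Set.range fun x => U x ξ)).topologicalClosure := by
  rw [Submodule.topologicalClosure_coe]
  refine closure_mono (convexHull_min ?_ ?_)
  · rintro _ ⟨x, _, rfl⟩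
    exact Submodule.subset_span ⟨x, rfl⟩
  · exact ((Submodule.span ℂ (Set.range fun x => U x ξ)).restrictScalars ℝ).convex

end CrumVAux

open CrumVAux

/-- Let `U` be a unitary representation of `(F, +)` on a Hilbert space and `ξ` a vector such that for
some `T, ε₀ > 0` all weighted averages of `U x ξ` over `‖x‖ < T` have norm² `≥ ε₀`. Then the closed span
of the `U x ξ` contains a nonzero vector `η` with `‖U y η - η‖ → 0` as `y → 0`.
Proof: `d t = inf ‖∑ w_x U x ξ‖²` over weights on `‖x‖ < t` is nonincreasing; take `t₀ < T`, a point of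
right continuity of `d`; a minimising sequence for `d t₀` is Cauchy (parallelogram; midpoints of
averages are averages), limit `η`, `‖η‖² = d t₀`; `‖U y η - η‖² ≤ 4 d(t₀) - 4 d(t₀ + ‖y‖)`. -/
theorem exists_cont_vector (F : Subfield ℂ) {H : Type} [NormedAddCommGroup H]
    [InnerProductSpace ℂ H] [CompleteSpace H] (U : F → H →ₗᵢ[ℂ] H)
    (hU0 : ∀ v, U 0 v = v) (hU : ∀ x y v, U (x + y) v = U x (U y v)) (ξ : H) (T ε₀ : ℝ)
    (hT : 0 < T) (hε : 0 < ε₀)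
    (h : ∀ (s : Finset F) (w : F → ℝ), (∀ x ∈ s, ‖(x : ℂ)‖ < T) → (∀ x, 0 ≤ w x) →
      ∑ x ∈ s, w x = 1 → ε₀ ≤ ‖∑ x ∈ s, (w x : ℂ) • U x ξ‖ ^ 2) :
    ∃ η : H, η ≠ 0 ∧ η ∈ (Submodule.span ℂ (Set.range fun x => U x ξ)).topologicalClosure ∧
      ∀ ε : ℝ, 0 < ε → ∃ δ : ℝ, 0 < δ ∧ ∀ y : F, ‖(y : ℂ)‖ < δ → ‖U y η - η‖ ≤ ε := by
  -- the distance function
  set D : ℝ → ℝ := fun t => Metric.infDist (0 : H) (C U ξ (max t (T / 2))) with hD
  have hτ : ∀ t : ℝ, 0 < max t (T / 2) := fun t => lt_max_of_lt_right (by linarith)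
  have hanti : Antitone D := by
    intro s t hst
    exact Metric.infDist_le_infDist_of_subset (C_mono U ξ (max_le_max_right _ hst))
      (C_nonempty U ξ (hτ s))
  have hD0 : ∀ t, 0 ≤ D t := fun t => Metric.infDist_nonneg
  obtain ⟨t₀, ht₀, ht₁, ht₂⟩ := (hanti.countable_not_continuousAt.dense_compl ℝ).exists_between
    (show T / 2 < T by linarith)
  have hcont : ContinuousAt D t₀ := by
    by_contra hc
    exact ht₀ hc
  have hmax : ∀ t, T / 2 < t → max t (T / 2) = t := fun t ht => max_eq_left ht.le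
  -- the minimal vector
  have hcl : IsClosed (C U ξ t₀) := isClosed_closure
  let _ : InnerProductSpace ℝ H := InnerProductSpace.complexToReal
  obtain ⟨η, hη, hηm⟩ := exists_norm_eq_iInf_of_complete_convex (F := H)
    (C_nonempty U ξ (by linarith : 0 < t₀)) hcl.isComplete (C_convex U ξ t₀) 0
  have hηD : ‖η‖ = D t₀ := by
    have h1 : D t₀ = ⨅ w : C U ξ t₀, dist (0 : H) w := by
      rw [hD]
      show Metric.infDist (0 : H) (C U ξ (max t₀ (T / 2))) = _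
      rw [hmax t₀ ht₁, Metric.infDist_eq_iInf]
    rw [h1]
    rw [zero_sub, norm_neg] at hηm
    rw [hηm]
    congr 1
    funext w
    rw [dist_eq_norm]
  refine ⟨η, ?_, C_span U ξ t₀ hη, ?_⟩
  · intro h0
    have h1 := C_lower U ξ t₀ ε₀ (fun s w hs hw hsum => h s w (fun x hx => (hs x hx).trans ht₂) hw hsum) η hη
    rw [h0, norm_zero] at h1
    norm_num at h1
    linarith
  · intro ε hε'
    have hcont2 : ContinuousAt (fun t => D t ^ 2) t₀ := hcont.pow 2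
    rw [Metric.continuousAt_iff] at hcont2
    obtain ⟨δ, hδ, hδ2⟩ := hcont2 (ε ^ 2 / 4) (by positivity)
    refine ⟨δ, hδ, fun y hy => ?_⟩
    have hy0 : 0 ≤ ‖(y : ℂ)‖ := norm_nonneg _
    have h1 : |D (t₀ + ‖(y : ℂ)‖) ^ 2 - D t₀ ^ 2| < ε ^ 2 / 4 := by
      have := @hδ2 (t₀ + ‖(y : ℂ)‖) (by
        rw [Real.dist_eq, add_sub_cancel_left, abs_of_nonneg hy0]; exact hy)
      rwa [Real.dist_eq] at this
    -- the midpoint
    have h2 : U y η ∈ C U ξ (t₀ + ‖(y : ℂ)‖) := C_translate U hU ξ t₀ y hη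
    have h3 : η ∈ C U ξ (t₀ + ‖(y : ℂ)‖) := C_mono U ξ (by linarith) hη
    have h4 : (1 / 2 : ℝ) • η + (1 / 2 : ℝ) • U y η ∈ C U ξ (t₀ + ‖(y : ℂ)‖) :=
      C_convex U ξ _ h3 h2 (by norm_num) (by norm_num) (by norm_num)
    have h5 : D (t₀ + ‖(y : ℂ)‖) ≤ ‖(1 / 2 : ℝ) • η + (1 / 2 : ℝ) • U y η‖ := by
      have h6 : D (t₀ + ‖(y : ℂ)‖) = Metric.infDist (0 : H) (C U ξ (t₀ + ‖(y : ℂ)‖)) := by
        rw [hD]
        show Metric.infDist (0 : H) (C U ξ (max (t₀ + ‖(y : ℂ)‖) (T / 2))) = _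
        rw [hmax _ (by linarith)]
      rw [h6]
      refine (Metric.infDist_le_dist_of_mem h4).trans (le_of_eq ?_)
      rw [dist_eq_norm, zero_sub, norm_neg]
    rw [← smul_add, norm_smul, Real.norm_of_nonneg (by norm_num : (0 : ℝ) ≤ 1 / 2)] at h5
    have h6 : ‖η + U y η‖ ^ 2 + ‖η - U y η‖ ^ 2 = 2 * (‖η‖ ^ 2 + ‖U y η‖ ^ 2) :=
      parallelogram_law_with_norm ℂ η (U y η)
    have h7 : ‖U y η‖ = ‖η‖ := (U y).norm_map η
    rw [h7, hηD] at h6
    have h8 : (2 * D (t₀ + ‖(y : ℂ)‖)) ^ 2 ≤ ‖η + U y η‖ ^ 2 :=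
      pow_le_pow_left₀ (by have := hD0 (t₀ + ‖(y : ℂ)‖); linarith) (by linarith) 2
    have h9 := (abs_lt.1 h1).1
    have h10 : ‖U y η - η‖ ^ 2 ≤ ε ^ 2 := by
      rw [norm_sub_rev]
      nlinarith
    exact le_of_sq_le_sq h10 hε'.le

end Pool.Agent.Lib.P3852C
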