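import Pool.Agent.Lib.P3852C.Trig

/-!
# Consequences: positive definiteness and invariance

`pd_of_rep`: `∑ a x a y c (x-y) = ∫ |∑ a x ev x|²`; `c (-x) = conj (c x) = c x`.
`rep_invariant`: `P.map (X.pull α)` represents `c ∘ α = c`; `rep_unique`.
-/

set_option autoImplicit false

namespace Pool.Agent.Lib.P3852C

open MeasureTheory

variable {A : Type} [AddCommGroup A] [Countable A]

namespace TrigBAux

omit [Countable A] in
theorem integrable_ev (P : Measure (X A)) [IsProbabilityMeasure P] (x : A) :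
    Integrable (ev x) P := by
  refine Integrable.of_bound (measurable_ev x).aestronglyMeasurable 1 ?_
  exact Filter.Eventually.of_forall fun θ => (norm_ev x θ).le

end TrigBAux

open TrigBAux

theorem pd_of_rep (P : Measure (X A)) [IsProbabilityMeasure P] (c : A → ℝ) (h : Rep P c) :
    PD c ∧ c 0 = 1 := by
  refine ⟨⟨?_, ?_⟩, ?_⟩
  · intro x
    apply Complex.ofReal_injective
    rw [← h (-x)]
    have h1 : ∫ θ, ev (-x) θ ∂P = ∫ θ, (starRingEnd ℂ) (ev x θ) ∂P :=
      integral_congr_ae (Filter.Eventually.of_forall fun θ => ev_neg x θ)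
    rw [h1, integral_conj, h x, Complex.conj_ofReal]
  · intro s a
    have h1 : ((∑ x ∈ s, ∑ y ∈ s, a x * a y * c (x - y) : ℝ) : ℂ) =
        ((∫ θ, ‖∑ x ∈ s, (a x : ℂ) * ev x θ‖ ^ 2 ∂P : ℝ) : ℂ) := by
      have h2 : ∀ θ : X A, ((‖∑ x ∈ s, (a x : ℂ) * ev x θ‖ ^ 2 : ℝ) : ℂ) =
          ∑ x ∈ s, ∑ y ∈ s, (a x : ℂ) * (a y : ℂ) * ev (x - y) θ := by
        intro θ
        have h3 : ((‖∑ x ∈ s, (a x : ℂ) * ev x θ‖ ^ 2 : ℝ) : ℂ) =
            (∑ x ∈ s, (a x : ℂ) * ev x θ) * (starRingEnd ℂ) (∑ x ∈ s, (a x : ℂ) * ev x θ) := by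
          rw [Complex.mul_conj, Complex.normSq_eq_norm_sq]
        rw [h3, map_sum, Finset.sum_mul_sum]
        refine Finset.sum_congr rfl fun x _ => Finset.sum_congr rfl fun y _ => ?_
        rw [map_mul, Complex.conj_ofReal, ev_sub]
        ring
      have h4 : ((∫ θ, ‖∑ x ∈ s, (a x : ℂ) * ev x θ‖ ^ 2 ∂P : ℝ) : ℂ) =
          ∫ θ, ((‖∑ x ∈ s, (a x : ℂ) * ev x θ‖ ^ 2 : ℝ) : ℂ) ∂P := integral_ofReal.symm
      rw [h4, integral_congr_ae (Filter.Eventually.of_forall h2),
        integral_finsetSum _ fun x _ => integrable_finsetSum _ fun y _ =>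
          (integrable_ev P (x - y)).const_mul _]
      push_cast
      refine Finset.sum_congr rfl fun x _ => ?_
      rw [integral_finsetSum _ fun y _ => (integrable_ev P (x - y)).const_mul _]
      refine Finset.sum_congr rfl fun y _ => ?_
      rw [integral_const_mul, h (x - y)]
    have h5 := Complex.ofReal_injective h1
    rw [h5]
    exact integral_nonneg fun θ => by positivity
  · apply Complex.ofReal_injective
    rw [← h 0]
    simp

theorem rep_invariant (P : Measure (X A)) [IsProbabilityMeasure P] (c : A → ℝ) (h : Rep P c)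
    (α : A →+ A) (hα : ∀ x, c (α x) = c x) : MeasurePreserving (X.pull α) P P := by
  refine ⟨measurable_pull α, ?_⟩
  have hp : IsProbabilityMeasure (P.map (X.pull α)) :=
    Measure.isProbabilityMeasure_map (measurable_pull α).aemeasurable
  refine rep_unique _ _ fun x => ?_
  rw [integral_map (measurable_pull α).aemeasurable (measurable_ev x).aestronglyMeasurable, h x]
  have h1 : ∫ θ, ev x (X.pull α θ) ∂P = ∫ θ, ev (α x) θ ∂P :=
    integral_congr_ae (Filter.Eventually.of_forall fun θ => ev_pull α x θ)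
  rw [h1, h (α x), hα x]

end Pool.Agent.Lib.P3852C
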