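import Pool.Agent.Lib.P3852C.ThmA
import Pool.Agent.Lib.P3852C.CrumV
import Pool.Agent.Lib.P3852C.Bochner
import Pool.Agent.Lib.P3852C.TrigB

/-!
# §9: Crum's theorem without measurability

See §9. `H = L²(X F, P)`, `U x f = ev x * f`, `R γ f = f ∘ rotX γ`. `H_c = {f | ‖U x f - f‖ → 0 as x → 0}`
(closed subspace, invariant under `U`, `R`), `1 = ξ₁ + ξ₂`. `c₁ x = ⟪ξ₁, U x ξ₁⟫`, `c₂` likewise.
-/

set_option autoImplicit false

namespace Pool.Agent.Lib.P3852C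

open MeasureTheory Filter Topology

namespace CrumAux

section Hilb

variable {F : Subfield ℂ} {H : Type} [NormedAddCommGroup H] [InnerProductSpace ℂ H]

/-- continuous vectors -/
def Hc (U : F → H →ₗᵢ[ℂ] H) : Submodule ℂ H where
  carrier := {f | ∀ ε : ℝ, 0 < ε → ∃ δ : ℝ, 0 < δ ∧ ∀ y : F, ‖(y : ℂ)‖ < δ → ‖U y f - f‖ ≤ ε}
  zero_mem' := by
    intro ε hε
    exact ⟨1, one_pos, fun y _ => by simp [hε.le]⟩
  add_mem' := by
    intro f g hf hg ε hε
    obtain ⟨d1, h1, h1'⟩ := hf (ε / 2) (by linarith)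
    obtain ⟨d2, h2, h2'⟩ := hg (ε / 2) (by linarith)
    refine ⟨min d1 d2, lt_min h1 h2, fun y hy => ?_⟩
    have e : U y (f + g) - (f + g) = (U y f - f) + (U y g - g) := by rw [map_add]; abel
    rw [e]
    refine (norm_add_le _ _).trans ?_
    have := h1' y (hy.trans_le (min_le_left _ _))
    have := h2' y (hy.trans_le (min_le_right _ _))
    linarith
  smul_mem' := by
    intro c f hf ε hε
    obtain ⟨d1, h1, h1'⟩ := hf (ε / (‖c‖ + 1)) (by positivity)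
    refine ⟨d1, h1, fun y hy => ?_⟩
    have e : U y (c • f) - (c • f) = c • (U y f - f) := by rw [map_smul, smul_sub]
    rw [e, norm_smul]
    have h3 := h1' y hy
    have h4 : (‖c‖ + 1) * ‖U y f - f‖ ≤ ε := by
      rw [le_div_iff₀ (by positivity)] at h3
      linarith
    nlinarith [norm_nonneg (U y f - f), norm_nonneg c]

lemma mem_Hc (U : F → H →ₗᵢ[ℂ] H) (f : H) : f ∈ Hc U ↔
    ∀ ε : ℝ, 0 < ε → ∃ δ : ℝ, 0 < δ ∧ ∀ y : F, ‖(y : ℂ)‖ < δ → ‖U y f - f‖ ≤ ε := Iff.rfl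

lemma isClosed_Hc (U : F → H →ₗᵢ[ℂ] H) : IsClosed ((Hc U : Submodule ℂ H) : Set H) := by
  refine isClosed_of_closure_subset fun f hf => ?_
  intro ε hε
  obtain ⟨g, hg, hfg⟩ := Metric.mem_closure_iff.1 hf (ε / 4) (by linarith)
  obtain ⟨d1, h1, h1'⟩ := hg (ε / 4) (by linarith)
  refine ⟨d1, h1, fun y hy => ?_⟩
  have e : U y f - f = U y (f - g) + (U y g - g) + (g - f) := by rw [map_sub]; abel
  rw [e]
  rw [dist_eq_norm] at hfg
  have h2 := norm_add₃_le (a := U y (f - g)) (b := U y g - g) (c := g - f)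
  rw [(U y).norm_map] at h2
  have h3 := h1' y hy
  rw [norm_sub_rev g f] at h2
  linarith

lemma inner_U (U : F → H →ₗᵢ[ℂ] H) (hU0 : ∀ v, U 0 v = v) (hU : ∀ x y v, U (x + y) v = U x (U y v))
    (x : F) (v w : H) : inner ℂ (U x v) w = inner ℂ v (U (-x) w) := by
  have h : w = U x (U (-x) w) := by rw [← hU]; simp [hU0]
  conv_lhs => rw [h]
  rw [(U x).inner_map_map]

lemma U_mem_Hc (U : F → H →ₗᵢ[ℂ] H) (hU : ∀ x y v, U (x + y) v = U x (U y v))
    (x : F) {f : H} (hf : f ∈ Hc U) : U x f ∈ Hc U := by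
  intro ε hε
  obtain ⟨d, h1, h2⟩ := hf ε hε
  refine ⟨d, h1, fun y hy => ?_⟩
  rw [← hU, add_comm, hU, ← map_sub, (U x).norm_map]
  exact h2 y hy

lemma U_mem_orth (U : F → H →ₗᵢ[ℂ] H) (hU0 : ∀ v, U 0 v = v)
    (hU : ∀ x y v, U (x + y) v = U x (U y v))
    (x : F) {f : H} (hf : f ∈ (Hc U)ᗮ) : U x f ∈ (Hc U)ᗮ := by
  rw [Submodule.mem_orthogonal] at hf ⊢
  intro u hu
  have := hf (U (-x) u) (U_mem_Hc U hU (-x) hu)
  rw [inner_U U hU0 hU] at this
  simpa using this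

lemma sum_form (U : F → H →ₗᵢ[ℂ] H) (hU0 : ∀ v, U 0 v = v)
    (hU : ∀ x y v, U (x + y) v = U x (U y v)) (ξ : H) (q : F → ℝ)
    (hq : ∀ x, inner ℂ ξ (U x ξ) = (q x : ℂ)) (s : Finset F) (a : F → ℝ) :
    ‖∑ x ∈ s, (a x : ℂ) • U x ξ‖ ^ 2 = ∑ x ∈ s, ∑ y ∈ s, a x * a y * q (x - y) := by
  have h1 : ((‖∑ x ∈ s, (a x : ℂ) • U x ξ‖ ^ 2 : ℝ) : ℂ)
      = ((∑ x ∈ s, ∑ y ∈ s, a x * a y * q (x - y) : ℝ) : ℂ) := by
    have h0 := inner_self_eq_norm_sq_to_K (𝕜 := ℂ) (∑ x ∈ s, (a x : ℂ) • U x ξ)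
    push_cast
    rw [show ((‖∑ x ∈ s, (a x : ℂ) • U x ξ‖ : ℂ) ^ 2)
      = inner ℂ (∑ x ∈ s, (a x : ℂ) • U x ξ) (∑ x ∈ s, (a x : ℂ) • U x ξ) from h0.symm]
    rw [inner_sum]
    refine Finset.sum_congr rfl fun x _ => ?_
    rw [sum_inner]
    refine Finset.sum_congr rfl fun y _ => ?_
    rw [inner_smul_left, inner_smul_right, inner_U U hU0 hU, ← hU, neg_add_eq_sub, hq]
    simp
    ring
  exact_mod_cast h1

lemma R_mem_Hc (U : F → H →ₗᵢ[ℂ] H) (R : Gam F → H →ₗᵢ[ℂ] H)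
    (hRU : ∀ γ x v, R γ (U x v) = U (toF γ * x) (R γ v)) (γ : Gam F) {f : H} (hf : f ∈ Hc U) :
    R γ f ∈ Hc U := by
  intro ε hε
  obtain ⟨d, h1, h2⟩ := hf ε hε
  refine ⟨d, h1, fun y hy => ?_⟩
  have e : toF γ * (toF γ⁻¹ * y) = y := by
    rw [← mul_assoc, ← toF_mul, mul_inv_cancel, toF_one, one_mul]
  have h3 := hRU γ (toF γ⁻¹ * y) f
  rw [e] at h3
  rw [← h3, ← map_sub, (R γ).norm_map]
  refine h2 _ ?_
  rw [Subfield.coe_mul, norm_mul, norm_toF, one_mul]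
  exact hy

lemma R_mem_orth (U : F → H →ₗᵢ[ℂ] H) (R : Gam F → H →ₗᵢ[ℂ] H)
    (hR : ∀ γ v, R γ (R γ⁻¹ v) = v)
    (hRU : ∀ γ x v, R γ (U x v) = U (toF γ * x) (R γ v)) (γ : Gam F) {f : H}
    (hf : f ∈ (Hc U)ᗮ) : R γ f ∈ (Hc U)ᗮ := by
  rw [Submodule.mem_orthogonal] at hf ⊢
  intro u hu
  have := hf (R γ⁻¹ u) (R_mem_Hc U R hRU γ⁻¹ hu)
  rw [← hR γ u, (R γ).inner_map_map]
  exact this

lemma radial_form (U : F → H →ₗᵢ[ℂ] H) (R : Gam F → H →ₗᵢ[ℂ] H)
    (hRU : ∀ γ x v, R γ (U x v) = U (toF γ * x) (R γ v)) (ξ : H) (hξ : ∀ γ, R γ ξ = ξ)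
    (x y : F) (hxy : ‖(x : ℂ)‖ = ‖(y : ℂ)‖) : inner ℂ ξ (U x ξ) = inner ℂ ξ (U y ξ) := by
  by_cases hx : x = 0
  · subst hx
    have : y = 0 := by
      have h : ‖(y : ℂ)‖ = 0 := by rw [← hxy]; simp
      rw [norm_eq_zero] at h
      exact_mod_cast h
    rw [this]
  · have hx' : (x : ℂ) ≠ 0 := by exact_mod_cast hx
    have hn : ‖((y : ℂ) / x)‖ = 1 := by
      rw [norm_div, hxy, div_self]
      rw [← hxy]
      exact norm_ne_zero_iff.2 hx'
    let γ : Gam F := ⟨⟨(y : ℂ) / x, mem_sphere_zero_iff_norm.2 hn⟩, F.div_mem y.2 x.2⟩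
    have hγ : toF γ * x = y := by
      apply Subtype.ext
      rw [Subfield.coe_mul, coe_toF]
      exact div_mul_cancel₀ _ hx'
    have h1 := hRU γ x ξ
    rw [hγ, hξ] at h1
    rw [← h1]
    conv_rhs => rw [← hξ γ]
    rw [hξ γ]
    conv_rhs => rw [show inner ℂ ξ (R γ (U x ξ)) = inner ℂ (R γ ξ) (R γ (U x ξ)) by rw [hξ γ]]
    rw [(R γ).inner_map_map]

lemma real_form (U : F → H →ₗᵢ[ℂ] H) (hU0 : ∀ v, U 0 v = v)
    (hU : ∀ x y v, U (x + y) v = U x (U y v)) (R : Gam F → H →ₗᵢ[ℂ] H)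
    (hRU : ∀ γ x v, R γ (U x v) = U (toF γ * x) (R γ v)) (ξ : H) (hξ : ∀ γ, R γ ξ = ξ) :
    ∃ q : F → ℝ, (∀ x, inner ℂ ξ (U x ξ) = (q x : ℂ)) ∧ PD q ∧ Radial F q := by
  refine ⟨fun x => (inner ℂ ξ (U x ξ) : ℂ).re, ?_, ?_, ?_⟩
  · intro x
    have h1 : (starRingEnd ℂ) (inner ℂ ξ (U x ξ)) = inner ℂ ξ (U x ξ) := by
      rw [inner_conj_symm, inner_U U hU0 hU]
      exact radial_form U R hRU ξ hξ _ _ (by simp)
    exact (Complex.conj_eq_iff_re.1 h1).symm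
  · have hr : ∀ x, inner ℂ ξ (U x ξ) = (((inner ℂ ξ (U x ξ) : ℂ).re : ℝ) : ℂ) := by
      intro x
      have h1 : (starRingEnd ℂ) (inner ℂ ξ (U x ξ)) = inner ℂ ξ (U x ξ) := by
        rw [inner_conj_symm, inner_U U hU0 hU]
        exact radial_form U R hRU ξ hξ _ _ (by simp)
      exact (Complex.conj_eq_iff_re.1 h1).symm
    refine ⟨fun x => ?_, fun s a => ?_⟩
    · show (inner ℂ ξ (U (-x) ξ) : ℂ).re = (inner ℂ ξ (U x ξ) : ℂ).re
      rw [radial_form U R hRU ξ hξ (-x) x (by simp)]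
    · have := sum_form U hU0 hU ξ (fun x => (inner ℂ ξ (U x ξ) : ℂ).re) hr s a
      rw [← this]
      positivity
  · intro x y hxy
    show (inner ℂ ξ (U x ξ) : ℂ).re = (inner ℂ ξ (U y ξ) : ℂ).re
    rw [radial_form U R hRU ξ hξ x y hxy]

theorem crum_abs [CompleteSpace H] (hF : GoodField F) (U : F → H →ₗᵢ[ℂ] H)
    (hU0 : ∀ v, U 0 v = v) (hU : ∀ x y v, U (x + y) v = U x (U y v))
    (R : Gam F → H →ₗᵢ[ℂ] H) (hR : ∀ γ v, R γ (R γ⁻¹ v) = v)
    (hRU : ∀ γ x v, R γ (U x v) = U (toF γ * x) (R γ v)) (e : H) (he : ∀ γ, R γ e = e)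
    (c : F → ℝ) (hce : ∀ x, inner ℂ e (U x e) = (c x : ℂ)) :
    ∃ c₁ : F → ℝ, PD c₁ ∧ Radial F c₁ ∧ (∀ x, x ≠ 0 → c₁ x = c x) ∧ c₁ 0 ≤ c 0 ∧
      ∀ ε : ℝ, 0 < ε → ∃ δ : ℝ, 0 < δ ∧ ∀ x y : F, ‖(x : ℂ) - y‖ < δ → |c₁ x - c₁ y| ≤ ε := by
  have : CompleteSpace (Hc U) := (isClosed_Hc U).completeSpace_coe
  obtain ⟨ξ₁, h₁, ξ₂, h₂, hsum⟩ := (Hc U).exists_add_mem_mem_orthogonal e
  have hortho : ∀ u ∈ Hc U, ∀ v ∈ (Hc U)ᗮ, inner ℂ u v = 0 := by
    intro u hu v hv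
    exact (Submodule.mem_orthogonal _ _).1 hv u hu
  have hortho' : ∀ u ∈ Hc U, ∀ v ∈ (Hc U)ᗮ, inner ℂ v u = 0 := by
    intro u hu v hv
    rw [← inner_conj_symm, hortho u hu v hv, map_zero]
  have hinv : ∀ γ, R γ ξ₁ = ξ₁ ∧ R γ ξ₂ = ξ₂ := by
    intro γ
    have e1 : R γ ξ₁ + R γ ξ₂ = ξ₁ + ξ₂ := by rw [← map_add, ← hsum, he]
    have m1 : R γ ξ₁ - ξ₁ ∈ Hc U := Submodule.sub_mem _ (R_mem_Hc U R hRU γ h₁) h₁
    have m2 : ξ₂ - R γ ξ₂ ∈ (Hc U)ᗮ := Submodule.sub_mem _ h₂ (R_mem_orth U R hR hRU γ h₂)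
    have e2 : R γ ξ₁ - ξ₁ = ξ₂ - R γ ξ₂ := by
      rw [sub_eq_sub_iff_add_eq_add, e1, add_comm]
    have e3 : inner ℂ (R γ ξ₁ - ξ₁) (R γ ξ₁ - ξ₁) = 0 := by
      conv_lhs => rw [e2]
      rw [← e2]
      nth_rewrite 2 [e2]
      exact hortho _ m1 _ m2
    have e4 : R γ ξ₁ - ξ₁ = 0 := inner_self_eq_zero.1 e3
    have e5 : R γ ξ₁ = ξ₁ := sub_eq_zero.1 e4
    refine ⟨e5, ?_⟩
    rw [e5] at e1
    exact add_left_cancel e1
  obtain ⟨c₁, hc₁, pd₁, rad₁⟩ := real_form U hU0 hU R hRU ξ₁ (fun γ => (hinv γ).1)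
  obtain ⟨c₂, hc₂, pd₂, rad₂⟩ := real_form U hU0 hU R hRU ξ₂ (fun γ => (hinv γ).2)
  have hadd : ∀ x, c x = c₁ x + c₂ x := by
    intro x
    have h1 : ((c x : ℝ) : ℂ) = ((c₁ x + c₂ x : ℝ) : ℂ) := by
      rw [← hce x]
      push_cast
      rw [← hc₁ x, ← hc₂ x]
      conv_lhs => rw [hsum]
      rw [map_add, inner_add_left, inner_add_right, inner_add_right,
        hortho ξ₁ h₁ (U x ξ₂) (U_mem_orth U hU0 hU x h₂),
        hortho' (U x ξ₁) (U_mem_Hc U hU x h₁) ξ₂ h₂]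
      ring
    exact_mod_cast h1
  have hn : ∀ (ξ : H) (q : F → ℝ), (∀ x, inner ℂ ξ (U x ξ) = (q x : ℂ)) → q 0 = ‖ξ‖ ^ 2 := by
    intro ξ q hq
    have h1 := hq 0
    rw [hU0, inner_self_eq_norm_sq_to_K] at h1
    have h2 : ((q 0 : ℝ) : ℂ) = ((‖ξ‖ ^ 2 : ℝ) : ℂ) := by
      rw [← h1]; push_cast; rfl
    exact Complex.ofReal_injective h2
  have hc₂0 : ∀ x, x ≠ 0 → c₂ x = 0 := by
    intro x hx
    by_cases hz : ξ₂ = 0
    · have h1 := hc₂ x
      rw [hz] at h1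
      simp only [map_zero, inner_zero_left] at h1
      exact_mod_cast h1.symm
    · have hpos : 0 < ‖ξ₂‖ ^ 2 := by
        have := norm_pos_iff.2 hz
        positivity
      have h0 := hn ξ₂ c₂ hc₂
      have hD : InD F (fun x => c₂ x / ‖ξ₂‖ ^ 2) := by
        refine ⟨⟨fun x => ?_, fun s a => ?_⟩, ?_, ?_, ?_⟩
        · show c₂ (-x) / _ = c₂ x / _
          rw [pd₂.even]
        · have h1 : ∑ x ∈ s, ∑ y ∈ s, a x * a y * (c₂ (x - y) / ‖ξ₂‖ ^ 2)
              = (∑ x ∈ s, ∑ y ∈ s, a x * a y * c₂ (x - y)) / ‖ξ₂‖ ^ 2 := by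
            rw [Finset.sum_div]
            refine Finset.sum_congr rfl fun x _ => ?_
            rw [Finset.sum_div]
            refine Finset.sum_congr rfl fun y _ => ?_
            ring
          rw [h1]
          exact div_nonneg (pd₂.pos s a) hpos.le
        · show c₂ 0 / _ = 1
          rw [h0, div_self hpos.ne']
        · intro x y hxy
          show c₂ x / _ = c₂ y / _
          rw [rad₂ x y hxy]
        · by_contra hw
          unfold Wild at hw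
          push Not at hw
          obtain ⟨T, hT, ε, hε, hw⟩ := hw
          obtain ⟨η, hη0, hηs, hηc⟩ := exists_cont_vector F U hU0 hU ξ₂ T (ε * ‖ξ₂‖ ^ 2) hT
            (by positivity) (by
              intro s w hs hw0 hw1
              have h2 := hw s w hs hw0 hw1
              have h3 := sum_form U hU0 hU ξ₂ c₂ hc₂ s w
              rw [h3]
              have h4 : ∑ x ∈ s, ∑ y ∈ s, w x * w y * (c₂ (x - y) / ‖ξ₂‖ ^ 2)
                  = (∑ x ∈ s, ∑ y ∈ s, w x * w y * c₂ (x - y)) / ‖ξ₂‖ ^ 2 := by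
                rw [Finset.sum_div]
                refine Finset.sum_congr rfl fun x _ => ?_
                rw [Finset.sum_div]
                refine Finset.sum_congr rfl fun y _ => ?_
                ring
              rw [h4, le_div_iff₀ hpos] at h2
              exact h2)
          have m1 : η ∈ Hc U := hηc
          have m2 : η ∈ (Hc U)ᗮ := by
            have hcl : IsClosed (((Hc U)ᗮ : Submodule ℂ H) : Set H) := Submodule.isClosed_orthogonal _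
            have hsp : Submodule.span ℂ (Set.range fun x => U x ξ₂) ≤ (Hc U)ᗮ := by
              rw [Submodule.span_le]
              rintro _ ⟨x, rfl⟩
              exact U_mem_orth U hU0 hU x h₂
            exact (Submodule.topologicalClosure_minimal _ hsp hcl) hηs
          exact hη0 (inner_self_eq_zero.1 (hortho η m1 η m2))
      have h5 := theoremA hF hD x hx
      have h6 : c₂ x / ‖ξ₂‖ ^ 2 = 0 := h5
      rw [div_eq_zero_iff] at h6
      rcases h6 with h6 | h6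
      · exact h6
      · exact absurd h6 hpos.ne'
  refine ⟨c₁, pd₁, rad₁, ?_, ?_, ?_⟩
  · intro x hx
    rw [hadd x, hc₂0 x hx, add_zero]
  · rw [hadd 0, hn ξ₂ c₂ hc₂]
    have : 0 ≤ ‖ξ₂‖ ^ 2 := by positivity
    linarith
  · intro ε hε
    obtain ⟨δ, hδ, h3⟩ := h₁ (ε / (‖ξ₁‖ + 1)) (by positivity)
    refine ⟨δ, hδ, fun x y hxy => ?_⟩
    have h4 := h3 (x - y) (by simpa using hxy)
    have h5 : ((c₁ x - c₁ y : ℝ) : ℂ) = inner ℂ ξ₁ (U y (U (x - y) ξ₁ - ξ₁)) := by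
      rw [map_sub, ← hU, inner_sub_right, show y + (x - y) = x by ring, hc₁, hc₁]
      push_cast
      rfl
    have h6 : |c₁ x - c₁ y| = ‖((c₁ x - c₁ y : ℝ) : ℂ)‖ := by
      rw [Complex.norm_real, Real.norm_eq_abs]
    rw [h6, h5]
    refine (norm_inner_le_norm _ _).trans ?_
    rw [(U y).norm_map]
    rw [le_div_iff₀ (by positivity)] at h4
    nlinarith [norm_nonneg (U (x - y) ξ₁ - ξ₁), norm_nonneg ξ₁]

end Hilb

section L2

variable {A : Type} [AddCommGroup A] (P : Measure (X A))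

lemma memLp_mul (x : A) (f : Lp ℂ 2 P) [Countable A] : MemLp (fun θ => ev x θ * f θ) 2 P := by
  refine (Lp.memLp f).of_le ?_ ?_
  · exact (measurable_ev x).aestronglyMeasurable.mul (Lp.aestronglyMeasurable f)
  · exact Filter.Eventually.of_forall fun θ => by simp

/-- multiplication by a character -/
noncomputable def mulU [Countable A] (x : A) : Lp ℂ 2 P →ₗᵢ[ℂ] Lp ℂ 2 P where
  toFun f := (memLp_mul P x f).toLp _
  map_add' f g := by
    refine Lp.ext ?_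
    filter_upwards [(memLp_mul P x (f + g)).coeFn_toLp, (memLp_mul P x f).coeFn_toLp,
      (memLp_mul P x g).coeFn_toLp, Lp.coeFn_add f g,
      Lp.coeFn_add ((memLp_mul P x f).toLp _) ((memLp_mul P x g).toLp _)] with θ h1 h2 h3 h4 h5
    rw [h1, h5, Pi.add_apply, h2, h3, h4, Pi.add_apply]
    ring
  map_smul' c f := by
    refine Lp.ext ?_
    filter_upwards [(memLp_mul P x (c • f)).coeFn_toLp, (memLp_mul P x f).coeFn_toLp,
      Lp.coeFn_smul c f, Lp.coeFn_smul c ((memLp_mul P x f).toLp _)] with θ h1 h2 h3 h4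
    rw [h1, RingHom.id_apply, h4, Pi.smul_apply, h2, h3, Pi.smul_apply]
    simp only [smul_eq_mul]
    ring
  norm_map' f := by
    show ‖(memLp_mul P x f).toLp _‖ = ‖f‖
    rw [Lp.norm_toLp, Lp.norm_def]
    congr 1
    exact eLpNorm_congr_norm_ae (Filter.Eventually.of_forall fun θ => by simp)

lemma coe_mulU [Countable A] (x : A) (f : Lp ℂ 2 P) :
    mulU P x f =ᵐ[P] fun θ => ev x θ * f θ := (memLp_mul P x f).coeFn_toLp

end L2

end CrumAux

open CrumAux in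
theorem crum {F : Subfield ℂ} (hF : GoodField F) {c : F → ℝ} (hc : PD c) (hr : Radial F c) :
    ∃ c₁ : F → ℝ, PD c₁ ∧ Radial F c₁ ∧ (∀ x, x ≠ 0 → c₁ x = c x) ∧ c₁ 0 ≤ c 0 ∧
      ∀ ε : ℝ, 0 < ε → ∃ δ : ℝ, 0 < δ ∧ ∀ x y : F, ‖(x : ℂ) - y‖ < δ → |c₁ x - c₁ y| ≤ ε := by
  have hctb : Countable F := hF.ctb
  have h00 : 0 ≤ c 0 := by
    have := hc.pos {0} (fun _ => 1)
    simpa using this
  rcases h00.eq_or_lt with h0 | h0
  · -- `c = 0`
    have hz : ∀ x, c x = 0 := by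
      intro x
      by_cases hx : x = 0
      · rw [hx]; exact h0.symm
      have h1 := hc.pos {x, 0} (fun _ => 1)
      have h2 := hc.pos {x, 0} (fun y => if y = x then 1 else -1)
      rw [Finset.sum_pair hx, Finset.sum_pair hx, Finset.sum_pair hx] at h1 h2
      have h3 : c (0 - x) = c x := by rw [zero_sub, hc.even]
      simp only [sub_self, sub_zero, h3, ← h0] at h1 h2
      simp [Ne.symm hx] at h2
      linarith
    refine ⟨c, hc, hr, fun _ _ => rfl, le_refl _, fun ε hε => ⟨1, one_pos, fun x y _ => ?_⟩⟩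
    rw [hz, hz]
    simpa using hε.le
  · have hpd : PD (fun x => c x / c 0) := by
      refine ⟨fun x => ?_, fun s a => ?_⟩
      · show c (-x) / _ = c x / _
        rw [hc.even]
      · have h1 : ∑ x ∈ s, ∑ y ∈ s, a x * a y * (c (x - y) / c 0)
            = (∑ x ∈ s, ∑ y ∈ s, a x * a y * c (x - y)) / c 0 := by
          rw [Finset.sum_div]
          refine Finset.sum_congr rfl fun x _ => ?_
          rw [Finset.sum_div]
          refine Finset.sum_congr rfl fun y _ => ?_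
          ring
        rw [h1]
        exact div_nonneg (hc.pos s a) h0.le
    obtain ⟨P, hP, hrep⟩ := bochner (fun x => c x / c 0) hpd (div_self h0.ne')
    have hmp : ∀ γ : Gam F, MeasurePreserving (rotX (A := F) γ) P P := by
      intro γ
      refine rep_invariant P (fun x => c x / c 0) hrep _ ?_
      intro x
      show c (toF γ • x) / _ = c x / _
      rw [hr (toF γ • x) x (by simp)]
    let R : Gam F → Lp ℂ 2 P →ₗᵢ[ℂ] Lp ℂ 2 P := fun γ =>
      Lp.compMeasurePreservingₗᵢ ℂ (rotX γ) (hmp γ)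
    have hRc : ∀ γ (f : Lp ℂ 2 P), R γ f =ᵐ[P] fun θ => f (rotX γ θ) := fun γ f =>
      Lp.coeFn_compMeasurePreserving f (hmp γ)
    have hqm : ∀ γ, ∀ p : X F → Prop, (∀ᵐ θ ∂P, p θ) → ∀ᵐ θ ∂P, p (rotX (A := F) γ θ) := fun γ p h =>
      (hmp γ).quasiMeasurePreserving.ae h
    have hU0 : ∀ v, mulU P (0 : F) v = v := by
      intro v
      refine Lp.ext ?_
      filter_upwards [coe_mulU P (0 : F) v] with θ h1
      rw [h1]; simp
    have hU : ∀ (x y : F) v, mulU P (x + y) v = mulU P x (mulU P y v) := by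
      intro x y v
      refine Lp.ext ?_
      filter_upwards [coe_mulU P (x + y) v, coe_mulU P x (mulU P y v), coe_mulU P y v]
        with θ h1 h2 h3
      rw [h1, h2, h3, ev_add]; ring
    have hR : ∀ γ v, R γ (R γ⁻¹ v) = v := by
      intro γ v
      refine Lp.ext ?_
      filter_upwards [hRc γ (R γ⁻¹ v), hqm γ _ (hRc γ⁻¹ v)] with θ h1 h2
      rw [h1, h2]
      congr 1
      ext x
      show (((rotX γ⁻¹ (rotX γ θ)).fn x : Circle) : ℂ) = _
      have : (rotX γ⁻¹ (rotX γ θ)).fn x = θ.fn (toF γ • (toF γ⁻¹ • x)) := rfl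
      rw [this, smul_smul, ← toF_mul, mul_inv_cancel, toF_one, one_smul]
    have hRU : ∀ γ x v, R γ (mulU P x v) = mulU P (toF γ * x) (R γ v) := by
      intro γ x v
      refine Lp.ext ?_
      filter_upwards [hRc γ (mulU P x v), hqm γ _ (coe_mulU P x v), coe_mulU P (toF γ * x) (R γ v),
        hRc γ v] with θ h1 h2 h3 h4
      rw [h1, h2, h3, h4]
      rfl
    let e : Lp ℂ 2 P := (memLp_const (1 : ℂ)).toLp _
    have hec : e =ᵐ[P] fun _ => (1 : ℂ) := MemLp.coeFn_toLp _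
    have he : ∀ γ, R γ e = e := by
      intro γ
      refine Lp.ext ?_
      filter_upwards [hRc γ e, hqm γ _ hec, hec] with θ h1 h2 h3
      rw [h1, h2, h3]
    have hce : ∀ x, inner ℂ e (mulU P x e) = ((c x / c 0 : ℝ) : ℂ) := by
      intro x
      rw [L2.inner_def, ← hrep x]
      refine integral_congr_ae ?_
      filter_upwards [hec, coe_mulU P x e] with θ h1 h2
      rw [h1, h2, h1]
      simp
    obtain ⟨c₁, h1, h2, h3, h4, h5⟩ := crum_abs hF (mulU P) hU0 hU R hR hRU e he _ hce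
    refine ⟨fun x => c 0 * c₁ x, ⟨fun x => ?_, fun s a => ?_⟩, ?_, ?_, ?_, ?_⟩
    · show c 0 * c₁ (-x) = c 0 * c₁ x
      rw [h1.even]
    · have h6 : ∑ x ∈ s, ∑ y ∈ s, a x * a y * (c 0 * c₁ (x - y))
            = c 0 * (∑ x ∈ s, ∑ y ∈ s, a x * a y * c₁ (x - y)) := by
        rw [Finset.mul_sum]
        refine Finset.sum_congr rfl fun x _ => ?_
        rw [Finset.mul_sum]
        refine Finset.sum_congr rfl fun y _ => ?_
        ring
      rw [h6]
      exact mul_nonneg h0.le (h1.pos s a)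
    · intro x y hxy
      show c 0 * c₁ x = c 0 * c₁ y
      rw [h2 x y hxy]
    · intro x hx
      show c 0 * c₁ x = c x
      rw [h3 x hx]
      exact mul_div_cancel₀ _ h0.ne'
    · show c 0 * c₁ 0 ≤ c 0
      have : c₁ 0 ≤ 1 := by
        have := h4
        rw [div_self h0.ne'] at this
        exact this
      nlinarith
    · intro ε hε
      obtain ⟨δ, hδ, h7⟩ := h5 (ε / c 0) (by positivity)
      refine ⟨δ, hδ, fun x y hxy => ?_⟩
      have h8 := h7 x y hxy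
      rw [le_div_iff₀ h0] at h8
      show |c 0 * c₁ x - c 0 * c₁ y| ≤ ε
      rw [← mul_sub, abs_mul, abs_of_pos h0]
      linarith

end Pool.Agent.Lib.P3852C
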