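import Pool.Agent.Lib.P3852C.GF

/-!
# Basic properties of `𝒟` (§0, §5)

Convexity: convolve the weights (`∑ w w c` does not increase under convolution of `w` with weights on
a small disc: for the measure of `c` (or directly by positive definiteness)
`E|μ*μ'(ψ)|² = E|μ(ψ)|²|μ'(ψ)|² ≤ E|μ(ψ)|²`; a direct proof: `q(w) = ∑ w w c` is convex and translation
invariant, so `q(w * w') ≤ ∑ w'_y q(w(· - y)) = q(w)`).
Spherical bound: if `c x > 3/4`: every `y` with `‖y‖ ≤ 2‖x‖` is `x(γ - δ)`, and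
`1 - c(a - b) ≤ 2(1 - c a) + 2(1 - c b)` (positive definiteness), so `c y ≥ δ₀ > 0` for these `y`:
contradiction to wildness with `T = ‖x‖`.
-/

set_option autoImplicit false

namespace Pool.Agent.Lib.P3852C

variable {F : Subfield ℂ}

namespace DBasicAux

section

variable {A : Type} [AddCommGroup A]

/-- push-forward of weights to a finset of points -/
theorem push {ι : Type} (t : Finset ι) (p : ι → A) (b : ι → ℝ) :
    ∃ (s : Finset A) (w : A → ℝ), (∀ x ∈ s, ∃ i ∈ t, p i = x) ∧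
      ((∀ i, 0 ≤ b i) → ∀ x, 0 ≤ w x) ∧ ∑ x ∈ s, w x = ∑ i ∈ t, b i ∧
      ∀ c : A → ℝ, ∑ x ∈ s, ∑ y ∈ s, w x * w y * c (x - y) =
        ∑ i ∈ t, ∑ j ∈ t, b i * b j * c (p i - p j) := by
  classical
  refine ⟨t.image p, fun x => ∑ i ∈ t.filter (fun i => p i = x), b i, ?_, ?_, ?_, ?_⟩
  · intro x hx
    exact Finset.mem_image.1 hx
  · intro hb x
    exact Finset.sum_nonneg fun i _ => hb i
  · exact Finset.sum_fiberwise_of_maps_to (fun i hi => Finset.mem_image_of_mem p hi) b
  · intro c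
    have h1 : ∀ g : ι → ℝ, ∀ h : A → ℝ,
        ∑ x ∈ t.image p, (∑ i ∈ t.filter (fun i => p i = x), g i) * h x = ∑ i ∈ t, g i * h (p i) := by
      intro g h
      rw [← Finset.sum_fiberwise_of_maps_to (g := p) (t := t.image p)
        (fun i hi => Finset.mem_image_of_mem p hi)]
      refine Finset.sum_congr rfl fun x _ => ?_
      rw [Finset.sum_mul]
      refine Finset.sum_congr rfl fun i hi => ?_
      rw [(Finset.mem_filter.1 hi).2]
    have h2 : ∀ x : A, ∑ y ∈ t.image p, (∑ i ∈ t.filter (fun i => p i = x), b i) *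
        (∑ i ∈ t.filter (fun i => p i = y), b i) * c (x - y) =
        (∑ i ∈ t.filter (fun i => p i = x), b i) * ∑ j ∈ t, b j * c (x - p j) := by
      intro x
      rw [← h1 b (fun y => c (x - y)), Finset.mul_sum]
      exact Finset.sum_congr rfl fun y _ => by ring
    simp only [h2]
    rw [h1 b (fun x => ∑ j ∈ t, b j * c (x - p j))]
    refine Finset.sum_congr rfl fun i _ => ?_
    rw [Finset.mul_sum]
    exact Finset.sum_congr rfl fun j _ => by ring

theorem pos' {c : A → ℝ} (h : PD c) {ι : Type} (t : Finset ι) (p : ι → A) (b : ι → ℝ) :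
    0 ≤ ∑ i ∈ t, ∑ j ∈ t, b i * b j * c (p i - p j) := by
  obtain ⟨s, w, _, _, _, h4⟩ := push t p b
  rw [← h4]
  exact h.pos s w

/-- the quadratic form does not increase under convolution -/
theorem conv_le {c : A → ℝ} (h : PD c) {ι κ : Type} (t : Finset ι) (p : ι → A) (b : ι → ℝ)
    (u : Finset κ) (q : κ → A) (d : κ → ℝ) (hd : ∀ k, 0 ≤ d k) (hd1 : ∑ k ∈ u, d k = 1) :
    ∑ i ∈ t ×ˢ u, ∑ j ∈ t ×ˢ u, (b i.1 * d i.2) * (b j.1 * d j.2) *
      c ((p i.1 + q i.2) - (p j.1 + q j.2)) ≤ ∑ i ∈ t, ∑ j ∈ t, b i * b j * c (p i - p j) := by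
  set R := ∑ i ∈ t, ∑ j ∈ t, b i * b j * c (p i - p j) with hR
  -- the kernel
  have hQ : ∀ k l : κ, ∑ i ∈ t, ∑ j ∈ t, b i * b j * c ((p i + q k) - (p j + q l)) ≤ R := by
    intro k l
    have h1 := pos' h (t ×ˢ (Finset.univ : Finset Bool))
      (fun x => p x.1 + if x.2 then q k else q l) (fun x => b x.1 * if x.2 then 1 else -1)
    have h2 : ∑ i ∈ t ×ˢ (Finset.univ : Finset Bool), ∑ j ∈ t ×ˢ (Finset.univ : Finset Bool),
        (b i.1 * if i.2 then (1 : ℝ) else -1) * (b j.1 * if j.2 then 1 else -1) *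
        c ((p i.1 + if i.2 then q k else q l) - (p j.1 + if j.2 then q k else q l)) =
        ∑ i ∈ t, ∑ j ∈ t, (b i * b j * c ((p i + q k) - (p j + q k)) -
          b i * b j * c ((p i + q k) - (p j + q l)) - b i * b j * c ((p i + q l) - (p j + q k)) +
          b i * b j * c ((p i + q l) - (p j + q l))) := by
      rw [Finset.sum_product]
      refine Finset.sum_congr rfl fun i _ => ?_
      simp only [Fintype.sum_bool, Finset.sum_product]
      rw [← Finset.sum_add_distrib]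
      refine Finset.sum_congr rfl fun j _ => ?_
      simp only [if_true, Bool.false_eq_true, if_false]
      ring
    rw [h2] at h1
    have h3 : ∀ i j, (p i + q k) - (p j + q k) = p i - p j := fun i j => by abel
    have h4 : ∀ i j, (p i + q l) - (p j + q l) = p i - p j := fun i j => by abel
    simp only [h3, h4, Finset.sum_add_distrib, Finset.sum_sub_distrib] at h1
    have h5 : ∑ i ∈ t, ∑ j ∈ t, b i * b j * c ((p i + q l) - (p j + q k)) =
        ∑ i ∈ t, ∑ j ∈ t, b i * b j * c ((p i + q k) - (p j + q l)) := by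
      rw [Finset.sum_comm]
      refine Finset.sum_congr rfl fun i _ => Finset.sum_congr rfl fun j _ => ?_
      rw [← h.even (p j + q l - (p i + q k)), neg_sub]
      ring
    rw [h5] at h1
    linarith
  have h6 : ∑ i ∈ t ×ˢ u, ∑ j ∈ t ×ˢ u, (b i.1 * d i.2) * (b j.1 * d j.2) *
      c ((p i.1 + q i.2) - (p j.1 + q j.2)) =
      ∑ k ∈ u, ∑ l ∈ u, d k * d l * ∑ i ∈ t, ∑ j ∈ t, b i * b j * c ((p i + q k) - (p j + q l)) := by
    rw [Finset.sum_product_right]
    refine Finset.sum_congr rfl fun k _ => ?_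
    simp only [Finset.sum_product_right]
    rw [Finset.sum_comm]
    refine Finset.sum_congr rfl fun l _ => ?_
    rw [Finset.mul_sum]
    refine Finset.sum_congr rfl fun i _ => ?_
    rw [Finset.mul_sum]
    exact Finset.sum_congr rfl fun j _ => by ring
  rw [h6]
  calc ∑ k ∈ u, ∑ l ∈ u, d k * d l * ∑ i ∈ t, ∑ j ∈ t, b i * b j * c ((p i + q k) - (p j + q l))
      ≤ ∑ k ∈ u, ∑ l ∈ u, d k * d l * R := by
        refine Finset.sum_le_sum fun k _ => Finset.sum_le_sum fun l _ => ?_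
        exact mul_le_mul_of_nonneg_left (hQ k l) (mul_nonneg (hd k) (hd l))
    _ = R := by
        simp only [← Finset.sum_mul, ← Finset.mul_sum, hd1, mul_one, one_mul]

end

end DBasicAux

open DBasicAux

theorem PD.abs_le {A : Type} [AddCommGroup A] {c : A → ℝ} (h : PD c) (h0 : c 0 = 1) (x : A) :
    |c x| ≤ 1 := by
  have h1 := pos' h (Finset.univ : Finset Bool) (fun b => if b then x else 0)
    (fun b => if b then 1 else -1)
  have h2 := pos' h (Finset.univ : Finset Bool) (fun b => if b then x else 0)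
    (fun _ => 1)
  simp only [Fintype.sum_bool, if_true, Bool.false_eq_true, if_false, sub_self, sub_zero, zero_sub,
    h0, h.even] at h1 h2
  rw [_root_.abs_le]
  constructor <;> linarith

theorem PD.quasi {A : Type} [AddCommGroup A] {c : A → ℝ} (h : PD c) (h0 : c 0 = 1) (x y : A) :
    1 - c (x - y) ≤ 2 * (1 - c x) + 2 * (1 - c y) := by
  have h1 := pos' h (Finset.univ : Finset (Fin 3)) (fun b => if b = 0 then x else if b = 1 then y else 0)
    (fun b => if b = 2 then -2 else 1)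
  have h2 : c (y - x) = c (x - y) := by rw [← h.even (x - y), neg_sub]
  simp [Fin.sum_univ_three, h0, h.even, h2] at h1
  linarith

theorem InD.dil {c : F → ℝ} (h : InD F c) (t : F) (ht : t ≠ 0) : InD F (fun x => c (t * x)) := by
  refine ⟨⟨?_, ?_⟩, ?_, ?_, ?_⟩
  · intro x
    show c (t * -x) = c (t * x)
    rw [mul_neg, h.pd.even]
  · intro s a
    have h1 := pos' h.pd s (fun x => t * x) a
    simpa only [mul_sub] using h1
  · show c (t * 0) = 1
    rw [mul_zero, h.one]
  · intro x y hxy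
    apply h.rad
    rw [Subfield.coe_mul, Subfield.coe_mul, norm_mul, norm_mul, hxy]
  · intro T hT ε hε
    have htn : 0 < ‖(t : ℂ)‖ := by
      rw [norm_pos_iff]
      intro h0
      exact ht (Subtype.ext h0)
    obtain ⟨s, w, h1, h2, h3, h4⟩ := h.wild (T * ‖(t : ℂ)‖) (by positivity) ε hε
    obtain ⟨s', w', g1, g2, g3, g4⟩ := push s (fun x => t⁻¹ * x) w
    refine ⟨s', w', ?_, g2 h2, g3.trans h3, ?_⟩
    · intro x hx
      obtain ⟨i, hi, rfl⟩ := g1 x hx
      have h5 := h1 i hi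
      rw [Subfield.coe_mul, Subfield.coe_inv, norm_mul, norm_inv, inv_mul_lt_iff₀ htn]
      linarith
    · rw [g4 (fun x => c (t * x))]
      have h6 : ∀ x y : F, t * (t⁻¹ * x - t⁻¹ * y) = x - y := by
        intro x y
        rw [mul_sub, mul_inv_cancel_left₀ ht, mul_inv_cancel_left₀ ht]
      simp only [h6]
      exact h4

namespace DBasicAux

theorem common {ι : Type} (s : Finset ι) (c : ι → F → ℝ) (hc : ∀ i ∈ s, InD F (c i)) (ε : ℝ)
    (hε : 0 < ε) : ∀ T : ℝ, 0 < T → ∃ (v : Finset F) (w : F → ℝ),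
    (∀ x ∈ v, ‖(x : ℂ)‖ < T) ∧ (∀ x, 0 ≤ w x) ∧ ∑ x ∈ v, w x = 1 ∧
    ∀ i ∈ s, ∑ x ∈ v, ∑ y ∈ v, w x * w y * c i (x - y) < ε := by
  classical
  induction s using Finset.induction_on with
  | empty =>
    intro T hT
    refine ⟨{0}, fun _ => 1, ?_, fun _ => zero_le_one, ?_, ?_⟩
    · intro x hx
      rw [Finset.mem_singleton] at hx
      rw [hx]
      simpa using hT
    · simp
    · intro i hi
      exact absurd hi (Finset.notMem_empty i)
  | insert a s ha ih =>
    intro T hT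
    obtain ⟨v, w, h1, h2, h3, h4⟩ := ih (fun i hi => hc i (Finset.mem_insert_of_mem hi)) (T / 2)
      (by positivity)
    obtain ⟨v', w', k1, k2, k3, k4⟩ := (hc a (Finset.mem_insert_self a s)).wild (T / 2)
      (by positivity) ε hε
    obtain ⟨v'', w'', g1, g2, g3, g4⟩ := push (v ×ˢ v') (fun x : F × F => x.1 + x.2)
      (fun x => w x.1 * w' x.2)
    refine ⟨v'', w'', ?_, g2 (fun x => mul_nonneg (h2 _) (k2 _)), ?_, ?_⟩
    · intro x hx
      obtain ⟨i, hi, rfl⟩ := g1 x hx
      rw [Finset.mem_product] at hi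
      have e1 := h1 i.1 hi.1
      have e2 := k1 i.2 hi.2
      rw [Subfield.coe_add]
      have e3 := norm_add_le (i.1 : ℂ) (i.2 : ℂ)
      linarith
    · rw [g3, Finset.sum_product, ← Finset.sum_mul_sum, h3, k3, one_mul]
    · intro i hi
      rw [g4]
      rcases Finset.mem_insert.1 hi with rfl | hi'
      · have e1 := conv_le (hc i hi).pd v' (fun x => x) w' v (fun x => x) w h2 h3
        have e2 : ∑ x ∈ v ×ˢ v', ∑ y ∈ v ×ˢ v', w x.1 * w' x.2 * (w y.1 * w' y.2) *
            c i (x.1 + x.2 - (y.1 + y.2)) =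
            ∑ x ∈ v' ×ˢ v, ∑ y ∈ v' ×ˢ v, w' x.1 * w x.2 * (w' y.1 * w y.2) *
            c i (x.1 + x.2 - (y.1 + y.2)) := by
          rw [Finset.sum_product_right, Finset.sum_product]
          refine Finset.sum_congr rfl fun x _ => Finset.sum_congr rfl fun y _ => ?_
          rw [Finset.sum_product_right, Finset.sum_product]
          refine Finset.sum_congr rfl fun x' _ => Finset.sum_congr rfl fun y' _ => ?_
          rw [add_comm y x, add_comm y' x']
          ring
        rw [e2]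
        exact lt_of_le_of_lt e1 k4
      · have e1 := conv_le (hc i hi).pd v (fun x => x) w v' (fun x => x) w' k2 k3
        exact lt_of_le_of_lt e1 (h4 i hi')

end DBasicAux

/-- `𝒟` is convex -/
theorem InD.convex {ι : Type} (s : Finset ι) (w : ι → ℝ) (hw : ∀ i ∈ s, 0 ≤ w i)
    (h1 : ∑ i ∈ s, w i = 1) (c : ι → F → ℝ) (hc : ∀ i ∈ s, InD F (c i)) :
    InD F (fun x => ∑ i ∈ s, w i * c i x) := by
  have hsw : ∀ (v : Finset F) (a : F → ℝ), ∑ x ∈ v, ∑ y ∈ v, a x * a y * ∑ i ∈ s, w i * c i (x - y) =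
      ∑ i ∈ s, w i * ∑ x ∈ v, ∑ y ∈ v, a x * a y * c i (x - y) := by
    intro v a
    simp only [Finset.mul_sum]
    calc ∑ x ∈ v, ∑ y ∈ v, ∑ i ∈ s, a x * a y * (w i * c i (x - y))
        = ∑ x ∈ v, ∑ i ∈ s, ∑ y ∈ v, a x * a y * (w i * c i (x - y)) :=
          Finset.sum_congr rfl fun x _ => Finset.sum_comm
      _ = ∑ i ∈ s, ∑ x ∈ v, ∑ y ∈ v, a x * a y * (w i * c i (x - y)) := Finset.sum_comm
      _ = ∑ i ∈ s, ∑ x ∈ v, ∑ y ∈ v, w i * (a x * a y * c i (x - y)) :=
          Finset.sum_congr rfl fun i _ => Finset.sum_congr rfl fun x _ =>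
            Finset.sum_congr rfl fun y _ => by ring
  refine ⟨⟨?_, ?_⟩, ?_, ?_, ?_⟩
  · intro x
    show ∑ i ∈ s, w i * c i (-x) = ∑ i ∈ s, w i * c i x
    exact Finset.sum_congr rfl fun i hi => by rw [(hc i hi).pd.even]
  · intro v a
    rw [hsw]
    exact Finset.sum_nonneg fun i hi => mul_nonneg (hw i hi) ((hc i hi).pd.pos v a)
  · show ∑ i ∈ s, w i * c i 0 = 1
    rw [← h1]
    exact Finset.sum_congr rfl fun i hi => by rw [(hc i hi).one, mul_one]
  · intro x y hxy
    show ∑ i ∈ s, w i * c i x = ∑ i ∈ s, w i * c i y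
    exact Finset.sum_congr rfl fun i hi => by rw [(hc i hi).rad x y hxy]
  · intro T hT ε hε
    obtain ⟨v, a, k1, k2, k3, k4⟩ := common s c hc (ε / 2) (by positivity) T hT
    refine ⟨v, a, k1, k2, k3, ?_⟩
    rw [hsw]
    calc ∑ i ∈ s, w i * ∑ x ∈ v, ∑ y ∈ v, a x * a y * c i (x - y) ≤ ∑ i ∈ s, w i * (ε / 2) :=
          Finset.sum_le_sum fun i hi => mul_le_mul_of_nonneg_left (k4 i hi).le (hw i hi)
      _ = ε / 2 := by rw [← Finset.sum_mul, h1, one_mul]
      _ < ε := by linarith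

/-- §5 -/
theorem InD.le (hF : GoodField F) {c : F → ℝ} (h : InD F c) (x : F) (hx : x ≠ 0) :
    c x ≤ 3 / 4 := by
  by_contra hcon
  push Not at hcon
  have hxn : 0 < ‖(x : ℂ)‖ := by
    rw [norm_pos_iff]
    intro h0
    exact hx (Subtype.ext h0)
  set d := 1 - 4 * (1 - c x) with hd
  have hd0 : 0 < d := by rw [hd]; linarith
  have hrot : ∀ γ : Gam F, c (x * toF γ) = c x := by
    intro γ
    apply h.rad
    rw [Subfield.coe_mul, norm_mul, norm_toF, mul_one]
  have hlow : ∀ y : F, ‖(y : ℂ)‖ ≤ 2 * ‖(x : ℂ)‖ → d ≤ c y := by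
    intro y hy
    obtain ⟨γ, δ, hγ⟩ := hF.exists_add x y hx hy
    have h1 := h.pd.quasi h.one (x * toF γ) (-(x * toF δ))
    rw [sub_neg_eq_add, ← mul_add, ← hγ, h.pd.even, hrot, hrot] at h1
    rw [hd]
    linarith
  obtain ⟨s, w, h1, h2, h3, h4⟩ := h.wild ‖(x : ℂ)‖ hxn d hd0
  have h5 : d ≤ ∑ a ∈ s, ∑ b ∈ s, w a * w b * c (a - b) := by
    calc d = ∑ a ∈ s, ∑ b ∈ s, w a * w b * d := by
          simp only [← Finset.sum_mul, ← Finset.mul_sum, h3, mul_one, one_mul]
      _ ≤ _ := by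
          refine Finset.sum_le_sum fun a ha => Finset.sum_le_sum fun b hb => ?_
          apply mul_le_mul_of_nonneg_left _ (mul_nonneg (h2 a) (h2 b))
          apply hlow
          rw [Subfield.coe_sub]
          have := norm_sub_le (a : ℂ) (b : ℂ)
          have e1 := h1 a ha
          have e2 := h1 b hb
          linarith
  linarith

end Pool.Agent.Lib.P3852C
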