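import Mathlib

/-!
# P3852C: basic definitions

Characters of countable abelian groups, positive definite functions, good subfields of `ℂ`,
wild functions, means and finitely supported probability weights.
See `/team-store/P3852C_proof.txt`.
-/

set_option autoImplicit false

namespace Pool.Agent.Lib.P3852C

open MeasureTheory Filter Topology

/-! ## Characters of a discrete abelian group -/

/-- The characters of an abelian group (additive) with values in the circle. -/
@[ext]
structure X (A : Type) [AddCommGroup A] where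
  /-- the underlying function -/
  fn : A → Circle
  map_add : ∀ x y, fn (x + y) = fn x * fn y

section X

variable {A B : Type} [AddCommGroup A] [AddCommGroup B]

noncomputable instance : TopologicalSpace (X A) := TopologicalSpace.induced X.fn inferInstance

lemma X.continuous_fn : Continuous (X.fn : X A → A → Circle) := continuous_induced_dom

lemma X.fn_injective : Function.Injective (X.fn : X A → A → Circle) := fun _ _ h => X.ext h

lemma X.isClosedEmbedding_fn : Topology.IsClosedEmbedding (X.fn : X A → A → Circle) := by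
  refine ⟨⟨⟨rfl⟩, X.fn_injective⟩, ?_⟩
  have h : Set.range (X.fn : X A → A → Circle) = ⋂ x : A, ⋂ y : A, {f | f (x + y) = f x * f y} := by
    ext f
    simp only [Set.mem_range, Set.mem_iInter]
    constructor
    · rintro ⟨θ, rfl⟩ x y
      exact θ.map_add x y
    · intro h
      exact ⟨⟨f, fun x y => h x y⟩, rfl⟩
  rw [h]
  refine isClosed_iInter fun x => isClosed_iInter fun y => ?_
  exact isClosed_eq (continuous_apply _) ((continuous_apply x).mul (continuous_apply y))

instance : T2Space (X A) := X.isClosedEmbedding_fn.isEmbedding.t2Space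

instance : CompactSpace (X A) := X.isClosedEmbedding_fn.compactSpace

instance [Countable A] : SecondCountableTopology (X A) :=
  X.isClosedEmbedding_fn.isEmbedding.secondCountableTopology

noncomputable instance : MeasurableSpace (X A) := borel _

instance : BorelSpace (X A) := ⟨rfl⟩

/-- evaluation at `x`, with values in `ℂ` -/
noncomputable def ev (x : A) (θ : X A) : ℂ := (θ.fn x : ℂ)

/-- pull-back of characters along an additive homomorphism -/
def X.pull (α : A →+ B) (θ : X B) : X A :=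
  ⟨fun x => θ.fn (α x), fun x y => by rw [_root_.map_add]; exact θ.map_add _ _⟩

@[simp] lemma X.pull_apply (α : A →+ B) (θ : X B) (x : A) : (X.pull α θ).fn x = θ.fn (α x) := rfl

@[simp] lemma ev_pull (α : A →+ B) (x : A) (θ : X B) : ev x (X.pull α θ) = ev (α x) θ := rfl

lemma X.continuous_apply (x : A) : Continuous (fun θ : X A => θ.fn x) :=
  (_root_.continuous_apply x).comp X.continuous_fn

lemma continuous_ev (x : A) : Continuous (ev x : X A → ℂ) :=
  continuous_subtype_val.comp (X.continuous_apply x)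

lemma measurable_ev (x : A) : Measurable (ev x : X A → ℂ) := (continuous_ev x).measurable

lemma continuous_pull (α : A →+ B) : Continuous (X.pull α : X B → X A) := by
  rw [continuous_induced_rng]
  exact continuous_pi fun x => X.continuous_apply (α x)

lemma measurable_pull (α : A →+ B) : Measurable (X.pull α : X B → X A) :=
  (continuous_pull α).measurable

@[simp] lemma norm_ev (x : A) (θ : X A) : ‖ev x θ‖ = 1 := Circle.norm_coe _

lemma ev_add (x y : A) (θ : X A) : ev (x + y) θ = ev x θ * ev y θ := by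
  simp [ev, θ.map_add x y]

lemma X.map_zero (θ : X A) : θ.fn 0 = 1 := by
  have h := θ.map_add 0 0
  rw [add_zero] at h
  exact (mul_eq_left.mp h.symm)

@[simp] lemma ev_zero (θ : X A) : ev 0 θ = 1 := by
  simp [ev, X.map_zero]

lemma X.map_neg (θ : X A) (x : A) : θ.fn (-x) = (θ.fn x)⁻¹ := by
  have h := θ.map_add x (-x)
  rw [add_neg_cancel, X.map_zero] at h
  exact (inv_eq_of_mul_eq_one_right h.symm).symm

lemma ev_neg (x : A) (θ : X A) : ev (-x) θ = (starRingEnd ℂ) (ev x θ) := by
  rw [ev, X.map_neg, Circle.coe_inv_eq_conj]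
  rfl

lemma ev_sub (x y : A) (θ : X A) : ev (x - y) θ = ev x θ * (starRingEnd ℂ) (ev y θ) := by
  rw [sub_eq_add_neg, ev_add, ev_neg]

/-- `c` is the Fourier transform of the measure `P` on the characters of `A` -/
def Rep (P : Measure (X A)) (c : A → ℝ) : Prop := ∀ x, ∫ θ, ev x θ ∂P = (c x : ℂ)

/-- (real valued) positive definite functions -/
structure PD (c : A → ℝ) : Prop where
  even : ∀ x, c (-x) = c x
  pos : ∀ (s : Finset A) (a : A → ℝ), 0 ≤ ∑ x ∈ s, ∑ y ∈ s, a x * a y * c (x - y)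

end X

/-! ## Good fields -/

/-- A countable subfield of `ℂ` stable under conjugation and under `n`-th roots. -/
structure GoodField (F : Subfield ℂ) : Prop where
  ctb : Countable F
  conj : ∀ x ∈ F, (starRingEnd ℂ) x ∈ F
  root : ∀ (n : ℕ) (y : ℂ), 0 < n → y ^ n ∈ F → y ∈ F

/-- The unimodular elements of `F`. -/
def Gam (F : Subfield ℂ) : Subgroup Circle where
  carrier := {c | (c : ℂ) ∈ F}
  mul_mem' := fun {a b} ha hb => by
    simp only [Set.mem_ofPred_eq, Circle.coe_mul] at *
    exact F.mul_mem ha hb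
  one_mem' := by simp [F.one_mem]
  inv_mem' := fun {a} ha => by
    simp only [Set.mem_ofPred_eq, Circle.coe_inv] at *
    exact F.inv_mem ha

/-- A unimodular element as an element of `F`. -/
noncomputable def toF {F : Subfield ℂ} (γ : Gam F) : F := ⟨(γ.1 : ℂ), γ.2⟩

@[simp] lemma coe_toF {F : Subfield ℂ} (γ : Gam F) : ((toF γ : F) : ℂ) = (γ.1 : ℂ) := rfl

@[simp] lemma norm_toF {F : Subfield ℂ} (γ : Gam F) : ‖((toF γ : F) : ℂ)‖ = 1 :=
  Circle.norm_coe _

@[simp] lemma toF_mul {F : Subfield ℂ} (γ δ : Gam F) : toF (γ * δ) = toF γ * toF δ := by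
  apply Subtype.ext; simp [toF]

@[simp] lemma toF_one {F : Subfield ℂ} : toF (1 : Gam F) = 1 := by
  apply Subtype.ext; simp [toF]

/-- The rotation of characters of an `F`-vector space `A` by `γ ∈ Γ`: `θ ↦ θ (γ ·)`. -/
noncomputable def rotX {F : Subfield ℂ} {A : Type} [AddCommGroup A] [Module F A] (γ : Gam F) : X A → X A :=
  X.pull (DistribSMul.toAddMonoidHom A (toF γ))

@[simp] lemma ev_rotX {F : Subfield ℂ} {A : Type} [AddCommGroup A] [Module F A] (γ : Gam F)
    (x : A) (θ : X A) : ev x (rotX γ θ) = ev (toF γ • x) θ := rfl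

/-- The permutation of coordinates acting on characters of `ℕ →₀ F`. -/
noncomputable def permX {F : Subfield ℂ} (π : Equiv.Perm ℕ) : X (ℕ →₀ F) → X (ℕ →₀ F) :=
  X.pull (Finsupp.mapDomain.addMonoidHom π)

@[simp] lemma ev_permX {F : Subfield ℂ} (π : Equiv.Perm ℕ) (x : ℕ →₀ F) (θ : X (ℕ →₀ F)) :
    ev x (permX π θ) = ev (Finsupp.mapDomain π x) θ := rfl

/-- `c` is wild: small averages of the characters over small discs. -/
def Wild (F : Subfield ℂ) (c : F → ℝ) : Prop :=
  ∀ T : ℝ, 0 < T → ∀ ε : ℝ, 0 < ε → ∃ (s : Finset F) (w : F → ℝ),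
    (∀ x ∈ s, ‖(x : ℂ)‖ < T) ∧ (∀ x, 0 ≤ w x) ∧ ∑ x ∈ s, w x = 1 ∧
    ∑ x ∈ s, ∑ y ∈ s, w x * w y * c (x - y) < ε

/-- radial functions on `F` -/
def Radial (F : Subfield ℂ) (c : F → ℝ) : Prop :=
  ∀ x y : F, ‖(x : ℂ)‖ = ‖(y : ℂ)‖ → c x = c y

/-- The class `𝒟` of the wild radial positive definite functions. -/
structure InD (F : Subfield ℂ) (c : F → ℝ) : Prop where
  pd : PD c
  one : c 0 = 1
  rad : Radial F c
  wild : Wild F c

/-- `γ_Φ (x) = Φ (x δ₀ - x δ₁)` -/
noncomputable def gam {F : Subfield ℂ} (Φ : (ℕ →₀ F) → ℝ) (x : F) : ℝ :=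
  Φ (Finsupp.single 0 x - Finsupp.single 1 x)

/-- The class `𝓔` of exchangeable rotation invariant laws with wild differences. -/
structure InE (F : Subfield ℂ) (Φ : (ℕ →₀ F) → ℝ) : Prop where
  pd : PD Φ
  one : Φ 0 = 1
  rot : ∀ (γ : Gam F) (x : ℕ →₀ F), Φ (toF γ • x) = Φ x
  exch : ∀ (π : Equiv.Perm ℕ) (x : ℕ →₀ F), Φ (Finsupp.mapDomain π x) = Φ x
  wild : Wild F (gam Φ)

/-- The maximality property of the extremal exchangeable law. -/
structure IsMaxE (F : Subfield ℂ) (Φ : (ℕ →₀ F) → ℝ) : Prop where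
  mem : InE F Φ
  max : ∀ Φ' : (ℕ →₀ F) → ℝ, InE F Φ' → (∀ x, gam Φ x ≤ gam Φ' x) → ∀ x, gam Φ' x = gam Φ x
  ext : ∀ Φ₁ Φ₂ : (ℕ →₀ F) → ℝ, InE F Φ₁ → InE F Φ₂ → (∀ x, Φ x = (Φ₁ x + Φ₂ x) / 2) → Φ₁ = Φ₂

/-! ## Weights and means -/

/-- bounded real functions -/
def Bd {G : Type} (f : G → ℝ) : Prop := ∃ C : ℝ, ∀ x, |f x| ≤ C

/-- Finitely supported probability weights. -/
structure FW (G : Type) where
  s : Finset G
  w : G → ℝ
  nonneg : ∀ x, 0 ≤ w x
  supp : ∀ x, x ∉ s → w x = 0
  sum_one : ∑ x ∈ s, w x = 1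

/-- The average of a function. -/
noncomputable def FW.avg {G E : Type} [AddCommGroup E] [Module ℝ E] (μ : FW G) (f : G → E) : E :=
  ∑ x ∈ μ.s, μ.w x • f x

/-- A Følner sequence of finitely supported probability weights. -/
structure Fol (G : Type) [CommGroup G] where
  μ : ℕ → FW G
  inv : ∀ (h : G) (ε : ℝ), 0 < ε → ∀ᶠ n in atTop, ∀ f : G → ℂ, (∀ x, ‖f x‖ ≤ 1) →
    ‖(μ n).avg (fun x => f (h * x)) - (μ n).avg f‖ ≤ ε

/-- An invariant mean on the bounded real functions on a commutative group. -/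
structure IMean (G : Type) [CommGroup G] where
  val : (G → ℝ) → ℝ
  add : ∀ f g : G → ℝ, Bd f → Bd g → val (fun x => f x + g x) = val f + val g
  smul : ∀ (c : ℝ) (f : G → ℝ), Bd f → val (fun x => c * f x) = c * val f
  mono : ∀ f g : G → ℝ, Bd f → Bd g → (∀ x, f x ≤ g x) → val f ≤ val g
  one : val (fun _ => 1) = 1
  inv : ∀ (h : G) (f : G → ℝ), Bd f → val (fun x => f (h * x)) = val f

/-- The mean of a complex function. -/
def IMean.cval {G : Type} [CommGroup G] (M : IMean G) (f : G → ℂ) : ℂ :=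
  ⟨M.val (fun x => (f x).re), M.val (fun x => (f x).im)⟩

/-! ## The relations -/

/-- `cis t = exp (i t)` -/
noncomputable def cis (t : ℝ) : ℂ := Complex.exp (t * Complex.I)

/-- The a.e. relation for the triangles congruent to `0, a, b` (proper congruences). -/
def Rel (φ : ℂ → ℝ) (a b : ℂ) : Prop :=
  ∀ᵐ p : ℂ × ℝ, φ p.1 * φ (p.1 + cis p.2 * a) + φ p.1 * φ (p.1 + cis p.2 * b)
    + φ (p.1 + cis p.2 * a) * φ (p.1 + cis p.2 * b) = -1

/-- The functions of the case `1 < r < 2`. -/
structure InS (r : ℝ) (φ : ℂ → ℝ) : Prop where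
  meas : Measurable φ
  bdd : ∀ z, |φ z| ≤ 1
  rel : Rel φ 1 (cis (Real.pi / 3))
  relb : Rel φ 1 (r * cis (Real.arccos (1 / (2 * r))))
  relb' : Rel φ 1 (r * cis (-Real.arccos (1 / (2 * r))))
  relc : Rel φ 1 (r * cis (Real.arccos (r / 2)))
  relc' : Rel φ 1 (r * cis (-Real.arccos (r / 2)))

end Pool.Agent.Lib.P3852C
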