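import Pool.Agent.Lib.P3852C.EPa

/-!
# 6.3 (a), (b): averages over the pairs

`v_j = ev (x δ_{σ j}) u_j`, `σ j = sgA k j`, `u_j = dH H (sgA k j) (sgB k j)`. For `i ≠ j`,
`∫ v_i conj v_j = q x` (permute the pairs fixing `0..k`: `dH_perm`; `q x` is real: exchange the two pairs
or use `rotX (-1)`). So `∫ |(1/n) ∑_{j<n} v_j|² = (1/n) ∫|v_0|² + (1 - 1/n) q x`, `∫ |v_0|² ≤ 4`.
`orth_of_zero`: `∫ u_0 ev (y δ_{k+1} + r) = ∫ v_j ev r` for all `j` (`r` supported in `{1..k}` is not moved),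
average over `j < n`, Cauchy–Schwarz, `n → ∞`.
-/

set_option autoImplicit false

namespace Pool.Agent.Lib.P3852C

open MeasureTheory

variable {F : Subfield ℂ}

namespace EQAux

/-- the permutation of the pairs given by `τ` (function) -/
def pf (k : ℕ) (τ : Equiv.Perm ℕ) (m : ℕ) : ℕ :=
  if m ≤ k then m else k + 1 + 2 * τ ((m - (k + 1)) / 2) + (m - (k + 1)) % 2

theorem pf_inv (k : ℕ) (τ τ' : Equiv.Perm ℕ) (h : ∀ m, τ' (τ m) = m) (m : ℕ) :
    pf k τ' (pf k τ m) = m := by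
  unfold pf
  by_cases hm : m ≤ k
  · rw [if_pos hm, if_pos hm]
  · rw [if_neg hm]
    set q := (m - (k + 1)) / 2 with hq
    set r := (m - (k + 1)) % 2 with hr
    have hr2 : r < 2 := Nat.mod_lt _ (by norm_num)
    rw [if_neg (by omega)]
    have e1 : (k + 1 + 2 * τ q + r - (k + 1)) / 2 = τ q := by omega
    have e2 : (k + 1 + 2 * τ q + r - (k + 1)) % 2 = r := by omega
    rw [e1, e2, h]
    omega

/-- the permutation of the pairs given by `τ` -/
def pp (k : ℕ) (τ : Equiv.Perm ℕ) : Equiv.Perm ℕ where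
  toFun := pf k τ
  invFun := pf k τ⁻¹
  left_inv := pf_inv k τ τ⁻¹ (fun m => by simp)
  right_inv := pf_inv k τ⁻¹ τ (fun m => by simp)

theorem pp_le (k : ℕ) (τ : Equiv.Perm ℕ) (m : ℕ) (hm : m ≤ k) : pp k τ m = m := by
  show pf k τ m = m
  unfold pf
  rw [if_pos hm]

theorem pp_A (k : ℕ) (τ : Equiv.Perm ℕ) (j : ℕ) : pp k τ (sgA k j) = sgA k (τ j) := by
  show pf k τ (sgA k j) = sgA k (τ j)
  unfold pf sgA
  rw [if_neg (by omega)]
  have e1 : (k + 1 + 2 * j - (k + 1)) / 2 = j := by omega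
  have e2 : (k + 1 + 2 * j - (k + 1)) % 2 = 0 := by omega
  rw [e1, e2]
  omega

theorem pp_B (k : ℕ) (τ : Equiv.Perm ℕ) (j : ℕ) : pp k τ (sgB k j) = sgB k (τ j) := by
  show pf k τ (sgB k j) = sgB k (τ j)
  unfold pf sgB
  rw [if_neg (by omega)]
  have e1 : (k + 2 + 2 * j - (k + 1)) / 2 = j := by omega
  have e2 : (k + 2 + 2 * j - (k + 1)) % 2 = 1 := by omega
  rw [e1, e2]
  omega

theorem exists_tau {i j : ℕ} (hij : i ≠ j) : ∃ τ : Equiv.Perm ℕ, τ 0 = i ∧ τ 1 = j := by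
  refine ⟨Equiv.swap 0 i * Equiv.swap 1 (Equiv.swap 0 i j), ?_, ?_⟩
  · have h1 : Equiv.swap 1 (Equiv.swap 0 i j) 0 = 0 := by
      refine Equiv.swap_apply_of_ne_of_ne (by norm_num) ?_
      intro h
      apply hij
      have h2 := congrArg (Equiv.swap 0 i) h
      rwa [Equiv.swap_apply_self, Equiv.swap_apply_left] at h2
    rw [Equiv.Perm.mul_apply, h1, Equiv.swap_apply_left]
  · rw [Equiv.Perm.mul_apply, Equiv.swap_apply_left, Equiv.swap_apply_self]

variable {Φ : (ℕ →₀ F) → ℝ} {Q : Measure (X (ℕ →₀ F))} {k : ℕ} {H : X (ℕ →₀ F) → ℝ}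

/-- the functions `v_j` -/
noncomputable def V (k : ℕ) (H : X (ℕ →₀ F) → ℝ) (x : F) (j : ℕ) (θ : X (ℕ →₀ F)) : ℂ :=
  ev (Finsupp.single (sgA k j) x : ℕ →₀ F) θ * ((dH H (sgA k j) (sgB k j) θ : ℝ) : ℂ)

theorem meas_dH (hm : Measurable H) (i j : ℕ) : Measurable (dH H i j) :=
  (hm.comp (measurable_pull _)).sub (hm.comp (measurable_pull _))

theorem abs_dH (hb : ∀ θ, |H θ| ≤ 1) (i j : ℕ) (θ : X (ℕ →₀ F)) : |dH H i j θ| ≤ 2 := by
  unfold dH
  have h1 := abs_le.1 (hb (permX (Equiv.swap 0 i) θ))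
  have h2 := abs_le.1 (hb (permX (Equiv.swap 0 j) θ))
  rw [abs_le]
  constructor <;> linarith [h1.1, h1.2, h2.1, h2.2]

theorem meas_V (hm : Measurable H) (x : F) (j : ℕ) : Measurable (V k H x j) :=
  (measurable_ev _).mul (Complex.measurable_ofReal.comp (meas_dH hm _ _))

theorem norm_V (hb : ∀ θ, |H θ| ≤ 1) (x : F) (j : ℕ) (θ : X (ℕ →₀ F)) : ‖V k H x j θ‖ ≤ 2 := by
  unfold V
  rw [norm_mul, norm_ev, one_mul, Complex.norm_real, Real.norm_eq_abs]
  exact abs_dH hb _ _ θ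

theorem int_bdd [IsProbabilityMeasure Q] {E : Type} [NormedAddCommGroup E]
    [MeasurableSpace E] [BorelSpace E] [SecondCountableTopology E]
    {f : X (ℕ →₀ F) → E} (hm : Measurable f) (C : ℝ)
    (hb : ∀ θ, ‖f θ‖ ≤ C) : Integrable f Q :=
  Integrable.of_bound hm.aestronglyMeasurable C (Filter.Eventually.of_forall hb)

theorem int_perm (hF : GoodField F) (h : InE F Φ) [IsProbabilityMeasure Q] (hQ : Rep Q Φ)
    (π : Equiv.Perm ℕ) (g : X (ℕ →₀ F) → ℂ) (hg : Measurable g) :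
    ∫ θ, g θ ∂Q = ∫ θ, g (permX π θ) ∂Q := by
  have hmp := h.perm_mp hF Q hQ π
  conv_lhs => rw [← hmp.map_eq]
  exact integral_map hmp.measurable.aemeasurable hg.aestronglyMeasurable

theorem pair_int (hF : GoodField F) (h : InE F Φ) [IsProbabilityMeasure Q] (hQ : Rep Q Φ)
    (hH : HGood Q k H) (x : F) {i j : ℕ} (hij : i ≠ j) :
    (∫ θ, V k H x i θ * (starRingEnd ℂ) (V k H x j θ) ∂Q).re = qq Q k H x := by
  obtain ⟨τ, h0, h1⟩ := exists_tau hij
  unfold qq
  congr 1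
  have hm : Measurable (fun θ : X (ℕ →₀ F) =>
      ev (Finsupp.single (k + 1) x - Finsupp.single (k + 3) x : ℕ →₀ F) θ *
      ((dH H (k + 1) (k + 2) θ * dH H (k + 3) (k + 4) θ : ℝ) : ℂ)) :=
    (measurable_ev _).mul (Complex.measurable_ofReal.comp
      ((meas_dH hH.meas _ _).mul (meas_dH hH.meas _ _)))
  rw [int_perm hF h hQ (pp k τ) _ hm]
  refine integral_congr_ae ?_
  have a1 := dH_perm hF h hQ hH (pp k τ) (pp_le k τ) (k + 1) (k + 2) (by omega) (by omega)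
  have a2 := dH_perm hF h hQ hH (pp k τ) (pp_le k τ) (k + 3) (k + 4) (by omega) (by omega)
  have b1 : pp k τ (k + 1) = sgA k i := by rw [← h0]; exact pp_A k τ 0
  have b2 : pp k τ (k + 2) = sgB k i := by rw [← h0]; exact pp_B k τ 0
  have b3 : pp k τ (k + 3) = sgA k j := by rw [← h1]; exact pp_A k τ 1
  have b4 : pp k τ (k + 4) = sgB k j := by rw [← h1]; exact pp_B k τ 1
  rw [b1, b2] at a1
  rw [b3, b4] at a2
  filter_upwards [a1, a2] with θ c1 c2
  have e1 : Finsupp.mapDomain (pp k τ) (Finsupp.single (k + 1) x - Finsupp.single (k + 3) x : ℕ →₀ F)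
      = Finsupp.single (sgA k i) x - Finsupp.single (sgA k j) x := by
    have := (Finsupp.mapDomain.addMonoidHom (M := F) (pp k τ)).map_sub
      (Finsupp.single (k + 1) x) (Finsupp.single (k + 3) x)
    simp only [Finsupp.mapDomain.addMonoidHom_apply] at this
    rw [this, Finsupp.mapDomain_single, Finsupp.mapDomain_single, b1, b3]
  rw [ev_permX, e1, ev_sub, c1, c2]
  unfold V
  rw [map_mul, Complex.conj_ofReal]
  push_cast
  ring

end EQAux

open EQAux

theorem qq_avg (hF : GoodField F) {Φ : (ℕ →₀ F) → ℝ} (h : InE F Φ)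
    {Q : Measure (X (ℕ →₀ F))} [IsProbabilityMeasure Q] (hQ : Rep Q Φ) {k : ℕ}
    {H : X (ℕ →₀ F) → ℝ} (hH : HGood Q k H) (x : F) (n : ℕ) (hn : 0 < n) :
    ∫ θ, ‖((n : ℂ))⁻¹ * ∑ j ∈ Finset.range n, ev (Finsupp.single (sgA k j) x : ℕ →₀ F) θ *
      ((dH H (sgA k j) (sgB k j) θ : ℝ) : ℂ)‖ ^ 2 ∂Q ≤ 4 / n + (1 - 1 / n) * qq Q k H x := by
  have hn0 : (0 : ℝ) < n := by exact_mod_cast hn
  have hmV := fun j => EQAux.meas_V (k := k) hH.meas x j
  have hnV := fun j θ => EQAux.norm_V (k := k) hH.bdd x j θ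
  have hint : ∀ i j, Integrable (fun θ => EQAux.V k H x i θ * (starRingEnd ℂ) (EQAux.V k H x j θ)) Q := by
    intro i j
    refine EQAux.int_bdd ((hmV i).mul (Complex.continuous_conj.measurable.comp (hmV j))) 4 ?_
    intro θ
    rw [norm_mul, RCLike.norm_conj]
    nlinarith [hnV i θ, hnV j θ, norm_nonneg (EQAux.V k H x i θ), norm_nonneg (EQAux.V k H x j θ)]
  have key : ∀ θ, ‖((n : ℂ))⁻¹ * ∑ j ∈ Finset.range n, EQAux.V k H x j θ‖ ^ 2 =
      ((n : ℝ) ^ 2)⁻¹ * ∑ i ∈ Finset.range n, ∑ j ∈ Finset.range n,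
        (EQAux.V k H x i θ * (starRingEnd ℂ) (EQAux.V k H x j θ)).re := by
    intro θ
    have e1 : ∑ i ∈ Finset.range n, ∑ j ∈ Finset.range n,
        (EQAux.V k H x i θ * (starRingEnd ℂ) (EQAux.V k H x j θ)).re =
        ((∑ i ∈ Finset.range n, EQAux.V k H x i θ) *
          (starRingEnd ℂ) (∑ j ∈ Finset.range n, EQAux.V k H x j θ)).re := by
      rw [map_sum, Finset.sum_mul_sum, Complex.re_sum]
      refine Finset.sum_congr rfl fun i _ => ?_
      rw [Complex.re_sum]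
    rw [e1, Complex.mul_conj, Complex.ofReal_re, Complex.normSq_eq_norm_sq, norm_mul, mul_pow,
      norm_inv, Complex.norm_natCast, inv_pow]
  have hre : ∀ i j, ∫ θ, (EQAux.V k H x i θ * (starRingEnd ℂ) (EQAux.V k H x j θ)).re ∂Q =
      (∫ θ, EQAux.V k H x i θ * (starRingEnd ℂ) (EQAux.V k H x j θ) ∂Q).re := by
    intro i j
    exact (integral_re (hint i j))
  have hI : ∫ θ, ‖((n : ℂ))⁻¹ * ∑ j ∈ Finset.range n, EQAux.V k H x j θ‖ ^ 2 ∂Q =
      ((n : ℝ) ^ 2)⁻¹ * ∑ i ∈ Finset.range n, ∑ j ∈ Finset.range n,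
        (∫ θ, EQAux.V k H x i θ * (starRingEnd ℂ) (EQAux.V k H x j θ) ∂Q).re := by
    rw [integral_congr_ae (Filter.Eventually.of_forall key), integral_const_mul]
    congr 1
    have hintre : ∀ i j, Integrable
        (fun θ => (EQAux.V k H x i θ * (starRingEnd ℂ) (EQAux.V k H x j θ)).re) Q :=
      fun i j => (hint i j).re
    rw [integral_finsetSum _ fun i _ => integrable_finsetSum _ fun j _ => hintre i j]
    refine Finset.sum_congr rfl fun i _ => ?_
    rw [integral_finsetSum _ fun j _ => hintre i j]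
    exact Finset.sum_congr rfl fun j _ => hre i j
  have hdiag : ∀ i, (∫ θ, EQAux.V k H x i θ * (starRingEnd ℂ) (EQAux.V k H x i θ) ∂Q).re ≤ 4 := by
    intro i
    rw [← hre]
    calc ∫ θ, (EQAux.V k H x i θ * (starRingEnd ℂ) (EQAux.V k H x i θ)).re ∂Q
        ≤ ∫ _θ, (4 : ℝ) ∂Q := by
          refine integral_mono (hint i i).re (integrable_const _) fun θ => ?_
          dsimp only
          rw [Complex.mul_conj, Complex.ofReal_re, Complex.normSq_eq_norm_sq]
          nlinarith [hnV i θ, norm_nonneg (EQAux.V k H x i θ)]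
      _ = 4 := by simp
  change ∫ θ, ‖((n : ℂ))⁻¹ * ∑ j ∈ Finset.range n, EQAux.V k H x j θ‖ ^ 2 ∂Q ≤ _
  rw [hI]
  have hsum : ∑ i ∈ Finset.range n, ∑ j ∈ Finset.range n,
      (∫ θ, EQAux.V k H x i θ * (starRingEnd ℂ) (EQAux.V k H x j θ) ∂Q).re ≤
      n * (4 + (n - 1) * qq Q k H x) := by
    calc ∑ i ∈ Finset.range n, ∑ j ∈ Finset.range n,
        (∫ θ, EQAux.V k H x i θ * (starRingEnd ℂ) (EQAux.V k H x j θ) ∂Q).re
        ≤ ∑ _i ∈ Finset.range n, (4 + ((n : ℝ) - 1) * qq Q k H x) := by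
          refine Finset.sum_le_sum fun i hi => ?_
          rw [← Finset.add_sum_erase _ _ hi]
          refine add_le_add (hdiag i) (le_of_eq ?_)
          rw [Finset.sum_congr rfl fun j hj =>
            EQAux.pair_int hF h hQ hH x (Finset.ne_of_mem_erase hj).symm, Finset.sum_const,
            Finset.card_erase_of_mem hi, Finset.card_range, nsmul_eq_mul,
            Nat.cast_sub hn, Nat.cast_one]
      _ = n * (4 + (n - 1) * qq Q k H x) := by
          rw [Finset.sum_const, Finset.card_range, nsmul_eq_mul]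
  calc ((n : ℝ) ^ 2)⁻¹ * ∑ i ∈ Finset.range n, ∑ j ∈ Finset.range n,
      (∫ θ, EQAux.V k H x i θ * (starRingEnd ℂ) (EQAux.V k H x j θ) ∂Q).re
      ≤ ((n : ℝ) ^ 2)⁻¹ * (n * (4 + (n - 1) * qq Q k H x)) :=
        mul_le_mul_of_nonneg_left hsum (by positivity)
    _ = 4 / n + (1 - 1 / n) * qq Q k H x := by
        field_simp

theorem qq_nonneg (hF : GoodField F) {Φ : (ℕ →₀ F) → ℝ} (h : InE F Φ)
    {Q : Measure (X (ℕ →₀ F))} [IsProbabilityMeasure Q] (hQ : Rep Q Φ) {k : ℕ}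
    {H : X (ℕ →₀ F) → ℝ} (hH : HGood Q k H) (x : F) : 0 ≤ qq Q k H x := by
  have h1 : Filter.Tendsto (fun n : ℕ => 4 / ((n : ℝ) + 1) + (1 - 1 / ((n : ℝ) + 1)) * qq Q k H x)
      Filter.atTop (nhds (4 * 0 + (1 - 0) * qq Q k H x)) := by
    have h2 := tendsto_one_div_add_atTop_nhds_zero_nat (𝕜 := ℝ)
    refine ((h2.const_mul 4).congr fun n => ?_).add
      ((tendsto_const_nhds.sub h2).mul tendsto_const_nhds)
    ring
  rw [mul_zero, zero_add, sub_zero, one_mul] at h1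
  refine ge_of_tendsto' h1 fun n => ?_
  have h3 := qq_avg hF h hQ hH x (n + 1) (Nat.succ_pos n)
  push_cast at h3
  exact (integral_nonneg fun θ => by positivity).trans h3

theorem orth_of_zero (hF : GoodField F) {Φ : (ℕ →₀ F) → ℝ} (h : InE F Φ)
    {Q : Measure (X (ℕ →₀ F))} [IsProbabilityMeasure Q] (hQ : Rep Q Φ) {k : ℕ}
    {H : X (ℕ →₀ F) → ℝ} (hH : HGood Q k H) (y : F) (hq : qq Q k H y = 0) (r : ℕ →₀ F)
    (hr : ∀ i ∈ r.support, 1 ≤ i ∧ i ≤ k) :
    ∫ θ, ((dH H (k + 1) (k + 2) θ : ℝ) : ℂ) *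
      ev (Finsupp.single (k + 1) y + r : ℕ →₀ F) θ ∂Q = 0 := by
  set I : ℂ := ∫ θ, ((dH H (k + 1) (k + 2) θ : ℝ) : ℂ) *
      ev (Finsupp.single (k + 1) y + r : ℕ →₀ F) θ ∂Q with hI
  -- all the pairs give the same integral
  have hm0 : Measurable (fun θ : X (ℕ →₀ F) => ((dH H (k + 1) (k + 2) θ : ℝ) : ℂ) *
      ev (Finsupp.single (k + 1) y + r : ℕ →₀ F) θ) :=
    (Complex.measurable_ofReal.comp (EQAux.meas_dH hH.meas _ _)).mul (measurable_ev _)
  have hj : ∀ j, ∫ θ, EQAux.V k H y j θ * ev r θ ∂Q = I := by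
    intro j
    rw [hI, EQAux.int_perm hF h hQ (EQAux.pp k (Equiv.swap 0 j)) _ hm0]
    refine (integral_congr_ae ?_).symm
    have a1 := dH_perm hF h hQ hH (EQAux.pp k (Equiv.swap 0 j)) (EQAux.pp_le k _)
      (k + 1) (k + 2) (by omega) (by omega)
    have b1 : EQAux.pp k (Equiv.swap 0 j) (k + 1) = sgA k j := by
      have := EQAux.pp_A k (Equiv.swap 0 j) 0
      rwa [Equiv.swap_apply_left] at this
    have b2 : EQAux.pp k (Equiv.swap 0 j) (k + 2) = sgB k j := by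
      have := EQAux.pp_B k (Equiv.swap 0 j) 0
      rwa [Equiv.swap_apply_left] at this
    rw [b1, b2] at a1
    filter_upwards [a1] with θ c1
    have e0 : Finsupp.mapDomain (EQAux.pp k (Equiv.swap 0 j)) r = r := by
      conv_rhs => rw [← Finsupp.mapDomain_id (v := r)]
      refine Finsupp.mapDomain_congr fun i hi => ?_
      exact EQAux.pp_le k _ i (hr i hi).2
    have e1 : Finsupp.mapDomain (EQAux.pp k (Equiv.swap 0 j)) (Finsupp.single (k + 1) y + r : ℕ →₀ F)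
        = Finsupp.single (sgA k j) y + r := by
      rw [Finsupp.mapDomain_add, Finsupp.mapDomain_single, b1, e0]
    rw [ev_permX, e1, ev_add, c1]
    unfold EQAux.V
    ring
  have hmV := fun j => EQAux.meas_V (k := k) hH.meas y j
  have hnV := fun j θ => EQAux.norm_V (k := k) hH.bdd y j θ
  have hintV : ∀ j, Integrable (fun θ => EQAux.V k H y j θ * ev r θ) Q := by
    intro j
    refine EQAux.int_bdd ((hmV j).mul (measurable_ev _)) 2 fun θ => ?_
    rw [norm_mul, norm_ev, mul_one]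
    exact hnV j θ
  -- the average
  have havg : ∀ n : ℕ, 0 < n → ‖I‖ ^ 2 ≤ 4 / n := by
    intro n hn
    have hn0 : (n : ℂ) ≠ 0 := by exact_mod_cast hn.ne'
    set A : X (ℕ →₀ F) → ℂ := fun θ => ((n : ℂ))⁻¹ * ∑ j ∈ Finset.range n, EQAux.V k H y j θ
      with hA
    have hmA : Measurable A := (Finset.measurable_sum _ fun j _ => hmV j).const_mul _
    have hnA : ∀ θ, ‖A θ‖ ≤ 2 := by
      intro θ
      rw [hA]
      dsimp only
      rw [norm_mul, norm_inv, Complex.norm_natCast]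
      have h1 : ‖∑ j ∈ Finset.range n, EQAux.V k H y j θ‖ ≤ n * 2 := by
        refine (norm_sum_le _ _).trans ((Finset.sum_le_sum fun j _ => hnV j θ).trans ?_)
        rw [Finset.sum_const, Finset.card_range, nsmul_eq_mul]
      have h2 : (0 : ℝ) < n := by exact_mod_cast hn
      calc (n : ℝ)⁻¹ * ‖∑ j ∈ Finset.range n, EQAux.V k H y j θ‖ ≤ (n : ℝ)⁻¹ * (n * 2) :=
            mul_le_mul_of_nonneg_left h1 (by positivity)
        _ = 2 := by field_simp
    have h1 : ∫ θ, A θ * ev r θ ∂Q = I := by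
      have h2 : ∀ θ, A θ * ev r θ = ((n : ℂ))⁻¹ * ∑ j ∈ Finset.range n, EQAux.V k H y j θ * ev r θ := by
        intro θ
        rw [hA]
        dsimp only
        rw [mul_assoc, Finset.sum_mul]
      rw [integral_congr_ae (Filter.Eventually.of_forall h2), integral_const_mul,
        integral_finsetSum _ fun j _ => hintV j, Finset.sum_congr rfl fun j _ => hj j,
        Finset.sum_const, Finset.card_range, nsmul_eq_mul, inv_mul_cancel_left₀ hn0]
    have h3 : ‖I‖ ≤ ∫ θ, ‖A θ‖ ∂Q := by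
      rw [← h1]
      refine (norm_integral_le_integral_norm _).trans (le_of_eq ?_)
      refine integral_congr_ae (Filter.Eventually.of_forall fun θ => ?_)
      dsimp only
      rw [norm_mul, norm_ev, mul_one]
    have hiA : Integrable (fun θ => ‖A θ‖) Q :=
      EQAux.int_bdd hmA.norm 2 (fun θ => by rw [norm_norm]; exact hnA θ)
    have hiA2 : Integrable (fun θ => ‖A θ‖ ^ 2) Q := by
      refine EQAux.int_bdd (hmA.norm.pow_const 2) 4 (fun θ => ?_)
      rw [norm_pow, norm_norm]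
      nlinarith [hnA θ, norm_nonneg (A θ)]
    set m : ℝ := ∫ θ, ‖A θ‖ ∂Q with hm
    have h4 : m ^ 2 ≤ ∫ θ, ‖A θ‖ ^ 2 ∂Q := by
      have h5 : 0 ≤ ∫ θ, (‖A θ‖ - m) ^ 2 ∂Q := integral_nonneg fun θ => sq_nonneg _
      have h6 : ∀ θ, (‖A θ‖ - m) ^ 2 = (‖A θ‖ ^ 2 - 2 * m * ‖A θ‖) + m ^ 2 := fun θ => by ring
      have j1 : Integrable (fun θ => ‖A θ‖ ^ 2 - 2 * m * ‖A θ‖) Q := hiA2.sub (hiA.const_mul _)
      rw [integral_congr_ae (Filter.Eventually.of_forall h6), integral_add j1 (integrable_const _),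
        integral_sub hiA2 (hiA.const_mul _), integral_const_mul, ← hm, integral_const] at h5
      simp only [probReal_univ, one_smul] at h5
      nlinarith
    have h7 : ∫ θ, ‖A θ‖ ^ 2 ∂Q ≤ 4 / n := by
      have h8 := qq_avg hF h hQ hH y n hn
      rw [hq, mul_zero, add_zero] at h8
      exact h8
    have h9 : 0 ≤ ‖I‖ := norm_nonneg _
    calc ‖I‖ ^ 2 ≤ m ^ 2 := pow_le_pow_left₀ h9 h3 2
      _ ≤ _ := h4.trans h7
  have hz : ‖I‖ ^ 2 ≤ 0 := by
    have h1 : Filter.Tendsto (fun n : ℕ => 4 * (1 / ((n : ℝ) + 1))) Filter.atTop (nhds (4 * 0)) :=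
      (tendsto_one_div_add_atTop_nhds_zero_nat (𝕜 := ℝ)).const_mul 4
    rw [mul_zero] at h1
    refine ge_of_tendsto' h1 fun n => ?_
    have := havg (n + 1) (Nat.succ_pos n)
    push_cast at this
    rw [mul_one_div]
    exact this
  have h0 : ‖I‖ = 0 := by nlinarith [norm_nonneg I, sq_nonneg ‖I‖]
  exact norm_eq_zero.1 h0

end Pool.Agent.Lib.P3852C
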