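import Pool.Agent.Lib.P3852C.EPert
import Pool.Agent.Lib.P3852C.EQ

/-!
# 6.3 (b): `H = H_i`

Maximality (`IsMaxE.max`, `exists_pert`, `qq_nonneg`) gives `qq Q k H x = 0` for all `x`.
`H_{k+1} = H ∘ permX (swap 0 (k+1))` is an `L²` limit of combinations of `ev (y δ_{k+1} + r)`, `r` supported in
`{1..k}` (`AppK` composed with `permX (swap 0 (k+1))`), so `∫ u H_{k+1} = 0` for `u = dH H (k+1) (k+2)` by
`orth_of_zero`, and `∫ u² = 2 ∫ u H_{k+1} = 0` (exchange `k+1`, `k+2`: `dH_perm`). So `H_{k+1} = H_{k+2}` a.e.;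
compose with `permX (swap 0 (k+1))`: `H = H_{k+2}` a.e. (`H_{k+2} ∘ permX (swap 0 (k+1)) = H_{k+2}`: here
`swap 0 (k+1) * swap 0 (k+2) = swap 0 (k+2) * ρ`, `ρ = swap (k+2) (k+1)`-type permutation fixing `0..k`... check:
`swap 0 (k+1) * swap 0 (k+2)` maps `0 ↦ k+2`, `k+2 ↦ k+1`, `k+1 ↦ 0`). Then `H = H_i` for all `i > k`.
-/

set_option autoImplicit false

namespace Pool.Agent.Lib.P3852C

open MeasureTheory

variable {F : Subfield ℂ}

namespace EConcAux

/-- two permutations which agree on `0..k` act in the same way on `H` -/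
theorem fix_agree (hF : GoodField F) {Φ : (ℕ →₀ F) → ℝ} (h : InE F Φ)
    {Q : Measure (X (ℕ →₀ F))} [IsProbabilityMeasure Q] (hQ : Rep Q Φ) {k : ℕ}
    {H : X (ℕ →₀ F) → ℝ} (hfix : FixK Q k H) (σ τ : Equiv.Perm ℕ)
    (hst : ∀ j ≤ k, σ j = τ j) :
    (fun θ => H (permX σ θ)) =ᵐ[Q] fun θ => H (permX τ θ) := by
  have h1 := hfix (τ⁻¹ * σ) (fun j hj => by
    rw [Equiv.Perm.mul_apply, hst j hj]
    exact τ.symm_apply_apply j)
  have h2 := (h.perm_mp hF Q hQ τ).quasiMeasurePreserving.ae_eq_comp h1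
  filter_upwards [h2] with θ hθ
  simp only [Function.comp] at hθ
  rw [permX_comp, mul_inv_cancel_left] at hθ
  exact hθ

theorem permX_one (θ : X (ℕ →₀ F)) : permX 1 θ = θ := by
  apply X.ext
  funext x
  change θ.fn (Finsupp.mapDomain (1 : Equiv.Perm ℕ) x) = θ.fn x
  rw [Equiv.Perm.coe_one, Finsupp.mapDomain_id]

theorem qq_zero (hF : GoodField F) {Φ : (ℕ →₀ F) → ℝ} (h : IsMaxE F Φ)
    {Q : Measure (X (ℕ →₀ F))} [IsProbabilityMeasure Q] (hQ : Rep Q Φ) {k : ℕ}
    {H : X (ℕ →₀ F) → ℝ} (hH : HGood Q k H) (x : F) : qq Q k H x = 0 := by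
  obtain ⟨Φ', hE, hg⟩ := exists_pert hF h.mem hQ hH
  have h1 := h.max Φ' hE (fun y => by
    have := qq_nonneg hF h.mem hQ hH y
    rw [hg y]; linarith) x
  rw [hg x] at h1
  linarith

theorem dH_bdd {H : X (ℕ →₀ F) → ℝ} (hb : ∀ θ, |H θ| ≤ 1) (i j : ℕ) (θ : X (ℕ →₀ F)) :
    |dH H i j θ| ≤ 2 := by
  unfold dH
  have h1 := abs_le.mp (hb (permX (Equiv.swap 0 i) θ))
  have h2 := abs_le.mp (hb (permX (Equiv.swap 0 j) θ))
  rw [abs_le]
  constructor <;> linarith

theorem measurable_permX (π : Equiv.Perm ℕ) [Countable F] :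
    Measurable (permX π : X (ℕ →₀ F) → X (ℕ →₀ F)) := measurable_pull _

theorem measurable_dH {H : X (ℕ →₀ F) → ℝ} (hm : Measurable H) (i j : ℕ) :
    Measurable (dH H i j) :=
  (hm.comp (measurable_pull _)).sub (hm.comp (measurable_pull _))

theorem integrable_of_bdd {Q : Measure (X (ℕ →₀ F))} [IsProbabilityMeasure Q]
    {E : Type} [NormedAddCommGroup E] {f : X (ℕ →₀ F) → E} (hf : AEStronglyMeasurable f Q) (C : ℝ)
    (hC : ∀ θ, ‖f θ‖ ≤ C) : Integrable f Q :=
  (integrable_const C).mono' hf (Filter.Eventually.of_forall hC)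

theorem orth_H (hF : GoodField F) {Φ : (ℕ →₀ F) → ℝ} (h : IsMaxE F Φ)
    (Q : Measure (X (ℕ →₀ F))) [IsProbabilityMeasure Q] (hQ : Rep Q Φ) {k : ℕ}
    {H : X (ℕ →₀ F) → ℝ} (hH : HGood Q k H) (happ : AppK Q k H) :
    ∫ θ, ((H (permX (Equiv.swap 0 (k + 1)) θ) : ℝ) : ℂ) * ((dH H (k + 1) (k + 2) θ : ℝ) : ℂ) ∂Q
      = 0 := by
  have := hF.ctb
  have key : ∀ δ : ℝ, 0 < δ →
      ‖∫ θ, ((H (permX (Equiv.swap 0 (k + 1)) θ) : ℝ) : ℂ) *
        ((dH H (k + 1) (k + 2) θ : ℝ) : ℂ) ∂Q‖ ≤ 2 * δ := by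
    intro δ hδ
    obtain ⟨s, a, hs, hint⟩ := happ (δ ^ 2) (by positivity)
    set π : Equiv.Perm ℕ := Equiv.swap 0 (k + 1) with hπ
    set A : X (ℕ →₀ F) → ℂ := fun θ => ∑ z ∈ s, a z * ev z θ with hA
    have hAm : Measurable A := by
      refine Finset.measurable_sum _ fun z _ => ?_
      exact (measurable_ev z).const_mul _
    set C : ℝ := ∑ z ∈ s, ‖a z‖ with hC
    have hAb : ∀ θ, ‖A θ‖ ≤ C := by
      intro θ
      refine (norm_sum_le _ _).trans ?_
      refine Finset.sum_le_sum fun z _ => ?_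
      rw [norm_mul, norm_ev, mul_one]
    set g : X (ℕ →₀ F) → ℂ := fun θ => (H θ : ℂ) - A θ with hg
    have hgm : Measurable g := (Complex.measurable_ofReal.comp hH.meas).sub hAm
    have hgb : ∀ θ, ‖g θ‖ ≤ 1 + C := by
      intro θ
      refine (norm_sub_le _ _).trans (add_le_add ?_ (hAb θ))
      rw [Complex.norm_real]
      exact hH.bdd θ
    have hpm := h.mem.perm_mp hF Q hQ π
    have hpM : Measurable (permX π : X (ℕ →₀ F) → X (ℕ →₀ F)) := measurable_pull _
    have hgi : ∫ θ, ‖g (permX π θ)‖ ^ 2 ∂Q ≤ δ ^ 2 := by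
      have h1 : ∫ θ, ‖g (permX π θ)‖ ^ 2 ∂Q = ∫ θ, ‖g θ‖ ^ 2 ∂Q := by
        have h2 := MeasureTheory.integral_map (μ := Q) (φ := (permX π : X (ℕ →₀ F) → X (ℕ →₀ F)))
          hpM.aemeasurable (f := fun θ => ‖g θ‖ ^ 2)
          ((hgm.norm.pow_const 2).aestronglyMeasurable)
        rw [hpm.map_eq] at h2
        exact h2.symm
      rw [h1]
      exact hint
    set u : X (ℕ →₀ F) → ℂ := fun θ => ((dH H (k + 1) (k + 2) θ : ℝ) : ℂ) with hu
    have hum : Measurable u := Complex.measurable_ofReal.comp (measurable_dH hH.meas _ _)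
    have hub : ∀ θ, ‖u θ‖ ≤ 2 := by
      intro θ
      rw [hu]
      simp only [Complex.norm_real]
      exact dH_bdd hH.bdd _ _ θ
    -- the main term vanishes
    have hmain : ∫ θ, A (permX π θ) * u θ ∂Q = 0 := by
      have h1 : (fun θ => A (permX π θ) * u θ) =
          fun θ => ∑ z ∈ s, a z * (ev (Finsupp.mapDomain π z) θ * u θ) := by
        funext θ
        simp only [hA, Finset.sum_mul, ev_permX]
        refine Finset.sum_congr rfl fun z _ => ?_
        ring
      rw [h1, integral_finsetSum]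
      · refine Finset.sum_eq_zero fun z hz => ?_
        rw [integral_const_mul]
        have h2 : Finsupp.mapDomain π z = Finsupp.single (k + 1) (z 0) + z.erase 0 := by
          ext j
          rw [show Finsupp.mapDomain π z = Finsupp.equivMapDomain π z from
            (Finsupp.equivMapDomain_eq_mapDomain _ _).symm, Finsupp.equivMapDomain_apply,
            Finsupp.add_apply]
          rw [hπ, Equiv.symm_swap]
          by_cases hj0 : j = 0
          · subst hj0
            rw [Equiv.swap_apply_left, hs z hz (k + 1) (by omega)]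
            simp
          · rw [Finsupp.erase_ne hj0]
            by_cases hjk : j = k + 1
            · subst hjk
              rw [Equiv.swap_apply_right, Finsupp.single_eq_same, hs z hz (k + 1) (by omega),
                add_zero]
            · rw [Equiv.swap_apply_of_ne_of_ne hj0 hjk, Finsupp.single_apply,
                if_neg (by omega), zero_add]
        have h3 := orth_of_zero hF h.mem hQ hH (z 0) (qq_zero hF h hQ hH (z 0)) (z.erase 0)
          (fun i hi => by
            rw [Finsupp.support_erase, Finset.mem_erase, Finsupp.mem_support_iff] at hi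
            refine ⟨by omega, ?_⟩
            by_contra hik
            exact hi.2 (hs z hz i (by omega)))
        rw [h2]
        have h4 : (fun θ => ev (Finsupp.single (k + 1) (z 0) + z.erase 0 : ℕ →₀ F) θ * u θ) =
            fun θ => ((dH H (k + 1) (k + 2) θ : ℝ) : ℂ) *
              ev (Finsupp.single (k + 1) (z 0) + z.erase 0 : ℕ →₀ F) θ := by
          funext θ
          rw [mul_comm]
        rw [h4, h3, mul_zero]
      · intro z _
        refine Integrable.const_mul ?_ _
        refine integrable_of_bdd (C := 2) ?_ ?_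
        · exact ((measurable_ev _).mul hum).aestronglyMeasurable
        · intro θ
          rw [norm_mul, norm_ev, one_mul]
          exact hub θ
    have hsplit : ∫ θ, ((H (permX π θ) : ℝ) : ℂ) * u θ ∂Q = ∫ θ, g (permX π θ) * u θ ∂Q := by
      have h1 : (fun θ => ((H (permX π θ) : ℝ) : ℂ) * u θ) =
          fun θ => g (permX π θ) * u θ + A (permX π θ) * u θ := by
        funext θ
        simp only [hg]
        ring
      rw [h1, integral_add, hmain, add_zero]
      · refine integrable_of_bdd (C := (1 + C) * 2) ?_ ?_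
        · exact ((hgm.comp hpM).mul hum).aestronglyMeasurable
        · intro θ
          rw [norm_mul]
          exact mul_le_mul (hgb _) (hub θ) (norm_nonneg _) (le_trans (norm_nonneg _) (hgb θ))
      · refine integrable_of_bdd (C := C * 2) ?_ ?_
        · exact ((hAm.comp hpM).mul hum).aestronglyMeasurable
        · intro θ
          rw [norm_mul]
          exact mul_le_mul (hAb _) (hub θ) (norm_nonneg _) (le_trans (norm_nonneg _) (hAb θ))
    rw [hsplit]
    have hbound : ∀ θ, ‖g (permX π θ) * u θ‖ ≤ δ + ‖g (permX π θ)‖ ^ 2 * δ⁻¹ := by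
      intro θ
      rw [norm_mul]
      set x := ‖g (permX π θ)‖
      have hx : 0 ≤ x := norm_nonneg _
      have h1 : x * ‖u θ‖ ≤ x * 2 := mul_le_mul_of_nonneg_left (hub θ) hx
      have h2 : x * 2 ≤ δ + x ^ 2 * δ⁻¹ := by
        have h3 : 0 ≤ (x - δ) ^ 2 * δ⁻¹ := by positivity
        have h4 : (x - δ) ^ 2 * δ⁻¹ = x ^ 2 * δ⁻¹ - 2 * x + δ := by
          field_simp
          ring
        linarith
      linarith
    calc ‖∫ θ, g (permX π θ) * u θ ∂Q‖ ≤ ∫ θ, ‖g (permX π θ) * u θ‖ ∂Q :=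
          norm_integral_le_integral_norm _
      _ ≤ ∫ θ, (δ + ‖g (permX π θ)‖ ^ 2 * δ⁻¹) ∂Q := by
          refine integral_mono_of_nonneg (Filter.Eventually.of_forall fun θ => norm_nonneg _) ?_
            (Filter.Eventually.of_forall hbound)
          refine (integrable_const δ).add ?_
          refine Integrable.mul_const ?_ _
          refine integrable_of_bdd (C := (1 + C) ^ 2) ?_ ?_
          · exact ((hgm.comp hpM).norm.pow_const 2).aestronglyMeasurable
          · intro θ
            rw [norm_pow, norm_norm]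
            exact pow_le_pow_left₀ (norm_nonneg _) (hgb _) 2
      _ = δ + (∫ θ, ‖g (permX π θ)‖ ^ 2 ∂Q) * δ⁻¹ := by
          rw [integral_add (integrable_const δ), integral_const, integral_mul_const]
          · simp
          · refine Integrable.mul_const ?_ _
            refine integrable_of_bdd (C := (1 + C) ^ 2) ?_ ?_
            · exact ((hgm.comp hpM).norm.pow_const 2).aestronglyMeasurable
            · intro θ
              rw [norm_pow, norm_norm]
              exact pow_le_pow_left₀ (norm_nonneg _) (hgb _) 2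
      _ ≤ δ + δ ^ 2 * δ⁻¹ := by
          have : 0 < δ⁻¹ := by positivity
          gcongr
      _ = 2 * δ := by
          field_simp
          ring
  rw [← norm_le_zero_iff]
  refine le_of_forall_pos_le_add fun ε hε => ?_
  have := key (ε / 2) (by positivity)
  linarith

end EConcAux

open EConcAux in
theorem swap_inv (hF : GoodField F) {Φ : (ℕ →₀ F) → ℝ} (h : IsMaxE F Φ)
    (Q : Measure (X (ℕ →₀ F))) [IsProbabilityMeasure Q] (hQ : Rep Q Φ) (k : ℕ)
    (H : X (ℕ →₀ F) → ℝ) (hm : Measurable H) (hb : ∀ θ, |H θ| ≤ 1)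
    (hrot : ∀ γ : Gam F, (fun θ => H (rotX γ θ)) =ᵐ[Q] H) (happ : AppK Q k H) (i : ℕ) (hi : k < i) :
    (fun θ => H (permX (Equiv.swap 0 i) θ)) =ᵐ[Q] H := by
  have := hF.ctb
  have hfix : FixK Q k H := happ.fixK hF h.mem Q hQ hm hb
  have hH : HGood Q k H := ⟨hm, hb, hrot, hfix⟩
  have hagree := fun σ τ hst => fix_agree hF h.mem hQ hfix σ τ hst
  have hum : Measurable (dH H (k + 1) (k + 2)) := measurable_dH hm _ _
  have hub := fun θ => dH_bdd hb (k + 1) (k + 2) θ
  -- `∫ u² = 0`
  have hI1 := orth_H hF h Q hQ hH happ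
  have hI2 : ∫ θ, (((H (permX (Equiv.swap 0 (k + 1)) θ) : ℝ) : ℂ) +
      ((H (permX (Equiv.swap 0 (k + 2)) θ) : ℝ) : ℂ)) * ((dH H (k + 1) (k + 2) θ : ℝ) : ℂ) ∂Q
      = 0 := by
    refine integral_fresh hF h.mem hQ hH _ (k + 1) (k + 2) (by omega) (by omega) ?_
    have e1 : (fun θ => H (permX (Equiv.swap 0 (k + 1)) (permX (Equiv.swap (k + 1) (k + 2)) θ)))
        =ᵐ[Q] fun θ => H (permX (Equiv.swap 0 (k + 2)) θ) := by
      simp only [permX_comp]
      refine hagree _ _ fun j hj => ?_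
      rw [Equiv.Perm.mul_apply]
      by_cases hj0 : j = 0
      · subst hj0
        rw [Equiv.swap_apply_left, Equiv.swap_apply_left, Equiv.swap_apply_left]
      · rw [Equiv.swap_apply_of_ne_of_ne hj0 (by omega),
          Equiv.swap_apply_of_ne_of_ne (by omega) (by omega),
          Equiv.swap_apply_of_ne_of_ne hj0 (by omega)]
    have e2 : (fun θ => H (permX (Equiv.swap 0 (k + 2)) (permX (Equiv.swap (k + 1) (k + 2)) θ)))
        =ᵐ[Q] fun θ => H (permX (Equiv.swap 0 (k + 1)) θ) := by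
      simp only [permX_comp]
      refine hagree _ _ fun j hj => ?_
      rw [Equiv.Perm.mul_apply]
      by_cases hj0 : j = 0
      · subst hj0
        rw [Equiv.swap_apply_left, Equiv.swap_apply_left, Equiv.swap_apply_right]
      · rw [Equiv.swap_apply_of_ne_of_ne hj0 (by omega),
          Equiv.swap_apply_of_ne_of_ne (by omega) (by omega),
          Equiv.swap_apply_of_ne_of_ne hj0 (by omega)]
    filter_upwards [e1, e2] with θ h1 h2
    rw [h1, h2, add_comm]
  have hHi : ∀ j : ℕ, Integrable (fun θ => ((H (permX (Equiv.swap 0 j) θ) : ℝ) : ℂ) *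
      ((dH H (k + 1) (k + 2) θ : ℝ) : ℂ)) Q := by
    intro j
    refine integrable_of_bdd (C := 1 * 2) ?_ ?_
    · exact ((Complex.measurable_ofReal.comp (hm.comp (measurable_pull _))).mul
        (Complex.measurable_ofReal.comp hum)).aestronglyMeasurable
    · intro θ
      rw [norm_mul, Complex.norm_real, Complex.norm_real]
      exact mul_le_mul (hb _) (hub θ) (norm_nonneg _) zero_le_one
  have hI3 : ∫ θ, ((H (permX (Equiv.swap 0 (k + 2)) θ) : ℝ) : ℂ) *
      ((dH H (k + 1) (k + 2) θ : ℝ) : ℂ) ∂Q = 0 := by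
    simp only [add_mul] at hI2
    rw [integral_add (hHi _) (hHi _), hI1, zero_add] at hI2
    exact hI2
  have hI4 : ∫ θ, (dH H (k + 1) (k + 2) θ) ^ 2 ∂Q = 0 := by
    have h1 : ∫ θ, ((((dH H (k + 1) (k + 2) θ) ^ 2 : ℝ)) : ℂ) ∂Q = 0 := by
      have h2 : (fun θ => ((((dH H (k + 1) (k + 2) θ) ^ 2 : ℝ)) : ℂ)) =
          fun θ => ((H (permX (Equiv.swap 0 (k + 1)) θ) : ℝ) : ℂ) *
              ((dH H (k + 1) (k + 2) θ : ℝ) : ℂ) -
            ((H (permX (Equiv.swap 0 (k + 2)) θ) : ℝ) : ℂ) *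
              ((dH H (k + 1) (k + 2) θ : ℝ) : ℂ) := by
        funext θ
        rw [← sub_mul, ← Complex.ofReal_sub, ← Complex.ofReal_mul]
        congr 1
        rw [sq]
        rfl
      rw [h2, integral_sub (hHi _) (hHi _), hI1, hI3, sub_zero]
    rw [integral_complex_ofReal] at h1
    exact_mod_cast h1
  have hu0 : dH H (k + 1) (k + 2) =ᵐ[Q] 0 := by
    have h1 := (integral_eq_zero_iff_of_nonneg (f := fun θ => (dH H (k + 1) (k + 2) θ) ^ 2)
      (fun θ => sq_nonneg _) (by
        refine integrable_of_bdd (C := 2 ^ 2) ?_ ?_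
        · exact (hum.pow_const 2).aestronglyMeasurable
        · intro θ
          rw [norm_pow, Real.norm_eq_abs]
          exact pow_le_pow_left₀ (abs_nonneg _) (hub θ) 2)).mp hI4
    filter_upwards [h1] with θ hθ
    exact pow_eq_zero_iff two_ne_zero |>.mp hθ
  have hE : (fun θ => H (permX (Equiv.swap 0 (k + 1)) θ)) =ᵐ[Q]
      fun θ => H (permX (Equiv.swap 0 (k + 2)) θ) := by
    filter_upwards [hu0] with θ hθ
    have : dH H (k + 1) (k + 2) θ = 0 := hθ
    unfold dH at this
    linarith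
  -- compose with `swap 0 (k+1)`
  have hK : (fun θ => H (permX (Equiv.swap 0 (k + 2)) θ)) =ᵐ[Q] H := by
    have h1 := (h.mem.perm_mp hF Q hQ (Equiv.swap 0 (k + 1))).quasiMeasurePreserving.ae_eq_comp hE
    have h2 : (fun θ => H (permX (Equiv.swap 0 (k + 2)) (permX (Equiv.swap 0 (k + 1)) θ)))
        =ᵐ[Q] fun θ => H (permX (Equiv.swap 0 (k + 2)) θ) := by
      simp only [permX_comp]
      refine hagree _ _ fun j hj => ?_
      rw [Equiv.Perm.mul_apply]
      by_cases hj0 : j = 0
      · subst hj0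
        rw [Equiv.swap_apply_left, Equiv.swap_apply_of_ne_of_ne (by omega) (by omega)]
      · rw [Equiv.swap_apply_of_ne_of_ne hj0 (by omega),
          Equiv.swap_apply_of_ne_of_ne hj0 (by omega)]
    filter_upwards [h1, h2] with θ h3 h4
    simp only [Function.comp] at h3
    rw [permX_comp, Equiv.swap_mul_self, permX_one] at h3
    rw [← h4, ← h3]
  have h5 := (h.mem.perm_mp hF Q hQ (Equiv.swap i (k + 2))).quasiMeasurePreserving.ae_eq_comp hK
  have h6 := hfix (Equiv.swap i (k + 2)) (fun j hj =>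
    Equiv.swap_apply_of_ne_of_ne (by omega) (by omega))
  have h7 : (fun θ => H (permX (Equiv.swap 0 (k + 2)) (permX (Equiv.swap i (k + 2)) θ)))
      =ᵐ[Q] fun θ => H (permX (Equiv.swap 0 i) θ) := by
    simp only [permX_comp]
    refine hagree _ _ fun j hj => ?_
    rw [Equiv.Perm.mul_apply]
    by_cases hj0 : j = 0
    · subst hj0
      rw [Equiv.swap_apply_left, Equiv.swap_apply_left, Equiv.swap_apply_right]
    · rw [Equiv.swap_apply_of_ne_of_ne hj0 (by omega),
        Equiv.swap_apply_of_ne_of_ne (by omega) (by omega),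
        Equiv.swap_apply_of_ne_of_ne hj0 (by omega)]
  filter_upwards [h5, h6, h7] with θ g1 g2 g3
  simp only [Function.comp] at g1
  rw [← g3, g1, g2]

end Pool.Agent.Lib.P3852C
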