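import Pool.Agent.Lib.P3852C.EInv

/-!
# 6.3 (d): the second perturbation

`v = (H - ∫ H)/4`, `|v| ≤ 1/2`; `Φ_± x = ∫ ev x (1 ± v)` are real (invariance under `rotX (-1)` gives
`∫ ev x v = ∫ ev (-x) v`), in `𝓔` (`gam Φ_±` is wild: density `≤ 3/2`), and `Φ = (Φ_+ + Φ_-)/2`; so
`Φ_+ = Φ_-` by `IsMaxE.ext`, `∫ ev x v = 0` for all `x`, `v = 0` a.e. (`ae_zero_of_orth`).
-/

set_option autoImplicit false

namespace Pool.Agent.Lib.P3852C

open MeasureTheory

variable {F : Subfield ℂ}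

namespace ELastAux

/-- the perturbed function -/
noncomputable def Psi (Q : Measure (X (ℕ →₀ F))) (g : X (ℕ →₀ F) → ℝ) (x : ℕ →₀ F) : ℝ :=
  (∫ θ, ev x θ * ((g θ : ℝ) : ℂ) ∂Q).re

theorem integrable_mul (Q : Measure (X (ℕ →₀ F))) [IsProbabilityMeasure Q]
    {g : X (ℕ →₀ F) → ℝ} (hg : Measurable g) {C : ℝ} (hb : ∀ θ, |g θ| ≤ C) (x : ℕ →₀ F) :
    Integrable (fun θ => ev x θ * ((g θ : ℝ) : ℂ)) Q := by
  refine Integrable.of_bound
    ((measurable_ev x).mul (Complex.measurable_ofReal.comp hg)).aestronglyMeasurable C ?_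
  refine Filter.Eventually.of_forall fun θ => ?_
  rw [norm_mul, norm_ev, one_mul, Complex.norm_real, Real.norm_eq_abs]
  exact hb θ

theorem conj_int (Q : Measure (X (ℕ →₀ F))) (g : X (ℕ →₀ F) → ℝ) (x : ℕ →₀ F) :
    ∫ θ, ev (-x) θ * ((g θ : ℝ) : ℂ) ∂Q =
      (starRingEnd ℂ) (∫ θ, ev x θ * ((g θ : ℝ) : ℂ) ∂Q) := by
  rw [← integral_conj]
  refine integral_congr_ae (Filter.Eventually.of_forall fun θ => ?_)
  simp only [ev_neg, map_mul, Complex.conj_ofReal]

/-- the quadratic form -/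
theorem quad (Q : Measure (X (ℕ →₀ F))) [IsProbabilityMeasure Q]
    {g : X (ℕ →₀ F) → ℝ} (hg : Measurable g) {C : ℝ} (hb : ∀ θ, |g θ| ≤ C)
    {ι : Type} (s : Finset ι) (p : ι → (ℕ →₀ F)) (a : ι → ℝ) :
    ∑ i ∈ s, ∑ j ∈ s, a i * a j * Psi Q g (p i - p j) =
      ∫ θ, ‖∑ i ∈ s, (a i : ℂ) * ev (p i) θ‖ ^ 2 * g θ ∂Q := by
  have h1 : ∀ θ : X (ℕ →₀ F), ((‖∑ i ∈ s, (a i : ℂ) * ev (p i) θ‖ ^ 2 * g θ : ℝ) : ℂ)
      = ∑ i ∈ s, ∑ j ∈ s, ((a i * a j : ℝ) : ℂ) * (ev (p i - p j) θ * ((g θ : ℝ) : ℂ)) := by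
    intro θ
    have h2 : ((‖∑ i ∈ s, (a i : ℂ) * ev (p i) θ‖ ^ 2 : ℝ) : ℂ)
        = (∑ i ∈ s, (a i : ℂ) * ev (p i) θ) * (starRingEnd ℂ) (∑ i ∈ s, (a i : ℂ) * ev (p i) θ) := by
      rw [Complex.mul_conj, Complex.normSq_eq_norm_sq]
    rw [Complex.ofReal_mul, h2, map_sum, Finset.sum_mul_sum, Finset.sum_mul]
    refine Finset.sum_congr rfl fun i _ => ?_
    rw [Finset.sum_mul]
    refine Finset.sum_congr rfl fun j _ => ?_
    rw [map_mul, Complex.conj_ofReal, ev_sub]
    push_cast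
    ring
  have h3 : ((∫ θ, ‖∑ i ∈ s, (a i : ℂ) * ev (p i) θ‖ ^ 2 * g θ ∂Q : ℝ) : ℂ)
      = ∑ i ∈ s, ∑ j ∈ s, ((a i * a j : ℝ) : ℂ) *
          ∫ θ, ev (p i - p j) θ * ((g θ : ℝ) : ℂ) ∂Q := by
    rw [← integral_complex_ofReal]
    simp_rw [h1]
    rw [integral_finsetSum]
    · refine Finset.sum_congr rfl fun i _ => ?_
      rw [integral_finsetSum]
      · refine Finset.sum_congr rfl fun j _ => ?_
        rw [integral_const_mul]
      · intro j _
        exact (integrable_mul Q hg hb _).const_mul _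
    · intro i _
      exact integrable_finsetSum _ fun j _ => (integrable_mul Q hg hb _).const_mul _
  have h4 := congrArg Complex.re h3
  rw [Complex.ofReal_re] at h4
  rw [h4, Complex.re_sum]
  refine Finset.sum_congr rfl fun i _ => ?_
  rw [Complex.re_sum]
  refine Finset.sum_congr rfl fun j _ => ?_
  rw [Complex.re_ofReal_mul]
  rfl

theorem integrable_sq (Q : Measure (X (ℕ →₀ F))) [IsProbabilityMeasure Q]
    {g : X (ℕ →₀ F) → ℝ} (hg : Measurable g) {C : ℝ} (hb : ∀ θ, |g θ| ≤ C)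
    {ι : Type} (s : Finset ι) (p : ι → (ℕ →₀ F)) (a : ι → ℝ) :
    Integrable (fun θ => ‖∑ i ∈ s, (a i : ℂ) * ev (p i) θ‖ ^ 2 * g θ) Q := by
  have hm : Measurable fun θ => ∑ i ∈ s, (a i : ℂ) * ev (p i) θ :=
    Finset.measurable_sum _ fun i _ => (measurable_ev (p i)).const_mul _
  refine Integrable.of_bound ((hm.norm.pow_const 2).mul hg).aestronglyMeasurable
    ((∑ i ∈ s, |a i|) ^ 2 * C) ?_
  refine Filter.Eventually.of_forall fun θ => ?_
  rw [Real.norm_eq_abs, abs_mul, abs_of_nonneg (sq_nonneg _)]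
  have h1 : ‖∑ i ∈ s, (a i : ℂ) * ev (p i) θ‖ ≤ ∑ i ∈ s, |a i| := by
    refine (norm_sum_le _ _).trans (Finset.sum_le_sum fun i _ => ?_)
    rw [norm_mul, norm_ev, mul_one, Complex.norm_real, Real.norm_eq_abs]
  exact mul_le_mul (pow_le_pow_left₀ (norm_nonneg _) h1 2) (hb θ) (abs_nonneg _) (sq_nonneg _)

/-- finite permutations agree with a permutation on a finite set -/
theorem swap_agree (P : Equiv.Perm ℕ → Prop) (h1 : P 1)
    (hs : ∀ (a b : ℕ) (σ : Equiv.Perm ℕ), P σ → P (Equiv.swap a b * σ)) (π : Equiv.Perm ℕ)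
    (s : Finset ℕ) : ∃ σ : Equiv.Perm ℕ, P σ ∧ ∀ i ∈ s, σ i = π i := by
  induction s using Finset.induction_on with
  | empty => exact ⟨1, h1, by simp⟩
  | insert a s ha ih =>
    obtain ⟨σ, hσ, hag⟩ := ih
    refine ⟨Equiv.swap (σ a) (π a) * σ, hs _ _ _ hσ, ?_⟩
    intro i hi
    rw [Equiv.Perm.mul_apply]
    rcases Finset.mem_insert.1 hi with rfl | hi
    · rw [Equiv.swap_apply_left]
    · have hia : i ≠ a := fun h => ha (h ▸ hi)
      rw [Equiv.swap_apply_of_ne_of_ne]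
      · exact hag i hi
      · exact fun h => hia (σ.injective h)
      · rw [hag i hi]
        exact fun h => hia (π.injective h)

theorem exch_of_swap (Φ : (ℕ →₀ F) → ℝ)
    (h : ∀ (a b : ℕ) (x : ℕ →₀ F), Φ (Finsupp.mapDomain (Equiv.swap a b) x) = Φ x)
    (π : Equiv.Perm ℕ) (x : ℕ →₀ F) : Φ (Finsupp.mapDomain π x) = Φ x := by
  obtain ⟨σ, hσ, hag⟩ := swap_agree (fun σ => ∀ y : ℕ →₀ F, Φ (Finsupp.mapDomain σ y) = Φ y)
    (by intro y; rw [Equiv.Perm.coe_one, Finsupp.mapDomain_id])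
    (by
      intro a b σ hσ y
      rw [Equiv.Perm.coe_mul, Finsupp.mapDomain_comp, h, hσ]) π x.support
  have h1 : Finsupp.mapDomain π x = Finsupp.mapDomain σ x :=
    Finsupp.mapDomain_congr fun i hi => (hag i hi).symm
  rw [h1, hσ]

end ELastAux

open ELastAux

theorem const_of_sym (hF : GoodField F) {Φ : (ℕ →₀ F) → ℝ} (h : IsMaxE F Φ)
    (Q : Measure (X (ℕ →₀ F))) [IsProbabilityMeasure Q] (hQ : Rep Q Φ)
    (H : X (ℕ →₀ F) → ℝ) (hm : Measurable H) (hb : ∀ θ, |H θ| ≤ 1)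
    (hrot : ∀ γ : Gam F, (fun θ => H (rotX γ θ)) =ᵐ[Q] H)
    (hperm : ∀ a b : ℕ, (fun θ => H (permX (Equiv.swap a b) θ)) =ᵐ[Q] H) :
    H =ᵐ[Q] fun _ => ∫ θ, H θ ∂Q := by
  have := hF.ctb
  set m : ℝ := ∫ θ, H θ ∂Q with hmdef
  have hHint : Integrable H Q :=
    Integrable.of_bound hm.aestronglyMeasurable 1
      (Filter.Eventually.of_forall fun θ => by rw [Real.norm_eq_abs]; exact hb θ)
  have hm1 : |m| ≤ 1 := by
    have := norm_integral_le_of_norm_le_const (μ := Q) (f := H) (C := 1)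
      (Filter.Eventually.of_forall fun θ => by rw [Real.norm_eq_abs]; exact hb θ)
    simpa using this
  set v : X (ℕ →₀ F) → ℝ := fun θ => (H θ - m) / 4 with hv
  have hvm : Measurable v := (hm.sub_const m).div_const 4
  have hvb : ∀ θ, |v θ| ≤ 1 / 2 := by
    intro θ
    have h1 := abs_le.1 (hb θ)
    have h2 := abs_le.1 hm1
    rw [hv, abs_le]
    constructor
    · simp only; linarith
    · simp only; linarith
  have hvint : Integrable v Q :=
    Integrable.of_bound hvm.aestronglyMeasurable (1 / 2)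
      (Filter.Eventually.of_forall fun θ => by rw [Real.norm_eq_abs]; exact hvb θ)
  have hv0 : ∫ θ, v θ ∂Q = 0 := by
    simp only [hv]
    rw [integral_div, integral_sub hHint (integrable_const m), integral_const]
    simp [← hmdef]
  have hvrot : ∀ γ : Gam F, (fun θ => v (rotX γ θ)) =ᵐ[Q] v := by
    intro γ
    filter_upwards [hrot γ] with θ hθ
    simp only [hv] at hθ ⊢
    rw [hθ]
  have hvperm : ∀ a b : ℕ, (fun θ => v (permX (Equiv.swap a b) θ)) =ᵐ[Q] v := by
    intro a b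
    filter_upwards [hperm a b] with θ hθ
    simp only [hv] at hθ ⊢
    rw [hθ]
  -- the perturbed functions
  have key : ∀ e : ℝ, |e| = 1 → InE F (Psi Q (fun θ => 1 + e * v θ)) := by
    intro e he
    set g : X (ℕ →₀ F) → ℝ := fun θ => 1 + e * v θ with hg
    have hgm : Measurable g := (hvm.const_mul e).const_add 1
    have hev : ∀ θ, |e * v θ| ≤ 1 / 2 := by
      intro θ
      rw [abs_mul, he, one_mul]
      exact hvb θ
    have hg0 : ∀ θ, 0 ≤ g θ := by
      intro θ
      have := abs_le.1 (hev θ)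
      simp only [hg]; linarith
    have hg1 : ∀ θ, g θ ≤ 3 / 2 := by
      intro θ
      have := abs_le.1 (hev θ)
      simp only [hg]; linarith
    have hgb : ∀ θ, |g θ| ≤ 3 / 2 := by
      intro θ
      rw [abs_of_nonneg (hg0 θ)]
      exact hg1 θ
    refine ⟨⟨?_, ?_⟩, ?_, ?_, ?_, ?_⟩
    · intro x
      unfold Psi
      rw [conj_int, Complex.conj_re]
    · intro s a
      rw [quad Q hgm hgb s (fun x => x) a]
      exact integral_nonneg fun θ => mul_nonneg (sq_nonneg _) (hg0 θ)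
    · unfold Psi
      simp only [ev_zero, one_mul]
      rw [integral_complex_ofReal, Complex.ofReal_re]
      simp only [hg]
      rw [integral_add (integrable_const _) (hvint.const_mul e), integral_const_mul, hv0]
      simp
    · intro γ x
      unfold Psi
      congr 1
      have hmp := InE.rot_mp hF h.mem Q hQ γ
      have h1 : ∫ θ, ev x θ * ((g θ : ℝ) : ℂ) ∂Q
          = ∫ θ, ev x (rotX γ θ) * ((g (rotX γ θ) : ℝ) : ℂ) ∂Q := by
        conv_lhs => rw [← hmp.map_eq]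
        rw [integral_map hmp.measurable.aemeasurable]
        exact ((measurable_ev x).mul (Complex.measurable_ofReal.comp hgm)).aestronglyMeasurable
      rw [h1]
      refine integral_congr_ae ?_
      filter_upwards [hvrot γ] with θ hθ
      simp only [hg, ev_rotX]
      rw [hθ]
    · apply exch_of_swap
      intro a b x
      unfold Psi
      congr 1
      have hmp := InE.perm_mp hF h.mem Q hQ (Equiv.swap a b)
      have h1 : ∫ θ, ev x θ * ((g θ : ℝ) : ℂ) ∂Q
          = ∫ θ, ev x (permX (Equiv.swap a b) θ) * ((g (permX (Equiv.swap a b) θ) : ℝ) : ℂ) ∂Q := by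
        conv_lhs => rw [← hmp.map_eq]
        rw [integral_map hmp.measurable.aemeasurable]
        exact ((measurable_ev x).mul (Complex.measurable_ofReal.comp hgm)).aestronglyMeasurable
      rw [h1]
      refine integral_congr_ae ?_
      filter_upwards [hvperm a b] with θ hθ
      simp only [hg, ev_permX]
      rw [hθ]
    · intro T hT ε hε
      obtain ⟨s, w, h1, h2, h3, h4⟩ := h.mem.wild T hT (2 / 3 * ε) (by positivity)
      refine ⟨s, w, h1, h2, h3, ?_⟩
      set p : F → (ℕ →₀ F) := fun x => Finsupp.single 0 x - Finsupp.single 1 x with hp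
      have hpsub : ∀ x y : F, (Finsupp.single 0 (x - y) - Finsupp.single 1 (x - y) : ℕ →₀ F)
          = p x - p y := by
        intro x y
        simp only [hp, Finsupp.single_sub]
        abel
      have e1 : ∑ x ∈ s, ∑ y ∈ s, w x * w y * gam (Psi Q g) (x - y)
          = ∫ θ, ‖∑ i ∈ s, (w i : ℂ) * ev (p i) θ‖ ^ 2 * g θ ∂Q := by
        rw [← quad Q hgm hgb s p w]
        refine Finset.sum_congr rfl fun x _ => Finset.sum_congr rfl fun y _ => ?_
        unfold gam
        rw [hpsub]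
      have hone : ∀ θ : X (ℕ →₀ F), |(1 : ℝ)| ≤ 1 := fun _ => by simp
      have e2 : ∑ x ∈ s, ∑ y ∈ s, w x * w y * gam Φ (x - y)
          = ∫ θ, ‖∑ i ∈ s, (w i : ℂ) * ev (p i) θ‖ ^ 2 * (1 : ℝ) ∂Q := by
        rw [← quad Q (g := fun _ => (1 : ℝ)) measurable_const hone s p w]
        refine Finset.sum_congr rfl fun x _ => Finset.sum_congr rfl fun y _ => ?_
        unfold gam Psi
        rw [hpsub]
        have := hQ (p x - p y)
        simp only [Complex.ofReal_one, mul_one]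
        rw [this, Complex.ofReal_re]
      rw [e2] at h4
      rw [e1]
      have h5 : ∫ θ, ‖∑ i ∈ s, (w i : ℂ) * ev (p i) θ‖ ^ 2 * g θ ∂Q
          ≤ ∫ θ, 3 / 2 * (‖∑ i ∈ s, (w i : ℂ) * ev (p i) θ‖ ^ 2 * (1 : ℝ)) ∂Q := by
        refine integral_mono (integrable_sq Q hgm hgb s p w)
          ((integrable_sq Q (g := fun _ => (1 : ℝ)) measurable_const hone s p w).const_mul _) ?_
        intro θ
        simp only
        have := mul_le_mul_of_nonneg_left (hg1 θ)
          (sq_nonneg ‖∑ i ∈ s, (w i : ℂ) * ev (p i) θ‖)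
        linarith
      rw [integral_const_mul] at h5
      linarith
  have hp := key 1 (by simp)
  have hn := key (-1) (by simp)
  have hsplit : ∀ (e : ℝ) (x : ℕ →₀ F), Psi Q (fun θ => 1 + e * v θ) x = Φ x + e * Psi Q v x := by
    intro e x
    unfold Psi
    have h1 : ∀ θ : X (ℕ →₀ F), ev x θ * ((1 + e * v θ : ℝ) : ℂ)
        = ev x θ + (e : ℂ) * (ev x θ * ((v θ : ℝ) : ℂ)) := by
      intro θ; push_cast; ring
    simp_rw [h1]
    have h2 : Integrable (fun θ : X (ℕ →₀ F) => ev x θ) Q := by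
      have := integrable_mul Q (g := fun _ => (1 : ℝ)) measurable_const (C := 1)
        (fun _ => by simp) x
      simpa using this
    rw [integral_add h2 ((integrable_mul Q hvm hvb x).const_mul _), integral_const_mul, hQ x,
      Complex.add_re, Complex.ofReal_re, Complex.re_ofReal_mul]
  have heq := h.ext _ _ hp hn (by
    intro x
    rw [hsplit, hsplit]
    ring)
  have hz : ∀ x, Psi Q v x = 0 := by
    intro x
    have := congrFun heq x
    rw [hsplit, hsplit] at this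
    linarith
  -- the imaginary parts vanish as well
  have hreal : ∀ x : ℕ →₀ F, ∫ θ, ev x θ * ((v θ : ℝ) : ℂ) ∂Q = 0 := by
    intro x
    have hmem : (⟨-1, by simp [Submonoid.unitSphere]⟩ : Circle) ∈ Gam F := by
      show ((-1 : ℂ)) ∈ F
      exact F.neg_mem F.one_mem
    set γ : Gam F := ⟨⟨-1, by simp [Submonoid.unitSphere]⟩, hmem⟩ with hγ
    have hto : toF γ = -1 := by
      apply Subtype.ext
      simp [toF, hγ]
    have hmp := InE.rot_mp hF h.mem Q hQ γ
    have h1 : ∫ θ, ev x θ * ((v θ : ℝ) : ℂ) ∂Q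
        = ∫ θ, ev x (rotX γ θ) * ((v (rotX γ θ) : ℝ) : ℂ) ∂Q := by
      conv_lhs => rw [← hmp.map_eq]
      rw [integral_map hmp.measurable.aemeasurable]
      exact ((measurable_ev x).mul (Complex.measurable_ofReal.comp hvm)).aestronglyMeasurable
    have h2 : ∫ θ, ev x (rotX γ θ) * ((v (rotX γ θ) : ℝ) : ℂ) ∂Q
        = ∫ θ, ev (-x) θ * ((v θ : ℝ) : ℂ) ∂Q := by
      refine integral_congr_ae ?_
      filter_upwards [hvrot γ] with θ hθ
      simp only [ev_rotX]
      rw [hθ, hto, neg_smul, one_smul]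
    rw [h2, conj_int] at h1
    have h3 := Complex.conj_eq_iff_im.1 h1.symm
    apply Complex.ext
    · exact hz x
    · exact h3
  have hmem : MemLp (fun θ => ((v θ : ℝ) : ℂ)) 2 Q := by
    refine MemLp.of_bound (Complex.measurable_ofReal.comp hvm).aestronglyMeasurable (1 / 2) ?_
    refine Filter.Eventually.of_forall fun θ => ?_
    rw [Complex.norm_real, Real.norm_eq_abs]
    exact hvb θ
  have hfin := ae_zero_of_orth Q (fun θ => ((v θ : ℝ) : ℂ)) hmem hreal
  filter_upwards [hfin] with θ hθ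
  have h1 : v θ = 0 := by
    have : ((v θ : ℝ) : ℂ) = 0 := hθ
    exact_mod_cast this
  simp only [hv] at h1
  linarith

end Pool.Agent.Lib.P3852C
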