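import Pool.Agent.Lib.P3852C.Defs

/-!
# Facts on good fields (§0 of the proof file)

`F` is a countable subfield of `ℂ` stable under conjugation and under all `n`-th roots.
All proofs are short: `I ^ 2 = -1`; `2 Re x = x + conj x`; `‖x‖ ^ 2 = x * conj x`, etc.
-/

set_option autoImplicit false

namespace Pool.Agent.Lib.P3852C

variable {F : Subfield ℂ}

/-- unimodular elements of `F` -/
theorem GFAux.exists_gam {z : ℂ} (hz : z ∈ F) (h : ‖z‖ = 1) :
    ∃ γ : Gam F, ((γ : Circle) : ℂ) = z :=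
  ⟨⟨⟨z, mem_sphere_zero_iff_norm.2 h⟩, hz⟩, rfl⟩

theorem GoodField.I_mem (hF : GoodField F) : Complex.I ∈ F := by
  refine hF.root 2 Complex.I (by norm_num) ?_
  rw [Complex.I_sq]
  exact F.neg_mem F.one_mem

theorem GoodField.re_mem (hF : GoodField F) {x : ℂ} (hx : x ∈ F) : ((x.re : ℝ) : ℂ) ∈ F := by
  rw [Complex.re_eq_add_conj]
  exact F.div_mem (F.add_mem hx (hF.conj x hx)) (ofNat_mem F 2)

theorem GoodField.im_mem (hF : GoodField F) {x : ℂ} (hx : x ∈ F) : ((x.im : ℝ) : ℂ) ∈ F := by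
  rw [Complex.im_eq_sub_conj]
  exact F.div_mem (F.sub_mem hx (hF.conj x hx)) (F.mul_mem (ofNat_mem F 2) hF.I_mem)

theorem GoodField.norm_mem (hF : GoodField F) {x : ℂ} (hx : x ∈ F) : ((‖x‖ : ℝ) : ℂ) ∈ F := by
  refine hF.root 2 _ (by norm_num) ?_
  rw [← Complex.mul_conj']
  exact F.mul_mem hx (hF.conj x hx)

theorem GoodField.sqrt_mem (hF : GoodField F) {t : ℝ} (ht : (t : ℂ) ∈ F) :
    ((Real.sqrt t : ℝ) : ℂ) ∈ F := by
  rcases le_total 0 t with h | h
  · refine hF.root 2 _ (by norm_num) ?_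
    rw [← Complex.ofReal_pow, Real.sq_sqrt h]
    exact ht
  · rw [Real.sqrt_eq_zero_of_nonpos h, Complex.ofReal_zero]
    exact F.zero_mem

/-- the rationals `q` and the Gaussian rationals -/
theorem GoodField.rat_mem (F : Subfield ℂ) (q : ℚ) : (q : ℂ) ∈ F := by
  exact SubfieldClass.ratCast_mem F q

theorem GoodField.gam_countable (hF : GoodField F) : Countable (Gam F) := by
  have := hF.ctb
  refine Function.Injective.countable (f := fun γ : Gam F => toF γ) ?_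
  intro γ δ h
  have h1 : ((toF γ : F) : ℂ) = ((toF δ : F) : ℂ) := by
    simp only at h
    rw [h]
  exact Subtype.ext (Circle.ext h1)

theorem GFAux.norm_cay (s : ℝ) : ‖((s : ℂ) + Complex.I) / (s - Complex.I)‖ = 1 := by
  have h1 : (s : ℂ) + Complex.I = (starRingEnd ℂ) (s - Complex.I) := by
    rw [map_sub, Complex.conj_ofReal, Complex.conj_I]
    ring
  have h2 : (s : ℂ) - Complex.I ≠ 0 := by
    intro h0
    have h3 := congrArg Complex.im h0
    simp at h3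
  rw [h1, norm_div, Complex.norm_conj]
  exact div_self (norm_ne_zero_iff.2 h2)

/-- the Cayley transform -/
noncomputable def GFAux.cay (hF : GoodField F) (s : ℝ) (hs : (s : ℂ) ∈ F) : Gam F :=
  (GFAux.exists_gam (F.div_mem (F.add_mem hs hF.I_mem) (F.sub_mem hs hF.I_mem))
    (GFAux.norm_cay s)).choose

theorem GFAux.cay_spec (hF : GoodField F) (s : ℝ) (hs : (s : ℂ) ∈ F) :
    ((GFAux.cay hF s hs : Circle) : ℂ) = ((s : ℂ) + Complex.I) / (s - Complex.I) :=
  (GFAux.exists_gam (F.div_mem (F.add_mem hs hF.I_mem) (F.sub_mem hs hF.I_mem))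
    (GFAux.norm_cay s)).choose_spec

theorem GFAux.cay_inj (hF : GoodField F) {s t : ℝ} {hs : (s : ℂ) ∈ F} {ht : (t : ℂ) ∈ F}
    (h : GFAux.cay hF s hs = GFAux.cay hF t ht) : s = t := by
  have h1 := GFAux.cay_spec hF s hs
  have h2 := GFAux.cay_spec hF t ht
  rw [h, h2] at h1
  have hne : ∀ r : ℝ, (r : ℂ) - Complex.I ≠ 0 := by
    intro r h0
    have h3 := congrArg Complex.im h0
    simp at h3
  rw [div_eq_div_iff (hne t) (hne s)] at h1
  have h3 : (2 : ℂ) * Complex.I * (s - t) = 0 := by linear_combination h1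
  have h4 : ((s : ℂ) - t) = 0 := by
    rcases mul_eq_zero.1 h3 with h5 | h5
    · exact absurd h5 (mul_ne_zero two_ne_zero Complex.I_ne_zero)
    · exact h5
  have h5 : (s : ℂ) = t := sub_eq_zero.1 h4
  exact_mod_cast h5

/-- e.g. the elements `(n + i) / (n - i)`, `n ∈ ℕ`, are distinct -/
theorem GoodField.gam_infinite (hF : GoodField F) : Infinite (Gam F) := by
  refine Infinite.of_injective (fun n : ℕ => GFAux.cay hF (n : ℝ) (by
    have := natCast_mem F n
    exact_mod_cast this)) ?_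
  intro m n h
  have h1 := GFAux.cay_inj hF h
  exact_mod_cast h1

theorem GoodField.gam_divisible (hF : GoodField F) (γ : Gam F) (n : ℕ) (hn : 0 < n) :
    ∃ δ : Gam F, δ ^ n = γ := by
  have hn' : (n : ℂ) ≠ 0 := by
    exact_mod_cast hn.ne'
  have hd : (Circle.exp (Complex.arg (γ : Circle) / n)) ^ n = (γ : Circle) := by
    have h2 : ((n : ℝ) * (Complex.arg (γ : Circle) / n)) = Complex.arg (γ : Circle) := by
      have : (n : ℝ) ≠ 0 := by exact_mod_cast hn.ne'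
      field_simp
    rw [← Circle.exp_natCast_mul, h2]
    apply Circle.ext
    rw [Circle.coe_exp]
    have h3 := Complex.norm_mul_exp_arg_mul_I ((γ : Circle) : ℂ)
    rw [Circle.norm_coe, Complex.ofReal_one, one_mul] at h3
    exact h3
  refine ⟨⟨Circle.exp (Complex.arg (γ : Circle) / n), ?_⟩, ?_⟩
  · refine hF.root n _ hn ?_
    rw [← Circle.coe_pow, hd]
    exact γ.2
  · apply Subtype.ext
    exact hd

/-- two elements with the same norm differ by a rotation -/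
theorem GoodField.exists_rot (hF : GoodField F) (x y : F) (h : ‖(x : ℂ)‖ = ‖(y : ℂ)‖) :
    ∃ γ : Gam F, toF γ * x = y := by
  by_cases hx : x = 0
  · subst hx
    have hy : y = 0 := by
      apply Subtype.ext
      have h1 : ‖(y : ℂ)‖ = 0 := by rw [← h]; simp
      simpa using h1
    exact ⟨1, by rw [hy, mul_zero]⟩
  · have hx' : (x : ℂ) ≠ 0 := fun h0 => hx (Subtype.ext h0)
    obtain ⟨γ, hγ⟩ := GFAux.exists_gam (F := F) (F.div_mem y.2 x.2) (by
      rw [norm_div, h]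
      rw [← h]
      exact div_self (norm_ne_zero_iff.2 hx'))
    refine ⟨γ, Subtype.ext ?_⟩
    change ((toF γ : F) : ℂ) * (x : ℂ) = y
    rw [coe_toF, hγ]
    exact div_mul_cancel₀ _ hx'

/-- (D1) every `y` with `‖y‖ ≤ 2 T` is `T (λ + μ)`; here `T : F` is any nonzero element. -/
theorem GoodField.exists_add (hF : GoodField F) (T y : F) (hT : T ≠ 0)
    (h : ‖(y : ℂ)‖ ≤ 2 * ‖(T : ℂ)‖) : ∃ γ δ : Gam F, y = T * (toF γ + toF δ) := by
  have hT' : (T : ℂ) ≠ 0 := fun h0 => hT (Subtype.ext h0)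
  have hTn : 0 < ‖(T : ℂ)‖ := norm_pos_iff.2 hT'
  set w : ℂ := (y : ℂ) / T with hw
  have hwF : w ∈ F := F.div_mem y.2 T.2
  have hwn : ‖w‖ ≤ 2 := by
    rw [hw, norm_div, div_le_iff₀ hTn]
    exact h
  suffices hs : ∃ γ δ : Gam F, w = ((γ : Circle) : ℂ) + ((δ : Circle) : ℂ) by
    obtain ⟨γ, δ, hγ⟩ := hs
    refine ⟨γ, δ, Subtype.ext ?_⟩
    change (y : ℂ) = (T : ℂ) * (((toF γ : F) : ℂ) + ((toF δ : F) : ℂ))
    rw [coe_toF, coe_toF, ← hγ, hw]
    field_simp
  by_cases hw0 : w = 0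
  · obtain ⟨δ, hδ⟩ := GFAux.exists_gam (F := F) (z := -1) (F.neg_mem F.one_mem) (by simp)
    refine ⟨1, δ, ?_⟩
    rw [hδ, hw0]
    simp
  · have hr : 0 < ‖w‖ := norm_pos_iff.2 hw0
    have hrF : ((‖w‖ : ℝ) : ℂ) ∈ F := hF.norm_mem hwF
    have hr2 : (((‖w‖ / 2 : ℝ)) : ℂ) ∈ F := by
      push_cast
      exact F.div_mem hrF (ofNat_mem F 2)
    set s : ℝ := Real.sqrt (1 - (‖w‖ / 2) ^ 2) with hs
    have hnn : 0 ≤ 1 - (‖w‖ / 2) ^ 2 := by nlinarith
    have hsq : s ^ 2 = 1 - (‖w‖ / 2) ^ 2 := Real.sq_sqrt hnn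
    have hsF : (s : ℂ) ∈ F := by
      refine hF.sqrt_mem ?_
      push_cast
      refine F.sub_mem F.one_mem (F.pow_mem ?_ 2)
      exact F.div_mem hrF (ofNat_mem F 2)
    have hnorm : ∀ t : ℝ, t ^ 2 = 1 - (‖w‖ / 2) ^ 2 → ‖(((‖w‖ / 2 : ℝ)) : ℂ) + t * Complex.I‖ = 1 := by
      intro t ht
      have h1 : ‖(((‖w‖ / 2 : ℝ)) : ℂ) + t * Complex.I‖ ^ 2 = 1 := by
        rw [← Complex.normSq_eq_norm_sq, Complex.normSq_add_mul_I, ht]
        ring
      have h2 : 0 ≤ ‖(((‖w‖ / 2 : ℝ)) : ℂ) + t * Complex.I‖ := norm_nonneg _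
      nlinarith
    have hu : ‖w / (‖w‖ : ℂ)‖ = 1 := by
      rw [norm_div, Complex.norm_real, norm_norm]
      exact div_self hr.ne'
    have huF : w / (‖w‖ : ℂ) ∈ F := F.div_mem hwF hrF
    obtain ⟨γ, hγ⟩ := GFAux.exists_gam (F := F)
      (z := w / (‖w‖ : ℂ) * ((((‖w‖ / 2 : ℝ)) : ℂ) + s * Complex.I))
      (F.mul_mem huF (F.add_mem hr2 (F.mul_mem hsF hF.I_mem))) (by
        rw [norm_mul, hu, hnorm s hsq, one_mul])
    obtain ⟨δ, hδ⟩ := GFAux.exists_gam (F := F)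
      (z := w / (‖w‖ : ℂ) * ((((‖w‖ / 2 : ℝ)) : ℂ) + ((-s : ℝ) : ℂ) * Complex.I))
      (F.mul_mem huF (F.add_mem hr2 (F.mul_mem (by
        push_cast
        exact F.neg_mem hsF) hF.I_mem))) (by
        rw [norm_mul, hu, hnorm (-s) (by rw [neg_sq]; exact hsq), one_mul])
    refine ⟨γ, δ, ?_⟩
    rw [hγ, hδ]
    have hr' : (‖w‖ : ℂ) ≠ 0 := by exact_mod_cast hr.ne'
    push_cast
    field_simp
    ring

/-- (D2) Cayley: every `γ ≠ 1` is `(s + i) / (s - i)` with `s` real in `F` -/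
theorem GoodField.cayley (hF : GoodField F) (γ : Gam F) (h : γ ≠ 1) :
    ∃ s : ℝ, (s : ℂ) ∈ F ∧ ((γ : Circle) : ℂ) = (s + Complex.I) / (s - Complex.I) := by
  set g : ℂ := ((γ : Circle) : ℂ) with hg
  have hgF : g ∈ F := γ.2
  have hg0 : g ≠ 0 := Circle.coe_ne_zero _
  have hg1 : g - 1 ≠ 0 := by
    intro h0
    apply h
    apply Subtype.ext
    apply Circle.ext
    exact sub_eq_zero.1 h0
  have hconj : (starRingEnd ℂ) g = g⁻¹ := by
    rw [hg, ← Circle.coe_inv_eq_conj, Circle.coe_inv]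
  set s : ℂ := Complex.I * (g + 1) / (g - 1) with hs
  have hsF : s ∈ F := F.div_mem (F.mul_mem hF.I_mem (F.add_mem hgF F.one_mem))
    (F.sub_mem hgF F.one_mem)
  have hsr : (starRingEnd ℂ) s = s := by
    rw [hs, map_div₀, map_mul, map_add, map_sub, map_one, hconj, Complex.conj_I]
    have h2 : g⁻¹ - 1 ≠ 0 := by
      intro h0
      apply hg1
      have h3 : g⁻¹ = 1 := sub_eq_zero.1 h0
      rw [inv_eq_one.1 h3]
      ring
    rw [div_eq_div_iff h2 hg1]
    field_simp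
    ring
  obtain ⟨r, hr⟩ : ∃ r : ℝ, (r : ℂ) = s := by
    refine ⟨s.re, ?_⟩
    exact Complex.conj_eq_iff_re.1 hsr
  refine ⟨r, by rw [hr]; exact hsF, ?_⟩
  rw [hr]
  have h4 : s - Complex.I ≠ 0 := by
    rw [hs]
    have : Complex.I * (g + 1) / (g - 1) - Complex.I = 2 * Complex.I / (g - 1) := by
      field_simp
      ring
    rw [this]
    exact div_ne_zero (mul_ne_zero two_ne_zero Complex.I_ne_zero) hg1
  rw [eq_div_iff h4, hs]
  field_simp
  ring

/-- radial functions are the rotation invariant functions -/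
theorem GoodField.radial_iff (hF : GoodField F) (c : F → ℝ) :
    Radial F c ↔ ∀ (γ : Gam F) (x : F), c (toF γ * x) = c x := by
  constructor
  · intro hc γ x
    refine hc _ _ ?_
    change ‖((toF γ : F) : ℂ) * (x : ℂ)‖ = ‖(x : ℂ)‖
    rw [norm_mul, norm_toF, one_mul]
  · intro hc x y hxy
    obtain ⟨γ, hγ⟩ := hF.exists_rot x y hxy
    rw [← hγ, hc]

end Pool.Agent.Lib.P3852C
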