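import Pool.Agent.Lib.P3852C.Defs

/-!
# Invariant means (1.2)
-/

set_option autoImplicit false

namespace Pool.Agent.Lib.P3852C

open Filter Topology

variable {G : Type} [CommGroup G]

lemma Bd.comp {G H : Type} {f : G → ℝ} (hf : Bd f) (p : H → G) : Bd (fun x => f (p x)) := by
  obtain ⟨C, hC⟩ := hf
  exact ⟨C, fun x => hC _⟩

lemma Bd.const {G : Type} (c : ℝ) : Bd (fun _ : G => c) := ⟨|c|, fun _ => le_rfl⟩

lemma Bd.add {G : Type} {f g : G → ℝ} (hf : Bd f) (hg : Bd g) : Bd (fun x => f x + g x) := by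
  obtain ⟨C, hC⟩ := hf
  obtain ⟨D, hD⟩ := hg
  exact ⟨C + D, fun x => (abs_add_le _ _).trans (add_le_add (hC x) (hD x))⟩

lemma Bd.mul {G : Type} {f g : G → ℝ} (hf : Bd f) (hg : Bd g) : Bd (fun x => f x * g x) := by
  obtain ⟨C, hC⟩ := hf
  obtain ⟨D, hD⟩ := hg
  refine ⟨C * D, fun x => ?_⟩
  rw [abs_mul]
  exact mul_le_mul (hC x) (hD x) (abs_nonneg _) ((abs_nonneg _).trans (hC x))

/-- The mean `f ↦ M (f ∘ p)`, `p` a surjective endomorphism. -/
def IMean.comp (M : IMean G) (p : G →* G) (hp : Function.Surjective p) : IMean G where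
  val f := M.val (fun x => f (p x))
  add f g hf hg := M.add _ _ (hf.comp p) (hg.comp p)
  smul c f hf := M.smul c _ (hf.comp p)
  mono f g hf hg h := M.mono _ _ (hf.comp p) (hg.comp p) (fun x => h _)
  one := M.one
  inv h f hf := by
    obtain ⟨h', rfl⟩ := hp h
    have := M.inv h' (fun x => f (p x)) (hf.comp p)
    simpa only [map_mul] using this

@[simp] lemma IMean.comp_val (M : IMean G) (p : G →* G) (hp : Function.Surjective p) (f : G → ℝ) :
    (M.comp p hp).val f = M.val (fun x => f (p x)) := rfl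

theorem IMean.val_const (M : IMean G) (c : ℝ) : M.val (fun _ => c) = c := by
  have h := M.smul c (fun _ => 1) (Bd.const 1)
  rw [M.one] at h
  simpa using h

theorem IMean.val_sub (M : IMean G) (f g : G → ℝ) (hf : Bd f) (hg : Bd g) :
    M.val (fun x => f x - g x) = M.val f - M.val g := by
  have h1 := M.smul (-1) g hg
  have h2 := M.add f (fun x => -1 * g x) hf ((Bd.const (-1)).mul hg)
  rw [h1] at h2
  have e : (fun x => f x - g x) = fun x => f x + -1 * g x := by
    funext x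
    ring
  rw [e, h2]
  ring

theorem IMean.val_le (M : IMean G) (f : G → ℝ) (C : ℝ) (hf : Bd f) (h : ∀ x, f x ≤ C) :
    M.val f ≤ C := by
  rw [← M.val_const C]
  exact M.mono f _ hf (Bd.const C) h

theorem IMean.le_val (M : IMean G) (f : G → ℝ) (C : ℝ) (hf : Bd f) (h : ∀ x, C ≤ f x) :
    C ≤ M.val f := by
  rw [← M.val_const C]
  exact M.mono _ f (Bd.const C) hf h

namespace MeanBasicAux

set_option linter.unusedSectionVars false

lemma bd_abs {f : G → ℝ} (hf : Bd f) : Bd (fun x => |f x|) := by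
  obtain ⟨C, hC⟩ := hf
  exact ⟨C, fun x => by rw [abs_abs]; exact hC x⟩

lemma bd_smul {f : G → ℝ} (c : ℝ) (hf : Bd f) : Bd (fun x => c * f x) := (Bd.const c).mul hf

lemma bd_sq {f : G → ℝ} (hf : Bd f) : Bd (fun x => f x ^ 2) := by
  have := hf.mul hf
  simpa only [sq] using this

lemma bd_sum {ι : Type} (s : Finset ι) {f : ι → G → ℝ} (hf : ∀ i ∈ s, Bd (f i)) :
    Bd (fun x => ∑ i ∈ s, f i x) := by
  classical
  induction s using Finset.induction_on with
  | empty => exact ⟨0, fun x => by simp⟩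
  | insert i s hi ih =>
    simp only [Finset.sum_insert hi]
    exact (hf i (Finset.mem_insert_self i s)).add
      (ih fun j hj => hf j (Finset.mem_insert_of_mem hj))

lemma bd_re {f : G → ℂ} (hf : ∃ C, ∀ x, ‖f x‖ ≤ C) : Bd (fun x => (f x).re) := by
  obtain ⟨C, hC⟩ := hf
  exact ⟨C, fun x => (Complex.abs_re_le_norm _).trans (hC x)⟩

lemma bd_im {f : G → ℂ} (hf : ∃ C, ∀ x, ‖f x‖ ≤ C) : Bd (fun x => (f x).im) := by
  obtain ⟨C, hC⟩ := hf
  exact ⟨C, fun x => (Complex.abs_im_le_norm _).trans (hC x)⟩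

lemma bd_norm {f : G → ℂ} (hf : ∃ C, ∀ x, ‖f x‖ ≤ C) : Bd (fun x => ‖f x‖) := by
  obtain ⟨C, hC⟩ := hf
  exact ⟨C, fun x => by rw [abs_norm]; exact hC x⟩

lemma bdc_mul {f : G → ℂ} (c : ℂ) (hf : ∃ C, ∀ x, ‖f x‖ ≤ C) : ∃ C, ∀ x, ‖c * f x‖ ≤ C := by
  obtain ⟨C, hC⟩ := hf
  exact ⟨‖c‖ * C, fun x => by
    rw [norm_mul]
    exact mul_le_mul_of_nonneg_left (hC x) (norm_nonneg _)⟩

lemma bdc_sum {ι : Type} (s : Finset ι) {f : ι → G → ℂ} (hf : ∀ i ∈ s, ∃ C, ∀ x, ‖f i x‖ ≤ C) :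
    ∃ C, ∀ x, ‖∑ i ∈ s, f i x‖ ≤ C := by
  classical
  induction s using Finset.induction_on with
  | empty => exact ⟨0, fun x => by simp⟩
  | insert i s hi ih =>
    obtain ⟨C, hC⟩ := hf i (Finset.mem_insert_self i s)
    obtain ⟨D, hD⟩ := ih fun j hj => hf j (Finset.mem_insert_of_mem hj)
    refine ⟨C + D, fun x => ?_⟩
    rw [Finset.sum_insert hi]
    exact (norm_add_le _ _).trans (add_le_add (hC x) (hD x))

end MeanBasicAux

open MeanBasicAux

theorem IMean.abs_val_le (M : IMean G) (f : G → ℝ) (hf : Bd f) :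
    |M.val f| ≤ M.val (fun x => |f x|) := by
  have hb := bd_abs hf
  refine abs_le.2 ⟨?_, M.mono _ _ hf hb fun x => le_abs_self _⟩
  have h1 := M.smul (-1) (fun x => |f x|) hb
  have h2 := M.mono (fun x => -1 * |f x|) f (bd_smul _ hb) hf fun x => by
    linarith [neg_abs_le (f x)]
  rw [h1] at h2
  linarith

theorem IMean.val_sum (M : IMean G) {ι : Type} (s : Finset ι) (f : ι → G → ℝ)
    (hf : ∀ i ∈ s, Bd (f i)) : M.val (fun x => ∑ i ∈ s, f i x) = ∑ i ∈ s, M.val (f i) := by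
  classical
  induction s using Finset.induction_on with
  | empty =>
    simp only [Finset.sum_empty]
    exact M.val_const 0
  | insert i s hi ih =>
    have hs : ∀ j ∈ s, Bd (f j) := fun j hj => hf j (Finset.mem_insert_of_mem hj)
    simp only [Finset.sum_insert hi]
    rw [M.add (f i) (fun x => ∑ j ∈ s, f j x) (hf i (Finset.mem_insert_self i s)) (bd_sum s hs),
      ih hs]

/-- Cauchy–Schwarz -/
theorem IMean.sq_le (M : IMean G) (f g : G → ℝ) (hf : Bd f) (hg : Bd g) :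
    (M.val (fun x => f x * g x)) ^ 2 ≤ M.val (fun x => f x ^ 2) * M.val (fun x => g x ^ 2) := by
  have key : ∀ t : ℝ, 0 ≤ M.val (fun x => g x ^ 2) * (t * t) +
      (-2 * M.val (fun x => f x * g x)) * t + M.val (fun x => f x ^ 2) := by
    intro t
    have hfg := hf.mul hg
    have e : (fun x => (f x - t * g x) ^ 2) = fun x => ((t ^ 2) * g x ^ 2 +
        (-2 * t) * (f x * g x)) + f x ^ 2 := by
      funext x
      ring
    have h0 : 0 ≤ M.val (fun x => (f x - t * g x) ^ 2) := by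
      refine M.le_val _ 0 ?_ fun x => sq_nonneg _
      rw [e]
      exact ((bd_smul _ (bd_sq hg)).add (bd_smul _ hfg)).add (bd_sq hf)
    rw [e, M.add _ _ ((bd_smul _ (bd_sq hg)).add (bd_smul _ hfg)) (bd_sq hf),
      M.add _ _ (bd_smul _ (bd_sq hg)) (bd_smul _ hfg), M.smul _ _ (bd_sq hg),
      M.smul _ _ hfg] at h0
    linarith
  have hd := discrim_le_zero key
  unfold discrim at hd
  nlinarith

/-- In an infinite group finite sets have mean `0` (disjoint translates). -/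
theorem IMean.val_finite [Infinite G] (M : IMean G) (s : Set G) (hs : s.Finite) (f : G → ℝ)
    (hf : Bd f) (h : ∀ x, x ∉ s → f x = 0) : M.val f = 0 := by
  classical
  have hbi : ∀ a : G, Bd (fun x => if x = a then (1 : ℝ) else 0) := fun a =>
    ⟨1, fun x => by
      show |(if x = a then (1 : ℝ) else 0)| ≤ 1
      split_ifs <;> simp⟩
  have hinv : ∀ a : G, M.val (fun x => if x = a then (1 : ℝ) else 0) =
      M.val (fun x => if x = 1 then (1 : ℝ) else 0) := by
    intro a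
    rw [← M.inv a (fun x => if x = a then (1 : ℝ) else 0) (hbi a)]
    congr 1
    funext x
    simp
  set e : ℝ := M.val (fun x => if x = 1 then (1 : ℝ) else 0) with he
  have he0 : 0 ≤ e := M.le_val _ 0 (hbi 1) fun x => by
    show (0 : ℝ) ≤ (if x = 1 then (1 : ℝ) else 0)
    split_ifs <;> norm_num
  have hne : ∀ n : ℕ, (n : ℝ) * e ≤ 1 := by
    intro n
    obtain ⟨t, ht⟩ := Infinite.exists_subset_card_eq G n
    have h1 := M.val_sum t (fun a x => if x = a then (1 : ℝ) else 0) fun a _ => hbi a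
    rw [Finset.sum_congr rfl fun a _ => hinv a, Finset.sum_const, ht, nsmul_eq_mul] at h1
    rw [← h1]
    refine M.val_le _ 1 (bd_sum t fun a _ => hbi a) fun x => ?_
    rw [Finset.sum_ite_eq]
    split_ifs <;> norm_num
  have he1 : e = 0 := by
    by_contra hne0
    have hpos : 0 < e := lt_of_le_of_ne he0 (Ne.symm hne0)
    obtain ⟨n, hn⟩ := exists_nat_gt (1 / e)
    have := hne n
    rw [div_lt_iff₀ hpos] at hn
    linarith
  obtain ⟨C, hC⟩ := hf
  set t : Finset G := hs.toFinset with ht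
  have h2 : ∀ x, |f x| ≤ ∑ a ∈ t, C * (if x = a then (1 : ℝ) else 0) := by
    intro x
    rw [← Finset.mul_sum, Finset.sum_ite_eq]
    split_ifs with hx
    · rw [mul_one]
      exact hC x
    · have hxs : x ∉ s := fun hxs => hx (hs.mem_toFinset.2 hxs)
      rw [h x hxs]
      simp
  have h3 : M.val (fun x => |f x|) ≤ 0 := by
    refine (M.mono _ _ (bd_abs ⟨C, hC⟩) (bd_sum t fun a _ => bd_smul C (hbi a)) h2).trans ?_
    rw [M.val_sum t _ fun a _ => bd_smul C (hbi a)]
    refine Finset.sum_nonpos fun a _ => ?_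
    rw [M.smul _ _ (hbi a), hinv a, he1, mul_zero]
  have h4 := (M.abs_val_le f ⟨C, hC⟩).trans h3
  exact abs_nonpos_iff.1 h4

/-- inversion: `f ↦ M (f ∘ inv)` is an invariant mean: use `comp` with `invMonoidHom`. -/
theorem IMean.cval_add (M : IMean G) (f g : G → ℂ) (hf : ∃ C, ∀ x, ‖f x‖ ≤ C)
    (hg : ∃ C, ∀ x, ‖g x‖ ≤ C) : M.cval (fun x => f x + g x) = M.cval f + M.cval g := by
  apply Complex.ext
  · exact M.add _ _ (bd_re hf) (bd_re hg)
  · exact M.add _ _ (bd_im hf) (bd_im hg)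

theorem IMean.cval_sub (M : IMean G) (f g : G → ℂ) (hf : ∃ C, ∀ x, ‖f x‖ ≤ C)
    (hg : ∃ C, ∀ x, ‖g x‖ ≤ C) : M.cval (fun x => f x - g x) = M.cval f - M.cval g := by
  apply Complex.ext
  · exact M.val_sub _ _ (bd_re hf) (bd_re hg)
  · exact M.val_sub _ _ (bd_im hf) (bd_im hg)

theorem IMean.cval_mul (M : IMean G) (c : ℂ) (f : G → ℂ) (hf : ∃ C, ∀ x, ‖f x‖ ≤ C) :
    M.cval (fun x => c * f x) = c * M.cval f := by
  have hr := bd_re hf
  have hi := bd_im hf
  apply Complex.ext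
  · show M.val (fun x => (c * f x).re) = c.re * M.val (fun x => (f x).re) -
      c.im * M.val (fun x => (f x).im)
    rw [← M.smul _ _ hr, ← M.smul _ _ hi, ← M.val_sub _ _ (bd_smul _ hr) (bd_smul _ hi)]
    rfl
  · show M.val (fun x => (c * f x).im) = c.re * M.val (fun x => (f x).im) +
      c.im * M.val (fun x => (f x).re)
    rw [← M.smul _ _ hr, ← M.smul _ _ hi, ← M.add _ _ (bd_smul _ hi) (bd_smul _ hr)]
    rfl

theorem IMean.cval_conj (M : IMean G) (f : G → ℂ) (hf : ∃ C, ∀ x, ‖f x‖ ≤ C) :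
    M.cval (fun x => (starRingEnd ℂ) (f x)) = (starRingEnd ℂ) (M.cval f) := by
  have hi := bd_im hf
  apply Complex.ext
  · rfl
  · show M.val (fun x => ((starRingEnd ℂ) (f x)).im) = -M.val (fun x => (f x).im)
    have h1 := M.smul (-1) _ hi
    rw [neg_one_mul] at h1
    rw [← h1]
    congr 1
    funext x
    simp

theorem IMean.cval_const (M : IMean G) (c : ℂ) : M.cval (fun _ => c) = c := by
  apply Complex.ext
  · exact M.val_const _
  · exact M.val_const _

theorem IMean.cval_ofReal (M : IMean G) (f : G → ℝ) (hf : Bd f) :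
    M.cval (fun x => (f x : ℂ)) = (M.val f : ℂ) := by
  apply Complex.ext
  · rfl
  · show M.val (fun x => ((f x : ℂ)).im) = ((M.val f : ℝ) : ℂ).im
    simp only [Complex.ofReal_im]
    exact M.val_const 0

theorem IMean.cval_inv (M : IMean G) (h : G) (f : G → ℂ) (hf : ∃ C, ∀ x, ‖f x‖ ≤ C) :
    M.cval (fun x => f (h * x)) = M.cval f := by
  apply Complex.ext
  · exact M.inv h _ (bd_re hf)
  · exact M.inv h _ (bd_im hf)

theorem IMean.cval_sum (M : IMean G) {ι : Type} (s : Finset ι) (f : ι → G → ℂ)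
    (hf : ∀ i ∈ s, ∃ C, ∀ x, ‖f i x‖ ≤ C) :
    M.cval (fun x => ∑ i ∈ s, f i x) = ∑ i ∈ s, M.cval (f i) := by
  classical
  induction s using Finset.induction_on with
  | empty =>
    simp only [Finset.sum_empty]
    exact M.cval_const 0
  | insert i s hi ih =>
    have hs : ∀ j ∈ s, ∃ C, ∀ x, ‖f j x‖ ≤ C := fun j hj => hf j (Finset.mem_insert_of_mem hj)
    simp only [Finset.sum_insert hi]
    rw [M.cval_add (f i) (fun x => ∑ j ∈ s, f j x) (hf i (Finset.mem_insert_self i s))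
      (bdc_sum s hs), ih hs]

/-- `|M f| ≤ M |f|` for complex `f` (rotate so that `M f ≥ 0`). -/
theorem IMean.norm_cval_le (M : IMean G) (f : G → ℂ) (hf : ∃ C, ∀ x, ‖f x‖ ≤ C) :
    ‖M.cval f‖ ≤ M.val (fun x => ‖f x‖) := by
  by_cases h0 : M.cval f = 0
  · rw [h0, norm_zero]
    exact M.le_val _ 0 (bd_norm hf) fun x => norm_nonneg _
  have hn : (‖M.cval f‖ : ℝ) ≠ 0 := norm_ne_zero_iff.2 h0
  set c : ℂ := (starRingEnd ℂ) (M.cval f) / (‖M.cval f‖ : ℂ) with hc
  have hc1 : ‖c‖ = 1 := by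
    rw [hc, norm_div, RCLike.norm_conj, Complex.norm_real, norm_norm, div_self hn]
  have hcm : c * M.cval f = (‖M.cval f‖ : ℂ) := by
    have h2 : (starRingEnd ℂ) (M.cval f) * M.cval f = (‖M.cval f‖ : ℂ) ^ 2 :=
      Complex.conj_mul' _
    have hnc : (‖M.cval f‖ : ℂ) ≠ 0 := by exact_mod_cast hn
    rw [hc, div_mul_eq_mul_div, h2, sq, mul_div_assoc, div_self hnc, mul_one]
  have h1 : ‖M.cval f‖ = M.val (fun x => (c * f x).re) := by
    have h2 := M.cval_mul c f hf
    rw [hcm] at h2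
    have h3 := congrArg Complex.re h2
    rw [Complex.ofReal_re] at h3
    exact h3.symm
  rw [h1]
  refine M.mono _ _ (bd_re (bdc_mul c hf)) (bd_norm hf) fun x => ?_
  refine (Complex.re_le_norm _).trans ?_
  rw [norm_mul, hc1, one_mul]

end Pool.Agent.Lib.P3852C
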