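import Pool.Agent.Lib.P3852C.Defs
import Pool.Agent.Lib.P3852C.MeanBasic
import Pool.Agent.Lib.P3852C.GF

/-!
# Ergodicity and means (1.3, 6.4)

For an invariant mean `M`, `g ↦ M_γ ⟪T_γ f, g⟫` is a bounded functional, given by a vector `v`
(Riesz), which is invariant by invariance of `M`; if the invariant vectors are the constants then
`v` is a constant, and testing against `1` gives its value.
-/

set_option autoImplicit false

namespace Pool.Agent.Lib.P3852C

open MeasureTheory Filter Topology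

/-- every square integrable rotation invariant function is constant -/
def ErgQ (F : Subfield ℂ) {A : Type} [AddCommGroup A] [Module F A] (Q : Measure (X A)) : Prop :=
  ∀ f : X A → ℂ, MemLp f 2 Q → (∀ γ : Gam F, (fun θ => f (rotX γ θ)) =ᵐ[Q] f) →
    ∃ c : ℂ, f =ᵐ[Q] fun _ => c

namespace ErgMeanAux

/-- abstract form: a unitary action of a commutative group on a Hilbert space, an invariant mean -/
private theorem exists_inv {G : Type} [CommGroup G] (M : IMean G) {E : Type*}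
    [NormedAddCommGroup E] [InnerProductSpace ℂ E] [CompleteSpace E]
    (U : G → E → E) (hU : ∀ γ u v, inner ℂ (U γ u) (U γ v) = inner ℂ u v)
    (hmul : ∀ γ δ u, U γ (U δ u) = U (γ * δ) u) (h1 : ∀ u, U 1 u = u) (w : E) :
    ∃ v : E, (∀ u, inner ℂ v u = M.cval (fun γ => inner ℂ (U γ w) u)) ∧ ∀ δ, U δ v = v := by
  have hnorm : ∀ γ u, ‖U γ u‖ = ‖u‖ := by
    intro γ u
    have h := hU γ u u
    rw [inner_self_eq_norm_sq_to_K, inner_self_eq_norm_sq_to_K] at h
    have h2 : ‖U γ u‖ ^ 2 = ‖u‖ ^ 2 := by exact_mod_cast h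
    exact (sq_eq_sq₀ (norm_nonneg _) (norm_nonneg _)).mp h2
  have hb : ∀ u, ∀ γ, ‖(inner ℂ (U γ w) u : ℂ)‖ ≤ ‖w‖ * ‖u‖ := by
    intro u γ
    calc ‖(inner ℂ (U γ w) u : ℂ)‖ ≤ ‖U γ w‖ * ‖u‖ := norm_inner_le_norm _ _
      _ = ‖w‖ * ‖u‖ := by rw [hnorm]
  have hbd : ∀ u, ∃ C, ∀ γ, ‖(inner ℂ (U γ w) u : ℂ)‖ ≤ C := fun u => ⟨_, hb u⟩
  let L : E →ₗ[ℂ] ℂ :=
    { toFun := fun u => M.cval (fun γ => inner ℂ (U γ w) u)
      map_add' := by
        intro u v
        rw [← IMean.cval_add M _ _ (hbd u) (hbd v)]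
        simp only [inner_add_right]
      map_smul' := by
        intro c u
        rw [RingHom.id_apply, smul_eq_mul, ← IMean.cval_mul M c _ (hbd u)]
        simp only [inner_smul_right] }
  have hL : ∀ u, ‖L u‖ ≤ ‖w‖ * ‖u‖ := by
    intro u
    refine (IMean.norm_cval_le M _ (hbd u)).trans ?_
    refine IMean.val_le M _ _ ⟨‖w‖ * ‖u‖, fun γ => ?_⟩ (fun γ => hb u γ)
    rw [abs_of_nonneg (norm_nonneg _)]
    exact hb u γ
  let Lc : E →L[ℂ] ℂ := L.mkContinuous ‖w‖ hL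
  let v : E := (InnerProductSpace.toDual ℂ E).symm Lc
  have hv : ∀ u, inner ℂ v u = M.cval (fun γ => inner ℂ (U γ w) u) := fun u =>
    InnerProductSpace.toDual_symm_apply
  refine ⟨v, hv, fun δ => ?_⟩
  refine ext_inner_right ℂ fun u => ?_
  have h3 : U δ (U δ⁻¹ u) = u := by rw [hmul, mul_inv_cancel, h1]
  calc inner ℂ (U δ v) u = inner ℂ (U δ v) (U δ (U δ⁻¹ u)) := by rw [h3]
    _ = inner ℂ v (U δ⁻¹ u) := hU _ _ _
    _ = M.cval (fun γ => inner ℂ (U γ w) (U δ⁻¹ u)) := hv _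
    _ = M.cval (fun γ => inner ℂ (U (δ * γ) w) u) := by
        congr 1
        funext γ
        rw [← hU δ (U γ w) (U δ⁻¹ u), h3, hmul]
    _ = M.cval (fun γ => inner ℂ (U γ w) u) :=
        IMean.cval_inv M δ (fun γ => (inner ℂ (U γ w) u : ℂ)) (hbd u)
    _ = inner ℂ v u := (hv u).symm

private theorem rot_comp {F : Subfield ℂ} {A : Type} [AddCommGroup A]
    [Module F A] (γ δ : Gam F) (θ : X A) : rotX γ (rotX δ θ) = rotX (γ * δ) θ := by
  refine X.ext (funext fun x => ?_)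
  apply Subtype.ext
  change ev x (rotX γ (rotX δ θ)) = ev x (rotX (γ * δ) θ)
  rw [ev_rotX, ev_rotX, ev_rotX, smul_smul, ← toF_mul, mul_comm]

private theorem rot_one {F : Subfield ℂ} {A : Type} [AddCommGroup A]
    [Module F A] (θ : X A) : rotX (1 : Gam F) θ = θ := by
  refine X.ext (funext fun x => ?_)
  apply Subtype.ext
  change ev x (rotX (1 : Gam F) θ) = ev x θ
  rw [ev_rotX, toF_one, one_smul]

private theorem integral_pres {Y : Type*} [MeasurableSpace Y] {Q : Measure Y} {T : Y → Y}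
    (h : MeasurePreserving T Q Q) (H : Y → ℂ) (hH : AEStronglyMeasurable H Q) :
    ∫ θ, H (T θ) ∂Q = ∫ θ, H θ ∂Q := by
  have h2 := integral_map (μ := Q) h.measurable.aemeasurable (f := H) (by rw [h.map_eq]; exact hH)
  rw [h.map_eq] at h2
  exact h2.symm

end ErgMeanAux

open ErgMeanAux in
theorem erg_mean {F : Subfield ℂ} (hF : GoodField F) {A : Type} [AddCommGroup A]
    [Module F A] [Countable A] (Q : Measure (X A)) [IsProbabilityMeasure Q]
    (hQ : ∀ γ : Gam F, MeasurePreserving (rotX γ : X A → X A) Q Q) (hE : ErgQ F Q)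
    (M : IMean (Gam F)) (f g : X A → ℂ) (hf : MemLp f 2 Q) (hg : MemLp g 2 Q) :
    M.cval (fun γ => ∫ θ, f θ * (starRingEnd ℂ) (g (rotX γ θ)) ∂Q)
      = (∫ θ, f θ ∂Q) * (starRingEnd ℂ) (∫ θ, g θ ∂Q) := by
  let U : Gam F → Lp ℂ 2 Q → Lp ℂ 2 Q := fun γ => Lp.compMeasurePreserving (rotX γ) (hQ γ)
  have hUc : ∀ γ u, (U γ u : X A → ℂ) =ᵐ[Q] fun θ => u (rotX γ θ) := fun γ u =>
    Lp.coeFn_compMeasurePreserving u (hQ γ)
  have hU : ∀ γ u v, inner ℂ (U γ u) (U γ v) = inner ℂ u v := by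
    intro γ u v
    rw [L2.inner_def, L2.inner_def]
    have h1 : ∫ a, inner ℂ ((U γ u : X A → ℂ) a) ((U γ v : X A → ℂ) a) ∂Q
        = ∫ a, inner ℂ (u (rotX γ a)) (v (rotX γ a)) ∂Q := by
      refine integral_congr_ae ?_
      filter_upwards [hUc γ u, hUc γ v] with θ h1 h2
      rw [h1, h2]
    rw [h1]
    have hm : AEStronglyMeasurable (fun a => (inner ℂ ((u : X A → ℂ) a) ((v : X A → ℂ) a) : ℂ)) Q :=
      (L2.integrable_inner u v).aestronglyMeasurable
    exact integral_pres (hQ γ) (fun a => (inner ℂ ((u : X A → ℂ) a) ((v : X A → ℂ) a) : ℂ)) hm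
  have hmul : ∀ γ δ u, U γ (U δ u) = U (γ * δ) u := by
    intro γ δ u
    apply Lp.ext
    have h1 := (hQ γ).quasiMeasurePreserving.ae_eq_comp (hUc δ u)
    filter_upwards [hUc γ (U δ u), hUc (γ * δ) u, h1] with θ h1 h2 h3
    rw [h1, h2]
    have h4 : (U δ u : X A → ℂ) (rotX γ θ) = u (rotX δ (rotX γ θ)) := h3
    rw [h4, rot_comp, mul_comm]
  have h1 : ∀ u, U 1 u = u := by
    intro u
    apply Lp.ext
    filter_upwards [hUc 1 u] with θ h1
    rw [h1, rot_one]
  obtain ⟨v, hv, hinv⟩ := exists_inv M U hU hmul h1 (hg.toLp g)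
  obtain ⟨c, hc⟩ := hE v (Lp.memLp v) (fun γ => by
    have h2 := hUc γ v
    rw [hinv γ] at h2
    exact h2.symm)
  have key : ∀ (f : X A → ℂ), MemLp f 2 Q →
      M.cval (fun γ => ∫ θ, f θ * (starRingEnd ℂ) (g (rotX γ θ)) ∂Q)
        = (∫ θ, f θ ∂Q) * (starRingEnd ℂ) c := by
    intro f hf
    have h2 := hv (hf.toLp f)
    have h3 : (inner ℂ v (hf.toLp f) : ℂ) = (∫ θ, f θ ∂Q) * (starRingEnd ℂ) c := by
      rw [L2.inner_def, ← integral_mul_const]
      refine integral_congr_ae ?_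
      filter_upwards [hc, hf.coeFn_toLp] with θ h4 h5
      rw [h4, h5]
      rfl
    rw [← h3, h2]
    congr 1
    funext γ
    rw [L2.inner_def]
    refine integral_congr_ae ?_
    have h6 := (hQ γ).quasiMeasurePreserving.ae_eq_comp hg.coeFn_toLp
    filter_upwards [hUc γ (hg.toLp g), hf.coeFn_toLp, h6] with θ h7 h8 h9
    have h10 : (hg.toLp g : X A → ℂ) (rotX γ θ) = g (rotX γ θ) := h9
    rw [h7, h8, h10]
    rfl
  have hone : MemLp (fun _ : X A => (1 : ℂ)) 2 Q := memLp_const 1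
  have h11 := key _ hone
  have h12 : ∀ γ : Gam F, ∫ θ, (1 : ℂ) * (starRingEnd ℂ) (g (rotX γ θ)) ∂Q
      = (starRingEnd ℂ) (∫ θ, g θ ∂Q) := by
    intro γ
    simp only [one_mul]
    rw [integral_conj, integral_pres (hQ γ) g hg.aestronglyMeasurable]
  simp only [h12] at h11
  rw [IMean.cval_const] at h11
  rw [key f hf, h11]
  simp

end Pool.Agent.Lib.P3852C
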