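import Pool.Agent.Lib.P3852C.Defs

/-!
# Trigonometric polynomials are dense (1.5)

Stone–Weierstrass in `C(X A, ℂ)` (the span of the `ev x` is a star subalgebra separating points);
two probability measures with the same integrals of the `ev x` have the same integrals of
continuous functions, hence are equal. Continuous functions are dense in `L²`.
-/

set_option autoImplicit false

namespace Pool.Agent.Lib.P3852C

open MeasureTheory

variable {A : Type} [AddCommGroup A] [Countable A]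

section Aux

variable (A)

/-- the evaluation as a bundled continuous map -/
private noncomputable def evC (x : A) : C(X A, ℂ) := ⟨ev x, continuous_ev x⟩

/-- the star subalgebra generated by the evaluations -/
private noncomputable def trigAlg : StarSubalgebra ℂ C(X A, ℂ) where
  toSubalgebra := Algebra.adjoin ℂ (Set.range (evC A))
  star_mem' := by
    change Algebra.adjoin ℂ (Set.range (evC A)) ≤ star (Algebra.adjoin ℂ (Set.range (evC A)))
    refine Algebra.adjoin_le ?_
    rintro - ⟨n, rfl⟩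
    exact Algebra.subset_adjoin ⟨-n, ContinuousMap.ext fun θ => ev_neg n θ⟩

omit [Countable A] in
private theorem trigAlg_coe :
    Subalgebra.toSubmodule (trigAlg A).toSubalgebra
      = Submodule.span ℂ (Set.range (evC A)) := by
  apply Algebra.adjoin_eq_span_of_subset
  refine Set.Subset.trans ?_ Submodule.subset_span
  intro x hx
  refine Submonoid.closure_induction (fun _ => id) ⟨0, ?_⟩ ?_ hx
  · ext1 z; exact ev_zero z
  · rintro - - - - ⟨m, rfl⟩ ⟨n, rfl⟩
    refine ⟨m + n, ?_⟩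
    ext1 z
    exact ev_add m n z

omit [Countable A] in
private theorem trigAlg_sep : (trigAlg A).SeparatesPoints := by
  intro θ η h
  by_contra hcon
  apply h
  apply X.ext
  funext x
  by_contra hx
  apply hcon
  refine ⟨_, ⟨evC A x, Algebra.subset_adjoin ⟨x, rfl⟩, rfl⟩, ?_⟩
  intro h2
  exact hx (Circle.coe_injective h2)

omit [Countable A] in
private theorem trigAlg_top : (trigAlg A).topologicalClosure = ⊤ :=
  ContinuousMap.starSubalgebra_topologicalClosure_eq_top_of_separatesPoints _ (trigAlg_sep A)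

end Aux

/-- uniform approximation of continuous functions -/
theorem trig_uniform (f : X A → ℂ) (hf : Continuous f) {ε : ℝ} (hε : 0 < ε) :
    ∃ (s : Finset A) (a : A → ℂ), ∀ θ, ‖f θ - ∑ x ∈ s, a x * ev x θ‖ ≤ ε := by
  have h1 : (⟨f, hf⟩ : C(X A, ℂ)) ∈ (trigAlg A).topologicalClosure := by
    rw [trigAlg_top]; trivial
  have h2 : (⟨f, hf⟩ : C(X A, ℂ)) ∈ closure ((trigAlg A : Set C(X A, ℂ))) := h1
  rw [Metric.mem_closure_iff] at h2
  obtain ⟨g, hg, hd⟩ := h2 ε hε
  have hg' : g ∈ Submodule.span ℂ (Set.range (evC A)) := by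
    rw [← trigAlg_coe]; exact hg
  rw [Finsupp.mem_span_range_iff_exists_finsupp] at hg'
  obtain ⟨c, hc⟩ := hg'
  refine ⟨c.support, c, fun θ => ?_⟩
  have h3 : g θ = ∑ x ∈ c.support, c x * ev x θ := by
    rw [← hc, Finsupp.sum]
    simp only [ContinuousMap.coe_sum, Finset.sum_apply, ContinuousMap.coe_smul, Pi.smul_apply,
      smul_eq_mul]
    rfl
  rw [← h3]
  have h4 : dist ((⟨f, hf⟩ : C(X A, ℂ)) θ) (g θ) ≤ dist (⟨f, hf⟩ : C(X A, ℂ)) g :=
    ContinuousMap.dist_apply_le_dist θ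
  rw [dist_eq_norm] at h4
  exact h4.trans hd.le

omit [Countable A] in
private theorem integrable_of_cont (P : Measure (X A)) [IsProbabilityMeasure P] (f : X A → ℂ)
    (hf : Continuous f) : Integrable f P := by
  obtain ⟨C, hC⟩ := isCompact_univ.exists_bound_of_continuousOn (f := f) hf.continuousOn
  exact Integrable.of_bound hf.aestronglyMeasurable C
    (Filter.Eventually.of_forall fun θ => hC θ (Set.mem_univ _))

omit [Countable A] in
private theorem integral_trig (P : Measure (X A)) [IsProbabilityMeasure P] (s : Finset A)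
    (a : A → ℂ) : ∫ θ, ∑ x ∈ s, a x * ev x θ ∂P = ∑ x ∈ s, a x * ∫ θ, ev x θ ∂P := by
  rw [integral_finsetSum]
  · refine Finset.sum_congr rfl fun x _ => ?_
    rw [integral_const_mul]
  · intro x _
    exact (integrable_of_cont P _ (continuous_ev x)).const_mul _

theorem rep_unique (P P' : Measure (X A)) [IsProbabilityMeasure P] [IsProbabilityMeasure P']
    (h : ∀ x : A, ∫ θ, ev x θ ∂P = ∫ θ, ev x θ ∂P') : P = P' := by
  apply ext_of_forall_integral_eq_of_IsFiniteMeasure
  intro f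
  have hc : Continuous (fun θ => ((f θ : ℝ) : ℂ)) := Complex.continuous_ofReal.comp f.continuous
  have key : ∫ θ, ((f θ : ℝ) : ℂ) ∂P = ∫ θ, ((f θ : ℝ) : ℂ) ∂P' := by
    rw [← sub_eq_zero, ← norm_le_zero_iff]
    apply le_of_forall_pos_le_add
    intro ε hε
    obtain ⟨s, a, hs⟩ := trig_uniform (fun θ => ((f θ : ℝ) : ℂ)) hc (half_pos hε)
    have hp : Continuous (fun θ : X A => ∑ x ∈ s, a x * ev x θ) :=
      continuous_finsetSum _ fun x _ => continuous_const.mul (continuous_ev x)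
    have e1 : ∀ (ν : Measure (X A)) [IsProbabilityMeasure ν],
        ‖∫ θ, ((f θ : ℝ) : ℂ) ∂ν - ∫ θ, ∑ x ∈ s, a x * ev x θ ∂ν‖ ≤ ε / 2 := by
      intro ν hR
      rw [← integral_sub (integrable_of_cont ν _ hc) (integrable_of_cont ν _ hp)]
      have := norm_integral_le_of_norm_le_const (μ := ν)
        (f := fun θ => ((f θ : ℝ) : ℂ) - ∑ x ∈ s, a x * ev x θ) (C := ε / 2)
        (Filter.Eventually.of_forall hs)
      simpa using this
    have e2 : ∫ θ, ∑ x ∈ s, a x * ev x θ ∂P = ∫ θ, ∑ x ∈ s, a x * ev x θ ∂P' := by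
      rw [integral_trig, integral_trig]
      simp_rw [h]
    have h1 := e1 P
    have h2 := e1 P'
    rw [← e2, norm_sub_rev] at h2
    calc ‖∫ θ, ((f θ : ℝ) : ℂ) ∂P - ∫ θ, ((f θ : ℝ) : ℂ) ∂P'‖
        = ‖(∫ θ, ((f θ : ℝ) : ℂ) ∂P - ∫ θ, ∑ x ∈ s, a x * ev x θ ∂P)
          + (∫ θ, ∑ x ∈ s, a x * ev x θ ∂P - ∫ θ, ((f θ : ℝ) : ℂ) ∂P')‖ := by congr 1; ring
      _ ≤ ε / 2 + ε / 2 := (norm_add_le _ _).trans (add_le_add h1 h2)
      _ = 0 + ε := by ring
  have k1 := integral_ofReal (𝕜 := ℂ) (μ := P) (f := fun θ => f θ)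
  have k2 := integral_ofReal (𝕜 := ℂ) (μ := P') (f := fun θ => f θ)
  have k3 : ((∫ θ, f θ ∂P : ℝ) : ℂ) = ((∫ θ, f θ ∂P' : ℝ) : ℂ) := by
    exact k1.symm.trans (key.trans k2)
  exact_mod_cast k3

theorem trig_dense (P : Measure (X A)) [IsProbabilityMeasure P] (f : X A → ℂ)
    (hf : MemLp f 2 P) {ε : ℝ} (hε : 0 < ε) :
    ∃ (s : Finset A) (a : A → ℂ), eLpNorm (fun θ => f θ - ∑ x ∈ s, a x * ev x θ) 2 P
      ≤ ENNReal.ofReal ε := by
  have h2 : (ENNReal.ofReal (ε / 2)) ≠ 0 := by
    simpa using hε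
  obtain ⟨g, hg, hgm⟩ := hf.exists_boundedContinuous_eLpNorm_sub_le (by norm_num) h2
  obtain ⟨s, a, hs⟩ := trig_uniform (fun θ => g θ) g.continuous (half_pos hε)
  refine ⟨s, a, ?_⟩
  have hp : Continuous (fun θ : X A => ∑ x ∈ s, a x * ev x θ) :=
    continuous_finsetSum _ fun x _ => continuous_const.mul (continuous_ev x)
  have h3 : eLpNorm (fun θ => g θ - ∑ x ∈ s, a x * ev x θ) 2 P ≤ ENNReal.ofReal (ε / 2) := by
    refine (eLpNorm_le_of_ae_bound (C := ε / 2) (Filter.Eventually.of_forall hs)).trans ?_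
    simp
  have h4 : (fun θ => f θ - ∑ x ∈ s, a x * ev x θ)
      = (f - (g : X A → ℂ)) + (fun θ => g θ - ∑ x ∈ s, a x * ev x θ) := by
    funext θ
    simp
  rw [h4]
  refine (eLpNorm_add_le (hf.1.sub hgm.1) ?_ (by norm_num)).trans ?_
  · exact (g.continuous.sub hp).aestronglyMeasurable
  · refine (add_le_add hg h3).trans ?_
    rw [← ENNReal.ofReal_add (by positivity) (by positivity)]
    apply le_of_eq; congr 1; ring

/-- A square integrable function orthogonal to all characters vanishes. -/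
theorem ae_zero_of_orth (P : Measure (X A)) [IsProbabilityMeasure P] (f : X A → ℂ)
    (hf : MemLp f 2 P) (h : ∀ x : A, ∫ θ, ev x θ * f θ ∂P = 0) : f =ᵐ[P] 0 := by
  have hfc : MemLp (fun θ => (starRingEnd ℂ) (f θ)) 2 P := by
    have := hf.star
    exact this
  have hN : ∀ ε : ℝ, 0 < ε →
      ‖∫ θ, (starRingEnd ℂ) (f θ) * f θ ∂P‖ₑ ≤ ENNReal.ofReal ε * eLpNorm f 2 P := by
    intro ε hε
    obtain ⟨s, a, hs⟩ := trig_dense P _ hfc hε
    have hp : Continuous (fun θ : X A => ∑ x ∈ s, a x * ev x θ) :=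
      continuous_finsetSum _ fun x _ => continuous_const.mul (continuous_ev x)
    have hpm : MemLp (fun θ : X A => ∑ x ∈ s, a x * ev x θ) 2 P := by
      obtain ⟨C, hC⟩ := isCompact_univ.exists_bound_of_continuousOn
        (f := fun θ : X A => ∑ x ∈ s, a x * ev x θ) hp.continuousOn
      exact MemLp.of_bound hp.aestronglyMeasurable C
        (Filter.Eventually.of_forall fun θ => hC θ (Set.mem_univ _))
    have hi1 : Integrable (fun θ => (starRingEnd ℂ) (f θ) * f θ) P := hfc.integrable_mul hf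
    have hi2 : Integrable (fun θ => (∑ x ∈ s, a x * ev x θ) * f θ) P := hpm.integrable_mul hf
    have hz : ∫ θ, (∑ x ∈ s, a x * ev x θ) * f θ ∂P = 0 := by
      have : ∀ θ, (∑ x ∈ s, a x * ev x θ) * f θ = ∑ x ∈ s, a x * (ev x θ * f θ) := by
        intro θ
        rw [Finset.sum_mul]
        exact Finset.sum_congr rfl fun x _ => by ring
      simp_rw [this]
      rw [integral_finsetSum]
      · refine Finset.sum_eq_zero fun x _ => ?_
        rw [integral_const_mul, h x, mul_zero]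
      · intro x _
        have hev : MemLp (ev x : X A → ℂ) 2 P :=
          MemLp.of_bound (continuous_ev x).aestronglyMeasurable 1
            (Filter.Eventually.of_forall fun θ => (norm_ev x θ).le)
        exact (hev.integrable_mul hf).const_mul _
    have he : ∫ θ, (starRingEnd ℂ) (f θ) * f θ ∂P
        = ∫ θ, ((starRingEnd ℂ) (f θ) - ∑ x ∈ s, a x * ev x θ) * f θ ∂P := by
      have h5 : ∀ θ, ((starRingEnd ℂ) (f θ) - ∑ x ∈ s, a x * ev x θ) * f θ
          = (starRingEnd ℂ) (f θ) * f θ - (∑ x ∈ s, a x * ev x θ) * f θ := fun θ => by ring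
      simp_rw [h5]
      rw [integral_sub hi1 hi2, hz, sub_zero]
    rw [he]
    refine (enorm_integral_le_lintegral_enorm _).trans ?_
    rw [← eLpNorm_one_eq_lintegral_enorm]
    have h6 : (fun θ => ((starRingEnd ℂ) (f θ) - ∑ x ∈ s, a x * ev x θ) * f θ)
        = (fun θ => (starRingEnd ℂ) (f θ) - ∑ x ∈ s, a x * ev x θ) • f := by
      funext θ; simp
    rw [h6]
    refine (eLpNorm_smul_le_mul_eLpNorm (p := 2) (q := 2) hf.1 (hfc.1.sub hpm.1)).trans ?_
    exact mul_le_mul' hs le_rfl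
  have hfin : eLpNorm f 2 P ≠ ⊤ := hf.2.ne
  have hzero : ∫ θ, (starRingEnd ℂ) (f θ) * f θ ∂P = 0 := by
    have h7 : ‖∫ θ, (starRingEnd ℂ) (f θ) * f θ ∂P‖ ≤ 0 := by
      apply le_of_forall_pos_le_add
      intro δ hδ
      set N := (eLpNorm f 2 P).toReal with hNd
      have hN0 : 0 ≤ N := ENNReal.toReal_nonneg
      have h8 := hN (δ / (N + 1)) (by positivity)
      have h9 := ENNReal.toReal_mono (ENNReal.mul_ne_top ENNReal.ofReal_ne_top hfin) h8
      rw [ENNReal.toReal_mul, ENNReal.toReal_ofReal (by positivity), toReal_enorm] at h9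
      refine h9.trans ?_
      rw [zero_add, ← hNd, div_mul_eq_mul_div, div_le_iff₀ (by positivity)]
      nlinarith
    exact norm_le_zero_iff.mp h7
  have h10 : ∀ θ, (starRingEnd ℂ) (f θ) * f θ = ((‖f θ‖ ^ 2 : ℝ) : ℂ) := by
    intro θ
    rw [mul_comm, Complex.mul_conj, Complex.normSq_eq_norm_sq]
  simp_rw [h10] at hzero
  have k1 := integral_ofReal (𝕜 := ℂ) (μ := P) (f := fun θ => ‖f θ‖ ^ 2)
  have h11 : ∫ θ, ‖f θ‖ ^ 2 ∂P = 0 := by
    have k2 : ((∫ θ, ‖f θ‖ ^ 2 ∂P : ℝ) : ℂ) = 0 := k1.symm.trans hzero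
    exact_mod_cast k2
  rw [integral_eq_zero_iff_of_nonneg (fun θ => by positivity) hf.integrable_norm_pow'] at h11
  filter_upwards [h11] with θ hθ
  have : ‖f θ‖ ^ 2 = 0 := hθ
  simpa using this

end Pool.Agent.Lib.P3852C
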