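import Pool.Agent.Lib.P3852C.Defs
import Pool.Agent.Lib.P3852C.Trig
import Pool.Agent.Lib.P3852C.GF

/-!
# The mean ergodic theorem (1.3)

`exists_invProj`: von Neumann: for a Følner sequence the averages of the unitary operators
`f ↦ f ∘ rotX γ` on `L²(Q)` converge strongly to the projection on the invariant vectors
(invariant vectors are fixed; `f ∘ rotX γ - f` is averaged to `0`; density). The limit of the
averages of `ev y` is bounded by `1` a.e. (modify it on a null set).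
-/

set_option autoImplicit false

namespace Pool.Agent.Lib.P3852C

open MeasureTheory Filter Topology

namespace VonNAux

/-- average with complex scalars -/
noncomputable def cavg {G E : Type} [AddCommGroup E] [Module ℂ E] (μ : FW G) (f : G → E) : E :=
  ∑ x ∈ μ.s, (μ.w x : ℂ) • f x

theorem avg_eq {G : Type} (μ : FW G) (f : G → ℂ) : μ.avg f = ∑ x ∈ μ.s, (μ.w x : ℂ) * f x := by
  unfold FW.avg
  refine Finset.sum_congr rfl fun x _ => ?_
  rw [Complex.real_smul]

section Hilbert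

variable {G : Type} [CommGroup G] {E : Type} [NormedAddCommGroup E] [InnerProductSpace ℂ E]

theorem cavg_norm_le (μ : FW G) (f : G → E) (C : ℝ) (hf : ∀ x, ‖f x‖ ≤ C) : ‖cavg μ f‖ ≤ C := by
  unfold cavg
  calc ‖∑ x ∈ μ.s, (μ.w x : ℂ) • f x‖ ≤ ∑ x ∈ μ.s, ‖(μ.w x : ℂ) • f x‖ := norm_sum_le _ _
    _ ≤ ∑ x ∈ μ.s, μ.w x * C := by
        refine Finset.sum_le_sum fun x _ => ?_
        rw [norm_smul, Complex.norm_real, Real.norm_of_nonneg (μ.nonneg x)]
        exact mul_le_mul_of_nonneg_left (hf x) (μ.nonneg x)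
    _ = C := by rw [← Finset.sum_mul, μ.sum_one, one_mul]

theorem cavg_sub (μ : FW G) (f g : G → E) : cavg μ (fun x => f x - g x) = cavg μ f - cavg μ g := by
  unfold cavg
  rw [← Finset.sum_sub_distrib]
  exact Finset.sum_congr rfl fun x _ => smul_sub _ _ _

theorem cavg_add (μ : FW G) (f g : G → E) : cavg μ (fun x => f x + g x) = cavg μ f + cavg μ g := by
  unfold cavg
  rw [← Finset.sum_add_distrib]
  exact Finset.sum_congr rfl fun x _ => smul_add _ _ _

theorem cavg_smul (μ : FW G) (c : ℂ) (f : G → E) : cavg μ (fun x => c • f x) = c • cavg μ f := by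
  unfold cavg
  rw [Finset.smul_sum]
  exact Finset.sum_congr rfl fun x _ => smul_comm _ _ _

theorem cavg_const (μ : FW G) (v : E) : cavg μ (fun _ => v) = v := by
  unfold cavg
  rw [← Finset.sum_smul, ← Complex.ofReal_sum, μ.sum_one, Complex.ofReal_one, one_smul]

/-- the Folner property for vector valued functions -/
theorem fol_vec (φ : Fol G) (h : G) (F : G → E) (C : ℝ) (hC : 0 < C) (hF : ∀ x, ‖F x‖ ≤ C) :
    Tendsto (fun n => cavg (φ.μ n) (fun x => F (h * x)) - cavg (φ.μ n) F) atTop (𝓝 0) := by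
  rw [Metric.tendsto_atTop']
  intro ε hε
  obtain ⟨n0, hn0⟩ := eventually_atTop.1 (φ.inv h (ε / (2 * C)) (by positivity))
  refine ⟨n0, fun n hn => ?_⟩
  have hn1 := hn0 n hn.le
  rw [dist_zero_right]
  set D := cavg (φ.μ n) (fun x => F (h * x)) - cavg (φ.μ n) F with hD
  by_cases hD0 : ‖D‖ = 0
  · rw [hD0]; exact hε
  have hDp : 0 < ‖D‖ := lt_of_le_of_ne (norm_nonneg _) (Ne.symm hD0)
  have h1 := hn1 (fun x => ((‖D‖ * C)⁻¹ : ℝ) * inner ℂ D (F x)) (by
    intro x
    rw [norm_mul, Complex.norm_real, Real.norm_of_nonneg (by positivity)]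
    have h2 : ‖inner ℂ D (F x)‖ ≤ ‖D‖ * C :=
      (norm_inner_le_norm D (F x)).trans (mul_le_mul_of_nonneg_left (hF x) (norm_nonneg _))
    rw [inv_mul_le_iff₀ (by positivity)]
    linarith)
  have h3 : (φ.μ n).avg (fun x => (((‖D‖ * C)⁻¹ : ℝ) : ℂ) * inner ℂ D (F (h * x))) -
      (φ.μ n).avg (fun x => (((‖D‖ * C)⁻¹ : ℝ) : ℂ) * inner ℂ D (F x)) =
      (((‖D‖ * C)⁻¹ : ℝ) : ℂ) * inner ℂ D D := by
    rw [avg_eq, avg_eq]
    conv_rhs => rw [hD]
    rw [inner_sub_right, ← hD]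
    unfold cavg
    rw [inner_sum, inner_sum, mul_sub, Finset.mul_sum, Finset.mul_sum]
    congr 1
    · refine Finset.sum_congr rfl fun x _ => ?_
      rw [inner_smul_right]; ring
    · refine Finset.sum_congr rfl fun x _ => ?_
      rw [inner_smul_right]; ring
  rw [h3, norm_mul, Complex.norm_real, Real.norm_of_nonneg (by positivity), inner_self_eq_norm_sq_to_K,
    norm_pow] at h1
  have h4 : ‖((‖D‖ : ℝ) : ℂ)‖ = ‖D‖ := by
    rw [Complex.norm_real, norm_norm]
  have h4' : ‖(RCLike.ofReal ‖D‖ : ℂ)‖ = ‖D‖ := h4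
  rw [h4'] at h1
  have h5 : (‖D‖ * C)⁻¹ * ‖D‖ ^ 2 = ‖D‖ / C := by
    field_simp
  rw [h5, div_le_div_iff₀ hC (by positivity)] at h1
  nlinarith

/-- the mean ergodic theorem -/
theorem mean_ergodic [CompleteSpace E] (φ : Fol G) (U : G → E →ₗᵢ[ℂ] E)
    (hU : ∀ g h f, U g (U h f) = U (h * g) f) (f : E) :
    ∃ k : E, (∀ g, U g k = k) ∧ Tendsto (fun n => cavg (φ.μ n) (fun g => U g f)) atTop (𝓝 k) := by
  let W : Submodule ℂ E :=
    { carrier := {f | Tendsto (fun n => cavg (φ.μ n) (fun g => U g f)) atTop (𝓝 0)}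
      add_mem' := by
        intro a b ha hb
        show Tendsto (fun n => cavg (φ.μ n) (fun g => U g (a + b))) atTop (𝓝 0)
        have := Tendsto.add (show Tendsto _ _ _ from ha) (show Tendsto _ _ _ from hb)
        rw [add_zero] at this
        refine this.congr fun n => ?_
        rw [← cavg_add]
        simp only [map_add]
      zero_mem' := by
        show Tendsto (fun n => cavg (φ.μ n) (fun g => U g (0 : E))) atTop (𝓝 0)
        simp only [map_zero, cavg_const]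
        exact tendsto_const_nhds
      smul_mem' := by
        intro c a ha
        show Tendsto (fun n => cavg (φ.μ n) (fun g => U g (c • a))) atTop (𝓝 0)
        have := Tendsto.const_smul (show Tendsto _ _ _ from ha) c
        rw [smul_zero] at this
        refine this.congr fun n => ?_
        rw [← cavg_smul]
        simp only [map_smul] }
  have hWmem : ∀ f, f ∈ W ↔ Tendsto (fun n => cavg (φ.μ n) (fun g => U g f)) atTop (𝓝 0) :=
    fun f => Iff.rfl
  have hWc : IsClosed (W : Set E) := by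
    rw [← closure_subset_iff_isClosed]
    intro g hg
    rw [SetLike.mem_coe, hWmem, Metric.tendsto_atTop']
    intro ε hε
    obtain ⟨w, hw, hgw⟩ := Metric.mem_closure_iff.1 hg (ε / 2) (by positivity)
    rw [SetLike.mem_coe, hWmem, Metric.tendsto_atTop'] at hw
    obtain ⟨n0, hn0⟩ := hw (ε / 2) (by positivity)
    refine ⟨n0, fun n hn => ?_⟩
    have h1 := hn0 n hn
    rw [dist_zero_right] at h1 ⊢
    have h2 : cavg (φ.μ n) (fun x => U x g) =
        cavg (φ.μ n) (fun x => U x (g - w)) + cavg (φ.μ n) (fun x => U x w) := by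
      rw [← cavg_add]
      simp only [map_sub, sub_add_cancel]
    have h3 : ‖cavg (φ.μ n) (fun x => U x (g - w))‖ ≤ ‖g - w‖ :=
      cavg_norm_le _ _ _ fun x => by rw [LinearIsometry.norm_map]
    rw [dist_eq_norm] at hgw
    rw [h2]
    calc ‖cavg (φ.μ n) (fun x => U x (g - w)) + cavg (φ.μ n) (fun x => U x w)‖
        ≤ ‖cavg (φ.μ n) (fun x => U x (g - w))‖ + ‖cavg (φ.μ n) (fun x => U x w)‖ := norm_add_le _ _
      _ < ε := by linarith
  haveI : CompleteSpace W := hWc.completeSpace_coe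
  have hgen : ∀ d h, U d h - h ∈ W := by
    intro d h
    rw [hWmem]
    have h1 := fol_vec φ d (fun x => U x h) (‖h‖ + 1) (by positivity) (fun x => by
      rw [LinearIsometry.norm_map]; linarith)
    refine h1.congr fun n => ?_
    rw [← cavg_sub]
    simp only [map_sub, hU]
  have hinv : ∀ k ∈ Wᗮ, ∀ g, U g k = k := by
    intro k hk g
    have h1 : inner ℂ (U g k - k) k = 0 := (Submodule.mem_orthogonal W k).1 hk _ (hgen g k)
    rw [inner_sub_left, sub_eq_zero, inner_self_eq_norm_sq_to_K] at h1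
    have h2 : ‖U g k - k‖ ^ 2 = 0 := by
      have h3 := norm_sub_sq (𝕜 := ℂ) (U g k) k
      rw [h3, h1, LinearIsometry.norm_map]
      have h4 : RCLike.re ((RCLike.ofReal ‖k‖ : ℂ) ^ 2) = ‖k‖ ^ 2 := by
        norm_cast
      rw [h4]
      ring
    have h5 : ‖U g k - k‖ = 0 := by
      exact pow_eq_zero_iff (two_ne_zero) |>.1 h2
    rwa [norm_eq_zero, sub_eq_zero] at h5
  refine ⟨f - W.starProjection f, hinv _ (Submodule.sub_starProjection_mem_orthogonal f), ?_⟩
  have h1 : W.starProjection f ∈ W := Submodule.starProjection_apply_mem W f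
  rw [hWmem] at h1
  have h2 : Tendsto (fun n => cavg (φ.μ n) (fun g => U g (W.starProjection f)) +
      cavg (φ.μ n) (fun g => U g (f - W.starProjection f))) atTop
      (𝓝 (0 + (f - W.starProjection f))) := by
    apply h1.add
    have h3 : ∀ g, U g (f - W.starProjection f) = f - W.starProjection f :=
      hinv _ (Submodule.sub_starProjection_mem_orthogonal f)
    simp only [h3, cavg_const]
    exact tendsto_const_nhds
  rw [zero_add] at h2
  refine h2.congr fun n => ?_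
  rw [← cavg_add]
  congr 1
  funext g
  rw [← map_add, add_sub_cancel]

end Hilbert

theorem rot_comp {F : Subfield ℂ} {A : Type} [AddCommGroup A] [Module F A] (γ δ : Gam F) :
    (rotX δ : X A → X A) ∘ rotX γ = rotX (δ * γ) := by
  funext θ
  apply X.ext
  funext x
  show θ.fn (toF γ • (toF δ • x)) = θ.fn (toF (δ * γ) • x)
  rw [smul_smul, toF_mul, mul_comm]

end VonNAux

open VonNAux in
theorem exists_invProj {F : Subfield ℂ} (hF : GoodField F) {A : Type} [AddCommGroup A]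
    [Module F A] [Countable A] (Q : Measure (X A)) [IsProbabilityMeasure Q]
    (hQ : ∀ γ : Gam F, MeasurePreserving (rotX γ : X A → X A) Q Q) (φ : Fol (Gam F)) (y : A) :
    ∃ H : X A → ℂ, Measurable H ∧ (∀ θ, ‖H θ‖ ≤ 1) ∧
      (∀ γ : Gam F, (fun θ => H (rotX γ θ)) =ᵐ[Q] H) ∧
      Tendsto (fun n => ∫ θ, ‖(φ.μ n).avg (fun γ => ev (toF γ • y) θ) - H θ‖ ^ 2 ∂Q)
        atTop (𝓝 0) := by
  haveI : Fact ((1 : ENNReal) ≤ 2) := ⟨by norm_num⟩
  have hmem : MemLp (ev y : X A → ℂ) 2 Q :=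
    MemLp.of_bound (measurable_ev y).aestronglyMeasurable 1 (Eventually.of_forall fun θ => by
      rw [norm_ev])
  set f0 : Lp ℂ 2 Q := hmem.toLp _ with hf0
  set U : Gam F → Lp ℂ 2 Q →ₗᵢ[ℂ] Lp ℂ 2 Q := fun γ =>
    Lp.compMeasurePreservingₗᵢ ℂ (rotX γ) (hQ γ) with hUdef
  have hUc : ∀ γ (f : Lp ℂ 2 Q), (U γ f : X A → ℂ) =ᵐ[Q] (f : X A → ℂ) ∘ rotX γ := by
    intro γ f
    exact Lp.coeFn_compMeasurePreserving f (hQ γ)
  have hUU : ∀ g h f, U g (U h f) = U (h * g) f := by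
    intro g h f
    apply Lp.ext
    have h1 := hUc g (U h f)
    have h2 : ((U h f : X A → ℂ)) ∘ rotX g =ᵐ[Q] ((f : X A → ℂ) ∘ rotX h) ∘ rotX g :=
      (hQ g).quasiMeasurePreserving.ae_eq_comp (hUc h f)
    have h3 := hUc (h * g) f
    rw [Function.comp_assoc, rot_comp] at h2
    exact (h1.trans h2).trans h3.symm
  obtain ⟨k, hk1, hk2⟩ := mean_ergodic φ U hUU f0
  -- the averages as functions
  have havg : ∀ n, ((cavg (φ.μ n) (fun g => U g f0) : Lp ℂ 2 Q) : X A → ℂ) =ᵐ[Q]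
      fun θ => (φ.μ n).avg (fun γ => ev (toF γ • y) θ) := by
    intro n
    have h1 : ∀ γ, (U γ f0 : X A → ℂ) =ᵐ[Q] fun θ => ev (toF γ • y) θ := by
      intro γ
      have h2 := hUc γ f0
      have h3 : ((f0 : X A → ℂ)) ∘ rotX γ =ᵐ[Q] (ev y : X A → ℂ) ∘ rotX γ :=
        (hQ γ).quasiMeasurePreserving.ae_eq_comp hmem.coeFn_toLp
      exact h2.trans h3
    have h4 : ∀ s : Finset (Gam F), ((∑ x ∈ s, ((φ.μ n).w x : ℂ) • U x f0 : Lp ℂ 2 Q) : X A → ℂ) =ᵐ[Q]
        fun θ => ∑ x ∈ s, ((φ.μ n).w x : ℂ) * ev (toF x • y) θ := by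
      intro s
      classical
      induction s using Finset.induction_on with
      | empty =>
        simp only [Finset.sum_empty]
        exact Lp.coeFn_zero _ _ _
      | insert a s ha ih =>
        rw [Finset.sum_insert ha]
        filter_upwards [Lp.coeFn_add (((φ.μ n).w a : ℂ) • U a f0)
          (∑ x ∈ s, ((φ.μ n).w x : ℂ) • U x f0 : Lp ℂ 2 Q),
          Lp.coeFn_smul ((φ.μ n).w a : ℂ) (U a f0), h1 a, ih] with θ e1 e2 e3 e4
        rw [e1, Pi.add_apply, e2, Pi.smul_apply, e3, e4, Finset.sum_insert ha, smul_eq_mul]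
    refine (h4 (φ.μ n).s).trans (Eventually.of_forall fun θ => ?_)
    show _ = (φ.μ n).avg (fun γ => ev (toF γ • y) θ)
    rw [avg_eq]
  -- the bound
  have hbd : ∀ᵐ θ ∂Q, ‖(k : X A → ℂ) θ‖ ≤ 1 := by
    obtain ⟨ns, _, hns⟩ := (tendstoInMeasure_of_tendsto_Lp hk2).exists_seq_tendsto_ae
    have hall : ∀ᵐ θ ∂Q, ∀ n, ((cavg (φ.μ n) (fun g => U g f0) : Lp ℂ 2 Q) : X A → ℂ) θ =
        (φ.μ n).avg (fun γ => ev (toF γ • y) θ) := ae_all_iff.2 havg
    filter_upwards [hns, hall] with θ h1 h2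
    refine le_of_tendsto h1.norm (Eventually.of_forall fun i => ?_)
    rw [h2 (ns i), avg_eq]
    calc ‖∑ x ∈ (φ.μ (ns i)).s, ((φ.μ (ns i)).w x : ℂ) * ev (toF x • y) θ‖
        ≤ ∑ x ∈ (φ.μ (ns i)).s, ‖((φ.μ (ns i)).w x : ℂ) * ev (toF x • y) θ‖ := norm_sum_le _ _
      _ = ∑ x ∈ (φ.μ (ns i)).s, (φ.μ (ns i)).w x := by
          refine Finset.sum_congr rfl fun x _ => ?_
          rw [norm_mul, norm_ev, mul_one, Complex.norm_real, Real.norm_of_nonneg ((φ.μ (ns i)).nonneg x)]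
      _ = 1 := (φ.μ (ns i)).sum_one
      _ ≤ 1 := le_rfl
  have hkm : Measurable (k : X A → ℂ) := (Lp.stronglyMeasurable k).measurable
  classical
  refine ⟨fun θ => if ‖(k : X A → ℂ) θ‖ ≤ 1 then (k : X A → ℂ) θ else 0, ?_, ?_, ?_, ?_⟩
  · exact Measurable.ite (measurableSet_le hkm.norm measurable_const) hkm measurable_const
  · intro θ
    show ‖(if ‖(k : X A → ℂ) θ‖ ≤ 1 then (k : X A → ℂ) θ else 0)‖ ≤ 1
    split_ifs with h
    · exact h
    · simp
  · intro γ
    have hH : (fun θ => if ‖(k : X A → ℂ) θ‖ ≤ 1 then (k : X A → ℂ) θ else 0) =ᵐ[Q] (k : X A → ℂ) := by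
      filter_upwards [hbd] with θ h
      rw [if_pos h]
    have h1 : (fun θ => if ‖(k : X A → ℂ) θ‖ ≤ 1 then (k : X A → ℂ) θ else 0) ∘ rotX γ =ᵐ[Q]
        (k : X A → ℂ) ∘ rotX γ := (hQ γ).quasiMeasurePreserving.ae_eq_comp hH
    have h2 := hUc γ k
    rw [hk1 γ] at h2
    exact (h1.trans h2.symm).trans hH.symm
  · have hn : ∀ n, ∫ θ, ‖(φ.μ n).avg (fun γ => ev (toF γ • y) θ) -
        (if ‖(k : X A → ℂ) θ‖ ≤ 1 then (k : X A → ℂ) θ else 0)‖ ^ 2 ∂Q =
        ‖cavg (φ.μ n) (fun g => U g f0) - k‖ ^ 2 := by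
      intro n
      set v : Lp ℂ 2 Q := cavg (φ.μ n) (fun g => U g f0) - k with hv
      have h1 : ‖v‖ ^ 2 = RCLike.re (inner ℂ v v) := norm_sq_eq_re_inner v
      rw [h1, L2.inner_def]
      have h2 : ∫ a, inner ℂ ((v : X A → ℂ) a) ((v : X A → ℂ) a) ∂Q =
          ((∫ a, ‖(v : X A → ℂ) a‖ ^ 2 ∂Q : ℝ) : ℂ) := by
        rw [← integral_complex_ofReal]
        refine integral_congr_ae (Eventually.of_forall fun a => ?_)
        show inner ℂ ((v : X A → ℂ) a) ((v : X A → ℂ) a) = ((‖(v : X A → ℂ) a‖ ^ 2 : ℝ) : ℂ)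
        rw [inner_self_eq_norm_sq_to_K]
        norm_cast
      rw [h2]
      show _ = (((∫ a, ‖(v : X A → ℂ) a‖ ^ 2 ∂Q : ℝ) : ℂ)).re
      rw [Complex.ofReal_re]
      refine integral_congr_ae ?_
      filter_upwards [havg n, hbd, Lp.coeFn_sub (cavg (φ.μ n) (fun g => U g f0)) k] with θ e1 e2 e3
      rw [if_pos e2, hv, e3, Pi.sub_apply, e1]
    simp only [hn]
    have h3 : Tendsto (fun n => cavg (φ.μ n) (fun g => U g f0) - k) atTop (𝓝 (k - k)) :=
      hk2.sub tendsto_const_nhds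
    rw [sub_self] at h3
    have h4 := (h3.norm).pow 2
    rw [norm_zero, zero_pow two_ne_zero] at h4
    exact h4

end Pool.Agent.Lib.P3852C
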