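import Pool.Agent.Lib.P3852C.EConc
import Pool.Agent.Lib.P3852C.ELast
import Pool.Agent.Lib.P3852C.VonN
import Pool.Agent.Lib.P3852C.ErgMean
import Pool.Agent.Lib.P3852C.FolEx

/-!
# 6.3: the maximiser is ergodic

For `y : ℕ →₀ F` with support in `{0..k}` take `H` from `exists_invProj`; its real and imaginary parts
satisfy `AppK Q k` (the averages of `ev (γ • y)` are combinations of characters supported in `{0..k}`).
(c): apply `swap_inv` to `H` and to `H ∘ permX (swap 0 j)`, `j ≤ k` (again `AppK Q k`): `H` is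
invariant under `swap j i` for `j ≤ k < i`, hence under all swaps (`swap a b = swap a i * swap b i *
swap a i`; swaps of indices `> k` by `AppK.fixK`). `const_of_sym`: `H` is constant, `= ∫ ev y`
(`∫ H = lim ∫ avg = ∫ ev y`). For invariant `f ∈ L²`:
`∫ ev y conj f = ∫ avg conj f → ∫ H conj f = (∫ ev y)(∫ conj f)` for all `y`, so `f - ∫ f` is orthogonal to
all characters: `ae_zero_of_orth`.
-/

set_option autoImplicit false

namespace Pool.Agent.Lib.P3852C

open MeasureTheory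

variable {F : Subfield ℂ}

namespace EErgAux

/-- combinations of characters supported on the indices `≤ k` -/
noncomputable def TS (F : Subfield ℂ) (k : ℕ) : Submodule ℂ (X (ℕ →₀ F) → ℂ) :=
  Submodule.span ℂ ((fun z : ℕ →₀ F => (ev z : X (ℕ →₀ F) → ℂ)) '' {z | ∀ i, k < i → z i = 0})

theorem ev_mem {k : ℕ} {z : ℕ →₀ F} (hz : ∀ i, k < i → z i = 0) :
    (ev z : X (ℕ →₀ F) → ℂ) ∈ TS F k := Submodule.subset_span ⟨z, hz, rfl⟩

theorem exists_of_mem {k : ℕ} {f : X (ℕ →₀ F) → ℂ} (hf : f ∈ TS F k) :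
    ∃ (s : Finset (ℕ →₀ F)) (a : (ℕ →₀ F) → ℂ), (∀ z ∈ s, ∀ i, k < i → z i = 0) ∧
      ∀ θ, f θ = ∑ z ∈ s, a z * ev z θ := by
  unfold TS at hf
  rw [Finsupp.mem_span_image_iff_linearCombination] at hf
  obtain ⟨l, hl, rfl⟩ := hf
  refine ⟨l.support, l, ?_, ?_⟩
  · intro z hz
    exact (Finsupp.mem_supported ℂ l).1 hl (Finset.mem_coe.2 hz)
  · intro θ
    rw [Finsupp.linearCombination_apply, Finsupp.sum, Finset.sum_apply]
    rfl

theorem mem_of_sum {k : ℕ} (s : Finset (ℕ →₀ F)) (a : (ℕ →₀ F) → ℂ) (z' : (ℕ →₀ F) → (ℕ →₀ F))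
    (h : ∀ z ∈ s, ∀ i, k < i → z' z i = 0) :
    (fun θ : X (ℕ →₀ F) => ∑ z ∈ s, a z * ev (z' z) θ) ∈ TS F k := by
  have : (fun θ : X (ℕ →₀ F) => ∑ z ∈ s, a z * ev (z' z) θ) =
      ∑ z ∈ s, a z • (ev (z' z) : X (ℕ →₀ F) → ℂ) := by
    funext θ
    rw [Finset.sum_apply]
    rfl
  rw [this]
  exact Submodule.sum_mem _ fun z hz => Submodule.smul_mem _ _ (ev_mem (h z hz))

theorem conj_mem {k : ℕ} {f : X (ℕ →₀ F) → ℂ} (hf : f ∈ TS F k) :
    (fun θ => (starRingEnd ℂ) (f θ)) ∈ TS F k := by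
  obtain ⟨s, a, h1, h2⟩ := exists_of_mem hf
  have : (fun θ => (starRingEnd ℂ) (f θ)) = fun θ : X (ℕ →₀ F) =>
      ∑ z ∈ s, (starRingEnd ℂ) (a z) * ev (-z) θ := by
    funext θ
    rw [h2 θ, map_sum]
    refine Finset.sum_congr rfl fun z _ => ?_
    rw [map_mul, ev_neg]
  rw [this]
  refine mem_of_sum s _ (fun z => -z) fun z hz i hi => ?_
  rw [Finsupp.neg_apply, h1 z hz i hi, neg_zero]

theorem avg_mem (μ : FW (Gam F)) {y : ℕ →₀ F} {k : ℕ} (hy : ∀ i, k < i → y i = 0) :
    (fun θ : X (ℕ →₀ F) => μ.avg (fun γ => ev (toF γ • y) θ)) ∈ TS F k := by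
  have : (fun θ : X (ℕ →₀ F) => μ.avg (fun γ => ev (toF γ • y) θ)) =
      ∑ γ ∈ μ.s, ((μ.w γ : ℝ) : ℂ) • (ev (toF γ • y) : X (ℕ →₀ F) → ℂ) := by
    funext θ
    rw [Finset.sum_apply]
    unfold FW.avg
    refine Finset.sum_congr rfl fun γ _ => ?_
    rw [Pi.smul_apply, smul_eq_mul, Complex.real_smul]
  rw [this]
  refine Submodule.sum_mem _ fun γ _ => Submodule.smul_mem _ _ (ev_mem fun i hi => ?_)
  rw [Finsupp.smul_apply, hy i hi, smul_zero]

theorem appK_of_TS (Q : Measure (X (ℕ →₀ F))) {k : ℕ} {H : X (ℕ →₀ F) → ℝ}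
    (h : ∀ ε : ℝ, 0 < ε → ∃ f ∈ TS F k, ∫ θ, ‖(H θ : ℂ) - f θ‖ ^ 2 ∂Q ≤ ε) : AppK Q k H := by
  intro ε hε
  obtain ⟨f, hf, h1⟩ := h ε hε
  obtain ⟨s, a, h2, h3⟩ := exists_of_mem hf
  refine ⟨s, a, h2, ?_⟩
  simp only [h3] at h1
  exact h1

theorem permX_one (θ : X (ℕ →₀ F)) : permX 1 θ = θ := by
  apply X.ext
  funext x
  change θ.fn (Finsupp.mapDomain (1 : Equiv.Perm ℕ) x) = θ.fn x
  congr 1
  exact Finsupp.mapDomain_id

theorem measurable_permX (π : Equiv.Perm ℕ) :
    Measurable (permX π : X (ℕ →₀ F) → X (ℕ →₀ F)) := measurable_pull _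

/-- invariance under a permutation -/
def Inv (Q : Measure (X (ℕ →₀ F))) (H : X (ℕ →₀ F) → ℝ) (π : Equiv.Perm ℕ) : Prop :=
  (fun θ => H (permX π θ)) =ᵐ[Q] H

theorem Inv.mul {Q : Measure (X (ℕ →₀ F))} {H : X (ℕ →₀ F) → ℝ}
    (hQ : ∀ π, MeasurePreserving (permX π : X (ℕ →₀ F) → X (ℕ →₀ F)) Q Q)
    {π π' : Equiv.Perm ℕ} (h : Inv Q H π) (h' : Inv Q H π') : Inv Q H (π' * π) := by
  have h1 := (hQ π').quasiMeasurePreserving.ae_eq_comp h
  have h2 : (fun θ => H (permX (π' * π) θ)) = (fun θ => H (permX π θ)) ∘ permX π' := by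
    funext θ
    rw [Function.comp_apply, permX_comp]
  unfold Inv
  rw [h2]
  exact h1.trans h'

theorem swap_all (hF : GoodField F) {Φ : (ℕ →₀ F) → ℝ} (h : IsMaxE F Φ)
    (Q : Measure (X (ℕ →₀ F))) [IsProbabilityMeasure Q] (hQ : Rep Q Φ) (k : ℕ)
    (H : X (ℕ →₀ F) → ℝ) (hm : Measurable H) (hb : ∀ θ, |H θ| ≤ 1)
    (hrot : ∀ γ : Gam F, (fun θ => H (rotX γ θ)) =ᵐ[Q] H) (happ : AppK Q k H) (a b : ℕ) :
    Inv Q H (Equiv.swap a b) := by
  have hP : ∀ π, MeasurePreserving (permX π : X (ℕ →₀ F) → X (ℕ →₀ F)) Q Q :=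
    fun π => h.mem.perm_mp hF Q hQ π
  -- the case `j ≤ k < i`
  have key : ∀ j i : ℕ, j ≤ k → k < i → Inv Q H (Equiv.swap j i) := by
    intro j i hj hi
    have hm' : Measurable (fun θ => H (permX (Equiv.swap 0 j) θ)) :=
      hm.comp (measurable_permX _)
    have hrot' : ∀ γ : Gam F, (fun θ => H (permX (Equiv.swap 0 j) (rotX γ θ))) =ᵐ[Q]
        (fun θ => H (permX (Equiv.swap 0 j) θ)) := by
      intro γ
      have h1 := (hP (Equiv.swap 0 j)).quasiMeasurePreserving.ae_eq_comp (hrot γ)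
      have h2 : (fun θ => H (permX (Equiv.swap 0 j) (rotX γ θ))) =
          (fun θ => H (rotX γ θ)) ∘ permX (Equiv.swap 0 j) := by
        funext θ
        rw [Function.comp_apply, permX_rotX]
      rw [h2]
      exact h1
    have happ' : AppK Q k (fun θ => H (permX (Equiv.swap 0 j) θ)) := by
      apply appK_of_TS
      intro ε hε
      obtain ⟨s, c, h1, h2⟩ := happ ε hε
      refine ⟨fun θ => ∑ z ∈ s, c z * ev (Finsupp.mapDomain (Equiv.swap 0 j) z) θ,
        mem_of_sum s c _ ?_, ?_⟩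
      · intro z hz i' hi'
        rw [Finsupp.mapDomain_equiv_apply, Equiv.symm_swap, Equiv.swap_apply_of_ne_of_ne
          (by omega) (by omega)]
        exact h1 z hz i' hi'
      · refine le_trans (le_of_eq ?_) h2
        have hmeas : Measurable (fun θ : X (ℕ →₀ F) =>
            ‖(H θ : ℂ) - ∑ z ∈ s, c z * ev z θ‖ ^ 2) := by
          refine ((Complex.measurable_ofReal.comp hm).sub ?_).norm.pow_const 2
          exact Finset.measurable_sum s fun z _ => (measurable_ev z).const_mul (c z)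
        have h3 := integral_map (μ := Q) (φ := permX (Equiv.swap 0 j))
          (hP (Equiv.swap 0 j)).aemeasurable
          (f := fun θ : X (ℕ →₀ F) => ‖(H θ : ℂ) - ∑ z ∈ s, c z * ev z θ‖ ^ 2)
          hmeas.aestronglyMeasurable
        rw [(hP (Equiv.swap 0 j)).map_eq] at h3
        rw [h3]
        rfl
    have h1 := swap_inv hF h Q hQ k (fun θ => H (permX (Equiv.swap 0 j) θ)) hm'
      (fun θ => hb _) hrot' happ' i hi
    have h2 := (hP (Equiv.swap 0 j)).quasiMeasurePreserving.ae_eq_comp h1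
    have e1 : ((fun θ => H (permX (Equiv.swap 0 j) (permX (Equiv.swap 0 i) θ))) ∘
        permX (Equiv.swap 0 j)) = fun θ => H (permX (Equiv.swap j i) θ) := by
      funext θ
      rw [Function.comp_apply, permX_comp, permX_comp]
      congr 2
      have h3 := Equiv.swap_apply_apply (Equiv.swap 0 j) 0 i
      rw [Equiv.swap_inv, Equiv.swap_apply_left, Equiv.swap_apply_of_ne_of_ne (a := 0) (b := j)
        (x := i) (by omega) (by omega), mul_assoc] at h3
      exact h3.symm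
    have e2 : ((fun θ => H (permX (Equiv.swap 0 j) θ)) ∘ permX (Equiv.swap 0 j)) = H := by
      funext θ
      rw [Function.comp_apply, permX_comp, Equiv.swap_mul_self, permX_one]
    rw [e1, e2] at h2
    exact h2
  have hfix : FixK Q k H := AppK.fixK hF h.mem Q hQ hm hb happ
  by_cases hab : a = b
  · subst hab
    rw [Equiv.swap_self]
    unfold Inv
    have : (fun θ => H (permX (Equiv.refl ℕ) θ)) = H := by
      funext θ
      exact congrArg H (permX_one θ)
    rw [this]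
  · rcases le_or_gt a k with ha | ha
    · rcases le_or_gt b k with hbk | hbk
      · have h1 := key a (k + 1) ha (Nat.lt_succ_self k)
        have h2 := key b (k + 1) hbk (Nat.lt_succ_self k)
        have h3 := Inv.mul hP (Inv.mul hP h1 h2) h1
        have h4 := Equiv.swap_apply_apply (Equiv.swap a (k + 1)) (k + 1) b
        rw [Equiv.swap_inv, Equiv.swap_apply_right, Equiv.swap_apply_of_ne_of_ne
          (a := a) (b := k + 1) (x := b) (by omega) (by omega), mul_assoc,
          Equiv.swap_comm (k + 1) b] at h4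
        rw [h4]
        exact h3
      · exact key a b ha hbk
    · rcases le_or_gt b k with hbk | hbk
      · rw [Equiv.swap_comm]
        exact key b a hbk ha
      · apply hfix
        intro i hi
        exact Equiv.swap_apply_of_ne_of_ne (by omega) (by omega)

theorem avg_bound (μ : FW (Gam F)) (y : ℕ →₀ F) (θ : X (ℕ →₀ F)) :
    ‖μ.avg (fun γ => ev (toF γ • y) θ)‖ ≤ 1 := by
  unfold FW.avg
  refine (norm_sum_le _ _).trans ?_
  rw [← μ.sum_one]
  refine Finset.sum_le_sum fun γ _ => ?_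
  rw [norm_smul, norm_ev, mul_one, Real.norm_eq_abs, abs_of_nonneg (μ.nonneg γ)]

theorem avg_measurable (μ : FW (Gam F)) (y : ℕ →₀ F) :
    Measurable (fun θ : X (ℕ →₀ F) => μ.avg (fun γ => ev (toF γ • y) θ)) := by
  unfold FW.avg
  exact Finset.measurable_sum _ fun γ _ => (measurable_ev _).const_smul (μ.w γ)

theorem part_const (hF : GoodField F) {Φ : (ℕ →₀ F) → ℝ} (h : IsMaxE F Φ)
    (Q : Measure (X (ℕ →₀ F))) [IsProbabilityMeasure Q] (hQ : Rep Q Φ) (φ : Fol (Gam F))
    (y : ℕ →₀ F) (H : X (ℕ →₀ F) → ℂ) (hm : Measurable H) (hb : ∀ θ, ‖H θ‖ ≤ 1)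
    (hrot : ∀ γ : Gam F, (fun θ => H (rotX γ θ)) =ᵐ[Q] H)
    (ht : Filter.Tendsto (fun n => ∫ θ, ‖(φ.μ n).avg (fun γ => ev (toF γ • y) θ) - H θ‖ ^ 2 ∂Q)
        Filter.atTop (nhds 0)) (c : ℂ) (hc : ‖c‖ = 1) :
    ∃ r : ℝ, (fun θ => (c * H θ).re) =ᵐ[Q] fun _ => r := by
  obtain ⟨k, hk⟩ : ∃ k : ℕ, ∀ i, k < i → y i = 0 := by
    refine ⟨y.support.sup id, fun i hi => ?_⟩
    by_contra hne
    have : i ∈ y.support := Finsupp.mem_support_iff.2 hne
    have := Finset.le_sup (f := id) this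
    simp only [id] at this
    omega
  have hm' : Measurable (fun θ => (c * H θ).re) :=
    Complex.measurable_re.comp (hm.const_mul c)
  have hb' : ∀ θ, |(c * H θ).re| ≤ 1 := by
    intro θ
    refine (Complex.abs_re_le_norm _).trans ?_
    rw [norm_mul, hc, one_mul]
    exact hb θ
  have hrot' : ∀ γ : Gam F, (fun θ => (c * H (rotX γ θ)).re) =ᵐ[Q] fun θ => (c * H θ).re := by
    intro γ
    filter_upwards [hrot γ] with θ hθ
    rw [hθ]
  have happ : AppK Q k (fun θ => (c * H θ).re) := by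
    apply appK_of_TS
    intro ε hε
    obtain ⟨n, hn⟩ := (ht.eventually (gt_mem_nhds hε)).exists
    have hf : (fun θ : X (ℕ →₀ F) => (φ.μ n).avg (fun γ => ev (toF γ • y) θ)) ∈ TS F k :=
      avg_mem (φ.μ n) hk
    have hcf := Submodule.smul_mem _ c hf
    have hg := Submodule.smul_mem _ (1 / 2 : ℂ) (Submodule.add_mem _ hcf (conj_mem hcf))
    refine ⟨_, hg, ?_⟩
    refine le_trans ?_ hn.le
    apply integral_mono_of_nonneg
    · exact Filter.Eventually.of_forall fun θ => by positivity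
    · refine Integrable.mono' (g := fun _ => (4 : ℝ)) (integrable_const _) ?_ ?_
      · exact (((avg_measurable (φ.μ n) y).sub hm).norm.pow_const 2).aestronglyMeasurable
      · refine Filter.Eventually.of_forall fun θ => ?_
        rw [Real.norm_eq_abs, abs_of_nonneg (by positivity)]
        have h1 : ‖(φ.μ n).avg (fun γ => ev (toF γ • y) θ) - H θ‖ ≤ 2 :=
          (norm_sub_le _ _).trans (by linarith [avg_bound (φ.μ n) y θ, hb θ])
        nlinarith [norm_nonneg ((φ.μ n).avg (fun γ => ev (toF γ • y) θ) - H θ)]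
    · refine Filter.Eventually.of_forall fun θ => ?_
      simp only [Pi.smul_apply, Pi.add_apply, smul_eq_mul]
      set f := (φ.μ n).avg (fun γ => ev (toF γ • y) θ) with hfdef
      have e1 : (1 / 2 : ℂ) * (c * f + (starRingEnd ℂ) (c * f)) = (((c * f).re : ℝ) : ℂ) := by
        rw [Complex.add_conj]
        push_cast
        ring
      rw [e1, ← Complex.ofReal_sub, ← Complex.sub_re, ← mul_sub, Complex.norm_real,
        Real.norm_eq_abs]
      have e2 : |(c * (H θ - f)).re| ≤ ‖f - H θ‖ := by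
        refine (Complex.abs_re_le_norm _).trans ?_
        rw [norm_mul, hc, one_mul, norm_sub_rev]
      exact pow_le_pow_left₀ (abs_nonneg _) e2 2
  exact ⟨_, const_of_sym hF h Q hQ _ hm' hb' hrot'
    (fun a b => swap_all hF h Q hQ k _ hm' hb' hrot' happ a b)⟩

theorem proj_const (hF : GoodField F) {Φ : (ℕ →₀ F) → ℝ} (h : IsMaxE F Φ)
    (Q : Measure (X (ℕ →₀ F))) [IsProbabilityMeasure Q] (hQ : Rep Q Φ) (φ : Fol (Gam F))
    (y : ℕ →₀ F) (H : X (ℕ →₀ F) → ℂ) (hm : Measurable H) (hb : ∀ θ, ‖H θ‖ ≤ 1)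
    (hrot : ∀ γ : Gam F, (fun θ => H (rotX γ θ)) =ᵐ[Q] H)
    (ht : Filter.Tendsto (fun n => ∫ θ, ‖(φ.μ n).avg (fun γ => ev (toF γ • y) θ) - H θ‖ ^ 2 ∂Q)
        Filter.atTop (nhds 0)) : ∃ c : ℂ, H =ᵐ[Q] fun _ => c := by
  obtain ⟨r, hr⟩ := part_const hF h Q hQ φ y H hm hb hrot ht 1 (by simp)
  obtain ⟨t, ht'⟩ := part_const hF h Q hQ φ y H hm hb hrot ht (-Complex.I) (by simp)
  refine ⟨⟨r, t⟩, ?_⟩
  filter_upwards [hr, ht'] with θ h1 h2
  apply Complex.ext
  · simpa using h1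
  · simpa using h2

end EErgAux

theorem erg_of_max (hF : GoodField F) {Φ : (ℕ →₀ F) → ℝ} (h : IsMaxE F Φ)
    (Q : Measure (X (ℕ →₀ F))) [IsProbabilityMeasure Q] (hQ : Rep Q Φ) : ErgQ F Q := by
  have := hF.ctb
  have := hF.gam_countable
  obtain ⟨φ⟩ := exists_fol (Gam F)
  have hR : ∀ γ : Gam F, MeasurePreserving (rotX γ : X (ℕ →₀ F) → X (ℕ →₀ F)) Q Q :=
    fun γ => h.mem.rot_mp hF Q hQ γ
  intro f hf hinv
  set m := ∫ θ, f θ ∂Q with hm
  refine ⟨m, ?_⟩
  have hg : MemLp (fun θ => f θ - m) 2 Q := hf.sub (memLp_const m)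
  have hfint : Integrable f Q := hf.integrable (by norm_num)
  have hgint : Integrable (fun θ => f θ - m) Q := hfint.sub (integrable_const m)
  have hg0 : ∫ θ, (f θ - m) ∂Q = 0 := by
    rw [integral_sub hfint (integrable_const m)]
    simp [hm]
  have hginv : ∀ γ : Gam F, (fun θ => f (rotX γ θ) - m) =ᵐ[Q] fun θ => f θ - m := by
    intro γ
    filter_upwards [hinv γ] with θ hθ
    rw [hθ]
  have key : ∀ y : ℕ →₀ F, ∫ θ, ev y θ * (f θ - m) ∂Q = 0 := by
    intro y
    obtain ⟨H, hHm, hHb, hHrot, hHt⟩ := exists_invProj hF Q hR φ y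
    obtain ⟨c, hc⟩ := EErgAux.proj_const hF h Q hQ φ y H hHm hHb hHrot hHt
    set I := ∫ θ, ev y θ * (f θ - m) ∂Q with hI
    have hevint : ∀ z : ℕ →₀ F, Integrable (fun θ => ev z θ * (f θ - m)) Q := by
      intro z
      refine Integrable.bdd_mul (c := 1) hgint (measurable_ev z).aestronglyMeasurable ?_
      exact Filter.Eventually.of_forall fun θ => (norm_ev z θ).le
    have h1 : ∀ γ : Gam F, ∫ θ, ev (toF γ • y) θ * (f θ - m) ∂Q = I := by
      intro γ
      have e1 : ∫ θ, ev (toF γ • y) θ * (f θ - m) ∂Q =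
          ∫ θ, ev y (rotX γ θ) * (f (rotX γ θ) - m) ∂Q := by
        apply integral_congr_ae
        filter_upwards [hginv γ] with θ hθ
        rw [hθ, ev_rotX]
      have e2 := integral_map (μ := Q) (φ := rotX γ) (hR γ).aemeasurable
        (f := fun θ => ev y θ * (f θ - m)) (by
          rw [(hR γ).map_eq]
          exact (hevint y).aestronglyMeasurable)
      rw [(hR γ).map_eq] at e2
      rw [e1, ← e2]
    have h2 : ∀ n, ∫ θ, (φ.μ n).avg (fun γ => ev (toF γ • y) θ) * (f θ - m) ∂Q = I := by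
      intro n
      unfold FW.avg
      have e1 : (fun θ => (∑ γ ∈ (φ.μ n).s, (φ.μ n).w γ • ev (toF γ • y) θ) * (f θ - m)) =
          fun θ => ∑ γ ∈ (φ.μ n).s, (φ.μ n).w γ • (ev (toF γ • y) θ * (f θ - m)) := by
        funext θ
        rw [Finset.sum_mul]
        refine Finset.sum_congr rfl fun γ _ => ?_
        rw [smul_mul_assoc]
      have e3 : ∫ θ, ∑ γ ∈ (φ.μ n).s, (φ.μ n).w γ • (ev (toF γ • y) θ * (f θ - m)) ∂Q =
          ∑ γ ∈ (φ.μ n).s, ∫ θ, (φ.μ n).w γ • (ev (toF γ • y) θ * (f θ - m)) ∂Q :=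
        integral_finsetSum _ fun γ _ => (hevint (toF γ • y)).smul ((φ.μ n).w γ)
      rw [e1, e3]
      have e2 : ∀ γ ∈ (φ.μ n).s, ∫ θ, (φ.μ n).w γ • (ev (toF γ • y) θ * (f θ - m)) ∂Q =
          (φ.μ n).w γ • I := by
        intro γ _
        rw [integral_smul, h1]
      rw [Finset.sum_congr rfl e2, ← Finset.sum_smul, (φ.μ n).sum_one, one_smul]
    have h3 : ∫ θ, H θ * (f θ - m) ∂Q = 0 := by
      have e1 : ∫ θ, H θ * (f θ - m) ∂Q = ∫ θ, c * (f θ - m) ∂Q := by
        apply integral_congr_ae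
        filter_upwards [hc] with θ hθ
        rw [hθ]
      rw [e1, integral_const_mul, hg0, mul_zero]
    have hG : Integrable (fun θ => ‖f θ - m‖ ^ 2) Q := hg.integrable_norm_pow (by norm_num)
    have hHint : Integrable (fun θ => H θ * (f θ - m)) Q :=
      Integrable.bdd_mul (c := 1) hgint hHm.aestronglyMeasurable
        (Filter.Eventually.of_forall hHb)
    have hAint : ∀ n, Integrable (fun θ =>
        (φ.μ n).avg (fun γ => ev (toF γ • y) θ) * (f θ - m)) Q := fun n =>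
      Integrable.bdd_mul (c := 1) hgint
        (EErgAux.avg_measurable (φ.μ n) y).aestronglyMeasurable
        (Filter.Eventually.of_forall (EErgAux.avg_bound (φ.μ n) y))
    set G := ∫ θ, ‖f θ - m‖ ^ 2 ∂Q with hGdef
    have hG0 : 0 ≤ G := integral_nonneg fun θ => by positivity
    have h4 : ∀ n : ℕ, ∀ δ : ℝ, 0 < δ → ‖I‖ ≤
        1 / (2 * δ) * (∫ θ, ‖(φ.μ n).avg (fun γ => ev (toF γ • y) θ) - H θ‖ ^ 2 ∂Q) +
        δ / 2 * G := by
      intro n δ hδ
      have e1 : I = ∫ θ, ((φ.μ n).avg (fun γ => ev (toF γ • y) θ) - H θ) * (f θ - m) ∂Q := by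
        have e2 : (fun θ => ((φ.μ n).avg (fun γ => ev (toF γ • y) θ) - H θ) * (f θ - m)) =
            fun θ => (φ.μ n).avg (fun γ => ev (toF γ • y) θ) * (f θ - m) -
              H θ * (f θ - m) := by
          funext θ
          ring
        rw [e2, integral_sub (hAint n) hHint, h2 n, h3, sub_zero]
      have hEint : Integrable (fun θ =>
          ‖(φ.μ n).avg (fun γ => ev (toF γ • y) θ) - H θ‖ ^ 2) Q := by
        refine Integrable.mono' (g := fun _ => (4 : ℝ)) (integrable_const _) ?_ ?_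
        · exact (((EErgAux.avg_measurable (φ.μ n) y).sub hHm).norm.pow_const
            2).aestronglyMeasurable
        · refine Filter.Eventually.of_forall fun θ => ?_
          rw [Real.norm_eq_abs, abs_of_nonneg (by positivity)]
          have h1 : ‖(φ.μ n).avg (fun γ => ev (toF γ • y) θ) - H θ‖ ≤ 2 :=
            (norm_sub_le _ _).trans (by linarith [EErgAux.avg_bound (φ.μ n) y θ, hHb θ])
          nlinarith [norm_nonneg ((φ.μ n).avg (fun γ => ev (toF γ • y) θ) - H θ)]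
      rw [e1]
      calc ‖∫ θ, ((φ.μ n).avg (fun γ => ev (toF γ • y) θ) - H θ) * (f θ - m) ∂Q‖
          ≤ ∫ θ, ‖((φ.μ n).avg (fun γ => ev (toF γ • y) θ) - H θ) * (f θ - m)‖ ∂Q :=
            norm_integral_le_integral_norm _
        _ ≤ ∫ θ, (1 / (2 * δ) * ‖(φ.μ n).avg (fun γ => ev (toF γ • y) θ) - H θ‖ ^ 2 +
              δ / 2 * ‖f θ - m‖ ^ 2) ∂Q := by
            apply integral_mono_of_nonneg
            · exact Filter.Eventually.of_forall fun θ => norm_nonneg _
            · exact (hEint.const_mul _).add (hG.const_mul _)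
            · refine Filter.Eventually.of_forall fun θ => ?_
              simp only
              rw [norm_mul]
              set p := ‖(φ.μ n).avg (fun γ => ev (toF γ • y) θ) - H θ‖
              set q := ‖f θ - m‖
              have e3 : 1 / (2 * δ) * p ^ 2 + δ / 2 * q ^ 2 - p * q =
                  (p - δ * q) ^ 2 / (2 * δ) := by
                field_simp
                ring
              have e4 : 0 ≤ (p - δ * q) ^ 2 / (2 * δ) := by positivity
              linarith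
        _ = _ := by
            rw [integral_add (hEint.const_mul _) (hG.const_mul _), integral_const_mul,
              integral_const_mul]
    by_contra hne
    have hpos : 0 < ‖I‖ := norm_pos_iff.2 hne
    set δ := ‖I‖ / (G + 1) with hδdef
    have hδ : 0 < δ := by positivity
    obtain ⟨n, hn⟩ := (hHt.eventually (gt_mem_nhds (show 0 < δ * ‖I‖ by positivity))).exists
    have h5 := h4 n δ hδ
    have h6 : 1 / (2 * δ) * (∫ θ, ‖(φ.μ n).avg (fun γ => ev (toF γ • y) θ) - H θ‖ ^ 2 ∂Q) <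
        ‖I‖ / 2 := by
      calc _ < 1 / (2 * δ) * (δ * ‖I‖) := mul_lt_mul_of_pos_left hn (by positivity)
        _ = ‖I‖ / 2 := by field_simp
    have h7 : δ / 2 * G ≤ ‖I‖ / 2 := by
      have e5 : δ * (G + 1) = ‖I‖ := by
        rw [hδdef]
        field_simp
      nlinarith
    linarith
  have h0 := ae_zero_of_orth Q (fun θ => f θ - m) hg key
  filter_upwards [h0] with θ hθ
  exact sub_eq_zero.1 hθ

end Pool.Agent.Lib.P3852C
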