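import Pool.Agent.Lib.P3852C.Trig

/-!
# Invariance of the measure of `Φ ∈ 𝓔`
-/

set_option autoImplicit false

namespace Pool.Agent.Lib.P3852C

open MeasureTheory

variable {F : Subfield ℂ}

theorem EInvAux.mp {A : Type} [AddCommGroup A] [Countable A] (Q : Measure (X A))
    [IsProbabilityMeasure Q] (c : A → ℝ) (hQ : Rep Q c) (α : A →+ A) (hα : ∀ x, c (α x) = c x) :
    MeasurePreserving (X.pull α) Q Q := by
  refine ⟨measurable_pull α, ?_⟩
  haveI : IsProbabilityMeasure (Q.map (X.pull α)) :=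
    Measure.isProbabilityMeasure_map (measurable_pull α).aemeasurable
  refine rep_unique _ _ fun x => ?_
  rw [integral_map (measurable_pull α).aemeasurable (measurable_ev x).aestronglyMeasurable, hQ x,
    ← hα x, ← hQ (α x)]
  rfl

theorem InE.rot_mp (hF : GoodField F) {Φ : (ℕ →₀ F) → ℝ} (h : InE F Φ) (Q : Measure (X (ℕ →₀ F)))
    [IsProbabilityMeasure Q] (hQ : Rep Q Φ) (γ : Gam F) :
    MeasurePreserving (rotX γ : X (ℕ →₀ F) → X (ℕ →₀ F)) Q Q := by
  haveI := hF.ctb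
  exact EInvAux.mp Q Φ hQ _ fun x => h.rot γ x

theorem InE.perm_mp (hF : GoodField F) {Φ : (ℕ →₀ F) → ℝ} (h : InE F Φ) (Q : Measure (X (ℕ →₀ F)))
    [IsProbabilityMeasure Q] (hQ : Rep Q Φ) (π : Equiv.Perm ℕ) :
    MeasurePreserving (permX π : X (ℕ →₀ F) → X (ℕ →₀ F)) Q Q := by
  haveI := hF.ctb
  exact EInvAux.mp Q Φ hQ _ fun x => h.exch π x

/-- `permX π ∘ permX π' = permX (π' * π)` -/
theorem permX_comp (π π' : Equiv.Perm ℕ) (θ : X (ℕ →₀ F)) :
    permX π (permX π' θ) = permX (π' * π) θ := by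
  apply X.ext
  funext x
  show θ.fn (Finsupp.mapDomain π' (Finsupp.mapDomain π x)) = θ.fn (Finsupp.mapDomain (π' * π) x)
  rw [Equiv.Perm.coe_mul, Finsupp.mapDomain_comp]

theorem permX_rotX (π : Equiv.Perm ℕ) (γ : Gam F) (θ : X (ℕ →₀ F)) :
    permX π (rotX γ θ) = rotX γ (permX π θ) := by
  apply X.ext
  funext x
  show θ.fn (toF γ • Finsupp.mapDomain π x) = θ.fn (Finsupp.mapDomain π (toF γ • x))
  rw [Finsupp.mapDomain_smul]

theorem rotX_rotX {A : Type} [AddCommGroup A] [Module F A] (γ δ : Gam F) (θ : X A) :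
    rotX γ (rotX δ θ) = rotX (γ * δ) θ := by
  apply X.ext
  funext x
  show θ.fn (toF δ • toF γ • x) = θ.fn (toF (γ * δ) • x)
  rw [toF_mul, smul_smul, mul_comm]

/-- A function which is invariant under the permutations fixing the indices `≤ k`. -/
def FixK (Q : Measure (X (ℕ →₀ F))) (k : ℕ) (H : X (ℕ →₀ F) → ℝ) : Prop :=
  ∀ π : Equiv.Perm ℕ, (∀ i ≤ k, π i = i) → (fun θ => H (permX π θ)) =ᵐ[Q] H

/-- `H` is approximated in `L²` by combinations of characters supported on the indices `≤ k`. -/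
def AppK (Q : Measure (X (ℕ →₀ F))) (k : ℕ) (H : X (ℕ →₀ F) → ℝ) : Prop :=
  ∀ ε : ℝ, 0 < ε → ∃ (s : Finset (ℕ →₀ F)) (a : (ℕ →₀ F) → ℂ),
    (∀ z ∈ s, ∀ i, k < i → z i = 0) ∧
    ∫ θ, ‖(H θ : ℂ) - ∑ z ∈ s, a z * ev z θ‖ ^ 2 ∂Q ≤ ε

theorem AppK.fixK (hF : GoodField F) {Φ : (ℕ →₀ F) → ℝ} (h : InE F Φ)
    (Q : Measure (X (ℕ →₀ F))) [IsProbabilityMeasure Q] (hQ : Rep Q Φ) {k : ℕ}
    {H : X (ℕ →₀ F) → ℝ} (hm : Measurable H) (hb : ∀ θ, |H θ| ≤ 1) (hA : AppK Q k H) :
    FixK Q k H := by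
  intro π hπ
  have hmp := h.perm_mp hF Q hQ π
  have hmπ : Measurable (fun θ => H (permX π θ)) := hm.comp hmp.measurable
  have hD : Measurable (fun θ => H (permX π θ) - H θ) := hmπ.sub hm
  have hDb : ∀ θ, (H (permX π θ) - H θ) ^ 2 ≤ 4 := by
    intro θ
    have h1 := abs_le.1 (hb (permX π θ))
    have h2 := abs_le.1 (hb θ)
    nlinarith [h1.1, h1.2, h2.1, h2.2]
  have hi : Integrable (fun θ => (H (permX π θ) - H θ) ^ 2) Q := by
    refine Integrable.of_bound (hD.pow_const 2).aestronglyMeasurable 4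
      (Filter.Eventually.of_forall fun θ => ?_)
    rw [Real.norm_of_nonneg (sq_nonneg _)]
    exact hDb θ
  have key : ∫ θ, (H (permX π θ) - H θ) ^ 2 ∂Q ≤ 0 := by
    refine le_of_forall_pos_le_add fun ε hε => ?_
    obtain ⟨s, a, hs, hsa⟩ := hA (ε / 4) (by positivity)
    set P : X (ℕ →₀ F) → ℂ := fun θ => ∑ z ∈ s, a z * ev z θ with hP
    have hPm : Measurable P := Finset.measurable_sum _ fun z _ => (measurable_ev z).const_mul _
    have hPb : ∀ θ, ‖P θ‖ ≤ ∑ z ∈ s, ‖a z‖ := by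
      intro θ
      refine (norm_sum_le _ _).trans (le_of_eq (Finset.sum_congr rfl fun z _ => ?_))
      rw [norm_mul, norm_ev, mul_one]
    have hPπ : ∀ θ, P (permX π θ) = P θ := by
      intro θ
      refine Finset.sum_congr rfl fun z hz => ?_
      have hz' : Finsupp.mapDomain π z = z := by
        conv_rhs => rw [← Finsupp.mapDomain_id (v := z)]
        refine Finsupp.mapDomain_congr fun i hi => ?_
        refine hπ i (not_lt.1 fun hki => ?_)
        exact (Finsupp.mem_support_iff.1 hi) (hs z hz i hki)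
      rw [ev_permX, hz']
    set C : ℝ := ∑ z ∈ s, ‖a z‖ with hC
    have hC0 : 0 ≤ C := Finset.sum_nonneg fun z _ => norm_nonneg _
    set f : X (ℕ →₀ F) → ℝ := fun θ => ‖(H θ : ℂ) - P θ‖ ^ 2 with hf
    have hfm : Measurable f :=
      ((Complex.measurable_ofReal.comp hm).sub hPm).norm.pow_const 2
    have hfb : ∀ θ, f θ ≤ (1 + C) ^ 2 := by
      intro θ
      have h1 : ‖(H θ : ℂ) - P θ‖ ≤ 1 + C := by
        refine (norm_sub_le _ _).trans (add_le_add ?_ (hPb θ))
        rw [Complex.norm_real, Real.norm_eq_abs]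
        exact hb θ
      exact pow_le_pow_left₀ (norm_nonneg _) h1 2
    have hfi : Integrable f Q := by
      refine Integrable.of_bound hfm.aestronglyMeasurable ((1 + C) ^ 2)
        (Filter.Eventually.of_forall fun θ => ?_)
      rw [Real.norm_of_nonneg (by positivity)]
      exact hfb θ
    have hfπ : ∫ θ, f (permX π θ) ∂Q = ∫ θ, f θ ∂Q := by
      conv_rhs => rw [← hmp.map_eq]
      exact (integral_map hmp.measurable.aemeasurable hfm.aestronglyMeasurable).symm
    have hfπi : Integrable (fun θ => f (permX π θ)) Q := by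
      refine Integrable.of_bound (hfm.comp hmp.measurable).aestronglyMeasurable ((1 + C) ^ 2)
        (Filter.Eventually.of_forall fun θ => ?_)
      rw [Real.norm_of_nonneg (by positivity)]
      exact hfb _
    have hpt : ∀ θ, (H (permX π θ) - H θ) ^ 2 ≤ 2 * f (permX π θ) + 2 * f θ := by
      intro θ
      have e1 : ‖((H (permX π θ) - H θ : ℝ) : ℂ)‖ ≤
          ‖(H (permX π θ) : ℂ) - P (permX π θ)‖ + ‖(H θ : ℂ) - P θ‖ := by
        have e2 : ((H (permX π θ) - H θ : ℝ) : ℂ) =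
            ((H (permX π θ) : ℂ) - P (permX π θ)) - ((H θ : ℂ) - P θ) := by
          rw [hPπ]
          push_cast
          ring
        rw [e2]
        exact norm_sub_le _ _
      rw [Complex.norm_real, Real.norm_eq_abs] at e1
      have e3 : (H (permX π θ) - H θ) ^ 2 = |H (permX π θ) - H θ| ^ 2 := (sq_abs _).symm
      rw [e3]
      have e4 := pow_le_pow_left₀ (abs_nonneg _) e1 2
      refine e4.trans ?_
      rw [hf]
      dsimp only
      nlinarith [sq_nonneg (‖(H (permX π θ) : ℂ) - P (permX π θ)‖ - ‖(H θ : ℂ) - P θ‖)]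
    calc ∫ θ, (H (permX π θ) - H θ) ^ 2 ∂Q ≤ ∫ θ, (2 * f (permX π θ) + 2 * f θ) ∂Q :=
          integral_mono hi ((hfπi.const_mul _).add (hfi.const_mul _)) hpt
      _ = 2 * ∫ θ, f θ ∂Q + 2 * ∫ θ, f θ ∂Q := by
          rw [integral_add (hfπi.const_mul _) (hfi.const_mul _), integral_const_mul,
            integral_const_mul, hfπ]
      _ ≤ 0 + ε := by linarith
  have h0 : ∫ θ, (H (permX π θ) - H θ) ^ 2 ∂Q = 0 :=
    le_antisymm key (integral_nonneg fun θ => sq_nonneg _)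
  have h1 := (integral_eq_zero_iff_of_nonneg (fun θ => sq_nonneg _) hi).1 h0
  filter_upwards [h1] with θ hθ
  have h2 : (H (permX π θ) - H θ) ^ 2 = 0 := hθ
  linarith [pow_eq_zero_iff (two_ne_zero) |>.1 h2]

end Pool.Agent.Lib.P3852C
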