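import Pool.Agent.Lib.P3852C.T1
import Pool.Agent.Lib.P3852C.DBasic

/-!
# 6.2: the maximiser

The set of the `Φ` with `InE F Φ` is closed in `(ℕ →₀ F) → ℝ` (`T1`: `InE.wild` together with the
other properties says that `gam Φ` is in the closed set `𝒟`; note that `gam Φ` is radial,
positive definite and `gam Φ 0 = 1`) and contained in `[-1,1]^A`, so it is compact. Enumerate `F` and
`A = ℕ →₀ F`. Maximise `Ψ Φ = ∑ 2^{-n} gam Φ (x n)` (continuous), then among the maximisers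
`Ψ₂ Φ = ∑ 2^{-n} Φ(a n)²`. `max`: `gam Φ ≤ gam Φ'` pointwise and `Ψ Φ' ≤ Ψ Φ` force equality.
`ext`: both are maximisers of `Ψ`, `Ψ₂` is strictly convex. `gam Φ x ≥ 0` for every `Φ` with `InE`
(`E (1/n²) |∑_{i<n} ψ_i(x)|² ≥ 0`, i.e. positive definiteness at the points `x δ_i`, gives
`1/n + (1 - 1/n) gam Φ x ≥ 0`), so `Ψ Φ ≥ Ψ Φ₀ > 2^{-n₀}`, `x n₀ = 0`, gives some `x ≠ 0` with
`gam Φ x > 0`.
-/

set_option autoImplicit false

namespace Pool.Agent.Lib.P3852C

namespace EMaxAux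

open Filter Topology

variable {F : Subfield ℂ}

theorem exists_perm {i j : ℕ} (h : i ≠ j) : ∃ π : Equiv.Perm ℕ, π 0 = i ∧ π 1 = j := by
  refine ⟨Equiv.swap (Equiv.swap 0 i 1) j * Equiv.swap 0 i, ?_, ?_⟩
  · rw [Equiv.Perm.mul_apply, Equiv.swap_apply_left]
    have h1 : i ≠ Equiv.swap 0 i 1 := by
      intro h2
      have h3 : Equiv.swap 0 i 0 = Equiv.swap 0 i 1 := by rw [Equiv.swap_apply_left]; exact h2
      exact absurd ((Equiv.swap 0 i).injective h3) (by norm_num)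
    exact Equiv.swap_apply_of_ne_of_ne h1 h
  · rw [Equiv.Perm.mul_apply, Equiv.swap_apply_left]

theorem phi_pair {Φ : (ℕ →₀ F) → ℝ} (h : InE F Φ) (x : F) {i j : ℕ} (hij : i ≠ j) :
    Φ (Finsupp.single i x - Finsupp.single j x) = gam Φ x := by
  obtain ⟨π, h0, h1⟩ := exists_perm hij
  have h2 := h.exch π (Finsupp.single 0 x - Finsupp.single 1 x)
  have h3 : Finsupp.mapDomain π (Finsupp.single 0 x - Finsupp.single 1 x) =
      Finsupp.single i x - Finsupp.single j x := by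
    have h4 := map_sub (Finsupp.mapDomain.addMonoidHom (M := F) π) (Finsupp.single 0 x)
      (Finsupp.single 1 x)
    simp only [Finsupp.mapDomain.addMonoidHom, AddMonoidHom.coe_mk, ZeroHom.coe_mk,
      Finsupp.mapDomain_single, h0, h1] at h4
    exact h4
  rw [h3] at h2
  exact h2

noncomputable def ee : F →+ (ℕ →₀ F) := Finsupp.singleAddHom 0 - Finsupp.singleAddHom 1

theorem ee_apply (x : F) : ee x = Finsupp.single 0 x - Finsupp.single 1 x := rfl

theorem ee_inj : Function.Injective (ee : F →+ (ℕ →₀ F)) := by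
  intro x y h
  have h1 := DFunLike.congr_fun h 0
  simpa [ee_apply] using h1

theorem pd_comp {A B : Type} [AddCommGroup A] [AddCommGroup B] {c : B → ℝ} (h : PD c)
    (α : A →+ B) (hα : Function.Injective α) : PD (fun x => c (α x)) := by
  constructor
  · intro x
    show c (α (-x)) = c (α x)
    rw [map_neg, h.even]
  · intro s a
    have h1 := h.pos (s.map ⟨α, hα⟩) (Function.extend α a 0)
    simp only [Finset.sum_map, Function.Embedding.coeFn_mk, hα.extend_apply] at h1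
    simpa only [map_sub] using h1

theorem isClosed_PD {A : Type} [AddCommGroup A] : IsClosed {c : A → ℝ | PD c} := by
  have h : {c : A → ℝ | PD c} = (⋂ x : A, {c : A → ℝ | c (-x) = c x}) ∩
      ⋂ s : Finset A, ⋂ a : A → ℝ, {c : A → ℝ | 0 ≤ ∑ x ∈ s, ∑ y ∈ s, a x * a y * c (x - y)} := by
    ext c
    simp only [Set.mem_inter_iff, Set.mem_iInter]
    constructor
    · intro h
      exact ⟨h.even, h.pos⟩
    · intro h
      exact ⟨h.1, h.2⟩
  rw [h]
  have hc : ∀ (s : Finset A) (a : A → ℝ),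
      Continuous fun c : A → ℝ => ∑ x ∈ s, ∑ y ∈ s, a x * a y * c (x - y) := fun s a =>
    continuous_finsetSum _ fun x _ => continuous_finsetSum _ fun y _ =>
      continuous_const.mul (continuous_apply _)
  have k1 : IsClosed (⋂ x : A, {c : A → ℝ | c (-x) = c x}) :=
    isClosed_iInter fun x => isClosed_eq (continuous_apply (-x)) (continuous_apply x)
  have k2 : IsClosed (⋂ s : Finset A, ⋂ a : A → ℝ,
      {c : A → ℝ | 0 ≤ ∑ x ∈ s, ∑ y ∈ s, a x * a y * c (x - y)}) :=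
    isClosed_iInter fun s => isClosed_iInter fun a => isClosed_le continuous_const (hc s a)
  exact k1.inter k2

end EMaxAux

open EMaxAux

theorem InE.gam_nonneg {F : Subfield ℂ} {Φ : (ℕ →₀ F) → ℝ} (h : InE F Φ) (x : F) :
    0 ≤ gam Φ x := by
  by_cases hx : x = 0
  · subst hx
    unfold gam
    simp [h.one]
  have key : ∀ n : ℕ, 0 ≤ (n : ℝ) + n * (n - 1) * gam Φ x := by
    intro n
    have hinj : Function.Injective (fun i : ℕ => (Finsupp.single i x : ℕ →₀ F)) :=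
      fun i j hij => (Finsupp.single_left_inj hx).1 hij
    have h1 := h.pd.pos ((Finset.range n).map ⟨_, hinj⟩) (fun _ => 1)
    simp only [Finset.sum_map, Function.Embedding.coeFn_mk, one_mul] at h1
    have h2 : ∀ i ∈ Finset.range n, ∑ j ∈ Finset.range n,
        Φ (Finsupp.single i x - Finsupp.single j x) = 1 + (n - 1) * gam Φ x := by
      intro i hi
      rw [← Finset.add_sum_erase _ _ hi, sub_self, h.one]
      congr 1
      rw [Finset.sum_congr rfl (g := fun _ => gam Φ x) fun j hj =>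
        phi_pair h x (Finset.ne_of_mem_erase hj).symm, Finset.sum_const, Finset.card_erase_of_mem hi,
        Finset.card_range, nsmul_eq_mul]
      have : 1 ≤ n := by
        have := Finset.mem_range.1 hi
        omega
      push_cast [Nat.cast_sub this]
      ring
    rw [Finset.sum_congr rfl h2, Finset.sum_const, Finset.card_range, nsmul_eq_mul] at h1
    linarith
  by_contra hneg
  push Not at hneg
  obtain ⟨n, hn⟩ := exists_nat_gt (1 / (-gam Φ x) + 1)
  have h1 := key n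
  have hg : 0 < -gam Φ x := by linarith
  have h2 : 0 < 1 / (-gam Φ x) := by positivity
  have h3 : (1 : ℝ) < n := by linarith
  have h4 : 1 / (-gam Φ x) < n - 1 := by linarith
  rw [div_lt_iff₀ hg] at h4
  nlinarith

theorem InE.gam_inD {F : Subfield ℂ} (hF : GoodField F) {Φ : (ℕ →₀ F) → ℝ} (h : InE F Φ) :
    InD F (gam Φ) := by
  refine ⟨pd_comp h.pd ee ee_inj, ?_, ?_, h.wild⟩
  · unfold gam
    simp [h.one]
  · rw [hF.radial_iff]
    intro γ x
    have h1 := h.rot γ (Finsupp.single 0 x - Finsupp.single 1 x)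
    rw [smul_sub, Finsupp.smul_single, Finsupp.smul_single, smul_eq_mul] at h1
    exact h1

namespace EMaxAux

open Filter Topology

variable {F : Subfield ℂ}

theorem isClosed_E (hF : GoodField F) : IsClosed {Φ : (ℕ →₀ F) → ℝ | InE F Φ} := by
  have h : {Φ : (ℕ →₀ F) → ℝ | InE F Φ} = {Φ | PD Φ} ∩ ({Φ | Φ 0 = 1} ∩
      ((⋂ (γ : Gam F) (x : ℕ →₀ F), {Φ | Φ (toF γ • x) = Φ x}) ∩
      ((⋂ (π : Equiv.Perm ℕ) (x : ℕ →₀ F), {Φ | Φ (Finsupp.mapDomain π x) = Φ x}) ∩
      (fun Φ : (ℕ →₀ F) → ℝ => gam Φ) ⁻¹' {c | InD F c}))) := by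
    ext Φ
    simp only [Set.mem_inter_iff, Set.mem_iInter, Set.mem_preimage]
    constructor
    · intro h
      exact ⟨h.pd, h.one, h.rot, h.exch, h.gam_inD hF⟩
    · rintro ⟨h1, h2, h3, h4, h5⟩
      exact ⟨h1, h2, h3, h4, h5.wild⟩
  rw [h]
  have k1 : IsClosed {Φ : (ℕ →₀ F) → ℝ | Φ 0 = 1} :=
    isClosed_eq (continuous_apply _) continuous_const
  have k2 : IsClosed (⋂ (γ : Gam F) (x : ℕ →₀ F), {Φ : (ℕ →₀ F) → ℝ | Φ (toF γ • x) = Φ x}) :=
    isClosed_iInter fun γ => isClosed_iInter fun x =>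
      isClosed_eq (continuous_apply (toF γ • x)) (continuous_apply x)
  have k3 : IsClosed (⋂ (π : Equiv.Perm ℕ) (x : ℕ →₀ F),
      {Φ : (ℕ →₀ F) → ℝ | Φ (Finsupp.mapDomain π x) = Φ x}) :=
    isClosed_iInter fun π => isClosed_iInter fun x =>
      isClosed_eq (continuous_apply (Finsupp.mapDomain π x)) (continuous_apply x)
  have k4 : Continuous (fun Φ : (ℕ →₀ F) → ℝ => gam Φ) :=
    continuous_pi fun x => continuous_apply (Finsupp.single 0 x - Finsupp.single 1 x)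
  exact isClosed_PD.inter (k1.inter (k2.inter (k3.inter ((T1 hF).preimage k4))))

theorem isCompact_E (hF : GoodField F) : IsCompact {Φ : (ℕ →₀ F) → ℝ | InE F Φ} := by
  refine (isCompact_univ_pi (fun _ : ℕ →₀ F => isCompact_Icc (a := (-1 : ℝ)) (b := 1))).of_isClosed_subset
    (isClosed_E hF) ?_
  intro Φ h
  rw [Set.mem_univ_pi]
  intro x
  have h1 := PD.abs_le (InE.pd h) (InE.one h) x
  exact abs_le.1 h1

/-- weighted sums -/
noncomputable def W (f : ℕ → ℝ) : ℝ := ∑' n, (1 / 2 : ℝ) ^ n * f n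

theorem summ {f : ℕ → ℝ} {C : ℝ} (h : ∀ n, |f n| ≤ C) :
    Summable (fun n => (1 / 2 : ℝ) ^ n * f n) := by
  refine Summable.of_norm_bounded (g := fun n => (1 / 2 : ℝ) ^ n * C)
    (summable_geometric_two.mul_right C) fun n => ?_
  rw [norm_mul, Real.norm_of_nonneg (by positivity), Real.norm_eq_abs]
  exact mul_le_mul_of_nonneg_left (h n) (by positivity)

theorem W_le {f g : ℕ → ℝ} {C : ℝ} (hf : ∀ n, |f n| ≤ C) (hg : ∀ n, |g n| ≤ C)
    (h : ∀ n, f n ≤ g n) : W f ≤ W g :=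
  (summ hf).tsum_le_tsum (fun n => mul_le_mul_of_nonneg_left (h n) (by positivity)) (summ hg)

theorem W_lt {f g : ℕ → ℝ} {C : ℝ} (hf : ∀ n, |f n| ≤ C) (hg : ∀ n, |g n| ≤ C)
    (h : ∀ n, f n ≤ g n) (m : ℕ) (hm : f m < g m) : W f < W g :=
  (summ hf).tsum_lt_tsum (i := m) (fun n => mul_le_mul_of_nonneg_left (h n) (by positivity))
    (mul_lt_mul_of_pos_left hm (by positivity)) (summ hg)

theorem W_add {f g : ℕ → ℝ} {C : ℝ} (hf : ∀ n, |f n| ≤ C) (hg : ∀ n, |g n| ≤ C) :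
    W (fun n => f n + g n) = W f + W g := by
  unfold W
  rw [← (summ hf).tsum_add (summ hg)]
  congr 1
  funext n
  ring

theorem W_smul (f : ℕ → ℝ) (c : ℝ) : W (fun n => c * f n) = c * W f := by
  unfold W
  rw [← tsum_mul_left]
  congr 1
  funext n
  ring

theorem W_cont {α : Type} [TopologicalSpace α] {S : Set α} {f : ℕ → α → ℝ} {C : ℝ}
    (hf : ∀ n, Continuous (f n)) (hb : ∀ n x, x ∈ S → |f n x| ≤ C) :
    ContinuousOn (fun x => W (fun n => f n x)) S := by
  refine continuousOn_tsum (u := fun n => (1 / 2 : ℝ) ^ n * C)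
    (fun n => (continuous_const.mul (hf n)).continuousOn) (summable_geometric_two.mul_right C) ?_
  intro n x hx
  rw [norm_mul, Real.norm_of_nonneg (by positivity), Real.norm_eq_abs]
  exact mul_le_mul_of_nonneg_left (hb n x hx) (by positivity)

theorem gam_abs {Φ : (ℕ →₀ F) → ℝ} (h : InE F Φ) (x : F) : |gam Φ x| ≤ 1 :=
  PD.abs_le h.pd h.one _

end EMaxAux

theorem exists_max {F : Subfield ℂ} (hF : GoodField F) {Φ₀ : (ℕ →₀ F) → ℝ} (h : InE F Φ₀)
    {x₀ : F} (hx : x₀ ≠ 0) (h0 : 0 < gam Φ₀ x₀) :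
    ∃ Φ : (ℕ →₀ F) → ℝ, IsMaxE F Φ ∧ ∃ x : F, x ≠ 0 ∧ 0 < gam Φ x := by
  have := hF.ctb
  obtain ⟨xs, hxs⟩ := exists_surjective_nat F
  obtain ⟨as, has⟩ := exists_surjective_nat (ℕ →₀ F)
  have hE := isCompact_E hF
  have hEc := isClosed_E hF
  have ab : ∀ {Φ : (ℕ →₀ F) → ℝ}, InE F Φ → ∀ a, |Φ a| ≤ 1 := fun h a => PD.abs_le h.pd h.one a
  have c1 : ContinuousOn (fun Φ : (ℕ →₀ F) → ℝ => W (fun n => gam Φ (xs n)))
      {Φ | InE F Φ} :=
    W_cont (C := 1) (f := fun n (Φ : (ℕ →₀ F) → ℝ) => gam Φ (xs n))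
      (fun n => continuous_apply (Finsupp.single 0 (xs n) - Finsupp.single 1 (xs n)))
      fun n Φ hΦ => gam_abs hΦ _
  obtain ⟨Φ1, hΦ1, hmax1⟩ := hE.exists_isMaxOn ⟨Φ₀, h⟩ c1
  obtain ⟨m, hm⟩ : ∃ m : ℝ, m = W (fun n => gam Φ1 (xs n)) := ⟨_, rfl⟩
  have hmax1' : ∀ Φ, InE F Φ → W (fun n => gam Φ (xs n)) ≤ m := fun Φ hΦ => by
    rw [hm]; exact hmax1 hΦ
  have hE1 : IsCompact ({Φ | InE F Φ} ∩
      (fun Φ : (ℕ →₀ F) → ℝ => W (fun n => gam Φ (xs n))) ⁻¹' {m}) :=
    hE.of_isClosed_subset (c1.preimage_isClosed_of_isClosed hEc isClosed_singleton)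
      Set.inter_subset_left
  have c2 : ContinuousOn (fun Φ : (ℕ →₀ F) → ℝ => W (fun n => Φ (as n) ^ 2))
      ({Φ | InE F Φ} ∩ (fun Φ : (ℕ →₀ F) → ℝ => W (fun n => gam Φ (xs n))) ⁻¹' {m}) :=
    W_cont (C := 1) (f := fun n (Φ : (ℕ →₀ F) → ℝ) => Φ (as n) ^ 2)
      (fun n => (continuous_apply (as n)).pow 2)
      fun n Φ hΦ => by
        rw [abs_of_nonneg (sq_nonneg _), ← sq_abs]
        exact pow_le_one₀ (abs_nonneg _) (ab hΦ.1 _)
  obtain ⟨Φ, hΦ, hmax2⟩ := hE1.exists_isMaxOn ⟨Φ1, hΦ1, hm.symm⟩ c2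
  have hΦE : InE F Φ := hΦ.1
  have hΦm : W (fun n => gam Φ (xs n)) = m := hΦ.2
  have gb : ∀ {Φ : (ℕ →₀ F) → ℝ}, InE F Φ → ∀ n, |gam Φ (xs n)| ≤ 1 := fun h n => gam_abs h _
  refine ⟨Φ, ⟨hΦE, ?_, ?_⟩, ?_⟩
  · intro Φ' h' hle x
    by_contra hne
    obtain ⟨n, hn⟩ := hxs x
    have h1 : W (fun n => gam Φ (xs n)) < W (fun n => gam Φ' (xs n)) :=
      W_lt (gb hΦE) (gb h') (fun n => hle _) n (by
        rw [hn]
        exact lt_of_le_of_ne (hle x) (Ne.symm hne))
    have h2 := hmax1' Φ' h'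
    linarith
  · intro Φ₁ Φ₂ h1 h2 heq
    have e1 : W (fun n => gam Φ (xs n)) =
        (1 / 2) * (W (fun n => gam Φ₁ (xs n)) + W (fun n => gam Φ₂ (xs n))) := by
      rw [← W_add (gb h1) (gb h2), ← W_smul]
      congr 1
      funext n
      unfold gam
      rw [heq]
      ring
    have m1 := hmax1' Φ₁ h1
    have m2 := hmax1' Φ₂ h2
    have k1 : W (fun n => gam Φ₁ (xs n)) = m := by linarith
    have k2 : W (fun n => gam Φ₂ (xs n)) = m := by linarith
    have q1 : W (fun n => Φ₁ (as n) ^ 2) ≤ W (fun n => Φ (as n) ^ 2) := hmax2 ⟨h1, k1⟩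
    have q2 : W (fun n => Φ₂ (as n) ^ 2) ≤ W (fun n => Φ (as n) ^ 2) := hmax2 ⟨h2, k2⟩
    have b : ∀ {Φ : (ℕ →₀ F) → ℝ}, InE F Φ → ∀ n, |Φ (as n) ^ 2| ≤ 4 := fun h n => by
      rw [abs_of_nonneg (sq_nonneg _), ← sq_abs]
      have := pow_le_one₀ (n := 2) (abs_nonneg _) (ab h (as n))
      linarith
    have bd : ∀ n, |(Φ₁ (as n) - Φ₂ (as n)) ^ 2| ≤ 4 := fun n => by
      rw [abs_of_nonneg (sq_nonneg _)]
      have h3 := abs_le.1 (ab h1 (as n))
      have h4 := abs_le.1 (ab h2 (as n))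
      nlinarith
    have e2 : W (fun n => Φ₁ (as n) ^ 2) + W (fun n => Φ₂ (as n) ^ 2) =
        2 * W (fun n => Φ (as n) ^ 2) + (1 / 2) * W (fun n => (Φ₁ (as n) - Φ₂ (as n)) ^ 2) := by
      rw [← W_add (b h1) (b h2), ← W_smul, ← W_smul,
        ← W_add (C := 8) (fun n => by
          have := b hΦE n
          rw [abs_mul]
          norm_num
          rw [abs_of_nonneg (sq_nonneg _)] at this
          linarith) (fun n => by
          have := bd n
          rw [abs_mul]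
          norm_num
          rw [abs_of_nonneg (sq_nonneg _)] at this
          linarith)]
      congr 1
      funext n
      rw [heq]
      ring
    have e3 : W (fun n => (Φ₁ (as n) - Φ₂ (as n)) ^ 2) ≤ 0 := by linarith
    funext a
    by_contra hne
    obtain ⟨n, hn⟩ := has a
    have h5 : W (fun _ => (0 : ℝ)) < W (fun n => (Φ₁ (as n) - Φ₂ (as n)) ^ 2) :=
      W_lt (C := 4) (fun n => by norm_num) bd (fun n => sq_nonneg _) n (by
        rw [hn]
        have : Φ₁ a - Φ₂ a ≠ 0 := sub_ne_zero.2 hne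
        positivity)
    have h6 : W (fun _ => (0 : ℝ)) = 0 := by unfold W; simp
    linarith
  · by_contra hcon
    push Not at hcon
    classical
    have hz : ∀ {Φ : (ℕ →₀ F) → ℝ}, InE F Φ → gam Φ 0 = 1 := fun h => by
      unfold gam; simp [h.one]
    have h1 : W (fun n => gam Φ (xs n)) ≤ W (fun n => if xs n = 0 then 1 else 0) :=
      W_le (C := 1) (gb hΦE) (fun n => by split_ifs <;> norm_num) fun n => by
        by_cases hn : xs n = 0
        · rw [if_pos hn, hn, hz hΦE]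
        · rw [if_neg hn]
          exact hcon _ hn
    obtain ⟨n, hn⟩ := hxs x₀
    have h2 : W (fun n => if xs n = 0 then (1 : ℝ) else 0) < W (fun n => gam Φ₀ (xs n)) :=
      W_lt (C := 1) (fun n => by split_ifs <;> norm_num) (gb h) (fun n => by
        by_cases hn : xs n = 0
        · rw [if_pos hn, hn, hz h]
        · rw [if_neg hn]
          exact h.gam_nonneg _) n (by
        rw [hn, if_neg hx]
        exact h0)
    have h3 := hmax1' Φ₀ h
    linarith

end Pool.Agent.Lib.P3852C
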