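import Pool.Agent.Lib.P3852C.EInv

/-!
# 6.3 (a): the first perturbation, definitions

`H` real, `|H| ≤ 1`, rotation invariant, invariant under the permutations fixing the indices `≤ k`
(`FixK`). `H_i = H ∘ permX (swap 0 i)` for `i > k`: if `π` fixes `0..k` pointwise and maps `i` to `j` then
`H_i ∘ permX π = H_j` a.e. (`permX (swap 0 i) (permX π θ) = permX (π * swap 0 i) θ` and
`π * swap 0 i = swap 0 j * ρ` with `ρ` fixing `0..k`).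
The pairs: `σ i = k+1+2i`, `σ' i = k+2+2i`, `u_i = H_{σ i} - H_{σ' i}`, `t = 1/8`.
-/

set_option autoImplicit false

namespace Pool.Agent.Lib.P3852C

open MeasureTheory

variable {F : Subfield ℂ}

/-- `H_i - H_j` -/
noncomputable def dH (H : X (ℕ →₀ F) → ℝ) (i j : ℕ) (θ : X (ℕ →₀ F)) : ℝ :=
  H (permX (Equiv.swap 0 i) θ) - H (permX (Equiv.swap 0 j) θ)

/-- the first index of the `i`-th pair -/
def sgA (k i : ℕ) : ℕ := k + 1 + 2 * i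

/-- the second index of the `i`-th pair -/
def sgB (k i : ℕ) : ℕ := k + 2 + 2 * i

/-- `∏_{i ∈ I} (1 + e u_i)`; used for `e = ± 1/8` -/
noncomputable def dens (H : X (ℕ →₀ F) → ℝ) (k : ℕ) (e : ℝ) (I : Finset ℕ) (θ : X (ℕ →₀ F)) : ℝ :=
  ∏ i ∈ I, (1 + e * dH H (sgA k i) (sgB k i) θ)

/-- `∫ ev (σ x) (1/2) ∑_{±} ∏_{i ∈ I} (1 ± u_i/8) dQ` -/
noncomputable def PhiI (Q : Measure (X (ℕ →₀ F))) (k : ℕ) (H : X (ℕ →₀ F) → ℝ) (I : Finset ℕ)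
    (x : ℕ →₀ F) : ℂ :=
  ∫ θ, ev (Finsupp.mapDomain (sgA k) x) θ *
    (((dens H k (1 / 8) I θ + dens H k (-(1 / 8)) I θ) / 2 : ℝ) : ℂ) ∂Q

/-- the perturbed function -/
noncomputable def PhiP (Q : Measure (X (ℕ →₀ F))) (k : ℕ) (H : X (ℕ →₀ F) → ℝ) (x : ℕ →₀ F) : ℝ :=
  (PhiI Q k H x.support x).re

/-- `q x = ∫ ev (x δ_{k+1} - x δ_{k+3}) u_0 u_1` -/
noncomputable def qq (Q : Measure (X (ℕ →₀ F))) (k : ℕ) (H : X (ℕ →₀ F) → ℝ) (x : F) : ℝ :=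
  (∫ θ, ev (Finsupp.single (k + 1) x - Finsupp.single (k + 3) x : ℕ →₀ F) θ *
    ((dH H (k + 1) (k + 2) θ * dH H (k + 3) (k + 4) θ : ℝ) : ℂ) ∂Q).re

/-- the standing assumptions on `H` -/
structure HGood (Q : Measure (X (ℕ →₀ F))) (k : ℕ) (H : X (ℕ →₀ F) → ℝ) : Prop where
  meas : Measurable H
  bdd : ∀ θ, |H θ| ≤ 1
  rot : ∀ γ : Gam F, (fun θ => H (rotX γ θ)) =ᵐ[Q] H
  fix : FixK Q k H

end Pool.Agent.Lib.P3852C
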