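import Pool.Agent.Lib.P3852C.EPDefs

/-!
# 6.3 (a): transformation rules and independence of `I`

`dH_perm`: see EPDefs. `integral_fresh`: `∫ Z u_j = 0` if `Z ∘ permX (swap (σ j) (σ' j)) = Z` a.e., because
`u_j ∘ permX (swap (σ j) (σ' j)) = -u_j` a.e. and `permX` preserves `Q`.
`PhiI_indep`: add the indices of `I \ supp x` one by one; for `j ∉ supp x` the rest of the integrand is
invariant under `swap (σ j) (σ' j)` (it fixes `0..k` and the other pairs, and `σ x` is not moved).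
`PhiI_real`: `rotX (-1)` maps `ev y` to its conjugate and fixes `H` (a.e.).
-/

set_option autoImplicit false

namespace Pool.Agent.Lib.P3852C

open MeasureTheory

variable {F : Subfield ℂ}

namespace EPaAux

theorem swap_fix {k a b l : ℕ} (ha : k < a) (hb : k < b) (hl : l ≤ k) : Equiv.swap a b l = l :=
  Equiv.swap_apply_of_ne_of_ne (by omega) (by omega)

/-- the transformation rule for one term -/
theorem Hperm (hF : GoodField F) {Φ : (ℕ →₀ F) → ℝ} (h : InE F Φ)
    {Q : Measure (X (ℕ →₀ F))} [IsProbabilityMeasure Q] (hQ : Rep Q Φ) {k : ℕ}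
    {H : X (ℕ →₀ F) → ℝ} (hH : HGood Q k H) (π : Equiv.Perm ℕ) (hπ : ∀ i ≤ k, π i = i)
    (i : ℕ) (hi : k < i) :
    (fun θ => H (permX (Equiv.swap 0 i) (permX π θ))) =ᵐ[Q]
      fun θ => H (permX (Equiv.swap 0 (π i)) θ) := by
  have hπi : k < π i := by
    by_contra hc
    have h1 := hπ (π i) (not_lt.1 hc)
    have h2 := π.injective h1
    omega
  set ρ : Equiv.Perm ℕ := Equiv.swap 0 (π i) * π * Equiv.swap 0 i with hρ
  have hρk : ∀ l ≤ k, ρ l = l := by
    intro l hl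
    rw [hρ, Equiv.Perm.mul_apply, Equiv.Perm.mul_apply]
    rcases Nat.eq_zero_or_pos l with h0 | h0
    · rw [h0, Equiv.swap_apply_left, Equiv.swap_apply_right]
    · have h1 : Equiv.swap 0 i l = l := Equiv.swap_apply_of_ne_of_ne (by omega) (by omega)
      rw [h1, hπ l hl]
      exact Equiv.swap_apply_of_ne_of_ne (by omega) (by omega)
  have h1 : π * Equiv.swap 0 i = Equiv.swap 0 (π i) * ρ := by
    rw [hρ, ← mul_assoc, ← mul_assoc, Equiv.swap_mul_self, one_mul]
  have h2 := hH.fix ρ hρk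
  have h3 := (h.perm_mp hF Q hQ (Equiv.swap 0 (π i))).quasiMeasurePreserving.ae_eq_comp h2
  refine (Filter.EventuallyEq.of_eq ?_).trans h3
  funext θ
  rw [permX_comp, h1]
  show H (permX (Equiv.swap 0 (π i) * ρ) θ) = H (permX ρ (permX (Equiv.swap 0 (π i)) θ))
  rw [permX_comp]

theorem meas_dH {Q : Measure (X (ℕ →₀ F))} {k : ℕ} {H : X (ℕ →₀ F) → ℝ} (hH : HGood Q k H)
    (i j : ℕ) : Measurable (dH H i j) := by
  unfold dH
  exact (hH.meas.comp (measurable_pull _)).sub (hH.meas.comp (measurable_pull _))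

theorem dH_bdd {Q : Measure (X (ℕ →₀ F))} {k : ℕ} {H : X (ℕ →₀ F) → ℝ} (hH : HGood Q k H)
    (i j : ℕ) (θ : X (ℕ →₀ F)) : |dH H i j θ| ≤ 2 := by
  unfold dH
  have h1 := abs_le.1 (hH.bdd (permX (Equiv.swap 0 i) θ))
  have h2 := abs_le.1 (hH.bdd (permX (Equiv.swap 0 j) θ))
  rw [abs_le]
  constructor <;> linarith [h1.1, h1.2, h2.1, h2.2]

theorem meas_dens {Q : Measure (X (ℕ →₀ F))} {k : ℕ} {H : X (ℕ →₀ F) → ℝ} (hH : HGood Q k H)
    (e : ℝ) (I : Finset ℕ) : Measurable (dens H k e I) := by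
  unfold dens
  exact Finset.measurable_fun_prod I fun i _ => ((meas_dH hH _ _).const_mul e).const_add 1

theorem dens_bdd {Q : Measure (X (ℕ →₀ F))} {k : ℕ} {H : X (ℕ →₀ F) → ℝ} (hH : HGood Q k H)
    (e : ℝ) (I : Finset ℕ) (θ : X (ℕ →₀ F)) : |dens H k e I θ| ≤ (1 + |e| * 2) ^ I.card := by
  unfold dens
  rw [Finset.abs_prod, ← Finset.prod_const]
  refine Finset.prod_le_prod (fun _ _ => abs_nonneg _) fun i _ => ?_
  refine (abs_add_le _ _).trans ?_
  rw [abs_one, abs_mul]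
  have := mul_le_mul_of_nonneg_left (dH_bdd hH (sgA k i) (sgB k i) θ) (abs_nonneg e)
  linarith

theorem intble {Q : Measure (X (ℕ →₀ F))} [IsProbabilityMeasure Q] {f : X (ℕ →₀ F) → ℝ}
    (hf : Measurable f) {C : ℝ} (hC : ∀ θ, |f θ| ≤ C) (x : ℕ →₀ F) :
    Integrable (fun θ => ev x θ * ((f θ : ℝ) : ℂ)) Q := by
  refine Integrable.of_bound (C := C) ?_ (Filter.Eventually.of_forall fun θ => ?_)
  · exact ((measurable_ev x).mul (Complex.measurable_ofReal.comp hf)).aestronglyMeasurable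
  · rw [norm_mul, norm_ev, one_mul, Complex.norm_real]
    exact hC θ

/-- `permX` of a swap as an equivalence -/
noncomputable def sw (a b : ℕ) : X (ℕ →₀ F) ≃ᵐ X (ℕ →₀ F) where
  toFun := permX (Equiv.swap a b)
  invFun := permX (Equiv.swap a b)
  left_inv := fun θ => by
    rw [permX_comp, Equiv.swap_mul_self]
    ext x
    show _ = _
    simp [permX]
  right_inv := fun θ => by
    rw [permX_comp, Equiv.swap_mul_self]
    ext x
    simp [permX]
  measurable_toFun := measurable_pull _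
  measurable_invFun := measurable_pull _

end EPaAux

theorem dH_perm (hF : GoodField F) {Φ : (ℕ →₀ F) → ℝ} (h : InE F Φ)
    {Q : Measure (X (ℕ →₀ F))} [IsProbabilityMeasure Q] (hQ : Rep Q Φ) {k : ℕ}
    {H : X (ℕ →₀ F) → ℝ} (hH : HGood Q k H) (π : Equiv.Perm ℕ) (hπ : ∀ i ≤ k, π i = i)
    (i j : ℕ) (hi : k < i) (hj : k < j) :
    (fun θ => dH H i j (permX π θ)) =ᵐ[Q] dH H (π i) (π j) := by
  filter_upwards [EPaAux.Hperm hF h hQ hH π hπ i hi, EPaAux.Hperm hF h hQ hH π hπ j hj]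
    with θ h1 h2
  unfold dH
  rw [h1, h2]

theorem dH_rot (hF : GoodField F) {Φ : (ℕ →₀ F) → ℝ} (h : InE F Φ)
    {Q : Measure (X (ℕ →₀ F))} [IsProbabilityMeasure Q] (hQ : Rep Q Φ) {k : ℕ}
    {H : X (ℕ →₀ F) → ℝ} (hH : HGood Q k H) (γ : Gam F) (i j : ℕ) :
    (fun θ => dH H i j (rotX γ θ)) =ᵐ[Q] dH H i j := by
  have key : ∀ i : ℕ, (fun θ => H (permX (Equiv.swap 0 i) (rotX γ θ))) =ᵐ[Q]
      fun θ => H (permX (Equiv.swap 0 i) θ) := by
    intro i
    have h3 := (h.perm_mp hF Q hQ (Equiv.swap 0 i)).quasiMeasurePreserving.ae_eq_comp (hH.rot γ)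
    refine (Filter.EventuallyEq.of_eq ?_).trans h3
    funext θ
    rw [permX_rotX]
    rfl
  filter_upwards [key i, key j] with θ h1 h2
  unfold dH
  rw [h1, h2]

theorem integral_fresh (hF : GoodField F) {Φ : (ℕ →₀ F) → ℝ} (h : InE F Φ)
    {Q : Measure (X (ℕ →₀ F))} [IsProbabilityMeasure Q] (hQ : Rep Q Φ) {k : ℕ}
    {H : X (ℕ →₀ F) → ℝ} (hH : HGood Q k H) (Z : X (ℕ →₀ F) → ℂ) (a b : ℕ) (ha : k < a)
    (hb : k < b) (hZ : (fun θ => Z (permX (Equiv.swap a b) θ)) =ᵐ[Q] Z) :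
    ∫ θ, Z θ * ((dH H a b θ : ℝ) : ℂ) ∂Q = 0 := by
  have hmp : MeasurePreserving (EPaAux.sw (F := F) a b) Q Q :=
    h.perm_mp hF Q hQ (Equiv.swap a b)
  have h1 := hmp.integral_comp' (fun θ => Z θ * ((dH H a b θ : ℝ) : ℂ))
  have h2 : ∫ θ, Z (EPaAux.sw a b θ) * ((dH H a b (EPaAux.sw a b θ) : ℝ) : ℂ) ∂Q =
      ∫ θ, -(Z θ * ((dH H a b θ : ℝ) : ℂ)) ∂Q := by
    refine integral_congr_ae ?_
    have h3 := dH_perm hF h hQ hH (Equiv.swap a b)
      (fun i hi => EPaAux.swap_fix ha hb hi) a b ha hb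
    rw [Equiv.swap_apply_left, Equiv.swap_apply_right] at h3
    filter_upwards [hZ, h3] with θ h4 h5
    show Z (permX (Equiv.swap a b) θ) * ((dH H a b (permX (Equiv.swap a b) θ) : ℝ) : ℂ) = _
    rw [h4, h5]
    have h6 : dH H b a θ = -dH H a b θ := by
      unfold dH
      ring
    rw [h6]
    push_cast
    ring
  rw [h2, integral_neg] at h1
  have h3 : (2 : ℂ) * ∫ θ, Z θ * ((dH H a b θ : ℝ) : ℂ) ∂Q = 0 := by
    rw [two_mul]
    nth_rewrite 1 [← h1]
    exact neg_add_cancel _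
  exact (mul_eq_zero.1 h3).resolve_left two_ne_zero

namespace EPaAux

/-- the difference of the two densities is invariant under the swap of a fresh pair -/
theorem dens_swap (hF : GoodField F) {Φ : (ℕ →₀ F) → ℝ} (h : InE F Φ)
    {Q : Measure (X (ℕ →₀ F))} [IsProbabilityMeasure Q] (hQ : Rep Q Φ) {k : ℕ}
    {H : X (ℕ →₀ F) → ℝ} (hH : HGood Q k H) (e : ℝ) (I : Finset ℕ) (j : ℕ) (hj : j ∉ I) :
    (fun θ => dens H k e I (permX (Equiv.swap (sgA k j) (sgB k j)) θ)) =ᵐ[Q] dens H k e I := by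
  have hA : ∀ i, k < sgA k i := fun i => by unfold sgA; omega
  have hB : ∀ i, k < sgB k i := fun i => by unfold sgB; omega
  have h1 : ∀ i ∈ I, ∀ᵐ θ ∂Q,
      dH H (sgA k i) (sgB k i) (permX (Equiv.swap (sgA k j) (sgB k j)) θ) =
        dH H (sgA k i) (sgB k i) θ := by
    intro i hi
    have hij : i ≠ j := fun hc => hj (hc ▸ hi)
    have h3 := dH_perm hF h hQ hH (Equiv.swap (sgA k j) (sgB k j))
      (fun l hl => swap_fix (hA j) (hB j) hl) (sgA k i) (sgB k i) (hA i) (hB i)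
    have e1 : Equiv.swap (sgA k j) (sgB k j) (sgA k i) = sgA k i :=
      Equiv.swap_apply_of_ne_of_ne (by unfold sgA; omega) (by unfold sgA sgB; omega)
    have e2 : Equiv.swap (sgA k j) (sgB k j) (sgB k i) = sgB k i :=
      Equiv.swap_apply_of_ne_of_ne (by unfold sgA sgB; omega) (by unfold sgB; omega)
    rw [e1, e2] at h3
    exact h3
  have h2 := (Filter.eventually_all_finset I).2 h1
  filter_upwards [h2] with θ h3
  unfold dens
  exact Finset.prod_congr rfl fun i hi => by rw [h3 i hi]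

theorem indep_step (hF : GoodField F) {Φ : (ℕ →₀ F) → ℝ} (h : InE F Φ)
    {Q : Measure (X (ℕ →₀ F))} [IsProbabilityMeasure Q] (hQ : Rep Q Φ) {k : ℕ}
    {H : X (ℕ →₀ F) → ℝ} (hH : HGood Q k H) (I : Finset ℕ) (x : ℕ →₀ F) (j : ℕ) (hj : j ∉ I)
    (hx : x.support ⊆ I) : PhiI Q k H (insert j I) x = PhiI Q k H I x := by
  have hA : ∀ i, k < sgA k i := fun i => by unfold sgA; omega
  have hB : ∀ i, k < sgB k i := fun i => by unfold sgB; omega
  set y := Finsupp.mapDomain (sgA k) x with hy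
  set Z : X (ℕ →₀ F) → ℂ := fun θ =>
    ev y θ * (((dens H k (1 / 8) I θ - dens H k (-(1 / 8)) I θ) / 16 : ℝ) : ℂ) with hZdef
  have hZ : (fun θ => Z (permX (Equiv.swap (sgA k j) (sgB k j)) θ)) =ᵐ[Q] Z := by
    filter_upwards [dens_swap hF h hQ hH (1 / 8) I j hj, dens_swap hF h hQ hH (-(1 / 8)) I j hj]
      with θ h1 h2
    simp only [hZdef]
    rw [h1, h2, ev_permX]
    congr 2
    rw [hy, ← Finsupp.mapDomain_comp]
    refine Finsupp.mapDomain_congr fun i hi => ?_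
    have hij : i ≠ j := fun hc => hj (hc ▸ hx hi)
    exact Equiv.swap_apply_of_ne_of_ne (by unfold sgA; omega) (by unfold sgA sgB; omega)
  have h0 := integral_fresh hF h hQ hH Z (sgA k j) (sgB k j) (hA j) (hB j) hZ
  unfold PhiI
  rw [← hy]
  have hsplit : ∀ θ : X (ℕ →₀ F),
      ev y θ * (((dens H k (1 / 8) (insert j I) θ + dens H k (-(1 / 8)) (insert j I) θ) / 2 : ℝ) : ℂ) =
      ev y θ * (((dens H k (1 / 8) I θ + dens H k (-(1 / 8)) I θ) / 2 : ℝ) : ℂ) +
        Z θ * ((dH H (sgA k j) (sgB k j) θ : ℝ) : ℂ) := by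
    intro θ
    have e1 : ∀ e : ℝ, dens H k e (insert j I) θ =
        (1 + e * dH H (sgA k j) (sgB k j) θ) * dens H k e I θ := by
      intro e
      unfold dens
      rw [Finset.prod_insert hj]
    rw [e1, e1]
    simp only [hZdef]
    push_cast
    ring
  simp only [hsplit]
  have hmD : Measurable (fun θ => (dens H k (1 / 8) I θ + dens H k (-(1 / 8)) I θ) / 2) :=
    ((meas_dens hH _ I).add (meas_dens hH _ I)).div_const 2
  have hbD : ∀ θ, |(dens H k (1 / 8) I θ + dens H k (-(1 / 8)) I θ) / 2| ≤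
      ((1 + |(1 / 8 : ℝ)| * 2) ^ I.card + (1 + |(-(1 / 8) : ℝ)| * 2) ^ I.card) / 2 := by
    intro θ
    rw [abs_div, abs_two]
    refine div_le_div_of_nonneg_right ?_ (by norm_num)
    exact (abs_add_le _ _).trans (add_le_add (dens_bdd hH _ I θ) (dens_bdd hH _ I θ))
  have hmZ : Measurable (fun θ => (dens H k (1 / 8) I θ - dens H k (-(1 / 8)) I θ) / 16 *
      dH H (sgA k j) (sgB k j) θ) :=
    (((meas_dens hH _ I).sub (meas_dens hH _ I)).div_const 16).mul (meas_dH hH _ _)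
  have hbZ : ∀ θ, |(dens H k (1 / 8) I θ - dens H k (-(1 / 8)) I θ) / 16 *
      dH H (sgA k j) (sgB k j) θ| ≤
      ((1 + |(1 / 8 : ℝ)| * 2) ^ I.card + (1 + |(-(1 / 8) : ℝ)| * 2) ^ I.card) / 16 * 2 := by
    intro θ
    rw [abs_mul]
    refine mul_le_mul ?_ (dH_bdd hH _ _ θ) (abs_nonneg _) (by positivity)
    rw [abs_div, abs_of_pos (by norm_num : (0 : ℝ) < 16)]
    refine div_le_div_of_nonneg_right ?_ (by norm_num)
    exact (abs_sub _ _).trans (add_le_add (dens_bdd hH _ I θ) (dens_bdd hH _ I θ))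
  have hi2 : Integrable (fun θ => Z θ * ((dH H (sgA k j) (sgB k j) θ : ℝ) : ℂ)) Q := by
    have h4 := intble (Q := Q) hmZ hbZ y
    refine h4.congr (Filter.Eventually.of_forall fun θ => ?_)
    simp only [hZdef]
    push_cast
    ring
  rw [integral_add (intble hmD hbD y) hi2, h0, add_zero]

end EPaAux

theorem PhiI_indep (hF : GoodField F) {Φ : (ℕ →₀ F) → ℝ} (h : InE F Φ)
    {Q : Measure (X (ℕ →₀ F))} [IsProbabilityMeasure Q] (hQ : Rep Q Φ) {k : ℕ}
    {H : X (ℕ →₀ F) → ℝ} (hH : HGood Q k H) (I : Finset ℕ) (x : ℕ →₀ F) (hx : x.support ⊆ I) :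
    PhiI Q k H I x = PhiI Q k H x.support x := by
  classical
  have key : ∀ T : Finset ℕ, Disjoint x.support T →
      PhiI Q k H (x.support ∪ T) x = PhiI Q k H x.support x := by
    intro T
    induction T using Finset.induction_on with
    | empty => intro _; rw [Finset.union_empty]
    | insert j T hjT ih =>
      intro hd
      rw [Finset.disjoint_insert_right] at hd
      rw [Finset.union_insert, EPaAux.indep_step hF h hQ hH (x.support ∪ T) x j
        (fun hc => (Finset.mem_union.1 hc).elim hd.1 hjT) Finset.subset_union_left]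
      exact ih hd.2
  have h1 := key (I \ x.support) Finset.disjoint_sdiff
  rw [Finset.union_sdiff_of_subset hx] at h1
  exact h1

namespace EPaAux

/-- the rotation by `-1` -/
noncomputable def neg1 (F : Subfield ℂ) : Gam F := ⟨-1, by
  show ((-1 : Circle) : ℂ) ∈ F
  rw [Circle.coe_neg, Circle.coe_one]
  exact F.neg_mem F.one_mem⟩

theorem neg1_sq : neg1 F * neg1 F = 1 := by
  apply Subtype.ext
  show (-1 : Circle) * -1 = 1
  rw [neg_mul_neg, one_mul]

theorem toF_neg1 : toF (neg1 F) = -1 := by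
  apply Subtype.ext
  show ((-1 : Circle) : ℂ) = -1
  rw [Circle.coe_neg, Circle.coe_one]

theorem ev_neg1 (x : ℕ →₀ F) (θ : X (ℕ →₀ F)) :
    ev x (rotX (neg1 F) θ) = (starRingEnd ℂ) (ev x θ) := by
  rw [ev_rotX, toF_neg1, neg_one_smul, ev_neg]

/-- the rotation by `-1` as an equivalence -/
noncomputable def rt : X (ℕ →₀ F) ≃ᵐ X (ℕ →₀ F) where
  toFun := rotX (neg1 F)
  invFun := rotX (neg1 F)
  left_inv := fun θ => by
    rw [rotX_rotX, neg1_sq]
    ext x
    simp [rotX]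
  right_inv := fun θ => by
    rw [rotX_rotX, neg1_sq]
    ext x
    simp [rotX]
  measurable_toFun := measurable_pull _
  measurable_invFun := measurable_pull _

theorem dens_rot (hF : GoodField F) {Φ : (ℕ →₀ F) → ℝ} (h : InE F Φ)
    {Q : Measure (X (ℕ →₀ F))} [IsProbabilityMeasure Q] (hQ : Rep Q Φ) {k : ℕ}
    {H : X (ℕ →₀ F) → ℝ} (hH : HGood Q k H) (e : ℝ) (I : Finset ℕ) (γ : Gam F) :
    (fun θ => dens H k e I (rotX γ θ)) =ᵐ[Q] dens H k e I := by
  have h2 := (Filter.eventually_all_finset I).2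
    fun i (_ : i ∈ I) => dH_rot hF h hQ hH γ (sgA k i) (sgB k i)
  filter_upwards [h2] with θ h3
  unfold dens
  exact Finset.prod_congr rfl fun i hi => by rw [h3 i hi]

end EPaAux

theorem PhiI_real (hF : GoodField F) {Φ : (ℕ →₀ F) → ℝ} (h : InE F Φ)
    {Q : Measure (X (ℕ →₀ F))} [IsProbabilityMeasure Q] (hQ : Rep Q Φ) {k : ℕ}
    {H : X (ℕ →₀ F) → ℝ} (hH : HGood Q k H) (x : ℕ →₀ F) :
    PhiI Q k H x.support x = (PhiP Q k H x : ℂ) := by
  have hconj : (starRingEnd ℂ) (PhiI Q k H x.support x) = PhiI Q k H x.support x := by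
    unfold PhiI
    have hmp : MeasurePreserving (EPaAux.rt (F := F)) Q Q := h.rot_mp hF Q hQ (EPaAux.neg1 F)
    have h1 := hmp.integral_comp' (fun θ => ev (Finsupp.mapDomain (sgA k) x) θ *
      (((dens H k (1 / 8) x.support θ + dens H k (-(1 / 8)) x.support θ) / 2 : ℝ) : ℂ))
    rw [← integral_conj]
    refine Eq.trans ?_ h1
    refine integral_congr_ae ?_
    filter_upwards [EPaAux.dens_rot hF h hQ hH (1 / 8) x.support (EPaAux.neg1 F),
      EPaAux.dens_rot hF h hQ hH (-(1 / 8)) x.support (EPaAux.neg1 F)] with θ h2 h3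
    show _ = ev (Finsupp.mapDomain (sgA k) x) (rotX (EPaAux.neg1 F) θ) *
      (((dens H k (1 / 8) x.support (rotX (EPaAux.neg1 F) θ) +
        dens H k (-(1 / 8)) x.support (rotX (EPaAux.neg1 F) θ)) / 2 : ℝ) : ℂ)
    rw [h2, h3, EPaAux.ev_neg1, map_mul, Complex.conj_ofReal]
  unfold PhiP
  exact (Complex.conj_eq_iff_re.1 hconj).symm

end Pool.Agent.Lib.P3852C
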