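import Pool.Agent.Lib.P3852C.EPa

/-!
# 6.3 (a): positive definiteness and rotation invariance of the perturbed function

For a finite set `s` take `I ⊇` all supports of `x - y`, `x, y ∈ s`:
`∑ a x a y PhiP (x - y) = ∫ |∑ a x ev (σ x)|² D_I dQ ≥ 0` (`D_I ≥ 0` because `|u_i| ≤ 2`).
-/

set_option autoImplicit false

namespace Pool.Agent.Lib.P3852C

open MeasureTheory

variable {F : Subfield ℂ}

namespace EPbAux

/-- the density -/
noncomputable def DD (H : X (ℕ →₀ F) → ℝ) (k : ℕ) (I : Finset ℕ) (θ : X (ℕ →₀ F)) : ℝ :=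
  (dens H k (1 / 8) I θ + dens H k (-(1 / 8)) I θ) / 2

lemma meas_dH (hF : GoodField F) {H : X (ℕ →₀ F) → ℝ} (hH : Measurable H) (i j : ℕ) :
    Measurable (dH H i j) := by
  have hp : ∀ π : Equiv.Perm ℕ, Measurable (permX π : X (ℕ →₀ F) → X (ℕ →₀ F)) := fun π =>
    measurable_pull _
  exact (hH.comp (hp _)).sub (hH.comp (hp _))

lemma abs_dH_le {H : X (ℕ →₀ F) → ℝ} (hH : ∀ θ, |H θ| ≤ 1) (i j : ℕ) (θ : X (ℕ →₀ F)) :
    |dH H i j θ| ≤ 2 := by
  unfold dH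
  refine (abs_sub _ _).trans ?_
  linarith [hH (permX (Equiv.swap 0 i) θ), hH (permX (Equiv.swap 0 j) θ)]

lemma factor_bounds {H : X (ℕ →₀ F) → ℝ} (hH : ∀ θ, |H θ| ≤ 1) {e : ℝ} (he : |e| ≤ 1 / 8)
    (i j : ℕ) (θ : X (ℕ →₀ F)) : 0 ≤ 1 + e * dH H i j θ ∧ 1 + e * dH H i j θ ≤ 2 := by
  have h1 : |e * dH H i j θ| ≤ 1 / 4 := by
    rw [abs_mul]
    calc |e| * |dH H i j θ| ≤ 1 / 8 * 2 :=
          mul_le_mul he (abs_dH_le hH i j θ) (abs_nonneg _) (by norm_num)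
      _ = 1 / 4 := by norm_num
  have h2 := abs_le.1 h1
  constructor <;> linarith [h2.1, h2.2]

lemma dens_nonneg {H : X (ℕ →₀ F) → ℝ} (hH : ∀ θ, |H θ| ≤ 1) {e : ℝ} (he : |e| ≤ 1 / 8)
    (k : ℕ) (I : Finset ℕ) (θ : X (ℕ →₀ F)) : 0 ≤ dens H k e I θ :=
  Finset.prod_nonneg fun _ _ => (factor_bounds hH he _ _ θ).1

lemma dens_le {H : X (ℕ →₀ F) → ℝ} (hH : ∀ θ, |H θ| ≤ 1) {e : ℝ} (he : |e| ≤ 1 / 8)
    (k : ℕ) (I : Finset ℕ) (θ : X (ℕ →₀ F)) : dens H k e I θ ≤ 2 ^ I.card := by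
  unfold dens
  calc ∏ i ∈ I, (1 + e * dH H (sgA k i) (sgB k i) θ) ≤ ∏ _i ∈ I, (2 : ℝ) :=
        Finset.prod_le_prod (fun _ _ => (factor_bounds hH he _ _ θ).1)
          fun _ _ => (factor_bounds hH he _ _ θ).2
    _ = 2 ^ I.card := by rw [Finset.prod_const]

lemma meas_dens (hF : GoodField F) {H : X (ℕ →₀ F) → ℝ} (hH : Measurable H) (k : ℕ) (e : ℝ)
    (I : Finset ℕ) : Measurable (dens H k e I) := by
  unfold dens
  exact Finset.measurable_prod _ fun i _ =>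
    ((meas_dH hF hH (sgA k i) (sgB k i)).const_mul e).const_add 1

lemma h8 : |(1 / 8 : ℝ)| ≤ 1 / 8 := by rw [abs_of_pos (by norm_num)]

lemma h8' : |(-(1 / 8) : ℝ)| ≤ 1 / 8 := by rw [abs_neg, abs_of_pos (by norm_num)]

lemma DD_nonneg {H : X (ℕ →₀ F) → ℝ} (hH : ∀ θ, |H θ| ≤ 1) (k : ℕ) (I : Finset ℕ)
    (θ : X (ℕ →₀ F)) : 0 ≤ DD H k I θ := by
  unfold DD
  linarith [dens_nonneg hH h8 k I θ, dens_nonneg hH h8' k I θ]

lemma DD_le {H : X (ℕ →₀ F) → ℝ} (hH : ∀ θ, |H θ| ≤ 1) (k : ℕ) (I : Finset ℕ)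
    (θ : X (ℕ →₀ F)) : DD H k I θ ≤ 2 ^ I.card := by
  unfold DD
  linarith [dens_le hH h8 k I θ, dens_le hH h8' k I θ]

lemma meas_DD (hF : GoodField F) {H : X (ℕ →₀ F) → ℝ} (hH : Measurable H) (k : ℕ)
    (I : Finset ℕ) : Measurable (DD H k I) :=
  ((meas_dens hF hH k _ I).add (meas_dens hF hH k _ I)).div_const 2

lemma PhiI_eq (Q : Measure (X (ℕ →₀ F))) (k : ℕ) (H : X (ℕ →₀ F) → ℝ) (I : Finset ℕ)
    (x : ℕ →₀ F) :
    PhiI Q k H I x = ∫ θ, ev (Finsupp.mapDomain (sgA k) x) θ * ((DD H k I θ : ℝ) : ℂ) ∂Q := rfl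

lemma int_evD (hF : GoodField F) {Q : Measure (X (ℕ →₀ F))} [IsProbabilityMeasure Q]
    {H : X (ℕ →₀ F) → ℝ} (hm : Measurable H) (hH : ∀ θ, |H θ| ≤ 1) (k : ℕ) (I : Finset ℕ)
    (y : ℕ →₀ F) : Integrable (fun θ => ev y θ * ((DD H k I θ : ℝ) : ℂ)) Q := by
  refine Integrable.of_bound (C := 2 ^ I.card) ?_ (Filter.Eventually.of_forall fun θ => ?_)
  · exact ((measurable_ev y).mul (Complex.measurable_ofReal.comp (meas_DD hF hm k I))).aestronglyMeasurable
  · rw [norm_mul, norm_ev, one_mul, Complex.norm_real, Real.norm_eq_abs,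
      abs_of_nonneg (DD_nonneg hH k I θ)]
    exact DD_le hH k I θ

end EPbAux

open EPbAux

theorem PhiP_pd (hF : GoodField F) {Φ : (ℕ →₀ F) → ℝ} (h : InE F Φ)
    {Q : Measure (X (ℕ →₀ F))} [IsProbabilityMeasure Q] (hQ : Rep Q Φ) {k : ℕ}
    {H : X (ℕ →₀ F) → ℝ} (hH : HGood Q k H) : PD (PhiP Q k H) ∧ PhiP Q k H 0 = 1 := by
  classical
  refine ⟨⟨fun x => ?_, fun s a => ?_⟩, ?_⟩
  · -- even
    unfold PhiP
    rw [Finsupp.support_neg, PhiI_eq, PhiI_eq]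
    have e1 : ∀ θ, ev (Finsupp.mapDomain (sgA k) (-x)) θ * ((DD H k x.support θ : ℝ) : ℂ) =
        (starRingEnd ℂ) (ev (Finsupp.mapDomain (sgA k) x) θ * ((DD H k x.support θ : ℝ) : ℂ)) := by
      intro θ
      have e2 : Finsupp.mapDomain (sgA k) (-x) = -Finsupp.mapDomain (sgA k) x :=
        (Finsupp.mapDomain.addMonoidHom (sgA k)).map_neg x
      rw [e2, ev_neg, map_mul, Complex.conj_ofReal]
    simp only [e1]
    rw [integral_conj, Complex.conj_re]
  · -- positivity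
    set I : Finset ℕ := (s ×ˢ s).biUnion fun p => (p.1 - p.2).support with hI
    have hsub : ∀ x ∈ s, ∀ y ∈ s, (PhiP Q k H (x - y) : ℂ) = PhiI Q k H I (x - y) := by
      intro x hx y hy
      rw [← PhiI_real hF h hQ hH (x - y)]
      refine (PhiI_indep hF h hQ hH I (x - y) ?_).symm
      have hmem : (x, y) ∈ s ×ˢ s := Finset.mk_mem_product hx hy
      exact Finset.subset_biUnion_of_mem (fun p : (ℕ →₀ F) × (ℕ →₀ F) => (p.1 - p.2).support)
        hmem
    have hsum : ((∑ x ∈ s, ∑ y ∈ s, a x * a y * PhiP Q k H (x - y) : ℝ) : ℂ) =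
        ∫ θ, (((‖∑ x ∈ s, (a x : ℂ) * ev (Finsupp.mapDomain (sgA k) x) θ‖ ^ 2 *
          DD H k I θ : ℝ)) : ℂ) ∂Q := by
      push_cast
      have e3 : ∀ x ∈ s, ∀ y ∈ s, (a x : ℂ) * (a y : ℂ) * (PhiP Q k H (x - y) : ℂ) =
          ∫ θ, (a x : ℂ) * (a y : ℂ) * (ev (Finsupp.mapDomain (sgA k) (x - y)) θ *
            ((DD H k I θ : ℝ) : ℂ)) ∂Q := by
        intro x hx y hy
        rw [hsub x hx y hy, PhiI_eq, integral_const_mul]
      rw [Finset.sum_congr rfl fun x hx => Finset.sum_congr rfl fun y hy => e3 x hx y hy]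
      have hint : ∀ x y : ℕ →₀ F, Integrable (fun θ => (a x : ℂ) * (a y : ℂ) *
          (ev (Finsupp.mapDomain (sgA k) (x - y)) θ * ((DD H k I θ : ℝ) : ℂ))) Q := fun x y =>
        (int_evD hF hH.meas hH.bdd k I _).const_mul _
      rw [Finset.sum_congr rfl fun x _ => (integral_finsetSum s fun y _ => hint x y).symm]
      rw [← integral_finsetSum s fun x _ => integrable_finsetSum s fun y _ => hint x y]
      refine integral_congr_ae (Filter.Eventually.of_forall fun θ => ?_)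
      show ∑ x ∈ s, ∑ y ∈ s, (a x : ℂ) * (a y : ℂ) *
          (ev (Finsupp.mapDomain (sgA k) (x - y)) θ * ((DD H k I θ : ℝ) : ℂ)) =
          ((‖∑ x ∈ s, (a x : ℂ) * ev (Finsupp.mapDomain (sgA k) x) θ‖ : ℝ) : ℂ) ^ 2 *
            ((DD H k I θ : ℝ) : ℂ)
      rw [← Complex.mul_conj', map_sum, Finset.sum_mul_sum, Finset.sum_mul]
      refine Finset.sum_congr rfl fun x _ => ?_
      rw [Finset.sum_mul]
      refine Finset.sum_congr rfl fun y _ => ?_
      have e4 : Finsupp.mapDomain (sgA k) (x - y) =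
          Finsupp.mapDomain (sgA k) x - Finsupp.mapDomain (sgA k) y :=
        (Finsupp.mapDomain.addMonoidHom (sgA k)).map_sub x y
      rw [e4, ev_sub, map_mul, Complex.conj_ofReal]
      ring
    have hsum2 := hsum.trans (integral_ofReal (μ := Q) (𝕜 := ℂ)
      (f := fun θ => ‖∑ x ∈ s, (a x : ℂ) * ev (Finsupp.mapDomain (sgA k) x) θ‖ ^ 2 *
          DD H k I θ))
    have hsum' := Complex.ofReal_injective hsum2
    rw [hsum']
    exact integral_nonneg fun θ => mul_nonneg (sq_nonneg _) (DD_nonneg hH.bdd k I θ)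
  · unfold PhiP
    rw [PhiI_eq]
    have e5 : ∀ θ : X (ℕ →₀ F), ev (Finsupp.mapDomain (sgA k) (0 : ℕ →₀ F)) θ *
        ((DD H k (0 : ℕ →₀ F).support θ : ℝ) : ℂ) = 1 := by
      intro θ
      rw [Finsupp.mapDomain_zero, ev_zero]
      unfold DD dens
      rw [Finsupp.support_zero, Finset.prod_empty, Finset.prod_empty]
      norm_num
    simp only [e5]
    simp

theorem PhiP_rot (hF : GoodField F) {Φ : (ℕ →₀ F) → ℝ} (h : InE F Φ)
    {Q : Measure (X (ℕ →₀ F))} [IsProbabilityMeasure Q] (hQ : Rep Q Φ) {k : ℕ}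
    {H : X (ℕ →₀ F) → ℝ} (hH : HGood Q k H) (γ : Gam F) (x : ℕ →₀ F) :
    PhiP Q k H (toF γ • x) = PhiP Q k H x := by
  classical
  have hγ : toF γ ≠ 0 := by
    intro h0
    have := norm_toF γ
    rw [h0] at this
    simp at this
  have hsupp : (toF γ • x).support = x.support := Finsupp.support_smul_eq hγ
  unfold PhiP
  rw [hsupp, PhiI_eq, PhiI_eq]
  congr 1
  have hmp := InE.rot_mp hF h Q hQ γ
  have hae : (fun θ => DD H k x.support (rotX γ θ)) =ᵐ[Q] DD H k x.support := by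
    have hall : ∀ᵐ θ ∂Q, ∀ i ∈ x.support, dH H (sgA k i) (sgB k i) (rotX γ θ) =
        dH H (sgA k i) (sgB k i) θ := by
      rw [Filter.eventually_all_finset]
      intro i _
      exact dH_rot hF h hQ hH γ _ _
    filter_upwards [hall] with θ hθ
    have hd : ∀ e : ℝ, dens H k e x.support (rotX γ θ) = dens H k e x.support θ := by
      intro e
      unfold dens
      exact Finset.prod_congr rfl fun i hi => by rw [hθ i hi]
    show (dens H k (1 / 8) x.support (rotX γ θ) + dens H k (-(1 / 8)) x.support (rotX γ θ)) / 2 =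
      (dens H k (1 / 8) x.support θ + dens H k (-(1 / 8)) x.support θ) / 2
    rw [hd, hd]
  have hmeas : Measurable (fun θ : X (ℕ →₀ F) => ev (Finsupp.mapDomain (sgA k) x) θ *
      ((DD H k x.support θ : ℝ) : ℂ)) :=
    (measurable_ev _).mul (Complex.measurable_ofReal.comp (meas_DD hF hH.meas k _))
  calc ∫ θ, ev (Finsupp.mapDomain (sgA k) (toF γ • x)) θ * ((DD H k x.support θ : ℝ) : ℂ) ∂Q
      = ∫ θ, ev (Finsupp.mapDomain (sgA k) x) (rotX γ θ) *
          ((DD H k x.support (rotX γ θ) : ℝ) : ℂ) ∂Q := by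
        refine integral_congr_ae ?_
        filter_upwards [hae] with θ hθ
        rw [hθ, ev_rotX, Finsupp.mapDomain_smul]
    _ = ∫ θ, ev (Finsupp.mapDomain (sgA k) x) θ * ((DD H k x.support θ : ℝ) : ℂ) ∂Q := by
        have := integral_map (μ := Q) hmp.measurable.aemeasurable
          (f := fun θ : X (ℕ →₀ F) => ev (Finsupp.mapDomain (sgA k) x) θ *
            ((DD H k x.support θ : ℝ) : ℂ)) hmeas.aestronglyMeasurable
        rw [hmp.map_eq] at this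
        exact this.symm

end Pool.Agent.Lib.P3852C
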