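import Pool.Agent.Lib.P3852C.EPa

/-!
# 6.3 (a): permutation invariance of the perturbed function

For `π : Perm ℕ` let `π'` be the permutation with `π' j = j` for `j ≤ k`, `π' (σ i) = σ (π i)`,
`π' (σ' i) = σ' (π i)`. Then `mapDomain π' (mapDomain σ x) = mapDomain σ (mapDomain π x)`,
`dens H k e I ∘ permX π' = dens H k e (I.map π)` a.e. (`dH_perm`), and `permX π'` preserves `Q`.
-/

set_option autoImplicit false

namespace Pool.Agent.Lib.P3852C

open MeasureTheory

variable {F : Subfield ℂ}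

namespace EPcAux

/-- the map of the blocks -/
def pp (k : ℕ) (f : ℕ → ℕ) (j : ℕ) : ℕ :=
  if j ≤ k then j else k + 1 + 2 * f ((j - (k + 1)) / 2) + (j - (k + 1)) % 2

theorem pp_le (k : ℕ) (f : ℕ → ℕ) (j : ℕ) (h : j ≤ k) : pp k f j = j := if_pos h

theorem pp_gt (k : ℕ) (f : ℕ → ℕ) (i r : ℕ) (hr : r < 2) :
    pp k f (k + 1 + 2 * i + r) = k + 1 + 2 * f i + r := by
  have h0 : ¬ k + 1 + 2 * i + r ≤ k := by omega
  have h1 : (k + 1 + 2 * i + r - (k + 1)) / 2 = i := by omega
  have h2 : (k + 1 + 2 * i + r - (k + 1)) % 2 = r := by omega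
  rw [pp, if_neg h0, h1, h2]

theorem pp_pp (k : ℕ) (f g : ℕ → ℕ) (h : ∀ i, f (g i) = i) (j : ℕ) : pp k f (pp k g j) = j := by
  by_cases hj : j ≤ k
  · rw [pp_le k g j hj, pp_le k f j hj]
  · obtain ⟨i, r, hr, rfl⟩ : ∃ i r, r < 2 ∧ j = k + 1 + 2 * i + r :=
      ⟨(j - (k + 1)) / 2, (j - (k + 1)) % 2, Nat.mod_lt _ (by norm_num), by omega⟩
    rw [pp_gt k g i r hr, pp_gt k f (g i) r hr, h]

/-- the block permutation -/
def bp (k : ℕ) (π : Equiv.Perm ℕ) : Equiv.Perm ℕ where
  toFun := pp k π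
  invFun := pp k π.symm
  left_inv := pp_pp k _ _ (fun i => π.symm_apply_apply i)
  right_inv := pp_pp k _ _ (fun i => π.apply_symm_apply i)

theorem bp_le (k : ℕ) (π : Equiv.Perm ℕ) (j : ℕ) (h : j ≤ k) : bp k π j = j := pp_le k _ j h

theorem bp_sgA (k : ℕ) (π : Equiv.Perm ℕ) (i : ℕ) : bp k π (sgA k i) = sgA k (π i) :=
  pp_gt k π i 0 (by norm_num)

theorem bp_sgB (k : ℕ) (π : Equiv.Perm ℕ) (i : ℕ) : bp k π (sgB k i) = sgB k (π i) := by
  have h := pp_gt k π i 1 (by norm_num)
  have e1 : k + 1 + 2 * i + 1 = sgB k i := by unfold sgB; omega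
  have e2 : k + 1 + 2 * π i + 1 = sgB k (π i) := by unfold sgB; omega
  rw [e1, e2] at h
  exact h

theorem dH_measurable {H : X (ℕ →₀ F) → ℝ} (hm : Measurable H) (i j : ℕ) :
    Measurable (dH H i j) :=
  (hm.comp (measurable_pull _)).sub (hm.comp (measurable_pull _))

theorem dens_measurable {H : X (ℕ →₀ F) → ℝ} (hm : Measurable H) (k : ℕ) (e : ℝ) (I : Finset ℕ) :
    Measurable (dens H k e I) := by
  unfold dens
  exact Finset.measurable_prod I fun i _ => measurable_const.add ((dH_measurable hm _ _).const_mul e)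

end EPcAux

open EPcAux in
theorem PhiP_exch (hF : GoodField F) {Φ : (ℕ →₀ F) → ℝ} (h : InE F Φ)
    {Q : Measure (X (ℕ →₀ F))} [IsProbabilityMeasure Q] (hQ : Rep Q Φ) {k : ℕ}
    {H : X (ℕ →₀ F) → ℝ} (hH : HGood Q k H) (π : Equiv.Perm ℕ) (x : ℕ →₀ F) :
    PhiP Q k H (Finsupp.mapDomain π x) = PhiP Q k H x := by
  classical
  have hsupp : (Finsupp.mapDomain π x).support = x.support.map π.toEmbedding := by
    rw [Finsupp.mapDomain_support_of_injective π.injective, Finset.map_eq_image]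
    rfl
  have hmap : Finsupp.mapDomain (sgA k) (Finsupp.mapDomain π x) =
      Finsupp.mapDomain (bp k π) (Finsupp.mapDomain (sgA k) x) := by
    rw [← Finsupp.mapDomain_comp, ← Finsupp.mapDomain_comp]
    congr 1
    funext i
    exact (bp_sgA k π i).symm
  have hdens : ∀ e : ℝ, (fun θ => dens H k e x.support (permX (bp k π) θ)) =ᵐ[Q]
      dens H k e (x.support.map π.toEmbedding) := by
    intro e
    have hall : ∀ᵐ θ ∂Q, ∀ i : ℕ, dH H (sgA k i) (sgB k i) (permX (bp k π) θ) =
        dH H (sgA k (π i)) (sgB k (π i)) θ := by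
      rw [ae_all_iff]
      intro i
      have h1 := dH_perm hF h hQ hH (bp k π) (fun j hj => bp_le k π j hj) (sgA k i) (sgB k i)
        (by unfold sgA; omega) (by unfold sgB; omega)
      rw [bp_sgA, bp_sgB] at h1
      exact h1
    filter_upwards [hall] with θ hθ
    unfold dens
    rw [Finset.prod_map]
    refine Finset.prod_congr rfl fun i _ => ?_
    rw [hθ i]
    rfl
  have key : PhiI Q k H (Finsupp.mapDomain π x).support (Finsupp.mapDomain π x) =
      PhiI Q k H x.support x := by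
    rw [hsupp]
    unfold PhiI
    rw [hmap]
    set f : X (ℕ →₀ F) → ℂ := fun θ => ev (Finsupp.mapDomain (sgA k) x) θ *
      (((dens H k (1 / 8) x.support θ + dens H k (-(1 / 8)) x.support θ) / 2 : ℝ) : ℂ) with hf
    have hfm : Measurable f := (measurable_ev _).mul (Complex.measurable_ofReal.comp
      (((dens_measurable hH.meas _ _ _).add (dens_measurable hH.meas _ _ _)).div_const 2))
    have hmp := h.perm_mp hF Q hQ (bp k π)
    have h1 : ∫ θ, f θ ∂Q = ∫ θ, f (permX (bp k π) θ) ∂Q := by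
      conv_lhs => rw [← hmp.map_eq]
      exact integral_map hmp.measurable.aemeasurable hfm.aestronglyMeasurable
    rw [h1]
    refine integral_congr_ae ?_
    filter_upwards [hdens (1 / 8), hdens (-(1 / 8))] with θ h2 h3
    rw [hf]
    simp only []
    rw [h2, h3]
    rfl
  unfold PhiP
  rw [key]

end Pool.Agent.Lib.P3852C
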