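import Pool.Agent.Lib.P3852C.EPa

/-!
# 6.3 (a): the differences of the perturbed law

`gam (PhiP) x = PhiI {0,1} (x δ_0 - x δ_1) = ∫ ev (x δ_{k+1} - x δ_{k+3}) (1 + u_0 u_1 / 64)` (the terms linear in
`±1/8` cancel), and `∫ ev (x δ_{k+1} - x δ_{k+3}) = gam Φ x` by exchangeability. Wildness:
`∑ w w gam (PhiP) (x-y) = ∫ |∑ w_x ev (x δ_{k+1} - x δ_{k+3})|² D ≤ (5/4)² ∑ w w gam Φ (x-y)`.
-/

set_option autoImplicit false

namespace Pool.Agent.Lib.P3852C

open MeasureTheory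

variable {F : Subfield ℂ}

/-- the difference element -/
private noncomputable def gx (F : Subfield ℂ) (k : ℕ) (x : F) : ℕ →₀ F :=
  Finsupp.single (k + 1) x - Finsupp.single (k + 3) x

private theorem gx_sub (k : ℕ) (x y : F) : gx F k (x - y) = gx F k x - gx F k y := by
  simp only [gx, Finsupp.single_sub]
  abel

/-- the density -/
private noncomputable def DD (k : ℕ) (H : X (ℕ →₀ F) → ℝ) (θ : X (ℕ →₀ F)) : ℝ :=
  1 + (1 / 64) * (dH H (k + 1) (k + 2) θ * dH H (k + 3) (k + 4) θ)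

private theorem supp_sub (x : F) :
    (Finsupp.single 0 x - Finsupp.single 1 x : ℕ →₀ F).support ⊆ {0, 1} := by
  intro i hi
  by_contra hc
  simp only [Finset.mem_insert, Finset.mem_singleton, not_or] at hc
  rw [Finsupp.mem_support_iff] at hi
  apply hi
  rw [Finsupp.sub_apply, Finsupp.single_apply, Finsupp.single_apply, if_neg (fun h => hc.1 h.symm),
    if_neg (fun h => hc.2 h.symm), sub_zero]

private theorem PhiI_pair (Q : Measure (X (ℕ →₀ F))) (k : ℕ) (H : X (ℕ →₀ F) → ℝ) (x : F) :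
    PhiI Q k H {0, 1} (Finsupp.single 0 x - Finsupp.single 1 x)
      = ∫ θ, ev (gx F k x) θ * ((DD k H θ : ℝ) : ℂ) ∂Q := by
  unfold PhiI
  congr 1
  funext θ
  have h1 : Finsupp.mapDomain (sgA k) (Finsupp.single 0 x - Finsupp.single 1 x : ℕ →₀ F)
      = gx F k x := by
    have h2 := (Finsupp.mapDomain.addMonoidHom (M := F) (sgA k)).map_sub (Finsupp.single 0 x)
      (Finsupp.single 1 x)
    have h3 : Finsupp.mapDomain (sgA k) (Finsupp.single 0 x - Finsupp.single 1 x : ℕ →₀ F)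
      = Finsupp.mapDomain (sgA k) (Finsupp.single 0 x) -
        Finsupp.mapDomain (sgA k) (Finsupp.single 1 x) := h2
    rw [h3, Finsupp.mapDomain_single, Finsupp.mapDomain_single]
    rfl
  rw [h1]
  congr 2
  unfold dens DD
  rw [Finset.prod_pair (by norm_num), Finset.prod_pair (by norm_num)]
  have e1 : sgA k 0 = k + 1 := rfl
  have e2 : sgB k 0 = k + 2 := rfl
  have e3 : sgA k 1 = k + 3 := rfl
  have e4 : sgB k 1 = k + 4 := rfl
  rw [e1, e2, e3, e4]
  ring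

private theorem dH_bd {H : X (ℕ →₀ F) → ℝ} (hb : ∀ θ, |H θ| ≤ 1) (i j : ℕ) (θ : X (ℕ →₀ F)) :
    |dH H i j θ| ≤ 2 := by
  unfold dH
  refine (abs_sub _ _).trans ?_
  have := hb (permX (Equiv.swap 0 i) θ)
  have := hb (permX (Equiv.swap 0 j) θ)
  linarith

private theorem DD_bd {H : X (ℕ →₀ F) → ℝ} (hb : ∀ θ, |H θ| ≤ 1) (k : ℕ) (θ : X (ℕ →₀ F)) :
    |DD k H θ| ≤ 25 / 16 := by
  unfold DD
  have h1 := dH_bd hb (k + 1) (k + 2) θ
  have h2 := dH_bd hb (k + 3) (k + 4) θ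
  have h3 : |dH H (k + 1) (k + 2) θ * dH H (k + 3) (k + 4) θ| ≤ 2 * 2 := by
    rw [abs_mul]
    exact mul_le_mul h1 h2 (abs_nonneg _) (by norm_num)
  rw [abs_le] at h3 ⊢
  constructor <;> linarith [h3.1, h3.2]

private theorem meas_permX (π : Equiv.Perm ℕ) :
    Measurable (permX π : X (ℕ →₀ F) → X (ℕ →₀ F)) := measurable_pull _

private theorem meas_dH {H : X (ℕ →₀ F) → ℝ} (hm : Measurable H) (i j : ℕ) :
    Measurable (dH H i j) :=
  (hm.comp (meas_permX _)).sub (hm.comp (meas_permX _))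

private theorem meas_DD {H : X (ℕ →₀ F) → ℝ} (hm : Measurable H) (k : ℕ) :
    Measurable (DD k H) :=
  measurable_const.add (((meas_dH hm _ _).mul (meas_dH hm _ _)).const_mul _)

private theorem rep_gx {Φ : (ℕ →₀ F) → ℝ} (h : InE F Φ)
    {Q : Measure (X (ℕ →₀ F))} (hQ : Rep Q Φ) (k : ℕ) (x : F) :
    ∫ θ, ev (gx F k x) θ ∂Q = ((gam Φ x : ℝ) : ℂ) := by
  rw [hQ (gx F k x)]
  congr 1
  unfold gam
  -- a permutation with `0 ↦ k+1`, `1 ↦ k+3`
  set π : Equiv.Perm ℕ := Equiv.swap 0 (k + 1) * Equiv.swap 1 (k + 3) with hπ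
  have h0 : π 0 = k + 1 := by
    have e : Equiv.swap 1 (k + 3) 0 = 0 :=
      Equiv.swap_apply_of_ne_of_ne (by omega) (by omega)
    rw [hπ, Equiv.Perm.mul_apply, e, Equiv.swap_apply_left]
  have h1 : π 1 = k + 3 := by
    have e : Equiv.swap 0 (k + 1) (k + 3) = k + 3 :=
      Equiv.swap_apply_of_ne_of_ne (by omega) (by omega)
    rw [hπ, Equiv.Perm.mul_apply, Equiv.swap_apply_left, e]
  rw [← h.exch π (Finsupp.single 0 x - Finsupp.single 1 x)]
  congr 1
  have h2 := (Finsupp.mapDomain.addMonoidHom (M := F) π).map_sub (Finsupp.single 0 x)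
      (Finsupp.single 1 x)
  have h3 : Finsupp.mapDomain π (Finsupp.single 0 x - Finsupp.single 1 x : ℕ →₀ F)
      = Finsupp.mapDomain π (Finsupp.single 0 x) -
        Finsupp.mapDomain π (Finsupp.single 1 x) := h2
  rw [h3, Finsupp.mapDomain_single, Finsupp.mapDomain_single, h0, h1]
  rfl

private theorem int_ev_DD {Q : Measure (X (ℕ →₀ F))} [IsProbabilityMeasure Q]
    {H : X (ℕ →₀ F) → ℝ} (hm : Measurable H) (hb : ∀ θ, |H θ| ≤ 1) (k : ℕ) (z : ℕ →₀ F) :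
    Integrable (fun θ => ev z θ * ((DD k H θ : ℝ) : ℂ)) Q := by
  refine Integrable.of_bound ((measurable_ev z).mul
    (Complex.measurable_ofReal.comp (meas_DD hm k))).aestronglyMeasurable (25 / 16) ?_
  refine Filter.Eventually.of_forall fun θ => ?_
  rw [norm_mul, norm_ev, one_mul, Complex.norm_real]
  exact DD_bd hb k θ

private theorem PhiP_pair (hF : GoodField F) {Φ : (ℕ →₀ F) → ℝ} (h : InE F Φ)
    {Q : Measure (X (ℕ →₀ F))} [IsProbabilityMeasure Q] (hQ : Rep Q Φ) {k : ℕ}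
    {H : X (ℕ →₀ F) → ℝ} (hH : HGood Q k H) (x : F) :
    gam (PhiP Q k H) x = (∫ θ, ev (gx F k x) θ * ((DD k H θ : ℝ) : ℂ) ∂Q).re := by
  unfold gam PhiP
  rw [← PhiI_indep hF h hQ hH {0, 1} _ (supp_sub x), PhiI_pair]

theorem PhiP_gam (hF : GoodField F) {Φ : (ℕ →₀ F) → ℝ} (h : InE F Φ)
    {Q : Measure (X (ℕ →₀ F))} [IsProbabilityMeasure Q] (hQ : Rep Q Φ) {k : ℕ}
    {H : X (ℕ →₀ F) → ℝ} (hH : HGood Q k H) (x : F) :
    gam (PhiP Q k H) x = gam Φ x + (1 / 64) * qq Q k H x := by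
  rw [PhiP_pair hF h hQ hH]
  have hI1 : Integrable (fun θ => ev (gx F k x) θ) Q :=
    Integrable.of_bound (measurable_ev _).aestronglyMeasurable 1
      (Filter.Eventually.of_forall fun θ => (norm_ev _ θ).le)
  have hI2 : Integrable (fun θ => ev (gx F k x) θ *
      ((dH H (k + 1) (k + 2) θ * dH H (k + 3) (k + 4) θ : ℝ) : ℂ)) Q := by
    refine Integrable.of_bound ((measurable_ev _).mul (Complex.measurable_ofReal.comp
      ((meas_dH hH.meas _ _).mul (meas_dH hH.meas _ _)))).aestronglyMeasurable (2 * 2) ?_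
    refine Filter.Eventually.of_forall fun θ => ?_
    rw [norm_mul, norm_ev, one_mul, Complex.norm_real, Real.norm_eq_abs, abs_mul]
    exact mul_le_mul (dH_bd hH.bdd _ _ _) (dH_bd hH.bdd _ _ _) (abs_nonneg _) (by norm_num)
  have h1 : ∀ θ, ev (gx F k x) θ * ((DD k H θ : ℝ) : ℂ) = ev (gx F k x) θ
      + (((1 / 64 : ℝ)) : ℂ) * (ev (gx F k x) θ *
        ((dH H (k + 1) (k + 2) θ * dH H (k + 3) (k + 4) θ : ℝ) : ℂ)) := by
    intro θ
    unfold DD
    push_cast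
    ring
  simp_rw [h1]
  rw [integral_add hI1 (hI2.const_mul _), integral_const_mul, rep_gx h hQ, Complex.add_re,
    Complex.ofReal_re, Complex.re_ofReal_mul]
  rfl

theorem PhiP_wild (hF : GoodField F) {Φ : (ℕ →₀ F) → ℝ} (h : InE F Φ)
    {Q : Measure (X (ℕ →₀ F))} [IsProbabilityMeasure Q] (hQ : Rep Q Φ) {k : ℕ}
    {H : X (ℕ →₀ F) → ℝ} (hH : HGood Q k H) : Wild F (gam (PhiP Q k H)) := by
  intro T hT ε hε
  obtain ⟨s, w, hs, hw, hw1, hlt⟩ := h.wild T hT (16 / 25 * ε) (by positivity)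
  refine ⟨s, w, hs, hw, hw1, ?_⟩
  set f : X (ℕ →₀ F) → ℂ := fun θ => ∑ x ∈ s, (w x : ℂ) * ev (gx F k x) θ with hf
  -- general identity
  have key : ∀ (D : X (ℕ →₀ F) → ℝ),
      (∀ z : ℕ →₀ F, Integrable (fun θ => ev z θ * ((D θ : ℝ) : ℂ)) Q) →
      ∑ x ∈ s, ∑ y ∈ s, w x * w y * (∫ θ, ev (gx F k (x - y)) θ * ((D θ : ℝ) : ℂ) ∂Q).re
        = ∫ θ, ‖f θ‖ ^ 2 * D θ ∂Q := by
    intro D hD
    have e1 : ∀ θ, (‖f θ‖ ^ 2 * D θ : ℝ)
        = (∑ x ∈ s, ∑ y ∈ s, ((w x * w y : ℝ) : ℂ) *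
          (ev (gx F k (x - y)) θ * ((D θ : ℝ) : ℂ))).re := by
      intro θ
      have e2 : ((‖f θ‖ ^ 2 * D θ : ℝ) : ℂ) = ∑ x ∈ s, ∑ y ∈ s, ((w x * w y : ℝ) : ℂ) *
          (ev (gx F k (x - y)) θ * ((D θ : ℝ) : ℂ)) := by
        have e3 : ((‖f θ‖ ^ 2 : ℝ) : ℂ) = f θ * (starRingEnd ℂ) (f θ) := by
          rw [Complex.mul_conj, Complex.normSq_eq_norm_sq]
        rw [Complex.ofReal_mul, e3, hf]
        simp only [map_sum, map_mul, Complex.conj_ofReal]
        rw [Finset.sum_mul_sum, Finset.sum_mul]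
        refine Finset.sum_congr rfl fun x _ => ?_
        rw [Finset.sum_mul]
        refine Finset.sum_congr rfl fun y _ => ?_
        rw [gx_sub, ev_sub]
        push_cast
        ring
      rw [← e2, Complex.ofReal_re]
    have e4 : ∫ θ, (‖f θ‖ ^ 2 * D θ : ℝ) ∂Q
        = (∫ θ, ∑ x ∈ s, ∑ y ∈ s, ((w x * w y : ℝ) : ℂ) *
          (ev (gx F k (x - y)) θ * ((D θ : ℝ) : ℂ)) ∂Q).re := by
      simp_rw [e1]
      have := integral_re (μ := Q) (f := fun θ => ∑ x ∈ s, ∑ y ∈ s, ((w x * w y : ℝ) : ℂ) *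
          (ev (gx F k (x - y)) θ * ((D θ : ℝ) : ℂ)))
        (integrable_finsetSum _ fun x _ => integrable_finsetSum _ fun y _ =>
          (hD _).const_mul _)
      exact this
    rw [e4, integral_finsetSum _ fun x _ => integrable_finsetSum _ fun y _ =>
          (hD _).const_mul _, Complex.re_sum]
    refine Finset.sum_congr rfl fun x _ => ?_
    rw [integral_finsetSum _ fun y _ => (hD _).const_mul _, Complex.re_sum]
    refine Finset.sum_congr rfl fun y _ => ?_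
    rw [integral_const_mul, Complex.re_ofReal_mul]
  have hfm : Measurable f := by
    refine Finset.measurable_fun_sum _ fun x _ => ?_
    exact (measurable_ev _).const_mul _
  have hfb : ∀ θ, ‖f θ‖ ≤ 1 := by
    intro θ
    refine (norm_sum_le _ _).trans ?_
    rw [← hw1]
    refine Finset.sum_le_sum fun x _ => ?_
    rw [norm_mul, norm_ev, mul_one, Complex.norm_real, Real.norm_eq_abs, abs_of_nonneg (hw x)]
  have hgam1 : ∑ x ∈ s, ∑ y ∈ s, w x * w y * gam (PhiP Q k H) (x - y)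
      = ∫ θ, ‖f θ‖ ^ 2 * DD k H θ ∂Q := by
    rw [← key (DD k H) (fun z => int_ev_DD hH.meas hH.bdd k z)]
    refine Finset.sum_congr rfl fun x _ => Finset.sum_congr rfl fun y _ => ?_
    rw [PhiP_pair hF h hQ hH]
  have hgam2 : ∑ x ∈ s, ∑ y ∈ s, w x * w y * gam Φ (x - y) = ∫ θ, ‖f θ‖ ^ 2 * 1 ∂Q := by
    have hi : ∀ z : ℕ →₀ F, Integrable (fun θ => ev z θ * (((1 : ℝ)) : ℂ)) Q := by
      intro z
      refine Integrable.of_bound ((measurable_ev z).mul_const _).aestronglyMeasurable 1 ?_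
      refine Filter.Eventually.of_forall fun θ => ?_
      simp
    rw [← key (fun _ => 1) hi]
    refine Finset.sum_congr rfl fun x _ => Finset.sum_congr rfl fun y _ => ?_
    simp only [Complex.ofReal_one, mul_one]
    rw [rep_gx h hQ, Complex.ofReal_re]
  have hi1 : Integrable (fun θ => ‖f θ‖ ^ 2 * DD k H θ) Q := by
    refine Integrable.of_bound ((hfm.norm.pow_const 2).mul
      (meas_DD hH.meas k)).aestronglyMeasurable (25 / 16) ?_
    refine Filter.Eventually.of_forall fun θ => ?_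
    rw [Real.norm_eq_abs, abs_mul, abs_of_nonneg (by positivity : 0 ≤ ‖f θ‖ ^ 2)]
    have := DD_bd hH.bdd k θ
    have h2 := hfb θ
    have h3 : ‖f θ‖ ^ 2 ≤ 1 := pow_le_one₀ (norm_nonneg _) h2
    calc ‖f θ‖ ^ 2 * |DD k H θ| ≤ 1 * (25 / 16) :=
          mul_le_mul h3 this (abs_nonneg _) zero_le_one
      _ = 25 / 16 := one_mul _
  have hi2 : Integrable (fun θ => 25 / 16 * (‖f θ‖ ^ 2 * 1)) Q := by
    refine Integrable.of_bound (((hfm.norm.pow_const 2).mul_const _).const_mul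
      _).aestronglyMeasurable (25 / 16) ?_
    refine Filter.Eventually.of_forall fun θ => ?_
    have h2 := hfb θ
    have h3 : ‖f θ‖ ^ 2 ≤ 1 := pow_le_one₀ (norm_nonneg _) h2
    rw [Real.norm_eq_abs, abs_of_nonneg (by positivity)]
    linarith
  rw [hgam1]
  calc ∫ θ, ‖f θ‖ ^ 2 * DD k H θ ∂Q ≤ ∫ θ, 25 / 16 * (‖f θ‖ ^ 2 * 1) ∂Q := by
        refine integral_mono hi1 hi2 fun θ => ?_
        have h1 := (abs_le.mp (DD_bd hH.bdd k θ)).2
        have h2 : 0 ≤ ‖f θ‖ ^ 2 := by positivity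
        show ‖f θ‖ ^ 2 * DD k H θ ≤ 25 / 16 * (‖f θ‖ ^ 2 * 1)
        nlinarith
    _ = 25 / 16 * ∫ θ, ‖f θ‖ ^ 2 * 1 ∂Q := integral_const_mul _ _
    _ < ε := by
        rw [← hgam2]
        linarith

end Pool.Agent.Lib.P3852C
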