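import Pool.Agent.Lib.P3852C.EPb
import Pool.Agent.Lib.P3852C.EPc
import Pool.Agent.Lib.P3852C.EPd

/-!
# 6.3 (a): the first perturbation (assembly)
-/

set_option autoImplicit false

namespace Pool.Agent.Lib.P3852C

open MeasureTheory

variable {F : Subfield ℂ}

theorem exists_pert (hF : GoodField F) {Φ : (ℕ →₀ F) → ℝ} (h : InE F Φ)
    {Q : Measure (X (ℕ →₀ F))} [IsProbabilityMeasure Q] (hQ : Rep Q Φ) {k : ℕ}
    {H : X (ℕ →₀ F) → ℝ} (hH : HGood Q k H) :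
    ∃ Φ' : (ℕ →₀ F) → ℝ, InE F Φ' ∧ ∀ x, gam Φ' x = gam Φ x + (1 / 64) * qq Q k H x :=
  ⟨PhiP Q k H, ⟨(PhiP_pd hF h hQ hH).1, (PhiP_pd hF h hQ hH).2, PhiP_rot hF h hQ hH,
    PhiP_exch hF h hQ hH, PhiP_wild hF h hQ hH⟩, PhiP_gam hF h hQ hH⟩

end Pool.Agent.Lib.P3852C
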