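import Pool.Agent.Lib.P3852C.DBasic
import Pool.Agent.Lib.P3852C.TrigB

/-!
# 6.1, finite level

`PhiW P μ x = Re ∫ ∏_{i ∈ supp x} (μ.avg (γ ↦ ev (γ x_i))) dP`. Expanding the product over the functions
`g : supp x → μ.s` (or any finite `I ⊇ supp x`, the averages of `ev 0 = 1` are `1`):
`PhiW x = ∑_g ∏ μ(g i) c (∑ g_i x_i)`, and for fixed `g : I → Γ` the function `x ↦ c (∑_{i ∈ I} g_i x_i)` is
positive definite. Exchangeable by reindexing the product. `c` real valued makes everything real.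
`gam (PhiW) x = ∑_{γ,δ} μ γ μ δ c((γ - δ) x) = ∫ |avg|²`.
-/

set_option autoImplicit false

namespace Pool.Agent.Lib.P3852C

open MeasureTheory

variable {F : Subfield ℂ}

/-- the law of `(γ_i · ψ)` with `γ_i` independent of law `μ` -/
noncomputable def PhiW (P : Measure (X F)) (μ : FW (Gam F)) (x : ℕ →₀ F) : ℝ :=
  (∫ θ, ∏ i ∈ x.support, μ.avg (fun γ : Gam F => ev (toF γ * x i) θ) ∂P).re

namespace ESaAux

/-- the average of the character over the rotations of `y` -/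
noncomputable def av (μ : FW (Gam F)) (y : F) (θ : X F) : ℂ :=
  μ.avg (fun γ : Gam F => ev (toF γ * y) θ)

theorem av_eq (μ : FW (Gam F)) (y : F) (θ : X F) :
    av μ y θ = ∑ γ ∈ μ.s, (μ.w γ : ℂ) * ev (toF γ * y) θ := by
  unfold av FW.avg
  simp only [Complex.real_smul]

theorem av_zero (μ : FW (Gam F)) (θ : X F) : av μ 0 θ = 1 := by
  rw [av_eq]
  simp only [mul_zero, ev_zero, mul_one]
  rw [← Complex.ofReal_sum, μ.sum_one, Complex.ofReal_one]

theorem av_cont (μ : FW (Gam F)) (y : F) : Continuous (av μ y) := by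
  have : av μ y = fun θ => ∑ γ ∈ μ.s, (μ.w γ : ℂ) * ev (toF γ * y) θ := funext (av_eq μ y)
  rw [this]
  exact continuous_finsetSum _ fun γ _ => continuous_const.mul (continuous_ev _)

theorem av_norm (μ : FW (Gam F)) (y : F) (θ : X F) : ‖av μ y θ‖ ≤ 1 := by
  rw [av_eq, ← μ.sum_one]
  refine (norm_sum_le _ _).trans (Finset.sum_le_sum fun γ _ => ?_)
  rw [norm_mul, norm_ev, mul_one, Complex.norm_real, Real.norm_of_nonneg (μ.nonneg γ)]

theorem av_neg (μ : FW (Gam F)) (y : F) (θ : X F) : av μ (-y) θ = (starRingEnd ℂ) (av μ y θ) := by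
  rw [av_eq, av_eq, map_sum]
  refine Finset.sum_congr rfl fun γ _ => ?_
  rw [map_mul, Complex.conj_ofReal, mul_neg, ev_neg]

theorem PhiW_eq (P : Measure (X F)) (μ : FW (Gam F)) (x : ℕ →₀ F) (I : Finset ℕ)
    (hI : x.support ⊆ I) : PhiW P μ x = (∫ θ, ∏ i ∈ I, av μ (x i) θ ∂P).re := by
  unfold PhiW
  congr 1
  refine integral_congr_ae (Filter.Eventually.of_forall fun θ => ?_)
  show ∏ i ∈ x.support, av μ (x i) θ = ∏ i ∈ I, av μ (x i) θ
  refine Finset.prod_subset hI fun i _ hi => ?_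
  rw [Finsupp.notMem_support_iff.1 hi, av_zero]

variable {A : Type} [AddCommGroup A]

theorem integrable_ofC (P : Measure (X A)) [IsProbabilityMeasure P] {f : X A → ℂ}
    (hf : Continuous f) {C : ℝ} (h : ∀ θ, ‖f θ‖ ≤ C) : Integrable f P :=
  Integrable.of_bound hf.aestronglyMeasurable C (Filter.Eventually.of_forall h)

theorem integrable_ofR (P : Measure (X A)) [IsProbabilityMeasure P] {f : X A → ℝ}
    (hf : Continuous f) {C : ℝ} (h : ∀ θ, |f θ| ≤ C) : Integrable f P :=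
  Integrable.of_bound hf.aestronglyMeasurable C (Filter.Eventually.of_forall h)

theorem int_sq (P : Measure (X A)) [IsProbabilityMeasure P] (c : A → ℝ) (hP : Rep P c)
    {ι : Type} (s : Finset ι) (w : ι → ℝ) (β : ι → A) :
    ∫ θ, ‖∑ x ∈ s, (w x : ℂ) * ev (β x) θ‖ ^ 2 ∂P =
      ∑ x ∈ s, ∑ y ∈ s, w x * w y * c (β x - β y) := by
  have h1 : ∀ θ : X A, ((‖∑ x ∈ s, (w x : ℂ) * ev (β x) θ‖ ^ 2 : ℝ) : ℂ) =
      ∑ x ∈ s, ∑ y ∈ s, ((w x * w y : ℝ) : ℂ) * ev (β x - β y) θ := by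
    intro θ
    rw [← Complex.normSq_eq_norm_sq, ← Complex.mul_conj, map_sum, Finset.sum_mul_sum]
    refine Finset.sum_congr rfl fun x _ => Finset.sum_congr rfl fun y _ => ?_
    rw [map_mul, Complex.conj_ofReal, ev_sub]
    push_cast
    ring
  have h2 : ((∫ θ, ‖∑ x ∈ s, (w x : ℂ) * ev (β x) θ‖ ^ 2 ∂P : ℝ) : ℂ) =
      ((∑ x ∈ s, ∑ y ∈ s, w x * w y * c (β x - β y) : ℝ) : ℂ) := by
    rw [← integral_complex_ofReal]
    simp only [h1]
    have hi : ∀ z : A, Integrable (ev z : X A → ℂ) P := fun z =>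
      integrable_ofC P (continuous_ev z) (C := 1) fun θ => by rw [norm_ev]
    rw [integral_finsetSum _ fun x _ => integrable_finsetSum _ fun y _ => (hi _).const_mul _]
    push_cast
    refine Finset.sum_congr rfl fun x _ => ?_
    rw [integral_finsetSum _ fun y _ => (hi _).const_mul _]
    refine Finset.sum_congr rfl fun y _ => ?_
    rw [integral_const_mul, hP (β x - β y)]
  exact_mod_cast h2

theorem pos_of_rep (P : Measure (X A)) [IsProbabilityMeasure P] (c : A → ℝ) (hP : Rep P c)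
    {ι : Type} (s : Finset ι) (w : ι → ℝ) (β : ι → A) :
    0 ≤ ∑ x ∈ s, ∑ y ∈ s, w x * w y * c (β x - β y) := by
  rw [← int_sq P c hP]
  exact integral_nonneg fun θ => by positivity

theorem ev_sum {ι : Type} (s : Finset ι) (f : ι → A) (θ : X A) :
    ev (∑ i ∈ s, f i) θ = ∏ i ∈ s, ev (f i) θ := by
  classical
  induction s using Finset.induction_on with
  | empty => simp
  | insert i s hi ih => rw [Finset.sum_insert hi, Finset.prod_insert hi, ev_add, ih]

/-- the finite expansion -/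
theorem PhiW_expand (P : Measure (X F)) [IsProbabilityMeasure P] (c : F → ℝ)
    (hP : Rep P c) (μ : FW (Gam F)) (x : ℕ →₀ F) (n : ℕ) (hn : x.support ⊆ Finset.range n) :
    PhiW P μ x = ∑ g ∈ Fintype.piFinset (fun _ : Fin n => μ.s),
      (∏ i, μ.w (g i)) * c (∑ i : Fin n, toF (g i) * x i) := by
  rw [PhiW_eq P μ x _ hn]
  have h1 : ∀ θ : X F, ∏ i ∈ Finset.range n, av μ (x i) θ =
      ∑ g ∈ Fintype.piFinset (fun _ : Fin n => μ.s),
        ((∏ i, μ.w (g i) : ℝ) : ℂ) * ev (∑ i : Fin n, toF (g i) * x i) θ := by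
    intro θ
    rw [Finset.prod_range]
    simp only [av_eq]
    rw [Finset.prod_univ_sum]
    refine Finset.sum_congr rfl fun g _ => ?_
    rw [Finset.prod_mul_distrib, ev_sum]
    push_cast
    rfl
  simp only [h1]
  have hi : ∀ z : F, Integrable (ev z : X F → ℂ) P := fun z =>
    integrable_ofC P (continuous_ev z) (C := 1) fun θ => by rw [norm_ev]
  rw [integral_finsetSum _ fun g _ => (hi _).const_mul _, Complex.re_sum]
  refine Finset.sum_congr rfl fun g _ => ?_
  rw [integral_const_mul, hP, ← Complex.ofReal_mul, Complex.ofReal_re]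

theorem exists_range (s : Finset (ℕ →₀ F)) : ∃ n : ℕ, ∀ x ∈ s, x.support ⊆ Finset.range n := by
  classical
  refine ⟨(s.sup fun x => x.support.sup id) + 1, fun x hx i hi => ?_⟩
  rw [Finset.mem_range]
  have h1 : i ≤ x.support.sup id := Finset.le_sup (f := id) hi
  have h2 : x.support.sup id ≤ s.sup fun x => x.support.sup id :=
    Finset.le_sup (f := fun x : ℕ →₀ F => x.support.sup id) hx
  omega

theorem prod_sub_le {ι : Type} (s : Finset ι) (u v : ι → ℂ) (hu : ∀ i ∈ s, ‖u i‖ ≤ 1)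
    (hv : ∀ i ∈ s, ‖v i‖ ≤ 1) : ‖∏ i ∈ s, u i - ∏ i ∈ s, v i‖ ≤ ∑ i ∈ s, ‖u i - v i‖ := by
  classical
  induction s using Finset.induction_on with
  | empty => simp
  | insert i s hi ih =>
    rw [Finset.prod_insert hi, Finset.prod_insert hi, Finset.sum_insert hi]
    have h1 := ih (fun j hj => hu j (Finset.mem_insert_of_mem hj))
      (fun j hj => hv j (Finset.mem_insert_of_mem hj))
    have e : u i * ∏ j ∈ s, u j - v i * ∏ j ∈ s, v j =
        (u i - v i) * ∏ j ∈ s, u j + v i * (∏ j ∈ s, u j - ∏ j ∈ s, v j) := by ring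
    rw [e]
    refine (norm_add_le _ _).trans ?_
    rw [norm_mul, norm_mul]
    have h2 : ‖∏ j ∈ s, u j‖ ≤ 1 := by
      rw [norm_prod]
      exact Finset.prod_le_one (fun _ _ => norm_nonneg _)
        fun j hj => hu j (Finset.mem_insert_of_mem hj)
    have h3 := hv i (Finset.mem_insert_self i s)
    have h4 : ‖u i - v i‖ * ‖∏ j ∈ s, u j‖ ≤ ‖u i - v i‖ :=
      mul_le_of_le_one_right (norm_nonneg _) h2
    have h5 : ‖v i‖ * ‖∏ j ∈ s, u j - ∏ j ∈ s, v j‖ ≤ ‖∏ j ∈ s, u j - ∏ j ∈ s, v j‖ :=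
      mul_le_of_le_one_left (norm_nonneg _) h3
    linarith

theorem int_av_sq (P : Measure (X F)) [IsProbabilityMeasure P] (c : F → ℝ)
    (hP : Rep P c) (μ : FW (Gam F)) (x : F) :
    ∫ θ, ‖av μ x θ‖ ^ 2 ∂P =
      ∑ γ ∈ μ.s, ∑ δ ∈ μ.s, μ.w γ * μ.w δ * c ((toF γ - toF δ) * x) := by
  simp only [av_eq]
  rw [int_sq P c hP μ.s μ.w (fun γ => toF γ * x)]
  refine Finset.sum_congr rfl fun γ _ => Finset.sum_congr rfl fun δ _ => ?_
  rw [sub_mul]

end ESaAux

open ESaAux

theorem PhiW_pd (hF : GoodField F) (P : Measure (X F)) [IsProbabilityMeasure P] (c : F → ℝ)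
    (hP : Rep P c) (μ : FW (Gam F)) : PD (PhiW P μ) ∧ PhiW P μ 0 = 1 := by
  have := hF.ctb
  have hc := (pd_of_rep P c hP).1
  refine ⟨⟨?_, ?_⟩, ?_⟩
  · intro x
    obtain ⟨n, hn⟩ := exists_range {x}
    have hn' := hn x (Finset.mem_singleton_self x)
    rw [PhiW_expand P c hP μ (-x) n (by rwa [Finsupp.support_neg]), PhiW_expand P c hP μ x n hn']
    refine Finset.sum_congr rfl fun g _ => ?_
    congr 1
    rw [← hc.even]
    congr 1
    rw [← Finset.sum_neg_distrib]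
    refine Finset.sum_congr rfl fun i _ => ?_
    rw [Finsupp.neg_apply]
    ring
  · intro s a
    obtain ⟨n, hn⟩ := exists_range s
    have h1 : ∀ x ∈ s, ∀ y ∈ s, PhiW P μ (x - y) =
        ∑ g ∈ Fintype.piFinset (fun _ : Fin n => μ.s),
          (∏ i, μ.w (g i)) * c (∑ i : Fin n, toF (g i) * x i - ∑ i : Fin n, toF (g i) * y i) := by
      intro x hx y hy
      rw [PhiW_expand P c hP μ (x - y) n
        (Finsupp.support_sub.trans (Finset.union_subset (hn x hx) (hn y hy)))]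
      refine Finset.sum_congr rfl fun g _ => ?_
      congr 2
      rw [← Finset.sum_sub_distrib]
      refine Finset.sum_congr rfl fun i _ => ?_
      rw [Finsupp.sub_apply]
      ring
    have h2 : ∑ x ∈ s, ∑ y ∈ s, a x * a y * PhiW P μ (x - y) =
        ∑ g ∈ Fintype.piFinset (fun _ : Fin n => μ.s), (∏ i, μ.w (g i)) *
          ∑ x ∈ s, ∑ y ∈ s, a x * a y *
            c (∑ i : Fin n, toF (g i) * x i - ∑ i : Fin n, toF (g i) * y i) := by
      have h3 : ∑ x ∈ s, ∑ y ∈ s, a x * a y * PhiW P μ (x - y) =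
          ∑ x ∈ s, ∑ y ∈ s, ∑ g ∈ Fintype.piFinset (fun _ : Fin n => μ.s), (∏ i, μ.w (g i)) *
            (a x * a y * c (∑ i : Fin n, toF (g i) * x i - ∑ i : Fin n, toF (g i) * y i)) := by
        refine Finset.sum_congr rfl fun x hx => Finset.sum_congr rfl fun y hy => ?_
        rw [h1 x hx y hy, Finset.mul_sum]
        refine Finset.sum_congr rfl fun g _ => ?_
        ring
      rw [h3]
      simp only [Finset.mul_sum]
      rw [Finset.sum_congr rfl fun x _ => Finset.sum_comm, Finset.sum_comm]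
    rw [h2]
    refine Finset.sum_nonneg fun g _ => mul_nonneg (Finset.prod_nonneg fun i _ => μ.nonneg _) ?_
    exact pos_of_rep P c hP s a (fun x => ∑ i : Fin n, toF (g i) * x i)
  · unfold PhiW
    simp

theorem PhiW_exch (hF : GoodField F) (P : Measure (X F)) [IsProbabilityMeasure P] (c : F → ℝ)
    (hP : Rep P c) (μ : FW (Gam F)) (π : Equiv.Perm ℕ) (x : ℕ →₀ F) :
    PhiW P μ (Finsupp.mapDomain π x) = PhiW P μ x := by
  classical
  have hs : (Finsupp.mapDomain π x).support ⊆ x.support.image π := Finsupp.mapDomain_support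
  rw [PhiW_eq P μ _ _ hs, PhiW_eq P μ x x.support subset_rfl]
  congr 1
  refine integral_congr_ae (Filter.Eventually.of_forall fun θ => ?_)
  show ∏ i ∈ x.support.image π, av μ ((Finsupp.mapDomain π x) i) θ = ∏ i ∈ x.support, av μ (x i) θ
  rw [Finset.prod_image fun a _ b _ h => π.injective h]
  refine Finset.prod_congr rfl fun i _ => ?_
  rw [Finsupp.mapDomain_apply π.injective]

theorem PhiW_gam (hF : GoodField F) (P : Measure (X F)) [IsProbabilityMeasure P] (c : F → ℝ)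
    (hP : Rep P c) (μ : FW (Gam F)) (x : F) :
    gam (PhiW P μ) x = ∑ γ ∈ μ.s, ∑ δ ∈ μ.s, μ.w γ * μ.w δ * c ((toF γ - toF δ) * x) := by
  classical
  rw [← int_av_sq P c hP μ x]
  unfold gam
  have hs : (Finsupp.single 0 x - Finsupp.single 1 x : ℕ →₀ F).support ⊆ {0, 1} := by
    intro i hi
    rw [Finsupp.mem_support_iff, Finsupp.sub_apply] at hi
    rw [Finset.mem_insert, Finset.mem_singleton]
    by_contra hc
    push Not at hc
    rw [Finsupp.single_eq_of_ne hc.1, Finsupp.single_eq_of_ne hc.2] at hi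
    simp at hi
  rw [PhiW_eq P μ _ _ hs]
  have h1 : ∀ θ : X F, ∏ i ∈ ({0, 1} : Finset ℕ),
      av μ ((Finsupp.single 0 x - Finsupp.single 1 x : ℕ →₀ F) i) θ = ((‖av μ x θ‖ ^ 2 : ℝ) : ℂ) := by
    intro θ
    rw [Finset.prod_pair (by norm_num)]
    have e0 : (Finsupp.single 0 x - Finsupp.single 1 x : ℕ →₀ F) 0 = x := by simp
    have e1 : (Finsupp.single 0 x - Finsupp.single 1 x : ℕ →₀ F) 1 = -x := by simp
    rw [e0, e1, av_neg, Complex.mul_conj, Complex.normSq_eq_norm_sq]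
  simp only [h1]
  rw [integral_complex_ofReal, Complex.ofReal_re]

/-- `∑ μ μ c((γ-δ)x) = ∫ |avg|² ≥ |∫ avg|² = c(x)²` for radial `c` -/
theorem sq_le_gam (hF : GoodField F) (P : Measure (X F)) [IsProbabilityMeasure P] (c : F → ℝ)
    (hP : Rep P c) (hr : Radial F c) (μ : FW (Gam F)) (x : F) :
    c x ^ 2 ≤ ∑ γ ∈ μ.s, ∑ δ ∈ μ.s, μ.w γ * μ.w δ * c ((toF γ - toF δ) * x) := by
  rw [← int_av_sq P c hP μ x]
  have hr' := (hF.radial_iff c).1 hr
  have hi : ∀ z : F, Integrable (ev z : X F → ℂ) P := fun z =>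
    integrable_ofC P (continuous_ev z) (C := 1) fun θ => by rw [norm_ev]
  have h1 : ∫ θ, av μ x θ ∂P = (c x : ℂ) := by
    simp only [av_eq]
    rw [integral_finsetSum _ fun g _ => (hi _).const_mul _]
    have h2 : ∀ γ ∈ μ.s, ∫ θ, (μ.w γ : ℂ) * ev (toF γ * x) θ ∂P = (μ.w γ : ℂ) * (c x : ℂ) := by
      intro γ _
      rw [integral_const_mul, hP, hr']
    rw [Finset.sum_congr rfl h2, ← Finset.sum_mul, ← Complex.ofReal_sum, μ.sum_one,
      Complex.ofReal_one, one_mul]
  have ia : Integrable (av μ x) P := integrable_ofC P (av_cont μ x) (av_norm μ x)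
  have h2 : ∫ θ, (av μ x θ).re ∂P = c x := by
    have := integral_re ia
    rw [h1] at this
    exact this
  have i2 : Integrable (fun θ => ‖av μ x θ‖ ^ 2) P :=
    integrable_ofR P ((av_cont μ x).norm.pow 2) (C := 1) fun θ => by
      rw [abs_of_nonneg (by positivity)]
      exact pow_le_one₀ (norm_nonneg _) (av_norm μ x θ)
  have i3 : Integrable (fun θ => (av μ x θ).re) P := ia.re
  have h3 : 0 ≤ ∫ θ, (‖av μ x θ‖ ^ 2 - 2 * c x * (av μ x θ).re + c x ^ 2) ∂P := by
    refine integral_nonneg fun θ => ?_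
    show 0 ≤ ‖av μ x θ‖ ^ 2 - 2 * c x * (av μ x θ).re + c x ^ 2
    have h4 := Complex.sq_norm (av μ x θ)
    rw [Complex.normSq_apply] at h4
    nlinarith [sq_nonneg ((av μ x θ).re - c x), sq_nonneg (av μ x θ).im]
  have i5 : Integrable (fun θ => 2 * c x * (av μ x θ).re) P := i3.const_mul _
  have i4 : Integrable (fun θ => ‖av μ x θ‖ ^ 2 - 2 * c x * (av μ x θ).re) P := i2.sub i5
  have e1 : ∫ θ, (‖av μ x θ‖ ^ 2 - 2 * c x * (av μ x θ).re + c x ^ 2) ∂P =
      (∫ θ, ‖av μ x θ‖ ^ 2 ∂P) - 2 * c x * c x + c x ^ 2 := by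
    have e2 : ∫ θ, (‖av μ x θ‖ ^ 2 - 2 * c x * (av μ x θ).re + c x ^ 2) ∂P =
        (∫ θ, (‖av μ x θ‖ ^ 2 - 2 * c x * (av μ x θ).re) ∂P) + ∫ _θ, c x ^ 2 ∂P :=
      integral_add i4 (integrable_const _)
    have e3 : ∫ θ, (‖av μ x θ‖ ^ 2 - 2 * c x * (av μ x θ).re) ∂P =
        (∫ θ, ‖av μ x θ‖ ^ 2 ∂P) - ∫ θ, 2 * c x * (av μ x θ).re ∂P := integral_sub i2 i5
    have e4 : ∫ θ, 2 * c x * (av μ x θ).re ∂P = 2 * c x * c x := by
      rw [integral_const_mul, h2]
    rw [e2, e3, e4, integral_const]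
    simp
  rw [e1] at h3
  nlinarith

/-- almost rotation invariant if `μ` is almost invariant under `κ` -/
theorem PhiW_rot (hF : GoodField F) (P : Measure (X F)) [IsProbabilityMeasure P] (c : F → ℝ)
    (hP : Rep P c) (μ : FW (Gam F)) (κ : Gam F) (ε : ℝ) (hε : 0 ≤ ε)
    (hμ : ∀ f : Gam F → ℂ, (∀ x, ‖f x‖ ≤ 1) → ‖μ.avg (fun x => f (κ * x)) - μ.avg f‖ ≤ ε)
    (x : ℕ →₀ F) : |PhiW P μ (toF κ • x) - PhiW P μ x| ≤ x.support.card * ε := by
  have hs : (toF κ • x).support ⊆ x.support := Finsupp.support_smul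
  rw [PhiW_eq P μ _ _ hs, PhiW_eq P μ x x.support subset_rfl, ← Complex.sub_re]
  have cp : ∀ y : ℕ →₀ F, Continuous fun θ => ∏ i ∈ x.support, av μ (y i) θ := fun y =>
    continuous_finsetProd _ fun i _ => av_cont μ _
  have np : ∀ (y : ℕ →₀ F) (θ : X F), ‖∏ i ∈ x.support, av μ (y i) θ‖ ≤ 1 := fun y θ => by
    rw [norm_prod]
    exact Finset.prod_le_one (fun _ _ => norm_nonneg _) fun i _ => av_norm μ _ θ
  rw [← integral_sub (integrable_ofC P (cp _) (np _)) (integrable_ofC P (cp _) (np _))]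
  refine (Complex.abs_re_le_norm _).trans ?_
  have h1 : ∀ θ : X F, ‖∏ i ∈ x.support, av μ ((toF κ • x) i) θ - ∏ i ∈ x.support, av μ (x i) θ‖ ≤
      x.support.card * ε := by
    intro θ
    refine (prod_sub_le _ _ _ (fun i _ => av_norm μ _ θ) (fun i _ => av_norm μ _ θ)).trans ?_
    have h2 : ∀ i ∈ x.support, ‖av μ ((toF κ • x) i) θ - av μ (x i) θ‖ ≤ ε := by
      intro i _
      have h3 := hμ (fun γ => ev (toF γ * x i) θ) fun γ => by rw [norm_ev]
      have h4 : av μ ((toF κ • x) i) θ = μ.avg (fun γ => ev (toF (κ * γ) * x i) θ) := by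
        unfold av
        congr 1
        funext γ
        rw [Finsupp.smul_apply, smul_eq_mul, toF_mul]
        congr 1
        ring
      rw [h4]
      exact h3
    refine (Finset.sum_le_card_nsmul _ _ _ h2).trans (le_of_eq ?_)
    rw [nsmul_eq_mul]
  have h2 := norm_integral_le_of_norm_le_const (μ := P)
    (Filter.Eventually.of_forall h1)
  simpa using h2

end Pool.Agent.Lib.P3852C
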