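import Pool.Agent.Lib.P3852C.T1
import Pool.Agent.Lib.P3852C.ESa
import Pool.Agent.Lib.P3852C.FolEx
import Pool.Agent.Lib.P3852C.Bochner

/-!
# 6.1: the starting point

`P` = measure of `c` (Bochner), `φ` a Følner sequence on `Γ`, `Φ n = PhiW P (φ.μ n)` (file ESa), values in
`[-1,1]`; `Φ = lim_U Φ n`, `U = hyperfilter ℕ`. Positive definite, exchangeable in the limit; rotation
invariant by `PhiW_rot` and `Fol.inv`. `gam (Φ n) x = ∑ μ γ μ δ c((γ - δ) x) = ε n + (1 - ε n) c' n x`, where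
`ε n = ∑ μ γ ^ 2 → 0` (`Fol.small`, `Γ` infinite) and `c' n ∈ 𝒟` (`InD.convex`, `InD.dil` with `γ - δ ≠ 0`), so
`gam Φ = lim c' n ∈ 𝒟` (`T1`, `IsClosed.mem_of_tendsto`), in particular wild. `gam Φ x₀ ≥ c(x₀)²` (`sq_le_gam`).
-/

set_option autoImplicit false

namespace Pool.Agent.Lib.P3852C

open Filter Topology MeasureTheory

namespace EStartAux

variable {F : Subfield ℂ}

/-- sum of squares of the weights -/
noncomputable def sqw (μ : FW (Gam F)) : ℝ := ∑ γ ∈ μ.s, μ.w γ ^ 2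

theorem toF_inj {γ δ : Gam F} (h : toF γ = toF δ) : γ = δ := by
  apply Subtype.ext
  apply Subtype.ext
  exact congrArg (fun x : F => (x : ℂ)) h

theorem sum_offDiag [DecidableEq (Gam F)] (μ : FW (Gam F)) (g : Gam F → Gam F → ℝ) :
    ∑ γ ∈ μ.s, ∑ δ ∈ μ.s, g γ δ = ∑ γ ∈ μ.s, g γ γ + ∑ p ∈ μ.s.offDiag, g p.1 p.2 := by
  rw [← Finset.sum_product', ← Finset.diag_union_offDiag,
    Finset.sum_union (Finset.disjoint_diag_offDiag _), Finset.sum_diag]

theorem sum_off_one [DecidableEq (Gam F)] (μ : FW (Gam F)) :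
    ∑ p ∈ μ.s.offDiag, μ.w p.1 * μ.w p.2 = 1 - sqw μ := by
  have h := sum_offDiag μ (fun γ δ => μ.w γ * μ.w δ)
  have h1 : ∑ γ ∈ μ.s, ∑ δ ∈ μ.s, μ.w γ * μ.w δ = 1 := by
    rw [← Finset.sum_mul_sum, μ.sum_one, mul_one]
  rw [h1] at h
  have h2 : ∑ γ ∈ μ.s, μ.w γ * μ.w γ = sqw μ := by
    unfold sqw
    exact Finset.sum_congr rfl fun γ _ => (sq (μ.w γ)).symm
  rw [h2] at h
  linarith

theorem sqw_nonneg (μ : FW (Gam F)) : 0 ≤ sqw μ := Finset.sum_nonneg fun _ _ => sq_nonneg _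

theorem sqw_le (μ : FW (Gam F)) {ε : ℝ} (h : ∀ g, μ.w g ≤ ε) : sqw μ ≤ ε := by
  unfold sqw
  calc ∑ γ ∈ μ.s, μ.w γ ^ 2 ≤ ∑ γ ∈ μ.s, ε * μ.w γ := by
        refine Finset.sum_le_sum fun γ _ => ?_
        rw [sq]
        exact mul_le_mul_of_nonneg_right (h γ) (μ.nonneg γ)
    _ = ε := by rw [← Finset.mul_sum, μ.sum_one, mul_one]

theorem sqw_tendsto [Infinite (Gam F)] (φ : Fol (Gam F)) :
    Tendsto (fun n => sqw (φ.μ n)) atTop (𝓝 0) := by
  rw [Metric.tendsto_atTop']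
  intro ε hε
  obtain ⟨N, hN⟩ := eventually_atTop.1 (φ.small (half_pos hε))
  refine ⟨N, fun n hn => ?_⟩
  rw [Real.dist_eq, sub_zero, abs_of_nonneg (sqw_nonneg _)]
  exact (sqw_le _ (hN n hn.le)).trans_lt (half_lt_self hε)

/-- the off diagonal part, normalized -/
noncomputable def cp [DecidableEq (Gam F)] (c : F → ℝ) (μ : FW (Gam F)) (x : F) : ℝ :=
  ∑ p ∈ μ.s.offDiag, (μ.w p.1 * μ.w p.2 / (1 - sqw μ)) * c ((toF p.1 - toF p.2) * x)

theorem cp_inD [DecidableEq (Gam F)] {c : F → ℝ} (hc : InD F c) (μ : FW (Gam F))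
    (h : sqw μ < 1) : InD F (cp c μ) := by
  have h1 : 0 < 1 - sqw μ := by linarith
  refine InD.convex μ.s.offDiag (fun p => μ.w p.1 * μ.w p.2 / (1 - sqw μ)) ?_ ?_
    (fun p x => c ((toF p.1 - toF p.2) * x)) ?_
  · intro p _
    exact div_nonneg (mul_nonneg (μ.nonneg _) (μ.nonneg _)) h1.le
  · rw [← Finset.sum_div, sum_off_one, div_self h1.ne']
  · intro p hp
    refine hc.dil _ ?_
    intro h2
    exact (Finset.mem_offDiag.1 hp).2.2 (toF_inj (sub_eq_zero.1 h2))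

theorem gam_eq [DecidableEq (Gam F)] {c : F → ℝ} (h0 : c 0 = 1) (μ : FW (Gam F))
    (h : sqw μ < 1) (x : F) :
    ∑ γ ∈ μ.s, ∑ δ ∈ μ.s, μ.w γ * μ.w δ * c ((toF γ - toF δ) * x) =
      sqw μ + (1 - sqw μ) * cp c μ x := by
  have h1 : 1 - sqw μ ≠ 0 := by
    have : 0 < 1 - sqw μ := by linarith
    exact this.ne'
  rw [sum_offDiag μ (fun γ δ => μ.w γ * μ.w δ * c ((toF γ - toF δ) * x))]
  congr 1
  · unfold sqw
    refine Finset.sum_congr rfl fun γ _ => ?_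
    rw [sub_self, zero_mul, h0]
    ring
  · unfold cp
    rw [Finset.mul_sum]
    refine Finset.sum_congr rfl fun p _ => ?_
    field_simp

end EStartAux

open EStartAux

theorem exists_start {F : Subfield ℂ} (hF : GoodField F) {c : F → ℝ} (hc : InD F c) {x₀ : F}
    (hx : c x₀ ≠ 0) : ∃ Φ : (ℕ →₀ F) → ℝ, InE F Φ ∧ 0 < gam Φ x₀ := by
  classical
  haveI := hF.ctb
  haveI := hF.gam_countable
  haveI := hF.gam_infinite
  obtain ⟨P, hP, hR⟩ := bochner c hc.pd hc.one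
  obtain ⟨φ⟩ := exists_fol (Gam F)
  set Φn : ℕ → (ℕ →₀ F) → ℝ := fun n => PhiW P (φ.μ n) with hΦn
  have hpd : ∀ n, PD (Φn n) := fun n => (PhiW_pd hF P c hR (φ.μ n)).1
  have hone : ∀ n, Φn n 0 = 1 := fun n => (PhiW_pd hF P c hR (φ.μ n)).2
  set U : Ultrafilter ℕ := Ultrafilter.of atTop with hU
  have hUle : (U : Filter ℕ) ≤ atTop := Ultrafilter.of_le atTop
  have hlim : ∀ x, ∃ L : ℝ, Tendsto (fun n => Φn n x) U (𝓝 L) := by
    intro x
    have hmem : ∀ n, Φn n x ∈ Set.Icc (-1 : ℝ) 1 := fun n => abs_le.1 ((hpd n).abs_le (hone n) x)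
    obtain ⟨L, _, hL⟩ := (isCompact_Icc (a := (-1 : ℝ)) (b := 1)).ultrafilter_le_nhds
      (U.map (fun n => Φn n x)) (by
        rw [le_principal_iff]
        show (fun n => Φn n x) ⁻¹' Set.Icc (-1 : ℝ) 1 ∈ (U : Filter ℕ)
        exact Filter.mem_of_superset (Filter.univ_mem) fun n _ => hmem n)
    exact ⟨L, hL⟩
  choose Φ hΦ using hlim
  have hgam : ∀ n x, gam (Φn n) x =
      ∑ γ ∈ (φ.μ n).s, ∑ δ ∈ (φ.μ n).s, (φ.μ n).w γ * (φ.μ n).w δ * c ((toF γ - toF δ) * x) :=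
    fun n x => PhiW_gam hF P c hR (φ.μ n) x
  refine ⟨Φ, ⟨⟨?_, ?_⟩, ?_, ?_, ?_, ?_⟩, ?_⟩
  · intro x
    refine tendsto_nhds_unique (hΦ (-x)) ((hΦ x).congr fun n => ?_)
    exact ((hpd n).even x).symm
  · intro s a
    have h1 : Tendsto (fun n => ∑ x ∈ s, ∑ y ∈ s, a x * a y * Φn n (x - y)) U
        (𝓝 (∑ x ∈ s, ∑ y ∈ s, a x * a y * Φ (x - y))) :=
      tendsto_finset_sum _ fun x _ => tendsto_finset_sum _ fun y _ =>
        (hΦ (x - y)).const_mul (a x * a y)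
    exact ge_of_tendsto' h1 fun n => (hpd n).pos s a
  · refine tendsto_nhds_unique (hΦ 0) ?_
    refine (tendsto_const_nhds (x := (1 : ℝ))).congr fun n => ?_
    exact (hone n).symm
  · intro γ x
    have h1 : Tendsto (fun n => Φn n (toF γ • x) - Φn n x) U (𝓝 (Φ (toF γ • x) - Φ x)) :=
      (hΦ _).sub (hΦ _)
    have h2 : Tendsto (fun n => Φn n (toF γ • x) - Φn n x) atTop (𝓝 0) := by
      rw [Metric.tendsto_atTop']
      intro ε hε
      have hk : 0 < (x.support.card : ℝ) + 1 := by positivity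
      have h3 : 0 < ε / ((x.support.card : ℝ) + 1) := div_pos hε hk
      obtain ⟨N, hN⟩ := eventually_atTop.1 (φ.inv γ _ h3)
      refine ⟨N, fun n hn => ?_⟩
      rw [Real.dist_eq, sub_zero]
      have h4 := PhiW_rot hF P c hR (φ.μ n) γ _ h3.le (hN n hn.le) x
      refine h4.trans_lt ?_
      rw [mul_div_assoc', div_lt_iff₀ hk]
      nlinarith
    have h3 := tendsto_nhds_unique h1 (h2.mono_left hUle)
    linarith
  · intro π x
    refine tendsto_nhds_unique (hΦ _) ((hΦ x).congr fun n => ?_)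
    exact (PhiW_exch hF P c hR (φ.μ n) π x).symm
  · have hs0 : Tendsto (fun n => sqw (φ.μ n)) U (𝓝 0) := (sqw_tendsto φ).mono_left hUle
    have hlt : ∀ᶠ n in (U : Filter ℕ), sqw (φ.μ n) < 1 := hs0.eventually_lt_const one_pos
    have hconv : Tendsto (fun n => cp c (φ.μ n)) U (𝓝 (gam Φ)) := by
      rw [tendsto_pi_nhds]
      intro x
      have h1 : Tendsto (fun n => (gam (Φn n) x - sqw (φ.μ n)) / (1 - sqw (φ.μ n))) U
          (𝓝 ((gam Φ x - 0) / (1 - 0))) := by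
        refine Tendsto.div ((hΦ _).sub hs0) (tendsto_const_nhds.sub hs0) ?_
        norm_num
      rw [sub_zero, sub_zero, div_one] at h1
      refine h1.congr' ?_
      filter_upwards [hlt] with n hn
      have h2 : 1 - sqw (φ.μ n) ≠ 0 := by
        have : 0 < 1 - sqw (φ.μ n) := by linarith
        exact this.ne'
      rw [hgam, gam_eq hc.one _ hn, add_sub_cancel_left, mul_div_cancel_left₀ _ h2]
    have hmem : InD F (gam Φ) := by
      refine (T1 hF).mem_of_tendsto hconv ?_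
      filter_upwards [hlt] with n hn
      exact cp_inD hc _ hn
    exact hmem.wild
  · have h1 : Tendsto (fun n => gam (Φn n) x₀) U (𝓝 (gam Φ x₀)) := hΦ _
    have h2 : c x₀ ^ 2 ≤ gam Φ x₀ := by
      refine ge_of_tendsto' h1 fun n => ?_
      rw [hgam]
      exact sq_le_gam hF P c hR hc.rad (φ.μ n) x₀
    exact lt_of_lt_of_le (by positivity) h2

end Pool.Agent.Lib.P3852C
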