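import Mathlib

/-!
# Four-cycles (for 2.3)

Let `N i` (`i < n`) be events with `P (B i j) ≥` large on average. Cauchy–Schwarz twice: for a
`0/1` matrix `b` of size `n`, `∑ b_{ij} b_{i'j} b_{ij'} b_{i'j'} ≥ (∑ b_{ij})^4 / n^4`; integrate
(Jensen). The degenerate terms (`i = i'` or `j = j'`) number at most `2 n³`, and the terms with
`i = j` etc. vanish because `B i i = ∅`.
-/

set_option autoImplicit false

namespace Pool.Agent.Lib.P3852C

open MeasureTheory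

section

namespace FourCycAux

/-- The indicator function. -/
noncomputable def ind {Ω : Type} (A : Set Ω) : Ω → ℝ := A.indicator 1

variable {Ω : Type} [MeasurableSpace Ω] (P : Measure Ω) [IsProbabilityMeasure P]

omit [MeasurableSpace Ω] in
lemma ind_nonneg (A : Set Ω) (ω : Ω) : 0 ≤ ind A ω := by
  unfold ind
  exact Set.indicator_nonneg (fun _ _ => zero_le_one) _

omit [MeasurableSpace Ω] in
lemma ind_le_one (A : Set Ω) (ω : Ω) : ind A ω ≤ 1 := by
  unfold ind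
  by_cases h : ω ∈ A
  · rw [Set.indicator_of_mem h]; rfl
  · rw [Set.indicator_of_notMem h]; exact zero_le_one

omit [MeasurableSpace Ω] in
lemma ind_mul (A B : Set Ω) (ω : Ω) : ind A ω * ind B ω = ind (A ∩ B) ω := by
  unfold ind
  by_cases h : ω ∈ A <;> by_cases h' : ω ∈ B <;> simp [h, h']

omit [IsProbabilityMeasure P] in
lemma ind_int {A : Set Ω} (hA : MeasurableSet A) : ∫ ω, ind A ω ∂P = P.real A := by
  unfold ind
  exact integral_indicator_one hA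

lemma ind_integrable {A : Set Ω} (hA : MeasurableSet A) : Integrable (ind A) P := by
  unfold ind
  exact (integrable_const (1 : ℝ)).indicator hA

end FourCycAux

open FourCycAux

variable {Ω : Type} [MeasurableSpace Ω] (P : Measure Ω) [IsProbabilityMeasure P] {ι : Type}

/-- Cauchy-Schwarz for the number of events that occur. -/
theorem FourCycAux.pair_sum (T : Finset ι) {N : ι → Set Ω} (hN : ∀ i, MeasurableSet (N i)) :
    (∑ i ∈ T, P.real (N i)) ^ 2 ≤ ∑ i ∈ T, ∑ j ∈ T, P.real (N i ∩ N j) := by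
  set c := ∑ i ∈ T, P.real (N i) with hc
  have hpt : ∀ ω, 2 * c * (∑ i ∈ T, ind (N i) ω) - c ^ 2 ≤ ∑ i ∈ T, ∑ j ∈ T, ind (N i ∩ N j) ω := by
    intro ω
    have e : ∑ i ∈ T, ∑ j ∈ T, ind (N i ∩ N j) ω = (∑ i ∈ T, ind (N i) ω) ^ 2 := by
      rw [sq, Finset.sum_mul_sum]
      refine Finset.sum_congr rfl fun i _ => Finset.sum_congr rfl fun j _ => ?_
      rw [ind_mul]
    rw [e]
    nlinarith [sq_nonneg ((∑ i ∈ T, ind (N i) ω) - c)]
  have i1 : Integrable (fun ω => ∑ i ∈ T, ind (N i) ω) P :=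
    integrable_finsetSum _ fun i _ => ind_integrable P (hN i)
  have i2 : Integrable (fun ω => ∑ i ∈ T, ∑ j ∈ T, ind (N i ∩ N j) ω) P :=
    integrable_finsetSum _ fun i _ => integrable_finsetSum _ fun j _ =>
      ind_integrable P ((hN i).inter (hN j))
  have i3 : Integrable (fun ω => 2 * c * (∑ i ∈ T, ind (N i) ω)) P := i1.const_mul _
  have h := integral_mono (i3.sub (integrable_const (c ^ 2))) i2 hpt
  have e1 : ∫ ω, (2 * c * (∑ i ∈ T, ind (N i) ω) - c ^ 2) ∂P = c ^ 2 := by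
    rw [integral_sub i3 (integrable_const _), integral_const_mul,
      integral_finsetSum _ fun i _ => ind_integrable P (hN i), integral_const]
    simp only [ind_int P (hN _), probReal_univ, one_smul]
    rw [← hc]
    ring
  have e2 : ∫ ω, ∑ i ∈ T, ∑ j ∈ T, ind (N i ∩ N j) ω ∂P = ∑ i ∈ T, ∑ j ∈ T, P.real (N i ∩ N j) := by
    rw [integral_finsetSum _ fun i _ => integrable_finsetSum _ fun j _ =>
      ind_integrable P ((hN i).inter (hN j))]
    refine Finset.sum_congr rfl fun i _ => ?_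
    rw [integral_finsetSum _ fun j _ => ind_integrable P ((hN i).inter (hN j))]
    refine Finset.sum_congr rfl fun j _ => ?_
    exact ind_int P ((hN i).inter (hN j))
  rw [← e2, ← e1]
  exact h

/-- The number of 4-cycles in a random bipartite graph. -/
theorem FourCycAux.four_cycles (T : Finset ι) {B : ι → ι → Set Ω} (hB : ∀ i j, MeasurableSet (B i j)) {a : ℝ}
    (ha : 0 ≤ a) (hsum : a ≤ ∑ s ∈ T, ∑ t ∈ T, P.real (B s t)) :
    a ^ 4 ≤ (T.card : ℝ) ^ 4 * ∑ s ∈ T, ∑ s' ∈ T, ∑ t ∈ T, ∑ t' ∈ T,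
      P.real ((B s t ∩ B s' t) ∩ (B s t' ∩ B s' t')) := by
  have hm : ∀ s s' t t', MeasurableSet ((B s t ∩ B s' t) ∩ (B s t' ∩ B s' t')) := fun s s' t t' =>
    ((hB s t).inter (hB s' t)).inter ((hB s t').inter (hB s' t'))
  have hpt : ∀ ω, a ^ 4 + 4 * a ^ 3 * ((∑ s ∈ T, ∑ t ∈ T, ind (B s t) ω) - a) ≤
      (T.card : ℝ) ^ 4 * ∑ s ∈ T, ∑ s' ∈ T, ∑ t ∈ T, ∑ t' ∈ T,
        ind ((B s t ∩ B s' t) ∩ (B s t' ∩ B s' t')) ω := by
    intro ω
    set b : ι → ι → ℝ := fun s t => ind (B s t) ω with hb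
    set Y : ℝ := ∑ s ∈ T, ∑ t ∈ T, b s t with hY
    have hY0 : 0 ≤ Y := Finset.sum_nonneg fun s _ => Finset.sum_nonneg fun t _ => ind_nonneg _ _
    -- the sum over 4-cycles
    have e0 : ∑ s ∈ T, ∑ s' ∈ T, ∑ t ∈ T, ∑ t' ∈ T,
        ind ((B s t ∩ B s' t) ∩ (B s t' ∩ B s' t')) ω =
        ∑ s ∈ T, ∑ s' ∈ T, (∑ t ∈ T, b s t * b s' t) ^ 2 := by
      refine Finset.sum_congr rfl fun s _ => Finset.sum_congr rfl fun s' _ => ?_
      rw [sq, Finset.sum_mul_sum]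
      refine Finset.sum_congr rfl fun t _ => Finset.sum_congr rfl fun t' _ => ?_
      rw [hb]
      simp only [ind_mul]
    have e1 : ∑ s ∈ T, ∑ s' ∈ T, ∑ t ∈ T, b s t * b s' t = ∑ t ∈ T, (∑ s ∈ T, b s t) ^ 2 := by
      have : ∀ t, (∑ s ∈ T, b s t) ^ 2 = ∑ s ∈ T, ∑ s' ∈ T, b s t * b s' t := by
        intro t
        rw [sq, Finset.sum_mul_sum]
      simp only [this]
      rw [Finset.sum_comm (s := T) (t := T) (f := fun t s => ∑ s' ∈ T, b s t * b s' t)]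
      refine Finset.sum_congr rfl fun s _ => ?_
      rw [Finset.sum_comm]
    have c1 : (∑ s ∈ T, ∑ s' ∈ T, ∑ t ∈ T, b s t * b s' t) ^ 2 ≤
        (T.card : ℝ) ^ 2 * ∑ s ∈ T, ∑ s' ∈ T, (∑ t ∈ T, b s t * b s' t) ^ 2 := by
      calc (∑ s ∈ T, ∑ s' ∈ T, ∑ t ∈ T, b s t * b s' t) ^ 2
          ≤ (T.card : ℝ) * ∑ s ∈ T, (∑ s' ∈ T, ∑ t ∈ T, b s t * b s' t) ^ 2 :=
            sq_sum_le_card_mul_sum_sq
        _ ≤ (T.card : ℝ) * ∑ s ∈ T, ((T.card : ℝ) * ∑ s' ∈ T, (∑ t ∈ T, b s t * b s' t) ^ 2) := by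
            gcongr with s _
            exact sq_sum_le_card_mul_sum_sq
        _ = (T.card : ℝ) ^ 2 * ∑ s ∈ T, ∑ s' ∈ T, (∑ t ∈ T, b s t * b s' t) ^ 2 := by
            rw [← Finset.mul_sum]
            ring
    have c2 : Y ^ 2 ≤ (T.card : ℝ) * ∑ t ∈ T, (∑ s ∈ T, b s t) ^ 2 := by
      rw [hY, Finset.sum_comm]
      exact sq_sum_le_card_mul_sum_sq
    rw [← e1] at c2
    rw [e0]
    have c3 : Y ^ 4 ≤ (T.card : ℝ) ^ 4 * ∑ s ∈ T, ∑ s' ∈ T, (∑ t ∈ T, b s t * b s' t) ^ 2 := by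
      have h1 : Y ^ 4 = (Y ^ 2) ^ 2 := by ring
      rw [h1]
      calc (Y ^ 2) ^ 2 ≤ ((T.card : ℝ) * ∑ s ∈ T, ∑ s' ∈ T, ∑ t ∈ T, b s t * b s' t) ^ 2 := by
            gcongr
        _ = (T.card : ℝ) ^ 2 * (∑ s ∈ T, ∑ s' ∈ T, ∑ t ∈ T, b s t * b s' t) ^ 2 := by ring
        _ ≤ (T.card : ℝ) ^ 2 * ((T.card : ℝ) ^ 2 * ∑ s ∈ T, ∑ s' ∈ T, (∑ t ∈ T, b s t * b s' t) ^ 2) := by
            gcongr
        _ = _ := by ring
    refine le_trans ?_ c3
    have h2 : 0 ≤ (Y - a) ^ 2 * (Y ^ 2 + 2 * a * Y + 3 * a ^ 2) := by positivity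
    have h3 : Y ^ 4 - (a ^ 4 + 4 * a ^ 3 * (Y - a)) = (Y - a) ^ 2 * (Y ^ 2 + 2 * a * Y + 3 * a ^ 2) := by
      ring
    linarith
  have i1 : Integrable (fun ω => ∑ s ∈ T, ∑ t ∈ T, ind (B s t) ω) P :=
    integrable_finsetSum _ fun s _ => integrable_finsetSum _ fun t _ => ind_integrable P (hB s t)
  have i1' : Integrable (fun ω => (∑ s ∈ T, ∑ t ∈ T, ind (B s t) ω) - a) P :=
    i1.sub (integrable_const a)
  have i2 : Integrable (fun ω => ∑ s ∈ T, ∑ s' ∈ T, ∑ t ∈ T, ∑ t' ∈ T,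
      ind ((B s t ∩ B s' t) ∩ (B s t' ∩ B s' t')) ω) P :=
    integrable_finsetSum _ fun s _ => integrable_finsetSum _ fun s' _ =>
      integrable_finsetSum _ fun t _ => integrable_finsetSum _ fun t' _ =>
        ind_integrable P (hm s s' t t')
  have h := integral_mono ((integrable_const (a ^ 4)).add (i1'.const_mul (4 * a ^ 3)))
    (i2.const_mul ((T.card : ℝ) ^ 4)) hpt
  have e1 : ∫ ω, (a ^ 4 + 4 * a ^ 3 * ((∑ s ∈ T, ∑ t ∈ T, ind (B s t) ω) - a)) ∂P =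
      a ^ 4 + 4 * a ^ 3 * ((∑ s ∈ T, ∑ t ∈ T, P.real (B s t)) - a) := by
    rw [integral_add (integrable_const _) (i1'.const_mul _), integral_const_mul,
      integral_sub i1 (integrable_const _), integral_const, integral_const,
      integral_finsetSum _ fun s _ => integrable_finsetSum _ fun t _ => ind_integrable P (hB s t)]
    simp only [probReal_univ, one_smul]
    congr 3
    refine Finset.sum_congr rfl fun s _ => ?_
    rw [integral_finsetSum _ fun t _ => ind_integrable P (hB s t)]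
    exact Finset.sum_congr rfl fun t _ => ind_int P (hB s t)
  have e2 : ∫ ω, ((T.card : ℝ) ^ 4 * ∑ s ∈ T, ∑ s' ∈ T, ∑ t ∈ T, ∑ t' ∈ T,
      ind ((B s t ∩ B s' t) ∩ (B s t' ∩ B s' t')) ω) ∂P = (T.card : ℝ) ^ 4 * ∑ s ∈ T, ∑ s' ∈ T,
        ∑ t ∈ T, ∑ t' ∈ T, P.real ((B s t ∩ B s' t) ∩ (B s t' ∩ B s' t')) := by
    rw [integral_const_mul, integral_finsetSum _ fun s _ => integrable_finsetSum _ fun s' _ =>
      integrable_finsetSum _ fun t _ => integrable_finsetSum _ fun t' _ =>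
        ind_integrable P (hm s s' t t')]
    congr 1
    refine Finset.sum_congr rfl fun s _ => ?_
    rw [integral_finsetSum _ fun s' _ =>
      integrable_finsetSum _ fun t _ => integrable_finsetSum _ fun t' _ =>
        ind_integrable P (hm s s' t t')]
    refine Finset.sum_congr rfl fun s' _ => ?_
    rw [integral_finsetSum _ fun t _ => integrable_finsetSum _ fun t' _ =>
        ind_integrable P (hm s s' t t')]
    refine Finset.sum_congr rfl fun t _ => ?_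
    rw [integral_finsetSum _ fun t' _ => ind_integrable P (hm s s' t t')]
    exact Finset.sum_congr rfl fun t' _ => ind_int P (hm s s' t t')
  have h' : a ^ 4 + 4 * a ^ 3 * ((∑ s ∈ T, ∑ t ∈ T, P.real (B s t)) - a) ≤ (T.card : ℝ) ^ 4 *
      ∑ s ∈ T, ∑ s' ∈ T, ∑ t ∈ T, ∑ t' ∈ T, P.real ((B s t ∩ B s' t) ∩ (B s t' ∩ B s' t')) := by
    rw [← e1, ← e2]
    exact h
  have h3 : 0 ≤ 4 * a ^ 3 * ((∑ s ∈ T, ∑ t ∈ T, P.real (B s t)) - a) :=
    mul_nonneg (by positivity) (by linarith)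
  linarith

end

open FourCycAux

/-- `∑_{i,j} P (N i ∩ N j) ≥ n² β²` if `P (N i) ≥ β` -/
theorem sum_inter_ge {Ω : Type} [MeasurableSpace Ω] (P : Measure Ω) [IsProbabilityMeasure P]
    (n : ℕ) (N : Fin n → Set Ω) (hN : ∀ i, MeasurableSet (N i)) (β : ℝ) (hβ : 0 ≤ β)
    (h : ∀ i, β ≤ P.real (N i)) :
    (n : ℝ) ^ 2 * β ^ 2 ≤ ∑ i, ∑ j, P.real (N i ∩ N j) := by
  have h1 := pair_sum P (Finset.univ : Finset (Fin n)) hN
  refine le_trans ?_ h1
  have h2 : (n : ℝ) * β ≤ ∑ i : Fin n, P.real (N i) := by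
    have := Finset.card_nsmul_le_sum (Finset.univ : Finset (Fin n)) (fun i => P.real (N i)) β
      (fun i _ => h i)
    simpa using this
  calc (n : ℝ) ^ 2 * β ^ 2 = ((n : ℝ) * β) ^ 2 := by ring
    _ ≤ (∑ i : Fin n, P.real (N i)) ^ 2 := by gcongr

/-- existence of a nondegenerate four-cycle -/
theorem exists_four {Ω : Type} [MeasurableSpace Ω] (P : Measure Ω) [IsProbabilityMeasure P]
    (n : ℕ) (hn : 0 < n) (B : Fin n → Fin n → Set Ω) (hB : ∀ i j, MeasurableSet (B i j))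
    (hdiag : ∀ i, B i i = ∅) (δ ε : ℝ) (hδ : 0 ≤ δ) (hε : 0 ≤ ε)
    (h : δ * (n : ℝ) ^ 2 ≤ ∑ i, ∑ j, P.real (B i j))
    (hn2 : 2 / (n : ℝ) + ε < δ ^ 4) :
    ∃ i i' j j' : Fin n, i ≠ i' ∧ j ≠ j' ∧ i ≠ j ∧ i' ≠ j ∧ i ≠ j' ∧ i' ≠ j' ∧
      ε < P.real (B i j ∩ B i' j ∩ B i j' ∩ B i' j') := by
  classical
  by_contra hcon
  push Not at hcon
  have hn' : (0 : ℝ) < n := by exact_mod_cast hn
  have h4 := four_cycles P (Finset.univ : Finset (Fin n)) hB (a := δ * (n : ℝ) ^ 2) (by positivity) h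
  rw [Finset.card_univ, Fintype.card_fin] at h4
  have hterm : ∀ i i' j j' : Fin n, P.real ((B i j ∩ B i' j) ∩ (B i j' ∩ B i' j')) ≤
      ε + (if i = i' then 1 else 0) + (if j = j' then 1 else 0) := by
    intro i i' j j'
    have hle : P.real ((B i j ∩ B i' j) ∩ (B i j' ∩ B i' j')) ≤ 1 := measureReal_le_one
    have hzero : ∀ k : Fin n, (B i j ∩ B i' j) ∩ (B i j' ∩ B i' j') ⊆ B k k →
        P.real ((B i j ∩ B i' j) ∩ (B i j' ∩ B i' j')) = 0 := by
      intro k hk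
      rw [hdiag k, Set.subset_empty_iff] at hk
      rw [hk]
      exact measureReal_empty
    by_cases h1 : i = i'
    · rw [if_pos h1]
      have : (0 : ℝ) ≤ if j = j' then 1 else 0 := by split_ifs <;> norm_num
      linarith
    by_cases h2 : j = j'
    · rw [if_pos h2, if_neg h1]
      linarith
    rw [if_neg h1, if_neg h2, add_zero, add_zero]
    by_cases h3 : i = j
    · subst h3
      rw [hzero i (fun ω hω => hω.1.1)]
      exact hε
    by_cases h4 : i' = j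
    · subst h4
      rw [hzero i' (fun ω hω => hω.1.2)]
      exact hε
    by_cases h5 : i = j'
    · subst h5
      rw [hzero i (fun ω hω => hω.2.1)]
      exact hε
    by_cases h6 : i' = j'
    · subst h6
      rw [hzero i' (fun ω hω => hω.2.2)]
      exact hε
    have := hcon i i' j j' h1 h2 h3 h4 h5 h6
    rwa [Set.inter_assoc (B i j ∩ B i' j)] at this
  have hsum : ∑ i : Fin n, ∑ i' : Fin n, ∑ j : Fin n, ∑ j' : Fin n,
      P.real ((B i j ∩ B i' j) ∩ (B i j' ∩ B i' j')) ≤ ε * (n : ℝ) ^ 4 + 2 * (n : ℝ) ^ 3 := by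
    calc ∑ i : Fin n, ∑ i' : Fin n, ∑ j : Fin n, ∑ j' : Fin n,
        P.real ((B i j ∩ B i' j) ∩ (B i j' ∩ B i' j'))
        ≤ ∑ i : Fin n, ∑ i' : Fin n, ∑ j : Fin n, ∑ j' : Fin n,
          (ε + (if i = i' then 1 else 0) + (if j = j' then 1 else 0)) :=
          Finset.sum_le_sum fun i _ => Finset.sum_le_sum fun i' _ => Finset.sum_le_sum fun j _ =>
            Finset.sum_le_sum fun j' _ => hterm i i' j j'
      _ = ε * (n : ℝ) ^ 4 + 2 * (n : ℝ) ^ 3 := by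
          simp only [Finset.sum_add_distrib, Finset.sum_const, Finset.card_univ, Fintype.card_fin,
            Finset.sum_ite_eq, Finset.mem_univ, if_true, nsmul_eq_mul, mul_one, mul_ite, mul_zero,
            smul_eq_mul]
          ring
  have h5 : (δ * (n : ℝ) ^ 2) ^ 4 ≤ (n : ℝ) ^ 4 * (ε * (n : ℝ) ^ 4 + 2 * (n : ℝ) ^ 3) :=
    h4.trans (by gcongr)
  have h6 : δ ^ 4 ≤ 2 / (n : ℝ) + ε := by
    have e1 : (δ * (n : ℝ) ^ 2) ^ 4 = δ ^ 4 * (n : ℝ) ^ 8 := by ring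
    have e2 : (n : ℝ) ^ 4 * (ε * (n : ℝ) ^ 4 + 2 * (n : ℝ) ^ 3) = (2 / (n : ℝ) + ε) * (n : ℝ) ^ 8 := by
      field_simp
      ring
    rw [e1, e2] at h5
    exact le_of_mul_le_mul_right h5 (by positivity)
  linarith

end Pool.Agent.Lib.P3852C
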