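import Pool.Agent.Lib.P3852C.Defs

/-!
# §11: common definitions and elementary facts
-/

set_option autoImplicit false

namespace Pool.Agent.Lib.P3852C

open MeasureTheory

/-- Lebesgue measure on `(0, 2π]` -/
noncomputable def Tm : Measure ℝ := volume.restrict (Set.Ioc 0 (2 * Real.pi))

instance : IsFiniteMeasure Tm := by
  unfold Tm
  exact ⟨by rw [Measure.restrict_apply_univ]; exact measure_Ioc_lt_top⟩

/-- `ρ cis t + ρ' cis s` -/
noncomputable def twoC (ρ ρ' : ℝ) (p : ℝ × ℝ) : ℂ := ρ * cis p.1 + ρ' * cis p.2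

lemma continuous_cis : Continuous cis := by
  unfold cis
  fun_prop

lemma continuous_twoC (ρ ρ' : ℝ) : Continuous (twoC ρ ρ') := by
  unfold twoC
  have := continuous_cis
  fun_prop

lemma cis_add (s t : ℝ) : cis (s + t) = cis s * cis t := by
  unfold cis
  rw [← Complex.exp_add]
  push_cast
  ring_nf

@[simp] lemma norm_cis (t : ℝ) : ‖cis t‖ = 1 := Complex.norm_exp_ofReal_mul_I t

@[simp] lemma cis_zero : cis 0 = 1 := by simp [cis]

lemma cis_periodic : Function.Periodic cis (2 * Real.pi) := by
  intro t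
  rw [cis_add]
  have : cis (2 * Real.pi) = 1 := by
    unfold cis
    push_cast
    exact Complex.exp_two_pi_mul_I
  rw [this, mul_one]

end Pool.Agent.Lib.P3852C
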