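import Pool.Agent.Lib.P3852C.Defs
import Pool.Agent.Lib.P3852H.MeanExist

/-!
# Existence of an invariant mean (1.2), from `P3852H.exists_isMean`
-/

set_option autoImplicit false

namespace Pool.Agent.Lib.P3852C

theorem exists_imean (G : Type) [CommGroup G] [Countable G] : Nonempty (IMean G) := by
  obtain ⟨M, hM⟩ := P3852H.exists_isMean G
  exact ⟨{ val := M
           add := fun f g hf hg => hM.add f g hf hg
           smul := fun c f hf => hM.smul c f hf
           mono := fun f g hf hg h => hM.mono hf hg h
           one := hM.one
           inv := fun h f hf => hM.inv f h hf }⟩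

end Pool.Agent.Lib.P3852C
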