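import Pool.Agent.Lib.P3852C.RInv

/-!
# 2.1 and 2.2

Remark L. `1` and `u_ζ` span the fractions `(a X + b) / (X - ζ)` (as `conj ζ ≠ ζ`): if
`w, w u_ζ ∈ W` then `w (X - s)/(X - ζ) ∈ W` for `s ∈ F` and `w/(X - ζ) ∈ W`.

2.1. For fixed `ζ` the events `G ζ' = {u_ζ', u_ζ' u_ζ ∈ W} ∖ {1, u_ζ ∈ W}`, `ζ' ∉ {ζ, conj ζ}` not
real, are pairwise disjoint: `u', u'u, u'', u''u ∈ W` imply by L (with `w = u'`, `s = ζ'`)
`(X - conj ζ')/(X - ζ) ∈ W`, likewise `(X - conj ζ'')/(X - ζ) ∈ W`, so `1/(X - ζ) ∈ W` (difference,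
`ζ' ≠ ζ''`), so `1 ∈ W`, `u_ζ ∈ W`. Hence all but finitely many `G ζ'` have probability `≤ η`, and
`P ({1, u_ζ ∈ W} ∖ {u_ζ', u_ζ' u_ζ ∈ W}) = P (G ζ')` as `P {u', u'u ∈ W} = P {1, u ∈ W}`.

2.2. With `β* = inf β`: choose `ζ₀` with `β ζ₀ ≤ β* + η`. For `A ζ = {1, u_ζ ∈ W}`,
`P (A ζ) = P {1 ∈ W} - β ζ ≤ P {1 ∈ W} - β*`; `P (A ζ₀ ∖ A ζ) ≤ η` for all but finitely many `ζ`, so
`P (A ζ ∖ A ζ₀) = P (A ζ) - P (A ζ₀) + P (A ζ₀ ∖ A ζ) ≤ 2 η` and `β ζ ≤ β ζ₀ + η`.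
-/

set_option autoImplicit false

namespace Pool.Agent.Lib.P3852C

open MeasureTheory

variable {F : Subfield ℂ} {hF : GoodField F} {Ω : Type} [MeasurableSpace Ω]
  {P : Measure Ω} {W : Ω → Submodule F (RatFunc F)}

namespace RAAux

lemma X_sub_ne (a : F) : (RatFunc.X - RatFunc.C a : RatFunc F) ≠ 0 := by
  have h : (RatFunc.X - RatFunc.C a : RatFunc F) =
      algebraMap (Polynomial F) (RatFunc F) (Polynomial.X - Polynomial.C a) := by
    rw [map_sub, RatFunc.algebraMap_X, RatFunc.algebraMap_C]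
  rw [h]
  exact RatFunc.algebraMap_ne_zero (Polynomial.X_sub_C_ne_zero a)

/-- the event `x ∈ W` -/
def IN (W : Ω → Submodule F (RatFunc F)) (x : RatFunc F) : Set Ω := {ω | x ∈ W ω}

/-- `P {g x, g y ∈ W} = P {x, y ∈ W}` -/
lemma pr2 (h : RSub hF P W) {g : RatFunc F} (hg : g ∈ UG hF) (x y : RatFunc F) :
    P.real (IN W (g * x) ∩ IN W (g * y)) = P.real (IN W x ∩ IN W y) := by
  classical
  have h1 := h.inv_gen hg {x, y} ∅
  have e1 : {ω | (∀ z ∈ ({x, y} : Finset (RatFunc F)), g * z ∈ W ω) ∧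
      (∀ z ∈ (∅ : Finset (RatFunc F)), g * z ∉ W ω)} = IN W (g * x) ∩ IN W (g * y) := by
    ext ω
    simp [IN]
  have e2 : {ω | (∀ z ∈ ({x, y} : Finset (RatFunc F)), z ∈ W ω) ∧
      (∀ z ∈ (∅ : Finset (RatFunc F)), z ∉ W ω)} = IN W x ∩ IN W y := by
    ext ω
    simp [IN]
  rwa [e1, e2] at h1

end RAAux

open RAAux

/-- Remark L -/
theorem mem_of_span (W : Submodule F (RatFunc F)) (ζ : F) (h : conjF hF ζ ≠ ζ) (w : RatFunc F)
    (h1 : w ∈ W) (h2 : uz hF ζ * w ∈ W) (a b : F) :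
    (RatFunc.C a * RatFunc.X + RatFunc.C b) / (RatFunc.X - RatFunc.C ζ) * w ∈ W := by
  have hne : ζ - conjF hF ζ ≠ 0 := sub_ne_zero.2 (Ne.symm h)
  have n1 := X_sub_ne ζ
  have e : (RatFunc.C a * RatFunc.X + RatFunc.C b) / (RatFunc.X - RatFunc.C ζ) * w =
      a • w + ((a * ζ + b) * (ζ - conjF hF ζ)⁻¹) • (uz hF ζ * w - w) := by
    have n2 : (RatFunc.C ζ - RatFunc.C (conjF hF ζ) : RatFunc F) ≠ 0 := by
      rw [← map_sub, Ne, map_eq_zero]
      exact hne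
    rw [RatFunc.smul_eq_C_mul, RatFunc.smul_eq_C_mul]
    unfold uz
    simp only [map_mul, map_add, map_inv₀, map_sub]
    field_simp
    ring
  rw [e]
  exact W.add_mem (W.smul_mem _ h1) (W.smul_mem _ (W.sub_mem h2 h1))

/-- 2.1 -/
theorem RSub.finite_bad (h : RSub hF P W) (ζ : F) (hζ : conjF hF ζ ≠ ζ) {η : ℝ} (hη : 0 < η) :
    {ζ' : F | conjF hF ζ' ≠ ζ' ∧
      η < P.real {ω | (1 : RatFunc F) ∈ W ω ∧ uz hF ζ ∈ W ω ∧ uz hF ζ' ∉ W ω}}.Finite := by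
  classical
  have hp := h.prob
  set A : Set Ω := IN W 1 ∩ IN W (uz hF ζ) with hA
  have hAm : MeasurableSet A := (h.meas _).inter (h.meas _)
  set B : F → Set Ω := fun z => IN W (uz hF z) ∩ IN W (uz hF z * uz hF ζ) with hB
  have hBm : ∀ z, MeasurableSet (B z) := fun z => (h.meas _).inter (h.meas _)
  by_contra hinf
  obtain ⟨n, hn⟩ := exists_nat_gt (1 / η)
  obtain ⟨T, hT, hTc⟩ := Set.Infinite.exists_subset_card_eq hinf n
  -- the sets `B z \ A` are disjoint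
  have hdisj : (T : Set F).PairwiseDisjoint (fun z => B z \ A) := by
    intro a ha b hb hab
    rw [Function.onFun, Set.disjoint_left]
    rintro ω ⟨⟨a1, a2⟩, a3⟩ ⟨⟨b1, b2⟩, -⟩
    apply a3
    have n1 := X_sub_ne ζ
    -- `(X - conj c) / (X - ζ)` is in `W`
    have key : ∀ c : F, uz hF c ∈ W ω → uz hF c * uz hF ζ ∈ W ω →
        (RatFunc.X - RatFunc.C (conjF hF c)) / (RatFunc.X - RatFunc.C ζ) ∈ W ω := by
      intro c g1 g2
      have g3 := mem_of_span (W ω) ζ hζ (uz hF c) g1 (by rwa [mul_comm] at g2) 1 (-c)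
      have n2 := X_sub_ne c
      have e : (RatFunc.C 1 * RatFunc.X + RatFunc.C (-c)) / (RatFunc.X - RatFunc.C ζ) * uz hF c =
          (RatFunc.X - RatFunc.C (conjF hF c)) / (RatFunc.X - RatFunc.C ζ) := by
        unfold uz
        rw [map_one, one_mul, map_neg, ← sub_eq_add_neg]
        field_simp
      rwa [e] at g3
    have ka := key a a1 a2
    have kb := key b b1 b2
    have hne : conjF hF b - conjF hF a ≠ 0 := by
      rw [← map_sub, Ne, map_eq_zero]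
      exact sub_ne_zero.2 (Ne.symm hab)
    have hfr : (RatFunc.X - RatFunc.C ζ : RatFunc F)⁻¹ ∈ W ω := by
      have e : (RatFunc.X - RatFunc.C ζ : RatFunc F)⁻¹ = (conjF hF b - conjF hF a)⁻¹ •
          ((RatFunc.X - RatFunc.C (conjF hF a)) / (RatFunc.X - RatFunc.C ζ) -
            (RatFunc.X - RatFunc.C (conjF hF b)) / (RatFunc.X - RatFunc.C ζ)) := by
        have n2 : (RatFunc.C (conjF hF b) - RatFunc.C (conjF hF a) : RatFunc F) ≠ 0 := by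
          rw [← map_sub, Ne, map_eq_zero]
          exact hne
        rw [RatFunc.smul_eq_C_mul, map_inv₀, map_sub]
        field_simp
        ring
      rw [e]
      exact (W ω).smul_mem _ ((W ω).sub_mem ka kb)
    have hone : (1 : RatFunc F) ∈ W ω := by
      have e : (1 : RatFunc F) = (RatFunc.X - RatFunc.C (conjF hF a)) / (RatFunc.X - RatFunc.C ζ) -
          (ζ - conjF hF a) • (RatFunc.X - RatFunc.C ζ : RatFunc F)⁻¹ := by
        rw [RatFunc.smul_eq_C_mul, map_sub]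
        field_simp
        ring
      rw [e]
      exact (W ω).sub_mem ka ((W ω).smul_mem _ hfr)
    refine ⟨hone, ?_⟩
    change uz hF ζ ∈ W ω
    have e : uz hF ζ = 1 + (ζ - conjF hF ζ) • (RatFunc.X - RatFunc.C ζ : RatFunc F)⁻¹ := by
      rw [RatFunc.smul_eq_C_mul, map_sub]
      unfold uz
      field_simp
      ring
    rw [e]
    exact (W ω).add_mem hone ((W ω).smul_mem _ hfr)
  have hsum : ∑ z ∈ T, P.real (B z \ A) ≤ 1 := by
    rw [← measureReal_biUnion_finset hdisj fun z _ => (hBm z).diff hAm]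
    exact measureReal_le_one
  have hge : ∀ z ∈ T, η < P.real (B z \ A) := by
    intro z hz
    obtain ⟨hz1, hz2⟩ := hT hz
    refine hz2.trans_le ?_
    have e1 : P.real (B z) = P.real A := by
      have := pr2 h (uz_mem z hz1) 1 (uz hF ζ)
      rw [mul_one] at this
      exact this
    have e2 : P.real (A \ B z) = P.real (B z \ A) := by
      have h1 := measureReal_sdiff_add_inter (μ := P) (s := A) (hBm z)
      have h2 := measureReal_sdiff_add_inter (μ := P) (s := B z) hAm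
      rw [Set.inter_comm] at h2
      linarith
    rw [← e2]
    refine measureReal_mono ?_
    rintro ω ⟨h1, h2, h3⟩
    exact ⟨⟨h1, h2⟩, fun h4 => h3 h4.1⟩
  have h4 : (n : ℝ) * η ≤ ∑ z ∈ T, P.real (B z \ A) := by
    rw [← hTc, ← nsmul_eq_mul]
    exact Finset.card_nsmul_le_sum _ _ _ fun z hz => (hge z hz).le
  rw [div_lt_iff₀ hη] at hn
  linarith

/-- 2.2 -/
theorem RSub.exists_base (h : RSub hF P W) {η : ℝ} (hη : 0 < η) :
    ∃ ζ₀ : F, conjF hF ζ₀ ≠ ζ₀ ∧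
      (∀ ζ : F, conjF hF ζ ≠ ζ →
        P.real {ω | (1 : RatFunc F) ∈ W ω ∧ uz hF ζ₀ ∉ W ω}
          ≤ P.real {ω | (1 : RatFunc F) ∈ W ω ∧ uz hF ζ ∉ W ω} + η) ∧
      {ζ : F | conjF hF ζ ≠ ζ ∧ 2 * η <
        P.real {ω | (1 : RatFunc F) ∈ W ω ∧ uz hF ζ₀ ∉ W ω ∧ uz hF ζ ∈ W ω}}.Finite := by
  classical
  have hp := h.prob
  set bet : F → ℝ := fun ζ => P.real {ω | (1 : RatFunc F) ∈ W ω ∧ uz hF ζ ∉ W ω} with hbet
  set S : Set ℝ := bet '' {ζ | conjF hF ζ ≠ ζ} with hS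
  have hSb : BddBelow S := ⟨0, by rintro _ ⟨ζ, -, rfl⟩; exact measureReal_nonneg⟩
  have hI : Complex.I ∈ F := by
    refine hF.root 2 _ two_pos ?_
    rw [Complex.I_sq]
    exact F.neg_mem F.one_mem
  have hSn : S.Nonempty := by
    refine ⟨_, ⟨⟨Complex.I, hI⟩, ?_, rfl⟩⟩
    intro hcon
    have h1 : (starRingEnd ℂ) Complex.I = Complex.I := congrArg Subtype.val hcon
    rw [Complex.conj_I] at h1
    have h2 := congrArg Complex.im h1
    simp at h2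
    norm_num at h2
  obtain ⟨_, ⟨ζ₀, hζ₀, rfl⟩, hlt⟩ := exists_lt_of_csInf_lt hSn (lt_add_of_pos_right (sInf S) hη)
  have hinf : ∀ ζ : F, conjF hF ζ ≠ ζ → sInf S ≤ bet ζ := fun ζ hζ => csInf_le hSb ⟨ζ, hζ, rfl⟩
  refine ⟨ζ₀, hζ₀, fun ζ hζ => ?_, ?_⟩
  · have := hinf ζ hζ
    change bet ζ₀ ≤ bet ζ + η
    linarith
  refine (h.finite_bad ζ₀ hζ₀ hη).subset ?_
  rintro z ⟨hz1, hz2⟩
  refine ⟨hz1, ?_⟩
  by_contra hcon
  rw [not_lt] at hcon
  have m0 : MeasurableSet (IN W (uz hF ζ₀)) := h.meas _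
  have mz : MeasurableSet (IN W (uz hF z)) := h.meas _
  have a1 := measureReal_sdiff_add_inter (μ := P) (s := IN W (1 : RatFunc F)) m0
  have a2 := measureReal_sdiff_add_inter (μ := P) (s := IN W (1 : RatFunc F)) mz
  have a3 := measureReal_sdiff_add_inter (μ := P) (s := IN W (1 : RatFunc F) ∩ IN W (uz hF ζ₀)) mz
  have a4 := measureReal_sdiff_add_inter (μ := P) (s := IN W (1 : RatFunc F) ∩ IN W (uz hF z)) m0
  have e1 : (IN W (1 : RatFunc F) ∩ IN W (uz hF z)) \ IN W (uz hF ζ₀) =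
      {ω | (1 : RatFunc F) ∈ W ω ∧ uz hF ζ₀ ∉ W ω ∧ uz hF z ∈ W ω} := by
    ext ω
    constructor
    · rintro ⟨⟨h1, h2⟩, h3⟩
      exact ⟨h1, h3, h2⟩
    · rintro ⟨h1, h3, h2⟩
      exact ⟨⟨h1, h2⟩, h3⟩
  have e2 : (IN W (1 : RatFunc F) ∩ IN W (uz hF z)) ∩ IN W (uz hF ζ₀) =
      (IN W (1 : RatFunc F) ∩ IN W (uz hF ζ₀)) ∩ IN W (uz hF z) := by
    rw [Set.inter_assoc, Set.inter_comm (IN W (uz hF z)), ← Set.inter_assoc]
  have e3 : (IN W (1 : RatFunc F) ∩ IN W (uz hF ζ₀)) \ IN W (uz hF z) =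
      {ω | (1 : RatFunc F) ∈ W ω ∧ uz hF ζ₀ ∈ W ω ∧ uz hF z ∉ W ω} := by
    ext ω
    constructor
    · rintro ⟨⟨h1, h2⟩, h3⟩
      exact ⟨h1, h2, h3⟩
    · rintro ⟨h1, h2, h3⟩
      exact ⟨⟨h1, h2⟩, h3⟩
  rw [e1, e2] at a4
  rw [e3] at a3
  have b1 := hinf z hz1
  have b0 : bet ζ₀ = P.real (IN W (1 : RatFunc F) \ IN W (uz hF ζ₀)) := rfl
  have bz : bet z = P.real (IN W (1 : RatFunc F) \ IN W (uz hF z)) := rfl
  rw [bz] at b1
  rw [b0] at hlt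
  linarith

end Pool.Agent.Lib.P3852C
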