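import Pool.Agent.Lib.P3852C.RDefs

/-!
# Algebra for 2.3: the points `z t = t + i t²`

For `s ≠ t` natural numbers `≥ 1`, `z s - z t = (s - t)(1 + i (s + t))`.
`u_{z s}⁻¹ u_{z t} = u_{conj z s} u_{z t} = 1 + c/(X - conj z s) + d/(X - z t)` with
`c = (conj z s - z s)(conj z s - conj z t)/(conj z s - z t)`,
`d = (z t - conj z t)(z s - z t)/(conj z s - z t)`; all differences are nonzero
(`conj z s - z t = (s - t) - i (s² + t²) ≠ 0`).
If `1 ∈ W` and the four products are in `W` then with `x = 1/(X - conj z s)`,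
`x' = 1/(X - conj z s')`, `y, y'`: `c_st x + d_st y ∈ W` etc.; eliminating `x', y, y'`:
`(ρ_st ρ_s't' - ρ_s't ρ_st') x ∈ W`, `ρ = c/d`, and the factor is nonzero since
`ρ_st ρ_s't'/(ρ_s't ρ_st') = conj R / R`, `R` the cross ratio, up to a real factor
`(1+i(s+t))(1+i(s'+t'))/((1+i(s'+t))(1+i(s+t')))`, which is not real: with `S = s+s'+t+t'`,
`(1+ia)(1+ib) = (1-ab) + iS`, `(1+ia')(1+ib') = (1-a'b') + iS`, and
`ab - a'b' = (s+t)(s'+t') - (s'+t)(s+t') = (s-s')(t'-t) ≠ 0`.
Then `u_{conj z s} = 1 + (conj z s - z s) x ∈ W`.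
-/

set_option autoImplicit false

namespace Pool.Agent.Lib.P3852C

section

namespace RAlgAux

/-- The fraction `1 / (X - a)`. -/
noncomputable def fr {F : Subfield ℂ} (a : F) : RatFunc F := (RatFunc.X - RatFunc.C a)⁻¹

variable {F : Subfield ℂ} (hF : GoodField F)

lemma X_sub_ne (a : F) : (RatFunc.X - RatFunc.C a : RatFunc F) ≠ 0 := by
  have h : (RatFunc.X - RatFunc.C a : RatFunc F) =
      algebraMap (Polynomial F) (RatFunc F) (Polynomial.X - Polynomial.C a) := by
    rw [map_sub, RatFunc.algebraMap_X, RatFunc.algebraMap_C]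
  rw [h]
  exact RatFunc.algebraMap_ne_zero (Polynomial.X_sub_C_ne_zero a)

lemma smul_eq_C (a : F) (x : RatFunc F) : a • x = RatFunc.C a * x := by
  rw [RatFunc.smul_eq_C_mul]

lemma uz_eq (ζ : F) : uz hF ζ = 1 + (ζ - conjF hF ζ) • fr ζ := by
  have h := X_sub_ne ζ
  rw [smul_eq_C]
  unfold uz fr
  field_simp
  rw [map_sub]
  ring

lemma fr_mul {a b : F} (hab : a ≠ b) : fr a * fr b = (a - b)⁻¹ • (fr a - fr b) := by
  have h1 := X_sub_ne a
  have h2 := X_sub_ne b
  have h3 : (RatFunc.C a - RatFunc.C b : RatFunc F) ≠ 0 := by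
    rw [← map_sub, Ne, map_eq_zero]
    exact sub_ne_zero.2 hab
  rw [smul_eq_C, map_inv₀, map_sub]
  unfold fr
  field_simp
  ring

/-- Remark L. -/
lemma remarkL (W : Submodule F (RatFunc F)) {ζ : F} (hζ : conjF hF ζ ≠ ζ) {w : RatFunc F} (h1 : w ∈ W)
    (h2 : w * uz hF ζ ∈ W) : w * fr ζ ∈ W := by
  have e : w * fr ζ = (ζ - conjF hF ζ)⁻¹ • (w * uz hF ζ - w) := by
    have hne : ζ - conjF hF ζ ≠ 0 := sub_ne_zero.2 (Ne.symm hζ)
    rw [uz_eq, mul_add, mul_one, add_sub_cancel_left, mul_smul_comm, smul_smul, inv_mul_cancel₀ hne,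
      one_smul]
  rw [e]
  exact W.smul_mem _ (W.sub_mem h2 h1)

/-- The key step of 2.1. -/
lemma disj (W : Submodule F (RatFunc F)) {ζ a b : F} (hζ : conjF hF ζ ≠ ζ) (hab : a ≠ b)
    (h1 : uz hF a ∈ W) (h2 : uz hF a * uz hF ζ ∈ W) (h3 : uz hF b ∈ W)
    (h4 : uz hF b * uz hF ζ ∈ W) : (1 : RatFunc F) ∈ W ∧ uz hF ζ ∈ W := by
  -- `(X - conj a) / (X - ζ)` is in `W`
  have key : ∀ c : F, uz hF c ∈ W → uz hF c * uz hF ζ ∈ W → 1 + (ζ - conjF hF c) • fr ζ ∈ W := by
    intro c g1 g2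
    have g3 := remarkL hF W hζ g1 g2
    have e : 1 + (ζ - conjF hF c) • fr ζ = uz hF c + (ζ - c) • (uz hF c * fr ζ) := by
      have n1 := X_sub_ne ζ
      have n2 := X_sub_ne c
      rw [smul_eq_C, smul_eq_C, map_sub, map_sub]
      unfold uz fr
      field_simp
      ring
    rw [e]
    exact W.add_mem g1 (W.smul_mem _ g3)
  have ka := key a h1 h2
  have kb := key b h3 h4
  have hfr : fr ζ ∈ W := by
    have hne : conjF hF b - conjF hF a ≠ 0 := by
      rw [← map_sub, Ne, map_eq_zero]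
      exact sub_ne_zero.2 (Ne.symm hab)
    have e : fr ζ = (conjF hF b - conjF hF a)⁻¹ •
        ((1 + (ζ - conjF hF a) • fr ζ) - (1 + (ζ - conjF hF b) • fr ζ)) := by
      rw [add_sub_add_left_eq_sub, ← sub_smul, smul_smul]
      rw [show ζ - conjF hF a - (ζ - conjF hF b) = conjF hF b - conjF hF a by ring, inv_mul_cancel₀ hne, one_smul]
    rw [e]
    exact W.smul_mem _ (W.sub_mem ka kb)
  have hone : (1 : RatFunc F) ∈ W := by
    have := W.sub_mem ka (W.smul_mem (ζ - conjF hF a) hfr)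
    rwa [add_sub_cancel_right] at this
  refine ⟨hone, ?_⟩
  rw [uz_eq]
  exact W.add_mem hone (W.smul_mem _ hfr)

/-- The product `u_s⁻¹ u_t`. -/
lemma v_eq {s t : F} (hst : conjF hF s ≠ t) : uz hF (conjF hF s) * uz hF t =
    1 + ((conjF hF s - s) * (conjF hF s - conjF hF t) / (conjF hF s - t)) • fr (conjF hF s) +
      ((t - conjF hF t) * (s - t) / (conjF hF s - t)) • fr t := by
  have hne : conjF hF s - t ≠ 0 := sub_ne_zero.2 hst
  have e1 : uz hF (conjF hF s) = 1 + (conjF hF s - s) • fr (conjF hF s) := by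
    rw [uz_eq, conjF_conjF]
  rw [e1, uz_eq, mul_add, mul_one, add_mul, one_mul, smul_mul_smul_comm, fr_mul hst, smul_smul,
    smul_sub]
  have e2 : ((conjF hF s - s) * (t - conjF hF t) * (conjF hF s - t)⁻¹) = 
      (conjF hF s - s) * (conjF hF s - conjF hF t) / (conjF hF s - t) - (conjF hF s - s) := by
    field_simp
    ring
  have e3 : ((conjF hF s - s) * (t - conjF hF t) * (conjF hF s - t)⁻¹) = 
      (t - conjF hF t) - (t - conjF hF t) * (s - t) / (conjF hF s - t) := by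
    field_simp
    ring
  have e4 : ((conjF hF s - s) * (t - conjF hF t) * (conjF hF s - t)⁻¹) • fr (conjF hF s) =
      ((conjF hF s - s) * (conjF hF s - conjF hF t) / (conjF hF s - t)) • fr (conjF hF s) -
        (conjF hF s - s) • fr (conjF hF s) := by
    rw [e2, sub_smul]
  have e5 : ((conjF hF s - s) * (t - conjF hF t) * (conjF hF s - t)⁻¹) • fr t =
      (t - conjF hF t) • fr t - ((t - conjF hF t) * (s - t) / (conjF hF s - t)) • fr t := by
    rw [e3, sub_smul]
  rw [e4, e5]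
  abel

/-- The elimination of 2.3. -/
lemma elim (W : Submodule F (RatFunc F)) {s s' t t' : F} (hone : (1 : RatFunc F) ∈ W)
    (hs : conjF hF s ≠ s) (ht : conjF hF t ≠ t) (ht' : conjF hF t' ≠ t')
    (h1 : conjF hF s ≠ t) (h2 : conjF hF s' ≠ t) (h3 : conjF hF s ≠ t') (h4 : conjF hF s' ≠ t')
    (hst : s ≠ t) (hs't : s' ≠ t) (hst' : s ≠ t') (hs't' : s' ≠ t') (hs' : conjF hF s' ≠ s')
    (m1 : uz hF (conjF hF s) * uz hF t ∈ W) (m2 : uz hF (conjF hF s') * uz hF t ∈ W)
    (m3 : uz hF (conjF hF s) * uz hF t' ∈ W) (m4 : uz hF (conjF hF s') * uz hF t' ∈ W)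
    (hR : (conjF hF s - conjF hF t) * (conjF hF s' - conjF hF t') * ((s' - t) * (s - t')) ≠
      (conjF hF s' - conjF hF t) * (conjF hF s - conjF hF t') * ((s - t) * (s' - t'))) :
    uz hF (conjF hF s) ∈ W := by
  have ne : ∀ {a b : F}, a ≠ b → a - b ≠ 0 := fun h => sub_ne_zero.2 h
  -- normalised relations
  have key : ∀ {a b : F}, conjF hF a ≠ b → a ≠ b → conjF hF b ≠ b →
      uz hF (conjF hF a) * uz hF b ∈ W →
      ((conjF hF a - a) * (conjF hF a - conjF hF b) / ((b - conjF hF b) * (a - b))) • fr (conjF hF a) + fr b ∈ W := by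
    intro a b g1 g2 g3 g4
    rw [v_eq hF g1] at g4
    have n1 := ne g1
    have n2 := ne g2
    have n3 := ne (Ne.symm g3)
    have e : ((conjF hF a - a) * (conjF hF a - conjF hF b) / ((b - conjF hF b) * (a - b))) • fr (conjF hF a) + fr b =
        ((conjF hF a - b) / ((b - conjF hF b) * (a - b))) •
          ((1 + ((conjF hF a - a) * (conjF hF a - conjF hF b) / (conjF hF a - b)) • fr (conjF hF a) +
            ((b - conjF hF b) * (a - b) / (conjF hF a - b)) • fr b) - 1) := by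
      rw [add_assoc, add_sub_cancel_left, smul_add, smul_smul, smul_smul]
      have e1 : (conjF hF a - b) / ((b - conjF hF b) * (a - b)) *
          ((conjF hF a - a) * (conjF hF a - conjF hF b) / (conjF hF a - b)) =
          (conjF hF a - a) * (conjF hF a - conjF hF b) / ((b - conjF hF b) * (a - b)) := by
        field_simp
      have e2 : (conjF hF a - b) / ((b - conjF hF b) * (a - b)) *
          ((b - conjF hF b) * (a - b) / (conjF hF a - b)) = 1 := by
        field_simp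
      rw [e1, e2, one_smul]
    rw [e]
    exact W.smul_mem _ (W.sub_mem g4 hone)
  have k1 := key h1 hst ht m1
  have k2 := key h2 hs't ht m2
  have k3 := key h3 hst' ht' m3
  have k4 := key h4 hs't' ht' m4
  set p11 := (conjF hF s - s) * (conjF hF s - conjF hF t) / ((t - conjF hF t) * (s - t)) with hp11
  set p21 := (conjF hF s' - s') * (conjF hF s' - conjF hF t) / ((t - conjF hF t) * (s' - t)) with hp21
  set p12 := (conjF hF s - s) * (conjF hF s - conjF hF t') / ((t' - conjF hF t') * (s - t')) with hp12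
  set p22 := (conjF hF s' - s') * (conjF hF s' - conjF hF t') / ((t' - conjF hF t') * (s' - t')) with hp22
  have hdet : p11 * p22 - p12 * p21 ≠ 0 := by
    intro h0
    apply hR
    have n1 := ne hst
    have n2 := ne hs't
    have n3 := ne hst'
    have n4 := ne hs't'
    have n5 := ne hs
    have n6 := ne hs'
    have n7 := ne (Ne.symm ht)
    have n8 := ne (Ne.symm ht')
    rw [hp11, hp22, hp12, hp21] at h0
    rw [sub_eq_zero, div_mul_div_comm, div_mul_div_comm, div_eq_div_iff (by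
      simp only [ne_eq, mul_eq_zero, not_or]; exact ⟨⟨n7, n1⟩, n8, n4⟩) (by
      simp only [ne_eq, mul_eq_zero, not_or]; exact ⟨⟨n8, n3⟩, n7, n2⟩)] at h0
    have hc : (conjF hF s - s) * (conjF hF s' - s') * ((t - conjF hF t) * (t' - conjF hF t')) ≠ 0 := by
      simp only [ne_eq, mul_eq_zero, not_or]
      exact ⟨⟨n5, n6⟩, n7, n8⟩
    apply mul_left_cancel₀ hc
    linear_combination h0
  -- eliminate
  have q1 : p11 • fr (conjF hF s) - p21 • fr (conjF hF s') ∈ W := by
    have := W.sub_mem k1 k2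
    rwa [add_sub_add_right_eq_sub] at this
  have q2 : p12 • fr (conjF hF s) - p22 • fr (conjF hF s') ∈ W := by
    have := W.sub_mem k3 k4
    rwa [add_sub_add_right_eq_sub] at this
  have q3 : fr (conjF hF s) ∈ W := by
    have e : fr (conjF hF s) = (p11 * p22 - p12 * p21)⁻¹ •
        (p22 • (p11 • fr (conjF hF s) - p21 • fr (conjF hF s')) -
          p21 • (p12 • fr (conjF hF s) - p22 • fr (conjF hF s'))) := by
      have e1 : p22 • (p11 • fr (conjF hF s) - p21 • fr (conjF hF s')) -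
          p21 • (p12 • fr (conjF hF s) - p22 • fr (conjF hF s')) = (p11 * p22 - p12 * p21) • fr (conjF hF s) := by
        module
      rw [e1, smul_smul, inv_mul_cancel₀ hdet, one_smul]
    rw [e]
    exact W.smul_mem _ (W.sub_mem (W.smul_mem _ q1) (W.smul_mem _ q2))
  rw [uz_eq, conjF_conjF]
  exact W.add_mem hone (W.smul_mem _ q3)


end RAlgAux

end

set_option linter.unusedVariables false in
/-- `z t = t + i t²` as an element of `F` -/
noncomputable def zt {F : Subfield ℂ} (hF : GoodField F) (hI : Complex.I ∈ F) (t : ℕ) : F :=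
  ⟨(t : ℂ) + Complex.I * (t : ℂ) ^ 2, F.add_mem (natCast_mem F t)
    (F.mul_mem hI (F.pow_mem (natCast_mem F t) 2))⟩

theorem zt_injective {F : Subfield ℂ} (hF : GoodField F) (hI : Complex.I ∈ F) :
    Function.Injective (zt hF hI) := by
  intro s t h
  have h1 : ((zt hF hI s : F) : ℂ).re = ((zt hF hI t : F) : ℂ).re := by rw [h]
  have e : ∀ t : ℕ, ((zt hF hI t : F) : ℂ).re = (t : ℝ) := by
    intro t
    have : ((zt hF hI t : F) : ℂ) = ((t : ℝ) : ℂ) + Complex.I * (((t : ℝ) ^ 2 : ℝ) : ℂ) := by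
      change (t : ℂ) + Complex.I * (t : ℂ) ^ 2 = _
      push_cast; rfl
    rw [this]
    simp only [Complex.add_re, Complex.ofReal_re, Complex.mul_re, Complex.I_re, zero_mul,
      Complex.ofReal_im, Complex.I_im, mul_zero, sub_self, add_zero]
  rw [e, e] at h1
  exact_mod_cast h1

theorem zt_not_real {F : Subfield ℂ} (hF : GoodField F) (hI : Complex.I ∈ F) (t : ℕ)
    (ht : 0 < t) : conjF hF (zt hF hI t) ≠ zt hF hI t := by
  intro h
  have h1 : ((conjF hF (zt hF hI t) : F) : ℂ).im = ((zt hF hI t : F) : ℂ).im := by rw [h]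
  have e : ((zt hF hI t : F) : ℂ).im = (t : ℝ) ^ 2 := by
    have : ((zt hF hI t : F) : ℂ) = ((t : ℝ) : ℂ) + Complex.I * (((t : ℝ) ^ 2 : ℝ) : ℂ) := by
      change (t : ℂ) + Complex.I * (t : ℂ) ^ 2 = _
      push_cast; rfl
    rw [this]
    simp only [Complex.add_im, Complex.ofReal_re, Complex.mul_im, Complex.I_re, zero_mul,
      Complex.ofReal_im, Complex.I_im, zero_add, one_mul]
  rw [coe_conjF, Complex.conj_im, e] at h1
  have ht' : (0 : ℝ) < t := by exact_mod_cast ht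
  have h2 : (0 : ℝ) < (t : ℝ) ^ 2 := by positivity
  linarith

theorem conj_zt_not_real {F : Subfield ℂ} (hF : GoodField F) (hI : Complex.I ∈ F) (t : ℕ)
    (ht : 0 < t) : conjF hF (conjF hF (zt hF hI t)) ≠ conjF hF (zt hF hI t) := by
  intro h
  rw [conjF_conjF] at h
  exact zt_not_real hF hI t ht h.symm

lemma RAlgAux.im_zt {F : Subfield ℂ} (hF : GoodField F) (hI : Complex.I ∈ F) (t : ℕ) :
    ((zt hF hI t : F) : ℂ).im = (t : ℝ) ^ 2 := by
  have : ((zt hF hI t : F) : ℂ) = ((t : ℝ) : ℂ) + Complex.I * (((t : ℝ) ^ 2 : ℝ) : ℂ) := by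
    change (t : ℂ) + Complex.I * (t : ℂ) ^ 2 = _
    push_cast; rfl
  rw [this]
  simp only [Complex.add_im, Complex.ofReal_re, Complex.mul_im, Complex.I_re, zero_mul,
    Complex.ofReal_im, Complex.I_im, zero_add, one_mul]

lemma RAlgAux.cj_zt_ne {F : Subfield ℂ} (hF : GoodField F) (hI : Complex.I ∈ F) (s t : ℕ)
    (hs : 0 < s) : conjF hF (zt hF hI s) ≠ zt hF hI t := by
  intro h
  have h1 : ((conjF hF (zt hF hI s) : F) : ℂ).im = ((zt hF hI t : F) : ℂ).im := by rw [h]
  rw [coe_conjF, Complex.conj_im, RAlgAux.im_zt, RAlgAux.im_zt] at h1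
  have hs' : (0 : ℝ) < s := by exact_mod_cast hs
  have h2 : (0 : ℝ) < (s : ℝ) ^ 2 := by positivity
  have h3 : (0 : ℝ) ≤ (t : ℝ) ^ 2 := by positivity
  linarith

lemma RAlgAux.cross {F : Subfield ℂ} (hF : GoodField F) (hI : Complex.I ∈ F) {s s' t t' : ℕ}
    (hs : 0 < s) (h1 : s ≠ s') (h2 : t ≠ t') (h3 : s ≠ t) (h4 : s' ≠ t) (h5 : s ≠ t')
    (h6 : s' ≠ t') :
    (conjF hF (zt hF hI s) - conjF hF (zt hF hI t)) * (conjF hF (zt hF hI s') - conjF hF (zt hF hI t')) *
        ((zt hF hI s' - zt hF hI t) * (zt hF hI s - zt hF hI t')) ≠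
      (conjF hF (zt hF hI s') - conjF hF (zt hF hI t)) * (conjF hF (zt hF hI s) - conjF hF (zt hF hI t')) *
        ((zt hF hI s - zt hF hI t) * (zt hF hI s' - zt hF hI t')) := by
  intro h
  have h' := congrArg (fun x : F => (x : ℂ)) h
  push_cast at h'
  have z1 : ∀ t : ℕ, ((zt hF hI t : F) : ℂ) = (t : ℂ) + Complex.I * (t : ℂ) ^ 2 := fun t => rfl
  have z2 : ∀ t : ℕ, ((conjF hF (zt hF hI t) : F) : ℂ) = (t : ℂ) - Complex.I * (t : ℂ) ^ 2 := by
    intro t
    rw [coe_conjF, z1]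
    simp only [map_add, map_mul, map_pow, Complex.conj_I, map_natCast]
    ring
  simp only [coe_conjF, z1, map_add, map_mul, map_pow, Complex.conj_I, map_natCast] at h'
  have key : ((s : ℂ) - t) * ((s' : ℂ) - t') * ((s' : ℂ) - t) * ((s : ℂ) - t') *
      (2 * Complex.I ^ 3 * ((s : ℂ) + t + s' + t') * (((s : ℂ) - s') * ((t : ℂ) - t'))) = 0 := by
    linear_combination (-1) * h'
  have ne : ∀ {a b : ℕ}, a ≠ b → (a : ℂ) - b ≠ 0 := by
    intro a b hab h0
    apply hab
    have : (a : ℂ) = b := by linear_combination h0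
    exact_mod_cast this
  have hS : (s : ℂ) + t + s' + t' ≠ 0 := by
    have : (s : ℂ) + t + s' + t' = ((s + t + s' + t' : ℕ) : ℂ) := by
      push_cast; ring
    rw [this]
    exact_mod_cast (by omega : s + t + s' + t' ≠ 0)
  have hI3 : (2 : ℂ) * Complex.I ^ 3 ≠ 0 := mul_ne_zero two_ne_zero (pow_ne_zero _ Complex.I_ne_zero)
  exact (mul_ne_zero (mul_ne_zero (mul_ne_zero (mul_ne_zero (ne h3) (ne h6)) (ne h4)) (ne h5))
    (mul_ne_zero (mul_ne_zero hI3 hS) (mul_ne_zero (ne h1) (ne h2)))) key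


/-- the algebraic heart of 2.3 -/
theorem mem_of_four {F : Subfield ℂ} (hF : GoodField F) (hI : Complex.I ∈ F)
    (W : Submodule F (RatFunc F)) (s s' t t' : ℕ) (hs : 0 < s) (hs' : 0 < s') (ht : 0 < t)
    (ht' : 0 < t') (h1 : s ≠ s') (h2 : t ≠ t') (h3 : s ≠ t) (h4 : s' ≠ t) (h5 : s ≠ t')
    (h6 : s' ≠ t') (hone : (1 : RatFunc F) ∈ W)
    (a : uz hF (conjF hF (zt hF hI s)) * uz hF (zt hF hI t) ∈ W)
    (b : uz hF (conjF hF (zt hF hI s')) * uz hF (zt hF hI t) ∈ W)
    (c : uz hF (conjF hF (zt hF hI s)) * uz hF (zt hF hI t') ∈ W)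
    (d : uz hF (conjF hF (zt hF hI s')) * uz hF (zt hF hI t') ∈ W) :
    uz hF (conjF hF (zt hF hI s)) ∈ W := by
  have hinj := zt_injective hF hI
  exact RAlgAux.elim hF W hone (zt_not_real hF hI s hs) (zt_not_real hF hI t ht)
    (zt_not_real hF hI t' ht') (RAlgAux.cj_zt_ne hF hI s t hs) (RAlgAux.cj_zt_ne hF hI s' t hs')
    (RAlgAux.cj_zt_ne hF hI s t' hs) (RAlgAux.cj_zt_ne hF hI s' t' hs') (hinj.ne h3) (hinj.ne h4)
    (hinj.ne h5) (hinj.ne h6) (zt_not_real hF hI s' hs') a b c d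
    (RAlgAux.cross hF hI hs h1 h2 h3 h4 h5 h6)

end Pool.Agent.Lib.P3852C
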