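import Pool.Agent.Lib.P3852C.RA
import Pool.Agent.Lib.P3852C.RAlg
import Pool.Agent.Lib.P3852C.FourCyc
import Pool.Agent.Lib.P3852C.GF

/-!
# 2.3: `inf β = 0`

Suppose `β ζ ≥ ε` for all nonreal `ζ`. Put `δ = ε²/2`, `n` with `1/n ≤ ε²/2`, `2/n ≤ δ⁴/4`,
`η = δ⁴/8` (so `2/n + 2η < δ⁴`). `ζ₀` from `RSub.exists_base` for `η`. Choose `n` distinct natural
numbers `t ≥ 1` with `z t` and `conj (z t)` outside the finite exceptional set of `exists_base`.
`N w = {w ∈ W, u_{ζ₀} w ∉ W}`; `P (N w) = β ζ₀ ≥ ε` for `w ∈ UG`.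
`B s t = N 1 ∩ N (u_s⁻¹ u_t)` for `s ≠ t` and `∅` for `s = t`; `P (B s t) = P (N u_s ∩ N u_t)`
(`inv_gen` with `g = u_s`). `sum_inter_ge`: `∑ P (B s t) ≥ n² ε² - n ≥ δ n²`. `exists_four` gives
`s, s', t, t'` with `P (four) > 2η`; on this event `1 ∈ W` and the four products are in `W`, so
`u_{conj z s} ∈ W` by `mem_of_four`; but `P {1 ∈ W, u_{ζ₀} ∉ W, u_{conj z s} ∈ W} ≤ 2η`.
-/

set_option autoImplicit false

namespace Pool.Agent.Lib.P3852C

open MeasureTheory

variable {F : Subfield ℂ} {hF : GoodField F} {Ω : Type} [MeasurableSpace Ω]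
  {P : Measure Ω} {W : Ω → Submodule F (RatFunc F)}

theorem RSub.inf_zero (h : RSub hF P W) {ε : ℝ} (hε : 0 < ε) :
    ∃ ζ : F, conjF hF ζ ≠ ζ ∧ P.real {ω | (1 : RatFunc F) ∈ W ω ∧ uz hF ζ ∉ W ω} < ε := by
  classical
  have hp := h.prob
  by_contra hcon
  push Not at hcon
  have hI := hF.I_mem
  set δ : ℝ := ε ^ 2 / 2 with hδ
  have hδ0 : 0 < δ := by positivity
  obtain ⟨n, hn⟩ := exists_nat_gt (max (1 / δ) (8 / δ ^ 4))
  have hn1 : 1 / δ < n := (le_max_left _ _).trans_lt hn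
  have hn2 : 8 / δ ^ 4 < n := (le_max_right _ _).trans_lt hn
  have hn0 : (0 : ℝ) < n := lt_trans (by positivity) hn1
  have hn0' : 0 < n := by exact_mod_cast hn0
  set η : ℝ := δ ^ 4 / 8 with hη
  have hη0 : 0 < η := by positivity
  obtain ⟨ζ₀, hζ₀, -, hfin⟩ := h.exists_base hη0
  set E : Set F := {ζ : F | conjF hF ζ ≠ ζ ∧ 2 * η <
    P.real {ω | (1 : RatFunc F) ∈ W ω ∧ uz hF ζ₀ ∉ W ω ∧ uz hF ζ ∈ W ω}} with hE
  -- the good integers
  have hinj := zt_injective hF hI
  have hinj2 : Function.Injective (fun t => conjF hF (zt hF hI t)) :=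
    (conjF hF).injective.comp hinj
  have hbad : ({0} ∪ (zt hF hI ⁻¹' E) ∪ ((fun t => conjF hF (zt hF hI t)) ⁻¹' E) : Set ℕ).Finite :=
    ((Set.finite_singleton 0).union (hfin.preimage hinj.injOn)).union (hfin.preimage hinj2.injOn)
  have hgood := hbad.infinite_compl
  set τ : ℕ → ℕ := fun i => (hgood.natEmbedding _ i : ℕ) with hτ
  have hτinj : Function.Injective τ := fun i j hij => (hgood.natEmbedding _).injective (Subtype.ext hij)
  have hτpos : ∀ i, 0 < τ i := by
    intro i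
    have h1 := (hgood.natEmbedding _ i).2
    by_contra h0
    apply h1
    left
    left
    change τ i = 0
    omega
  have hτE : ∀ i, conjF hF (zt hF hI (τ i)) ∉ E := by
    intro i hi
    have h1 := (hgood.natEmbedding _ i).2
    exact h1 (Or.inr hi)
  -- the events
  set N : RatFunc F → Set Ω := fun w => {ω | w ∈ W ω ∧ w * uz hF ζ₀ ∉ W ω} with hN
  have hNm : ∀ w, MeasurableSet (N w) := fun w => (h.meas _).inter (h.meas _).compl
  have hNp : ∀ w ∈ UG hF, ε ≤ P.real (N w) := by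
    intro w hw
    have h1 := h.inv_gen hw {1} {uz hF ζ₀}
    simp only [Finset.mem_singleton, forall_eq, mul_one] at h1
    rw [hN]
    rw [h1]
    exact hcon ζ₀ hζ₀
  set u : Fin n → RatFunc F := fun i => uz hF (zt hF hI (τ i)) with hu
  set v : Fin n → RatFunc F := fun i => uz hF (conjF hF (zt hF hI (τ i))) with hv
  have huG : ∀ i, u i ∈ UG hF := fun i => uz_mem _ (zt_not_real hF hI _ (hτpos _))
  have huv : ∀ i, u i * v i = 1 := fun i => uz_mul_conj _
  set B : Fin n → Fin n → Set Ω := fun i j => if i = j then ∅ else N 1 ∩ N (v i * u j) with hB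
  have hBm : ∀ i j, MeasurableSet (B i j) := by
    intro i j
    rw [hB]
    simp only
    split_ifs
    · exact MeasurableSet.empty
    · exact (hNm _).inter (hNm _)
  have hBdiag : ∀ i, B i i = ∅ := by
    intro i
    rw [hB]
    simp
  have hBne : ∀ {i j}, i ≠ j → B i j = N 1 ∩ N (v i * u j) := by
    intro i j hij
    rw [hB]
    simp [hij]
  have hBp : ∀ i j, i ≠ j → P.real (B i j) = P.real (N (u i) ∩ N (u j)) := by
    intro i j hij
    rw [hBne hij]
    have h1 := h.inv_gen (huG i) {1, v i * u j} {uz hF ζ₀, v i * u j * uz hF ζ₀}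
    have e1 : {ω | (∀ x ∈ ({1, v i * u j} : Finset (RatFunc F)), u i * x ∈ W ω) ∧
        (∀ y ∈ ({uz hF ζ₀, v i * u j * uz hF ζ₀} : Finset (RatFunc F)), u i * y ∉ W ω)} =
        N (u i) ∩ N (u j) := by
      have e2 : u i * (v i * u j) = u j := by rw [← mul_assoc, huv, one_mul]
      have e3 : u i * (v i * u j * uz hF ζ₀) = u j * uz hF ζ₀ := by
        rw [mul_assoc (v i), ← mul_assoc (u i), huv, one_mul]
      ext ω
      simp only [Finset.mem_insert, Finset.mem_singleton, forall_eq_or_imp, forall_eq, mul_one, e2, e3,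
        Set.mem_inter_iff, hN, Set.mem_ofPred_eq]
      tauto
    have e1' : {ω | (∀ x ∈ ({1, v i * u j} : Finset (RatFunc F)), x ∈ W ω) ∧
        (∀ y ∈ ({uz hF ζ₀, v i * u j * uz hF ζ₀} : Finset (RatFunc F)), y ∉ W ω)} =
        N 1 ∩ N (v i * u j) := by
      ext ω
      simp only [Finset.mem_insert, Finset.mem_singleton, forall_eq_or_imp, forall_eq, one_mul,
        Set.mem_inter_iff, hN, Set.mem_ofPred_eq]
      tauto
    rw [e1, e1'] at h1
    exact h1.symm
  -- the sum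
  have hsum : δ * (n : ℝ) ^ 2 ≤ ∑ i, ∑ j, P.real (B i j) := by
    have h1 := sum_inter_ge P n (fun i => N (u i)) (fun i => hNm _) ε hε.le (fun i => hNp _ (huG i))
    have h2 : ∀ i j, P.real (N (u i) ∩ N (u j)) ≤ P.real (B i j) + (if i = j then 1 else 0) := by
      intro i j
      by_cases hij : i = j
      · rw [if_pos hij]
        have : P.real (N (u i) ∩ N (u j)) ≤ 1 := measureReal_le_one
        have h3 : 0 ≤ P.real (B i j) := measureReal_nonneg
        linarith
      · rw [if_neg hij, add_zero, hBp i j hij]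
    have h3 : ∑ i, ∑ j, P.real (N (u i) ∩ N (u j)) ≤ (∑ i, ∑ j, P.real (B i j)) + n := by
      calc ∑ i, ∑ j, P.real (N (u i) ∩ N (u j))
          ≤ ∑ i, ∑ j, (P.real (B i j) + (if i = j then 1 else 0)) :=
            Finset.sum_le_sum fun i _ => Finset.sum_le_sum fun j _ => h2 i j
        _ = (∑ i, ∑ j, P.real (B i j)) + n := by
            simp only [Finset.sum_add_distrib, Finset.sum_ite_eq, Finset.mem_univ, if_true,
              Finset.sum_const, Finset.card_univ, Fintype.card_fin, nsmul_eq_mul, mul_one]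
    have h4 : (n : ℝ) ≤ δ * (n : ℝ) ^ 2 := by
      rw [div_lt_iff₀ hδ0] at hn1
      nlinarith
    have h5 : ε ^ 2 = 2 * δ := by rw [hδ]; ring
    rw [h5] at h1
    nlinarith
  have hfour : 2 / (n : ℝ) + 2 * η < δ ^ 4 := by
    rw [div_lt_iff₀ (by positivity)] at hn2
    have h1 : 2 / (n : ℝ) < δ ^ 4 / 4 := by
      rw [div_lt_iff₀ hn0]
      linarith
    have h2 : 0 < δ ^ 4 := by positivity
    rw [hη]
    linarith
  obtain ⟨i, i', j, j', g1, g2, g3, g4, g5, g6, hlt⟩ := exists_four P n hn0' B hBm hBdiag δ (2 * η)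
    hδ0.le (by positivity) hsum hfour
  apply hτE i
  refine ⟨conj_zt_not_real hF hI _ (hτpos i), ?_⟩
  · refine hlt.trans_le (measureReal_mono ?_)
    rw [hBne g3, hBne g4, hBne g5, hBne g6]
    rintro ω ⟨⟨⟨a, b⟩, c⟩, d⟩
    have hone : (1 : RatFunc F) ∈ W ω := a.1.1
    refine ⟨hone, ?_, ?_⟩
    · have := a.1.2
      rwa [one_mul] at this
    · have ne : ∀ {x y : Fin n}, x ≠ y → τ x ≠ τ y := fun hxy h' => hxy (Fin.ext (hτinj h'))
      exact mem_of_four hF hI (W ω) (τ i) (τ i') (τ j) (τ j') (hτpos _) (hτpos _) (hτpos _) (hτpos _)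
        (ne g1) (ne g2) (ne g3) (ne g4) (ne g5) (ne g6) hone a.2.1 b.2.1 c.2.1 d.2.1

end Pool.Agent.Lib.P3852C
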