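import Pool.Agent.Lib.P3852C.RDefs

/-!
# Algebra for 2.4

`span (v^j : j ≤ N) = Poly_{≤ N} / (X - ζ₁)^N` for `v = u_{ζ₁}` (the polynomials
`(X - conj ζ₁)^j (X - ζ₁)^(N-j)`, `j ≤ N`, are a basis of the polynomials of degree `≤ N`), and for
`1 ≤ n ≤ N`: `(X - ζ)^n Poly_{≤ N} + (X - conj ζ)^n Poly_{≤ N} = Poly_{≤ N + n}` (coprime, Bezout with
degrees), which contains `(X - conj ζ)(X - ζ)^(n-1)(X - ζ₁)^N`. Divide by `(X - ζ)^n (X - ζ₁)^N`:
`u_ζ ∈ span (v^j) + u_ζ^n span (v^j)`.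
-/

set_option autoImplicit false

namespace Pool.Agent.Lib.P3852C

namespace RPolyAux

open Polynomial in
lemma X_sub_ne {F : Subfield ℂ} (a : F) : (RatFunc.X - RatFunc.C a : RatFunc F) ≠ 0 := by
  have h : (RatFunc.X - RatFunc.C a : RatFunc F) =
      algebraMap (Polynomial F) (RatFunc F) (Polynomial.X - Polynomial.C a) := by
    rw [map_sub, RatFunc.algebraMap_X, RatFunc.algebraMap_C]
  rw [h]
  exact RatFunc.algebraMap_ne_zero (Polynomial.X_sub_C_ne_zero a)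

/-- powers of `1 / (X - ζ₁)` -/
lemma fr_pow_mem {F : Subfield ℂ} (hF : GoodField F) (W : Submodule F (RatFunc F)) (ζ₁ : F)
    (hζ₁ : conjF hF ζ₁ ≠ ζ₁) (N : ℕ) (h1 : ∀ j ≤ N, uz hF ζ₁ ^ j ∈ W) (j : ℕ) (hj : j ≤ N) :
    ((RatFunc.X - RatFunc.C ζ₁ : RatFunc F)⁻¹) ^ j ∈ W := by
  have hne : ζ₁ - conjF hF ζ₁ ≠ 0 := sub_ne_zero.2 (Ne.symm hζ₁)
  have n1 := X_sub_ne ζ₁
  have e : (RatFunc.X - RatFunc.C ζ₁ : RatFunc F)⁻¹ = (ζ₁ - conjF hF ζ₁)⁻¹ • (uz hF ζ₁ + (-1)) := by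
    have n2 : (RatFunc.C ζ₁ - RatFunc.C (conjF hF ζ₁) : RatFunc F) ≠ 0 := by
      rw [← map_sub, Ne, map_eq_zero]
      exact hne
    rw [RatFunc.smul_eq_C_mul, map_inv₀, map_sub]
    unfold uz
    field_simp
    ring
  rw [e, smul_pow, add_pow]
  refine W.smul_mem _ (W.sum_mem fun i hi => ?_)
  have hi' : i ≤ j := by
    have := Finset.mem_range.1 hi
    omega
  have e2 : uz hF ζ₁ ^ i * (-1) ^ (j - i) * ((j.choose i : ℕ) : RatFunc F) =
      (((-1) ^ (j - i) * ((j.choose i : ℕ) : F)) : F) • uz hF ζ₁ ^ i := by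
    rw [RatFunc.smul_eq_C_mul]
    simp only [map_mul, map_pow, map_neg, map_one, map_natCast]
    ring
  rw [e2]
  exact W.smul_mem _ (h1 i (hi'.trans hj))

lemma poly_mem {F : Subfield ℂ} (hF : GoodField F) (W : Submodule F (RatFunc F)) (ζ₁ : F)
    (hζ₁ : conjF hF ζ₁ ≠ ζ₁) (N : ℕ) (h1 : ∀ j ≤ N, uz hF ζ₁ ^ j ∈ W) (p : Polynomial F)
    (hp : p.natDegree ≤ N) :
    algebraMap (Polynomial F) (RatFunc F) p * ((RatFunc.X - RatFunc.C ζ₁ : RatFunc F)⁻¹) ^ N ∈ W := by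
  have n1 := X_sub_ne ζ₁
  have hsum := Polynomial.sum_taylor_eq p ζ₁
  rw [Polynomial.sum_over_range' _ (by simp) (N + 1) (by
    rw [Polynomial.natDegree_taylor]; omega)] at hsum
  rw [← hsum, map_sum, Finset.sum_mul]
  refine W.sum_mem fun i hi => ?_
  have hi' : i ≤ N := by
    have := Finset.mem_range.1 hi
    omega
  have e : algebraMap (Polynomial F) (RatFunc F)
      (Polynomial.C ((Polynomial.taylor ζ₁ p).coeff i) * (Polynomial.X - Polynomial.C ζ₁) ^ i) *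
      ((RatFunc.X - RatFunc.C ζ₁ : RatFunc F)⁻¹) ^ N =
      (Polynomial.taylor ζ₁ p).coeff i • ((RatFunc.X - RatFunc.C ζ₁ : RatFunc F)⁻¹) ^ (N - i) := by
    rw [RatFunc.smul_eq_C_mul, map_mul, map_pow, map_sub, RatFunc.algebraMap_X, RatFunc.algebraMap_C,
      RatFunc.algebraMap_C, mul_assoc]
    congr 1
    obtain ⟨k, rfl⟩ := Nat.exists_eq_add_of_le hi'
    rw [Nat.add_sub_cancel_left, pow_add, ← mul_assoc, ← mul_pow, mul_inv_cancel₀ n1, one_pow,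
      one_mul]
  rw [e]
  exact W.smul_mem _ (fr_pow_mem hF W ζ₁ hζ₁ N h1 _ (by omega))

open Polynomial in
lemma bezout {F : Subfield ℂ} (ζ ζ' ζ₁ : F) (hζ : ζ' ≠ ζ) (n N : ℕ) (hn : 1 ≤ n) (hN : n ≤ N) :
    ∃ p q : Polynomial F, p.natDegree ≤ N ∧ q.natDegree ≤ N ∧
      (Polynomial.X - C ζ') * (Polynomial.X - C ζ) ^ (n - 1) * (Polynomial.X - C ζ₁) ^ N = p * (Polynomial.X - C ζ) ^ n + (Polynomial.X - C ζ') ^ n * q := by
  set A : Polynomial F := (Polynomial.X - C ζ) ^ n with hA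
  set B : Polynomial F := (Polynomial.X - C ζ') ^ n with hB
  set R : Polynomial F := (Polynomial.X - C ζ') * (Polynomial.X - C ζ) ^ (n - 1) * (Polynomial.X - C ζ₁) ^ N with hR
  have hBm : B.Monic := (monic_X_sub_C ζ').pow n
  have hcop : IsCoprime A B := by
    refine IsCoprime.pow ?_
    refine Polynomial.isCoprime_X_sub_C_of_isUnit_sub ?_
    exact (sub_ne_zero.2 (Ne.symm hζ)).isUnit
  obtain ⟨a, b, hab⟩ := hcop
  have hBd : B.natDegree = n := by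
    rw [hB, (monic_X_sub_C ζ').natDegree_pow, natDegree_X_sub_C, mul_one]
  have hAd : A.natDegree = n := by
    rw [hA, (monic_X_sub_C ζ).natDegree_pow, natDegree_X_sub_C, mul_one]
  have hRd : R.natDegree ≤ N + n := by
    rw [hR]
    refine natDegree_mul_le.trans ?_
    refine (add_le_add natDegree_mul_le le_rfl).trans ?_
    rw [natDegree_X_sub_C, (monic_X_sub_C ζ).natDegree_pow, (monic_X_sub_C ζ₁).natDegree_pow,
      natDegree_X_sub_C, natDegree_X_sub_C]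
    omega
  set p : Polynomial F := (a * R) %ₘ B with hp
  set q0 : Polynomial F := (a * R) /ₘ B with hq0
  have hdiv : p + B * q0 = a * R := modByMonic_add_div (a * R) B
  have hB1 : B ≠ 1 := by
    intro h
    rw [h, natDegree_one] at hBd
    omega
  have hpd : p.natDegree < n := by
    rw [← hBd]
    exact natDegree_modByMonic_lt _ hBm hB1
  set q : Polynomial F := q0 * A + b * R with hq
  have hmain : R = p * A + B * q := by
    have h1 : R = (a * A + b * B) * R := by rw [hab, one_mul]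
    calc R = (a * A + b * B) * R := h1
      _ = (a * R) * A + B * (b * R) := by ring
      _ = (p + B * q0) * A + B * (b * R) := by rw [hdiv]
      _ = p * A + B * q := by rw [hq]; ring
  refine ⟨p, q, by omega, ?_, hmain⟩
  by_contra hcon
  push Not at hcon
  have hq1 : q ≠ 0 := by
    rintro h
    rw [h, natDegree_zero] at hcon
    omega
  have h1 : (B * q).natDegree = n + q.natDegree := by
    rw [hBm.natDegree_mul' hq1, hBd]
  have h2 : (B * q).natDegree ≤ N + n := by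
    have e : B * q = R - p * A := by rw [hmain]; ring
    rw [e]
    refine (natDegree_sub_le _ _).trans (max_le hRd ?_)
    refine natDegree_mul_le.trans ?_
    rw [hAd]
    omega
  omega

lemma field_id {K : Type} [Field K] (a b c P Q : K) (k N : ℕ) (hb : b ≠ 0) (hc : c ≠ 0)
    (h : a * b ^ k * c ^ N = P * b ^ (k + 1) + a ^ (k + 1) * Q) :
    a / b = P * c⁻¹ ^ N + (a / b) ^ (k + 1) * (Q * c⁻¹ ^ N) := by
  have e1 : a / b = (a * b ^ k * c ^ N) / (b ^ (k + 1) * c ^ N) := by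
    rw [pow_succ]
    field_simp
  have e2 : P * c⁻¹ ^ N + (a / b) ^ (k + 1) * (Q * c⁻¹ ^ N) =
      (P * b ^ (k + 1) + a ^ (k + 1) * Q) / (b ^ (k + 1) * c ^ N) := by
    rw [div_pow, inv_pow]
    have hb' : b ^ (k + 1) ≠ 0 := pow_ne_zero _ hb
    have hc' : c ^ N ≠ 0 := pow_ne_zero _ hc
    field_simp
  rw [e2, ← h]
  exact e1

end RPolyAux

theorem mem_of_powers {F : Subfield ℂ} (hF : GoodField F) (W : Submodule F (RatFunc F))
    (ζ ζ₁ : F) (hζ : conjF hF ζ ≠ ζ) (hζ₁ : conjF hF ζ₁ ≠ ζ₁) (n N : ℕ) (hn : 1 ≤ n) (hN : n ≤ N)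
    (h1 : ∀ j ≤ N, uz hF ζ₁ ^ j ∈ W) (h2 : ∀ j ≤ N, uz hF ζ ^ n * uz hF ζ₁ ^ j ∈ W) :
    uz hF ζ ∈ W := by
  have n1 := RPolyAux.X_sub_ne ζ
  have n2 := RPolyAux.X_sub_ne ζ₁
  obtain ⟨p, q, hp, hq, hR⟩ := RPolyAux.bezout ζ (conjF hF ζ) ζ₁ hζ n N hn hN
  have m1 := RPolyAux.poly_mem hF W ζ₁ hζ₁ N h1 p hp
  have m2 := RPolyAux.poly_mem hF (W.comap (LinearMap.mulLeft F (uz hF ζ ^ n))) ζ₁ hζ₁ N
    (fun j hj => h2 j hj) q hq
  have m3 : uz hF ζ ^ n * (algebraMap (Polynomial F) (RatFunc F) q *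
      ((RatFunc.X - RatFunc.C ζ₁ : RatFunc F)⁻¹) ^ N) ∈ W := m2
  have hR' := congrArg (algebraMap (Polynomial F) (RatFunc F)) hR
  simp only [map_mul, map_pow, map_sub, map_add, RatFunc.algebraMap_X, RatFunc.algebraMap_C] at hR'
  have e : uz hF ζ = algebraMap (Polynomial F) (RatFunc F) p *
      ((RatFunc.X - RatFunc.C ζ₁ : RatFunc F)⁻¹) ^ N + uz hF ζ ^ n *
      (algebraMap (Polynomial F) (RatFunc F) q * ((RatFunc.X - RatFunc.C ζ₁ : RatFunc F)⁻¹) ^ N) := by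
    obtain ⟨k, rfl⟩ : ∃ k, n = k + 1 := ⟨n - 1, by omega⟩
    rw [Nat.add_sub_cancel] at hR'
    unfold uz
    exact RPolyAux.field_id _ _ _ _ _ k N n1 n2 hR'
  rw [e]
  exact W.add_mem m1 m3

end Pool.Agent.Lib.P3852C
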