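import Pool.Agent.Lib.P3852C.RB
import Pool.Agent.Lib.P3852C.RPoly

/-!
# 2.4: Theorem (R)

Let `u = u_ζ`, `b = β ζ > 0`. `D k = {u^k ∈ W, u^(k+1) ∉ W}` has probability `b` (`inv_gen`). For
`N + 1 ≥ 2/b² + 1` events of probability `b` there are `k < l ≤ N` with `P (D k ∩ D l) ≥ b²/2`
(`sum_inter_ge`), so with `n = l - k ∈ [1, N]`: `P (D 0 ∩ {u^n ∈ W}) ≥ b²/2` (`inv_gen`, `g = u^k`).
By `inf_zero` take `ζ₁` with `2 N β ζ₁ < b²/2`, `v = u_{ζ₁}`:
`P {1 ∈ W, some v^j ∉ W, j ≤ N} ≤ N β ζ₁` (if `v^j ∈ W`, `v^(j+1) ∉ W` for some `j < N`, each of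
probability `β ζ₁`) and the same with `u^n v^j`. So with positive probability
`1 ∈ W`, `u ∉ W`, `v^j, u^n v^j ∈ W` for `j ≤ N`: contradiction to `mem_of_powers`.
-/

set_option autoImplicit false

namespace Pool.Agent.Lib.P3852C

open MeasureTheory

variable {F : Subfield ℂ} {hF : GoodField F} {Ω : Type} [MeasurableSpace Ω]
  {P : Measure Ω} {W : Ω → Submodule F (RatFunc F)}

theorem RSub.main (h : RSub hF P W) (ζ : F) (hζ : conjF hF ζ ≠ ζ) :
    P.real {ω | (1 : RatFunc F) ∈ W ω ∧ uz hF ζ ∉ W ω} = 0 := by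
  classical
  have hp := h.prob
  by_contra hcon
  set b : ℝ := P.real {ω | (1 : RatFunc F) ∈ W ω ∧ uz hF ζ ∉ W ω} with hb
  have hb0 : 0 < b := lt_of_le_of_ne measureReal_nonneg (Ne.symm hcon)
  set u : RatFunc F := uz hF ζ with hu
  have huG : ∀ k : ℕ, u ^ k ∈ UG hF := fun k => (UG hF).pow_mem (uz_mem ζ hζ) k
  have hst : ∀ g ∈ UG hF, ∀ w : RatFunc F, P.real {ω | g ∈ W ω ∧ g * w ∉ W ω} =
      P.real {ω | (1 : RatFunc F) ∈ W ω ∧ w ∉ W ω} := by
    intro g hg w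
    have h1 := h.inv_gen hg {1} {w}
    simpa only [Finset.mem_singleton, forall_eq, mul_one] using h1
  -- the events
  obtain ⟨m, hm⟩ := exists_nat_gt (2 / b ^ 2)
  have hm0 : (0 : ℝ) < m := lt_trans (by positivity) hm
  set D : ℕ → Set Ω := fun k => {ω | u ^ k ∈ W ω ∧ u ^ k * u ∉ W ω} with hD
  have hDm : ∀ k, MeasurableSet (D k) := fun k => (h.meas _).inter (h.meas _).compl
  have hDp : ∀ k, P.real (D k) = b := fun k => hst _ (huG k) u
  obtain ⟨i, j, hij, hpij⟩ : ∃ i j : ℕ, i < j ∧ j < m ∧ b ^ 2 / 2 ≤ P.real (D i ∩ D j) := by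
    by_contra hno
    push Not at hno
    have h1 := sum_inter_ge P m (fun i => D i) (fun i => hDm _) b hb0.le (fun i => (hDp _).ge)
    have h2 : ∀ i j : Fin m, P.real (D i ∩ D j) ≤ b ^ 2 / 2 + (if i = j then 1 else 0) := by
      intro i j
      by_cases hij : i = j
      · rw [if_pos hij]
        have : P.real (D i ∩ D j) ≤ 1 := measureReal_le_one
        have h3 : 0 < b ^ 2 := by positivity
        linarith
      · rw [if_neg hij, add_zero]
        rcases lt_or_gt_of_ne (fun h' => hij (Fin.ext h') : (i : ℕ) ≠ j) with h' | h'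
        · exact (hno i j h' j.2).le
        · rw [Set.inter_comm]
          exact (hno j i h' i.2).le
    have h3 : ∑ i : Fin m, ∑ j : Fin m, P.real (D i ∩ D j) ≤ (m : ℝ) ^ 2 * (b ^ 2 / 2) + m := by
      calc ∑ i : Fin m, ∑ j : Fin m, P.real (D i ∩ D j)
          ≤ ∑ i : Fin m, ∑ j : Fin m, (b ^ 2 / 2 + (if i = j then 1 else 0)) :=
            Finset.sum_le_sum fun i _ => Finset.sum_le_sum fun j _ => h2 i j
        _ = (m : ℝ) ^ 2 * (b ^ 2 / 2) + m := by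
            simp only [Finset.sum_add_distrib, Finset.sum_ite_eq, Finset.mem_univ, if_true,
              Finset.sum_const, Finset.card_univ, Fintype.card_fin, nsmul_eq_mul, mul_one]
            ring
    rw [div_lt_iff₀ (by positivity)] at hm
    have h4 : (m : ℝ) ^ 2 * b ^ 2 ≤ (m : ℝ) ^ 2 * (b ^ 2 / 2) + m := h1.trans h3
    nlinarith
  obtain ⟨hjm, hpij⟩ := hpij
  obtain ⟨n, rfl⟩ := Nat.exists_eq_add_of_lt hij
  set k : ℕ := n + 1 with hk
  have hjk : i + n + 1 = i + k := by omega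
  rw [hjk] at hpij hjm
  -- the event for the first step
  set E0 : Set Ω := {ω | (1 : RatFunc F) ∈ W ω ∧ u ^ k ∈ W ω ∧ u ∉ W ω} with hE0
  have hE0p : b ^ 2 / 2 ≤ P.real E0 := by
    have h1 := h.inv_gen (huG i) {1, u ^ k} {u}
    have e1 : {ω | (∀ x ∈ ({1, u ^ k} : Finset (RatFunc F)), u ^ i * x ∈ W ω) ∧
        (∀ y ∈ ({u} : Finset (RatFunc F)), u ^ i * y ∉ W ω)} =
        {ω | (u ^ i ∈ W ω ∧ u ^ (i + k) ∈ W ω) ∧ u ^ i * u ∉ W ω} := by
      ext ω
      simp only [Finset.mem_insert, Finset.mem_singleton, forall_eq_or_imp, forall_eq, mul_one,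
        pow_add]
    have e2 : {ω | (∀ x ∈ ({1, u ^ k} : Finset (RatFunc F)), x ∈ W ω) ∧
        (∀ y ∈ ({u} : Finset (RatFunc F)), y ∉ W ω)} = E0 := by
      ext ω
      simp only [Finset.mem_insert, Finset.mem_singleton, forall_eq_or_imp, forall_eq, hE0,
        Set.mem_ofPred_eq, and_assoc]
    rw [e1, e2] at h1
    rw [← h1]
    refine hpij.trans (measureReal_mono ?_)
    rintro ω ⟨⟨a1, a2⟩, a3, -⟩
    exact ⟨⟨a1, a3⟩, a2⟩
  -- the auxiliary point
  have hm1 : (0 : ℝ) < 4 * ((m : ℝ) + 1) := by positivity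
  obtain ⟨ζ₁, hζ₁, hlt⟩ := h.inf_zero (ε := b ^ 2 / (4 * ((m : ℝ) + 1))) (by positivity)
  set v : RatFunc F := uz hF ζ₁ with hv
  set β : ℝ := P.real {ω | (1 : RatFunc F) ∈ W ω ∧ v ∉ W ω} with hβ
  have hvG : ∀ j : ℕ, v ^ j ∈ UG hF := fun j => (UG hF).pow_mem (uz_mem ζ₁ hζ₁) j
  set Bad : Set Ω := (⋃ j ∈ Finset.range m, {ω | v ^ j ∈ W ω ∧ v ^ j * v ∉ W ω}) ∪
    ⋃ j ∈ Finset.range m, {ω | u ^ k * v ^ j ∈ W ω ∧ u ^ k * v ^ j * v ∉ W ω} with hBad
  have hBadp : P.real Bad ≤ 2 * m * β := by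
    have h1 : P.real (⋃ j ∈ Finset.range m, {ω | v ^ j ∈ W ω ∧ v ^ j * v ∉ W ω}) ≤ m * β := by
      refine (measureReal_biUnion_finset_le _ _).trans ?_
      rw [Finset.sum_congr rfl fun j _ => hst _ (hvG j) v, Finset.sum_const, Finset.card_range,
        nsmul_eq_mul]
    have h2 : P.real (⋃ j ∈ Finset.range m, {ω | u ^ k * v ^ j ∈ W ω ∧ u ^ k * v ^ j * v ∉ W ω}) ≤
        m * β := by
      refine (measureReal_biUnion_finset_le _ _).trans ?_
      rw [Finset.sum_congr rfl fun j _ => hst _ ((UG hF).mul_mem (huG k) (hvG j)) v,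
        Finset.sum_const, Finset.card_range, nsmul_eq_mul]
    have h3 := measureReal_union_le (μ := P)
      (⋃ j ∈ Finset.range m, {ω | v ^ j ∈ W ω ∧ v ^ j * v ∉ W ω})
      (⋃ j ∈ Finset.range m, {ω | u ^ k * v ^ j ∈ W ω ∧ u ^ k * v ^ j * v ∉ W ω})
    rw [hBad]
    linarith
  have hsmall : P.real Bad < P.real E0 := by
    have h1 : β * (4 * ((m : ℝ) + 1)) < b ^ 2 := by
      rwa [lt_div_iff₀ hm1] at hlt
    have hβ0 : 0 ≤ β := measureReal_nonneg
    nlinarith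
  obtain ⟨ω, hω0, hωB⟩ : ∃ ω, ω ∈ E0 ∧ ω ∉ Bad := by
    by_contra hall
    push Not at hall
    exact absurd (measureReal_mono (μ := P) hall) (not_le.2 hsmall)
  obtain ⟨a1, a2, a3⟩ := hω0
  have b1 : ∀ j < m, v ^ j ∈ W ω → v ^ j * v ∈ W ω := by
    intro j hj hj1
    by_contra hj2
    exact hωB (Or.inl (Set.mem_biUnion (Finset.mem_range.2 hj) ⟨hj1, hj2⟩))
  have b2 : ∀ j < m, u ^ k * v ^ j ∈ W ω → u ^ k * v ^ j * v ∈ W ω := by
    intro j hj hj1
    by_contra hj2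
    exact hωB (Or.inr (Set.mem_biUnion (Finset.mem_range.2 hj) ⟨hj1, hj2⟩))
  have c1 : ∀ j ≤ m, v ^ j ∈ W ω := by
    intro j
    induction j with
    | zero => intro _; rw [pow_zero]; exact a1
    | succ j ih => intro hj; rw [pow_succ]; exact b1 j (by omega) (ih (by omega))
  have c2 : ∀ j ≤ m, u ^ k * v ^ j ∈ W ω := by
    intro j
    induction j with
    | zero => intro _; rw [pow_zero, mul_one]; exact a2
    | succ j ih => intro hj; rw [pow_succ v j, ← mul_assoc]; exact b2 j (by omega) (ih (by omega))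
  exact a3 (mem_of_powers hF (W ω) ζ ζ₁ hζ hζ₁ k m (by omega) (by omega) c1 c2)

end Pool.Agent.Lib.P3852C
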