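import Pool.Agent.Lib.P3852C.Defs

/-!
# Random subspaces of `F(X)`: definitions (§2)
-/

set_option autoImplicit false

namespace Pool.Agent.Lib.P3852C

open MeasureTheory

/-- complex conjugation on a good field -/
noncomputable def conjF {F : Subfield ℂ} (hF : GoodField F) : F →+* F :=
  ((starRingEnd ℂ).comp F.subtype).codRestrict F (fun x => hF.conj x x.2)

@[simp] lemma coe_conjF {F : Subfield ℂ} (hF : GoodField F) (x : F) :
    ((conjF hF x : F) : ℂ) = (starRingEnd ℂ) (x : ℂ) := rfl

@[simp] lemma conjF_conjF {F : Subfield ℂ} (hF : GoodField F) (x : F) :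
    conjF hF (conjF hF x) = x := by
  apply Subtype.ext
  simp

/-- `u_ζ = (X - conj ζ) / (X - ζ)` -/
noncomputable def uz {F : Subfield ℂ} (hF : GoodField F) (ζ : F) : RatFunc F :=
  (RatFunc.X - RatFunc.C (conjF hF ζ)) / (RatFunc.X - RatFunc.C ζ)

/-- The group generated by the `u_ζ`, as a set of rational functions closed under products:
all products of `u_ζ`, `ζ` not real. (`u_ζ⁻¹ = u_{conj ζ}`.) -/
noncomputable def UG {F : Subfield ℂ} (hF : GoodField F) : Submonoid (RatFunc F) :=
  Submonoid.closure {g | ∃ ζ : F, conjF hF ζ ≠ ζ ∧ g = uz hF ζ}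

/-- A random `F`-subspace of `F(X)` whose law is invariant under multiplication by the `u_ζ`. -/
structure RSub {F : Subfield ℂ} (hF : GoodField F) {Ω : Type} [MeasurableSpace Ω]
    (P : Measure Ω) (W : Ω → Submodule F (RatFunc F)) : Prop where
  prob : IsProbabilityMeasure P
  meas : ∀ x : RatFunc F, MeasurableSet {ω | x ∈ W ω}
  inv : ∀ ζ : F, conjF hF ζ ≠ ζ → ∀ S : Finset (RatFunc F),
    P {ω | ∀ x ∈ S, uz hF ζ * x ∈ W ω} = P {ω | ∀ x ∈ S, x ∈ W ω}

end Pool.Agent.Lib.P3852C
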