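import Pool.Agent.Lib.P3852C.RDefs

/-!
# R0: invariance of the probabilities of Boolean combinations

Inclusion–exclusion (induction on `S'`):
`P (A ∩ {y ∉ W} ) = P A - P (A ∩ {y ∈ W})`; first for `g = u_ζ`, then products
(`Submonoid.closure_induction`).
-/

set_option autoImplicit false

namespace Pool.Agent.Lib.P3852C

open MeasureTheory

variable {F : Subfield ℂ} {hF : GoodField F} {Ω : Type} [MeasurableSpace Ω]
  {P : Measure Ω} {W : Ω → Submodule F (RatFunc F)}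

/-- `u_ζ ≠ 0`, `u_ζ * u_{conj ζ} = 1` -/
theorem uz_mul_conj (ζ : F) : uz hF ζ * uz hF (conjF hF ζ) = 1 := by
  have hne : ∀ a : F, (RatFunc.X - RatFunc.C a : RatFunc F) ≠ 0 := by
    intro a
    have h : (RatFunc.X - RatFunc.C a : RatFunc F) =
        algebraMap (Polynomial F) (RatFunc F) (Polynomial.X - Polynomial.C a) := by
      rw [map_sub, RatFunc.algebraMap_X, RatFunc.algebraMap_C]
    rw [h]
    exact RatFunc.algebraMap_ne_zero (Polynomial.X_sub_C_ne_zero a)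
  have h1 := hne ζ
  have h2 := hne (conjF hF ζ)
  unfold uz
  rw [conjF_conjF]
  field_simp

theorem uz_mem (ζ : F) (h : conjF hF ζ ≠ ζ) : uz hF ζ ∈ UG hF :=
  Submonoid.subset_closure ⟨ζ, h, rfl⟩

theorem RSub.inv_gen (h : RSub hF P W) {g : RatFunc F} (hg : g ∈ UG hF)
    (S S' : Finset (RatFunc F)) :
    P.real {ω | (∀ x ∈ S, g * x ∈ W ω) ∧ (∀ y ∈ S', g * y ∉ W ω)}
      = P.real {ω | (∀ x ∈ S, x ∈ W ω) ∧ (∀ y ∈ S', y ∉ W ω)} := by
  classical
  have hp := h.prob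
  -- measurability
  have hm : ∀ (g : RatFunc F) (S S' : Finset (RatFunc F)),
      MeasurableSet {ω | (∀ x ∈ S, g * x ∈ W ω) ∧ (∀ y ∈ S', g * y ∉ W ω)} := by
    intro g S S'
    have h1 : MeasurableSet {ω | ∀ x ∈ S, g * x ∈ W ω} := by
      have e : {ω | ∀ x ∈ S, g * x ∈ W ω} = ⋂ x ∈ S, {ω | g * x ∈ W ω} := by
        ext ω
        simp
      rw [e]
      exact Finset.measurableSet_biInter _ fun x _ => h.meas _
    have h2 : MeasurableSet {ω | ∀ y ∈ S', g * y ∉ W ω} := by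
      have e : {ω | ∀ y ∈ S', g * y ∉ W ω} = ⋂ y ∈ S', {ω | g * y ∈ W ω}ᶜ := by
        ext ω
        simp
      rw [e]
      exact Finset.measurableSet_biInter _ fun x _ => (h.meas _).compl
    exact h1.inter h2
  -- splitting off one negated condition
  have hsplit : ∀ (g : RatFunc F) (S S' : Finset (RatFunc F)) (y : RatFunc F),
      P.real {ω | (∀ x ∈ S, g * x ∈ W ω) ∧ (∀ z ∈ insert y S', g * z ∉ W ω)} =
        P.real {ω | (∀ x ∈ S, g * x ∈ W ω) ∧ (∀ z ∈ S', g * z ∉ W ω)} -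
          P.real {ω | (∀ x ∈ insert y S, g * x ∈ W ω) ∧ (∀ z ∈ S', g * z ∉ W ω)} := by
    intro g S S' y
    have h1 := measureReal_sdiff_add_inter (μ := P)
      (s := {ω | (∀ x ∈ S, g * x ∈ W ω) ∧ (∀ z ∈ S', g * z ∉ W ω)}) (h.meas (g * y))
    have e1 : {ω | (∀ x ∈ S, g * x ∈ W ω) ∧ (∀ z ∈ S', g * z ∉ W ω)} \ {ω | g * y ∈ W ω} =
        {ω | (∀ x ∈ S, g * x ∈ W ω) ∧ (∀ z ∈ insert y S', g * z ∉ W ω)} := by
      ext ω
      constructor
      · rintro ⟨⟨a1, a2⟩, a3⟩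
        refine ⟨a1, fun z hz => ?_⟩
        rcases Finset.mem_insert.1 hz with rfl | hz
        · exact a3
        · exact a2 z hz
      · rintro ⟨a1, a2⟩
        exact ⟨⟨a1, fun z hz => a2 z (Finset.mem_insert_of_mem hz)⟩, a2 y (Finset.mem_insert_self _ _)⟩
    have e2 : {ω | (∀ x ∈ S, g * x ∈ W ω) ∧ (∀ z ∈ S', g * z ∉ W ω)} ∩ {ω | g * y ∈ W ω} =
        {ω | (∀ x ∈ insert y S, g * x ∈ W ω) ∧ (∀ z ∈ S', g * z ∉ W ω)} := by
      ext ω
      constructor
      · rintro ⟨⟨a1, a2⟩, a3⟩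
        refine ⟨fun z hz => ?_, a2⟩
        rcases Finset.mem_insert.1 hz with rfl | hz
        · exact a3
        · exact a1 z hz
      · rintro ⟨a1, a2⟩
        exact ⟨⟨fun z hz => a1 z (Finset.mem_insert_of_mem hz), a2⟩, a1 y (Finset.mem_insert_self _ _)⟩
    rw [e1, e2] at h1
    linarith
  -- one generator
  have hgen : ∀ ζ : F, conjF hF ζ ≠ ζ → ∀ S' S : Finset (RatFunc F),
      P.real {ω | (∀ x ∈ S, uz hF ζ * x ∈ W ω) ∧ (∀ y ∈ S', uz hF ζ * y ∉ W ω)}
        = P.real {ω | (∀ x ∈ S, (1 : RatFunc F) * x ∈ W ω) ∧ (∀ y ∈ S', (1 : RatFunc F) * y ∉ W ω)} := by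
    intro ζ hζ S'
    induction S' using Finset.induction_on with
    | empty =>
      intro S
      have h1 := h.inv ζ hζ S
      have e1 : {ω | (∀ x ∈ S, uz hF ζ * x ∈ W ω) ∧ (∀ y ∈ (∅ : Finset (RatFunc F)), uz hF ζ * y ∉ W ω)} =
          {ω | ∀ x ∈ S, uz hF ζ * x ∈ W ω} := by
        ext ω
        simp
      have e2 : {ω | (∀ x ∈ S, (1 : RatFunc F) * x ∈ W ω) ∧
          (∀ y ∈ (∅ : Finset (RatFunc F)), (1 : RatFunc F) * y ∉ W ω)} = {ω | ∀ x ∈ S, x ∈ W ω} := by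
        ext ω
        simp
      rw [e1, e2]
      unfold Measure.real
      rw [h1]
    | insert y S' hy ih =>
      intro S
      rw [hsplit, hsplit, ih S, ih (insert y S)]
  -- the monoid
  have key : ∀ g ∈ UG hF, ∀ S S' : Finset (RatFunc F),
      P.real {ω | (∀ x ∈ S, g * x ∈ W ω) ∧ (∀ y ∈ S', g * y ∉ W ω)}
        = P.real {ω | (∀ x ∈ S, x ∈ W ω) ∧ (∀ y ∈ S', y ∉ W ω)} := by
    intro g hg
    unfold UG at hg
    induction hg using Submonoid.closure_induction with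
    | mem g hg =>
      obtain ⟨ζ, hζ, rfl⟩ := hg
      intro S S'
      have := hgen ζ hζ S' S
      simpa only [one_mul] using this
    | one =>
      intro S S'
      simp only [one_mul]
    | mul g g' _ _ ih ih' =>
      intro S S'
      have h1 := ih (S.image (g' * ·)) (S'.image (g' * ·))
      simp only [Finset.forall_mem_image] at h1
      have h2 := ih' S S'
      rw [← h2, ← h1]
      simp only [mul_assoc]
  exact key g hg S S'

end Pool.Agent.Lib.P3852C
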