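import Pool.Agent.Lib.P3852C.RC
import Pool.Agent.Lib.P3852C.TrigB

/-!
# §3, step 2: the law on `F(X)`

`W θ = {x | ∀ a : F, θ (a • x) = 1}` is an `F`-subspace of `F(X)`; measurable events (`F` countable); the law
is invariant under `θ ↦ θ (u_ζ ·)` (`rep_invariant` with multiplication by `u_ζ`), so `RSub` holds and
`RSub.main` applies. `1 ∈ W θ` iff `θ (C a) = 1` for all `a`; `u ∈ W θ` implies `θ u = 1`.
-/

set_option autoImplicit false

namespace Pool.Agent.Lib.P3852C

open MeasureTheory

namespace RLawAux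

/-- the subspace of the elements on whose multiples the character is trivial -/
noncomputable def WW {F : Subfield ℂ} (θ : X (RatFunc F)) : Submodule F (RatFunc F) where
  carrier := {x | ∀ a : F, θ.fn (a • x) = 1}
  add_mem' := by
    intro x y hx hy a
    rw [smul_add, θ.map_add, hx a, hy a, one_mul]
  zero_mem' := by
    intro a
    rw [smul_zero, X.map_zero]
  smul_mem' := by
    intro b x hx a
    rw [smul_smul]
    exact hx _

theorem mem_WW {F : Subfield ℂ} {θ : X (RatFunc F)} {x : RatFunc F} :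
    x ∈ WW θ ↔ ∀ a : F, θ.fn (a • x) = 1 := Iff.rfl

theorem meas_WW {F : Subfield ℂ} (hF : GoodField F) (x : RatFunc F) :
    MeasurableSet {θ : X (RatFunc F) | x ∈ WW θ} := by
  have hc : Countable F := hF.ctb
  have h1 : {θ : X (RatFunc F) | x ∈ WW θ} = ⋂ a : F, {θ | θ.fn (a • x) = 1} := by
    ext θ
    simp [mem_WW]
  rw [h1]
  exact MeasurableSet.iInter fun a =>
    (isClosed_eq (X.continuous_apply _) continuous_const).measurableSet

end RLawAux

open RLawAux in
theorem law_R {F : Subfield ℂ} (hF : GoodField F) [Countable (RatFunc F)]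
    (P : Measure (X (RatFunc F))) [IsProbabilityMeasure P] (C : RatFunc F → ℝ) (hP : Rep P C)
    (hinv : ∀ ζ : F, conjF hF ζ ≠ ζ → ∀ g, C (uz hF ζ * g) = C g) (ζ : F) (hζ : conjF hF ζ ≠ ζ) :
    P.real {θ | (∀ a : F, θ.fn (RatFunc.C a) = 1) ∧ θ.fn (uz hF ζ) ≠ 1} = 0 := by
  have hR : RSub hF P (fun θ : X (RatFunc F) => WW θ) := by
    refine ⟨inferInstance, fun x => meas_WW hF x, fun ξ hξ S => ?_⟩
    have hmp := rep_invariant P C hP (AddMonoidHom.mulLeft (uz hF ξ)) (fun g => hinv ξ hξ g)
    have hms : MeasurableSet {θ : X (RatFunc F) | ∀ x ∈ S, x ∈ WW θ} := by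
      have h1 : {θ : X (RatFunc F) | ∀ x ∈ S, x ∈ WW θ} = ⋂ x ∈ S, {θ | x ∈ WW θ} := by
        ext θ
        simp
      rw [h1]
      exact S.measurableSet_biInter fun x _ => meas_WW hF x
    rw [← hmp.measure_preimage hms.nullMeasurableSet]
    congr 1
    ext θ
    refine forall_congr' fun x => forall_congr' fun _ => ?_
    rw [mem_WW, mem_WW]
    refine forall_congr' fun a => ?_
    rw [X.pull_apply, AddMonoidHom.coe_mulLeft, mul_smul_comm]
  have h1 := RSub.main hR ζ hζ
  have h2 : {θ : X (RatFunc F) | (∀ a : F, θ.fn (RatFunc.C a) = 1) ∧ θ.fn (uz hF ζ) ≠ 1} ⊆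
      {θ | (1 : RatFunc F) ∈ WW θ ∧ uz hF ζ ∉ WW θ} := by
    rintro θ ⟨h3, h4⟩
    refine ⟨fun a => ?_, fun hc => h4 ?_⟩
    · rw [RatFunc.smul_eq_C_mul, mul_one]
      exact h3 a
    · have := hc 1
      rwa [one_smul] at this
  have h3 := measureReal_mono (μ := P) h2
  rw [h1] at h3
  exact le_antisymm h3 measureReal_nonneg

theorem countable_ratFunc {F : Subfield ℂ} (hF : GoodField F) : Countable (RatFunc F) := by
  have hc : Countable F := hF.ctb
  have hp : Countable (Polynomial F) :=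
    Cardinal.mk_le_aleph0_iff.1 (Polynomial.cardinalMk_le_max.trans
      (max_le (Cardinal.mk_le_aleph0_iff.2 hc) le_rfl))
  refine Function.Surjective.countable (f := fun q : Polynomial F × Polynomial F =>
    (algebraMap (Polynomial F) (RatFunc F) q.1 / algebraMap (Polynomial F) (RatFunc F) q.2)) ?_
  intro x
  exact ⟨(x.num, x.denom), RatFunc.num_div_denom x⟩

end Pool.Agent.Lib.P3852C
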