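import Pool.Agent.Lib.P3852C.RDefs
import Pool.Agent.Lib.P3852C.GF

/-!
# §3, step 1: the limit function on `F(X)`

Take `U = hyperfilter ℕ`. For `g ∈ F(X)` the denominator vanishes at `s n` only for finitely many `n`
(`hfin`, finitely many roots), so evaluation at `s n` is eventually additive and multiplicative
(`RatFunc.eval_add`, `eval_mul`) on any finite set. `|c n| ≤ 1` (positive definite), so the limit along `U`
exists. `C (u_ζ g) = C g`: `‖u_ζ (s n)‖ = 1` as `s n` is real, and `c n` is radial.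
-/

set_option autoImplicit false

namespace Pool.Agent.Lib.P3852C

open MeasureTheory Filter Topology

/-- value of a rational function -/
noncomputable def evR {F : Subfield ℂ} (s : F) (g : RatFunc F) : F := RatFunc.eval (RingHom.id F) s g

namespace RLimAux

private theorem evR_poly {F : Subfield ℂ} (s : F) (p : Polynomial F) :
    evR s (algebraMap (Polynomial F) (RatFunc F) p) = p.eval s := by
  rw [evR, RatFunc.eval_algebraMap]
  simp [Polynomial.eval₂_id]

private theorem denom_poly {F : Subfield ℂ} (s : F) (p : Polynomial F) :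
    Polynomial.eval₂ (RingHom.id F) s
      (RatFunc.denom (algebraMap (Polynomial F) (RatFunc F) p)) ≠ 0 := by
  rw [RatFunc.denom_algebraMap]
  simp

private theorem evR_div {F : Subfield ℂ} (s : F) (p q : Polynomial F) (hq : q.eval s ≠ 0) :
    evR s (algebraMap (Polynomial F) (RatFunc F) p / algebraMap (Polynomial F) (RatFunc F) q)
      = p.eval s / q.eval s := by
  have hq0 : q ≠ 0 := by
    rintro rfl
    simp at hq
  have hqR : algebraMap (Polynomial F) (RatFunc F) q ≠ 0 := by
    simpa using hq0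
  have hd : Polynomial.eval₂ (RingHom.id F) s (RatFunc.denom
      (algebraMap (Polynomial F) (RatFunc F) p / algebraMap (Polynomial F) (RatFunc F) q)) ≠ 0 := by
    intro h
    apply hq
    have h2 := RatFunc.denom_div_dvd p q
    have h3 := Polynomial.eval₂_eq_zero_of_dvd_of_eval₂_eq_zero (RingHom.id F) s h2 h
    rwa [Polynomial.eval₂_id] at h3
  have h1 := RatFunc.eval_mul (RingHom.id F) (a := s) hd (denom_poly s q)
  rw [div_mul_cancel₀ _ hqR] at h1
  have h2 : p.eval s = evR s (algebraMap (Polynomial F) (RatFunc F) p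
      / algebraMap (Polynomial F) (RatFunc F) q) * q.eval s := by
    rw [← evR_poly s p, ← evR_poly s q]
    exact h1
  rw [h2, mul_div_cancel_right₀ _ hq]

private theorem uz_eq {F : Subfield ℂ} (hF : GoodField F) (ζ : F) :
    uz hF ζ = algebraMap (Polynomial F) (RatFunc F) (Polynomial.X - Polynomial.C (conjF hF ζ))
      / algebraMap (Polynomial F) (RatFunc F) (Polynomial.X - Polynomial.C ζ) := by
  rw [uz, map_sub, map_sub, RatFunc.algebraMap_X, RatFunc.algebraMap_C, RatFunc.algebraMap_C]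

private theorem evR_uz' {F : Subfield ℂ} (hF : GoodField F) (s ζ : F) (h : s ≠ ζ) :
    evR s (uz hF ζ) = (s - conjF hF ζ) / (s - ζ) := by
  rw [uz_eq, evR_div]
  · simp
  · simpa [sub_eq_zero] using h

private theorem pd_abs_le {A : Type} [AddCommGroup A] {c : A → ℝ} (h : PD c) (h0 : c 0 = 1) (x : A) :
    |c x| ≤ 1 := by
  classical
  by_cases hx : x = 0
  · rw [hx, h0]; simp
  · have h1 := h.pos {x, 0} (fun y => if y = x then 1 else 1)
    have h2 := h.pos {x, 0} (fun y => if y = x then 1 else -1)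
    have hx' : (0 : A) ≠ x := fun h => hx h.symm
    rw [Finset.sum_pair hx, Finset.sum_pair hx, Finset.sum_pair hx] at h1 h2
    simp only [if_true, if_neg hx', sub_self, h0, sub_zero, zero_sub, h.even] at h1 h2
    rw [abs_le]
    constructor <;> linarith

private theorem pd_family {A : Type} [AddCommGroup A] {c : A → ℝ} (h : PD c) {ι : Type}
    (S : Finset ι) (v : ι → A) (a : ι → ℝ) :
    0 ≤ ∑ i ∈ S, ∑ j ∈ S, a i * a j * c (v i - v j) := by
  classical
  have h1 := h.pos (S.image v) (fun y => ∑ i ∈ S with v i = y, a i)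
  have h2 : ∑ x ∈ S.image v, ∑ y ∈ S.image v,
      (∑ i ∈ S with v i = x, a i) * (∑ i ∈ S with v i = y, a i) * c (x - y)
      = ∑ i ∈ S, ∑ j ∈ S, a i * a j * c (v i - v j) := by
    rw [← Finset.sum_fiberwise_of_maps_to (s := S) (t := S.image v) (g := v)
      (fun i hi => Finset.mem_image_of_mem v hi)]
    refine Finset.sum_congr rfl fun x _ => ?_
    have h3 : ∀ i ∈ S.filter (fun i => v i = x), ∑ j ∈ S, a i * a j * c (v i - v j)
        = ∑ y ∈ S.image v, ∑ j ∈ S with v j = y, a i * a j * c (x - y) := by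
      intro i hi
      rw [← Finset.sum_fiberwise_of_maps_to (s := S) (t := S.image v) (g := v)
        (fun i hi => Finset.mem_image_of_mem v hi)]
      refine Finset.sum_congr rfl fun y _ => Finset.sum_congr rfl fun j hj => ?_
      rw [(Finset.mem_filter.mp hi).2, (Finset.mem_filter.mp hj).2]
    rw [Finset.sum_congr rfl h3, Finset.sum_comm]
    refine Finset.sum_congr rfl fun y _ => ?_
    rw [Finset.sum_mul_sum, Finset.sum_mul]
    refine Finset.sum_congr rfl fun i _ => ?_
    rw [Finset.sum_mul]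
  rw [h2] at h1
  exact h1

end RLimAux

open RLimAux in
theorem exists_limit {F : Subfield ℂ} (hF : GoodField F) (c : ℕ → F → ℝ) (hc : ∀ n, PD (c n))
    (h0 : ∀ n, c n 0 = 1) (hr : ∀ n, Radial F (c n)) (s : ℕ → F) (hs : ∀ n, conjF hF (s n) = s n)
    (hfin : ∀ x : F, {n | s n = x}.Finite) :
    ∃ (U : Ultrafilter ℕ) (C : RatFunc F → ℝ), (U : Filter ℕ) ≤ atTop ∧ PD C ∧ C 0 = 1 ∧
      (∀ ζ : F, conjF hF ζ ≠ ζ → ∀ g, C (uz hF ζ * g) = C g) ∧
      (∀ g, Tendsto (fun n => c n (evR (s n) g)) U (𝓝 (C g))) ∧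
      ∀ f g : RatFunc F, ∀ᶠ n in (U : Filter ℕ), evR (s n) (f + g) = evR (s n) f + evR (s n) g := by
  classical
  set U : Ultrafilter ℕ := hyperfilter ℕ with hUdef
  have hU : (U : Filter ℕ) ≤ cofinite := hyperfilter_le_cofinite
  -- nonvanishing of polynomials
  have hpoly : ∀ q : Polynomial F, q ≠ 0 → ∀ᶠ n in (U : Filter ℕ), q.eval (s n) ≠ 0 := by
    intro q hq
    have h2 : ∀ᶠ n in (cofinite : Filter ℕ), q.eval (s n) ≠ 0 := ?_
    · exact hU h2
    rw [Filter.eventually_cofinite]
    have h1 : {n | ¬ q.eval (s n) ≠ 0} ⊆ ⋃ x ∈ q.roots.toFinset, {n | s n = x} := by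
      intro n hn
      simp only [ne_eq, not_not, Set.mem_ofPred_eq] at hn
      simp only [Set.mem_iUnion, Multiset.mem_toFinset]
      exact ⟨s n, (Polynomial.mem_roots hq).mpr hn, rfl⟩
    exact Set.Finite.subset (Set.Finite.biUnion (Finset.finite_toSet _) (fun x _ => hfin x)) h1
  have hden : ∀ g : RatFunc F, ∀ᶠ n in (U : Filter ℕ),
      Polynomial.eval₂ (RingHom.id F) (s n) (RatFunc.denom g) ≠ 0 := by
    intro g
    filter_upwards [hpoly _ (RatFunc.denom_ne_zero g)] with n hn
    rwa [Polynomial.eval₂_id]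
  have hadd : ∀ f g : RatFunc F, ∀ᶠ n in (U : Filter ℕ),
      evR (s n) (f + g) = evR (s n) f + evR (s n) g := by
    intro f g
    filter_upwards [hden f, hden g] with n h1 h2
    exact RatFunc.eval_add (RingHom.id F) (s n) h1 h2
  have hmul : ∀ f g : RatFunc F, ∀ᶠ n in (U : Filter ℕ),
      evR (s n) (f * g) = evR (s n) f * evR (s n) g := by
    intro f g
    filter_upwards [hden f, hden g] with n h1 h2
    exact RatFunc.eval_mul (RingHom.id F) (s n) h1 h2
  have hsub : ∀ f g : RatFunc F, ∀ᶠ n in (U : Filter ℕ),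
      evR (s n) (f - g) = evR (s n) f - evR (s n) g := by
    intro f g
    filter_upwards [hadd (f - g) g] with n h1
    rw [sub_add_cancel] at h1
    rw [h1, add_sub_cancel_right]
  have hzero : ∀ n, evR (s n) 0 = 0 := fun n => RatFunc.eval_zero _ _
  -- limits
  have hlim : ∀ g : RatFunc F, ∃ l : ℝ, Tendsto (fun n => c n (evR (s n) g)) U (𝓝 l) := by
    intro g
    have h1 : ((U.map (fun n => c n (evR (s n) g)) : Ultrafilter ℝ) : Filter ℝ)
        ≤ 𝓟 (Set.Icc (-1) 1) := by
      rw [Filter.le_principal_iff, Ultrafilter.mem_coe, Ultrafilter.mem_map]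
      filter_upwards with n
      exact abs_le.mp (pd_abs_le (hc n) (h0 n) _)
    obtain ⟨l, _, hl⟩ := (isCompact_Icc (a := (-1 : ℝ)) (b := 1)).ultrafilter_le_nhds _ h1
    exact ⟨l, hl⟩
  choose C hC using hlim
  refine ⟨U, C, ?_, ⟨?_, ?_⟩, ?_, ?_, hC, hadd⟩
  · rw [← Nat.cofinite_eq_atTop]; exact hU
  · intro g
    refine tendsto_nhds_unique (hC (-g)) ((hC g).congr' ?_)
    filter_upwards [hadd g (-g)] with n hn
    rw [add_neg_cancel, hzero] at hn
    have h2 : evR (s n) (-g) = - evR (s n) g := by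
      rw [eq_neg_iff_add_eq_zero, add_comm, ← hn]
    rw [h2, (hc n).even]
  · intro S a
    have h1 : Tendsto (fun n => ∑ x ∈ S, ∑ y ∈ S, a x * a y * c n (evR (s n) (x - y))) U
        (𝓝 (∑ x ∈ S, ∑ y ∈ S, a x * a y * C (x - y))) :=
      tendsto_finsetSum _ fun x _ => tendsto_finsetSum _ fun y _ => (hC (x - y)).const_mul _
    refine ge_of_tendsto h1 ?_
    have h2 : ∀ᶠ n in (U : Filter ℕ), ∀ x ∈ S, ∀ y ∈ S,
        evR (s n) (x - y) = evR (s n) x - evR (s n) y := by
      rw [Filter.eventually_all_finset]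
      intro x _
      rw [Filter.eventually_all_finset]
      intro y _
      exact hsub x y
    filter_upwards [h2] with n hn
    have h3 := pd_family (hc n) S (fun x => evR (s n) x) a
    refine h3.trans_eq ?_
    refine Finset.sum_congr rfl fun x hx => Finset.sum_congr rfl fun y hy => ?_
    rw [hn x hx y hy]
  · refine tendsto_nhds_unique (hC 0) ?_
    simp only [hzero, h0]
    exact tendsto_const_nhds
  · intro ζ hζ g
    refine tendsto_nhds_unique (hC (uz hF ζ * g)) ((hC g).congr' ?_)
    filter_upwards [hmul (uz hF ζ) g] with n hn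
    have hne : s n ≠ ζ := by
      intro h
      apply hζ
      rw [← h, hs n]
    rw [hn, evR_uz' hF _ _ hne]
    apply hr n
    have h5 : ‖((s n - conjF hF ζ : F) : ℂ)‖ = ‖((s n - ζ : F) : ℂ)‖ := by
      have h6 : ((s n - conjF hF ζ : F) : ℂ) = (starRingEnd ℂ) ((s n - ζ : F) : ℂ) := by
        rw [← coe_conjF hF, map_sub, hs n]
      rw [h6, RCLike.norm_conj]
    have h7 : ‖((s n - ζ : F) : ℂ)‖ ≠ 0 := by
      rw [norm_ne_zero_iff]
      intro h8
      apply hne
      have h9 : s n - ζ = 0 := by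
        apply Subtype.ext
        exact h8
      exact sub_eq_zero.mp h9
    have h10 : (((s n - conjF hF ζ) / (s n - ζ) * evR (s n) g : F) : ℂ)
        = ((s n - conjF hF ζ : F) : ℂ) / ((s n - ζ : F) : ℂ) * ((evR (s n) g : F) : ℂ) := by
      push_cast
      rfl
    rw [h10, norm_mul, norm_div, h5, div_self h7, one_mul]

theorem evR_C {F : Subfield ℂ} (s a : F) : evR s (RatFunc.C a) = a := by
  rw [evR, RatFunc.eval_C]
  rfl

/-- `u_i (s) = (s + i)/(s - i)` for real `s` -/
theorem evR_uz {F : Subfield ℂ} (hF : GoodField F) (s : F) (hs : conjF hF s = s) (hI : Complex.I ∈ F) :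
    ((evR s (uz hF ⟨Complex.I, hI⟩) : F) : ℂ) = ((s : ℂ) + Complex.I) / ((s : ℂ) - Complex.I) := by
  have hne : s ≠ (⟨Complex.I, hI⟩ : F) := by
    intro h
    have h1 := congrArg (fun x : F => (x : ℂ)) hs
    simp only [coe_conjF] at h1
    rw [h] at h1
    have h2 : (starRingEnd ℂ) Complex.I = Complex.I := h1
    rw [Complex.conj_I] at h2
    have h3 := congrArg Complex.im h2
    simp at h3
    norm_num at h3
  rw [RLimAux.evR_uz' hF _ _ hne]
  have h1 : ((conjF hF (⟨Complex.I, hI⟩ : F) : F) : ℂ) = -Complex.I := by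
    rw [coe_conjF]
    exact Complex.conj_I
  push_cast
  rw [h1, sub_neg_eq_add]

end Pool.Agent.Lib.P3852C
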