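import Pool.Agent.Lib.P3852C.RLim
import Pool.Agent.Lib.P3852C.RLaw
import Pool.Agent.Lib.P3852C.Bochner
import Pool.Agent.Lib.P3852C.TrigB

/-!
# §3: the uniform version (R'')

Proof by contradiction, see §3 of the proof file. `F = {x 0, x 1, ...}`, `S n = {x 0, ..., x n}`,
`k = n`; `P n`, `γ n` with `∫ Θ n (1 - Re ev (γ n)) > η`. For a fixed `γ`, `γ n = γ` only for finitely
many `n` (`((1+t)/2)^n (1-t) ≤ 2/(n+1)` for `t ∈ [-1,1]`). By `GoodField.cayley`,
`γ n = (s n + i)/(s n - i)` for large `n`, and each value of `s n` is taken finitely often, so for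
`g ∈ F(X)` the value `g (s n)` is defined for large `n` and evaluation is eventually a ring
homomorphism on finitely many elements. With `U = hyperfilter ℕ`, `c* g = lim_U c n (g (s n))` is
positive definite, `c* 0 = 1`, and `c* (u_ζ g) = c* g` because `‖u_ζ (s n)‖ = 1`. Bochner on
`A = RatFunc F` (countable): `P*`, `W θ = {x | ∀ s : F, θ (s • x) = 1}`. `RSub` holds
(`rep_invariant` with multiplication by `u_ζ`). `Θ n ≤ Θ m` for `n ≥ m`; the function
`Θ m (1 - Re ev γ)` is a trigonometric polynomial (finite combination of `ev`), so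
`∫ Θ m(θ|_F) (1 - Re θ(u)) dP* ≥ η` with `u = u_i = (X + i)/(X - i)`, and `m → ∞` by dominated
convergence: `∫_{1 ∈ W} (1 - Re θ(u)) dP* ≥ η`, contradiction to `RSub.main`.
-/

set_option autoImplicit false

namespace Pool.Agent.Lib.P3852C

open MeasureTheory

/-- `Θ_{S,k} = ∏_{x ∈ S} ((1 + Re ψ(x))/2)^k` -/
noncomputable def Theta {F : Subfield ℂ} (S : Finset F) (k : ℕ) (θ : X F) : ℝ :=
  ∏ x ∈ S, ((1 + (ev x θ).re) / 2) ^ k

namespace RUnifAux

open Filter Topology

/-! ### the factors -/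

private theorem re_bds {A : Type} [AddCommGroup A] (x : A) (θ : X A) :
    -1 ≤ (ev x θ).re ∧ (ev x θ).re ≤ 1 := by
  have h := Complex.abs_re_le_norm (ev x θ)
  rw [norm_ev] at h
  exact abs_le.mp h

private theorem fac_bds {A : Type} [AddCommGroup A] (x : A) (θ : X A) (k : ℕ) :
    0 ≤ ((1 + (ev x θ).re) / 2) ^ k ∧ ((1 + (ev x θ).re) / 2) ^ k ≤ 1 := by
  obtain ⟨h1, h2⟩ := re_bds x θ
  have h3 : 0 ≤ (1 + (ev x θ).re) / 2 := by linarith
  exact ⟨pow_nonneg h3 k, pow_le_one₀ h3 (by linarith)⟩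

private theorem Theta_nonneg {F : Subfield ℂ} (S : Finset F) (k : ℕ) (θ : X F) :
    0 ≤ Theta S k θ := Finset.prod_nonneg fun x _ => (fac_bds x θ k).1

private theorem Theta_le_one {F : Subfield ℂ} (S : Finset F) (k : ℕ) (θ : X F) :
    Theta S k θ ≤ 1 := Finset.prod_le_one (fun x _ => (fac_bds x θ k).1)
      fun x _ => (fac_bds x θ k).2

private theorem Theta_le_fac {F : Subfield ℂ} (S : Finset F) (k : ℕ) (θ : X F) {x : F}
    (hx : x ∈ S) : Theta S k θ ≤ ((1 + (ev x θ).re) / 2) ^ k := by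
  classical
  rw [Theta, ← Finset.mul_prod_erase S _ hx]
  have h := Finset.prod_le_one (s := S.erase x) (f := fun y => ((1 + (ev y θ).re) / 2) ^ k)
    (fun y _ => (fac_bds y θ k).1) fun y _ => (fac_bds y θ k).2
  calc ((1 + (ev x θ).re) / 2) ^ k * ∏ y ∈ S.erase x, ((1 + (ev y θ).re) / 2) ^ k
      ≤ ((1 + (ev x θ).re) / 2) ^ k * 1 := mul_le_mul_of_nonneg_left h (fac_bds x θ k).1
    _ = _ := mul_one _

private theorem Theta_anti {F : Subfield ℂ} {S T : Finset F} (h : S ⊆ T) {k l : ℕ} (hkl : k ≤ l)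
    (θ : X F) : Theta T l θ ≤ Theta S k θ := by
  classical
  rw [Theta, Theta, ← Finset.prod_sdiff h]
  have h1 := Finset.prod_le_one (s := T \ S) (f := fun y => ((1 + (ev y θ).re) / 2) ^ l)
    (fun y _ => (fac_bds y θ l).1) fun y _ => (fac_bds y θ l).2
  have h2 : ∏ y ∈ S, ((1 + (ev y θ).re) / 2) ^ l ≤ ∏ y ∈ S, ((1 + (ev y θ).re) / 2) ^ k := by
    refine Finset.prod_le_prod (fun y _ => (fac_bds y θ l).1) fun y _ => ?_
    obtain ⟨h3, h4⟩ := re_bds y θ
    exact pow_le_pow_of_le_one (by linarith) (by linarith) hkl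
  have h3 : 0 ≤ ∏ y ∈ S, ((1 + (ev y θ).re) / 2) ^ l :=
    Finset.prod_nonneg fun y _ => (fac_bds y θ l).1
  calc (∏ y ∈ T \ S, ((1 + (ev y θ).re) / 2) ^ l) * ∏ y ∈ S, ((1 + (ev y θ).re) / 2) ^ l
      ≤ 1 * ∏ y ∈ S, ((1 + (ev y θ).re) / 2) ^ l := mul_le_mul_of_nonneg_right h1 h3
    _ ≤ _ := by rw [one_mul]; exact h2

private theorem continuous_re (A : Type) [AddCommGroup A] (x : A) :
    Continuous fun θ : X A => (ev x θ).re := Complex.continuous_re.comp (continuous_ev x)

private theorem continuous_Theta {F : Subfield ℂ} (S : Finset F) (k : ℕ) :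
    Continuous (Theta S k) := by
  unfold Theta
  exact continuous_finsetProd _ fun x _ => ((continuous_const.add (continuous_re F x)).div_const _).pow k

private theorem integrable_cont {A : Type} [AddCommGroup A]
    (P : Measure (X A)) [IsFiniteMeasure P] [Countable A] {f : X A → ℝ}
    (hf : Continuous f) : Integrable f P := by
  obtain ⟨C, hC⟩ := isCompact_univ.exists_bound_of_continuousOn hf.continuousOn
  exact Integrable.of_bound hf.aestronglyMeasurable C
    (Eventually.of_forall fun x => hC x (Set.mem_univ x))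

/-- `u ^ n * (1 - u) ≤ 1 / (n + 1)` -/
private theorem pow_mul_le {u : ℝ} (h0 : 0 ≤ u) (h1 : u ≤ 1) (n : ℕ) :
    u ^ n * (1 - u) ≤ 1 / ((n : ℝ) + 1) := by
  have h2 : ((n : ℝ) + 1) * u ^ n ≤ ∑ i ∈ Finset.range (n + 1), u ^ i := by
    have h3 : ∑ i ∈ Finset.range (n + 1), u ^ n ≤ ∑ i ∈ Finset.range (n + 1), u ^ i := by
      refine Finset.sum_le_sum fun i hi => ?_
      rw [Finset.mem_range] at hi
      exact pow_le_pow_of_le_one h0 h1 (by omega)
    rw [Finset.sum_const, Finset.card_range, nsmul_eq_mul] at h3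
    push_cast at h3
    exact h3
  have h4 := mul_neg_geom_sum u (n + 1)
  have h5 : (1 - u) * (((n : ℝ) + 1) * u ^ n) ≤ 1 := by
    have h6 := mul_le_mul_of_nonneg_left h2 (sub_nonneg.mpr h1)
    rw [h4] at h6
    have h7 := pow_nonneg h0 (n + 1)
    linarith
  rw [le_div_iff₀ (by positivity)]
  linarith [h5, mul_comm (1 - u) (((n : ℝ) + 1) * u ^ n), mul_assoc ((n : ℝ) + 1) (u ^ n) (1 - u)]

private theorem bound_mem {F : Subfield ℂ} (S : Finset F) (n : ℕ) (θ : X F) {x : F} (hx : x ∈ S) :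
    Theta S n θ * (1 - (ev x θ).re) ≤ 2 / ((n : ℝ) + 1) := by
  obtain ⟨h1, h2⟩ := re_bds x θ
  have h3 := mul_le_mul_of_nonneg_right (Theta_le_fac S n θ hx) (sub_nonneg.mpr h2)
  have h4 := pow_mul_le (u := (1 + (ev x θ).re) / 2) (by linarith) (by linarith) n
  have h5 : ((1 + (ev x θ).re) / 2) ^ n * (1 - (ev x θ).re) =
      2 * (((1 + (ev x θ).re) / 2) ^ n * (1 - (1 + (ev x θ).re) / 2)) := by ring
  rw [h5] at h3
  have h6 : (2 : ℝ) / ((n : ℝ) + 1) = 2 * (1 / ((n : ℝ) + 1)) := by ring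
  rw [h6]
  linarith

/-! ### passage to the limit for trigonometric polynomials -/

/-- the integrals of `φ' n` times a character converge to those of `φ` -/
private structure Good {F : Subfield ℂ} (U : Ultrafilter ℕ) (s : ℕ → F) (P : ℕ → Measure (X F))
    (Q : Measure (X (RatFunc F))) (φ : X (RatFunc F) → ℂ) (φ' : ℕ → X F → ℂ) : Prop where
  cont : Continuous φ
  cont' : ∀ n, Continuous (φ' n)
  lim : ∀ h : RatFunc F, Tendsto (fun n => ∫ θ, φ' n θ * ev (evR (s n) h) θ ∂(P n)) U
    (𝓝 (∫ θ, φ θ * ev h θ ∂Q))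

section

variable {F : Subfield ℂ} {U : Ultrafilter ℕ} {s : ℕ → F} {P : ℕ → Measure (X F)}
  {Q : Measure (X (RatFunc F))}

private theorem Good.congr {φ : X (RatFunc F) → ℂ} {φ' φ'' : ℕ → X F → ℂ}
    (h : Good U s P Q φ φ') (h1 : ∀ n, Continuous (φ'' n))
    (h2 : ∀ᶠ n in (U : Filter ℕ), φ' n = φ'' n) : Good U s P Q φ φ'' := by
  refine ⟨h.cont, h1, fun g => (h.lim g).congr' ?_⟩
  filter_upwards [h2] with n hn
  rw [hn]

private theorem Good.mul_ev {φ : X (RatFunc F) → ℂ} {φ' : ℕ → X F → ℂ}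
    (hadd : ∀ f g : RatFunc F, ∀ᶠ n in (U : Filter ℕ),
      evR (s n) (f + g) = evR (s n) f + evR (s n) g)
    (h : Good U s P Q φ φ') (g : RatFunc F) :
    Good U s P Q (fun θ => φ θ * ev g θ) (fun n θ => φ' n θ * ev (evR (s n) g) θ) := by
  refine ⟨h.cont.mul (continuous_ev _), fun n => (h.cont' n).mul (continuous_ev _), fun f => ?_⟩
  have h1 := h.lim (g + f)
  have h2 : (fun θ : X (RatFunc F) => φ θ * ev g θ * ev f θ) = fun θ => φ θ * ev (g + f) θ := by
    funext θ
    rw [ev_add, mul_assoc]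
  simp only [mul_assoc, ← ev_add]
  refine h1.congr' ?_
  filter_upwards [hadd g f] with n hn
  rw [hn]

private theorem Good.lin [Countable F] [Countable (RatFunc F)] [∀ n, IsFiniteMeasure (P n)]
    [IsFiniteMeasure Q] {φ ψ : X (RatFunc F) → ℂ} {φ' ψ' : ℕ → X F → ℂ}
    (h : Good U s P Q φ φ') (h' : Good U s P Q ψ ψ') (a b : ℂ) :
    Good U s P Q (fun θ => a * φ θ + b * ψ θ) (fun n θ => a * φ' n θ + b * ψ' n θ) := by
  have hint : ∀ (A : Type) [AddCommGroup A] [Countable A] (m : Measure (X A)) [IsFiniteMeasure m]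
      (f : X A → ℂ), Continuous f → Integrable f m := by
    intro A _ _ m _ f hf
    obtain ⟨C, hC⟩ := isCompact_univ.exists_bound_of_continuousOn hf.continuousOn
    exact Integrable.of_bound hf.aestronglyMeasurable C
      (Eventually.of_forall fun x => hC x (Set.mem_univ x))
  refine ⟨(continuous_const.mul h.cont).add (continuous_const.mul h'.cont),
    fun n => (continuous_const.mul (h.cont' n)).add (continuous_const.mul (h'.cont' n)),
    fun g => ?_⟩
  have e1 : ∀ n, ∫ θ, (a * φ' n θ + b * ψ' n θ) * ev (evR (s n) g) θ ∂(P n) =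
      a * (∫ θ, φ' n θ * ev (evR (s n) g) θ ∂(P n)) +
      b * ∫ θ, ψ' n θ * ev (evR (s n) g) θ ∂(P n) := by
    intro n
    rw [← integral_const_mul, ← integral_const_mul, ← integral_add]
    · refine integral_congr_ae (Eventually.of_forall fun θ => ?_)
      simp only
      ring
    · exact hint _ _ _ (continuous_const.mul ((h.cont' n).mul (continuous_ev _)))
    · exact hint _ _ _ (continuous_const.mul ((h'.cont' n).mul (continuous_ev _)))
  have e2 : ∫ θ, (a * φ θ + b * ψ θ) * ev g θ ∂Q =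
      a * (∫ θ, φ θ * ev g θ ∂Q) + b * ∫ θ, ψ θ * ev g θ ∂Q := by
    rw [← integral_const_mul, ← integral_const_mul, ← integral_add]
    · refine integral_congr_ae (Eventually.of_forall fun θ => ?_)
      simp only
      ring
    · exact hint _ _ _ (continuous_const.mul (h.cont.mul (continuous_ev _)))
    · exact hint _ _ _ (continuous_const.mul (h'.cont.mul (continuous_ev _)))
  rw [e2]
  simp only [e1]
  exact ((h.lim g).const_mul a).add ((h'.lim g).const_mul b)

private theorem re_eq {A : Type} [AddCommGroup A] (x : A) (θ : X A) :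
    (((ev x θ).re : ℝ) : ℂ) = (ev x θ + ev (-x) θ) / 2 := by
  rw [ev_neg, Complex.add_conj]
  push_cast
  ring

/-- multiplication by `a + b Re ev g` -/
private theorem Good.mul_re [Countable F] [Countable (RatFunc F)] [∀ n, IsFiniteMeasure (P n)]
    [IsFiniteMeasure Q] {φ : X (RatFunc F) → ℂ} {φ' : ℕ → X F → ℂ}
    (hadd : ∀ f g : RatFunc F, ∀ᶠ n in (U : Filter ℕ),
      evR (s n) (f + g) = evR (s n) f + evR (s n) g)
    (h : Good U s P Q φ φ') (g : RatFunc F) (a b : ℝ) :
    Good U s P Q (fun θ => φ θ * ((a + b * (ev g θ).re : ℝ) : ℂ))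
      (fun n θ => φ' n θ * ((a + b * (ev (evR (s n) g) θ).re : ℝ) : ℂ)) := by
  have h1 := (h.mul_ev hadd g).lin (h.mul_ev hadd (-g)) ((b : ℂ) / 2) ((b : ℂ) / 2)
  have h2 := h.lin h1 a 1
  have e1 : (fun θ : X (RatFunc F) => φ θ * ((a + b * (ev g θ).re : ℝ) : ℂ)) =
      fun θ => (a : ℂ) * φ θ + 1 * ((b : ℂ) / 2 * (φ θ * ev g θ) + (b : ℂ) / 2 * (φ θ * ev (-g) θ)) := by
    funext θ
    rw [Complex.ofReal_add, Complex.ofReal_mul, re_eq]
    ring
  rw [e1]
  refine h2.congr (fun n => (h.cont' n).mul (Complex.continuous_ofReal.comp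
    (continuous_const.add (continuous_const.mul (continuous_re _ _))))) ?_
  filter_upwards [hadd g (-g)] with n hn
  have h3 : evR (s n) (-g) = -evR (s n) g := by
    rw [add_neg_cancel] at hn
    have h4 : evR (s n) (0 : RatFunc F) = 0 := by
      have := evR_C (s n) 0
      rwa [map_zero] at this
    rw [h4] at hn
    exact (neg_eq_of_add_eq_zero_right hn.symm).symm
  funext θ
  rw [h3, Complex.ofReal_add, Complex.ofReal_mul, re_eq]
  ring

private theorem Good.mul_re_pow [Countable F] [Countable (RatFunc F)] [∀ n, IsFiniteMeasure (P n)]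
    [IsFiniteMeasure Q] {φ : X (RatFunc F) → ℂ} {φ' : ℕ → X F → ℂ}
    (hadd : ∀ f g : RatFunc F, ∀ᶠ n in (U : Filter ℕ),
      evR (s n) (f + g) = evR (s n) f + evR (s n) g)
    (h : Good U s P Q φ φ') (g : RatFunc F) (a b : ℝ) (k : ℕ) :
    Good U s P Q (fun θ => φ θ * (((a + b * (ev g θ).re) ^ k : ℝ) : ℂ))
      (fun n θ => φ' n θ * (((a + b * (ev (evR (s n) g) θ).re) ^ k : ℝ) : ℂ)) := by
  induction k with
  | zero => simpa using h
  | succ k ih =>
    have h1 := ih.mul_re hadd g a b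
    have e1 : ∀ (z : ℂ) (t : ℝ), z * ((t ^ (k + 1) : ℝ) : ℂ) = z * ((t ^ k : ℝ) : ℂ) * (t : ℂ) := by
      intro z t
      push_cast
      ring
    simpa only [e1] using h1

private theorem Good.prod [Countable F] [Countable (RatFunc F)] [∀ n, IsFiniteMeasure (P n)]
    [IsFiniteMeasure Q] {φ : X (RatFunc F) → ℂ} {φ' : ℕ → X F → ℂ}
    (hadd : ∀ f g : RatFunc F, ∀ᶠ n in (U : Filter ℕ),
      evR (s n) (f + g) = evR (s n) f + evR (s n) g)
    (h : Good U s P Q φ φ') (S : Finset F) (k : ℕ) :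
    Good U s P Q (fun θ => φ θ * ((∏ x ∈ S, ((1 + (ev (RatFunc.C x) θ).re) / 2) ^ k : ℝ) : ℂ))
      (fun n θ => φ' n θ * ((∏ x ∈ S, ((1 + (ev x θ).re) / 2) ^ k : ℝ) : ℂ)) := by
  classical
  induction S using Finset.induction_on with
  | empty => simpa using h
  | insert x S hx ih =>
    have h1 := ih.mul_re_pow hadd (RatFunc.C x) (1 / 2) (1 / 2) k
    simp only [evR_C] at h1
    have e1 : ∀ (z : ℂ) (t r : ℝ), z * ((((1 + t) / 2) ^ k * r : ℝ) : ℂ) =
        z * (r : ℂ) * (((1 / 2 + 1 / 2 * t) ^ k : ℝ) : ℂ) := by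
      intro z t r
      have e2 : (1 + t) / 2 = 1 / 2 + 1 / 2 * t := by ring
      rw [e2]
      push_cast
      ring
    simp only [Finset.prod_insert hx, e1]
    exact h1

end

end RUnifAux

open RUnifAux Filter Topology in
theorem R_unif {F : Subfield ℂ} (hF : GoodField F) {η : ℝ} (hη : 0 < η) :
    ∃ (S : Finset F) (k : ℕ), ∀ (P : Measure (X F)) (c : F → ℝ), IsProbabilityMeasure P →
      Rep P c → Radial F c → ∀ γ : Gam F,
        ∫ θ, Theta S k θ * (1 - (ev (toF γ) θ).re) ∂P ≤ η := by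
  classical
  by_contra hcon
  push Not at hcon
  have : Countable F := hF.ctb
  have : Countable (RatFunc F) := countable_ratFunc hF
  obtain ⟨x, hx⟩ := exists_surjective_nat F
  set S : ℕ → Finset F := fun n => (Finset.range (n + 1)).image x with hSdef
  have hS : ∀ j n, j ≤ n → x j ∈ S n := fun j n h =>
    Finset.mem_image_of_mem x (Finset.mem_range.mpr (by omega))
  have hSm : ∀ m n, m ≤ n → S m ⊆ S n := fun m n h =>
    Finset.image_subset_image (Finset.range_subset_range.mpr (by omega))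
  choose P c hP hrep hrad γ hγ using fun n => hcon (S n) n
  -- each value of `γ` is taken finitely often
  have hfinγ : ∀ g : Gam F, {n | γ n = g}.Finite := by
    intro g
    obtain ⟨j, hj⟩ := hx (toF g)
    obtain ⟨N, hN⟩ := exists_nat_gt (2 / η)
    refine (Set.finite_Iio (max j N)).subset fun n hn => ?_
    rw [Set.mem_Iio]
    by_contra hlt
    push Not at hlt
    have hjn : j ≤ n := (le_max_left _ _).trans hlt
    have hNn : N ≤ n := (le_max_right _ _).trans hlt
    have h1 := hγ n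
    have hn' : γ n = g := hn
    rw [hn', ← hj] at h1
    have h2 : ∫ θ, Theta (S n) n θ * (1 - (ev (x j) θ).re) ∂(P n) ≤
        ∫ _θ, (2 : ℝ) / ((n : ℝ) + 1) ∂(P n) := by
      refine integral_mono (integrable_cont _ ((continuous_Theta _ _).mul
        (continuous_const.sub (continuous_re _ _)))) (integrable_const _) fun θ => ?_
      exact bound_mem _ _ _ (hS j n hjn)
    rw [integral_const, probReal_univ, one_smul] at h2
    have h3 : (2 : ℝ) / ((n : ℝ) + 1) < η := by
      rw [div_lt_iff₀ (by positivity)]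
      rw [div_lt_iff₀ hη] at hN
      have h4 : (N : ℝ) ≤ n := Nat.cast_le.mpr hNn
      nlinarith
    linarith
  -- Cayley parameters
  have hs' : ∀ n, ∃ s : F, conjF hF s = s ∧ (γ n ≠ 1 →
      ((γ n : Circle) : ℂ) = ((s : ℂ) + Complex.I) / ((s : ℂ) - Complex.I)) := by
    intro n
    by_cases h : γ n = 1
    · exact ⟨0, by simp, fun h' => absurd h h'⟩
    · obtain ⟨t, ht, h1⟩ := hF.cayley (γ n) h
      refine ⟨⟨(t : ℂ), ht⟩, ?_, fun _ => h1⟩
      apply Subtype.ext
      rw [coe_conjF]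
      exact Complex.conj_ofReal t
  choose s hsc hs using hs'
  have hfin : ∀ y : F, {n | s n = y}.Finite := by
    intro y
    by_cases h : ∃ n₀, s n₀ = y ∧ γ n₀ ≠ 1
    · obtain ⟨n₀, h1, h2⟩ := h
      refine ((hfinγ 1).union (hfinγ (γ n₀))).subset fun n hn => ?_
      by_cases h3 : γ n = 1
      · exact Or.inl h3
      · right
        have hn' : s n = y := hn
        have h4 := hs n h3
        have h5 := hs n₀ h2
        rw [hn'] at h4
        rw [h1, ← h4] at h5
        exact Subtype.ext (Subtype.ext h5.symm)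
    · push Not at h
      exact (hfinγ 1).subset fun n hn => h n hn
  have hpd : ∀ n, PD (c n) ∧ c n 0 = 1 := fun n => pd_of_rep (P n) (c n) (hrep n)
  obtain ⟨U, C, hU, hC, hC0, hCinv, hlim, hadd⟩ := exists_limit hF c (fun n => (hpd n).1)
    (fun n => (hpd n).2) hrad s hsc hfin
  obtain ⟨Q, hQ, hQrep⟩ := bochner C hC hC0
  have hI : Complex.I ∈ F := hF.I_mem
  have hIne : conjF hF (⟨Complex.I, hI⟩ : F) ≠ ⟨Complex.I, hI⟩ := by
    intro h
    have h1 := congrArg (fun x : F => (x : ℂ)) h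
    simp only [coe_conjF] at h1
    have h2 : (starRingEnd ℂ) Complex.I = Complex.I := h1
    rw [Complex.conj_I] at h2
    have h3 := congrArg Complex.im h2
    simp at h3
    norm_num at h3
  set u : RatFunc F := uz hF ⟨Complex.I, hI⟩ with hudef
  have hR := law_R hF Q C hQrep hCinv ⟨Complex.I, hI⟩ hIne
  rw [← hudef] at hR
  -- the basic good pair
  have hfm : ∀ n, IsFiniteMeasure (P n) := fun n => by
    have := hP n
    infer_instance
  have hgood0 : Good U s P Q (fun _ => (1 : ℂ)) (fun _ _ => (1 : ℂ)) := by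
    refine ⟨continuous_const, fun _ => continuous_const, fun h => ?_⟩
    simp only [one_mul]
    rw [hQrep h]
    have h1 : ∀ n, ∫ θ, ev (evR (s n) h) θ ∂(P n) = ((c n (evR (s n) h) : ℝ) : ℂ) :=
      fun n => hrep n _
    simp only [h1]
    exact (Complex.continuous_ofReal.tendsto _).comp (hlim h)
  -- eventually `evR (s n) u = toF (γ n)`
  have hγ1 : ∀ᶠ n in (U : Filter ℕ), γ n ≠ 1 := by
    have h1 : ∀ᶠ n in (atTop : Filter ℕ), γ n ≠ 1 := by
      rw [← Nat.cofinite_eq_atTop, Filter.eventually_cofinite]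
      simpa using hfinγ 1
    exact hU h1
  have hevu : ∀ᶠ n in (U : Filter ℕ), evR (s n) u = toF (γ n) := by
    filter_upwards [hγ1] with n hn
    apply Subtype.ext
    rw [hudef, evR_uz hF (s n) (hsc n) hI, coe_toF, hs n hn]
  -- the limit inequality
  have hkey : ∀ m : ℕ, η ≤ ∫ θ, (∏ y ∈ S m, ((1 + (ev (RatFunc.C y) θ).re) / 2) ^ m) *
      (1 - (ev u θ).re) ∂Q := by
    intro m
    have h1 := (hgood0.prod hadd (S m) m).mul_re hadd u 1 (-1)
    have h2 := h1.lim 0
    have e0 : ∀ n, evR (s n) (0 : RatFunc F) = 0 := by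
      intro n
      have := evR_C (s n) 0
      rwa [map_zero] at this
    simp only [e0, ev_zero, mul_one, one_mul, ← Complex.ofReal_mul] at h2
    have e1 : ∀ t : ℝ, 1 + -1 * t = 1 - t := fun t => by ring
    simp only [e1] at h2
    have h3 := (Complex.continuous_re.tendsto _).comp h2
    have e2 : ∀ (A : Type) [AddCommGroup A] (m : Measure (X A)) (f : X A → ℝ),
        (∫ θ, ((f θ : ℝ) : ℂ) ∂m).re = ∫ θ, f θ ∂m := by
      intro A _ m f
      rw [integral_complex_ofReal, Complex.ofReal_re]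
    simp only [Function.comp_def, e2] at h3
    refine ge_of_tendsto h3 ?_
    have hm : ∀ᶠ n in (U : Filter ℕ), m ≤ n := hU (eventually_ge_atTop m)
    filter_upwards [hm, hevu] with n hmn hn
    rw [hn]
    refine (hγ n).le.trans ?_
    refine integral_mono (integrable_cont _ ((continuous_Theta _ _).mul
        (continuous_const.sub (continuous_re _ _)))) (integrable_cont _
        ((continuous_Theta (S m) m).mul (continuous_const.sub (continuous_re _ _)))) fun θ => ?_
    exact mul_le_mul_of_nonneg_right (Theta_anti (hSm m n hmn) hmn θ)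
      (sub_nonneg.mpr (re_bds _ θ).2)
  -- dominated convergence
  set f : ℕ → X (RatFunc F) → ℝ := fun m θ =>
    (∏ y ∈ S m, ((1 + (ev (RatFunc.C y) θ).re) / 2) ^ m) * (1 - (ev u θ).re) with hfdef
  have hfc : ∀ m, Continuous (f m) := fun m =>
    (continuous_finsetProd _ fun y _ => ((continuous_const.add (continuous_re _ _)).div_const _).pow
      _).mul (continuous_const.sub (continuous_re _ _))
  have hprod : ∀ m θ, 0 ≤ ∏ y ∈ S m, ((1 + (ev (RatFunc.C y) θ).re) / 2) ^ m ∧
      ∏ y ∈ S m, ((1 + (ev (RatFunc.C y) θ).re) / 2) ^ m ≤ 1 := fun m θ =>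
    ⟨Finset.prod_nonneg fun y _ => (fac_bds _ θ m).1, Finset.prod_le_one
      (fun y _ => (fac_bds _ θ m).1) fun y _ => (fac_bds _ θ m).2⟩
  have hae : ∀ᵐ θ ∂Q, Tendsto (fun m => f m θ) atTop (𝓝 0) := by
    have h1 : ∀ᵐ θ ∂Q, θ ∉ {θ : X (RatFunc F) | (∀ a : F, θ.fn (RatFunc.C a) = 1) ∧ θ.fn u ≠ 1} := by
      rw [measureReal_eq_zero_iff] at hR
      exact measure_eq_zero_iff_ae_notMem.mp hR
    filter_upwards [h1] with θ hθ
    by_cases h2 : ∀ a : F, θ.fn (RatFunc.C a) = 1
    · have h3 : θ.fn u = 1 := by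
        by_contra h3
        exact hθ ⟨h2, h3⟩
      have h4 : ev u θ = 1 := by
        rw [ev, h3]
        simp
      have h5 : ∀ m, f m θ = 0 := by
        intro m
        simp only [hfdef, h4, Complex.one_re, sub_self, mul_zero]
      simp only [h5]
      exact tendsto_const_nhds
    · push Not at h2
      obtain ⟨a, ha⟩ := h2
      obtain ⟨j, hj⟩ := hx a
      set t : ℝ := (1 + (ev (RatFunc.C a) θ).re) / 2 with htdef
      obtain ⟨hb1, hb2⟩ := re_bds (RatFunc.C a) θ
      have ht0 : 0 ≤ t := by rw [htdef]; linarith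
      have ht1 : t < 1 := by
        have h5 : (ev (RatFunc.C a) θ).re ≠ 1 := by
          intro h5
          apply ha
          have h6 := norm_ev (RatFunc.C a) θ
          have h7 : (ev (RatFunc.C a) θ).im = 0 := by
            have h8 := Complex.sq_norm (ev (RatFunc.C a) θ)
            rw [h6, Complex.normSq_apply, h5] at h8
            nlinarith
          have h9 : ev (RatFunc.C a) θ = 1 := Complex.ext (by rw [h5]; rfl) (by rw [h7]; rfl)
          rw [ev] at h9
          exact Circle.coe_injective (by rw [h9]; simp)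
        have h6 := lt_of_le_of_ne hb2 h5
        rw [htdef]
        linarith
      have h5 : Tendsto (fun m : ℕ => 2 * t ^ m) atTop (𝓝 0) := by
        have := (tendsto_pow_atTop_nhds_zero_of_lt_one ht0 ht1).const_mul 2
        simpa using this
      refine tendsto_of_tendsto_of_tendsto_of_le_of_le' tendsto_const_nhds h5 ?_ ?_
      · refine Eventually.of_forall fun m => mul_nonneg (hprod m θ).1 ?_
        exact sub_nonneg.mpr (re_bds _ θ).2
      · filter_upwards [eventually_ge_atTop j] with m hm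
        have h6 : a ∈ S m := by
          rw [← hj]
          exact hS j m hm
        have h7 : ∏ y ∈ S m, ((1 + (ev (RatFunc.C y) θ).re) / 2) ^ m ≤ t ^ m := by
          rw [← Finset.mul_prod_erase (S m) _ h6]
          have h8 := Finset.prod_le_one (s := (S m).erase a)
            (f := fun y => ((1 + (ev (RatFunc.C y) θ).re) / 2) ^ m)
            (fun y _ => (fac_bds _ θ m).1) fun y _ => (fac_bds _ θ m).2
          calc _ ≤ t ^ m * 1 := mul_le_mul_of_nonneg_left h8 (pow_nonneg ht0 m)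
            _ = _ := mul_one _
        have h8 : 1 - (ev u θ).re ≤ 2 := by
          have := (re_bds u θ).1
          linarith
        calc f m θ ≤ t ^ m * 2 := mul_le_mul h7 h8 (sub_nonneg.mpr (re_bds u θ).2)
              (pow_nonneg ht0 m)
          _ = 2 * t ^ m := mul_comm _ _
  have hdc : Tendsto (fun m => ∫ θ, f m θ ∂Q) atTop (𝓝 (∫ _θ, (0 : ℝ) ∂Q)) := by
    refine tendsto_integral_of_dominated_convergence (fun _ => (2 : ℝ))
      (fun m => (hfc m).aestronglyMeasurable) (integrable_const _) ?_ hae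
    intro m
    refine Eventually.of_forall fun θ => ?_
    rw [Real.norm_eq_abs, abs_of_nonneg (mul_nonneg (hprod m θ).1 (sub_nonneg.mpr (re_bds u θ).2))]
    have h8 : 1 - (ev u θ).re ≤ 2 := by
      have := (re_bds u θ).1
      linarith
    calc f m θ ≤ 1 * 2 := mul_le_mul (hprod m θ).2 h8 (sub_nonneg.mpr (re_bds u θ).2) zero_le_one
      _ = 2 := one_mul _
  rw [integral_zero] at hdc
  have := ge_of_tendsto' hdc hkey
  linarith

end Pool.Agent.Lib.P3852C
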