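import Pool.Agent.Lib.P3852C.Trig
import Pool.Agent.Lib.P3852C.GF

/-!
# §4: `𝒟` is closed (T1)

See §4 of the proof file (steps (a), (b), (c)).
Suppose `c` is in the closure of `𝒟` (e.g. `mem_closure_iff` / filters: for any finite set of points
and any tolerance there is `c' ∈ 𝒟` close to `c` at these points). Positive definiteness, `c 0 = 1`
and radiality pass to the closure. (a) for `c' ∈ 𝒟` with measure `P'` (Bochner), `τ ∈ K`, `τ > 0`:
`∫ Θ_τ dP' ≤ 4 η`, `Θ_τ(ψ) = Θ_{S,k}(ψ(τ ·))` (apply `R_unif` to `c'(τ ·)`, `GoodField.exists_add`,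
`1 - Re zw ≤ 2(1 - Re z) + 2(1 - Re w)`, and the weights of `Wild` on `‖x‖ < τ`). (b) the same for `c`
(`∫ Θ_τ` depends on finitely many values of `c`). (c) if `c` is not wild: `T, ε₀` with
`∑ w w c ≥ ε₀` for all weights on `‖x‖ < T`; `d t = inf` over weights on `‖x‖ < t`, nonincreasing,
in `[ε₀, 1]`; pigeonhole `t < t'` with `d t - d t' ≤ δ'`, `v = ∑ w_x ev x`; etc.

This file: (c). (Only needs elementary estimates: with `v = ∑ w_x ev x`, `|v| ≤ 1`, `‖ev y v - v‖²` as in the text; everything is a finite sum, `∫ |v|² = ∑ w w c`.)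
-/

set_option autoImplicit false

namespace Pool.Agent.Lib.P3852C

open MeasureTheory

namespace T1bAux

variable {F : Subfield ℂ}

/-- weights on the disc of radius `T` -/
def Adm (T : ℝ) (v : X F → ℂ) : Prop :=
  ∃ (s : Finset F) (w : F → ℝ), (∀ x ∈ s, ‖(x : ℂ)‖ < T) ∧ (∀ x, 0 ≤ w x) ∧ ∑ x ∈ s, w x = 1 ∧
    ∀ θ, v θ = ∑ x ∈ s, (w x : ℂ) * ev x θ

theorem Adm.one {T : ℝ} (hT : 0 < T) : Adm T (fun _ : X F => (1 : ℂ)) := by
  classical
  refine ⟨{0}, fun _ => 1, ?_, fun _ => zero_le_one, by simp, fun θ => by simp⟩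
  intro x hx
  rw [Finset.mem_singleton] at hx
  subst hx
  simpa using hT

theorem Adm.cont {T : ℝ} {v : X F → ℂ} (h : Adm T v) : Continuous v := by
  obtain ⟨s, w, -, -, -, hv⟩ := h
  have : v = fun θ => ∑ x ∈ s, (w x : ℂ) * ev x θ := funext hv
  rw [this]
  exact continuous_finsetSum _ fun x _ => continuous_const.mul (continuous_ev x)

theorem Adm.norm_le {T : ℝ} {v : X F → ℂ} (h : Adm T v) (θ : X F) : ‖v θ‖ ≤ 1 := by
  obtain ⟨s, w, -, h0, h1, hv⟩ := h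
  rw [hv, ← h1]
  refine (norm_sum_le _ _).trans (Finset.sum_le_sum fun x _ => ?_)
  rw [norm_mul, norm_ev, mul_one, Complex.norm_real, Real.norm_of_nonneg (h0 x)]

theorem Adm.mono {T T' : ℝ} (hT : T ≤ T') {v : X F → ℂ} (h : Adm T v) : Adm T' v := by
  obtain ⟨s, w, h2, h0, h1, hv⟩ := h
  exact ⟨s, w, fun x hx => (h2 x hx).trans_le hT, h0, h1, hv⟩

theorem shift_sum {E : Type} [AddCommGroup E] [Module ℝ E] (s : Finset F) (w : F → ℝ) (y : F)
    (f : F → E) [DecidableEq F] :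
    ∑ z ∈ s ∪ s.image (fun x => x + y),
      (((if z ∈ s then w z else 0) + (if z - y ∈ s then w (z - y) else 0)) / 2 : ℝ) • f z =
      (1 / 2 : ℝ) • (∑ x ∈ s, w x • f x) + (1 / 2 : ℝ) • (∑ x ∈ s, w x • f (x + y)) := by
  have e1 : ∑ z ∈ s ∪ s.image (fun x => x + y), (if z ∈ s then w z else 0) • f z =
      ∑ x ∈ s, w x • f x := by
    rw [← Finset.sum_subset (s₁ := s) Finset.subset_union_left]
    · exact Finset.sum_congr rfl fun x hx => by rw [if_pos hx]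
    · intro x _ hx
      rw [if_neg hx, zero_smul]
  have e2 : ∑ z ∈ s ∪ s.image (fun x => x + y), (if z - y ∈ s then w (z - y) else 0) • f z =
      ∑ x ∈ s, w x • f (x + y) := by
    rw [← Finset.sum_subset (s₁ := s.image (fun x => x + y)) Finset.subset_union_right]
    · rw [Finset.sum_image (fun a _ b _ h => add_right_cancel h)]
      exact Finset.sum_congr rfl fun x hx => by rw [add_sub_cancel_right, if_pos hx]
    · intro x _ hx
      rw [if_neg, zero_smul]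
      intro h
      exact hx (Finset.mem_image.2 ⟨x - y, h, sub_add_cancel x y⟩)
  rw [← e1, ← e2, Finset.smul_sum, Finset.smul_sum, ← Finset.sum_add_distrib]
  refine Finset.sum_congr rfl fun z _ => ?_
  rw [smul_smul, smul_smul, ← add_smul]
  congr 1
  ring

theorem Adm.shift {t t' : ℝ} {v : X F → ℂ} (h : Adm t v) (y : F) (htt : t ≤ t')
    (hy : ‖(y : ℂ)‖ ≤ t' - t) :
    Adm t' (fun θ => (v θ + ev y θ * v θ) / 2) := by
  classical
  obtain ⟨s, w, h2, h0, h1, hv⟩ := h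
  refine ⟨s ∪ s.image (fun x => x + y), fun z => ((if z ∈ s then w z else 0) +
    (if z - y ∈ s then w (z - y) else 0)) / 2, ?_, ?_, ?_, ?_⟩
  · intro x hx
    rw [Finset.mem_union, Finset.mem_image] at hx
    rcases hx with hx | ⟨a, ha, rfl⟩
    · exact (h2 x hx).trans_le htt
    · have h3 := h2 a ha
      have h4 : ‖((a + y : F) : ℂ)‖ ≤ ‖(a : ℂ)‖ + ‖(y : ℂ)‖ := by
        push_cast
        exact norm_add_le _ _
      linarith
  · intro x
    have e1 : 0 ≤ (if x ∈ s then w x else 0) := by split_ifs; exacts [h0 x, le_rfl]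
    have e2 : 0 ≤ (if x - y ∈ s then w (x - y) else 0) := by split_ifs; exacts [h0 _, le_rfl]
    linarith
  · have h3 := shift_sum s w y (fun _ => (1 : ℝ))
    simp only [smul_eq_mul, mul_one, h1] at h3
    rw [h3]
    norm_num
  · intro θ
    have h3 := shift_sum s w y (fun x => ev x θ)
    simp only [Complex.real_smul] at h3
    rw [h3]
    show (v θ + ev y θ * v θ) / 2 = _
    rw [hv]
    have h4 : ∑ x ∈ s, (w x : ℂ) * ev (x + y) θ = ev y θ * ∑ x ∈ s, (w x : ℂ) * ev x θ := by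
      rw [Finset.mul_sum]
      refine Finset.sum_congr rfl fun x _ => ?_
      rw [ev_add]
      ring
    rw [h4]
    push_cast
    ring

variable (P : Measure (X F)) [IsProbabilityMeasure P]

theorem integrable_of {f : X F → ℝ} (hf : Continuous f) {C : ℝ} (h : ∀ θ, |f θ| ≤ C) :
    Integrable f P :=
  Integrable.of_bound hf.aestronglyMeasurable C (Filter.Eventually.of_forall h)

theorem integrable_ofC {f : X F → ℂ} (hf : Continuous f) {C : ℝ} (h : ∀ θ, ‖f θ‖ ≤ C) :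
    Integrable f P :=
  Integrable.of_bound hf.aestronglyMeasurable C (Filter.Eventually.of_forall h)

theorem int_sq (c : F → ℝ) (hP : Rep P c) (s : Finset F) (w : F → ℝ) :
    ∫ θ, ‖∑ x ∈ s, (w x : ℂ) * ev x θ‖ ^ 2 ∂P = ∑ x ∈ s, ∑ y ∈ s, w x * w y * c (x - y) := by
  have h1 : ∀ θ : X F, ((‖∑ x ∈ s, (w x : ℂ) * ev x θ‖ ^ 2 : ℝ) : ℂ) =
      ∑ x ∈ s, ∑ y ∈ s, ((w x * w y : ℝ) : ℂ) * ev (x - y) θ := by
    intro θ
    rw [← Complex.normSq_eq_norm_sq, ← Complex.mul_conj, map_sum, Finset.sum_mul_sum]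
    refine Finset.sum_congr rfl fun x _ => Finset.sum_congr rfl fun y _ => ?_
    rw [map_mul, Complex.conj_ofReal, ev_sub]
    push_cast
    ring
  have h2 : ((∫ θ, ‖∑ x ∈ s, (w x : ℂ) * ev x θ‖ ^ 2 ∂P : ℝ) : ℂ) =
      ((∑ x ∈ s, ∑ y ∈ s, w x * w y * c (x - y) : ℝ) : ℂ) := by
    rw [← integral_complex_ofReal]
    simp only [h1]
    have hi : ∀ z : F, Integrable (ev z : X F → ℂ) P := fun z =>
      integrable_ofC P (continuous_ev z) (C := 1) fun θ => by rw [norm_ev]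
    rw [integral_finsetSum _ fun x _ => integrable_finsetSum _ fun y _ => (hi _).const_mul _]
    push_cast
    refine Finset.sum_congr rfl fun x _ => ?_
    rw [integral_finsetSum _ fun y _ => (hi _).const_mul _]
    refine Finset.sum_congr rfl fun y _ => ?_
    rw [integral_const_mul, hP (x - y)]
  exact_mod_cast h2

theorem Adm.int_ge {c : F → ℝ} (hP : Rep P c) {T ε : ℝ}
    (hw : ∀ (s : Finset F) (w : F → ℝ), (∀ x ∈ s, ‖(x : ℂ)‖ < T) → (∀ x, 0 ≤ w x) →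
      ∑ x ∈ s, w x = 1 → ε ≤ ∑ x ∈ s, ∑ y ∈ s, w x * w y * c (x - y))
    {v : X F → ℂ} (h : Adm T v) : ε ≤ ∫ θ, ‖v θ‖ ^ 2 ∂P := by
  obtain ⟨s, w, h2, h0, h1, hv⟩ := h
  simp only [hv]
  rw [int_sq P c hP]
  exact hw s w h2 h0 h1

theorem exists_step {T δ : ℝ} (hT : 0 < T) (hδ : 0 < δ) :
    ∃ (t t' : ℝ) (v : X F → ℂ), 0 < t ∧ t < t' ∧ t' ≤ T ∧ Adm t v ∧
      ∀ v' : X F → ℂ, Adm t' v' → ∫ θ, ‖v θ‖ ^ 2 ∂P - δ ≤ ∫ θ, ‖v' θ‖ ^ 2 ∂P := by
  by_contra hcon
  push Not at hcon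
  obtain ⟨N, hN⟩ := exists_nat_gt (1 / δ)
  have hN0 : 0 < (N : ℝ) := lt_trans (by positivity) hN
  have key : ∀ n : ℕ, n ≤ N → ∃ v : X F → ℂ, Adm (T * (n + 1) / (N + 1)) v ∧
      ∫ θ, ‖v θ‖ ^ 2 ∂P ≤ 1 - n * δ := by
    intro n
    induction n with
    | zero =>
      intro _
      refine ⟨fun _ => 1, Adm.one (by positivity), ?_⟩
      simp
    | succ n ih =>
      intro hn
      obtain ⟨v, hv, hi⟩ := ih (by omega)
      have hn' : (n : ℝ) + 1 ≤ N := by exact_mod_cast hn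
      obtain ⟨v', hv', hlt⟩ := hcon (T * (n + 1) / (N + 1)) (T * ((n + 1 : ℕ) + 1) / (N + 1)) v
        (by positivity) (by
          push_cast
          refine div_lt_div_of_pos_right ?_ (by positivity)
          nlinarith) (by
          push_cast
          rw [div_le_iff₀ (by positivity)]
          nlinarith) hv
      refine ⟨v', hv', ?_⟩
      push_cast
      linarith
  obtain ⟨v, -, hi⟩ := key N le_rfl
  have h1 : 0 ≤ ∫ θ, ‖v θ‖ ^ 2 ∂P := integral_nonneg fun θ => by positivity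
  have h2 : 1 < N * δ := by
    rw [div_lt_iff₀ hδ] at hN
    exact hN
  linarith

theorem one_sub_prod_le {ι : Type} (s : Finset ι) (a : ι → ℝ) (h0 : ∀ i ∈ s, 0 ≤ a i)
    (h1 : ∀ i ∈ s, a i ≤ 1) : 1 - ∏ i ∈ s, a i ≤ ∑ i ∈ s, (1 - a i) := by
  classical
  induction s using Finset.induction_on with
  | empty => simp
  | insert i s hi ih =>
    rw [Finset.prod_insert hi, Finset.sum_insert hi]
    have h2 := ih (fun j hj => h0 j (Finset.mem_insert_of_mem hj))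
      (fun j hj => h1 j (Finset.mem_insert_of_mem hj))
    have h3 := h0 i (Finset.mem_insert_self i s)
    have h4 := h1 i (Finset.mem_insert_self i s)
    have h5 : 0 ≤ ∏ j ∈ s, a j :=
      Finset.prod_nonneg fun j hj => h0 j (Finset.mem_insert_of_mem hj)
    have h6 : ∏ j ∈ s, a j ≤ 1 := Finset.prod_le_one
      (fun j hj => h0 j (Finset.mem_insert_of_mem hj))
      (fun j hj => h1 j (Finset.mem_insert_of_mem hj))
    nlinarith

theorem re_bounds (x : F) (θ : X F) : -1 ≤ (ev x θ).re ∧ (ev x θ).re ≤ 1 := by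
  have h := Complex.abs_re_le_norm (ev x θ)
  rw [norm_ev] at h
  exact abs_le.1 h

/-- the weight -/
noncomputable def Th (S : Finset F) (k : ℕ) (τ : F) (θ : X F) : ℝ :=
  ∏ x ∈ S, ((1 + (ev (τ * x) θ).re) / 2) ^ k

theorem Th_nonneg (S : Finset F) (k : ℕ) (τ : F) (θ : X F) : 0 ≤ Th S k τ θ :=
  Finset.prod_nonneg fun x _ => by
    have := (re_bounds (τ * x) θ).1
    apply pow_nonneg
    linarith

theorem Th_le_one (S : Finset F) (k : ℕ) (τ : F) (θ : X F) : Th S k τ θ ≤ 1 :=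
  Finset.prod_le_one (fun x _ => by
    have := (re_bounds (τ * x) θ).1
    apply pow_nonneg
    linarith) fun x _ => by
    have h1 := (re_bounds (τ * x) θ).1
    have h2 := (re_bounds (τ * x) θ).2
    exact pow_le_one₀ (by linarith) (by linarith)

theorem Th_cont (S : Finset F) (k : ℕ) (τ : F) : Continuous (Th S k τ) := by
  unfold Th
  refine continuous_finsetProd _ fun x _ => ?_
  exact ((continuous_const.add (Complex.continuous_re.comp (continuous_ev _))).div_const _).pow k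

theorem one_sub_Th (S : Finset F) (k : ℕ) (τ : F) (θ : X F) :
    1 - Th S k τ θ ≤ ∑ x ∈ S, (k / 2 : ℝ) * (1 - (ev (τ * x) θ).re) := by
  refine (one_sub_prod_le S _ ?_ ?_).trans (Finset.sum_le_sum fun x _ => ?_)
  · intro x _
    have := (re_bounds (τ * x) θ).1
    apply pow_nonneg
    linarith
  · intro x _
    have h1 := (re_bounds (τ * x) θ).1
    have h2 := (re_bounds (τ * x) θ).2
    exact pow_le_one₀ (by linarith) (by linarith)
  · have h1 := (re_bounds (τ * x) θ).1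
    have h2 := (re_bounds (τ * x) θ).2
    have h3 := one_add_mul_le_pow (a := ((ev (τ * x) θ).re - 1) / 2) (by linarith) k
    have h4 : 1 + ((ev (τ * x) θ).re - 1) / 2 = (1 + (ev (τ * x) θ).re) / 2 := by ring
    rw [h4] at h3
    have h5 : (k : ℝ) * (((ev (τ * x) θ).re - 1) / 2) = -((k / 2 : ℝ) * (1 - (ev (τ * x) θ).re)) := by
      ring
    linarith

theorem par (v e : ℂ) (he : ‖e‖ = 1) :
    ‖v‖ ^ 2 * (1 - e.re) = 2 * ‖v‖ ^ 2 - 2 * ‖(v + e * v) / 2‖ ^ 2 := by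
  have h1 : e.re ^ 2 + e.im ^ 2 = 1 := by
    have h := Complex.sq_norm e
    rw [he, Complex.normSq_apply] at h
    nlinarith
  have h2 : ‖(v + e * v) / 2‖ ^ 2 = ‖v‖ ^ 2 * (‖1 + e‖ ^ 2 / 4) := by
    have h3 : (v + e * v) / 2 = v * (1 + e) / 2 := by ring
    rw [h3, norm_div, norm_mul]
    have h4 : ‖(2 : ℂ)‖ = 2 := by norm_num
    rw [h4]
    ring
  have h3 : ‖1 + e‖ ^ 2 = 2 + 2 * e.re := by
    rw [Complex.sq_norm, Complex.normSq_apply]
    simp only [Complex.add_re, Complex.add_im, Complex.one_re, Complex.one_im]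
    nlinarith
  rw [h2, h3]
  ring

end T1bAux

open T1bAux in
/-- (c): a positive definite function that is not wild has `∫ Θ_τ ≥ ε₀ / 2` for small `τ` -/
theorem theta_large {F : Subfield ℂ} (hF : GoodField F) (P : Measure (X F)) (c : F → ℝ)
    [IsProbabilityMeasure P] (hP : Rep P c) (hw : ¬ Wild F c) :
    ∃ ε₀ : ℝ, 0 < ε₀ ∧ ∀ (S : Finset F) (k : ℕ), ∃ τ : F, τ ≠ 0 ∧
      ε₀ ≤ ∫ θ, (∏ x ∈ S, ((1 + (ev (τ * x) θ).re) / 2) ^ k) ∂P := by
  unfold Wild at hw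
  push Not at hw
  obtain ⟨T, hT, ε, hε, hw⟩ := hw
  refine ⟨ε / 2, by positivity, fun S k => ?_⟩
  obtain ⟨δ, hδ, hδ'⟩ : ∃ δ : ℝ, 0 < δ ∧ (k : ℝ) * S.card * δ ≤ ε / 2 := by
    refine ⟨ε / (2 * (k * S.card + 1)), by positivity, ?_⟩
    rw [mul_div_assoc', div_le_div_iff₀ (by positivity) (by positivity)]
    nlinarith [mul_nonneg (Nat.cast_nonneg (α := ℝ) k) (Nat.cast_nonneg (α := ℝ) S.card)]
  obtain ⟨t, t', v, ht, htt, ht', hv, hmin⟩ := exists_step P hT hδ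
  -- the small dilation
  obtain ⟨m, hm⟩ := exists_nat_gt ((∑ x ∈ S, ‖(x : ℂ)‖) / (t' - t))
  have htt' : 0 < t' - t := by linarith
  have hs0 : 0 ≤ ∑ x ∈ S, ‖(x : ℂ)‖ := Finset.sum_nonneg fun x _ => norm_nonneg _
  have hm0 : 0 < (m : ℝ) := lt_of_le_of_lt (by positivity) hm
  have hmF : ((m : ℕ) : F) ≠ 0 := by
    have : m ≠ 0 := by rintro rfl; simp at hm0
    exact_mod_cast this
  refine ⟨((m : ℕ) : F)⁻¹, inv_ne_zero hmF, ?_⟩
  have hsmall : ∀ x ∈ S, ‖((((m : ℕ) : F)⁻¹ * x : F) : ℂ)‖ ≤ t' - t := by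
    intro x hx
    have h1 : ‖(x : ℂ)‖ ≤ ∑ x ∈ S, ‖(x : ℂ)‖ :=
      Finset.single_le_sum (f := fun x : F => ‖(x : ℂ)‖) (fun _ _ => norm_nonneg _) hx
    rw [div_lt_iff₀ htt'] at hm
    have h2 : ‖((((m : ℕ) : F)⁻¹ * x : F) : ℂ)‖ = ‖(x : ℂ)‖ / m := by
      push_cast
      rw [norm_mul, norm_inv, Complex.norm_natCast]
      ring
    rw [h2, div_le_iff₀ hm0]
    linarith
  obtain ⟨τ, hτ⟩ : ∃ τ : F, τ = ((m : ℕ) : F)⁻¹ := ⟨_, rfl⟩
  rw [← hτ] at hsmall ⊢
  have hvc := hv.cont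
  have hv1 := hv.norm_le
  have cv : Continuous fun θ => ‖v θ‖ ^ 2 := hvc.norm.pow 2
  have iv : Integrable (fun θ => ‖v θ‖ ^ 2) P := integrable_of P cv (C := 1) fun θ => by
    rw [abs_of_nonneg (by positivity)]
    exact pow_le_one₀ (norm_nonneg _) (hv1 θ)
  have cT := Th_cont S k τ
  have iT : Integrable (Th S k τ) P := integrable_of P cT (C := 1) fun θ => by
    rw [abs_of_nonneg (Th_nonneg S k τ θ)]
    exact Th_le_one S k τ θ
  have hvge : ε ≤ ∫ θ, ‖v θ‖ ^ 2 ∂P := (hv.mono (by linarith : t ≤ T)).int_ge P hP hw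
  -- one term
  have hterm : ∀ x ∈ S, ∫ θ, ‖v θ‖ ^ 2 * (1 - (ev (τ * x) θ).re) ∂P ≤ 2 * δ := by
    intro x hx
    have hadm := hv.shift (τ * x) htt.le (hsmall x hx)
    have h1 := hmin _ hadm
    have i2 : Integrable (fun θ => ‖(v θ + ev (τ * x) θ * v θ) / 2‖ ^ 2) P :=
      integrable_of P (hadm.cont.norm.pow 2) (C := 1) fun θ => by
        rw [abs_of_nonneg (by positivity)]
        exact pow_le_one₀ (norm_nonneg _) (hadm.norm_le θ)
    have h2 : ∫ θ, ‖v θ‖ ^ 2 * (1 - (ev (τ * x) θ).re) ∂P =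
        2 * ∫ θ, ‖v θ‖ ^ 2 ∂P - 2 * ∫ θ, ‖(v θ + ev (τ * x) θ * v θ) / 2‖ ^ 2 ∂P := by
      rw [← integral_const_mul, ← integral_const_mul, ← integral_sub (iv.const_mul 2)
        (i2.const_mul 2)]
      exact integral_congr_ae (Filter.Eventually.of_forall fun θ =>
        par (v θ) (ev (τ * x) θ) (norm_ev _ _))
    rw [h2]
    linarith
  have i3 : ∀ x : F, Integrable (fun θ => ‖v θ‖ ^ 2 * (1 - (ev (τ * x) θ).re)) P := fun x =>
    integrable_of P (cv.mul (continuous_const.sub (Complex.continuous_re.comp (continuous_ev _))))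
      (C := 2) fun θ => by
        have h1 := re_bounds (τ * x) θ
        have h2 : ‖v θ‖ ^ 2 ≤ 1 := pow_le_one₀ (norm_nonneg _) (hv1 θ)
        have h3 : 0 ≤ ‖v θ‖ ^ 2 := by positivity
        rw [abs_of_nonneg (mul_nonneg h3 (by linarith [h1.2]))]
        nlinarith [h1.1, h1.2]
  have hdef : ∫ θ, ‖v θ‖ ^ 2 * (1 - Th S k τ θ) ∂P ≤ ε / 2 := by
    have h1 : ∫ θ, ‖v θ‖ ^ 2 * (1 - Th S k τ θ) ∂P ≤
        ∫ θ, ∑ x ∈ S, (k / 2 : ℝ) * (‖v θ‖ ^ 2 * (1 - (ev (τ * x) θ).re)) ∂P := by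
      refine integral_mono ?_ (integrable_finsetSum _ fun x _ => (i3 x).const_mul _) fun θ => ?_
      · refine integrable_of P (cv.mul (continuous_const.sub cT)) (C := 1) fun θ => ?_
        have h2 : ‖v θ‖ ^ 2 ≤ 1 := pow_le_one₀ (norm_nonneg _) (hv1 θ)
        have h3 : 0 ≤ ‖v θ‖ ^ 2 := by positivity
        have h4 := Th_nonneg S k τ θ
        have h5 := Th_le_one S k τ θ
        rw [abs_of_nonneg (mul_nonneg h3 (by linarith))]
        nlinarith
      · show ‖v θ‖ ^ 2 * (1 - Th S k τ θ) ≤ _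
        have h2 := mul_le_mul_of_nonneg_left (one_sub_Th S k τ θ) (sq_nonneg ‖v θ‖)
        refine h2.trans (le_of_eq ?_)
        rw [Finset.mul_sum]
        exact Finset.sum_congr rfl fun x _ => by ring
    rw [integral_finsetSum _ fun x _ => (i3 x).const_mul _] at h1
    refine h1.trans ?_
    have h2 : ∑ x ∈ S, ∫ θ, (k / 2 : ℝ) * (‖v θ‖ ^ 2 * (1 - (ev (τ * x) θ).re)) ∂P ≤
        ∑ x ∈ S, (k / 2 : ℝ) * (2 * δ) := by
      refine Finset.sum_le_sum fun x hx => ?_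
      rw [integral_const_mul]
      exact mul_le_mul_of_nonneg_left (hterm x hx) (by positivity)
    refine h2.trans ?_
    rw [Finset.sum_const, nsmul_eq_mul]
    linarith
  have cVT : Continuous (fun θ => ‖v θ‖ ^ 2 * Th S k τ θ) := cv.mul cT
  have iVT : Integrable (fun θ => ‖v θ‖ ^ 2 * Th S k τ θ) P := by
    refine integrable_of P cVT (C := 1) fun θ => ?_
    have h2 : ‖v θ‖ ^ 2 ≤ 1 := pow_le_one₀ (norm_nonneg _) (hv1 θ)
    have h3 : 0 ≤ ‖v θ‖ ^ 2 := by positivity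
    have h4 := Th_nonneg S k τ θ
    have h5 := Th_le_one S k τ θ
    rw [abs_of_nonneg (mul_nonneg h3 h4)]
    nlinarith
  have h6 : ∫ θ, ‖v θ‖ ^ 2 * Th S k τ θ ∂P ≤ ∫ θ, Th S k τ θ ∂P := by
    refine integral_mono iVT iT fun θ => ?_
    show ‖v θ‖ ^ 2 * Th S k τ θ ≤ Th S k τ θ
    have h2 : ‖v θ‖ ^ 2 ≤ 1 := pow_le_one₀ (norm_nonneg _) (hv1 θ)
    exact mul_le_of_le_one_left (Th_nonneg S k τ θ) h2
  have h7 : ∫ θ, ‖v θ‖ ^ 2 * (1 - Th S k τ θ) ∂P =
      ∫ θ, ‖v θ‖ ^ 2 ∂P - ∫ θ, ‖v θ‖ ^ 2 * Th S k τ θ ∂P := by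
    rw [← integral_sub iv iVT]
    exact integral_congr_ae (Filter.Eventually.of_forall fun θ => by
      show ‖v θ‖ ^ 2 * (1 - Th S k τ θ) = ‖v θ‖ ^ 2 - ‖v θ‖ ^ 2 * Th S k τ θ
      ring)
  have h8 : ε / 2 ≤ ∫ θ, Th S k τ θ ∂P := by linarith
  exact h8

end Pool.Agent.Lib.P3852C
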