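import Pool.Agent.Lib.P3852C.T1a
import Pool.Agent.Lib.P3852C.T1b
import Pool.Agent.Lib.P3852C.Bochner

/-!
# §4: `𝒟` is closed (T1)

See §4 of the proof file (steps (a), (b), (c)).
Suppose `c` is in the closure of `𝒟` (e.g. `mem_closure_iff` / filters: for any finite set of points
and any tolerance there is `c' ∈ 𝒟` close to `c` at these points). Positive definiteness, `c 0 = 1`
and radiality pass to the closure. (a) for `c' ∈ 𝒟` with measure `P'` (Bochner), `τ ∈ K`, `τ > 0`:
`∫ Θ_τ dP' ≤ 4 η`, `Θ_τ(ψ) = Θ_{S,k}(ψ(τ ·))` (apply `R_unif` to `c'(τ ·)`, `GoodField.exists_add`,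
`1 - Re zw ≤ 2(1 - Re z) + 2(1 - Re w)`, and the weights of `Wild` on `‖x‖ < τ`). (b) the same for `c`
(`∫ Θ_τ` depends on finitely many values of `c`). (c) if `c` is not wild: `T, ε₀` with
`∑ w w c ≥ ε₀` for all weights on `‖x‖ < T`; `d t = inf` over weights on `‖x‖ < t`, nonincreasing,
in `[ε₀, 1]`; pigeonhole `t < t'` with `d t - d t' ≤ δ'`, `v = ∑ w_x ev x`; etc.

This file: the assembly (closure point `c`; Bochner for `c` and for the nearby elements of `𝒟`).
-/

set_option autoImplicit false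

namespace Pool.Agent.Lib.P3852C

open MeasureTheory

lemma isClosed_PD {A : Type} [AddCommGroup A] : IsClosed {c : A → ℝ | PD c} := by
  have h : {c : A → ℝ | PD c} = (⋂ x : A, {c | c (-x) = c x}) ∩
      ⋂ (s : Finset A) (a : A → ℝ), {c | 0 ≤ ∑ x ∈ s, ∑ y ∈ s, a x * a y * c (x - y)} := by
    ext c
    simp only [Set.mem_setOf_eq, Set.mem_inter_iff, Set.mem_iInter]
    exact ⟨fun h => ⟨h.even, h.pos⟩, fun h => ⟨h.1, h.2⟩⟩
  rw [h]
  refine IsClosed.inter (isClosed_iInter fun x => ?_)
    (isClosed_iInter fun s => isClosed_iInter fun a => ?_)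
  · exact isClosed_eq (continuous_apply _) (continuous_apply _)
  · exact isClosed_le continuous_const (continuous_finsetSum _ fun x _ =>
      continuous_finsetSum _ fun y _ => continuous_const.mul (continuous_apply _))

lemma isClosed_radial (F : Subfield ℂ) : IsClosed {c : F → ℝ | Radial F c} := by
  have h : {c : F → ℝ | Radial F c} =
      ⋂ (x : F) (y : F) (_ : ‖(x : ℂ)‖ = ‖(y : ℂ)‖), {c | c x = c y} := by
    ext c
    simp only [Set.mem_setOf_eq, Set.mem_iInter]
    exact Iff.rfl
  rw [h]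
  exact isClosed_iInter fun x => isClosed_iInter fun y => isClosed_iInter fun _ =>
    isClosed_eq (continuous_apply _) (continuous_apply _)

theorem T1 {F : Subfield ℂ} (hF : GoodField F) : IsClosed {c : F → ℝ | InD F c} := by
  haveI := hF.ctb
  refine isClosed_of_closure_subset fun c hc => ?_
  have hpd : PD c := closure_minimal (fun c' (h : InD F c') => h.pd) isClosed_PD hc
  have hone : c 0 = 1 := closure_minimal (s := {c : F → ℝ | InD F c})
    (t := {c : F → ℝ | c 0 = 1}) (fun c' (h : InD F c') => h.one)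
    (isClosed_eq (continuous_apply _) continuous_const) hc
  have hrad : Radial F c := closure_minimal (fun c' (h : InD F c') => h.rad)
    (isClosed_radial F) hc
  refine ⟨hpd, hone, hrad, ?_⟩
  by_contra hw
  obtain ⟨P, hprob, hP⟩ := bochner c hpd hone
  obtain ⟨ε₀, hε₀, hlarge⟩ := theta_large hF P c hP hw
  obtain ⟨S, k, hsmall⟩ := theta_small hF (η := ε₀ / 2) (by positivity)
  obtain ⟨τ, hτ, hτl⟩ := hlarge S k
  obtain ⟨s, a, -, hsa⟩ := (isTrig_ThT S k τ).exists_integral
  have h1 : ∑ x ∈ s, a x * c x ≤ ε₀ / 2 := by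
    refine closure_minimal (s := {c : F → ℝ | InD F c})
      (t := {c' : F → ℝ | ∑ x ∈ s, a x * c' x ≤ ε₀ / 2}) ?_ ?_ hc
    · intro c' hc'
      obtain ⟨P', hprob', hP'⟩ := bochner c' hc'.pd hc'.one
      have h2 := hsmall P' c' hprob' hP' hc' τ hτ
      have h3 := hsa P' c' hP'
      show ∑ x ∈ s, a x * c' x ≤ ε₀ / 2
      rw [← h3]
      exact h2
    · exact isClosed_le (continuous_finsetSum _ fun x _ =>
        continuous_const.mul (continuous_apply _)) continuous_const
  have h4 := hsa P c hP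
  rw [← h4] at h1
  have h5 : ε₀ ≤ ∫ θ, ThT S k τ θ ∂P := hτl
  linarith

end Pool.Agent.Lib.P3852C
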