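import Pool.Agent.Lib.P3852C.Defs

/-!
# Real trigonometric polynomials form an algebra
-/

set_option autoImplicit false

namespace Pool.Agent.Lib.P3852C

open MeasureTheory

variable {A : Type} [AddCommGroup A]

/-- `f` is a finite real combination of the functions `Re ev x` -/
def IsTrig (f : X A → ℝ) : Prop :=
  ∃ (s : Finset A) (a : A → ℝ), ∀ θ, f θ = ∑ x ∈ s, a x * (ev x θ).re

/-- a more flexible form: combinations indexed by a finite set -/
lemma isTrig_of_sum {ι : Type} (s : Finset ι) (a : ι → ℝ) (y : ι → A) :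
    IsTrig (fun θ : X A => ∑ i ∈ s, a i * (ev (y i) θ).re) := by
  classical
  refine ⟨s.image y, fun x => ∑ i ∈ s with y i = x, a i, fun θ => ?_⟩
  show ∑ i ∈ s, a i * (ev (y i) θ).re = ∑ x ∈ s.image y, (∑ i ∈ s with y i = x, a i) * (ev x θ).re
  rw [← Finset.sum_fiberwise_of_maps_to (g := y) (t := s.image y)
    (fun i hi => Finset.mem_image_of_mem y hi)]
  refine Finset.sum_congr rfl fun x _ => ?_
  rw [Finset.sum_mul]
  refine Finset.sum_congr rfl fun i hi => ?_
  rw [(Finset.mem_filter.1 hi).2]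

lemma IsTrig.const (c : ℝ) : IsTrig (fun _ : X A => c) :=
  ⟨{0}, fun _ => c, fun θ => by simp⟩

lemma IsTrig.ev (x : A) : IsTrig (fun θ : X A => (P3852C.ev x θ).re) :=
  ⟨{x}, fun _ => 1, fun θ => by simp⟩

lemma IsTrig.add {f g : X A → ℝ} (hf : IsTrig f) (hg : IsTrig g) :
    IsTrig (fun θ => f θ + g θ) := by
  obtain ⟨s, a, hs⟩ := hf
  obtain ⟨t, b, ht⟩ := hg
  have := isTrig_of_sum (s.disjSum t) (Sum.elim a b) (Sum.elim id id)
  simpa only [Finset.sum_disjSum, Sum.elim_inl, Sum.elim_inr, id, ← hs, ← ht] using this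

lemma IsTrig.mul {f g : X A → ℝ} (hf : IsTrig f) (hg : IsTrig g) :
    IsTrig (fun θ => f θ * g θ) := by
  obtain ⟨s, a, hs⟩ := hf
  obtain ⟨t, b, ht⟩ := hg
  have h1 := isTrig_of_sum (A := A) (s ×ˢ t) (fun p => a p.1 * b p.2 / 2) (fun p => p.1 + p.2)
  have h2 := isTrig_of_sum (A := A) (s ×ˢ t) (fun p => a p.1 * b p.2 / 2) (fun p => p.1 - p.2)
  have h3 := h1.add h2
  have e : (fun θ => f θ * g θ) = fun θ : X A =>
      ∑ p ∈ s ×ˢ t, a p.1 * b p.2 / 2 * (P3852C.ev (p.1 + p.2) θ).re +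
        ∑ p ∈ s ×ˢ t, a p.1 * b p.2 / 2 * (P3852C.ev (p.1 - p.2) θ).re := by
    funext θ
    rw [hs, ht, Finset.sum_mul_sum, ← Finset.sum_product', ← Finset.sum_add_distrib]
    refine Finset.sum_congr rfl fun p _ => ?_
    rw [ev_add, ev_sub, Complex.mul_re, Complex.mul_re, Complex.conj_re, Complex.conj_im]
    ring
  rw [e]
  exact h3

lemma IsTrig.smul {f : X A → ℝ} (c : ℝ) (hf : IsTrig f) : IsTrig (fun θ => c * f θ) :=
  (IsTrig.const c).mul hf

lemma IsTrig.sub {f g : X A → ℝ} (hf : IsTrig f) (hg : IsTrig g) :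
    IsTrig (fun θ => f θ - g θ) := by
  have := hf.add (hg.smul (-1))
  simpa [sub_eq_add_neg] using this

lemma IsTrig.pow {f : X A → ℝ} (hf : IsTrig f) (k : ℕ) : IsTrig (fun θ => f θ ^ k) := by
  induction k with
  | zero => simpa using IsTrig.const (A := A) 1
  | succ k ih => simpa [pow_succ] using ih.mul hf

lemma IsTrig.congr {f g : X A → ℝ} (hf : IsTrig f) (h : ∀ θ, g θ = f θ) : IsTrig g := by
  obtain ⟨s, a, hs⟩ := hf
  exact ⟨s, a, fun θ => by rw [h, hs]⟩

lemma IsTrig.prod {ι : Type} (s : Finset ι) {f : ι → X A → ℝ} (hf : ∀ i ∈ s, IsTrig (f i)) :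
    IsTrig (fun θ => ∏ i ∈ s, f i θ) := by
  classical
  induction s using Finset.induction_on with
  | empty => simpa using IsTrig.const (A := A) 1
  | insert i s hi ih =>
    have h1 := ih fun j hj => hf j (Finset.mem_insert_of_mem hj)
    have h2 := (hf i (Finset.mem_insert_self _ _)).mul h1
    refine h2.congr ?_
    intro θ
    rw [Finset.prod_insert hi]

lemma integrable_ev_re (P : Measure (X A)) [IsFiniteMeasure P] (x : A) :
    Integrable (fun θ => (ev x θ).re) P := by
  refine Integrable.of_bound ((Complex.continuous_re.comp (continuous_ev x)).measurable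
    |>.aestronglyMeasurable) 1 (Filter.Eventually.of_forall fun θ => ?_)
  exact (Complex.abs_re_le_norm _).trans (norm_ev x θ).le

lemma integrable_ev (P : Measure (X A)) [IsFiniteMeasure P] (x : A) :
    Integrable (fun θ => ev x θ) P := by
  refine Integrable.of_bound (measurable_ev x).aestronglyMeasurable 1
    (Filter.Eventually.of_forall fun θ => (norm_ev x θ).le)

lemma integral_ev_re (P : Measure (X A)) [IsFiniteMeasure P] {c : A → ℝ} (h : Rep P c) (x : A) :
    ∫ θ, (ev x θ).re ∂P = c x := by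
  have := h x
  have h2 : ∫ θ, (ev x θ).re ∂P = (∫ θ, ev x θ ∂P).re := by
    have := integral_re (integrable_ev P x)
    simpa using this
  rw [h2, this, Complex.ofReal_re]

/-- the integral of a trigonometric polynomial is a finite combination of the values of `c` -/
lemma IsTrig.exists_integral {f : X A → ℝ} (hf : IsTrig f) :
    ∃ (s : Finset A) (a : A → ℝ), (∀ θ, f θ = ∑ x ∈ s, a x * (P3852C.ev x θ).re) ∧
      ∀ (P : Measure (X A)) [IsFiniteMeasure P] (c : A → ℝ), Rep P c →
        ∫ θ, f θ ∂P = ∑ x ∈ s, a x * c x := by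
  obtain ⟨s, a, hs⟩ := hf
  refine ⟨s, a, hs, fun P _ c hP => ?_⟩
  simp only [hs]
  rw [integral_finsetSum]
  · refine Finset.sum_congr rfl fun x _ => ?_
    rw [integral_const_mul, integral_ev_re P hP]
  · intro x _
    exact (integrable_ev_re P x).const_mul _

lemma IsTrig.integrable {f : X A → ℝ} (hf : IsTrig f) (P : Measure (X A)) [IsFiniteMeasure P] :
    Integrable f P := by
  obtain ⟨s, a, hs⟩ := hf
  have : f = fun θ => ∑ x ∈ s, a x * (P3852C.ev x θ).re := funext hs
  rw [this]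
  exact integrable_finsetSum _ fun x _ => (integrable_ev_re P x).const_mul _

lemma norm_sq_sum_ev (s : Finset A) (a : A → ℝ) (θ : X A) :
    ‖∑ x ∈ s, (a x : ℂ) * ev x θ‖ ^ 2 =
      ∑ x ∈ s, ∑ y ∈ s, a x * a y * (ev (x - y) θ).re := by
  have h : ((‖∑ x ∈ s, (a x : ℂ) * ev x θ‖ ^ 2 : ℝ) : ℂ) =
      ∑ x ∈ s, ∑ y ∈ s, ((a x * a y : ℝ) : ℂ) * ev (x - y) θ := by
    rw [Complex.ofReal_pow, ← Complex.mul_conj', map_sum, Finset.sum_mul_sum]
    refine Finset.sum_congr rfl fun x _ => Finset.sum_congr rfl fun y _ => ?_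
    rw [map_mul, Complex.conj_ofReal, ev_sub]
    push_cast
    ring
  have h2 := congrArg Complex.re h
  rw [Complex.ofReal_re] at h2
  rw [h2, Complex.re_sum]
  refine Finset.sum_congr rfl fun x _ => ?_
  rw [Complex.re_sum]
  refine Finset.sum_congr rfl fun y _ => ?_
  rw [Complex.re_ofReal_mul]

lemma integral_norm_sq_sum_ev (P : Measure (X A)) [IsFiniteMeasure P] {c : A → ℝ}
    (h : Rep P c) (s : Finset A) (a : A → ℝ) :
    ∫ θ, ‖∑ x ∈ s, (a x : ℂ) * ev x θ‖ ^ 2 ∂P = ∑ x ∈ s, ∑ y ∈ s, a x * a y * c (x - y) := by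
  simp only [norm_sq_sum_ev]
  rw [integral_finsetSum]
  · refine Finset.sum_congr rfl fun x _ => ?_
    rw [integral_finsetSum]
    · refine Finset.sum_congr rfl fun y _ => ?_
      rw [integral_const_mul, integral_ev_re P h]
    · exact fun y _ => (integrable_ev_re P _).const_mul _
  · exact fun x _ => integrable_finsetSum _ fun y _ => (integrable_ev_re P _).const_mul _

end Pool.Agent.Lib.P3852C
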