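import Pool.Agent.Lib.P3852C.RUnif
import Pool.Agent.Lib.P3852C.GF
import Pool.Agent.Lib.P3852C.TrigR

/-!
# §4: `𝒟` is closed (T1)

See §4 of the proof file (steps (a), (b), (c)).
Suppose `c` is in the closure of `𝒟` (e.g. `mem_closure_iff` / filters: for any finite set of points
and any tolerance there is `c' ∈ 𝒟` close to `c` at these points). Positive definiteness, `c 0 = 1`
and radiality pass to the closure. (a) for `c' ∈ 𝒟` with measure `P'` (Bochner), `τ ∈ K`, `τ > 0`:
`∫ Θ_τ dP' ≤ 4 η`, `Θ_τ(ψ) = Θ_{S,k}(ψ(τ ·))` (apply `R_unif` to `c'(τ ·)`, `GoodField.exists_add`,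
`1 - Re zw ≤ 2(1 - Re z) + 2(1 - Re w)`, and the weights of `Wild` on `‖x‖ < τ`). (b) the same for `c`
(`∫ Θ_τ` depends on finitely many values of `c`). (c) if `c` is not wild: `T, ε₀` with
`∑ w w c ≥ ε₀` for all weights on `‖x‖ < T`; `d t = inf` over weights on `‖x‖ < t`, nonincreasing,
in `[ε₀, 1]`; pigeonhole `t < t'` with `d t - d t' ≤ δ'`, `v = ∑ w_x ev x`; etc.

This file: (a).
-/

set_option autoImplicit false

namespace Pool.Agent.Lib.P3852C

open MeasureTheory

lemma one_sub_re_mul (z w : ℂ) (hz : ‖z‖ = 1) (hw : ‖w‖ = 1) :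
    1 - (z * w).re ≤ 2 * (1 - z.re) + 2 * (1 - w.re) := by
  have h1 : z.re ^ 2 + z.im ^ 2 = 1 := by
    have := Complex.sq_norm z
    rw [hz, Complex.normSq_apply] at this
    nlinarith
  have h2 : w.re ^ 2 + w.im ^ 2 = 1 := by
    have := Complex.sq_norm w
    rw [hw, Complex.normSq_apply] at this
    nlinarith
  rw [Complex.mul_re]
  nlinarith [sq_nonneg (z.re + w.re - 2), sq_nonneg (z.im - w.im), sq_nonneg (z.im + w.im),
    sq_nonneg (z.re - w.re)]

/-- the function `Θ_τ` -/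
noncomputable def ThT {F : Subfield ℂ} (S : Finset F) (k : ℕ) (τ : F) (θ : X F) : ℝ :=
  ∏ x ∈ S, ((1 + (ev (τ * x) θ).re) / 2) ^ k

lemma ThT_nonneg {F : Subfield ℂ} (S : Finset F) (k : ℕ) (τ : F) (θ : X F) :
    0 ≤ ThT S k τ θ := by
  refine Finset.prod_nonneg fun x _ => pow_nonneg ?_ _
  have h := Complex.abs_re_le_norm (ev (τ * x) θ)
  rw [norm_ev] at h
  have := (abs_le.1 h).1
  linarith

lemma ThT_le_one {F : Subfield ℂ} (S : Finset F) (k : ℕ) (τ : F) (θ : X F) :
    ThT S k τ θ ≤ 1 := by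
  refine Finset.prod_le_one (fun x _ => pow_nonneg ?_ _) (fun x _ => pow_le_one₀ ?_ ?_)
  all_goals
    have h := Complex.abs_re_le_norm (ev (τ * x) θ)
    rw [norm_ev] at h
    have h1 := (abs_le.1 h).1
    have h2 := (abs_le.1 h).2
    linarith

lemma isTrig_ThT {F : Subfield ℂ} (S : Finset F) (k : ℕ) (τ : F) : IsTrig (ThT S k τ) := by
  unfold ThT
  refine IsTrig.prod S fun x _ => IsTrig.pow ?_ k
  have h := ((IsTrig.const (A := F) 1).add (IsTrig.ev (τ * x))).smul (1 / 2)
  refine h.congr fun θ => ?_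
  ring

/-- (a) -/
theorem theta_small {F : Subfield ℂ} (hF : GoodField F) {η : ℝ} (hη : 0 < η) :
    ∃ (S : Finset F) (k : ℕ), ∀ (P : Measure (X F)) (c : F → ℝ), IsProbabilityMeasure P →
      Rep P c → InD F c → ∀ τ : F, τ ≠ 0 →
        ∫ θ, (∏ x ∈ S, ((1 + (ev (τ * x) θ).re) / 2) ^ k) ∂P ≤ η := by
  obtain ⟨S, k, hSk⟩ := R_unif hF (η := η / 8) (by positivity)
  refine ⟨S, k, fun P c hprob hP hc τ hτ => ?_⟩
  change ∫ θ, ThT S k τ θ ∂P ≤ η
  -- the estimate for the points of norm `‖τ‖`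
  have h1 : ∀ γ : Gam F, ∫ θ, ThT S k τ θ * (1 - (ev (τ * toF γ) θ).re) ∂P ≤ η / 8 := by
    intro γ
    set α : F →+ F := AddMonoidHom.mulLeft τ with hα
    have hm : Measurable (X.pull α) := measurable_pull α
    have : IsProbabilityMeasure (P.map (X.pull α)) :=
      Measure.isProbabilityMeasure_map hm.aemeasurable
    have hrep : Rep (P.map (X.pull α)) (fun x => c (τ * x)) := by
      intro x
      rw [integral_map hm.aemeasurable (measurable_ev x).aestronglyMeasurable]
      simp only [ev_pull]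
      exact hP (α x)
    have hrad : Radial F (fun x => c (τ * x)) := by
      intro x y hxy
      refine hc.rad _ _ ?_
      rw [MulMemClass.coe_mul, MulMemClass.coe_mul, norm_mul, norm_mul, hxy]
    have h := hSk (P.map (X.pull α)) _ inferInstance hrep hrad γ
    rw [integral_map hm.aemeasurable] at h
    · exact h
    · refine Continuous.aestronglyMeasurable ?_
      unfold Theta
      refine Continuous.mul ?_ ?_
      · refine continuous_finsetProd _ fun x _ => ?_
        exact ((continuous_const.add (Complex.continuous_re.comp (continuous_ev x))).div_const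
          _).pow _
      · exact continuous_const.sub (Complex.continuous_re.comp (continuous_ev _))
  have hint : ∀ y : F, Integrable (fun θ => ThT S k τ θ * (1 - (ev y θ).re)) P := fun y =>
    ((isTrig_ThT S k τ).mul ((IsTrig.const 1).sub (IsTrig.ev y))).integrable P
  -- the estimate for all points of norm at most `2 ‖τ‖`
  have h2 : ∀ y : F, ‖(y : ℂ)‖ ≤ 2 * ‖(τ : ℂ)‖ →
      ∫ θ, ThT S k τ θ * (1 - (ev y θ).re) ∂P ≤ η / 2 := by
    intro y hy
    obtain ⟨γ, δ, hyd⟩ := hF.exists_add τ y hτ hy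
    have hle : ∀ θ, ThT S k τ θ * (1 - (ev y θ).re) ≤
        2 * (ThT S k τ θ * (1 - (ev (τ * toF γ) θ).re)) +
          2 * (ThT S k τ θ * (1 - (ev (τ * toF δ) θ).re)) := by
      intro θ
      have e : ev y θ = ev (τ * toF γ) θ * ev (τ * toF δ) θ := by
        rw [hyd, mul_add, ev_add]
      have := mul_le_mul_of_nonneg_left
        (one_sub_re_mul (ev (τ * toF γ) θ) (ev (τ * toF δ) θ) (norm_ev _ _) (norm_ev _ _))
        (ThT_nonneg S k τ θ)
      rw [e]
      linarith
    calc ∫ θ, ThT S k τ θ * (1 - (ev y θ).re) ∂P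
        ≤ ∫ θ, (2 * (ThT S k τ θ * (1 - (ev (τ * toF γ) θ).re)) +
          2 * (ThT S k τ θ * (1 - (ev (τ * toF δ) θ).re))) ∂P :=
          integral_mono (hint y) (((hint _).const_mul _).add ((hint _).const_mul _)) hle
      _ = 2 * ∫ θ, ThT S k τ θ * (1 - (ev (τ * toF γ) θ).re) ∂P +
          2 * ∫ θ, ThT S k τ θ * (1 - (ev (τ * toF δ) θ).re) ∂P := by
          rw [integral_add ((hint _).const_mul _) ((hint _).const_mul _), integral_const_mul,
            integral_const_mul]
      _ ≤ η / 2 := by linarith [h1 γ, h1 δ]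
  -- the weights
  have hT : 0 < 2 * ‖(τ : ℂ)‖ := by
    have : (τ : ℂ) ≠ 0 := by simpa using hτ
    positivity
  obtain ⟨s, w, hs, hw0, hw1, hw⟩ := hc.wild (2 * ‖(τ : ℂ)‖) hT (η ^ 2 / 8) (by positivity)
  set v : X F → ℂ := fun θ => ∑ x ∈ s, (w x : ℂ) * ev x θ with hv
  have hvc : Continuous v := continuous_finsetSum _ fun x _ => continuous_const.mul (continuous_ev x)
  have hv2 : ∫ θ, ‖v θ‖ ^ 2 ∂P < η ^ 2 / 8 := by
    have := integral_norm_sq_sum_ev P hP s w
    rw [this]
    exact hw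
  have hTh := (isTrig_ThT S k τ).integrable P
  have hv1 : ∀ θ, ‖v θ‖ ≤ 1 := by
    intro θ
    calc ‖v θ‖ ≤ ∑ x ∈ s, ‖(w x : ℂ) * ev x θ‖ := norm_sum_le _ _
      _ = ∑ x ∈ s, w x := by
          refine Finset.sum_congr rfl fun x _ => ?_
          rw [norm_mul, norm_ev, mul_one, Complex.norm_real, Real.norm_of_nonneg (hw0 x)]
      _ = 1 := hw1
  have hvint : Integrable (fun θ => ‖v θ‖ ^ 2) P := by
    refine Integrable.of_bound (hvc.norm.pow 2).aestronglyMeasurable 1
      (Filter.Eventually.of_forall fun θ => ?_)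
    rw [Real.norm_of_nonneg (by positivity)]
    exact pow_le_one₀ (norm_nonneg _) (hv1 θ)
  -- pointwise
  have hpt : ∀ θ, ThT S k τ θ ≤
      (∑ x ∈ s, w x * (ThT S k τ θ * (1 - (ev x θ).re))) + (η / 4 + ‖v θ‖ ^ 2 / η) := by
    intro θ
    have e1 : ∑ x ∈ s, w x * (ThT S k τ θ * (1 - (ev x θ).re)) =
        ThT S k τ θ - ThT S k τ θ * (v θ).re := by
      have : (v θ).re = ∑ x ∈ s, w x * (ev x θ).re := by
        rw [hv, Complex.re_sum]
        exact Finset.sum_congr rfl fun x _ => Complex.re_ofReal_mul _ _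
      rw [this, Finset.mul_sum]
      have h0 : ThT S k τ θ = ∑ x ∈ s, w x * ThT S k τ θ := by
        rw [← Finset.sum_mul, hw1, one_mul]
      conv_rhs => rw [h0]
      rw [← Finset.sum_sub_distrib]
      refine Finset.sum_congr rfl fun x _ => ?_
      rw [← Finset.sum_mul, hw1]
      ring
    have e2 : ThT S k τ θ * (v θ).re ≤ ‖v θ‖ := by
      have h3 := Complex.abs_re_le_norm (v θ)
      have h4 := ThT_nonneg S k τ θ
      have h5 := ThT_le_one S k τ θ
      have h6 := (abs_le.1 h3).2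
      have h7 := norm_nonneg (v θ)
      nlinarith
    have e3 : ‖v θ‖ ≤ η / 4 + ‖v θ‖ ^ 2 / η := by
      rw [← sub_nonneg]
      have : η / 4 + ‖v θ‖ ^ 2 / η - ‖v θ‖ = (‖v θ‖ - η / 2) ^ 2 / η := by
        field_simp
        ring
      rw [this]
      positivity
    rw [e1]
    linarith
  have hI1 : Integrable (fun θ => ∑ x ∈ s, w x * (ThT S k τ θ * (1 - (ev x θ).re))) P :=
    integrable_finsetSum _ fun x _ => (hint x).const_mul _
  have hI3 : Integrable (fun θ => ‖v θ‖ ^ 2 / η) P := hvint.div_const _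
  have hI2 : Integrable (fun θ => η / 4 + ‖v θ‖ ^ 2 / η) P := (integrable_const _).add hI3
  calc ∫ θ, ThT S k τ θ ∂P
      ≤ ∫ θ, ((∑ x ∈ s, w x * (ThT S k τ θ * (1 - (ev x θ).re))) +
          (η / 4 + ‖v θ‖ ^ 2 / η)) ∂P := by
        exact integral_mono hTh (hI1.add hI2) hpt
    _ = (∑ x ∈ s, w x * ∫ θ, ThT S k τ θ * (1 - (ev x θ).re) ∂P) +
          (η / 4 + (∫ θ, ‖v θ‖ ^ 2 ∂P) / η) := by
        rw [integral_add hI1 hI2, integral_finsetSum _ fun x _ => (hint x).const_mul _,
          integral_add (integrable_const _) hI3, integral_div η (fun θ => ‖v θ‖ ^ 2)]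
        simp only [integral_const_mul]
        simp
    _ ≤ η / 2 + (η / 4 + (η ^ 2 / 8) / η) := by
        have hA : ∑ x ∈ s, w x * ∫ θ, ThT S k τ θ * (1 - (ev x θ).re) ∂P ≤ η / 2 := by
          calc ∑ x ∈ s, w x * ∫ θ, ThT S k τ θ * (1 - (ev x θ).re) ∂P
              ≤ ∑ x ∈ s, w x * (η / 2) := by
                refine Finset.sum_le_sum fun x hx => ?_
                exact mul_le_mul_of_nonneg_left (h2 x (hs x hx).le) (hw0 x)
            _ = η / 2 := by rw [← Finset.sum_mul, hw1, one_mul]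
        have hB : (∫ θ, ‖v θ‖ ^ 2 ∂P) / η ≤ (η ^ 2 / 8) / η := by
          gcongr
        linarith
    _ ≤ η := by
        have : (η ^ 2 / 8) / η = η / 8 := by field_simp
        rw [this]
        linarith

end Pool.Agent.Lib.P3852C
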