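import Pool.Agent.Lib.P3852C.VDefs

/-!
# 7.1, 7.2: the empirical characters

`kap x = L²-lim (1/n) ∑_{i<n} ev (x δ_i)` (Cauchy: `∫ ev (x δ_i) conj (ev (x δ_j))` is the same for all
`i ≠ j`); bounded by `1` after modification on a null set; invariant under permutations;
`kap x ∘ rotX γ = kap (γ x)`. Replacement: if `Z` is invariant (a.e.) under the permutations fixing the
finite set `J` pointwise and `i ∉ J` then `∫ Z ev (x δ_i) = ∫ Z ev (x δ_j)` for all `j ∉ J`, average.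
-/

set_option autoImplicit false

namespace Pool.Agent.Lib.P3852C

open MeasureTheory Filter Topology

variable {F : Subfield ℂ}

namespace VKapAux

variable {Ω : Type} [MeasurableSpace Ω] {Q : Measure Ω}

/-- measurable and bounded by one -/
structure U1 (f : Ω → ℂ) : Prop where
  m : Measurable f
  b : ∀ θ, ‖f θ‖ ≤ 1

/-- the square of the `L²` distance -/
noncomputable def D (Q : Measure Ω) (f g : Ω → ℂ) : ℝ := ∫ θ, ‖f θ - g θ‖ ^ 2 ∂Q

theorem D_nonneg (f g : Ω → ℂ) : 0 ≤ D Q f g := integral_nonneg fun θ => by positivity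

theorem D_comm (f g : Ω → ℂ) : D Q f g = D Q g f := by
  unfold D
  simp only [norm_sub_rev]

theorem int_of_bdd [IsProbabilityMeasure Q] {f : Ω → ℂ} (hf : Measurable f) (C : ℝ)
    (hb : ∀ θ, ‖f θ‖ ≤ C) : Integrable f Q :=
  Integrable.of_bound hf.aestronglyMeasurable C (Eventually.of_forall hb)

theorem U1.sq_le {f g : Ω → ℂ} (hf : U1 f) (hg : U1 g) (θ : Ω) : ‖f θ - g θ‖ ^ 2 ≤ 4 := by
  have h1 : ‖f θ - g θ‖ ≤ 2 := (norm_sub_le _ _).trans (by linarith [hf.b θ, hg.b θ])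
  nlinarith [norm_nonneg (f θ - g θ)]

theorem U1.int_sq [IsProbabilityMeasure Q] {f g : Ω → ℂ} (hf : U1 f) (hg : U1 g) :
    Integrable (fun θ => ‖f θ - g θ‖ ^ 2) Q := by
  refine Integrable.of_bound ((hf.m.sub hg.m).norm.pow_const 2).aestronglyMeasurable 4
    (Eventually.of_forall fun θ => ?_)
  rw [Real.norm_of_nonneg (by positivity)]
  exact hf.sq_le hg θ

theorem D_tri [IsProbabilityMeasure Q] {f g h : Ω → ℂ} (hf : U1 f) (hg : U1 g) (hh : U1 h) :
    D Q f h ≤ 2 * D Q f g + 2 * D Q g h := by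
  unfold D
  rw [← integral_const_mul, ← integral_const_mul,
    ← integral_add ((hf.int_sq hg).const_mul _) ((hg.int_sq hh).const_mul _)]
  refine integral_mono (hf.int_sq hh)
    (((hf.int_sq hg).const_mul _).add ((hg.int_sq hh).const_mul _)) fun θ => ?_
  dsimp only
  have e1 : ‖f θ - h θ‖ ≤ ‖f θ - g θ‖ + ‖g θ - h θ‖ := by
    rw [show f θ - h θ = (f θ - g θ) + (g θ - h θ) by ring]
    exact norm_add_le _ _
  nlinarith [norm_nonneg (f θ - h θ), sq_nonneg (‖f θ - g θ‖ - ‖g θ - h θ‖),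
    norm_nonneg (f θ - g θ), norm_nonneg (g θ - h θ)]

theorem D_zero [IsProbabilityMeasure Q] {f g : Ω → ℂ} (hf : U1 f) (hg : U1 g)
    (h : D Q f g ≤ 0) : f =ᵐ[Q] g := by
  have h0 : D Q f g = 0 := le_antisymm h (D_nonneg f g)
  unfold D at h0
  have h1 := (integral_eq_zero_iff_of_nonneg (fun θ => by positivity) (hf.int_sq hg)).1 h0
  filter_upwards [h1] with θ hθ
  have h2 : ‖f θ - g θ‖ ^ 2 = 0 := hθ
  exact sub_eq_zero.1 (norm_eq_zero.1 (pow_eq_zero_iff two_ne_zero |>.1 h2))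

theorem D_comp {f g : Ω → ℂ} (hf : U1 f) (hg : U1 g) {T : Ω → Ω} (hT : MeasurePreserving T Q Q) :
    D Q (fun θ => f (T θ)) (fun θ => g (T θ)) = D Q f g := by
  unfold D
  conv_rhs => rw [← hT.map_eq]
  exact (integral_map hT.measurable.aemeasurable
    ((hf.m.sub hg.m).norm.pow_const 2).aestronglyMeasurable).symm

theorem U1.comp {f : Ω → ℂ} (hf : U1 f) {T : Ω → Ω} (hT : Measurable T) :
    U1 (fun θ => f (T θ)) := ⟨hf.m.comp hT, fun θ => hf.b _⟩

/-- `|∫ Z f - ∫ Z g|² ≤ C² ∫ |f - g|²` -/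
theorem int_sub_le [IsProbabilityMeasure Q] {f g : Ω → ℂ} (hf : U1 f) (hg : U1 g) {Z : Ω → ℂ}
    (hZ : Measurable Z) {C : ℝ} (hC : ∀ θ, ‖Z θ‖ ≤ C) (hC0 : 0 ≤ C) :
    ‖∫ θ, Z θ * f θ ∂Q - ∫ θ, Z θ * g θ ∂Q‖ ^ 2 ≤ C ^ 2 * D Q f g := by
  have hZb : ∀ {f : Ω → ℂ}, U1 f → Integrable (fun θ => Z θ * f θ) Q := by
    intro f hf
    refine int_of_bdd (hZ.mul hf.m) C fun θ => ?_
    rw [norm_mul]
    calc ‖Z θ‖ * ‖f θ‖ ≤ C * 1 := mul_le_mul (hC θ) (hf.b θ) (norm_nonneg _) hC0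
      _ = C := mul_one C
  have hn : Measurable (fun θ => ‖f θ - g θ‖) := (hf.m.sub hg.m).norm
  have hi1 : Integrable (fun θ => ‖f θ - g θ‖) Q := by
    refine Integrable.of_bound hn.aestronglyMeasurable 2 (Eventually.of_forall fun θ => ?_)
    rw [norm_norm]
    exact (norm_sub_le _ _).trans (by linarith [hf.b θ, hg.b θ])
  set m : ℝ := ∫ θ, ‖f θ - g θ‖ ∂Q with hm
  have hm0 : 0 ≤ m := integral_nonneg fun θ => norm_nonneg _
  have h1 : ‖∫ θ, Z θ * f θ ∂Q - ∫ θ, Z θ * g θ ∂Q‖ ≤ C * m := by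
    rw [← integral_sub (hZb hf) (hZb hg), hm, ← integral_const_mul]
    refine norm_integral_le_of_norm_le (hi1.const_mul C) (Eventually.of_forall fun θ => ?_)
    rw [← mul_sub, norm_mul]
    exact mul_le_mul_of_nonneg_right (hC θ) (norm_nonneg _)
  have h4 : m ^ 2 ≤ D Q f g := by
    have hi2 := hf.int_sq (Q := Q) hg
    have h5 : 0 ≤ ∫ θ, (‖f θ - g θ‖ - m) ^ 2 ∂Q := integral_nonneg fun θ => sq_nonneg _
    have h6 : ∀ θ, (‖f θ - g θ‖ - m) ^ 2 =
        (‖f θ - g θ‖ ^ 2 - 2 * m * ‖f θ - g θ‖) + m ^ 2 := fun θ => by ring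
    have j1 : Integrable (fun θ => ‖f θ - g θ‖ ^ 2 - 2 * m * ‖f θ - g θ‖) Q :=
      hi2.sub (hi1.const_mul _)
    rw [integral_congr_ae (Eventually.of_forall h6), integral_add j1 (integrable_const _),
      integral_sub hi2 (hi1.const_mul _), integral_const_mul, ← hm, integral_const] at h5
    simp only [probReal_univ, one_smul] at h5
    unfold D
    nlinarith
  calc ‖∫ θ, Z θ * f θ ∂Q - ∫ θ, Z θ * g θ ∂Q‖ ^ 2 ≤ (C * m) ^ 2 :=
        pow_le_pow_left₀ (norm_nonneg _) h1 2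
    _ = C ^ 2 * m ^ 2 := by ring
    _ ≤ C ^ 2 * D Q f g := mul_le_mul_of_nonneg_left h4 (by positivity)

/-- projection on the unit disc -/
noncomputable def pr (z : ℂ) : ℂ := ((max 1 ‖z‖ : ℝ) : ℂ)⁻¹ * z

theorem pr_norm (z : ℂ) : ‖pr z‖ ≤ 1 := by
  unfold pr
  have h : 0 < max 1 ‖z‖ := lt_of_lt_of_le one_pos (le_max_left _ _)
  rw [norm_mul, norm_inv, Complex.norm_real, Real.norm_of_nonneg h.le, inv_mul_le_iff₀ h, mul_one]
  exact le_max_right _ _

theorem pr_meas : Measurable pr := by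
  unfold pr
  have h : Measurable (fun z : ℂ => ((max 1 ‖z‖ : ℝ) : ℂ)) :=
    Complex.measurable_ofReal.comp (measurable_const.max measurable_norm)
  exact h.inv.mul measurable_id

theorem pr_lip {a z : ℂ} (ha : ‖a‖ ≤ 1) : ‖a - pr z‖ ^ 2 ≤ ‖a - z‖ ^ 2 := by
  rcases le_or_gt ‖z‖ 1 with hz | hz
  · have : pr z = z := by
      unfold pr
      rw [max_eq_left hz]
      simp
    rw [this]
  · have h0 : 0 < ‖z‖ := by linarith
    have hne : (‖z‖ : ℂ) ≠ 0 := by exact_mod_cast h0.ne'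
    set u : ℂ := pr z with hu
    have hzu : z = (‖z‖ : ℂ) * u := by
      rw [hu]
      unfold pr
      rw [max_eq_right hz.le, mul_inv_cancel_left₀ hne]
    have hun : ‖u‖ = 1 := by
      have := congrArg norm hzu
      rw [norm_mul, Complex.norm_real, norm_norm] at this
      have h2 : ‖z‖ * ‖u‖ = ‖z‖ * 1 := by rw [← this, mul_one]
      exact mul_left_cancel₀ h0.ne' h2
    set t : ℝ := ‖z‖ with ht
    rw [hzu]
    have key : ∀ s : ℝ, ‖a - (s : ℂ) * u‖ ^ 2 = ‖a‖ ^ 2 - 2 * s * (a * (starRingEnd ℂ) u).re + s ^ 2 := by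
      intro s
      rw [← Complex.normSq_eq_norm_sq, Complex.normSq_sub, map_mul (starRingEnd ℂ),
        Complex.conj_ofReal, Complex.normSq_mul, Complex.normSq_ofReal,
        Complex.normSq_eq_norm_sq a, Complex.normSq_eq_norm_sq u, hun]
      have : (a * ((s : ℂ) * (starRingEnd ℂ) u)).re = s * (a * (starRingEnd ℂ) u).re := by
        rw [show a * ((s : ℂ) * (starRingEnd ℂ) u) = (s : ℂ) * (a * (starRingEnd ℂ) u) by ring,
          Complex.re_ofReal_mul]
      rw [this]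
      ring
    have h1 : ‖a - u‖ ^ 2 = ‖a‖ ^ 2 - 2 * 1 * (a * (starRingEnd ℂ) u).re + 1 ^ 2 := by
      have := key 1
      rwa [Complex.ofReal_one, one_mul] at this
    rw [h1, key t]
    have h2 : (a * (starRingEnd ℂ) u).re ≤ 1 := by
      refine (Complex.re_le_norm _).trans ?_
      rw [norm_mul, RCLike.norm_conj, hun, mul_one]
      exact ha
    nlinarith

/-- norm of an element of `L²` -/
theorem l2norm [IsProbabilityMeasure Q] (f : Lp ℂ 2 Q) : ‖f‖ ^ 2 = ∫ θ, ‖f θ‖ ^ 2 ∂Q := by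
  have h := inner_self_eq_norm_sq (𝕜 := ℂ) f
  rw [← h, L2.inner_def]
  have h2 : ∀ θ, inner ℂ (f θ) (f θ) = ((‖f θ‖ ^ 2 : ℝ) : ℂ) := by
    intro θ
    rw [inner_self_eq_norm_sq_to_K]
    push_cast
    rfl
  rw [integral_congr_ae (Eventually.of_forall h2), integral_complex_ofReal]
  rfl

theorem exists_lim [IsProbabilityMeasure Q] (A : ℕ → Ω → ℂ) (hA : ∀ n, U1 (A n))
    (hC : ∀ n m, n ≤ m → D Q (A n) (A m) ≤ 4 / ((n : ℝ) + 1)) :
    ∃ K : Ω → ℂ, U1 K ∧ Tendsto (fun n => D Q (A n) K) atTop (𝓝 0) := by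
  have hL : ∀ n, MemLp (A n) 2 Q := fun n =>
    MemLp.of_bound (hA n).m.aestronglyMeasurable 1 (Eventually.of_forall (hA n).b)
  set f : ℕ → Lp ℂ 2 Q := fun n => (hL n).toLp (A n) with hf
  have hdist : ∀ n m, ‖f n - f m‖ ^ 2 = D Q (A n) (A m) := by
    intro n m
    rw [l2norm]
    refine integral_congr_ae ?_
    filter_upwards [Lp.coeFn_sub (f n) (f m), (hL n).coeFn_toLp, (hL m).coeFn_toLp] with θ h1 h2 h3
    rw [h1, Pi.sub_apply, h2, h3]
  have hb : Tendsto (fun N : ℕ => √(4 * (1 / ((N : ℝ) + 1)))) atTop (𝓝 0) := by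
    have h1 : Tendsto (fun N : ℕ => 4 * (1 / ((N : ℝ) + 1))) atTop (𝓝 (4 * 0)) :=
      (tendsto_one_div_add_atTop_nhds_zero_nat (𝕜 := ℝ)).const_mul 4
    rw [mul_zero] at h1
    have h2 := (Real.continuous_sqrt.tendsto 0).comp h1
    rwa [Real.sqrt_zero] at h2
  have hcau : CauchySeq f := by
    refine cauchySeq_of_le_tendsto_0 (fun N : ℕ => √(4 * (1 / ((N : ℝ) + 1)))) ?_ hb
    have hle : ∀ n m N : ℕ, N ≤ n → n ≤ m → dist (f n) (f m) ≤ √(4 * (1 / ((N : ℝ) + 1))) := by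
      intro n m N hN hnm
      rw [dist_eq_norm]
      refine Real.le_sqrt_of_sq_le ?_
      rw [hdist]
      refine (hC n m hnm).trans ?_
      rw [mul_one_div]
      have : (N : ℝ) ≤ n := by exact_mod_cast hN
      exact div_le_div_of_nonneg_left (by norm_num) (by positivity) (by linarith)
    intro n m N hn hm
    rcases le_total n m with h | h
    · exact hle n m N hn h
    · rw [dist_comm]
      exact hle m n N hm h
  obtain ⟨g, hg⟩ := cauchySeq_tendsto_of_complete hcau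
  have hgm : Measurable (g : Ω → ℂ) := (Lp.stronglyMeasurable g).measurable
  refine ⟨fun θ => pr (g θ), ⟨pr_meas.comp hgm, fun θ => pr_norm _⟩, ?_⟩
  have hg2 : Tendsto (fun n => ‖f n - g‖ ^ 2) atTop (𝓝 0) := by
    have h1 := (tendsto_iff_norm_sub_tendsto_zero.1 hg).pow 2
    simpa using h1
  refine squeeze_zero (fun n => D_nonneg _ _) (fun n => ?_) hg2
  have hK : U1 (fun θ => pr (g θ)) := ⟨pr_meas.comp hgm, fun θ => pr_norm _⟩
  rw [l2norm]
  have e1 : ∫ θ, ‖(f n - g : Lp ℂ 2 Q) θ‖ ^ 2 ∂Q = ∫ θ, ‖A n θ - g θ‖ ^ 2 ∂Q := by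
    refine integral_congr_ae ?_
    filter_upwards [Lp.coeFn_sub (f n) g, (hL n).coeFn_toLp] with θ h1 h2
    rw [h1, Pi.sub_apply, h2]
  rw [e1]
  have hi : Integrable (fun θ => ‖A n θ - g θ‖ ^ 2) Q := by
    have h1 : MemLp (fun θ => A n θ - g θ) 2 Q := (hL n).sub (Lp.memLp g)
    exact h1.integrable_norm_pow two_ne_zero
  exact integral_mono ((hA n).int_sq hK) hi fun θ => pr_lip ((hA n).b θ)

end VKapAux

namespace VKapAux

variable {Φ : (ℕ →₀ F) → ℝ} {Q : Measure (X (ℕ →₀ F))}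

/-- averages of characters -/
noncomputable def S (a : ℕ → ℕ) (x : F) (n : ℕ) (θ : X (ℕ →₀ F)) : ℂ :=
  ((n : ℂ))⁻¹ * ∑ i ∈ Finset.range n, ev (Finsupp.single (a i) x : ℕ →₀ F) θ

theorem S_U1 (a : ℕ → ℕ) (x : F) (n : ℕ) : U1 (S a x n) := by
  refine ⟨(Finset.measurable_sum _ fun i _ => measurable_ev _).const_mul _, fun θ => ?_⟩
  unfold S
  rw [norm_mul, norm_inv, Complex.norm_natCast]
  have h1 : ‖∑ i ∈ Finset.range n, ev (Finsupp.single (a i) x : ℕ →₀ F) θ‖ ≤ n := by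
    refine (norm_sum_le _ _).trans (le_of_eq ?_)
    simp
  rcases Nat.eq_zero_or_pos n with hn | hn
  · rw [hn]
    simp
  · have h2 : (0 : ℝ) < n := by exact_mod_cast hn
    rw [inv_mul_le_iff₀ h2, mul_one]
    exact h1

theorem exists_tau {i j : ℕ} (hij : i ≠ j) : ∃ τ : Equiv.Perm ℕ, τ 0 = i ∧ τ 1 = j := by
  refine ⟨Equiv.swap 0 i * Equiv.swap 1 (Equiv.swap 0 i j), ?_, ?_⟩
  · have h1 : Equiv.swap 1 (Equiv.swap 0 i j) 0 = 0 := by
      refine Equiv.swap_apply_of_ne_of_ne (by norm_num) ?_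
      intro h
      apply hij
      have h2 := congrArg (Equiv.swap 0 i) h
      rwa [Equiv.swap_apply_self, Equiv.swap_apply_left] at h2
    rw [Equiv.Perm.mul_apply, h1, Equiv.swap_apply_left]
  · rw [Equiv.Perm.mul_apply, Equiv.swap_apply_left, Equiv.swap_apply_self]

theorem Phi_ne (h : InE F Φ) (x : F) {p q : ℕ} (hpq : p ≠ q) :
    Φ (Finsupp.single p x - Finsupp.single q x) = gam Φ x := by
  obtain ⟨τ, h0, h1⟩ := exists_tau hpq
  have h2 := h.exch τ (Finsupp.single 0 x - Finsupp.single 1 x)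
  have h3 := (Finsupp.mapDomain.addMonoidHom (M := F) τ).map_sub
      (Finsupp.single 0 x) (Finsupp.single 1 x)
  simp only [Finsupp.mapDomain.addMonoidHom_apply] at h3
  rw [h3, Finsupp.mapDomain_single, Finsupp.mapDomain_single, h0, h1] at h2
  exact h2

theorem Phi_eq (h : InE F Φ) (x : F) (p : ℕ) :
    Φ (Finsupp.single p x - Finsupp.single p x) = 1 := by
  rw [sub_self, h.one]

theorem gam_abs [IsProbabilityMeasure Q] (hQ : Rep Q Φ) (x : F) : |gam Φ x| ≤ 1 := by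
  have h1 := hQ (Finsupp.single 0 x - Finsupp.single 1 x)
  have h2 : ‖((gam Φ x : ℝ) : ℂ)‖ ≤ 1 := by
    unfold gam
    rw [← h1]
    refine (norm_integral_le_integral_norm _).trans (le_of_eq ?_)
    simp
  rwa [Complex.norm_real, Real.norm_eq_abs] at h2

theorem cross [IsProbabilityMeasure Q] (hQ : Rep Q Φ) (a b : ℕ → ℕ) (x : F) (n m : ℕ) :
    ∫ θ, (S a x n θ * (starRingEnd ℂ) (S b x m θ)).re ∂Q = (n : ℝ)⁻¹ * (m : ℝ)⁻¹ *
      ∑ i ∈ Finset.range n, ∑ j ∈ Finset.range m,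
        Φ (Finsupp.single (a i) x - Finsupp.single (b j) x) := by
  have key : ∀ θ, S a x n θ * (starRingEnd ℂ) (S b x m θ) = (n : ℂ)⁻¹ * (m : ℂ)⁻¹ *
      ∑ i ∈ Finset.range n, ∑ j ∈ Finset.range m,
        ev (Finsupp.single (a i) x - Finsupp.single (b j) x : ℕ →₀ F) θ := by
    intro θ
    have e1 : ∑ i ∈ Finset.range n, ∑ j ∈ Finset.range m,
        ev (Finsupp.single (a i) x - Finsupp.single (b j) x : ℕ →₀ F) θ =
        (∑ i ∈ Finset.range n, ev (Finsupp.single (a i) x : ℕ →₀ F) θ) *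
        (starRingEnd ℂ) (∑ j ∈ Finset.range m, ev (Finsupp.single (b j) x : ℕ →₀ F) θ) := by
      rw [map_sum, Finset.sum_mul_sum]
      refine Finset.sum_congr rfl fun i _ => Finset.sum_congr rfl fun j _ => ?_
      rw [ev_sub]
    rw [e1]
    unfold S
    rw [map_mul, map_inv₀, Complex.conj_natCast]
    ring
  have hi : ∀ z : ℕ →₀ F, Integrable (ev z : X (ℕ →₀ F) → ℂ) Q := fun z =>
    int_of_bdd (measurable_ev z) 1 (fun θ => by rw [norm_ev])
  have hint : Integrable (fun θ => S a x n θ * (starRingEnd ℂ) (S b x m θ)) Q := by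
    refine int_of_bdd ((S_U1 a x n).m.mul (Complex.continuous_conj.measurable.comp (S_U1 b x m).m))
      1 fun θ => ?_
    rw [norm_mul, RCLike.norm_conj]
    nlinarith [(S_U1 a x n).b θ, (S_U1 b x m).b θ, norm_nonneg (S a x n θ),
      norm_nonneg (S b x m θ)]
  have h1 : ∫ θ, (S a x n θ * (starRingEnd ℂ) (S b x m θ)).re ∂Q =
      (∫ θ, S a x n θ * (starRingEnd ℂ) (S b x m θ) ∂Q).re := integral_re hint
  rw [h1, integral_congr_ae (Eventually.of_forall key), integral_const_mul,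
    integral_finsetSum _ fun i _ => integrable_finsetSum _ fun j _ => hi _]
  have h2 : ∑ i ∈ Finset.range n, ∫ θ, ∑ j ∈ Finset.range m,
      ev (Finsupp.single (a i) x - Finsupp.single (b j) x : ℕ →₀ F) θ ∂Q =
      ((∑ i ∈ Finset.range n, ∑ j ∈ Finset.range m,
        Φ (Finsupp.single (a i) x - Finsupp.single (b j) x) : ℝ) : ℂ) := by
    push_cast
    refine Finset.sum_congr rfl fun i _ => ?_
    rw [integral_finsetSum _ fun j _ => hi _]
    exact Finset.sum_congr rfl fun j _ => hQ _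
  rw [h2]
  have h3 : (n : ℂ)⁻¹ * (m : ℂ)⁻¹ = (((n : ℝ)⁻¹ * (m : ℝ)⁻¹ : ℝ) : ℂ) := by push_cast; rfl
  rw [h3, ← Complex.ofReal_mul, Complex.ofReal_re]

theorem cross_ge (h : InE F Φ) [IsProbabilityMeasure Q] (hQ : Rep Q Φ) (a b : ℕ → ℕ) (x : F)
    {n m : ℕ} (hn : 0 < n) (hm : 0 < m) :
    gam Φ x ≤ ∫ θ, (S a x n θ * (starRingEnd ℂ) (S b x m θ)).re ∂Q := by
  have hn0 : (0 : ℝ) < n := by exact_mod_cast hn
  have hm0 : (0 : ℝ) < m := by exact_mod_cast hm
  rw [cross hQ]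
  have h1 : ∑ _i ∈ Finset.range n, ∑ _j ∈ Finset.range m, gam Φ x ≤
      ∑ i ∈ Finset.range n, ∑ j ∈ Finset.range m,
        Φ (Finsupp.single (a i) x - Finsupp.single (b j) x) := by
    refine Finset.sum_le_sum fun i _ => Finset.sum_le_sum fun j _ => ?_
    by_cases hij : a i = b j
    · rw [hij, Phi_eq h]
      exact (abs_le.1 (gam_abs hQ x)).2
    · rw [Phi_ne h x hij]
  simp only [Finset.sum_const, Finset.card_range, nsmul_eq_mul] at h1
  calc gam Φ x = (n : ℝ)⁻¹ * (m : ℝ)⁻¹ * (n * (m * gam Φ x)) := by field_simp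
    _ ≤ _ := mul_le_mul_of_nonneg_left h1 (by positivity)

theorem self_le (h : InE F Φ) [IsProbabilityMeasure Q] (hQ : Rep Q Φ) {a : ℕ → ℕ}
    (ha : Function.Injective a) (x : F) {n : ℕ} (hn : 0 < n) :
    ∫ θ, ‖S a x n θ‖ ^ 2 ∂Q ≤ gam Φ x + 2 / n := by
  have hn0 : (0 : ℝ) < n := by exact_mod_cast hn
  have h0 : ∀ θ, ‖S a x n θ‖ ^ 2 = (S a x n θ * (starRingEnd ℂ) (S a x n θ)).re := by
    intro θ
    rw [Complex.mul_conj, Complex.ofReal_re, Complex.normSq_eq_norm_sq]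
  rw [integral_congr_ae (Eventually.of_forall h0), cross hQ]
  have hg := abs_le.1 (gam_abs hQ x)
  have h1 : ∑ i ∈ Finset.range n, ∑ j ∈ Finset.range n,
        Φ (Finsupp.single (a i) x - Finsupp.single (a j) x) ≤
      ∑ _i ∈ Finset.range n, (n * gam Φ x + 2) := by
    refine Finset.sum_le_sum fun i hi => ?_
    rw [← Finset.add_sum_erase _ _ hi, Phi_eq h, Finset.sum_congr rfl fun j hj =>
      Phi_ne h x (fun hc => (Finset.ne_of_mem_erase hj) (ha hc).symm), Finset.sum_const,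
      Finset.card_erase_of_mem hi, Finset.card_range, nsmul_eq_mul, Nat.cast_sub hn, Nat.cast_one]
    linarith [hg.1]
  rw [Finset.sum_const, Finset.card_range, nsmul_eq_mul] at h1
  calc (n : ℝ)⁻¹ * (n : ℝ)⁻¹ * _ ≤ (n : ℝ)⁻¹ * (n : ℝ)⁻¹ * (n * (n * gam Φ x + 2)) :=
        mul_le_mul_of_nonneg_left h1 (by positivity)
    _ = gam Φ x + 2 / n := by field_simp

theorem D_S (h : InE F Φ) [IsProbabilityMeasure Q] (hQ : Rep Q Φ) {a b : ℕ → ℕ}
    (ha : Function.Injective a) (hb : Function.Injective b) (x : F) {n m : ℕ} (hn : 0 < n)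
    (hm : 0 < m) : D Q (S a x n) (S b x m) ≤ 2 / n + 2 / m := by
  have hU := S_U1 (F := F) a x n
  have hV := S_U1 (F := F) b x m
  have e1 : ∀ θ, ‖S a x n θ - S b x m θ‖ ^ 2 = (‖S a x n θ‖ ^ 2 + ‖S b x m θ‖ ^ 2) -
      2 * (S a x n θ * (starRingEnd ℂ) (S b x m θ)).re := by
    intro θ
    rw [← Complex.normSq_eq_norm_sq, Complex.normSq_sub, Complex.normSq_eq_norm_sq,
      Complex.normSq_eq_norm_sq]
  have i1 : ∀ {f : X (ℕ →₀ F) → ℂ}, U1 f → Integrable (fun θ => ‖f θ‖ ^ 2) Q := by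
    intro f hf
    refine Integrable.of_bound (hf.m.norm.pow_const 2).aestronglyMeasurable 1
      (Eventually.of_forall fun θ => ?_)
    rw [Real.norm_of_nonneg (by positivity)]
    nlinarith [hf.b θ, norm_nonneg (f θ)]
  have i2 : Integrable (fun θ => (S a x n θ * (starRingEnd ℂ) (S b x m θ)).re) Q := by
    have : Integrable (fun θ => S a x n θ * (starRingEnd ℂ) (S b x m θ)) Q := by
      refine int_of_bdd (hU.m.mul (Complex.continuous_conj.measurable.comp hV.m)) 1 fun θ => ?_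
      rw [norm_mul, RCLike.norm_conj]
      nlinarith [hU.b θ, hV.b θ, norm_nonneg (S a x n θ), norm_nonneg (S b x m θ)]
    exact this.re
  have i3 : Integrable (fun θ => ‖S a x n θ‖ ^ 2 + ‖S b x m θ‖ ^ 2) Q := (i1 hU).add (i1 hV)
  unfold D
  rw [integral_congr_ae (Eventually.of_forall e1), integral_sub i3 (i2.const_mul 2),
    integral_add (i1 hU) (i1 hV), integral_const_mul]
  have h1 := self_le h hQ ha x hn
  have h2 := self_le h hQ hb x hm
  have h3 := cross_ge h hQ a b x hn hm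
  linarith

end VKapAux

open VKapAux

theorem exists_kap (hF : GoodField F) {Φ : (ℕ →₀ F) → ℝ} (h : InE F Φ)
    (Q : Measure (X (ℕ →₀ F))) [IsProbabilityMeasure Q] (hQ : Rep Q Φ) :
    ∃ kap : F → X (ℕ →₀ F) → ℂ, Kap F Q kap := by
  have hex : ∀ x : F, ∃ K : X (ℕ →₀ F) → ℂ, VKapAux.U1 K ∧
      Tendsto (fun n => VKapAux.D Q (VKapAux.S id x (n + 1)) K) atTop (𝓝 0) := by
    intro x
    refine VKapAux.exists_lim (fun n => VKapAux.S id x (n + 1)) (fun n => VKapAux.S_U1 _ _ _) ?_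
    intro n m hnm
    refine (VKapAux.D_S h hQ Function.injective_id Function.injective_id x (Nat.succ_pos n)
      (Nat.succ_pos m)).trans ?_
    have h1 : (n : ℝ) ≤ m := by exact_mod_cast hnm
    push_cast
    have h2 : 2 / ((m : ℝ) + 1) ≤ 2 / ((n : ℝ) + 1) :=
      div_le_div_of_nonneg_left (by norm_num) (by positivity) (by linarith)
    calc 2 / ((n : ℝ) + 1) + 2 / ((m : ℝ) + 1) ≤ 2 / ((n : ℝ) + 1) + 2 / ((n : ℝ) + 1) := by
          linarith
      _ = 4 / ((n : ℝ) + 1) := by ring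
  choose kap hU hlim using hex
  have hSU : ∀ (a : ℕ → ℕ) (x : F) (n : ℕ), VKapAux.U1 (VKapAux.S a x n) := VKapAux.S_U1
  -- convergence along any injective sequence
  have hconv : ∀ (a : ℕ → ℕ), Function.Injective a → ∀ x : F,
      Tendsto (fun n => VKapAux.D Q (VKapAux.S a x (n + 1)) (kap x)) atTop (𝓝 0) := by
    intro a ha x
    have h1 : Tendsto (fun n : ℕ => 2 * (4 * (1 / ((n : ℝ) + 1))) +
        2 * VKapAux.D Q (VKapAux.S id x (n + 1)) (kap x)) atTop (𝓝 (2 * (4 * 0) + 2 * 0)) :=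
      (((tendsto_one_div_add_atTop_nhds_zero_nat (𝕜 := ℝ)).const_mul 4).const_mul 2).add
        ((hlim x).const_mul 2)
    rw [mul_zero, mul_zero, add_zero] at h1
    refine squeeze_zero (fun n => VKapAux.D_nonneg _ _) (fun n => ?_) h1
    refine (VKapAux.D_tri (hSU a x (n + 1)) (hSU id x (n + 1)) (hU x)).trans ?_
    have h2 := VKapAux.D_S h hQ ha Function.injective_id x (Nat.succ_pos n) (Nat.succ_pos n)
    push_cast at h2
    have h3 : 2 / ((n : ℝ) + 1) + 2 / ((n : ℝ) + 1) = 4 * (1 / ((n : ℝ) + 1)) := by ring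
    rw [h3] at h2
    linarith
  refine ⟨kap, ⟨fun x => (hU x).m, fun x => (hU x).b, ?_, ?_, ?_⟩⟩
  · -- permutations
    intro x π _
    have hmp := h.perm_mp hF Q hQ π
    have hKπ := (hU x).comp hmp.measurable
    refine VKapAux.D_zero hKπ (hU x) ?_
    have h1 : Tendsto (fun n : ℕ => 2 * VKapAux.D Q (VKapAux.S id x (n + 1)) (kap x) +
        2 * VKapAux.D Q (VKapAux.S π x (n + 1)) (kap x)) atTop (𝓝 (2 * 0 + 2 * 0)) :=
      ((hlim x).const_mul 2).add ((hconv π π.injective x).const_mul 2)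
    rw [mul_zero, add_zero] at h1
    refine ge_of_tendsto' h1 fun n => ?_
    have e1 : (fun θ => VKapAux.S id x (n + 1) (permX π θ)) = VKapAux.S π x (n + 1) := by
      funext θ
      unfold VKapAux.S
      congr 1
      refine Finset.sum_congr rfl fun i _ => ?_
      rw [ev_permX, Finsupp.mapDomain_single]
      rfl
    have h2 := VKapAux.D_tri (Q := Q) hKπ (hSU π x (n + 1)) (hU x)
    have h3 : VKapAux.D Q (fun θ => kap x (permX π θ)) (VKapAux.S π x (n + 1)) =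
        VKapAux.D Q (VKapAux.S id x (n + 1)) (kap x) := by
      rw [← e1, VKapAux.D_comp (hU x) (hSU id x (n + 1)) hmp, VKapAux.D_comm]
    rw [h3] at h2
    exact h2
  · -- rotations
    intro x γ
    have hmp := h.rot_mp hF Q hQ γ
    have hKγ := (hU x).comp hmp.measurable
    refine VKapAux.D_zero hKγ (hU _) ?_
    have h1 : Tendsto (fun n : ℕ => 2 * VKapAux.D Q (VKapAux.S id x (n + 1)) (kap x) +
        2 * VKapAux.D Q (VKapAux.S id (toF γ * x) (n + 1)) (kap (toF γ * x))) atTop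
        (𝓝 (2 * 0 + 2 * 0)) :=
      ((hlim x).const_mul 2).add ((hlim _).const_mul 2)
    rw [mul_zero, add_zero] at h1
    refine ge_of_tendsto' h1 fun n => ?_
    have e1 : (fun θ => VKapAux.S id x (n + 1) (rotX γ θ)) =
        VKapAux.S id (toF γ * x) (n + 1) := by
      funext θ
      unfold VKapAux.S
      congr 1
      refine Finset.sum_congr rfl fun i _ => ?_
      rw [ev_rotX, Finsupp.smul_single, smul_eq_mul]
    have h2 := VKapAux.D_tri (Q := Q) hKγ (hSU id (toF γ * x) (n + 1)) (hU (toF γ * x))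
    have h3 : VKapAux.D Q (fun θ => kap x (rotX γ θ)) (VKapAux.S id (toF γ * x) (n + 1)) =
        VKapAux.D Q (VKapAux.S id x (n + 1)) (kap x) := by
      rw [← e1, VKapAux.D_comp (hU x) (hSU id x (n + 1)) hmp, VKapAux.D_comm]
    rw [h3] at h2
    exact h2
  · -- replacement
    intro J Z hZ hb hfix i hi x
    obtain ⟨C, hC⟩ := hb
    obtain ⟨a, ha, haJ⟩ : ∃ a : ℕ → ℕ, Function.Injective a ∧ ∀ j, a j ∉ J := by
      refine ⟨fun j => j + (J.sup id + 1), fun p q hpq => by simpa using hpq, fun j hj => ?_⟩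
      have := Finset.le_sup (f := id) hj
      simp only [id] at this
      omega
    have hC0 : 0 ≤ C := (norm_nonneg _).trans (hC (⟨fun _ => 1, fun _ _ => by simp⟩ : X (ℕ →₀ F)))
    have hZi : ∀ z : ℕ →₀ F, Integrable (fun θ => Z θ * ev z θ) Q := fun z =>
      VKapAux.int_of_bdd (hZ.mul (measurable_ev z)) C fun θ => by
        rw [norm_mul, norm_ev, mul_one]
        exact hC θ
    have h1 : ∀ j, ∫ θ, Z θ * ev (Finsupp.single (a j) x : ℕ →₀ F) θ ∂Q =
        ∫ θ, Z θ * ev (Finsupp.single i x : ℕ →₀ F) θ ∂Q := by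
      intro j
      have hmp := h.perm_mp hF Q hQ (Equiv.swap i (a j))
      have hfx := hfix (Equiv.swap i (a j)) fun l hl => Equiv.swap_apply_of_ne_of_ne
        (fun hc => hi (hc ▸ hl)) (fun hc => haJ j (hc ▸ hl))
      have e2 : ∫ θ, Z θ * ev (Finsupp.single i x : ℕ →₀ F) θ ∂Q =
          ∫ θ, Z (permX (Equiv.swap i (a j)) θ) *
            ev (Finsupp.single i x : ℕ →₀ F) (permX (Equiv.swap i (a j)) θ) ∂Q := by
        conv_lhs => rw [← hmp.map_eq]
        exact integral_map hmp.measurable.aemeasurable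
          (hZ.mul (measurable_ev _)).aestronglyMeasurable
      rw [e2]
      refine (integral_congr_ae ?_).symm
      filter_upwards [hfx] with θ hθ
      rw [hθ, ev_permX, Finsupp.mapDomain_single, Equiv.swap_apply_left]
    have h2 : ∀ n : ℕ, ∫ θ, Z θ * VKapAux.S a x (n + 1) θ ∂Q =
        ∫ θ, Z θ * ev (Finsupp.single i x : ℕ →₀ F) θ ∂Q := by
      intro n
      have e3 : ∀ θ, Z θ * VKapAux.S a x (n + 1) θ = (((n + 1 : ℕ) : ℂ))⁻¹ *
          ∑ j ∈ Finset.range (n + 1), Z θ * ev (Finsupp.single (a j) x : ℕ →₀ F) θ := by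
        intro θ
        unfold VKapAux.S
        rw [← Finset.mul_sum]
        ring
      rw [integral_congr_ae (Eventually.of_forall e3), integral_const_mul,
        integral_finsetSum _ fun j _ => hZi _, Finset.sum_congr rfl fun j _ => h1 j,
        Finset.sum_const, Finset.card_range, nsmul_eq_mul, inv_mul_cancel_left₀]
      exact_mod_cast Nat.succ_ne_zero n
    have h3 : Tendsto (fun n : ℕ => C ^ 2 * VKapAux.D Q (VKapAux.S a x (n + 1)) (kap x)) atTop
        (𝓝 (C ^ 2 * 0)) := (hconv a ha x).const_mul _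
    rw [mul_zero] at h3
    have h4 : ‖∫ θ, Z θ * ev (Finsupp.single i x : ℕ →₀ F) θ ∂Q - ∫ θ, Z θ * kap x θ ∂Q‖ ^ 2 ≤ 0 := by
      refine ge_of_tendsto' h3 fun n => ?_
      rw [← h2 n]
      exact VKapAux.int_sub_le (hSU a x (n + 1)) (hU x) hZ hC hC0
    have h5 : ‖∫ θ, Z θ * ev (Finsupp.single i x : ℕ →₀ F) θ ∂Q - ∫ θ, Z θ * kap x θ ∂Q‖ = 0 := by
      have := sq_nonneg ‖∫ θ, Z θ * ev (Finsupp.single i x : ℕ →₀ F) θ ∂Q - ∫ θ, Z θ * kap x θ ∂Q‖
      exact pow_eq_zero_iff two_ne_zero |>.1 (le_antisymm h4 this)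
    exact sub_eq_zero.1 (norm_eq_zero.1 h5)

end Pool.Agent.Lib.P3852C
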