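import Pool.Agent.Lib.P3852C.VTri

/-!
# 7.5: the identity (*)

`gam Φ x = ∫ GG x` (`Rep`). `gam A * gam B = M_γ gam (A - γ² B)` by `erg_mean` for the mean `M.comp`
(squaring) and `f = GG A`, `g = GG B`. `‖A - γ² B‖ = ‖m + γ D - γ² m‖` for `m² = A B`, `D = A - B` (all real:
multiply the second by `γ⁻¹`: `‖D - m (γ - γ⁻¹)‖² = D² + 4 m² (Im γ)² = ‖A - γ² B‖²`), so
`gam (A - γ² B) = gam (m + γ D - γ² m) = ∫ GG m · (GG D ∘ rotX γ) · (GG (-m) ∘ rotX γ²)`. Replace the second and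
third factor by `triple1`, `triple2` (for `x = D`, `x = -m`; `‖kap (-m)‖ = ‖kap m‖` a.e.: by `Kap.rot` with
`γ = -1`, or `kap (-x) = conj kap x` a.e.; to avoid this the statement has `h_{-m}` replaced using
rotation by `-1`), then the first by `Kap.repl2` with `Z` invariant under all permutations (`J = ∅`).
-/

set_option autoImplicit false

namespace Pool.Agent.Lib.P3852C

open MeasureTheory

variable {F : Subfield ℂ}

/-- `h_x = |kap x|²` -/
noncomputable def hh (kap : F → X (ℕ →₀ F) → ℂ) (x : F) (θ : X (ℕ →₀ F)) : ℝ := ‖kap x θ‖ ^ 2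

namespace VStarAux

theorem countableFin (hF : GoodField F) : Countable (ℕ →₀ F) := by
  haveI := hF.ctb
  infer_instance

theorem fixJ_const (Q : Measure (X (ℕ →₀ F))) (J : Finset ℕ) (c : ℂ) : FixJ Q J (fun _ => c) :=
  fun _ _ => Filter.EventuallyEq.rfl

theorem measurable_rotX (γ : Gam F) : Measurable (rotX γ : X (ℕ →₀ F) → X (ℕ →₀ F)) :=
  measurable_pull _

theorem measurable_permX (π : Equiv.Perm ℕ) : Measurable (permX π : X (ℕ →₀ F) → X (ℕ →₀ F)) :=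
  measurable_pull _

theorem measurable_GG (x : F) : Measurable (GG x) := measurable_ev _

theorem norm_GG (x : F) (θ : X (ℕ →₀ F)) : ‖GG x θ‖ = 1 := norm_ev _ _

theorem GG_rot (x : F) (γ : Gam F) (θ : X (ℕ →₀ F)) : GG x (rotX γ θ) = GG (toF γ * x) θ := by
  unfold GG
  rw [ev_rotX]
  congr 1
  rw [smul_sub, Finsupp.smul_single, Finsupp.smul_single, smul_eq_mul]

theorem GG_add (x y : F) (θ : X (ℕ →₀ F)) : GG (x + y) θ = GG x θ * GG y θ := by
  unfold GG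
  rw [← ev_add]
  congr 1
  rw [Finsupp.single_add, Finsupp.single_add]
  abel

theorem GG_neg (x : F) (θ : X (ℕ →₀ F)) : GG (-x) θ = (starRingEnd ℂ) (GG x θ) := by
  unfold GG
  rw [← ev_neg]
  congr 1
  rw [Finsupp.single_neg, Finsupp.single_neg]
  abel

theorem GG_sub (x y : F) (θ : X (ℕ →₀ F)) :
    GG (x - y) θ = GG x θ * (starRingEnd ℂ) (GG y θ) := by
  rw [sub_eq_add_neg, GG_add, GG_neg]

theorem integral_GG {Φ : (ℕ →₀ F) → ℝ} {Q : Measure (X (ℕ →₀ F))} (hQ : Rep Q Φ) (x : F) :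
    ∫ θ, GG x θ ∂Q = (gam Φ x : ℂ) := hQ _

theorem gam_rot {Φ : (ℕ →₀ F) → ℝ} (h : InE F Φ) (γ : Gam F) (x : F) :
    gam Φ (toF γ * x) = gam Φ x := by
  unfold gam
  rw [← h.rot γ (Finsupp.single 0 x - Finsupp.single 1 x), smul_sub, Finsupp.smul_single,
    Finsupp.smul_single, smul_eq_mul]

theorem gam_radial (hF : GoodField F) {Φ : (ℕ →₀ F) → ℝ} (h : InE F Φ) (x y : F)
    (hxy : ‖(x : ℂ)‖ = ‖(y : ℂ)‖) : gam Φ x = gam Φ y := by
  obtain ⟨γ, rfl⟩ := hF.exists_rot x y hxy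
  exact (gam_rot h γ x).symm

theorem memLp_GG (Q : Measure (X (ℕ →₀ F))) [IsProbabilityMeasure Q] (x : F) :
    MemLp (GG x) 2 Q :=
  MemLp.of_bound (measurable_GG x).aestronglyMeasurable 1
    (Filter.Eventually.of_forall fun θ => (norm_GG x θ).le)

/-- `M_γ gam (A - γ B) = gam A * gam B` for every mean -/
theorem mean_gam (hF : GoodField F) {Φ : (ℕ →₀ F) → ℝ} (h : InE F Φ)
    {Q : Measure (X (ℕ →₀ F))} [IsProbabilityMeasure Q] (hQ : Rep Q Φ) (hE : ErgQ F Q)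
    (M : IMean (Gam F)) (A B : F) :
    M.cval (fun γ => ((gam Φ (A - toF γ * B) : ℝ) : ℂ)) = (gam Φ A : ℂ) * (gam Φ B : ℂ) := by
  haveI := countableFin hF
  have h1 := erg_mean hF Q (fun γ => h.rot_mp hF Q hQ γ) hE M (GG A) (GG B) (memLp_GG Q A)
    (memLp_GG Q B)
  rw [integral_GG hQ, integral_GG hQ, Complex.conj_ofReal] at h1
  rw [← h1]
  congr 1
  funext γ
  rw [← integral_GG hQ]
  refine integral_congr_ae (Filter.Eventually.of_forall fun θ => ?_)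
  show GG (A - toF γ * B) θ = GG A θ * (starRingEnd ℂ) (GG B (rotX γ θ))
  rw [GG_sub, GG_rot]

/-- `kap (-x) = conj (kap x)` a.e. -/
theorem kap_neg (hF : GoodField F) {Φ : (ℕ →₀ F) → ℝ} (h : InE F Φ)
    {Q : Measure (X (ℕ →₀ F))} [IsProbabilityMeasure Q] (hQ : Rep Q Φ)
    {kap : F → X (ℕ →₀ F) → ℂ} (hk : Kap F Q kap) (x : F) :
    kap (-x) =ᵐ[Q] fun θ => (starRingEnd ℂ) (kap x θ) := by
  set W : X (ℕ →₀ F) → ℂ := fun θ => kap (-x) θ - (starRingEnd ℂ) (kap x θ) with hW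
  have hWm : Measurable W := (hk.meas (-x)).sub (Complex.continuous_conj.measurable.comp (hk.meas x))
  have hWb : ∀ θ, ‖W θ‖ ≤ 2 := by
    intro θ
    refine (norm_sub_le _ _).trans ?_
    rw [RCLike.norm_conj]
    have := hk.bdd (-x) θ
    have := hk.bdd x θ
    linarith
  set Z : X (ℕ →₀ F) → ℂ := fun θ => (starRingEnd ℂ) (W θ) with hZ
  have hZm : Measurable Z := Complex.continuous_conj.measurable.comp hWm
  have hZb : ∀ θ, ‖Z θ‖ ≤ 2 := fun θ => by rw [hZ]; simp only []; rw [RCLike.norm_conj]; exact hWb θ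
  have hZf : FixJ Q ∅ Z := by
    intro π hπ
    filter_upwards [hk.perm (-x) π hπ, hk.perm x π hπ] with θ h1 h2
    simp only [hZ, hW]
    rw [h1, h2]
  have hZf' : FixJ Q ∅ W := by
    intro π hπ
    filter_upwards [hk.perm (-x) π hπ, hk.perm x π hπ] with θ h1 h2
    simp only [hW]
    rw [h1, h2]
  have e1 := hk.repl ∅ Z hZm ⟨2, hZb⟩ hZf 0 (Finset.notMem_empty 0) (-x)
  have e2 := hk.repl ∅ W hWm ⟨2, hWb⟩ hZf' 0 (Finset.notMem_empty 0) x
  have e3 : ∫ θ, Z θ * ev (Finsupp.single 0 (-x) : ℕ →₀ F) θ ∂Q =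
      ∫ θ, Z θ * (starRingEnd ℂ) (kap x θ) ∂Q := by
    have h1 : ∀ θ : X (ℕ →₀ F), Z θ * ev (Finsupp.single 0 (-x) : ℕ →₀ F) θ =
        (starRingEnd ℂ) (W θ * ev (Finsupp.single 0 x : ℕ →₀ F) θ) := by
      intro θ
      rw [Finsupp.single_neg, ev_neg, map_mul]
    have h2 : ∀ θ : X (ℕ →₀ F), Z θ * (starRingEnd ℂ) (kap x θ) =
        (starRingEnd ℂ) (W θ * kap x θ) := fun θ => by rw [map_mul]
    simp_rw [h1, h2]
    rw [integral_conj, integral_conj, e2]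
  rw [e3] at e1
  have hi1 : Integrable (fun θ => Z θ * kap (-x) θ) Q := by
    refine Integrable.of_bound (hZm.mul (hk.meas _)).aestronglyMeasurable 2
      (Filter.Eventually.of_forall fun θ => ?_)
    rw [norm_mul]
    exact (mul_le_mul (hZb θ) (hk.bdd (-x) θ) (norm_nonneg _) (by norm_num)).trans (by norm_num)
  have hi2 : Integrable (fun θ => Z θ * (starRingEnd ℂ) (kap x θ)) Q := by
    refine Integrable.of_bound (hZm.mul
      (Complex.continuous_conj.measurable.comp (hk.meas x))).aestronglyMeasurable 2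
      (Filter.Eventually.of_forall fun θ => ?_)
    rw [norm_mul]
    have h3 : ‖(starRingEnd ℂ) (kap x θ)‖ ≤ 1 := by rw [RCLike.norm_conj]; exact hk.bdd x θ
    exact (mul_le_mul (hZb θ) h3 (norm_nonneg _) (by norm_num)).trans (by norm_num)
  have e4 : ∫ θ, Z θ * W θ ∂Q = 0 := by
    have h1 : ∀ θ, Z θ * W θ = Z θ * kap (-x) θ - Z θ * (starRingEnd ℂ) (kap x θ) := fun θ => by
      rw [hW]; ring
    simp_rw [h1]
    rw [integral_sub hi1 hi2, ← e1, sub_self]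
  have e5 : ∫ θ, ‖W θ‖ ^ 2 ∂Q = 0 := by
    have h1 : ∀ θ, Z θ * W θ = ((‖W θ‖ ^ 2 : ℝ) : ℂ) := fun θ => by
      rw [hZ]
      simp only []
      rw [mul_comm, Complex.mul_conj, Complex.normSq_eq_norm_sq]
    simp_rw [h1] at e4
    rw [integral_complex_ofReal] at e4
    exact_mod_cast e4
  have hi3 : Integrable (fun θ => ‖W θ‖ ^ 2) Q := by
    refine Integrable.of_bound (hWm.norm.pow_const 2).aestronglyMeasurable 4
      (Filter.Eventually.of_forall fun θ => ?_)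
    rw [Real.norm_of_nonneg (by positivity)]
    nlinarith [hWb θ, norm_nonneg (W θ)]
  have e6 := (integral_eq_zero_iff_of_nonneg (fun θ => by positivity) hi3).1 e5
  filter_upwards [e6] with θ hθ
  have h1 : ‖W θ‖ = 0 := by
    have : ‖W θ‖ ^ 2 = 0 := hθ
    exact pow_eq_zero_iff (two_ne_zero) |>.1 this
  have h2 : W θ = 0 := norm_eq_zero.1 h1
  rw [hW] at h2
  exact sub_eq_zero.1 h2

theorem measurable_hh {Q : Measure (X (ℕ →₀ F))} {kap : F → X (ℕ →₀ F) → ℂ} (hk : Kap F Q kap)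
    (x : F) : Measurable (hh kap x) := (hk.meas x).norm.pow_const 2

theorem hh_nonneg (kap : F → X (ℕ →₀ F) → ℂ) (x : F) (θ : X (ℕ →₀ F)) : 0 ≤ hh kap x θ := by
  unfold hh; positivity

theorem hh_le {Q : Measure (X (ℕ →₀ F))} {kap : F → X (ℕ →₀ F) → ℂ} (hk : Kap F Q kap)
    (x : F) (θ : X (ℕ →₀ F)) : hh kap x θ ≤ 1 := by
  unfold hh
  have := hk.bdd x θ
  nlinarith [norm_nonneg (kap x θ)]

theorem norm_hh {Q : Measure (X (ℕ →₀ F))} {kap : F → X (ℕ →₀ F) → ℂ} (hk : Kap F Q kap)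
    (x : F) (θ : X (ℕ →₀ F)) : ‖((hh kap x θ : ℝ) : ℂ)‖ ≤ 1 := by
  rw [Complex.norm_real, Real.norm_of_nonneg (hh_nonneg kap x θ)]
  exact hh_le hk x θ

theorem hh_neg (hF : GoodField F) {Φ : (ℕ →₀ F) → ℝ} (h : InE F Φ)
    {Q : Measure (X (ℕ →₀ F))} [IsProbabilityMeasure Q] (hQ : Rep Q Φ)
    {kap : F → X (ℕ →₀ F) → ℂ} (hk : Kap F Q kap) (x : F) :
    hh kap (-x) =ᵐ[Q] hh kap x := by
  filter_upwards [kap_neg hF h hQ hk x] with θ hθ
  unfold hh
  rw [hθ, RCLike.norm_conj]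

/-- the norm identity -/
theorem norm_id (γ : Circle) (a b m : ℝ) (hab : m ^ 2 = a * b) :
    ‖(a : ℂ) - (γ : ℂ) ^ 2 * b‖ = ‖(m : ℂ) + (γ : ℂ) * ((a - b : ℝ) : ℂ) - (γ : ℂ) ^ 2 * m‖ := by
  have hγ : ‖(γ : ℂ)‖ = 1 := Circle.norm_coe γ
  set u : ℝ := (γ : ℂ).re with hu
  set v : ℝ := (γ : ℂ).im with hv
  have huv : u ^ 2 + v ^ 2 = 1 := by
    have h1 := Complex.sq_norm (γ : ℂ)
    rw [hγ, Complex.normSq_apply] at h1
    nlinarith
  have hg : (γ : ℂ) = ⟨u, v⟩ := Complex.ext rfl rfl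
  rw [hg]
  have key : ‖(a : ℂ) - (⟨u, v⟩ : ℂ) ^ 2 * b‖ ^ 2 =
      ‖(m : ℂ) + (⟨u, v⟩ : ℂ) * ((a - b : ℝ) : ℂ) - (⟨u, v⟩ : ℂ) ^ 2 * m‖ ^ 2 := by
    rw [Complex.sq_norm, Complex.sq_norm, Complex.normSq_apply, Complex.normSq_apply]
    simp only [pow_two, Complex.sub_re, Complex.sub_im, Complex.add_re, Complex.add_im,
      Complex.mul_re, Complex.mul_im, Complex.ofReal_re, Complex.ofReal_im]
    have h1 : m * m = a * b := by rw [← hab]; ring
    linear_combination (-((1 - (u * u - v * v)) ^ 2 + (2 * u * v) ^ 2)) * h1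
      - (a ^ 2 - b ^ 2 * (u ^ 2 + v ^ 2) - a * b * (1 - (u ^ 2 + v ^ 2)) - 2 * m * u * (a - b)) * huv
  exact (pow_left_inj₀ (norm_nonneg _) (norm_nonneg _) two_ne_zero).1 key

theorem norm_int_le {Q : Measure (X (ℕ →₀ F))} [IsProbabilityMeasure Q] {f : X (ℕ →₀ F) → ℂ}
    {C : ℝ} (hf : ∀ θ, ‖f θ‖ ≤ C) : ‖∫ θ, f θ ∂Q‖ ≤ C := by
  have h1 := norm_integral_le_of_norm_le_const (μ := Q) (Filter.Eventually.of_forall hf)
  simpa using h1

theorem integrable_bdd {Q : Measure (X (ℕ →₀ F))} [IsProbabilityMeasure Q] {f : X (ℕ →₀ F) → ℂ}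
    (hm : Measurable f) {C : ℝ} (hf : ∀ θ, ‖f θ‖ ≤ C) : Integrable f Q :=
  Integrable.of_bound hm.aestronglyMeasurable C (Filter.Eventually.of_forall hf)

theorem measurable_FF {Q : Measure (X (ℕ →₀ F))} {kap : F → X (ℕ →₀ F) → ℂ} (hk : Kap F Q kap)
    (x : F) : Measurable (FF kap x) :=
  (measurable_GG x).sub (Complex.measurable_ofReal.comp (measurable_hh hk x))

theorem GG_eq (kap : F → X (ℕ →₀ F) → ℂ) (x : F) (θ : X (ℕ →₀ F)) :
    GG x θ = FF kap x θ + ((hh kap x θ : ℝ) : ℂ) := by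
  unfold FF hh
  ring

theorem norm_FF {Q : Measure (X (ℕ →₀ F))} {kap : F → X (ℕ →₀ F) → ℂ} (hk : Kap F Q kap)
    (x : F) (θ : X (ℕ →₀ F)) : ‖FF kap x θ‖ ≤ 2 := by
  have h1 : FF kap x θ = GG x θ - ((hh kap x θ : ℝ) : ℂ) := by rw [GG_eq kap x θ]; ring
  rw [h1]
  refine (norm_sub_le _ _).trans ?_
  rw [norm_GG]
  have := norm_hh hk x θ
  linarith

theorem norm_mul3_le {u v w : ℂ} {a b c : ℝ} (h1 : ‖u‖ ≤ a) (h2 : ‖v‖ ≤ b) (h3 : ‖w‖ ≤ c) :
    ‖u * v * w‖ ≤ a * b * c := by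
  rw [norm_mul, norm_mul]
  have ha := (norm_nonneg u).trans h1
  have hb := (norm_nonneg v).trans h2
  exact mul_le_mul (mul_le_mul h1 h2 (norm_nonneg _) ha) h3 (norm_nonneg _) (mul_nonneg ha hb)

end VStarAux

open VStarAux

theorem gam_eq (hF : GoodField F) {Φ : (ℕ →₀ F) → ℝ} (h : InE F Φ)
    {Q : Measure (X (ℕ →₀ F))} [IsProbabilityMeasure Q] (hQ : Rep Q Φ)
    {kap : F → X (ℕ →₀ F) → ℂ} (hk : Kap F Q kap) (x : F) :
    gam Φ x = ∫ θ, hh kap x θ ∂Q := by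
  have h1 := Kap.repl2 hF h hQ hk ∅ (Finset.notMem_empty 0) (Finset.notMem_empty 1) (fun _ => 1)
    measurable_const ⟨1, fun _ => by simp⟩ (fixJ_const Q ∅ 1) x
  simp only [one_mul] at h1
  rw [integral_GG hQ, integral_complex_ofReal] at h1
  exact_mod_cast h1

theorem star (hF : GoodField F) {Φ : (ℕ →₀ F) → ℝ} (h : InE F Φ)
    {Q : Measure (X (ℕ →₀ F))} [IsProbabilityMeasure Q] (hQ : Rep Q Φ) (hE : ErgQ F Q)
    {kap : F → X (ℕ →₀ F) → ℂ} (hk : Kap F Q kap) (M : IMean (Gam F)) (a b m : ℝ)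
    (ha : (a : ℂ) ∈ F) (hb : (b : ℂ) ∈ F) (hm : (m : ℂ) ∈ F) (hab : m ^ 2 = a * b) :
    gam Φ ⟨a, ha⟩ * gam Φ ⟨b, hb⟩ =
      M.val (fun γ => ∫ θ, hh kap ⟨m, hm⟩ θ *
        hh kap ⟨((a - b : ℝ) : ℂ), by push_cast; exact F.sub_mem ha hb⟩ (rotX γ θ) *
        hh kap ⟨m, hm⟩ (rotX (γ ^ 2) θ) ∂Q) := by
  set A : F := ⟨a, ha⟩ with hA
  set B : F := ⟨b, hb⟩ with hB
  set m' : F := ⟨m, hm⟩ with hm'
  set D : F := ⟨((a - b : ℝ) : ℂ), by push_cast; exact F.sub_mem ha hb⟩ with hD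
  have hsurj : Function.Surjective (powMonoidHom 2 : Gam F →* Gam F) := fun γ => by
    obtain ⟨δ, hδ⟩ := hF.gam_divisible γ 2 (by norm_num)
    exact ⟨δ, hδ⟩
  have s1 : M.cval (fun γ => ((gam Φ (A - toF (γ ^ 2) * B) : ℝ) : ℂ)) =
      (gam Φ A : ℂ) * (gam Φ B : ℂ) := mean_gam hF h hQ hE (M.comp _ hsurj) A B
  have s2 : ∀ γ : Gam F, ((gam Φ (A - toF (γ ^ 2) * B) : ℝ) : ℂ) =
      ∫ θ, GG m' θ * GG D (rotX γ θ) * GG (-m') (rotX (γ ^ 2) θ) ∂Q := by
    intro γ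
    have e1 : gam Φ (A - toF (γ ^ 2) * B) = gam Φ (m' + toF γ * D + toF (γ ^ 2) * (-m')) := by
      refine gam_radial hF h _ _ ?_
      have e2 := norm_id γ.1 a b m hab
      have e3 : ((A - toF (γ ^ 2) * B : F) : ℂ) = (a : ℂ) - (γ.1 : ℂ) ^ 2 * b := by
        push_cast [hA, hB]
        simp
      have e4 : ((m' + toF γ * D + toF (γ ^ 2) * (-m') : F) : ℂ) =
          (m : ℂ) + (γ.1 : ℂ) * ((a - b : ℝ) : ℂ) - (γ.1 : ℂ) ^ 2 * m := by
        simp [hm', hD]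
        ring
      rw [e3, e4]
      exact e2
    rw [e1, ← integral_GG hQ]
    refine integral_congr_ae (Filter.Eventually.of_forall fun θ => ?_)
    show GG (m' + toF γ * D + toF (γ ^ 2) * (-m')) θ =
      GG m' θ * GG D (rotX γ θ) * GG (-m') (rotX (γ ^ 2) θ)
    rw [GG_add, GG_add, GG_rot, GG_rot]
  simp_rw [s2] at s1
  -- first replacement
  have s3 : M.cval (fun γ => ∫ θ, GG m' θ * GG D (rotX γ θ) * GG (-m') (rotX (γ ^ 2) θ) ∂Q) =
      M.cval (fun γ => ∫ θ, GG m' θ * ((hh kap D (rotX γ θ) : ℝ) : ℂ) *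
        GG (-m') (rotX (γ ^ 2) θ) ∂Q) := by
    have e0 := triple1 hF h hQ hE hk M D (GG m') (GG (-m')) (measurable_GG _) (measurable_GG _)
      ⟨1, fun θ => (norm_GG _ θ).le⟩ ⟨1, fun θ => (norm_GG _ θ).le⟩
    have e1 : ∀ γ : Gam F, ∫ θ, GG m' θ * GG D (rotX γ θ) * GG (-m') (rotX (γ ^ 2) θ) ∂Q =
        (∫ θ, GG m' θ * FF kap D (rotX γ θ) * GG (-m') (rotX (γ ^ 2) θ) ∂Q) +
        ∫ θ, GG m' θ * ((hh kap D (rotX γ θ) : ℝ) : ℂ) * GG (-m') (rotX (γ ^ 2) θ) ∂Q := by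
      intro γ
      rw [← integral_add]
      · refine integral_congr_ae (Filter.Eventually.of_forall fun θ => ?_)
        show GG m' θ * GG D (rotX γ θ) * GG (-m') (rotX (γ ^ 2) θ) = _
        rw [GG_eq kap D (rotX γ θ)]
        ring
      · exact integrable_bdd (((measurable_GG _).mul ((measurable_FF hk D).comp
          (measurable_rotX γ))).mul ((measurable_GG _).comp (measurable_rotX _)))
          (fun θ => norm_mul3_le (norm_GG _ θ).le (norm_FF hk D _) (norm_GG _ _).le)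
      · exact integrable_bdd (((measurable_GG _).mul (Complex.measurable_ofReal.comp
          ((measurable_hh hk D).comp (measurable_rotX γ)))).mul
          ((measurable_GG _).comp (measurable_rotX _)))
          (fun θ => norm_mul3_le (norm_GG _ θ).le (norm_hh hk D _) (norm_GG _ _).le)
    simp_rw [e1]
    rw [M.cval_add, e0, zero_add]
    · exact ⟨1 * 2 * 1, fun γ => norm_int_le fun θ =>
        norm_mul3_le (norm_GG _ θ).le (norm_FF hk D _) (norm_GG _ _).le⟩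
    · exact ⟨1 * 1 * 1, fun γ => norm_int_le fun θ =>
        norm_mul3_le (norm_GG _ θ).le (norm_hh hk D _) (norm_GG _ _).le⟩
  -- second replacement
  have s4 : M.cval (fun γ => ∫ θ, GG m' θ * ((hh kap D (rotX γ θ) : ℝ) : ℂ) *
        GG (-m') (rotX (γ ^ 2) θ) ∂Q) =
      M.cval (fun γ => ∫ θ, GG m' θ * ((hh kap D (rotX γ θ) : ℝ) : ℂ) *
        ((hh kap (-m') (rotX (γ ^ 2) θ) : ℝ) : ℂ) ∂Q) := by
    have e0 := triple2 hF h hQ hE hk M (-m') (GG m') (fun θ => ((hh kap D θ : ℝ) : ℂ))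
      (measurable_GG _) (Complex.measurable_ofReal.comp (measurable_hh hk D))
      ⟨1, fun θ => (norm_GG _ θ).le⟩ ⟨1, fun θ => norm_hh hk D θ⟩
    have e1 : ∀ γ : Gam F, ∫ θ, GG m' θ * ((hh kap D (rotX γ θ) : ℝ) : ℂ) *
          GG (-m') (rotX (γ ^ 2) θ) ∂Q =
        (∫ θ, GG m' θ * ((hh kap D (rotX γ θ) : ℝ) : ℂ) * FF kap (-m') (rotX (γ ^ 2) θ) ∂Q) +
        ∫ θ, GG m' θ * ((hh kap D (rotX γ θ) : ℝ) : ℂ) *
          ((hh kap (-m') (rotX (γ ^ 2) θ) : ℝ) : ℂ) ∂Q := by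
      intro γ
      rw [← integral_add]
      · refine integral_congr_ae (Filter.Eventually.of_forall fun θ => ?_)
        show GG m' θ * ((hh kap D (rotX γ θ) : ℝ) : ℂ) * GG (-m') (rotX (γ ^ 2) θ) = _
        rw [GG_eq kap (-m') (rotX (γ ^ 2) θ)]
        ring
      · exact integrable_bdd (((measurable_GG _).mul (Complex.measurable_ofReal.comp
          ((measurable_hh hk D).comp (measurable_rotX γ)))).mul
          ((measurable_FF hk _).comp (measurable_rotX _)))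
          (fun θ => norm_mul3_le (norm_GG _ θ).le (norm_hh hk D _) (norm_FF hk _ _))
      · exact integrable_bdd (((measurable_GG _).mul (Complex.measurable_ofReal.comp
          ((measurable_hh hk D).comp (measurable_rotX γ)))).mul
          (Complex.measurable_ofReal.comp ((measurable_hh hk _).comp (measurable_rotX _))))
          (fun θ => norm_mul3_le (norm_GG _ θ).le (norm_hh hk D _) (norm_hh hk _ _))
    simp_rw [e1]
    rw [M.cval_add, e0, zero_add]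
    · exact ⟨1 * 1 * 2, fun γ => norm_int_le fun θ =>
        norm_mul3_le (norm_GG _ θ).le (norm_hh hk D _) (norm_FF hk _ _)⟩
    · exact ⟨1 * 1 * 1, fun γ => norm_int_le fun θ =>
        norm_mul3_le (norm_GG _ θ).le (norm_hh hk D _) (norm_hh hk _ _)⟩
  -- third replacement
  have s5 : ∀ γ : Gam F, ∫ θ, GG m' θ * ((hh kap D (rotX γ θ) : ℝ) : ℂ) *
        ((hh kap (-m') (rotX (γ ^ 2) θ) : ℝ) : ℂ) ∂Q =
      ((∫ θ, hh kap m' θ * hh kap D (rotX γ θ) * hh kap m' (rotX (γ ^ 2) θ) ∂Q : ℝ) : ℂ) := by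
    intro γ
    set Z : X (ℕ →₀ F) → ℂ := fun θ => ((hh kap D (rotX γ θ) : ℝ) : ℂ) *
      ((hh kap (-m') (rotX (γ ^ 2) θ) : ℝ) : ℂ) with hZ
    have hZf : FixJ Q ∅ Z := by
      intro π hπ
      have p1 : ∀ᵐ θ ∂Q, kap D (permX π (rotX γ θ)) = kap D (rotX γ θ) :=
        (h.rot_mp hF Q hQ γ).quasiMeasurePreserving.ae (hk.perm D π hπ)
      have p2 : ∀ᵐ θ ∂Q, kap (-m') (permX π (rotX (γ ^ 2) θ)) = kap (-m') (rotX (γ ^ 2) θ) :=
        (h.rot_mp hF Q hQ (γ ^ 2)).quasiMeasurePreserving.ae (hk.perm (-m') π hπ)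
      filter_upwards [p1, p2] with θ q1 q2
      simp only [hZ]
      unfold hh
      rw [← permX_rotX, ← permX_rotX, q1, q2]
    have e1 := Kap.repl2 hF h hQ hk ∅ (Finset.notMem_empty 0) (Finset.notMem_empty 1) Z
      ((Complex.measurable_ofReal.comp ((measurable_hh hk D).comp (measurable_rotX γ))).mul
        (Complex.measurable_ofReal.comp ((measurable_hh hk _).comp (measurable_rotX _))))
      ⟨1, fun θ => by
        simp only [hZ]
        rw [norm_mul]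
        exact (mul_le_mul (norm_hh hk D _) (norm_hh hk _ _) (norm_nonneg _) (by norm_num)).trans
          (by norm_num)⟩ hZf m'
    have e2 : ∫ θ, GG m' θ * ((hh kap D (rotX γ θ) : ℝ) : ℂ) *
        ((hh kap (-m') (rotX (γ ^ 2) θ) : ℝ) : ℂ) ∂Q = ∫ θ, Z θ * GG m' θ ∂Q := by
      refine integral_congr_ae (Filter.Eventually.of_forall fun θ => ?_)
      simp only [hZ]
      ring
    rw [e2, e1, ← integral_complex_ofReal]
    have p3 : ∀ᵐ θ ∂Q, hh kap (-m') (rotX (γ ^ 2) θ) = hh kap m' (rotX (γ ^ 2) θ) :=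
      (h.rot_mp hF Q hQ (γ ^ 2)).quasiMeasurePreserving.ae (hh_neg hF h hQ hk m')
    refine integral_congr_ae ?_
    filter_upwards [p3] with θ q3
    simp only [hZ]
    rw [q3]
    unfold hh
    push_cast
    ring
  rw [s3, s4] at s1
  simp_rw [s5] at s1
  rw [M.cval_ofReal] at s1
  · have s6 : ((gam Φ A * gam Φ B : ℝ) : ℂ) = _ := (Complex.ofReal_mul _ _).trans s1.symm
    exact Complex.ofReal_injective s6
  · refine ⟨1, fun γ => ?_⟩
    have e1 : ‖∫ θ, (((hh kap m' θ * hh kap D (rotX γ θ) * hh kap m' (rotX (γ ^ 2) θ) : ℝ)) : ℂ) ∂Q‖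
        ≤ 1 * 1 * 1 := norm_int_le fun θ => by
      rw [Complex.ofReal_mul, Complex.ofReal_mul]
      exact norm_mul3_le (norm_hh hk _ _) (norm_hh hk _ _) (norm_hh hk _ _)
    rw [integral_complex_ofReal, Complex.norm_real] at e1
    simpa using e1

/-- `gam x ^ 2 = M_γ gam (x - γ x)` -/
theorem gam_sq (hF : GoodField F) {Φ : (ℕ →₀ F) → ℝ} (h : InE F Φ)
    {Q : Measure (X (ℕ →₀ F))} [IsProbabilityMeasure Q] (hQ : Rep Q Φ) (hE : ErgQ F Q)
    (M : IMean (Gam F)) (x : F) :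
    gam Φ x ^ 2 = M.val (fun γ => gam Φ (x - toF γ * x)) := by
  have s1 := mean_gam hF h hQ hE M x x
  rw [M.cval_ofReal] at s1
  · have s6 : ((gam Φ x * gam Φ x : ℝ) : ℂ) = _ := (Complex.ofReal_mul _ _).trans s1.symm
    rw [pow_two]
    exact Complex.ofReal_injective s6
  · refine ⟨1, fun γ => ?_⟩
    have e1 : ‖∫ θ, GG (x - toF γ * x) θ ∂Q‖ ≤ 1 := norm_int_le fun θ => (norm_GG _ θ).le
    rw [integral_GG hQ, Complex.norm_real] at e1
    exact e1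

end Pool.Agent.Lib.P3852C
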