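import Pool.Agent.Lib.P3852C.XDefs

/-!
# 8.2: consequences of near maximality

`A = h m`, `B = h (a - b)`. By `star` and measure preservation (`T γ⁻¹`):
`(s - η)² ≤ M_γ ∫ B (A ∘ T γ)(A ∘ T γ⁻¹)`.  `≤ M ∫ B (A ∘ T γ) = ∫B ∫A ≤ s ∫B`;
`≤ (1/2) M ∫ B ((A ∘ T γ)² + (A ∘ T γ⁻¹)²) = ∫B ∫A²` (`erg` for `M` and for `M.comp` inversion);
`M ∫ B (A ∘ T γ - A ∘ T γ⁻¹)² = 2 ∫B ∫A² - 2 M ∫ B (A ∘ T γ)(A ∘ T γ⁻¹) ≤ 2 s² - 2 (s - η)² ≤ 4 s η`.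
-/

set_option autoImplicit false

namespace Pool.Agent.Lib.P3852C

open MeasureTheory

namespace XBAux

variable {F : Subfield ℂ} {Y : Type} [MeasurableSpace Y]
    {ν : Measure Y} {T : Gam F → Y → Y} {h : ℝ → Y → ℝ}

lemma int_of_bdd (hs : Sys F Y ν T h) {f : Y → ℝ} (hf : Measurable f) {C : ℝ}
    (hb : ∀ y, |f y| ≤ C) : Integrable f ν := by
  haveI := hs.prob
  exact Integrable.of_bound hf.aestronglyMeasurable C (Filter.Eventually.of_forall hb)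

lemma abs_h_le (hs : Sys F Y ν T h) (x : ℝ) (y : Y) : |h x y| ≤ 1 :=
  abs_le.2 ⟨by linarith [hs.nonneg x y], hs.le_one x y⟩

lemma bd_int (hs : Sys F Y ν T h) {f : Gam F → Y → ℝ} {C : ℝ} (hb : ∀ γ y, |f γ y| ≤ C) :
    Bd (fun γ => ∫ y, f γ y ∂ν) := by
  haveI := hs.prob
  refine ⟨C, fun γ => ?_⟩
  have := norm_integral_le_of_norm_le_const (μ := ν) (f := f γ) (C := C)
    (Filter.Eventually.of_forall (hb γ))
  simpa using this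

lemma inv_surj (F : Subfield ℂ) : Function.Surjective (invMonoidHom : Gam F →* Gam F) :=
  fun γ => ⟨γ⁻¹, inv_inv γ⟩

/-- The change of variables by `T γ⁻¹`. -/
lemma star_eq (hs : Sys F Y ν T h) (m d : ℝ) (γ : Gam F) :
    ∫ y, h m y * h d (T γ y) * h m (T (γ ^ 2) y) ∂ν =
      ∫ y, h d y * h m (T γ y) * h m (T γ⁻¹ y) ∂ν := by
  have hm1 : Measurable (fun y => h m y * h d (T γ y) * h m (T (γ ^ 2) y)) :=
    ((hs.meas m).mul ((hs.meas d).comp (hs.mp γ).measurable)).mul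
      ((hs.meas m).comp (hs.mp (γ ^ 2)).measurable)
  have := integral_map (μ := ν) (hs.mp γ⁻¹).measurable.aemeasurable
    (f := fun y => h m y * h d (T γ y) * h m (T (γ ^ 2) y)) hm1.aestronglyMeasurable
  rw [(hs.mp γ⁻¹).map_eq] at this
  rw [this]
  refine integral_congr_ae (Filter.Eventually.of_forall fun y => ?_)
  simp only [hs.T_mul]
  rw [mul_inv_cancel, hs.T_one, pow_two, mul_inv_cancel_right]
  ring

end XBAux

open XBAux in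
theorem Sys.cons {F : Subfield ℂ} (hF : GoodField F) {Y : Type} [MeasurableSpace Y]
    {ν : Measure Y} {T : Gam F → Y → Y} {h : ℝ → Y → ℝ} (hs : Sys F Y ν T h)
    (M : IMean (Gam F)) {s η : ℝ} (hs0 : 0 < s) (hη : 0 < η) (hηs : η ≤ s)
    (hsup : ∀ x : ℝ, (x : ℂ) ∈ F → 0 < x → ∫ y, h x y ∂ν ≤ s)
    {a b m : ℝ} (ha : (a : ℂ) ∈ F) (hb : (b : ℂ) ∈ F) (hm : (m : ℂ) ∈ F) (hb0 : 0 < b)
    (hba : b < a) (hm0 : 0 < m) (hmm : m ^ 2 = a * b)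
    (h1 : s - η ≤ ∫ y, h a y ∂ν) (h2 : s - η ≤ ∫ y, h b y ∂ν) :
    s - 2 * η ≤ ∫ y, h (a - b) y ∂ν ∧ s - 2 * η ≤ ∫ y, h m y ^ 2 ∂ν ∧
      M.val (fun γ => ∫ y, h (a - b) y * (h m (T γ y) - h m (T γ⁻¹ y)) ^ 2 ∂ν) ≤ 4 * s * η := by
  have hdF : ((a - b : ℝ) : ℂ) ∈ F := by
    push_cast
    exact F.sub_mem ha hb
  have hd0 : 0 < a - b := sub_pos.2 hba
  have hIBs := hsup (a - b) hdF hd0
  have hIAs := hsup m hm hm0
  have hstar := hs.star M a b m ha hb hm hb0 hba hm0 hmm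
  simp only [star_eq hs] at hstar
  -- abbreviations
  set B : Y → ℝ := h (a - b) with hB
  set A : Y → ℝ := h m with hA
  have hBm : Measurable B := hs.meas _
  have hAm : Measurable A := hs.meas _
  have hB0 : ∀ y, 0 ≤ B y := hs.nonneg _
  have hA0 : ∀ y, 0 ≤ A y := hs.nonneg _
  have hB1 : ∀ y, B y ≤ 1 := hs.le_one _
  have hA1 : ∀ y, A y ≤ 1 := hs.le_one _
  have hATm : ∀ γ, Measurable (fun y => A (T γ y)) := fun γ => hAm.comp (hs.mp γ).measurable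
  have hA2 : ∀ y, A y ^ 2 ≤ 1 := fun y => pow_le_one₀ (hA0 y) (hA1 y)
  have hA20 : ∀ y, 0 ≤ A y ^ 2 := fun y => sq_nonneg _
  -- the three integrands
  have hu : ∀ γ : Gam F, Integrable (fun y => B y * A (T γ y) ^ 2) ν := fun γ => by
    refine int_of_bdd hs (C := 1) (hBm.mul ((hATm γ).pow_const 2)) fun y => ?_
    rw [abs_of_nonneg (mul_nonneg (hB0 y) (hA20 _))]
    exact mul_le_one₀ (hB1 y) (hA20 _) (hA2 _)
  have hv : ∀ γ : Gam F, Integrable (fun y => B y * A (T γ⁻¹ y) ^ 2) ν := fun γ => hu γ⁻¹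
  have hw0 : ∀ (γ : Gam F) (y : Y), 0 ≤ B y * A (T γ y) * A (T γ⁻¹ y) := fun γ y =>
    mul_nonneg (mul_nonneg (hB0 y) (hA0 _)) (hA0 _)
  have hw1 : ∀ (γ : Gam F) (y : Y), B y * A (T γ y) * A (T γ⁻¹ y) ≤ 1 := fun γ y =>
    mul_le_one₀ (mul_le_one₀ (hB1 y) (hA0 _) (hA1 _)) (hA0 _) (hA1 _)
  have hw : ∀ γ : Gam F, Integrable (fun y => B y * A (T γ y) * A (T γ⁻¹ y)) ν := fun γ => by
    refine int_of_bdd hs (C := 1) ((hBm.mul (hATm γ)).mul (hATm γ⁻¹)) fun y => ?_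
    rw [abs_of_nonneg (hw0 γ y)]
    exact hw1 γ y
  have hbu : Bd (fun γ : Gam F => ∫ y, B y * A (T γ y) ^ 2 ∂ν) := by
    refine bd_int hs (C := 1) fun γ y => ?_
    rw [abs_of_nonneg (mul_nonneg (hB0 y) (hA20 _))]
    exact mul_le_one₀ (hB1 y) (hA20 _) (hA2 _)
  have hbv : Bd (fun γ : Gam F => ∫ y, B y * A (T γ⁻¹ y) ^ 2 ∂ν) := hbu.comp (fun γ => γ⁻¹)
  have hbw : Bd (fun γ : Gam F => ∫ y, B y * A (T γ y) * A (T γ⁻¹ y) ∂ν) := by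
    refine bd_int hs (C := 1) fun γ y => ?_
    rw [abs_of_nonneg (hw0 γ y)]
    exact hw1 γ y
  have hbBA : Bd (fun γ : Gam F => ∫ y, B y * A (T γ y) ∂ν) := by
    refine bd_int hs (C := 1) fun γ y => ?_
    rw [abs_of_nonneg (mul_nonneg (hB0 y) (hA0 _))]
    exact mul_le_one₀ (hB1 y) (hA0 _) (hA1 _)
  have hBbd : Bd B := ⟨1, fun y => abs_h_le hs _ y⟩
  have hAbd : Bd A := ⟨1, fun y => abs_h_le hs _ y⟩
  have hA2bd : Bd (fun y => A y ^ 2) := ⟨1, fun y => by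
    rw [abs_of_nonneg (hA20 y)]
    exact hA2 y⟩
  have eA : M.val (fun γ => ∫ y, B y * A (T γ y) ∂ν) = (∫ y, B y ∂ν) * ∫ y, A y ∂ν :=
    hs.erg M B A hBm hAm hBbd hAbd
  have eu : M.val (fun γ => ∫ y, B y * A (T γ y) ^ 2 ∂ν) = (∫ y, B y ∂ν) * ∫ y, A y ^ 2 ∂ν :=
    hs.erg M B (fun y => A y ^ 2) hBm (hAm.pow_const 2) hBbd hA2bd
  have ev : M.val (fun γ => ∫ y, B y * A (T γ⁻¹ y) ^ 2 ∂ν) = (∫ y, B y ∂ν) * ∫ y, A y ^ 2 ∂ν :=
    hs.erg (M.comp invMonoidHom (inv_surj F)) B (fun y => A y ^ 2) hBm (hAm.pow_const 2) hBbd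
      hA2bd
  set K : ℝ := M.val (fun γ => ∫ y, B y * A (T γ y) * A (T γ⁻¹ y) ∂ν) with hK
  have hKlow : (s - η) ^ 2 ≤ K := by
    rw [← hstar, sq]
    exact mul_le_mul h1 h2 (by linarith) ((by linarith : (0:ℝ) ≤ s - η).trans h1)
  -- bound by `IB IA`
  have hK1 : K ≤ (∫ y, B y ∂ν) * ∫ y, A y ∂ν := by
    rw [← eA]
    refine M.mono _ _ hbw hbBA fun γ => ?_
    refine integral_mono (hw γ) (int_of_bdd hs (C := 1) (hBm.mul (hATm γ)) fun y => ?_) fun y => ?_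
    · rw [abs_of_nonneg (mul_nonneg (hB0 y) (hA0 _))]
      exact mul_le_one₀ (hB1 y) (hA0 _) (hA1 _)
    · exact mul_le_of_le_one_right (mul_nonneg (hB0 y) (hA0 _)) (hA1 _)
  have hIB0 : 0 ≤ ∫ y, B y ∂ν := integral_nonneg hB0
  have hIA2 : ∫ y, A y ^ 2 ∂ν ≤ ∫ y, A y ∂ν := by
    refine integral_mono (int_of_bdd hs (C := 1) (hAm.pow_const 2) fun y => ?_)
      (int_of_bdd hs (C := 1) hAm fun y => abs_h_le hs _ y) fun y => ?_
    · rw [abs_of_nonneg (hA20 y)]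
      exact hA2 y
    · have := hA0 y
      have := hA1 y
      show A y ^ 2 ≤ A y
      nlinarith
  have hIA20 : 0 ≤ ∫ y, A y ^ 2 ∂ν := integral_nonneg hA20
  -- the exact formula
  have hform : M.val (fun γ => ∫ y, B y * (A (T γ y) - A (T γ⁻¹ y)) ^ 2 ∂ν) =
      2 * ((∫ y, B y ∂ν) * ∫ y, A y ^ 2 ∂ν) - 2 * K := by
    have e1 : (fun γ : Gam F => ∫ y, B y * (A (T γ y) - A (T γ⁻¹ y)) ^ 2 ∂ν) =
        fun γ => ((∫ y, B y * A (T γ y) ^ 2 ∂ν) + ∫ y, B y * A (T γ⁻¹ y) ^ 2 ∂ν) -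
          2 * ∫ y, B y * A (T γ y) * A (T γ⁻¹ y) ∂ν := by
      funext γ
      have hadd : Integrable (fun y => B y * A (T γ y) ^ 2 + B y * A (T γ⁻¹ y) ^ 2) ν :=
        (hu γ).add (hv γ)
      rw [← integral_add (hu γ) (hv γ), ← integral_const_mul, ← integral_sub
        hadd ((hw γ).const_mul 2)]
      refine integral_congr_ae (Filter.Eventually.of_forall fun y => ?_)
      show B y * (A (T γ y) - A (T γ⁻¹ y)) ^ 2 = (B y * A (T γ y) ^ 2 + B y * A (T γ⁻¹ y) ^ 2) -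
        2 * (B y * A (T γ y) * A (T γ⁻¹ y))
      ring
    rw [e1, M.val_sub _ _ (hbu.add hbv) ((Bd.const 2).mul hbw), M.add _ _ hbu hbv, M.smul 2 _ hbw,
      eu, ev]
    ring
  have hform0 : 0 ≤ M.val (fun γ => ∫ y, B y * (A (T γ y) - A (T γ⁻¹ y)) ^ 2 ∂ν) := by
    refine M.le_val _ 0 ?_ fun γ => integral_nonneg fun y => mul_nonneg (hB0 y) (sq_nonneg _)
    refine bd_int hs (C := 1) fun γ y => ?_
    rw [abs_of_nonneg (mul_nonneg (hB0 y) (sq_nonneg _))]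
    refine mul_le_one₀ (hB1 y) (sq_nonneg _) ?_
    rw [sq_le_one_iff_abs_le_one, abs_le]
    constructor
    · linarith [hA0 (T γ y), hA1 (T γ⁻¹ y)]
    · linarith [hA1 (T γ y), hA0 (T γ⁻¹ y)]
  have hK2 : K ≤ (∫ y, B y ∂ν) * ∫ y, A y ^ 2 ∂ν := by
    rw [hform] at hform0
    linarith
  have hKlow' : s ^ 2 - 2 * s * η ≤ K := by nlinarith
  refine ⟨?_, ?_, ?_⟩
  · have h3 : s ^ 2 - 2 * s * η ≤ (∫ y, B y ∂ν) * s :=
      hKlow'.trans (hK1.trans (mul_le_mul_of_nonneg_left hIAs hIB0))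
    have h4 : s * (s - 2 * η) ≤ s * ∫ y, B y ∂ν := by nlinarith
    exact le_of_mul_le_mul_left h4 hs0
  · have h3 : s ^ 2 - 2 * s * η ≤ s * ∫ y, A y ^ 2 ∂ν :=
      hKlow'.trans (hK2.trans (mul_le_mul_of_nonneg_right hIBs hIA20))
    have h4 : s * (s - 2 * η) ≤ s * ∫ y, A y ^ 2 ∂ν := by nlinarith
    exact le_of_mul_le_mul_left h4 hs0
  · rw [hform]
    have h5 : (∫ y, B y ∂ν) * ∫ y, A y ^ 2 ∂ν ≤ s * s :=
      mul_le_mul hIBs (hIA2.trans hIAs) hIA20 hs0.le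
    nlinarith [sq_nonneg η]

end Pool.Agent.Lib.P3852C
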