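import Pool.Agent.Lib.P3852C.XCa

/-!
# 8.3, 8.4

8.4. `N ≥ 2 / β²`: for each `g ∈ Γ` some `0 ≤ j < j' < N` has `∫ (B ∘ T g^j)(B ∘ T g^j') ≥ β² / 2`; so
`μ = g^l`, `1 ≤ l ≤ N` has `∫ B (B ∘ T μ) ≥ β² / 2`. For `ν ∈ Γ` take
`g^{2 N!} = ν`; `‖A ∘ T ν - A‖₂ ≤ (N!/l) ‖A ∘ T μ² - A‖₂ ≤ N! √(8κ/β²)`. And
`M_ν ‖A ∘ T ν - A‖₂² = 2 ∫A² - 2 (∫A)²`.

This file: 8.4.
-/

set_option autoImplicit false

namespace Pool.Agent.Lib.P3852C

open MeasureTheory

namespace XCbAux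

variable {F : Subfield ℂ} {Y : Type} [MeasurableSpace Y]
    {ν : Measure Y} {T : Gam F → Y → Y} {h : ℝ → Y → ℝ}

theorem int_bdd (hs : Sys F Y ν T h) {f : Y → ℝ} (hf : Measurable f) (C : ℝ) (hC : ∀ y, |f y| ≤ C) :
    Integrable f ν := by
  have := hs.prob
  exact Integrable.of_bound hf.aestronglyMeasurable C (Filter.Eventually.of_forall hC)

theorem int_comp (hs : Sys F Y ν T h) (γ : Gam F) (f : Y → ℝ) (hf : Measurable f) :
    ∫ y, f (T γ y) ∂ν = ∫ y, f y ∂ν := by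
  have h1 := integral_map (hs.mp γ).measurable.aemeasurable (f := f)
    (by rw [(hs.mp γ).map_eq]; exact hf.aestronglyMeasurable)
  rw [(hs.mp γ).map_eq] at h1
  exact h1.symm

theorem meas_comp (hs : Sys F Y ν T h) (γ : Gam F) {f : Y → ℝ} (hf : Measurable f) :
    Measurable (fun y => f (T γ y)) := hf.comp (hs.mp γ).measurable

/-- pigeonhole -/
theorem exists_pair (hs : Sys F Y ν T h) (B : Y → ℝ) (hB : Measurable B)
    (hB0 : ∀ y, 0 ≤ B y) (hB1 : ∀ y, B y ≤ 1) (β : ℝ) (hβ : 0 < β) (hβB : β ≤ ∫ y, B y ∂ν)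
    (N : ℕ) (hN : 2 / β ^ 2 ≤ N) (g : Gam F) :
    ∃ l : ℕ, 0 < l ∧ l ≤ N ∧ β ^ 2 / 2 ≤ ∫ y, B y * B (T (g ^ l) y) ∂ν := by
  have := hs.prob
  by_contra hcon
  push Not at hcon
  have hβ2 : 0 < β ^ 2 := by positivity
  have hN0 : (0 : ℝ) < N := lt_of_lt_of_le (by positivity) hN
  have hNβ : 2 ≤ N * β ^ 2 := by rwa [div_le_iff₀ hβ2] at hN
  set b : ℕ → Y → ℝ := fun i y => B (T (g ^ i) y) with hb
  have hbm : ∀ i, Measurable (b i) := fun i => meas_comp hs _ hB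
  have hb0 : ∀ i y, 0 ≤ b i y := fun i y => hB0 _
  have hb1 : ∀ i y, b i y ≤ 1 := fun i y => hB1 _
  have hbi : ∀ i, Integrable (b i) ν := fun i =>
    int_bdd hs (hbm i) 1 fun y => by rw [abs_of_nonneg (hb0 i y)]; exact hb1 i y
  have hbb : ∀ i j, Integrable (fun y => b i y * b j y) ν := fun i j =>
    int_bdd hs ((hbm i).mul (hbm j)) 1 fun y => by
      rw [abs_of_nonneg (mul_nonneg (hb0 i y) (hb0 j y))]
      exact mul_le_one₀ (hb1 i y) (hb0 j y) (hb1 j y)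
  -- lower off diagonal
  have hlt : ∀ i j : ℕ, i < j → j ≤ N → ∫ y, b i y * b j y ∂ν ≤ β ^ 2 / 2 := by
    intro i j hij hj
    have h1 : ∫ y, b i y * b j y ∂ν = ∫ y, B y * B (T (g ^ (j - i)) y) ∂ν := by
      rw [← int_comp hs (g ^ i) (fun y => B y * B (T (g ^ (j - i)) y)) (hB.mul (meas_comp hs _ hB))]
      congr 1
      funext y
      show B _ * B _ = B _ * B _
      rw [hs.T_mul, ← pow_add, Nat.sub_add_cancel hij.le]
    rw [h1]
    exact (hcon (j - i) (by omega) (by omega)).le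
  have hoff : ∀ i < N, ∀ j < N, i ≠ j → ∫ y, b i y * b j y ∂ν ≤ β ^ 2 / 2 := by
    intro i hi j hj hij
    rcases lt_or_gt_of_ne hij with h1 | h1
    · exact hlt i j h1 hj.le
    · have h2 := hlt j i h1 hi.le
      have h3 : ∫ y, b i y * b j y ∂ν = ∫ y, b j y * b i y ∂ν := by
        congr 1; funext y; exact mul_comm _ _
      rwa [h3]
  -- the square of the sum
  have hS : ∫ y, (∑ i ∈ Finset.range N, b i y) ^ 2 ∂ν ≤ N * (1 + (N - 1) * (β ^ 2 / 2)) := by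
    have h1 : ∫ y, (∑ i ∈ Finset.range N, b i y) ^ 2 ∂ν =
        ∑ i ∈ Finset.range N, ∑ j ∈ Finset.range N, ∫ y, b i y * b j y ∂ν := by
      have h2 : (fun y => (∑ i ∈ Finset.range N, b i y) ^ 2) =
          fun y => ∑ i ∈ Finset.range N, ∑ j ∈ Finset.range N, b i y * b j y := by
        funext y
        rw [sq, Finset.sum_mul_sum]
      rw [h2, integral_finsetSum _ (fun i _ => integrable_finsetSum _ fun j _ => hbb i j)]
      exact Finset.sum_congr rfl fun i _ => integral_finsetSum _ fun j _ => hbb i j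
    rw [h1]
    have h2 : ∀ i ∈ Finset.range N, ∑ j ∈ Finset.range N, ∫ y, b i y * b j y ∂ν ≤
        1 + (N - 1) * (β ^ 2 / 2) := by
      intro i hi
      rw [← Finset.add_sum_erase _ _ hi]
      refine add_le_add ?_ ?_
      · have h3 : ∫ y, b i y * b i y ∂ν ≤ ∫ _y, (1 : ℝ) ∂ν :=
          integral_mono (hbb i i) (integrable_const _) fun y =>
            mul_le_one₀ (hb1 i y) (hb0 i y) (hb1 i y)
        refine h3.trans ?_
        simp
      · have h3 : ∑ j ∈ (Finset.range N).erase i, ∫ y, b i y * b j y ∂ν ≤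
            ∑ j ∈ (Finset.range N).erase i, β ^ 2 / 2 := by
          refine Finset.sum_le_sum fun j hj => ?_
          rw [Finset.mem_erase] at hj
          exact hoff i (Finset.mem_range.1 hi) j (Finset.mem_range.1 hj.2) (Ne.symm hj.1)
        refine h3.trans (le_of_eq ?_)
        rw [Finset.sum_const, Finset.card_erase_of_mem hi, Finset.card_range, nsmul_eq_mul]
        congr 1
        have : 1 ≤ N := by
          have := Finset.mem_range.1 hi
          omega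
        push_cast [this]
        ring
    refine (Finset.sum_le_sum h2).trans (le_of_eq ?_)
    rw [Finset.sum_const, Finset.card_range, nsmul_eq_mul]
  -- the lower bound
  have hL : (N * β) ^ 2 ≤ ∫ y, (∑ i ∈ Finset.range N, b i y) ^ 2 ∂ν := by
    have h1 : ∫ y, (∑ i ∈ Finset.range N, b i y) ∂ν = N * ∫ y, B y ∂ν := by
      rw [integral_finsetSum _ (fun i _ => hbi i)]
      have h2 : ∀ i ∈ Finset.range N, ∫ y, b i y ∂ν = ∫ y, B y ∂ν := fun i _ =>
        int_comp hs _ B hB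
      rw [Finset.sum_congr rfl h2, Finset.sum_const, Finset.card_range, nsmul_eq_mul]
    have hSm : Measurable (fun y => ∑ i ∈ Finset.range N, b i y) :=
      Finset.measurable_fun_sum _ fun i _ => hbm i
    have hS0 : ∀ y, 0 ≤ ∑ i ∈ Finset.range N, b i y := fun y => Finset.sum_nonneg fun i _ => hb0 i y
    have hS1 : ∀ y, ∑ i ∈ Finset.range N, b i y ≤ N := by
      intro y
      refine (Finset.sum_le_sum (g := fun _ => (1 : ℝ)) fun i _ => hb1 i y).trans (le_of_eq ?_)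
      simp
    have hSi : Integrable (fun y => ∑ i ∈ Finset.range N, b i y) ν :=
      int_bdd hs hSm N fun y => by rw [abs_of_nonneg (hS0 y)]; exact hS1 y
    have hSq : Integrable (fun y => (∑ i ∈ Finset.range N, b i y) ^ 2) ν :=
      int_bdd hs (hSm.pow_const 2) (N ^ 2) fun y => by
        rw [abs_of_nonneg (by positivity)]
        exact pow_le_pow_left₀ (hS0 y) (hS1 y) 2
    have h3 : 0 ≤ ∫ y, ((∑ i ∈ Finset.range N, b i y) - N * β) ^ 2 ∂ν :=
      integral_nonneg fun y => sq_nonneg _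
    have h4 : ∫ y, ((∑ i ∈ Finset.range N, b i y) - N * β) ^ 2 ∂ν =
        ∫ y, (∑ i ∈ Finset.range N, b i y) ^ 2 ∂ν - 2 * (N * β) * ∫ y, (∑ i ∈ Finset.range N, b i y) ∂ν
          + (N * β) ^ 2 := by
      have h5 : (fun y => ((∑ i ∈ Finset.range N, b i y) - N * β) ^ 2) =
          fun y => ((∑ i ∈ Finset.range N, b i y) ^ 2 - 2 * (N * β) * (∑ i ∈ Finset.range N, b i y))
            + (N * β) ^ 2 := by
        funext y; ring
      have i1 : Integrable (fun y => (∑ i ∈ Finset.range N, b i y) ^ 2 -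
          2 * (N * β) * (∑ i ∈ Finset.range N, b i y)) ν := hSq.sub (hSi.const_mul _)
      rw [h5, integral_add i1 (integrable_const _),
        integral_sub hSq (hSi.const_mul _), integral_const_mul]
      simp
    rw [h4, h1] at h3
    have h6 : 0 ≤ (N * β) * (N * (∫ y, B y ∂ν - β)) := by
      have : 0 ≤ ∫ y, B y ∂ν - β := by linarith
      positivity
    nlinarith
  have h1 := hL.trans hS
  have h2 : N * (N * β ^ 2) ≤ N * (1 + (N - 1) * (β ^ 2 / 2)) := by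
    calc N * (N * β ^ 2) = (N * β) ^ 2 := by ring
      _ ≤ _ := h1
  have h3 := le_of_mul_le_mul_left h2 hN0
  nlinarith

theorem int_sq_pow (hs : Sys F Y ν T h) (A : Y → ℝ) (hA : Measurable A)
    (hA0 : ∀ y, 0 ≤ A y) (hA1 : ∀ y, A y ≤ 1) (ρ : Gam F) (k : ℕ) :
    ∫ y, (A (T (ρ ^ k) y) - A y) ^ 2 ∂ν ≤ (k : ℝ) ^ 2 * ∫ y, (A (T ρ y) - A y) ^ 2 ∂ν := by
  have := hs.prob
  have hm : ∀ γ δ : Gam F, Measurable (fun y => (A (T γ y) - A (T δ y)) ^ 2) := fun γ δ =>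
    ((meas_comp hs γ hA).sub (meas_comp hs δ hA)).pow_const 2
  have hi : ∀ γ δ : Gam F, Integrable (fun y => (A (T γ y) - A (T δ y)) ^ 2) ν := fun γ δ =>
    int_bdd hs (hm γ δ) 1 fun y => by
      rw [abs_of_nonneg (sq_nonneg _)]
      have h1 := hA0 (T γ y)
      have h2 := hA1 (T γ y)
      have h3 := hA0 (T δ y)
      have h4 := hA1 (T δ y)
      nlinarith
  have hT1 : ∀ y, T 1 y = y := hs.T_one
  have h1 : ∀ y, (A (T (ρ ^ k) y) - A y) ^ 2 ≤
      k * ∑ i ∈ Finset.range k, (A (T (ρ ^ (i + 1)) y) - A (T (ρ ^ i) y)) ^ 2 := by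
    intro y
    have h2 : A (T (ρ ^ k) y) - A y =
        ∑ i ∈ Finset.range k, (A (T (ρ ^ (i + 1)) y) - A (T (ρ ^ i) y)) := by
      rw [Finset.sum_range_sub (fun i => A (T (ρ ^ i) y)), pow_zero, hT1]
    rw [h2]
    have h3 := sq_sum_le_card_mul_sum_sq (s := Finset.range k)
      (f := fun i => A (T (ρ ^ (i + 1)) y) - A (T (ρ ^ i) y))
    rwa [Finset.card_range] at h3
  have hl : Integrable (fun y => (A (T (ρ ^ k) y) - A y) ^ 2) ν := by
    have := hi (ρ ^ k) 1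
    simpa only [hT1] using this
  have h2 : ∫ y, (A (T (ρ ^ k) y) - A y) ^ 2 ∂ν ≤
      ∫ y, k * ∑ i ∈ Finset.range k, (A (T (ρ ^ (i + 1)) y) - A (T (ρ ^ i) y)) ^ 2 ∂ν :=
    integral_mono hl ((integrable_finsetSum _ fun i _ => hi _ _).const_mul _) h1
  refine h2.trans (le_of_eq ?_)
  rw [integral_const_mul, integral_finsetSum _ (fun i _ => hi _ _)]
  have h3 : ∀ i ∈ Finset.range k, ∫ y, (A (T (ρ ^ (i + 1)) y) - A (T (ρ ^ i) y)) ^ 2 ∂ν =
      ∫ y, (A (T ρ y) - A y) ^ 2 ∂ν := by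
    intro i _
    have h4 : Measurable (fun y => (A (T ρ y) - A y) ^ 2) :=
      ((meas_comp hs ρ hA).sub hA).pow_const 2
    rw [← int_comp hs (ρ ^ i) (fun y => (A (T ρ y) - A y) ^ 2) h4]
    congr 1
    funext y
    show _ = (A (T ρ (T (ρ ^ i) y)) - A (T (ρ ^ i) y)) ^ 2
    rw [hs.T_mul, ← pow_succ']
  rw [Finset.sum_congr rfl h3, Finset.sum_const, Finset.card_range, nsmul_eq_mul]
  ring

end XCbAux

open XCbAux

/-- 8.4 -/
theorem Sys.variance {F : Subfield ℂ} (hF : GoodField F) {Y : Type} [MeasurableSpace Y]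
    {ν : Measure Y} {T : Gam F → Y → Y} {h : ℝ → Y → ℝ} (hs : Sys F Y ν T h)
    (M : IMean (Gam F)) (A B : Y → ℝ) (hA : Measurable A) (hB : Measurable B)
    (hA0 : ∀ y, 0 ≤ A y) (hA1 : ∀ y, A y ≤ 1) (hB0 : ∀ y, 0 ≤ B y) (hB1 : ∀ y, B y ≤ 1)
    (κ : ℝ) (hκ : M.val (fun γ => ∫ y, B y * (A (T γ y) - A (T γ⁻¹ y)) ^ 2 ∂ν) ≤ κ)
    (β : ℝ) (hβ : 0 < β) (hβB : β ≤ ∫ y, B y ∂ν) (N : ℕ) (hN : 2 / β ^ 2 ≤ N) :
    2 * (∫ y, A y ^ 2 ∂ν) - 2 * (∫ y, A y ∂ν) ^ 2 ≤ (N.factorial : ℝ) ^ 2 * (8 * κ / β ^ 2) := by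
  have := hs.prob
  have hβ2 : 0 < β ^ 2 := by positivity
  have hAb : ∀ y, |A y| ≤ 1 := fun y => by rw [abs_of_nonneg (hA0 y)]; exact hA1 y
  have hD0 : ∀ γ : Gam F, 0 ≤ ∫ y, (A (T γ y) - A y) ^ 2 ∂ν := fun γ =>
    integral_nonneg fun y => sq_nonneg _
  -- the uniform bound
  have key : ∀ γ : Gam F, ∫ y, (A (T γ y) - A y) ^ 2 ∂ν ≤
      (N.factorial : ℝ) ^ 2 * (8 * κ / β ^ 2) := by
    intro γ
    obtain ⟨g, hg⟩ := hF.gam_divisible γ (2 * N.factorial) (by positivity)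
    obtain ⟨l, hl0, hlN, hl⟩ := exists_pair hs B hB hB0 hB1 β hβ hβB N hN g
    have h1 := hs.shift hF M A B hA hB hA0 hA1 hB0 hB1 κ hκ (g ^ l)
    have h2 : ∫ y, (A (T ((g ^ l) ^ 2) y) - A y) ^ 2 ∂ν ≤ 8 * κ / β ^ 2 := by
      rw [le_div_iff₀ hβ2]
      have h3 : β ^ 2 / 2 * ∫ y, (A (T ((g ^ l) ^ 2) y) - A y) ^ 2 ∂ν ≤ 4 * κ :=
        (mul_le_mul_of_nonneg_right hl (hD0 _)).trans h1
      linarith
    obtain ⟨k, hk⟩ := Nat.dvd_factorial hl0 hlN
    have hk1 : k ≤ N.factorial := by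
      rw [hk]
      exact Nat.le_mul_of_pos_left k hl0
    have h3 := int_sq_pow hs A hA hA0 hA1 ((g ^ l) ^ 2) k
    have h4 : ((g ^ l) ^ 2) ^ k = γ := by
      rw [← hg, ← pow_mul, ← pow_mul, hk]
      congr 1
      ring
    rw [h4] at h3
    refine h3.trans ?_
    have h5 : (k : ℝ) ^ 2 ≤ (N.factorial : ℝ) ^ 2 :=
      pow_le_pow_left₀ (by positivity) (by exact_mod_cast hk1) 2
    exact mul_le_mul h5 h2 (hD0 _) (by positivity)
  -- the mean
  have hexp : ∀ γ : Gam F, ∫ y, (A (T γ y) - A y) ^ 2 ∂ν =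
      2 * (∫ y, A y ^ 2 ∂ν) - 2 * ∫ y, A y * A (T γ y) ∂ν := by
    intro γ
    have i1 : Integrable (fun y => A y ^ 2) ν := int_bdd hs (hA.pow_const 2) 1 fun y => by
      rw [abs_of_nonneg (by positivity)]
      exact pow_le_one₀ (hA0 y) (hA1 y)
    have m2 : Measurable (fun y => A (T γ y)) := meas_comp hs γ hA
    have i2 : Integrable (fun y => A (T γ y) ^ 2) ν := int_bdd hs (m2.pow_const 2) 1 fun y => by
      rw [abs_of_nonneg (by positivity)]
      exact pow_le_one₀ (hA0 _) (hA1 _)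
    have i3 : Integrable (fun y => A y * A (T γ y)) ν := int_bdd hs (hA.mul m2) 1 fun y => by
      rw [abs_of_nonneg (mul_nonneg (hA0 _) (hA0 _))]
      exact mul_le_one₀ (hA1 _) (hA0 _) (hA1 _)
    have h5 : (fun y => (A (T γ y) - A y) ^ 2) =
        fun y => (A (T γ y) ^ 2 + A y ^ 2) - 2 * (A y * A (T γ y)) := by
      funext y; ring
    have i4 : Integrable (fun y => A (T γ y) ^ 2 + A y ^ 2) ν := i2.add i1
    rw [h5, integral_sub i4 (i3.const_mul 2), integral_add i2 i1, integral_const_mul,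
      int_comp hs γ (fun y => A y ^ 2) (hA.pow_const 2)]
    ring
  have hbd : Bd (fun γ : Gam F => ∫ y, A y * A (T γ y) ∂ν) := by
    refine ⟨1, fun γ => ?_⟩
    have h1 := norm_integral_le_of_norm_le_const (μ := ν) (f := fun y => A y * A (T γ y)) (C := 1)
      (Filter.Eventually.of_forall fun y => by
        rw [Real.norm_eq_abs, abs_of_nonneg (mul_nonneg (hA0 _) (hA0 _))]
        exact mul_le_one₀ (hA1 _) (hA0 _) (hA1 _))
    simpa using h1
  have hmean : M.val (fun γ => ∫ y, (A (T γ y) - A y) ^ 2 ∂ν) =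
      2 * (∫ y, A y ^ 2 ∂ν) - 2 * (∫ y, A y ∂ν) ^ 2 := by
    have h1 : (fun γ : Gam F => ∫ y, (A (T γ y) - A y) ^ 2 ∂ν) =
        fun γ => (2 * (∫ y, A y ^ 2 ∂ν)) - 2 * ∫ y, A y * A (T γ y) ∂ν := funext hexp
    rw [h1, M.val_sub _ _ (Bd.const _) ((Bd.const 2).mul hbd), M.val_const, M.smul _ _ hbd,
      hs.erg M A A hA hA ⟨1, hAb⟩ ⟨1, hAb⟩]
    ring
  rw [← hmean]
  refine M.val_le _ _ ⟨(N.factorial : ℝ) ^ 2 * (8 * κ / β ^ 2), fun γ => ?_⟩ key
  rw [abs_of_nonneg (hD0 γ)]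
  exact key γ

end Pool.Agent.Lib.P3852C
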