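import Pool.Agent.Lib.P3852C.XA
import Pool.Agent.Lib.P3852C.XB
import Pool.Agent.Lib.P3852C.XCb

/-!
# §8: conclusion

If some `∫ h x₀ > 0`, take `s` from `Sys.near`, `N ≥ 8 / s²`, and `η` so small that
`(N!)² * 8 * (4 s η) / (s/2)² < s/2 - 4 η` and `2 η ≤ s/2`; `a, b` from `near`, `m = √(ab)`;
`Sys.cons` and `Sys.variance` with `A = h m`, `B = h (a-b)`, `β = s/2`:
`2 (s - 2η) - 2 s² ≤ 2∫A² - 2 (∫A)² ≤ (N!)² 8 (4 s η)/β²`, and `2 (s - 2η) - 2 s² ≥ s/2 - 4η`. Contradiction.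
-/

set_option autoImplicit false

namespace Pool.Agent.Lib.P3852C

open MeasureTheory

theorem Sys.zero {F : Subfield ℂ} (hF : GoodField F) {Y : Type} [MeasurableSpace Y]
    {ν : Measure Y} {T : Gam F → Y → Y} {h : ℝ → Y → ℝ} (hs : Sys F Y ν T h)
    (M : IMean (Gam F)) (x : ℝ) (hx : (x : ℂ) ∈ F) (hx0 : 0 < x) : ∫ y, h x y ∂ν = 0 := by
  by_contra hne
  have hpos : 0 < ∫ y, h x y ∂ν :=
    lt_of_le_of_ne (integral_nonneg fun y => hs.nonneg x y) (Ne.symm hne)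
  obtain ⟨s, hs0, hs34, hsup, hnear⟩ := hs.near hF hx hx0 hpos
  obtain ⟨N, hN⟩ := exists_nat_ge (2 / (s / 2) ^ 2)
  set K : ℝ := (N.factorial : ℝ) ^ 2 * 128 / s + 4 with hK
  have hK4 : 4 ≤ K := by
    have : 0 ≤ (N.factorial : ℝ) ^ 2 * 128 / s := by positivity
    linarith
  set η : ℝ := s / (4 * (K + 1)) with hη
  have hKpos : 0 < 4 * (K + 1) := by linarith
  have hη0 : 0 < η := div_pos hs0 hKpos
  have hηK : η * (4 * (K + 1)) = s := div_mul_cancel₀ s hKpos.ne'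
  have hη16 : 16 * η ≤ s := by nlinarith
  have hKη : K * η < s / 2 := by nlinarith
  obtain ⟨a, b, ha, hb, hb0, hba, h1, h2⟩ := hnear η hη0
  have ha0 : 0 < a := hb0.trans hba
  have hab : 0 < a * b := mul_pos ha0 hb0
  have hm0 : 0 < √(a * b) := Real.sqrt_pos.2 hab
  have hmm : √(a * b) ^ 2 = a * b := Real.sq_sqrt hab.le
  have hmF : ((√(a * b) : ℝ) : ℂ) ∈ F := hF.sqrt_mem (by
    push_cast
    exact F.mul_mem ha hb)
  obtain ⟨hB, hA, hM⟩ := hs.cons hF M hs0 hη0 (by linarith) hsup ha hb hmF hb0 hba hm0 hmm h1 h2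
  have hvar := hs.variance hF M (h √(a * b)) (h (a - b)) (hs.meas _) (hs.meas _) (hs.nonneg _)
    (hs.le_one _) (hs.nonneg _) (hs.le_one _) (4 * s * η) hM (s / 2) (by linarith)
    (by linarith) N hN
  have hAs := hsup _ hmF hm0
  have hA0 : 0 ≤ ∫ y, h (√(a * b)) y ∂ν := integral_nonneg fun y => hs.nonneg _ y
  have hAsq : (∫ y, h (√(a * b)) y ∂ν) ^ 2 ≤ s ^ 2 := pow_le_pow_left₀ hA0 hAs 2
  have e1 : (N.factorial : ℝ) ^ 2 * (8 * (4 * s * η) / (s / 2) ^ 2) = (K - 4) * η := by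
    rw [hK]
    field_simp
    ring
  rw [e1] at hvar
  nlinarith

end Pool.Agent.Lib.P3852C
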