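import Pool.Agent.Lib.P3852C.EStart
import Pool.Agent.Lib.P3852C.EMax
import Pool.Agent.Lib.P3852C.EErg
import Pool.Agent.Lib.P3852C.VStar
import Pool.Agent.Lib.P3852C.VKap
import Pool.Agent.Lib.P3852C.XD
import Pool.Agent.Lib.P3852C.MeanEx

/-!
# Theorem A: a wild radial positive definite function vanishes off `0`

Assembly: if `c x₀ ≠ 0`: `exists_start`, `exists_max` (`Φ`, `x ≠ 0`, `gam Φ x > 0`), `bochner` (`Q`),
`erg_of_max`, `exists_kap`; `Sys F (X (ℕ →₀ F)) Q rotX h` with `h x = hh kap ⟨x, _⟩` if `x ∈ F`, else `0`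
(`gam_eq`, `star`, `gam_sq`, `InE.gam_inD`, `InD.le`, `erg_mean`); `Sys.zero` with the real `‖x‖`.
-/

set_option autoImplicit false

namespace Pool.Agent.Lib.P3852C

open MeasureTheory

open Classical in
/-- `h_x` for a real `x`, zero if `x ∉ F` -/
noncomputable def hR {F : Subfield ℂ} (kap : F → X (ℕ →₀ F) → ℂ) (x : ℝ) (θ : X (ℕ →₀ F)) : ℝ :=
  if hx : (x : ℂ) ∈ F then hh kap ⟨x, hx⟩ θ else 0

theorem hR_of_mem {F : Subfield ℂ} (kap : F → X (ℕ →₀ F) → ℂ) {x : ℝ} (hx : (x : ℂ) ∈ F)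
    (θ : X (ℕ →₀ F)) : hR kap x θ = hh kap ⟨x, hx⟩ θ := by
  unfold hR
  rw [dif_pos hx]

theorem sys_of_max {F : Subfield ℂ} (hF : GoodField F) {Φ : (ℕ →₀ F) → ℝ} (h : IsMaxE F Φ)
    (Q : Measure (X (ℕ →₀ F))) [IsProbabilityMeasure Q] (hQ : Rep Q Φ)
    {kap : F → X (ℕ →₀ F) → ℂ} (hk : Kap F Q kap) :
    ∃ h : ℝ → X (ℕ →₀ F) → ℝ, Sys F (X (ℕ →₀ F)) Q rotX h ∧
      ∀ (x : ℝ) (hx : (x : ℂ) ∈ F), ∫ θ, h x θ ∂Q = gam Φ ⟨x, hx⟩ := by
  have hct : Countable F := hF.ctb
  have hE := h.mem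
  have herg := erg_of_max hF h Q hQ
  have hD := InE.gam_inD hF hE
  have hmp : ∀ γ : Gam F, MeasurePreserving (rotX γ : X (ℕ →₀ F) → X (ℕ →₀ F)) Q Q :=
    fun γ => InE.rot_mp hF hE Q hQ γ
  have hint : ∀ (x : ℝ) (hx : (x : ℂ) ∈ F), ∫ θ, hR kap x θ ∂Q = gam Φ ⟨x, hx⟩ := by
    intro x hx
    rw [gam_eq hF hE hQ hk]
    congr 1
    funext θ
    exact hR_of_mem kap hx θ
  refine ⟨hR kap, ⟨inferInstance, hmp, fun γ δ y => rotX_rotX γ δ y, ?_, ?_, ?_, ?_, ?_, ?_, ?_, ?_⟩,
    hint⟩
  · -- T_one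
    intro θ
    apply X.ext
    funext x
    simp [rotX, X.pull]
  · intro x
    unfold hR
    by_cases hx : (x : ℂ) ∈ F
    · simp only [dif_pos hx]
      unfold hh
      exact ((hk.meas _).norm).pow_const 2
    · simp only [dif_neg hx]
      exact measurable_const
  · intro x θ
    unfold hR
    split_ifs
    · exact sq_nonneg _
    · exact le_rfl
  · intro x θ
    unfold hR
    split_ifs
    · unfold hh
      exact pow_le_one₀ (norm_nonneg _) (hk.bdd _ _)
    · exact zero_le_one
  · intro x hx hx0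
    rw [hint x hx]
    refine InD.le hF hD _ ?_
    intro h0
    have := congrArg (Subtype.val) h0
    simp only [ZeroMemClass.coe_zero] at this
    exact hx0.ne' (by exact_mod_cast this)
  · -- erg
    intro M f g hf hg hbf hbg
    obtain ⟨C, hC⟩ := hbf
    obtain ⟨D, hD'⟩ := hbg
    have mf : MemLp (fun θ => ((f θ : ℝ) : ℂ)) 2 Q := by
      refine MemLp.of_bound (Complex.measurable_ofReal.comp hf).aestronglyMeasurable C
        (Filter.Eventually.of_forall fun θ => ?_)
      rw [Complex.norm_real]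
      exact hC θ
    have mg : MemLp (fun θ => ((g θ : ℝ) : ℂ)) 2 Q := by
      refine MemLp.of_bound (Complex.measurable_ofReal.comp hg).aestronglyMeasurable D
        (Filter.Eventually.of_forall fun θ => ?_)
      rw [Complex.norm_real]
      exact hD' θ
    have key := erg_mean hF Q hmp herg M _ _ mf mg
    have e1 : ∀ γ : Gam F, ∫ θ, ((f θ : ℝ) : ℂ) * (starRingEnd ℂ) ((g (rotX γ θ) : ℝ) : ℂ) ∂Q
        = ((∫ θ, f θ * g (rotX γ θ) ∂Q : ℝ) : ℂ) := by
      intro γ
      rw [← integral_complex_ofReal]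
      congr 1
      funext θ
      rw [Complex.conj_ofReal]
      push_cast
      ring
    have hb : Bd fun γ : Gam F => ∫ θ, f θ * g (rotX γ θ) ∂Q := by
      refine ⟨C * D, fun γ => ?_⟩
      have := norm_integral_le_of_norm_le_const (μ := Q) (f := fun θ => f θ * g (rotX γ θ))
        (C := C * D) (Filter.Eventually.of_forall fun θ => by
          rw [Real.norm_eq_abs, abs_mul]
          exact mul_le_mul (hC _) (hD' _) (abs_nonneg _) ((abs_nonneg _).trans (hC θ)))
      simpa using this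
    simp only [e1] at key
    rw [IMean.cval_ofReal M _ hb, integral_complex_ofReal, integral_complex_ofReal,
      Complex.conj_ofReal, ← Complex.ofReal_mul] at key
    exact_mod_cast key
  · -- star
    intro M a b m ha hb hm hb0 hba hm0 hmm
    rw [hint a ha, hint b hb]
    have hab : ((a - b : ℝ) : ℂ) ∈ F := by
      push_cast
      exact F.sub_mem ha hb
    rw [star hF hE hQ herg hk M a b m ha hb hm hmm]
    congr 1
    funext γ
    congr 1
    funext θ
    rw [hR_of_mem kap hm, hR_of_mem kap hab, hR_of_mem kap hm]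
  · -- single
    intro x₀ hx₀ hx0 hz
    rw [hint x₀ hx₀]
    obtain ⟨M⟩ : Nonempty (IMean (Gam F)) := by
      have := hF.gam_countable
      exact exists_imean _
    have hinf := hF.gam_infinite
    have hsq := gam_sq hF hE hQ herg M (⟨x₀, hx₀⟩ : F)
    -- the function vanishes off a finite set
    have hfin : M.val (fun γ : Gam F => gam Φ ((⟨x₀, hx₀⟩ : F) - toF γ * ⟨x₀, hx₀⟩)) = 0 := by
      refine IMean.val_finite M {γ : Gam F | ‖(1 : ℂ) - (γ.1 : ℂ)‖ = 0 ∨ ‖(1 : ℂ) - (γ.1 : ℂ)‖ = 1}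
        ?_ _ ⟨1, fun γ => PD.abs_le hD.pd hD.one _⟩ ?_
      · -- finiteness: γ = 1, or γ + γ⁻¹ = 1
        have hsub : {γ : Gam F | ‖(1 : ℂ) - (γ.1 : ℂ)‖ = 0 ∨ ‖(1 : ℂ) - (γ.1 : ℂ)‖ = 1} ⊆
            (fun γ : Gam F => ((γ.1 : Circle) : ℂ)) ⁻¹'
              (({1} : Set ℂ) ∪ {z : ℂ | z ^ 2 - z + 1 = 0}) := by
          intro γ hγ
          simp only [Set.mem_preimage, Set.mem_union, Set.mem_singleton_iff, Set.mem_ofPred_eq]
          rcases hγ with h0 | h1
          · left
            rw [norm_eq_zero, sub_eq_zero] at h0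
            exact h0.symm
          · right
            have hn : ((γ.1 : Circle) : ℂ) * (starRingEnd ℂ) ((γ.1 : Circle) : ℂ) = 1 := by
              rw [Complex.mul_conj, Complex.normSq_eq_norm_sq, Circle.norm_coe]
              norm_num
            have h2 : ((1 : ℂ) - (γ.1 : ℂ)) * (starRingEnd ℂ) ((1 : ℂ) - (γ.1 : ℂ)) = 1 := by
              rw [Complex.mul_conj, Complex.normSq_eq_norm_sq, h1]
              norm_num
            rw [map_sub, map_one] at h2
            set z : ℂ := ((γ.1 : Circle) : ℂ) with hzdef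
            set w : ℂ := (starRingEnd ℂ) z with hw
            have h3 : z + w = 1 := by linear_combination hn - h2
            have h4 : w = 1 - z := by linear_combination h3
            rw [h4] at hn
            linear_combination -hn
        refine Set.Finite.subset (Set.Finite.preimage ?_ ?_) hsub
        · intro γ _ δ _ hγδ
          exact Subtype.ext (Circle.ext hγδ)
        · refine (Set.finite_singleton _).union ?_
          have : {z : ℂ | z ^ 2 - z + 1 = 0} ⊆
              ((Polynomial.X ^ 2 - Polynomial.X + 1 : Polynomial ℂ).rootSet ℂ) := by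
            intro z hz
            rw [Polynomial.mem_rootSet]
            refine ⟨?_, by simpa using hz⟩
            intro h0
            have := congrArg (fun p : Polynomial ℂ => p.eval 0) h0
            simp at this
          exact (Polynomial.rootSet_finite _ _).subset this
      · intro γ hγ
        simp only [Set.mem_ofPred_eq, not_or] at hγ
        -- the norm of x₀ - γ x₀
        set t : ℝ := ‖(1 : ℂ) - (γ.1 : ℂ)‖ * x₀ with ht
        have htn : ‖(((⟨x₀, hx₀⟩ : F) - toF γ * ⟨x₀, hx₀⟩ : F) : ℂ)‖ = t := by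
          have : (((⟨x₀, hx₀⟩ : F) - toF γ * ⟨x₀, hx₀⟩ : F) : ℂ)
              = ((1 : ℂ) - (γ.1 : ℂ)) * (x₀ : ℂ) := by
            push_cast
            simp only [coe_toF]
            ring
          rw [this, norm_mul, Complex.norm_real, Real.norm_of_nonneg hx0.le]
        have htF : (t : ℂ) ∈ F := by
          rw [← htn]
          exact hF.norm_mem (Subtype.mem _)
        have htpos : 0 < t := by
          apply mul_pos _ hx0
          exact lt_of_le_of_ne (norm_nonneg _) (Ne.symm hγ.1)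
        have htne : t ≠ x₀ := by
          intro he
          apply hγ.2
          have : ‖(1 : ℂ) - (γ.1 : ℂ)‖ * x₀ = 1 * x₀ := by rw [← ht, he, one_mul]
          exact mul_right_cancel₀ hx0.ne' this
        have hz1 := hz t htF htpos htne
        rw [hint t htF] at hz1
        rw [← hz1]
        apply hD.rad
        rw [htn, Complex.norm_real, Real.norm_of_nonneg htpos.le]
    rw [hfin] at hsq
    exact pow_eq_zero_iff (two_ne_zero) |>.mp hsq

theorem theoremA {F : Subfield ℂ} (hF : GoodField F) {c : F → ℝ} (hc : InD F c) (x : F)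
    (hx : x ≠ 0) : c x = 0 := by
  by_contra hne
  have hct : Countable F := hF.ctb
  obtain ⟨Φ₀, hΦ₀, hpos₀⟩ := exists_start hF hc hne
  obtain ⟨Φ, hΦ, y, hy, hpos⟩ := exists_max hF hΦ₀ hx hpos₀
  obtain ⟨Q, hQp, hQ⟩ := bochner Φ hΦ.mem.pd hΦ.mem.one
  obtain ⟨kap, hk⟩ := exists_kap hF hΦ.mem Q hQ
  obtain ⟨h, hs, hint⟩ := sys_of_max hF hΦ Q hQ hk
  obtain ⟨M⟩ : Nonempty (IMean (Gam F)) := by
    have := hF.gam_countable
    exact exists_imean _
  have hn : ((‖(y : ℂ)‖ : ℝ) : ℂ) ∈ F := hF.norm_mem y.2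
  have hn0 : 0 < ‖(y : ℂ)‖ := by
    rw [norm_pos_iff]
    intro h0
    exact hy (Subtype.ext h0)
  have hz := Sys.zero hF hs M ‖(y : ℂ)‖ hn hn0
  rw [hint _ hn] at hz
  have hrad := (InE.gam_inD hF hΦ.mem).rad y ⟨_, hn⟩ (by
    rw [Complex.norm_real, norm_norm])
  rw [hrad, hz] at hpos
  exact lt_irrefl _ hpos

end Pool.Agent.Lib.P3852C
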