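import Pool.Agent.Lib.P3852C.VDefs

/-!
# 7.2
-/

set_option autoImplicit false

namespace Pool.Agent.Lib.P3852C

open MeasureTheory

variable {F : Subfield ℂ}

namespace VCsAux

lemma integrable_of_bdd {Ω : Type} [MeasurableSpace Ω] (Q : Measure Ω) [IsProbabilityMeasure Q]
    {E : Type} [NormedAddCommGroup E] (f : Ω → E) (hm : AEStronglyMeasurable f Q) {C : ℝ}
    (hb : ∀ θ, ‖f θ‖ ≤ C) : Integrable f Q :=
  Integrable.of_bound hm C (Filter.Eventually.of_forall hb)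

lemma norm_sq_integral_le {Ω : Type} [MeasurableSpace Ω] (Q : Measure Ω) [IsProbabilityMeasure Q]
    (f : Ω → ℂ) (hm : Measurable f) {C : ℝ} (hb : ∀ θ, ‖f θ‖ ≤ C) :
    ‖∫ θ, f θ ∂Q‖ ^ 2 ≤ ∫ θ, ‖f θ‖ ^ 2 ∂Q := by
  have h1 : ‖∫ θ, f θ ∂Q‖ ≤ ∫ θ, ‖f θ‖ ∂Q := norm_integral_le_integral_norm _
  have hi : Integrable (fun θ => ‖f θ‖) Q :=
    integrable_of_bdd Q _ hm.norm.aestronglyMeasurable (C := C) (fun θ => by simpa using hb θ)
  have hi2 : Integrable (fun θ => ‖f θ‖ ^ 2) Q :=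
    integrable_of_bdd Q _ (hm.norm.pow_const 2).aestronglyMeasurable (C := C ^ 2) (fun θ => by
      rw [Real.norm_eq_abs, abs_pow, abs_norm]
      exact pow_le_pow_left₀ (norm_nonneg _) (hb θ) 2)
  set m := ∫ θ, ‖f θ‖ ∂Q with hm'
  have h2 : 0 ≤ ∫ θ, (‖f θ‖ - m) ^ 2 ∂Q := integral_nonneg fun θ => sq_nonneg _
  have h3 : ∫ θ, (‖f θ‖ - m) ^ 2 ∂Q = ∫ θ, ‖f θ‖ ^ 2 ∂Q - m ^ 2 := by
    have h4 : ∀ θ, (‖f θ‖ - m) ^ 2 = ‖f θ‖ ^ 2 - 2 * m * ‖f θ‖ + m ^ 2 := fun θ => by ring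
    have e1 : ∫ θ, (‖f θ‖ ^ 2 - 2 * m * ‖f θ‖ + m ^ 2) ∂Q =
        ∫ θ, (‖f θ‖ ^ 2 - 2 * m * ‖f θ‖) ∂Q + ∫ _, m ^ 2 ∂Q :=
      integral_add (hi2.sub (hi.const_mul (2 * m))) (integrable_const _)
    have e2 : ∫ θ, (‖f θ‖ ^ 2 - 2 * m * ‖f θ‖) ∂Q =
        ∫ θ, ‖f θ‖ ^ 2 ∂Q - ∫ θ, 2 * m * ‖f θ‖ ∂Q :=
      integral_sub hi2 (hi.const_mul (2 * m))
    simp_rw [h4]
    rw [e1, e2, integral_const_mul, integral_const, ← hm']
    simp
    ring
  have h5 : ‖∫ θ, f θ ∂Q‖ ^ 2 ≤ m ^ 2 := pow_le_pow_left₀ (norm_nonneg _) h1 2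
  linarith

lemma fixJ_congr (hF : GoodField F) {Φ : (ℕ →₀ F) → ℝ} (h : InE F Φ)
    {Q : Measure (X (ℕ →₀ F))} [IsProbabilityMeasure Q] (hQ : Rep Q Φ)
    (Y : X (ℕ →₀ F) → ℂ) (hY : FixJ Q {0, 1} Y) (ρ ρ' : Equiv.Perm ℕ)
    (h0 : ρ 0 = ρ' 0) (h1 : ρ 1 = ρ' 1) :
    (fun θ => Y (permX ρ' θ)) =ᵐ[Q] fun θ => Y (permX ρ θ) := by
  have hτ : ∀ i ∈ ({0, 1} : Finset ℕ), (ρ⁻¹ * ρ') i = i := by
    intro i hi
    simp only [Finset.mem_insert, Finset.mem_singleton] at hi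
    rcases hi with rfl | rfl
    · rw [Equiv.Perm.mul_apply, ← h0]; simp
    · rw [Equiv.Perm.mul_apply, ← h1]; simp
  have h2 := (h.perm_mp hF Q hQ ρ).quasiMeasurePreserving.ae_eq_comp (hY _ hτ)
  have h3 : (fun θ => Y (permX ρ' θ)) = (fun θ => Y (permX (ρ⁻¹ * ρ') θ)) ∘ permX ρ := by
    funext θ
    simp only [Function.comp]
    rw [permX_comp, mul_inv_cancel_left]
  rw [h3]
  exact h2

/-- a permutation moving two disjoint pairs to `(0, 1), (2, 3)` -/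
lemma exists_perm {a b c d : ℕ} (hab : a ≠ b) (hac : a ≠ c) (had : a ≠ d) (hbc : b ≠ c)
    (hbd : b ≠ d) (hcd : c ≠ d) :
    ∃ π : Equiv.Perm ℕ, π a = 0 ∧ π b = 1 ∧ π c = 2 ∧ π d = 3 := by
  have hp := Equiv.Perm.isMultiplyPretransitive ℕ 4
  have hx : Function.Injective ![a, b, c, d] := by
    intro i j hij
    fin_cases i <;> fin_cases j <;> simp_all
  have hy : Function.Injective ![0, 1, 2, 3] := by
    intro i j hij
    fin_cases i <;> fin_cases j <;> simp_all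
  obtain ⟨g, hg⟩ := MulAction.IsPretransitive.exists_smul_eq (M := Equiv.Perm ℕ)
    (⟨![a, b, c, d], hx⟩ : Fin 4 ↪ ℕ) (⟨![0, 1, 2, 3], hy⟩ : Fin 4 ↪ ℕ)
  refine ⟨g, ?_, ?_, ?_, ?_⟩
  · simpa using DFunLike.congr_fun hg 0
  · simpa using DFunLike.congr_fun hg 1
  · simpa using DFunLike.congr_fun hg 2
  · simpa using DFunLike.congr_fun hg 3

/-- the permutation `(0 2j) (1 2j+1)` -/
def pr (j : ℕ) : Equiv.Perm ℕ := Equiv.swap 0 (2 * j) * Equiv.swap 1 (2 * j + 1)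

lemma pr_zero (j : ℕ) : pr j 0 = 2 * j := by
  unfold pr
  have h : Equiv.swap 1 (2 * j + 1) 0 = 0 :=
    Equiv.swap_apply_of_ne_of_ne (by norm_num) (by omega)
  rw [Equiv.Perm.mul_apply, h, Equiv.swap_apply_left]

lemma pr_one (j : ℕ) : pr j 1 = 2 * j + 1 := by
  unfold pr
  rw [Equiv.Perm.mul_apply, Equiv.swap_apply_left,
    Equiv.swap_apply_of_ne_of_ne (by omega) (by omega)]

lemma pr_1 : pr 1 = Equiv.swap 0 2 * Equiv.swap 1 3 := rfl

lemma cross (hF : GoodField F) {Φ : (ℕ →₀ F) → ℝ} (h : InE F Φ)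
    {Q : Measure (X (ℕ →₀ F))} [IsProbabilityMeasure Q] (hQ : Rep Q Φ)
    (Y : X (ℕ →₀ F) → ℂ) (hY : FixJ Q {0, 1} Y) (hm : Measurable Y) {j k : ℕ} (hjk : j ≠ k) :
    ∫ θ, Y (permX (pr j) θ) * (starRingEnd ℂ) (Y (permX (pr k) θ)) ∂Q =
      ∫ θ, Y θ * (starRingEnd ℂ) (Y (permX (pr 1) θ)) ∂Q := by
  obtain ⟨π, ha, hb, hc, hd⟩ := exists_perm (a := 2 * j) (b := 2 * j + 1) (c := 2 * k)
    (d := 2 * k + 1) (by omega) (by omega) (by omega) (by omega) (by omega) (by omega)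
  have hmp := h.perm_mp hF Q hQ π
  have hmm : ∀ ρ : Equiv.Perm ℕ, Measurable (fun θ => Y (permX ρ θ)) := fun ρ =>
    hm.comp (h.perm_mp hF Q hQ ρ).measurable
  have h1 : ∫ θ, Y (permX (pr j) θ) * (starRingEnd ℂ) (Y (permX (pr k) θ)) ∂Q =
      ∫ θ, Y (permX (pr j) (permX π θ)) * (starRingEnd ℂ) (Y (permX (pr k) (permX π θ))) ∂Q := by
    conv_lhs => rw [← hmp.map_eq]
    rw [integral_map hmp.measurable.aemeasurable]
    exact ((hmm _).mul (Complex.continuous_conj.measurable.comp (hmm _))).aestronglyMeasurable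
  rw [h1]
  refine integral_congr_ae ?_
  have h2 := fixJ_congr hF h hQ Y hY 1 (π * pr j) (by simp [pr_zero, ha]) (by simp [pr_one, hb])
  have h3 := fixJ_congr hF h hQ Y hY (pr 1) (π * pr k) (by simp [pr_zero, hc])
    (by simp [pr_one, hd])
  filter_upwards [h2, h3] with θ h2 h3
  have h4 : permX (1 : Equiv.Perm ℕ) θ = θ := by
    apply X.ext
    funext x
    show θ.fn (Finsupp.mapDomain (1 : Equiv.Perm ℕ) x) = θ.fn x
    rw [Equiv.Perm.coe_one, Finsupp.mapDomain_id]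
  simp only [h4] at h2
  simp only [permX_comp]
  rw [h2, h3]

end VCsAux

open VCsAux in
/-- 7.2: `|∫ Y|² ≤ ∫ Y conj Y'`, `Y' = Y ∘ (0 2)(1 3)`: for distinct pairs,
`|∫ Y|² = |∫ (1/n) ∑ Y_j|² ≤ ∫ |(1/n) ∑ Y_j|² = (1/n) ∫|Y|² + (1 - 1/n) ∫ Y conj Y'`,
`Y_j = Y ∘ permX (swap 0 (2j) * swap 1 (2j+1))`. -/
theorem cs_pair (hF : GoodField F) {Φ : (ℕ →₀ F) → ℝ} (h : InE F Φ)
    {Q : Measure (X (ℕ →₀ F))} [IsProbabilityMeasure Q] (hQ : Rep Q Φ)
    (Y : X (ℕ →₀ F) → ℂ) (hm : Measurable Y) (hb : ∃ C : ℝ, ∀ θ, ‖Y θ‖ ≤ C)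
    (hY : FixJ Q {0, 1} Y) :
    ‖∫ θ, Y θ ∂Q‖ ^ 2 ≤ (∫ θ, Y θ *
      (starRingEnd ℂ) (Y (permX (Equiv.swap 0 2 * Equiv.swap 1 3) θ)) ∂Q).re := by
  obtain ⟨C, hC⟩ := hb
  rw [← pr_1]
  set c : ℂ := ∫ θ, Y θ * (starRingEnd ℂ) (Y (permX (pr 1) θ)) ∂Q with hc
  have hmm : ∀ ρ : Equiv.Perm ℕ, Measurable (fun θ => Y (permX ρ θ)) := fun ρ =>
    hm.comp (h.perm_mp hF Q hQ ρ).measurable
  have hC0 : 0 ≤ C := (norm_nonneg _).trans (hC ⟨fun _ => 1, fun _ _ => by simp⟩)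
  -- the diagonal terms
  have hdiag : ∀ j, ‖∫ θ, Y (permX (pr j) θ) * (starRingEnd ℂ) (Y (permX (pr j) θ)) ∂Q‖ ≤ C ^ 2 := by
    intro j
    refine (norm_integral_le_of_norm_le_const (C := C ^ 2) (Filter.Eventually.of_forall fun θ => ?_)).trans ?_
    · rw [norm_mul, Complex.norm_conj, ← sq]
      exact pow_le_pow_left₀ (norm_nonneg _) (hC _) 2
    · simp
  have hint : ∀ j k, Integrable (fun θ => Y (permX (pr j) θ) * (starRingEnd ℂ) (Y (permX (pr k) θ))) Q := by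
    intro j k
    refine integrable_of_bdd Q _
      ((hmm _).mul (Complex.continuous_conj.measurable.comp (hmm _))).aestronglyMeasurable
      (C := C * C) (fun θ => ?_)
    rw [norm_mul, Complex.norm_conj]
    exact mul_le_mul (hC _) (hC _) (norm_nonneg _) hC0
  have hint1 : ∀ j, Integrable (fun θ => Y (permX (pr j) θ)) Q := fun j =>
    integrable_of_bdd Q _ (hmm _).aestronglyMeasurable (C := C) (fun θ => hC _)
  -- the mean
  have hmean : ∀ j, ∫ θ, Y (permX (pr j) θ) ∂Q = ∫ θ, Y θ ∂Q := by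
    intro j
    have hmp := h.perm_mp hF Q hQ (pr j)
    conv_rhs => rw [← hmp.map_eq]
    rw [integral_map hmp.measurable.aemeasurable hm.aestronglyMeasurable]
  set a : ℝ := ‖∫ θ, Y θ ∂Q‖ ^ 2 with ha
  -- the main inequality
  have hmain : ∀ n : ℕ, (n : ℝ) ^ 2 * a ≤ n * C ^ 2 + n * (n - 1) * c.re := by
    intro n
    have h1 : (n : ℝ) ^ 2 * a = ‖∫ θ, ∑ j ∈ Finset.range n, Y (permX (pr j) θ) ∂Q‖ ^ 2 := by
      rw [integral_finsetSum _ (fun j _ => hint1 j)]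
      simp_rw [hmean]
      rw [Finset.sum_const, Finset.card_range, nsmul_eq_mul, norm_mul, mul_pow, ha]
      simp
    have h2 : ‖∫ θ, ∑ j ∈ Finset.range n, Y (permX (pr j) θ) ∂Q‖ ^ 2 ≤
        ∫ θ, ‖∑ j ∈ Finset.range n, Y (permX (pr j) θ)‖ ^ 2 ∂Q := by
      refine norm_sq_integral_le Q _ (Finset.measurable_fun_sum _ fun j _ => hmm _)
        (C := n * C) (fun θ => ?_)
      refine (norm_sum_le _ _).trans ?_
      refine (Finset.sum_le_sum fun j _ => hC _).trans ?_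
      simp
    have h3 : ∫ θ, ‖∑ j ∈ Finset.range n, Y (permX (pr j) θ)‖ ^ 2 ∂Q =
        (∑ j ∈ Finset.range n, ∑ k ∈ Finset.range n,
          ∫ θ, Y (permX (pr j) θ) * (starRingEnd ℂ) (Y (permX (pr k) θ)) ∂Q).re := by
      have h4 : ∀ θ, ((‖∑ j ∈ Finset.range n, Y (permX (pr j) θ)‖ ^ 2 : ℝ) : ℂ) =
          ∑ j ∈ Finset.range n, ∑ k ∈ Finset.range n,
            Y (permX (pr j) θ) * (starRingEnd ℂ) (Y (permX (pr k) θ)) := by
        intro θ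
        rw [Complex.ofReal_pow, ← Complex.mul_conj', map_sum, Finset.sum_mul_sum]
      have h5 : ((∫ θ, ‖∑ j ∈ Finset.range n, Y (permX (pr j) θ)‖ ^ 2 ∂Q : ℝ) : ℂ) =
          ∑ j ∈ Finset.range n, ∑ k ∈ Finset.range n,
          ∫ θ, Y (permX (pr j) θ) * (starRingEnd ℂ) (Y (permX (pr k) θ)) ∂Q := by
        rw [← integral_complex_ofReal]
        simp_rw [h4]
        rw [integral_finsetSum _ (fun j _ => integrable_finsetSum _ (fun k _ => hint j k))]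
        refine Finset.sum_congr rfl fun j _ => ?_
        rw [integral_finsetSum _ (fun k _ => hint j k)]
      rw [← h5, Complex.ofReal_re]
    have h6 : (∑ j ∈ Finset.range n, ∑ k ∈ Finset.range n,
          ∫ θ, Y (permX (pr j) θ) * (starRingEnd ℂ) (Y (permX (pr k) θ)) ∂Q).re ≤
        n * C ^ 2 + n * (n - 1) * c.re := by
      rw [Complex.re_sum]
      have h7 : ∀ j ∈ Finset.range n, (∑ k ∈ Finset.range n,
          ∫ θ, Y (permX (pr j) θ) * (starRingEnd ℂ) (Y (permX (pr k) θ)) ∂Q).re ≤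
          C ^ 2 + (n - 1) * c.re := by
        intro j hj
        rw [← Finset.add_sum_erase _ _ hj, Complex.add_re]
        refine add_le_add ((Complex.re_le_norm _).trans (hdiag j)) ?_
        rw [Finset.sum_congr rfl (g := fun _ => c) (fun k hk =>
          cross hF h hQ Y hY hm (Finset.ne_of_mem_erase hk).symm)]
        rw [Finset.sum_const, Finset.card_erase_of_mem hj, Finset.card_range, nsmul_eq_mul]
        have hn : 1 ≤ n := by
          have := Finset.mem_range.mp hj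
          omega
        rw [Nat.cast_sub hn]
        simp
      refine (Finset.sum_le_sum h7).trans ?_
      rw [Finset.sum_const, Finset.card_range, nsmul_eq_mul]
      exact le_of_eq (by ring)
    calc (n : ℝ) ^ 2 * a = _ := h1
      _ ≤ _ := h2
      _ = _ := h3
      _ ≤ _ := h6
  by_contra hlt
  push Not at hlt
  obtain ⟨n, hn⟩ := exists_nat_gt ((C ^ 2 + |c.re|) / (a - c.re))
  have hpos : 0 < a - c.re := sub_pos.mpr hlt
  rw [div_lt_iff₀ hpos] at hn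
  have hn0 : (0 : ℝ) < n := by
    rcases Nat.eq_zero_or_pos n with h0 | h0
    · rw [h0] at hn
      simp at hn
      have : 0 ≤ C ^ 2 + |c.re| := by positivity
      linarith
    · exact_mod_cast h0
  have h8 := hmain n
  have h9 : (n : ℝ) * (n * (a - c.re)) ≤ n * (C ^ 2 - c.re) := by nlinarith
  have h10 : (n : ℝ) * (a - c.re) ≤ C ^ 2 - c.re := le_of_mul_le_mul_left h9 hn0
  have h11 := neg_abs_le c.re
  linarith

end Pool.Agent.Lib.P3852C
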