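import Pool.Agent.Lib.P3852C.VRepl
import Pool.Agent.Lib.P3852C.VCs
import Pool.Agent.Lib.P3852C.ErgMean

/-!
# 7.3 and 7.4

`FF x = G_x - |kap x|²`. 7.3: by `cs_pair` (`Y = (FF ∘ rotX μ) conj FF`) and `erg_mean`,
`M_μ |∫ (FF ∘ rotX μ) conj FF|² ≤ |∫ FF conj FF'|²`, `FF' = FF ∘ permX (swap 0 2 * swap 1 3)`, and
`∫ FF conj FF' = ∫ G conj G' - ∫ h² = 0` (`Kap.repl2` twice). Cauchy–Schwarz for `M`.
7.4: `vdC` with `u γ = (FF ∘ rotX γ)(F₁ ∘ rotX γ²)` in `L²(Q)`: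
`⟪u γ, u (γ μ)⟫ = ∫ ((FF ∘ rotX μ) conj FF) ∘ rotX γ · ((F₁ ∘ rotX μ²) conj F₁) ∘ rotX γ²`, whose mean over
`γ` is the product of the integrals (apply `rotX γ⁻¹`, `erg_mean`). For the second statement use 7.3
for the mean `M.comp` (squaring, which is onto by `gam_divisible`).

This file: 7.3.
-/

set_option autoImplicit false

namespace Pool.Agent.Lib.P3852C

open MeasureTheory

variable {F : Subfield ℂ}

/-- `F_x = G_x - |kap x|²` -/
noncomputable def FF (kap : F → X (ℕ →₀ F) → ℂ) (x : F) (θ : X (ℕ →₀ F)) : ℂ :=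
  GG x θ - ((‖kap x θ‖ ^ 2 : ℝ) : ℂ)

namespace VCorrAux

theorem meas_FF {Q : Measure (X (ℕ →₀ F))} {kap : F → X (ℕ →₀ F) → ℂ} (hk : Kap F Q kap) (x : F) :
    Measurable (FF kap x) := by
  have h1 : Measurable (fun θ => GG x θ - ((‖kap x θ‖ ^ 2 : ℝ) : ℂ)) :=
    (measurable_ev _).sub (Complex.measurable_ofReal.comp ((hk.meas x).norm.pow_const 2))
  exact h1

theorem norm_FF {Q : Measure (X (ℕ →₀ F))} {kap : F → X (ℕ →₀ F) → ℂ} (hk : Kap F Q kap) (x : F)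
    (θ : X (ℕ →₀ F)) : ‖FF kap x θ‖ ≤ 2 := by
  unfold FF GG
  refine (norm_sub_le _ _).trans ?_
  rw [norm_ev, Complex.norm_real, Real.norm_of_nonneg (by positivity)]
  have h1 : ‖kap x θ‖ ^ 2 ≤ 1 := pow_le_one₀ (norm_nonneg _) (hk.bdd x θ)
  linarith

theorem GG_perm (π : Equiv.Perm ℕ) (x : F) (θ : X (ℕ →₀ F)) :
    GG x (permX π θ) = ev (Finsupp.single (π 0) x - Finsupp.single (π 1) x : ℕ →₀ F) θ := by
  unfold GG
  rw [ev_permX]
  congr 1
  have h1 := map_sub (Finsupp.mapDomain.addMonoidHom (M := F) π) (Finsupp.single 0 x)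
    (Finsupp.single 1 x)
  simp only [Finsupp.mapDomain.addMonoidHom_apply, Finsupp.mapDomain_single] at h1
  exact h1

theorem fix_FF {Q : Measure (X (ℕ →₀ F))} {kap : F → X (ℕ →₀ F) → ℂ} (hk : Kap F Q kap) (x : F)
    (π : Equiv.Perm ℕ) (h0 : π 0 = 0) (h1 : π 1 = 1) :
    (fun θ => FF kap x (permX π θ)) =ᵐ[Q] FF kap x := by
  have h2 := hk.perm x π (by simp)
  filter_upwards [h2] with θ h3
  have h4 : kap x (permX π θ) = kap x θ := h3
  unfold FF
  rw [GG_perm, h0, h1, h4]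
  rfl

end VCorrAux

open VCorrAux

theorem corr_zero (hF : GoodField F) {Φ : (ℕ →₀ F) → ℝ} (h : InE F Φ)
    {Q : Measure (X (ℕ →₀ F))} [IsProbabilityMeasure Q] (hQ : Rep Q Φ) (hE : ErgQ F Q)
    {kap : F → X (ℕ →₀ F) → ℂ} (hk : Kap F Q kap) (M : IMean (Gam F)) (x : F) :
    M.val (fun μ => ‖∫ θ, FF kap x (rotX μ θ) * (starRingEnd ℂ) (FF kap x θ) ∂Q‖) = 0 := by
  have hctb := hF.ctb
  have hmf := meas_FF hk x
  have hbf := norm_FF hk x
  set f := FF kap x with hf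
  set σ : Equiv.Perm ℕ := Equiv.swap 0 2 * Equiv.swap 1 3 with hσ
  have hσ0 : σ 0 = 2 := by rw [hσ]; decide
  have hσ1 : σ 1 = 3 := by rw [hσ]; decide
  have hmr : ∀ μ : Gam F, Measurable (rotX μ : X (ℕ →₀ F) → X (ℕ →₀ F)) :=
    fun μ => (InE.rot_mp hF h Q hQ μ).measurable
  have hmp : ∀ π : Equiv.Perm ℕ, Measurable (permX π : X (ℕ →₀ F) → X (ℕ →₀ F)) :=
    fun π => (InE.perm_mp hF h Q hQ π).measurable
  -- the function `H`
  set H : X (ℕ →₀ F) → ℂ := fun θ => f θ * (starRingEnd ℂ) (f (permX σ θ)) with hH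
  have hmH : Measurable H := hmf.mul (Complex.continuous_conj.measurable.comp (hmf.comp (hmp σ)))
  have hbH : ∀ θ, ‖H θ‖ ≤ 4 := by
    intro θ
    rw [hH]
    simp only
    rw [norm_mul, RCLike.norm_conj]
    have h1 := hbf θ
    have h2 := hbf (permX σ θ)
    have h3 := norm_nonneg (f θ)
    have h4 := norm_nonneg (f (permX σ θ))
    nlinarith
  -- `∫ H = 0`
  have hH0 : ∫ θ, H θ ∂Q = 0 := by
    have hmZ : Measurable (fun θ => (starRingEnd ℂ) (f (permX σ θ))) :=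
      Complex.continuous_conj.measurable.comp (hmf.comp (hmp σ))
    have hbZ : ∀ θ, ‖(starRingEnd ℂ) (f (permX σ θ))‖ ≤ 2 := by
      intro θ
      rw [RCLike.norm_conj]
      exact hbf _
    have hfix : FixJ Q {2, 3} (fun θ => (starRingEnd ℂ) (f (permX σ θ))) := by
      intro π hπ
      have h2 : π 2 = 2 := hπ 2 (by simp)
      have h3 : π 3 = 3 := hπ 3 (by simp)
      have h4 : (fun θ => f (permX (σ⁻¹ * π * σ) θ)) =ᵐ[Q] f := by
        refine fix_FF hk x _ ?_ ?_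
        · rw [Equiv.Perm.mul_apply, Equiv.Perm.mul_apply, hσ0, h2, Equiv.Perm.inv_eq_iff_eq, hσ0]
        · rw [Equiv.Perm.mul_apply, Equiv.Perm.mul_apply, hσ1, h3, Equiv.Perm.inv_eq_iff_eq, hσ1]
      have h5 := (InE.perm_mp hF h Q hQ σ).quasiMeasurePreserving.ae_eq_comp h4
      filter_upwards [h5] with θ h6
      have h7 : f (permX (σ⁻¹ * π * σ) (permX σ θ)) = f (permX σ θ) := h6
      rw [permX_comp] at h7
      have h8 : σ * (σ⁻¹ * π * σ) = π * σ := by group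
      rw [h8] at h7
      rw [permX_comp, h7]
    have h1 := Kap.repl2 hF h hQ hk {2, 3} (by simp) (by simp)
      (fun θ => (starRingEnd ℂ) (f (permX σ θ))) hmZ ⟨2, hbZ⟩ hfix x
    have hi1 : Integrable (fun θ => (starRingEnd ℂ) (f (permX σ θ)) * GG x θ) Q := by
      refine Integrable.of_bound (hmZ.mul (measurable_ev _)).aestronglyMeasurable 2
        (Filter.Eventually.of_forall fun θ => ?_)
      rw [norm_mul]
      unfold GG
      rw [norm_ev, mul_one]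
      exact hbZ θ
    have hi2 : Integrable (fun θ => (starRingEnd ℂ) (f (permX σ θ)) *
        ((‖kap x θ‖ ^ 2 : ℝ) : ℂ)) Q := by
      refine Integrable.of_bound (hmZ.mul (Complex.measurable_ofReal.comp
        ((hk.meas x).norm.pow_const 2))).aestronglyMeasurable 2
        (Filter.Eventually.of_forall fun θ => ?_)
      rw [norm_mul, Complex.norm_real, Real.norm_of_nonneg (by positivity)]
      have h1 : ‖kap x θ‖ ^ 2 ≤ 1 := pow_le_one₀ (norm_nonneg _) (hk.bdd x θ)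
      have h2 := hbZ θ
      have h3 := norm_nonneg ((starRingEnd ℂ) (f (permX σ θ)))
      have h4 : 0 ≤ ‖kap x θ‖ ^ 2 := by positivity
      nlinarith
    have h2 : ∫ θ, H θ ∂Q = ∫ θ, ((starRingEnd ℂ) (f (permX σ θ)) * GG x θ -
        (starRingEnd ℂ) (f (permX σ θ)) * ((‖kap x θ‖ ^ 2 : ℝ) : ℂ)) ∂Q := by
      refine integral_congr_ae (Filter.Eventually.of_forall fun θ => ?_)
      show f θ * (starRingEnd ℂ) (f (permX σ θ)) = _
      have h3 : f θ = GG x θ - ((‖kap x θ‖ ^ 2 : ℝ) : ℂ) := rfl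
      rw [h3]
      ring
    rw [h2, integral_sub hi1 hi2, h1, sub_self]
  -- the mean of the correlations of `H`
  have hLH : MemLp H 2 Q := MemLp.of_bound hmH.aestronglyMeasurable 4
    (Filter.Eventually.of_forall hbH)
  have hE1 := erg_mean hF Q (fun γ => InE.rot_mp hF h Q hQ γ) hE M H H hLH hLH
  rw [hH0, zero_mul] at hE1
  have hE2 : M.val (fun γ => (∫ θ, H θ * (starRingEnd ℂ) (H (rotX γ θ)) ∂Q).re) = 0 :=
    congrArg Complex.re hE1
  -- the correlations of `f`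
  set Y : Gam F → X (ℕ →₀ F) → ℂ := fun μ θ => f (rotX μ θ) * (starRingEnd ℂ) (f θ) with hY
  have hmY : ∀ μ, Measurable (Y μ) := fun μ =>
    (hmf.comp (hmr μ)).mul (Complex.continuous_conj.measurable.comp hmf)
  have hbY : ∀ μ θ, ‖Y μ θ‖ ≤ 4 := by
    intro μ θ
    rw [hY]
    simp only
    rw [norm_mul, RCLike.norm_conj]
    have h1 := hbf θ
    have h2 := hbf (rotX μ θ)
    have h3 := norm_nonneg (f θ)
    have h4 := norm_nonneg (f (rotX μ θ))
    nlinarith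
  have hfY : ∀ μ, FixJ Q {0, 1} (Y μ) := by
    intro μ π hπ
    have h2 : π 0 = 0 := hπ 0 (by simp)
    have h3 : π 1 = 1 := hπ 1 (by simp)
    have h4 := fix_FF hk x π h2 h3
    have h5 := (InE.rot_mp hF h Q hQ μ).quasiMeasurePreserving.ae_eq_comp h4
    filter_upwards [h4, h5] with θ h6 h7
    have h8 : f (permX π (rotX μ θ)) = f (rotX μ θ) := h7
    show f (rotX μ (permX π θ)) * (starRingEnd ℂ) (f (permX π θ)) =
      f (rotX μ θ) * (starRingEnd ℂ) (f θ)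
    rw [← permX_rotX, h8]
    have h9 : f (permX π θ) = f θ := h6
    rw [h9]
  have key : ∀ μ : Gam F, ‖∫ θ, Y μ θ ∂Q‖ ^ 2 ≤
      (∫ θ, H θ * (starRingEnd ℂ) (H (rotX μ θ)) ∂Q).re := by
    intro μ
    refine (cs_pair hF h hQ (Y μ) (hmY μ) ⟨4, hbY μ⟩ (hfY μ)).trans (le_of_eq ?_)
    have h1 : ∫ θ, Y μ θ * (starRingEnd ℂ) (Y μ (permX (Equiv.swap 0 2 * Equiv.swap 1 3) θ)) ∂Q =
        ∫ θ, (starRingEnd ℂ) (H θ * (starRingEnd ℂ) (H (rotX μ θ))) ∂Q := by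
      refine integral_congr_ae (Filter.Eventually.of_forall fun θ => ?_)
      show f (rotX μ θ) * (starRingEnd ℂ) (f θ) * (starRingEnd ℂ)
        (f (rotX μ (permX σ θ)) * (starRingEnd ℂ) (f (permX σ θ))) =
        (starRingEnd ℂ) (f θ * (starRingEnd ℂ) (f (permX σ θ)) * (starRingEnd ℂ)
          (f (rotX μ θ) * (starRingEnd ℂ) (f (permX σ (rotX μ θ)))))
      rw [permX_rotX]
      simp only [map_mul, Complex.conj_conj]
      ring
    rw [h1, integral_conj, Complex.conj_re]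
  -- conclusion
  have hnI : ∀ (g : X (ℕ →₀ F) → ℂ) (C : ℝ), (∀ θ, ‖g θ‖ ≤ C) → ‖∫ θ, g θ ∂Q‖ ≤ C := by
    intro g C hg
    have h1 := norm_integral_le_of_norm_le_const (μ := Q) (f := g)
      (Filter.Eventually.of_forall hg)
    simpa using h1
  have hB1 : Bd (fun μ : Gam F => ‖∫ θ, Y μ θ ∂Q‖) := by
    refine ⟨4, fun μ => ?_⟩
    rw [abs_of_nonneg (norm_nonneg _)]
    exact hnI _ _ (hbY μ)
  have hB2 : Bd (fun μ : Gam F => (∫ θ, H θ * (starRingEnd ℂ) (H (rotX μ θ)) ∂Q).re) := by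
    refine ⟨16, fun μ => ?_⟩
    refine (Complex.abs_re_le_norm _).trans (hnI _ _ fun θ => ?_)
    rw [norm_mul, RCLike.norm_conj]
    have h1 := hbH θ
    have h2 := hbH (rotX μ θ)
    have h3 := norm_nonneg (H θ)
    have h4 := norm_nonneg (H (rotX μ θ))
    nlinarith
  have hB3 : Bd (fun μ : Gam F => ‖∫ θ, Y μ θ ∂Q‖ ^ 2) := by
    refine ⟨16, fun μ => ?_⟩
    have h1 := hnI _ _ (hbY μ)
    have h2 := norm_nonneg (∫ θ, Y μ θ ∂Q)
    rw [abs_of_nonneg (by positivity)]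
    nlinarith
  have h1 : M.val (fun μ : Gam F => ‖∫ θ, Y μ θ ∂Q‖ ^ 2) ≤ 0 :=
    (M.mono _ _ hB3 hB2 key).trans (le_of_eq hE2)
  have h2 := M.sq_le (fun _ => 1) (fun μ : Gam F => ‖∫ θ, Y μ θ ∂Q‖) (Bd.const 1) hB1
  simp only [one_mul, one_pow] at h2
  rw [M.one, one_mul] at h2
  have h3 : M.val (fun μ : Gam F => ‖∫ θ, Y μ θ ∂Q‖) ^ 2 ≤ 0 := h2.trans h1
  have h4 : M.val (fun μ : Gam F => ‖∫ θ, Y μ θ ∂Q‖) = 0 := by
    have h5 := sq_nonneg (M.val (fun μ : Gam F => ‖∫ θ, Y μ θ ∂Q‖))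
    exact pow_eq_zero_iff (n := 2) (by norm_num) |>.1 (le_antisymm h3 h5)
  exact h4


end Pool.Agent.Lib.P3852C
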