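import Pool.Agent.Lib.P3852C.EInv

/-!
# §7: definitions
-/

set_option autoImplicit false

namespace Pool.Agent.Lib.P3852C

open MeasureTheory

variable {F : Subfield ℂ}

/-- `Z` depends (a.e.) only on the coordinates in `J` and on the exchangeable part -/
def FixJ (Q : Measure (X (ℕ →₀ F))) (J : Finset ℕ) (Z : X (ℕ →₀ F) → ℂ) : Prop :=
  ∀ π : Equiv.Perm ℕ, (∀ i ∈ J, π i = i) → (fun θ => Z (permX π θ)) =ᵐ[Q] Z

/-- the properties of the empirical characters -/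
structure Kap (F : Subfield ℂ) (Q : Measure (X (ℕ →₀ F))) (kap : F → X (ℕ →₀ F) → ℂ) : Prop where
  meas : ∀ x, Measurable (kap x)
  bdd : ∀ x θ, ‖kap x θ‖ ≤ 1
  perm : ∀ x, FixJ Q ∅ (kap x)
  rot : ∀ (x : F) (γ : Gam F), (fun θ => kap x (rotX γ θ)) =ᵐ[Q] kap (toF γ * x)
  repl : ∀ (J : Finset ℕ) (Z : X (ℕ →₀ F) → ℂ), Measurable Z → (∃ C : ℝ, ∀ θ, ‖Z θ‖ ≤ C) →
    FixJ Q J Z → ∀ i ∉ J, ∀ x : F,
      ∫ θ, Z θ * ev (Finsupp.single i x) θ ∂Q = ∫ θ, Z θ * kap x θ ∂Q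

/-- `G_x = ψ_0(x) conj ψ_1(x)` -/
noncomputable def GG (x : F) (θ : X (ℕ →₀ F)) : ℂ :=
  ev (Finsupp.single 0 x - Finsupp.single 1 x : ℕ →₀ F) θ

end Pool.Agent.Lib.P3852C
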