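import Pool.Agent.Lib.P3852C.VDefs

/-!
# 7.1: the replacement of `G_x`
-/

set_option autoImplicit false

namespace Pool.Agent.Lib.P3852C

open MeasureTheory

variable {F : Subfield ℂ}

/-- `∫ Z G_x = ∫ Z |kap x|²` (two replacements; `ev (-x δ_1) = conj (ev (x δ_1))`: apply `repl` to the
conjugates). -/
theorem Kap.repl2 (hF : GoodField F) {Φ : (ℕ →₀ F) → ℝ} (h : InE F Φ)
    {Q : Measure (X (ℕ →₀ F))} [IsProbabilityMeasure Q] (hQ : Rep Q Φ)
    {kap : F → X (ℕ →₀ F) → ℂ} (hk : Kap F Q kap) (J : Finset ℕ) (hJ0 : 0 ∉ J) (hJ1 : 1 ∉ J)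
    (Z : X (ℕ →₀ F) → ℂ) (hm : Measurable Z) (hb : ∃ C : ℝ, ∀ θ, ‖Z θ‖ ≤ C) (hZ : FixJ Q J Z)
    (x : F) : ∫ θ, Z θ * GG x θ ∂Q = ∫ θ, Z θ * ((‖kap x θ‖ ^ 2 : ℝ) : ℂ) ∂Q := by
  obtain ⟨C, hC⟩ := hb
  set c : X (ℕ →₀ F) → ℂ := fun θ => (starRingEnd ℂ) (ev (Finsupp.single 1 x : ℕ →₀ F) θ) with hc
  have hcm : Measurable c := Complex.continuous_conj.measurable.comp (measurable_ev _)
  have hcn : ∀ θ, ‖c θ‖ = 1 := fun θ => by
    rw [hc]
    dsimp only
    rw [RCLike.norm_conj, norm_ev]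
  -- first replacement
  have h1 : ∫ θ, Z θ * GG x θ ∂Q =
      ∫ θ, (Z θ * c θ) * ev (Finsupp.single 0 x : ℕ →₀ F) θ ∂Q := by
    refine integral_congr_ae (Filter.Eventually.of_forall fun θ => ?_)
    dsimp only
    unfold GG
    rw [ev_sub, hc]
    ring
  have hfix1 : FixJ Q (insert 1 J) (fun θ => Z θ * c θ) := by
    intro π hπ
    have a1 := hZ π fun i hi => hπ i (Finset.mem_insert_of_mem hi)
    have a2 : π 1 = 1 := hπ 1 (Finset.mem_insert_self _ _)
    filter_upwards [a1] with θ hθ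
    rw [hθ]
    congr 1
    rw [hc]
    dsimp only
    rw [ev_permX, Finsupp.mapDomain_single, a2]
  have h2 := hk.repl (insert 1 J) (fun θ => Z θ * c θ) (hm.mul hcm)
    ⟨C, fun θ => by rw [norm_mul, hcn, mul_one]; exact hC θ⟩ hfix1 0
    (by
      rw [Finset.mem_insert, not_or]
      exact ⟨by norm_num, hJ0⟩) x
  -- second replacement
  have hfix2 : FixJ Q J (fun θ => (starRingEnd ℂ) (Z θ * kap x θ)) := by
    intro π hπ
    have a1 := hZ π hπ
    have a2 := hk.perm x π (fun i hi => absurd hi (Finset.notMem_empty i))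
    filter_upwards [a1, a2] with θ b1 b2
    rw [b1, b2]
  have h3 := hk.repl J (fun θ => (starRingEnd ℂ) (Z θ * kap x θ))
    (Complex.continuous_conj.measurable.comp (hm.mul (hk.meas x)))
    ⟨C, fun θ => by
      rw [RCLike.norm_conj, norm_mul]
      calc ‖Z θ‖ * ‖kap x θ‖ ≤ ‖Z θ‖ * 1 :=
            mul_le_mul_of_nonneg_left (hk.bdd x θ) (norm_nonneg _)
        _ ≤ C := by rw [mul_one]; exact hC θ⟩ hfix2 1 hJ1 x
  have h4 := congrArg (starRingEnd ℂ) h3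
  rw [← integral_conj, ← integral_conj] at h4
  rw [h1, h2]
  calc ∫ θ, Z θ * c θ * kap x θ ∂Q
      = ∫ θ, (starRingEnd ℂ) ((starRingEnd ℂ) (Z θ * kap x θ) *
          ev (Finsupp.single 1 x : ℕ →₀ F) θ) ∂Q := by
        refine integral_congr_ae (Filter.Eventually.of_forall fun θ => ?_)
        dsimp only
        rw [map_mul, Complex.conj_conj, hc]
        ring
    _ = ∫ θ, (starRingEnd ℂ) ((starRingEnd ℂ) (Z θ * kap x θ) * kap x θ) ∂Q := h4
    _ = ∫ θ, Z θ * ((‖kap x θ‖ ^ 2 : ℝ) : ℂ) ∂Q := by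
        refine integral_congr_ae (Filter.Eventually.of_forall fun θ => ?_)
        dsimp only
        rw [map_mul, Complex.conj_conj, mul_assoc, Complex.mul_conj, Complex.normSq_eq_norm_sq]

end Pool.Agent.Lib.P3852C
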