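import Pool.Agent.Lib.P3852C.MeanBasic

/-!
# 1.4: van der Corput for invariant means

Proof. For `h 1, ..., h n`: `|M⟪v, u_g⟫|² = |M_g ⟪v, (1/n) ∑ u_{g h_i}⟫|² ≤ ‖v‖² n⁻² ∑_{i,j} M_g ⟪u_{g h_i}, u_{g h_j}⟫`
`= ‖v‖² n⁻² ∑_{i,j} b (h_i⁻¹ h_j)`-type terms, `b h = M_g ⟪u_g, u_{g h}⟫` (substitute `g ↦ g h_i⁻¹`; the group is
commutative; `b (h⁻¹) = conj (b h)`). Choose `h 1, h 2, ...` inductively with `|b (h_i⁻¹ h_j)| ≤ ε` for `i < j`:
since `M|b| = 0`, a finite sum of translates of `|b|` has mean `0`, so it is `≤ ε` somewhere.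
-/

set_option autoImplicit false

namespace Pool.Agent.Lib.P3852C

namespace VdCAux

variable {G : Type} [CommGroup G]

theorem cval_mul_right (M : IMean G) (h : G) (f : G → ℂ) (hf : ∃ C, ∀ x, ‖f x‖ ≤ C) :
    M.cval (fun x => f (x * h)) = M.cval f := by
  have h1 := M.cval_inv h f hf
  have h2 : (fun x => f (x * h)) = fun x => f (h * x) := by
    funext x
    rw [mul_comm]
  rw [h2, h1]

theorem val_mul_left (M : IMean G) (h : G) (f : G → ℝ) (hf : Bd f) :
    M.val (fun x => f (h * x)) = M.val f := M.inv h f hf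

variable {H : Type} [NormedAddCommGroup H] [InnerProductSpace ℂ H]

theorem bdd_inner (u : G → H) {C : ℝ} (hC : 0 ≤ C) (hu : ∀ g, ‖u g‖ ≤ C) (a b : G) :
    ∃ D : ℝ, ∀ x, ‖inner ℂ (u (x * a)) (u (x * b))‖ ≤ D :=
  ⟨C * C, fun x => (norm_inner_le_norm _ _).trans
    (mul_le_mul (hu _) (hu _) (norm_nonneg _) hC)⟩

theorem bdd_inner' (u : G → H) {C : ℝ} (hC : 0 ≤ C) (hu : ∀ g, ‖u g‖ ≤ C) (b : G) :
    ∀ x, ‖inner ℂ (u x) (u (x * b))‖ ≤ C * C := fun _ => (norm_inner_le_norm _ _).trans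
    (mul_le_mul (hu _) (hu _) (norm_nonneg _) hC)

/-- the correlation function -/
noncomputable def cor (M : IMean G) (u : G → H) (h : G) : ℂ := M.cval (fun g => inner ℂ (u g) (u (g * h)))

theorem cor_eq (M : IMean G) (u : G → H) {C : ℝ} (hC : 0 ≤ C) (hu : ∀ g, ‖u g‖ ≤ C) (a b : G) :
    M.cval (fun g => inner ℂ (u (g * a)) (u (g * b))) = cor M u (a⁻¹ * b) := by
  have h1 := cval_mul_right M a (fun g => inner ℂ (u g) (u (g * (a⁻¹ * b)))) ⟨_, bdd_inner' u hC hu _⟩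
  rw [cor, ← h1]
  congr 1
  funext g
  rw [mul_assoc, mul_inv_cancel_left]

theorem cor_inv (M : IMean G) (u : G → H) {C : ℝ} (hC : 0 ≤ C) (hu : ∀ g, ‖u g‖ ≤ C) (h : G) :
    cor M u h⁻¹ = (starRingEnd ℂ) (cor M u h) := by
  have h1 := cor_eq M u hC hu h 1
  rw [mul_one] at h1
  rw [← h1, cor, ← M.cval_conj _ ⟨_, bdd_inner' u hC hu h⟩]
  congr 1
  funext g
  rw [mul_one, inner_conj_symm]

theorem norm_cor_le (M : IMean G) (u : G → H) {C : ℝ} (hC : 0 ≤ C) (hu : ∀ g, ‖u g‖ ≤ C) (h : G) :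
    ‖cor M u h‖ ≤ C * C := by
  refine (M.norm_cval_le _ ⟨_, bdd_inner' u hC hu h⟩).trans ?_
  refine M.val_le _ _ ⟨C * C, fun x => ?_⟩ (bdd_inner' u hC hu h)
  rw [abs_norm]
  exact bdd_inner' u hC hu h x

theorem bd_cor (M : IMean G) (u : G → H) {C : ℝ} (hC : 0 ≤ C) (hu : ∀ g, ‖u g‖ ≤ C) :
    Bd (fun h => ‖cor M u h‖) :=
  ⟨C * C, fun h => by rw [abs_norm]; exact norm_cor_le M u hC hu h⟩

theorem exists_next (M : IMean G) (u : G → H) {C : ℝ} (hC : 0 ≤ C) (hu : ∀ g, ‖u g‖ ≤ C)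
    (hb : M.val (fun h => ‖cor M u h‖) = 0) (f : ℕ → G) (n : ℕ) (ε : ℝ) (hε : 0 < ε) :
    ∃ h, ∀ i < n, ‖cor M u ((f i)⁻¹ * h)‖ ≤ ε := by
  by_contra hcon
  push Not at hcon
  have h0 : ∀ i ∈ Finset.range n, Bd (fun h => ‖cor M u ((f i)⁻¹ * h)‖) :=
    fun i _ => (bd_cor M u hC hu).comp (fun h => (f i)⁻¹ * h)
  have h1 : M.val (fun h => ∑ i ∈ Finset.range n, ‖cor M u ((f i)⁻¹ * h)‖) = 0 := by
    rw [M.val_sum _ (fun i h => ‖cor M u ((f i)⁻¹ * h)‖) h0]
    refine Finset.sum_eq_zero fun i _ => ?_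
    rw [val_mul_left M (f i)⁻¹ (fun h => ‖cor M u h‖) (bd_cor M u hC hu), hb]
  have h2 : Bd (fun h => ∑ i ∈ Finset.range n, ‖cor M u ((f i)⁻¹ * h)‖) := by
    refine ⟨∑ i ∈ Finset.range n, C * C, fun h => ?_⟩
    rw [abs_of_nonneg (Finset.sum_nonneg fun i _ => norm_nonneg _)]
    exact Finset.sum_le_sum fun i _ => norm_cor_le M u hC hu _
  have h3 := M.le_val _ ε h2 (fun h => by
    obtain ⟨i, hi, hlt⟩ := hcon h
    refine hlt.le.trans ?_
    exact Finset.single_le_sum (f := fun i => ‖cor M u ((f i)⁻¹ * h)‖) (fun i _ => norm_nonneg _)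
      (Finset.mem_range.2 hi))
  rw [h1] at h3
  linarith

theorem exists_seq (M : IMean G) (u : G → H) {C : ℝ} (hC : 0 ≤ C) (hu : ∀ g, ‖u g‖ ≤ C)
    (hb : M.val (fun h => ‖cor M u h‖) = 0) (ε : ℝ) (hε : 0 < ε) (n : ℕ) :
    ∃ f : ℕ → G, ∀ i < n, ∀ j < n, i ≠ j → ‖cor M u ((f i)⁻¹ * f j)‖ ≤ ε := by
  induction n with
  | zero => exact ⟨fun _ => 1, fun i hi => absurd hi (Nat.not_lt_zero i)⟩
  | succ n ih =>
    obtain ⟨f, hf⟩ := ih
    obtain ⟨h, hh⟩ := exists_next M u hC hu hb f n ε hε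
    refine ⟨Function.update f n h, fun i hi j hj hij => ?_⟩
    rcases Nat.lt_succ_iff_lt_or_eq.1 hi with hi' | rfl
    · rcases Nat.lt_succ_iff_lt_or_eq.1 hj with hj' | rfl
      · rw [Function.update_of_ne hi'.ne, Function.update_of_ne hj'.ne]
        exact hf i hi' j hj' hij
      · rw [Function.update_self, Function.update_of_ne hi'.ne]
        exact hh i hi'
    · rcases Nat.lt_succ_iff_lt_or_eq.1 hj with hj' | rfl
      · rw [Function.update_self, Function.update_of_ne hj'.ne]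
        have h1 := cor_inv M u hC hu ((f j)⁻¹ * h)
        rw [mul_inv_rev, inv_inv] at h1
        rw [h1, RCLike.norm_conj]
        exact hh j hj'
      · exact absurd rfl hij

theorem norm_sq_sum (w : ℕ → H) (n : ℕ) :
    ‖∑ i ∈ Finset.range n, w i‖ ^ 2 =
      (∑ i ∈ Finset.range n, ∑ j ∈ Finset.range n, inner ℂ (w i) (w j)).re := by
  have h : inner ℂ (∑ i ∈ Finset.range n, w i) (∑ i ∈ Finset.range n, w i) =
      ∑ i ∈ Finset.range n, ∑ j ∈ Finset.range n, (inner ℂ (w i) (w j) : ℂ) := by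
    rw [sum_inner]
    exact Finset.sum_congr rfl fun i _ => inner_sum _ _ _
  rw [← inner_self_eq_norm_sq (𝕜 := ℂ), h]
  rfl

theorem main_est (M : IMean G) (u : G → H) {C : ℝ} (hC : 0 ≤ C) (hu : ∀ g, ‖u g‖ ≤ C)
    (hb : M.val (fun h => ‖cor M u h‖) = 0) (v : H) (ε : ℝ) (hε : 0 < ε) (n : ℕ) (hn : 0 < n) :
    ‖M.cval (fun g => inner ℂ v (u g))‖ ^ 2 ≤ ‖v‖ ^ 2 * (C * C / n + ε) := by
  obtain ⟨f, hf⟩ := exists_seq M u hC hu hb ε hε n
  have hn0 : (0 : ℝ) < n := Nat.cast_pos.2 hn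
  set w : G → H := fun g => ∑ i ∈ Finset.range n, u (g * f i) with hw
  have hwb : ∀ g, ‖w g‖ ≤ n * C := by
    intro g
    show ‖∑ i ∈ Finset.range n, u (g * f i)‖ ≤ n * C
    refine (norm_sum_le _ _).trans ?_
    refine (Finset.sum_le_sum (g := fun _ => C) fun i _ => hu (g * f i)).trans ?_
    rw [Finset.sum_const, Finset.card_range, nsmul_eq_mul]
  -- the mean of the sum
  have hbv : ∀ g, ‖(inner ℂ v (u g) : ℂ)‖ ≤ ‖v‖ * C := fun g =>
    (norm_inner_le_norm _ _).trans (mul_le_mul_of_nonneg_left (hu g) (norm_nonneg _))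
  have h1 : M.cval (fun g => inner ℂ v (w g)) = n * M.cval (fun g => inner ℂ v (u g)) := by
    have h2 : (fun g => (inner ℂ v (w g) : ℂ)) =
        fun g => ∑ i ∈ Finset.range n, (inner ℂ v (u (g * f i)) : ℂ) := by
      funext g
      rw [hw, inner_sum]
    rw [h2, M.cval_sum _ (fun i g => (inner ℂ v (u (g * f i)) : ℂ)) (fun i _ => ⟨_, fun x => hbv _⟩)]
    have h3 : ∀ i ∈ Finset.range n, M.cval (fun g => (inner ℂ v (u (g * f i)) : ℂ)) =
        M.cval (fun g => inner ℂ v (u g)) := fun i _ =>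
      cval_mul_right M (f i) (fun g => inner ℂ v (u g)) ⟨_, hbv⟩
    rw [Finset.sum_congr rfl h3, Finset.sum_const, Finset.card_range, nsmul_eq_mul]
  have h2 : ‖M.cval (fun g => inner ℂ v (w g))‖ ≤ M.val (fun g => ‖v‖ * ‖w g‖) := by
    refine (M.norm_cval_le _ ⟨‖v‖ * (n * C), fun g => (norm_inner_le_norm _ _).trans
      (mul_le_mul_of_nonneg_left (hwb g) (norm_nonneg _))⟩).trans ?_
    refine M.mono _ _ ⟨‖v‖ * (n * C), fun g => ?_⟩ ⟨‖v‖ * (n * C), fun g => ?_⟩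
      (fun g => norm_inner_le_norm _ _)
    · rw [abs_norm]
      exact (norm_inner_le_norm _ _).trans (mul_le_mul_of_nonneg_left (hwb g) (norm_nonneg _))
    · rw [abs_of_nonneg (by positivity)]
      exact mul_le_mul_of_nonneg_left (hwb g) (norm_nonneg _)
  have h3 : (M.val (fun g => ‖v‖ * ‖w g‖)) ^ 2 ≤ ‖v‖ ^ 2 * M.val (fun g => ‖w g‖ ^ 2) := by
    have h4 := M.sq_le (fun _ => ‖v‖) (fun g => ‖w g‖) (Bd.const _)
      ⟨n * C, fun g => by rw [abs_norm]; exact hwb g⟩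
    rwa [M.val_const] at h4
  have h4 : M.val (fun g => ‖w g‖ ^ 2) ≤ n * (C * C) + n * n * ε := by
    have h5 : (fun g => (((‖w g‖ ^ 2 : ℝ) : ℂ)).re) = fun g => ‖w g‖ ^ 2 := by
      funext g; exact Complex.ofReal_re _
    have h6 : M.val (fun g => ‖w g‖ ^ 2) =
        (∑ i ∈ Finset.range n, ∑ j ∈ Finset.range n, cor M u ((f i)⁻¹ * f j)).re := by
      have h7 : (∑ i ∈ Finset.range n, ∑ j ∈ Finset.range n, cor M u ((f i)⁻¹ * f j)) =
          M.cval (fun g => ∑ i ∈ Finset.range n, ∑ j ∈ Finset.range n,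
            (inner ℂ (u (g * f i)) (u (g * f j)) : ℂ)) := by
        rw [M.cval_sum _ (fun i g => ∑ j ∈ Finset.range n, (inner ℂ (u (g * f i)) (u (g * f j)) : ℂ))
          (fun i _ => ⟨∑ j ∈ Finset.range n, C * C, fun x => (norm_sum_le _ _).trans
            (Finset.sum_le_sum fun j _ => (norm_inner_le_norm _ _).trans
              (mul_le_mul (hu _) (hu _) (norm_nonneg _) hC))⟩)]
        refine Finset.sum_congr rfl fun i _ => ?_
        rw [M.cval_sum _ (fun j g => (inner ℂ (u (g * f i)) (u (g * f j)) : ℂ))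
          (fun j _ => bdd_inner u hC hu _ _)]
        exact Finset.sum_congr rfl fun j _ => (cor_eq M u hC hu _ _).symm
      rw [h7]
      show _ = M.val _
      congr 1
      funext g
      exact norm_sq_sum (fun i => u (g * f i)) n
    rw [h6, Complex.re_sum]
    have h8 : ∀ i ∈ Finset.range n, (∑ j ∈ Finset.range n, cor M u ((f i)⁻¹ * f j)).re ≤
        C * C + n * ε := by
      intro i hi
      rw [Complex.re_sum, ← Finset.add_sum_erase _ _ hi]
      refine add_le_add ((Complex.re_le_norm _).trans (norm_cor_le M u hC hu _)) ?_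
      have h9 : ∑ j ∈ (Finset.range n).erase i, (cor M u ((f i)⁻¹ * f j)).re ≤
          ∑ j ∈ (Finset.range n).erase i, ε := by
        refine Finset.sum_le_sum fun j hj => ?_
        rw [Finset.mem_erase] at hj
        exact (Complex.re_le_norm _).trans
          (hf i (Finset.mem_range.1 hi) j (Finset.mem_range.1 hj.2) (Ne.symm hj.1))
      refine h9.trans ?_
      rw [Finset.sum_const, nsmul_eq_mul]
      refine mul_le_mul_of_nonneg_right ?_ hε.le
      have : ((Finset.range n).erase i).card ≤ n := by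
        refine (Finset.card_le_card (Finset.erase_subset _ _)).trans ?_
        rw [Finset.card_range]
      exact_mod_cast this
    refine (Finset.sum_le_sum h8).trans (le_of_eq ?_)
    rw [Finset.sum_const, Finset.card_range, nsmul_eq_mul]
    ring
  have h5 : (n : ℝ) ^ 2 * ‖M.cval (fun g => inner ℂ v (u g))‖ ^ 2 ≤
      ‖v‖ ^ 2 * (n * (C * C) + n * n * ε) := by
    have h6 : (n : ℝ) ^ 2 * ‖M.cval (fun g => inner ℂ v (u g))‖ ^ 2 =
        ‖M.cval (fun g => inner ℂ v (w g))‖ ^ 2 := by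
      rw [h1, norm_mul, Complex.norm_natCast]
      ring
    rw [h6]
    refine (pow_le_pow_left₀ (norm_nonneg _) h2 2).trans (h3.trans ?_)
    exact mul_le_mul_of_nonneg_left h4 (by positivity)
  have h6 : ‖v‖ ^ 2 * (n * (C * C) + n * n * ε) = (n : ℝ) ^ 2 * (‖v‖ ^ 2 * (C * C / n + ε)) := by
    field_simp
  rw [h6] at h5
  exact le_of_mul_le_mul_left h5 (by positivity)

end VdCAux

open VdCAux

theorem vdC {G : Type} [CommGroup G] (M : IMean G) {H : Type} [NormedAddCommGroup H]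
    [InnerProductSpace ℂ H] (u : G → H) (hu : ∃ C : ℝ, ∀ g, ‖u g‖ ≤ C)
    (hb : M.val (fun h => ‖M.cval (fun g => inner ℂ (u g) (u (g * h)))‖) = 0) (v : H) :
    M.cval (fun g => inner ℂ v (u g)) = 0 := by
  obtain ⟨C, hu⟩ := hu
  have hC : 0 ≤ C := (norm_nonneg _).trans (hu 1)
  have key : ‖M.cval (fun g => inner ℂ v (u g))‖ ^ 2 ≤ 0 := by
    refine le_of_forall_pos_le_add fun δ hδ => ?_
    rw [zero_add]
    set ε : ℝ := δ / (2 * (‖v‖ ^ 2 + 1)) with hε
    have hε0 : 0 < ε := by positivity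
    obtain ⟨n, hn⟩ := exists_nat_gt (C * C / ε)
    have hn0 : 0 < n := by
      have : (0 : ℝ) < n := lt_of_le_of_lt (by positivity) hn
      exact_mod_cast this
    have h1 := main_est M u hC hu hb v ε hε0 n hn0
    refine h1.trans ?_
    have hn1 : (0 : ℝ) < n := Nat.cast_pos.2 hn0
    have h2 : C * C / n ≤ ε := by
      rw [div_lt_iff₀ hε0] at hn
      rw [div_le_iff₀ hn1]
      linarith [mul_comm (n : ℝ) ε]
    have h3 : ‖v‖ ^ 2 * (C * C / n + ε) ≤ ‖v‖ ^ 2 * (2 * ε) :=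
      mul_le_mul_of_nonneg_left (by linarith) (by positivity)
    refine h3.trans ?_
    have h4 : (‖v‖ ^ 2 + 1) * (2 * ε) = δ := by
      rw [hε]
      field_simp
    nlinarith
  have h1 : ‖M.cval (fun g => inner ℂ v (u g))‖ ^ 2 = 0 := le_antisymm key (by positivity)
  exact norm_eq_zero.1 (pow_eq_zero_iff (two_ne_zero)|>.1 h1)

end Pool.Agent.Lib.P3852C
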