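import Pool.Agent.Lib.P3852C.VCorr
import Pool.Agent.Lib.P3852C.VdC

/-!
# 7.3 and 7.4

`FF x = G_x - |kap x|²`. 7.3: by `cs_pair` (`Y = (FF ∘ rotX μ) conj FF`) and `erg_mean`,
`M_μ |∫ (FF ∘ rotX μ) conj FF|² ≤ |∫ FF conj FF'|²`, `FF' = FF ∘ permX (swap 0 2 * swap 1 3)`, and
`∫ FF conj FF' = ∫ G conj G' - ∫ h² = 0` (`Kap.repl2` twice). Cauchy–Schwarz for `M`.
7.4: `vdC` with `u γ = (FF ∘ rotX γ)(F₁ ∘ rotX γ²)` in `L²(Q)`:
`⟪u γ, u (γ μ)⟫ = ∫ ((FF ∘ rotX μ) conj FF) ∘ rotX γ · ((F₁ ∘ rotX μ²) conj F₁) ∘ rotX γ²`, whose mean over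
`γ` is the product of the integrals (apply `rotX γ⁻¹`, `erg_mean`). For the second statement use 7.3
for the mean `M.comp` (squaring, which is onto by `gam_divisible`).

This file: 7.4.
-/

set_option autoImplicit false

namespace Pool.Agent.Lib.P3852C

open MeasureTheory

variable {F : Subfield ℂ}

namespace VTriAux

theorem val_zero_of_le {G : Type} [CommGroup G] (M : IMean G) (p q : G → ℝ) (C : ℝ)
    (hp : Bd p) (hq : Bd q) (h0 : ∀ g, 0 ≤ p g) (hle : ∀ g, p g ≤ C * q g) (hq0 : M.val q = 0) :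
    M.val p = 0 := by
  refine le_antisymm ?_ (M.le_val p 0 hp h0)
  have hCq : Bd (fun g => C * q g) := (Bd.const C).mul hq
  refine (M.mono p (fun g => C * q g) hp hCq hle).trans (le_of_eq ?_)
  rw [M.smul C q hq, hq0, mul_zero]

theorem norm_int_le {Ω : Type} [MeasurableSpace Ω] {Q : Measure Ω} [IsProbabilityMeasure Q]
    {f : Ω → ℂ} {C : ℝ} (hb : ∀ θ, ‖f θ‖ ≤ C) : ‖∫ θ, f θ ∂Q‖ ≤ C := by
  have h1 := norm_integral_le_of_norm_le_const (μ := Q) (Filter.Eventually.of_forall hb)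
  rwa [probReal_univ, mul_one] at h1

/-- van der Corput in `L²(Q)` -/
theorem vdc_app {G : Type} [CommGroup G] {Ω : Type} [MeasurableSpace Ω] {Q : Measure Ω}
    [IsProbabilityMeasure Q] (M : IMean G) (u : G → Ω → ℂ) (hm : ∀ g, Measurable (u g)) (C : ℝ)
    (hb : ∀ g θ, ‖u g θ‖ ≤ C)
    (hcorr : M.val (fun h => ‖M.cval (fun g =>
      ∫ θ, u (g * h) θ * (starRingEnd ℂ) (u g θ) ∂Q)‖) = 0)
    (f₀ : Ω → ℂ) (hf₀ : Measurable f₀) (C₀ : ℝ) (hb₀ : ∀ θ, ‖f₀ θ‖ ≤ C₀) :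
    M.cval (fun g => ∫ θ, f₀ θ * u g θ ∂Q) = 0 := by
  have hL : ∀ g, MemLp (u g) 2 Q := fun g =>
    MemLp.of_bound (hm g).aestronglyMeasurable C (Filter.Eventually.of_forall (hb g))
  have hv : MemLp (fun θ => (starRingEnd ℂ) (f₀ θ)) 2 Q :=
    MemLp.of_bound (Complex.continuous_conj.measurable.comp hf₀).aestronglyMeasurable C₀
      (Filter.Eventually.of_forall fun θ => by rw [RCLike.norm_conj]; exact hb₀ θ)
  set U : G → Lp ℂ 2 Q := fun g => (hL g).toLp (u g) with hU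
  set v : Lp ℂ 2 Q := hv.toLp _ with hvd
  have hC0 : 0 ≤ C := (norm_nonneg _).trans (hb 1 (Classical.choice (by
    by_contra hne
    rw [not_nonempty_iff] at hne
    have h1 := measure_univ (μ := Q)
    rw [Set.univ_eq_empty_iff.2 hne, measure_empty] at h1
    exact zero_ne_one h1)))
  have hUb : ∃ D : ℝ, ∀ g, ‖U g‖ ≤ D := by
    refine ⟨C, fun g => ?_⟩
    rw [hU]
    dsimp only
    rw [Lp.norm_toLp]
    have h1 := eLpNorm_le_of_ae_bound (p := 2) (μ := Q) (Filter.Eventually.of_forall (hb g))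
    rw [measure_univ, ENNReal.one_rpow, one_mul] at h1
    have h2 := ENNReal.toReal_mono ENNReal.ofReal_ne_top h1
    rwa [ENNReal.toReal_ofReal hC0] at h2
  have hinner : ∀ g h, inner ℂ (U g) (U (g * h)) =
      ∫ θ, u (g * h) θ * (starRingEnd ℂ) (u g θ) ∂Q := by
    intro g h
    rw [L2.inner_def]
    refine integral_congr_ae ?_
    filter_upwards [(hL g).coeFn_toLp, (hL (g * h)).coeFn_toLp] with θ h1 h2
    rw [RCLike.inner_apply, h1, h2]
  have hinv : ∀ g, inner ℂ v (U g) = ∫ θ, f₀ θ * u g θ ∂Q := by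
    intro g
    rw [L2.inner_def]
    refine integral_congr_ae ?_
    filter_upwards [(hL g).coeFn_toLp, hv.coeFn_toLp] with θ h1 h2
    rw [RCLike.inner_apply, h1, h2, Complex.conj_conj, mul_comm]
  have key := vdC M U hUb (by
    simp only [hinner]
    exact hcorr) v
  simpa only [hinv] using key

variable {Q : Measure (X (ℕ →₀ F))}

theorem meas_rot (γ : Gam F) : Measurable (rotX γ : X (ℕ →₀ F) → X (ℕ →₀ F)) :=
  measurable_pull _

theorem int_rot {T : X (ℕ →₀ F) → X (ℕ →₀ F)} (hT : MeasurePreserving T Q Q)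
    (g : X (ℕ →₀ F) → ℂ) (hg : Measurable g) : ∫ θ, g (T θ) ∂Q = ∫ θ, g θ ∂Q := by
  conv_rhs => rw [← hT.map_eq]
  exact (integral_map hT.measurable.aemeasurable hg.aestronglyMeasurable).symm

theorem ergAB (hF : GoodField F) {Φ : (ℕ →₀ F) → ℝ} (h : InE F Φ) [IsProbabilityMeasure Q]
    (hQ : Rep Q Φ) (hE : ErgQ F Q) (M : IMean (Gam F)) (A B : X (ℕ →₀ F) → ℂ)
    (hA : Measurable A) (hB : Measurable B) (a b : ℝ) (hab : ∀ θ, ‖A θ‖ ≤ a)
    (hbb : ∀ θ, ‖B θ‖ ≤ b) :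
    M.cval (fun γ => ∫ θ, A (rotX γ θ) * B (rotX γ (rotX γ θ)) ∂Q) =
      (∫ θ, A θ ∂Q) * ∫ θ, B θ ∂Q := by
  haveI := hF.ctb
  have h1 := erg_mean hF Q (fun γ => h.rot_mp hF Q hQ γ) hE M A
    (fun θ => (starRingEnd ℂ) (B θ))
    (MemLp.of_bound hA.aestronglyMeasurable a (Filter.Eventually.of_forall hab))
    (MemLp.of_bound (Complex.continuous_conj.measurable.comp hB).aestronglyMeasurable b
      (Filter.Eventually.of_forall fun θ => by rw [RCLike.norm_conj]; exact hbb θ))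
  simp only [Complex.conj_conj] at h1
  rw [← integral_conj] at h1
  simp only [Complex.conj_conj] at h1
  rw [← h1]
  congr 1
  funext γ
  exact int_rot (h.rot_mp hF Q hQ γ) (fun θ => A θ * B (rotX γ θ))
    (hA.mul (hB.comp (meas_rot γ)))

theorem FF_meas {kap : F → X (ℕ →₀ F) → ℂ} (hk : Kap F Q kap) (x : F) :
    Measurable (FF kap x) := by
  unfold FF GG
  exact (measurable_ev _).sub (Complex.measurable_ofReal.comp ((hk.meas x).norm.pow_const 2))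

theorem FF_bdd {kap : F → X (ℕ →₀ F) → ℂ} (hk : Kap F Q kap) (x : F) (θ : X (ℕ →₀ F)) :
    ‖FF kap x θ‖ ≤ 2 := by
  unfold FF GG
  refine (norm_sub_le _ _).trans ?_
  rw [norm_ev, Complex.norm_real, Real.norm_of_nonneg (by positivity)]
  nlinarith [hk.bdd x θ, norm_nonneg (kap x θ)]

end VTriAux

open VTriAux

theorem triple1 (hF : GoodField F) {Φ : (ℕ →₀ F) → ℝ} (h : InE F Φ)
    {Q : Measure (X (ℕ →₀ F))} [IsProbabilityMeasure Q] (hQ : Rep Q Φ) (hE : ErgQ F Q)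
    {kap : F → X (ℕ →₀ F) → ℂ} (hk : Kap F Q kap) (M : IMean (Gam F)) (x : F)
    (f₀ f₁ : X (ℕ →₀ F) → ℂ) (hf₀ : Measurable f₀) (hf₁ : Measurable f₁)
    (hb₀ : ∃ C : ℝ, ∀ θ, ‖f₀ θ‖ ≤ C) (hb₁ : ∃ C : ℝ, ∀ θ, ‖f₁ θ‖ ≤ C) :
    M.cval (fun γ => ∫ θ, f₀ θ * FF kap x (rotX γ θ) * f₁ (rotX (γ ^ 2) θ) ∂Q) = 0 := by
  obtain ⟨C₀, hC₀⟩ := hb₀
  obtain ⟨C₁, hC₁⟩ := hb₁
  have hFm := VTriAux.FF_meas hk x
  have hFb := VTriAux.FF_bdd hk x
  set u : Gam F → X (ℕ →₀ F) → ℂ := fun γ θ => FF kap x (rotX γ θ) * f₁ (rotX (γ ^ 2) θ) with hu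
  have hum : ∀ γ, Measurable (u γ) := fun γ =>
    (hFm.comp (VTriAux.meas_rot γ)).mul (hf₁.comp (VTriAux.meas_rot _))
  have hub : ∀ γ θ, ‖u γ θ‖ ≤ 2 * C₁ := by
    intro γ θ
    rw [hu]
    dsimp only
    rw [norm_mul]
    exact mul_le_mul (hFb _) (hC₁ _) (norm_nonneg _) (by norm_num)
  have key := VTriAux.vdc_app (Q := Q) M u hum (2 * C₁) hub ?_ f₀ hf₀ C₀ hC₀
  · simp only [hu, ← mul_assoc] at key
    exact key
  · -- the correlations
    have hcor : ∀ μ : Gam F, M.cval (fun γ => ∫ θ, u (γ * μ) θ * (starRingEnd ℂ) (u γ θ) ∂Q) =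
        (∫ θ, FF kap x (rotX μ θ) * (starRingEnd ℂ) (FF kap x θ) ∂Q) *
        ∫ θ, f₁ (rotX (μ ^ 2) θ) * (starRingEnd ℂ) (f₁ θ) ∂Q := by
      intro μ
      rw [← VTriAux.ergAB hF h hQ hE M
        (fun θ => FF kap x (rotX μ θ) * (starRingEnd ℂ) (FF kap x θ))
        (fun θ => f₁ (rotX (μ ^ 2) θ) * (starRingEnd ℂ) (f₁ θ))
        ((hFm.comp (VTriAux.meas_rot μ)).mul (Complex.continuous_conj.measurable.comp hFm))
        ((hf₁.comp (VTriAux.meas_rot _)).mul (Complex.continuous_conj.measurable.comp hf₁))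
        (2 * 2) (C₁ * C₁)
        (fun θ => by
          rw [norm_mul, RCLike.norm_conj]
          exact mul_le_mul (hFb _) (hFb _) (norm_nonneg _) (by norm_num))
        (fun θ => by
          rw [norm_mul, RCLike.norm_conj]
          exact mul_le_mul (hC₁ _) (hC₁ _) (norm_nonneg _) ((norm_nonneg _).trans (hC₁ θ)))]
      congr 1
      funext γ
      refine integral_congr_ae (Filter.Eventually.of_forall fun θ => ?_)
      have e1 : (γ * μ) ^ 2 = μ ^ 2 * (γ * γ) := by rw [mul_pow, mul_comm, sq γ]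
      have e2 : γ ^ 2 = γ * γ := sq γ
      simp only [hu, rotX_rotX, map_mul]
      rw [e1, e2, mul_comm γ μ]
      ring
    simp only [hcor]
    refine VTriAux.val_zero_of_le M _ (fun μ => ‖∫ θ, FF kap x (rotX μ θ) *
      (starRingEnd ℂ) (FF kap x θ) ∂Q‖) (C₁ * C₁) ?_ ?_ (fun μ => norm_nonneg _) ?_
      (corr_zero hF h hQ hE hk M x)
    · refine ⟨(2 * 2) * (C₁ * C₁), fun μ => ?_⟩
      rw [abs_of_nonneg (norm_nonneg _), norm_mul]
      refine mul_le_mul (VTriAux.norm_int_le fun θ => ?_) (VTriAux.norm_int_le fun θ => ?_)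
        (norm_nonneg _) (by norm_num)
      · rw [norm_mul, RCLike.norm_conj]
        exact mul_le_mul (hFb _) (hFb _) (norm_nonneg _) (by norm_num)
      · rw [norm_mul, RCLike.norm_conj]
        exact mul_le_mul (hC₁ _) (hC₁ _) (norm_nonneg _) ((norm_nonneg _).trans (hC₁ θ))
    · refine ⟨2 * 2, fun μ => ?_⟩
      rw [abs_of_nonneg (norm_nonneg _)]
      refine VTriAux.norm_int_le fun θ => ?_
      rw [norm_mul, RCLike.norm_conj]
      exact mul_le_mul (hFb _) (hFb _) (norm_nonneg _) (by norm_num)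
    · intro μ
      rw [norm_mul, mul_comm]
      refine mul_le_mul_of_nonneg_right (VTriAux.norm_int_le fun θ => ?_) (norm_nonneg _)
      rw [norm_mul, RCLike.norm_conj]
      exact mul_le_mul (hC₁ _) (hC₁ _) (norm_nonneg _) ((norm_nonneg _).trans (hC₁ θ))

theorem triple2 (hF : GoodField F) {Φ : (ℕ →₀ F) → ℝ} (h : InE F Φ)
    {Q : Measure (X (ℕ →₀ F))} [IsProbabilityMeasure Q] (hQ : Rep Q Φ) (hE : ErgQ F Q)
    {kap : F → X (ℕ →₀ F) → ℂ} (hk : Kap F Q kap) (M : IMean (Gam F)) (x : F)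
    (f₀ f₁ : X (ℕ →₀ F) → ℂ) (hf₀ : Measurable f₀) (hf₁ : Measurable f₁)
    (hb₀ : ∃ C : ℝ, ∀ θ, ‖f₀ θ‖ ≤ C) (hb₁ : ∃ C : ℝ, ∀ θ, ‖f₁ θ‖ ≤ C) :
    M.cval (fun γ => ∫ θ, f₀ θ * f₁ (rotX γ θ) * FF kap x (rotX (γ ^ 2) θ) ∂Q) = 0 := by
  obtain ⟨C₀, hC₀⟩ := hb₀
  obtain ⟨C₁, hC₁⟩ := hb₁
  have hFm := VTriAux.FF_meas hk x
  have hFb := VTriAux.FF_bdd hk x
  set u : Gam F → X (ℕ →₀ F) → ℂ := fun γ θ => f₁ (rotX γ θ) * FF kap x (rotX (γ ^ 2) θ) with hu
  have hum : ∀ γ, Measurable (u γ) := fun γ =>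
    (hf₁.comp (VTriAux.meas_rot γ)).mul (hFm.comp (VTriAux.meas_rot _))
  have hub : ∀ γ θ, ‖u γ θ‖ ≤ C₁ * 2 := by
    intro γ θ
    rw [hu]
    dsimp only
    rw [norm_mul]
    exact mul_le_mul (hC₁ _) (hFb _) (norm_nonneg _) ((norm_nonneg _).trans (hC₁ θ))
  have hsurj : Function.Surjective (powMonoidHom 2 : Gam F →* Gam F) := by
    intro γ
    obtain ⟨δ, hδ⟩ := hF.gam_divisible γ 2 (by norm_num)
    exact ⟨δ, hδ⟩
  have hcz : M.val (fun μ => ‖∫ θ, FF kap x (rotX (μ ^ 2) θ) *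
      (starRingEnd ℂ) (FF kap x θ) ∂Q‖) = 0 := by
    have h1 := corr_zero hF h hQ hE hk (M.comp (powMonoidHom 2) hsurj) x
    rw [IMean.comp_val] at h1
    exact h1
  have key := VTriAux.vdc_app (Q := Q) M u hum (C₁ * 2) hub ?_ f₀ hf₀ C₀ hC₀
  · simp only [hu, ← mul_assoc] at key
    exact key
  · -- the correlations
    have hcor : ∀ μ : Gam F, M.cval (fun γ => ∫ θ, u (γ * μ) θ * (starRingEnd ℂ) (u γ θ) ∂Q) =
        (∫ θ, f₁ (rotX μ θ) * (starRingEnd ℂ) (f₁ θ) ∂Q) *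
        ∫ θ, FF kap x (rotX (μ ^ 2) θ) * (starRingEnd ℂ) (FF kap x θ) ∂Q := by
      intro μ
      rw [← VTriAux.ergAB hF h hQ hE M
        (fun θ => f₁ (rotX μ θ) * (starRingEnd ℂ) (f₁ θ))
        (fun θ => FF kap x (rotX (μ ^ 2) θ) * (starRingEnd ℂ) (FF kap x θ))
        ((hf₁.comp (VTriAux.meas_rot μ)).mul (Complex.continuous_conj.measurable.comp hf₁))
        ((hFm.comp (VTriAux.meas_rot _)).mul (Complex.continuous_conj.measurable.comp hFm))
        (C₁ * C₁) (2 * 2)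
        (fun θ => by
          rw [norm_mul, RCLike.norm_conj]
          exact mul_le_mul (hC₁ _) (hC₁ _) (norm_nonneg _) ((norm_nonneg _).trans (hC₁ θ)))
        (fun θ => by
          rw [norm_mul, RCLike.norm_conj]
          exact mul_le_mul (hFb _) (hFb _) (norm_nonneg _) (by norm_num))]
      congr 1
      funext γ
      refine integral_congr_ae (Filter.Eventually.of_forall fun θ => ?_)
      have e1 : (γ * μ) ^ 2 = μ ^ 2 * (γ * γ) := by rw [mul_pow, mul_comm, sq γ]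
      have e2 : γ ^ 2 = γ * γ := sq γ
      simp only [hu, rotX_rotX, map_mul]
      rw [e1, e2, mul_comm γ μ]
      ring
    simp only [hcor]
    refine VTriAux.val_zero_of_le M _ (fun μ => ‖∫ θ, FF kap x (rotX (μ ^ 2) θ) *
      (starRingEnd ℂ) (FF kap x θ) ∂Q‖) (C₁ * C₁) ?_ ?_ (fun μ => norm_nonneg _) ?_ hcz
    · refine ⟨(C₁ * C₁) * (2 * 2), fun μ => ?_⟩
      rw [abs_of_nonneg (norm_nonneg _), norm_mul]
      refine mul_le_mul (VTriAux.norm_int_le fun θ => ?_) (VTriAux.norm_int_le fun θ => ?_)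
        (norm_nonneg _) (mul_self_nonneg _)
      · rw [norm_mul, RCLike.norm_conj]
        exact mul_le_mul (hC₁ _) (hC₁ _) (norm_nonneg _) ((norm_nonneg _).trans (hC₁ θ))
      · rw [norm_mul, RCLike.norm_conj]
        exact mul_le_mul (hFb _) (hFb _) (norm_nonneg _) (by norm_num)
    · refine ⟨2 * 2, fun μ => ?_⟩
      rw [abs_of_nonneg (norm_nonneg _)]
      refine VTriAux.norm_int_le fun θ => ?_
      rw [norm_mul, RCLike.norm_conj]
      exact mul_le_mul (hFb _) (hFb _) (norm_nonneg _) (by norm_num)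
    · intro μ
      rw [norm_mul]
      refine mul_le_mul_of_nonneg_right (VTriAux.norm_int_le fun θ => ?_) (norm_nonneg _)
      rw [norm_mul, RCLike.norm_conj]
      exact mul_le_mul (hC₁ _) (hC₁ _) (norm_nonneg _) ((norm_nonneg _).trans (hC₁ θ))

end Pool.Agent.Lib.P3852C
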