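import Pool.Agent.Lib.P3852C.XDefs
import Pool.Agent.Lib.P3852C.MeanEx
import Pool.Agent.Lib.P3852C.FolEx

/-!
# 8.1: two different near maximisers

`s` = supremum of `∫ h x` over the positive `x` in `F`. `star` and `h ≤ 1` and `erg` (for the mean
`M.comp` squaring) give `γ(a) γ(b) ≤ γ(m)²`, `m = √(ab)`. Choose `a₀` with `γ(a₀) > s - η/2 > 0`; by `single`
some `b₀ ≠ a₀` has `γ(b₀) > 0`; `b_{k+1} = √(a₀ b_k)`: `γ(b_{k+1})² ≥ γ(a₀) γ(b_k)`, so
`γ(b_k) ≥ γ(a₀)^{1-2^{-k}} γ(b₀)^{2^{-k}} → γ(a₀)`, `b_k ≠ a₀`.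
-/

set_option autoImplicit false

namespace Pool.Agent.Lib.P3852C

open MeasureTheory

namespace XAAux

variable {F : Subfield ℂ} {Y : Type} [MeasurableSpace Y]
    {ν : Measure Y} {T : Gam F → Y → Y} {h : ℝ → Y → ℝ}

lemma int_of_bdd (hs : Sys F Y ν T h) {f : Y → ℝ} (hf : Measurable f) {C : ℝ}
    (hb : ∀ y, |f y| ≤ C) : Integrable f ν := by
  haveI := hs.prob
  exact Integrable.of_bound hf.aestronglyMeasurable C (Filter.Eventually.of_forall hb)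

lemma abs_h_le (hs : Sys F Y ν T h) (x : ℝ) (y : Y) : |h x y| ≤ 1 :=
  abs_le.2 ⟨by linarith [hs.nonneg x y], hs.le_one x y⟩

lemma bd_h (hs : Sys F Y ν T h) (x : ℝ) : Bd (h x) := ⟨1, abs_h_le hs x⟩

lemma int_nonneg (hs : Sys F Y ν T h) (x : ℝ) : 0 ≤ ∫ y, h x y ∂ν :=
  integral_nonneg fun y => hs.nonneg x y

lemma bd_int (hs : Sys F Y ν T h) {f : Gam F → Y → ℝ} {C : ℝ} (hb : ∀ γ y, |f γ y| ≤ C) :
    Bd (fun γ => ∫ y, f γ y ∂ν) := by
  haveI := hs.prob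
  refine ⟨C, fun γ => ?_⟩
  have := norm_integral_le_of_norm_le_const (μ := ν) (f := f γ) (C := C)
    (Filter.Eventually.of_forall (hb γ))
  simpa using this

lemma sq_surj (hF : GoodField F) : Function.Surjective (powMonoidHom 2 : Gam F →* Gam F) := by
  intro γ
  obtain ⟨δ, hδ⟩ := hF.gam_divisible γ 2 (by norm_num)
  exact ⟨δ, hδ⟩

lemma mul_le_sq (hF : GoodField F) (hs : Sys F Y ν T h) (M : IMean (Gam F)) {a b m : ℝ}
    (ha : (a : ℂ) ∈ F) (hb : (b : ℂ) ∈ F) (hm : (m : ℂ) ∈ F) (hb0 : 0 < b) (hba : b < a)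
    (hm0 : 0 < m) (hmm : m ^ 2 = a * b) :
    (∫ y, h a y ∂ν) * (∫ y, h b y ∂ν) ≤ (∫ y, h m y ∂ν) ^ 2 := by
  rw [hs.star M a b m ha hb hm hb0 hba hm0 hmm]
  have herg := hs.erg (M.comp (powMonoidHom 2) (sq_surj hF)) (h m) (h m) (hs.meas m) (hs.meas m)
    (bd_h hs m) (bd_h hs m)
  rw [sq, ← herg, IMean.comp_val]
  have hTm : ∀ γ, Measurable (fun y => h m (T γ y)) := fun γ =>
    (hs.meas m).comp (hs.mp γ).measurable
  have hTm' : ∀ γ, Measurable (fun y => h (a - b) (T γ y)) := fun γ =>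
    (hs.meas _).comp (hs.mp γ).measurable
  refine M.mono _ _ (bd_int hs (C := 1) ?_) (bd_int hs (C := 1) ?_) ?_
  · intro γ y
    rw [abs_mul, abs_mul]
    have h1 := abs_h_le hs m y
    have h2 := abs_h_le hs (a - b) (T γ y)
    have h3 := abs_h_le hs m (T (γ ^ 2) y)
    exact mul_le_one₀ (mul_le_one₀ h1 (abs_nonneg _) h2) (abs_nonneg _) h3
  · intro γ y
    rw [abs_mul]
    exact mul_le_one₀ (abs_h_le hs m y) (abs_nonneg _) (abs_h_le hs m _)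
  · intro γ
    refine integral_mono (int_of_bdd hs (C := 1) ?_ ?_) (int_of_bdd hs (C := 1) ?_ ?_) ?_
    · exact ((hs.meas m).mul (hTm' γ)).mul (hTm (γ ^ 2))
    · intro y
      rw [abs_mul, abs_mul]
      have h1 := abs_h_le hs m y
      have h2 := abs_h_le hs (a - b) (T γ y)
      have h3 := abs_h_le hs m (T (γ ^ 2) y)
      exact mul_le_one₀ (mul_le_one₀ h1 (abs_nonneg _) h2) (abs_nonneg _) h3
    · exact (hs.meas m).mul (hTm _)
    · intro y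
      rw [abs_mul]
      exact mul_le_one₀ (abs_h_le hs m y) (abs_nonneg _) (abs_h_le hs m _)
    · intro y
      have h1 := hs.nonneg m y
      have h2 := hs.le_one (a - b) (T γ y)
      have h3 := hs.nonneg m (T (γ ^ 2) y)
      have : h m y * h (a - b) (T γ y) ≤ h m y := by
        nlinarith
      exact mul_le_mul_of_nonneg_right this h3

lemma mul_le_sq' (hF : GoodField F) (hs : Sys F Y ν T h) (M : IMean (Gam F)) {a b m : ℝ}
    (ha : (a : ℂ) ∈ F) (hb : (b : ℂ) ∈ F) (hm : (m : ℂ) ∈ F) (ha0 : 0 < a) (hb0 : 0 < b)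
    (hba : b ≠ a) (hm0 : 0 < m) (hmm : m ^ 2 = a * b) :
    (∫ y, h a y ∂ν) * (∫ y, h b y ∂ν) ≤ (∫ y, h m y ∂ν) ^ 2 := by
  rcases lt_or_gt_of_ne hba with h1 | h1
  · exact mul_le_sq hF hs M ha hb hm hb0 h1 hm0 hmm
  · rw [mul_comm]
    exact mul_le_sq hF hs M hb ha hm ha0 h1 hm0 (by rw [hmm, mul_comm])

lemma exists_large {u : ℕ → ℝ} {p q : ℝ} (hq : q < p) (hp : 0 < p) (hu : ∀ k, 0 < u k)
    (h : ∀ k, p * u k ≤ u (k + 1) ^ 2) : ∃ k, q ≤ u k := by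
  by_contra hcon
  push Not at hcon
  have hq0 : 0 < q := (hu 0).trans (hcon 0)
  have hr : 1 < p / q := (one_lt_div hq0).2 hq
  have hk : ∀ k, (p / q) ^ k * u 0 ≤ u k := by
    intro k
    induction k with
    | zero => simp
    | succ k ih =>
      have h1 : u (k + 1) ^ 2 ≤ u (k + 1) * q := by
        rw [sq]
        exact mul_le_mul_of_nonneg_left (hcon _).le (hu _).le
      have h2 : p * u k ≤ u (k + 1) * q := (h k).trans h1
      have h3 : p / q * u k ≤ u (k + 1) := by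
        rw [div_mul_eq_mul_div, div_le_iff₀ hq0]
        exact h2
      calc (p / q) ^ (k + 1) * u 0 = (p / q) * ((p / q) ^ k * u 0) := by ring
        _ ≤ (p / q) * u k := by
          exact mul_le_mul_of_nonneg_left ih (by positivity)
        _ ≤ u (k + 1) := h3
  obtain ⟨n, hn⟩ := pow_unbounded_of_one_lt (q / u 0) hr
  have h4 : q < (p / q) ^ n * u 0 := (div_lt_iff₀ (hu 0)).1 hn
  exact absurd ((h4.le.trans (hk n))) (not_le.2 (hcon n))

end XAAux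

open XAAux in
theorem Sys.near {F : Subfield ℂ} (hF : GoodField F) {Y : Type} [MeasurableSpace Y]
    {ν : Measure Y} {T : Gam F → Y → Y} {h : ℝ → Y → ℝ} (hs : Sys F Y ν T h)
    {x₀ : ℝ} (hx₀ : (x₀ : ℂ) ∈ F) (hx₀' : 0 < x₀) (hpos : 0 < ∫ y, h x₀ y ∂ν) :
    ∃ s : ℝ, 0 < s ∧ s ≤ 3 / 4 ∧ (∀ x : ℝ, (x : ℂ) ∈ F → 0 < x → ∫ y, h x y ∂ν ≤ s) ∧
      ∀ η : ℝ, 0 < η → ∃ a b : ℝ, (a : ℂ) ∈ F ∧ (b : ℂ) ∈ F ∧ 0 < b ∧ b < a ∧
        s - η ≤ ∫ y, h a y ∂ν ∧ s - η ≤ ∫ y, h b y ∂ν := by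
  haveI := hF.gam_countable
  obtain ⟨M⟩ := exists_imean (Gam F)
  set S : Set ℝ := {t | ∃ x : ℝ, (x : ℂ) ∈ F ∧ 0 < x ∧ ∫ y, h x y ∂ν = t} with hS
  have hbdd : BddAbove S := ⟨3 / 4, by
    rintro t ⟨x, hx, hx0, rfl⟩
    exact hs.le34 x hx hx0⟩
  have hne : S.Nonempty := ⟨_, x₀, hx₀, hx₀', rfl⟩
  have hle : ∀ x : ℝ, (x : ℂ) ∈ F → 0 < x → ∫ y, h x y ∂ν ≤ sSup S := fun x hx hx0 =>
    le_csSup hbdd ⟨x, hx, hx0, rfl⟩
  have hspos : 0 < sSup S := hpos.trans_le (hle x₀ hx₀ hx₀')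
  refine ⟨sSup S, hspos, csSup_le hne ?_, hle, ?_⟩
  · rintro t ⟨x, hx, hx0, rfl⟩
    exact hs.le34 x hx hx0
  · intro η hη
    have hδ : 0 < min η (sSup S) := lt_min hη hspos
    obtain ⟨t, ⟨a, ha, ha0, rfl⟩, hat⟩ := exists_lt_of_lt_csSup hne
      (show sSup S - min η (sSup S) < sSup S by linarith)
    have hga : 0 < ∫ y, h a y ∂ν := by
      have := min_le_right η (sSup S)
      linarith
    have hgη : sSup S - η < ∫ y, h a y ∂ν := by
      have := min_le_left η (sSup S)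
      linarith
    have hex : ∃ b : ℝ, (b : ℂ) ∈ F ∧ 0 < b ∧ b ≠ a ∧ 0 < ∫ y, h b y ∂ν := by
      by_contra hcon
      push Not at hcon
      refine hga.ne' (hs.single a ha ha0 fun x hx hx0 hxa => ?_)
      exact le_antisymm (hcon x hx hx0 hxa) (int_nonneg hs x)
    obtain ⟨b₀, hb₀, hb₀0, hb₀a, hgb₀⟩ := hex
    let P : Type := {b : ℝ // (b : ℂ) ∈ F ∧ 0 < b ∧ b ≠ a ∧ 0 < ∫ y, h b y ∂ν}
    have hstep : ∀ b : P, ∃ c : P, (∫ y, h a y ∂ν) * (∫ y, h b.1 y ∂ν) ≤ (∫ y, h c.1 y ∂ν) ^ 2 := by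
      rintro ⟨b, hb, hb0, hba, hgb⟩
      have hab : 0 < a * b := mul_pos ha0 hb0
      have hm0 : 0 < √(a * b) := Real.sqrt_pos.2 hab
      have hmm : √(a * b) ^ 2 = a * b := Real.sq_sqrt hab.le
      have hmF : ((√(a * b) : ℝ) : ℂ) ∈ F := hF.sqrt_mem (by
        push_cast
        exact F.mul_mem ha hb)
      have hle2 := mul_le_sq' hF hs M ha hb hmF ha0 hb0 hba hm0 hmm
      refine ⟨⟨√(a * b), hmF, hm0, ?_, ?_⟩, hle2⟩
      · intro heq
        rw [heq] at hmm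
        have : a * (a - b) = 0 := by linear_combination hmm
        rcases mul_eq_zero.1 this with h0 | h0
        · exact ha0.ne' h0
        · exact hba (by linarith)
      · have h1 : 0 < (∫ y, h (√(a * b)) y ∂ν) ^ 2 := (mul_pos hga hgb).trans_le hle2
        rcases (int_nonneg hs (√(a * b))).eq_or_lt with h0 | h0
        · rw [← h0] at h1
          norm_num at h1
        · exact h0
    choose c hc using hstep
    let bs : ℕ → P := fun n => Nat.rec ⟨b₀, hb₀, hb₀0, hb₀a, hgb₀⟩ (fun _ b => c b) n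
    have hbs : ∀ n, bs (n + 1) = c (bs n) := fun n => rfl
    obtain ⟨k, hk⟩ := exists_large (u := fun n => ∫ y, h (bs n).1 y ∂ν) hgη hga
      (fun n => (bs n).2.2.2.2) (fun n => by
        have := hc (bs n)
        rw [← hbs] at this
        exact this)
    obtain ⟨b, hb, hb0, hba, hgb⟩ := bs k
    rcases lt_or_gt_of_ne (bs k).2.2.2.1 with h1 | h1
    · exact ⟨a, (bs k).1, ha, (bs k).2.1, (bs k).2.2.1, h1, hgη.le, hk⟩
    · exact ⟨(bs k).1, a, (bs k).2.1, ha, ha0, h1, hk, hgη.le⟩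

end Pool.Agent.Lib.P3852C
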