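import Pool.Agent.Lib.P3852C.XDefs

/-!
# 8.3, 8.4

8.3. `A, B` measurable `Y → [0,1]`. For `μ ∈ Γ` both `M_γ ∫ (B ∘ T μ)(A ∘ T (μγ) - A ∘ T (μγ⁻¹))²` (compose with
`T μ`) and `M_γ ∫ B (A ∘ T (γμ) - A ∘ T (γ⁻¹μ⁻¹))²` (invariance of `M`) equal the hypothesis' value `≤ κ`; so
`M_γ ∫ B (B ∘ T μ)(A ∘ T (μγ⁻¹) - A ∘ T (γ⁻¹μ⁻¹))² ≤ 4 κ`, and this is `∫ B (B ∘ T μ) · ∫ (A ∘ T μ - A ∘ T μ⁻¹)²` by
`erg` (mean `M.comp` inversion).
8.4. `N` with `1/N ≤ δ`, where `β² - δ ≥ β²/2`..: for each `κ ∈ Γ` some `0 ≤ j < j' ≤ N` has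
`∫ (B ∘ T κ^j)(B ∘ T κ^j') ≥ β² - 1/N`; so `μ = κ^l`, `1 ≤ l ≤ N` has `∫ B (B ∘ T μ) ≥ β² - 1/N`. For `ν ∈ Γ` take
`κ^{2 N!} = ν`; `‖A ∘ T ν - A‖₂ ≤ (N!/l) ‖A ∘ T μ² - A‖₂ ≤ N! √(4κ/(β² - 1/N))`. And
`M_ν ‖A ∘ T ν - A‖₂² = 2 ∫A² - 2 (∫A)²`.

This file: 8.3.
-/

set_option autoImplicit false

namespace Pool.Agent.Lib.P3852C

open MeasureTheory

namespace XCaAux

variable {F : Subfield ℂ} {Y : Type} [MeasurableSpace Y]

lemma integral_sub' {ν : Measure Y} {T : Gam F → Y → Y} {h : ℝ → Y → ℝ} (hs : Sys F Y ν T h)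
    (u : Y → ℝ) (hu : Measurable u) (μ : Gam F) : ∫ y, u (T μ y) ∂ν = ∫ y, u y ∂ν := by
  have hmp := hs.mp μ
  conv_rhs => rw [← hmp.map_eq]
  rw [integral_map hmp.measurable.aemeasurable hu.aestronglyMeasurable]

lemma integrable_unit {ν : Measure Y} (hν : IsProbabilityMeasure ν) (u : Y → ℝ)
    (hu : Measurable u) (h0 : ∀ y, 0 ≤ u y) (h1 : ∀ y, u y ≤ 1) : Integrable u ν :=
  Integrable.of_bound hu.aestronglyMeasurable 1 (Filter.Eventually.of_forall fun y => by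
    rw [Real.norm_eq_abs, abs_of_nonneg (h0 y)]; exact h1 y)

lemma abs_integral_unit {ν : Measure Y} (hν : IsProbabilityMeasure ν) (u : Y → ℝ)
    (hu : Measurable u) (h0 : ∀ y, 0 ≤ u y) (h1 : ∀ y, u y ≤ 1) : |∫ y, u y ∂ν| ≤ 1 := by
  rw [abs_of_nonneg (integral_nonneg h0)]
  have := integral_mono (integrable_unit hν u hu h0 h1) (integrable_const (1 : ℝ)) h1
  simpa using this

lemma sq_unit {a b : ℝ} (ha0 : 0 ≤ a) (ha1 : a ≤ 1) (hb0 : 0 ≤ b) (hb1 : b ≤ 1) :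
    (a - b) ^ 2 ≤ 1 := by nlinarith

end XCaAux

open XCaAux in
/-- 8.3 -/
theorem Sys.shift {F : Subfield ℂ} (hF : GoodField F) {Y : Type} [MeasurableSpace Y]
    {ν : Measure Y} {T : Gam F → Y → Y} {h : ℝ → Y → ℝ} (hs : Sys F Y ν T h)
    (M : IMean (Gam F)) (A B : Y → ℝ) (hA : Measurable A) (hB : Measurable B)
    (hA0 : ∀ y, 0 ≤ A y) (hA1 : ∀ y, A y ≤ 1) (hB0 : ∀ y, 0 ≤ B y) (hB1 : ∀ y, B y ≤ 1)
    (κ : ℝ) (hκ : M.val (fun γ => ∫ y, B y * (A (T γ y) - A (T γ⁻¹ y)) ^ 2 ∂ν) ≤ κ)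
    (μ : Gam F) :
    (∫ y, B y * B (T μ y) ∂ν) * ∫ y, (A (T (μ ^ 2) y) - A y) ^ 2 ∂ν ≤ 4 * κ := by
  have hν := hs.prob
  have hAT : ∀ γ, Measurable (fun y => A (T γ y)) := fun γ => hA.comp (hs.mp γ).measurable
  have hBT : ∀ γ, Measurable (fun y => B (T γ y)) := fun γ => hB.comp (hs.mp γ).measurable
  -- a general term
  have htm : ∀ (U : Y → ℝ) (γ δ : Gam F), Measurable U →
      Measurable (fun y => U y * (A (T γ y) - A (T δ y)) ^ 2) := fun U γ δ hU =>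
    hU.mul (((hAT γ).sub (hAT δ)).pow_const 2)
  have ht0 : ∀ (U : Y → ℝ) (γ δ : Gam F), (∀ y, 0 ≤ U y) →
      ∀ y, 0 ≤ U y * (A (T γ y) - A (T δ y)) ^ 2 := fun U γ δ hU y =>
    mul_nonneg (hU y) (sq_nonneg _)
  have ht1 : ∀ (U : Y → ℝ) (γ δ : Gam F), (∀ y, 0 ≤ U y) → (∀ y, U y ≤ 1) →
      ∀ y, U y * (A (T γ y) - A (T δ y)) ^ 2 ≤ 1 := fun U γ δ hU hU1 y =>
    mul_le_one₀ (hU1 y) (sq_nonneg _) (sq_unit (hA0 _) (hA1 _) (hA0 _) (hA1 _))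
  -- the four functions on `Γ`
  set g : Gam F → ℝ := fun γ => ∫ y, B y * (A (T γ y) - A (T γ⁻¹ y)) ^ 2 ∂ν with hg
  have hBd : ∀ (U : Y → ℝ) (p q : Gam F → Gam F), Measurable U → (∀ y, 0 ≤ U y) →
      (∀ y, U y ≤ 1) → Bd (fun γ => ∫ y, U y * (A (T (p γ) y) - A (T (q γ) y)) ^ 2 ∂ν) :=
    fun U p q hU h0 h1 => ⟨1, fun γ => abs_integral_unit hν _ (htm U _ _ hU) (ht0 U _ _ h0)
      (ht1 U _ _ h0 h1)⟩
  have hgBd : Bd g := hBd B (fun γ => γ) (fun γ => γ⁻¹) hB hB0 hB1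
  -- first
  have h1 : ∀ γ, ∫ y, B (T μ y) * (A (T (μ * γ) y) - A (T (μ * γ⁻¹) y)) ^ 2 ∂ν = g γ := by
    intro γ
    rw [hg]
    simp only
    rw [← integral_sub' hs (fun y => B y * (A (T γ y) - A (T γ⁻¹ y)) ^ 2) (htm B _ _ hB) μ]
    simp only [hs.T_mul, mul_comm μ]
  -- second
  have h2 : M.val (fun γ => ∫ y, B y * (A (T (μ * γ) y) - A (T (γ⁻¹ * μ⁻¹) y)) ^ 2 ∂ν) =
      M.val g := by
    rw [← M.inv μ g hgBd]
    congr 1
    funext γ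
    rw [hg]
    simp only [mul_inv_rev]
  -- third
  have h3 : M.val (fun γ => ∫ y, (B y * B (T μ y)) *
      (A (T (μ * γ⁻¹) y) - A (T (γ⁻¹ * μ⁻¹) y)) ^ 2 ∂ν) ≤ 4 * κ := by
    have hU0 : ∀ y, 0 ≤ B y * B (T μ y) := fun y => mul_nonneg (hB0 _) (hB0 _)
    have hU1 : ∀ y, B y * B (T μ y) ≤ 1 := fun y => mul_le_one₀ (hB1 _) (hB0 _) (hB1 _)
    have hb3 := hBd (fun y => B y * B (T μ y)) (fun γ => μ * γ⁻¹) (fun γ => γ⁻¹ * μ⁻¹)
      (hB.mul (hBT μ)) hU0 hU1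
    have hb1 := hBd (fun y => B (T μ y)) (fun γ => μ * γ) (fun γ => μ * γ⁻¹)
      (hBT μ) (fun y => hB0 _) (fun y => hB1 _)
    have hb2 := hBd B (fun γ => μ * γ) (fun γ => γ⁻¹ * μ⁻¹) hB hB0 hB1
    have hle := M.mono _ (fun γ => 2 * (∫ y, B (T μ y) *
        (A (T (μ * γ) y) - A (T (μ * γ⁻¹) y)) ^ 2 ∂ν) +
        2 * (∫ y, B y * (A (T (μ * γ) y) - A (T (γ⁻¹ * μ⁻¹) y)) ^ 2 ∂ν)) hb3
        (((Bd.const (2 : ℝ)).mul hb1).add ((Bd.const (2 : ℝ)).mul hb2)) (fun γ => by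
      rw [← integral_const_mul, ← integral_const_mul, ← integral_add]
      · refine integral_mono ?_ ?_ ?_
        · exact integrable_unit hν _ (htm _ _ _ (hB.mul (hBT μ))) (ht0 _ _ _ hU0)
            (ht1 _ _ _ hU0 hU1)
        · exact ((integrable_unit hν _ (htm _ _ _ (hBT μ)) (ht0 _ _ _ (fun y => hB0 _))
            (ht1 _ _ _ (fun y => hB0 _) (fun y => hB1 _))).const_mul 2).add
            ((integrable_unit hν _ (htm _ _ _ hB) (ht0 _ _ _ hB0)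
            (ht1 _ _ _ hB0 hB1)).const_mul 2)
        · intro y
          simp only
          set a := A (T (μ * γ⁻¹) y)
          set c := A (T (γ⁻¹ * μ⁻¹) y)
          set a' := A (T (μ * γ) y)
          have e1 : (a - c) ^ 2 ≤ 2 * (a' - a) ^ 2 + 2 * (a' - c) ^ 2 := by
            nlinarith [sq_nonneg ((a' - a) + (a' - c))]
          have b0 := hB0 y
          have b1 := hB1 y
          have c0 := hB0 (T μ y)
          have c1 := hB1 (T μ y)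
          have e2 : B y * B (T μ y) * (a - c) ^ 2 ≤
              B y * B (T μ y) * (2 * (a' - a) ^ 2 + 2 * (a' - c) ^ 2) :=
            mul_le_mul_of_nonneg_left e1 (mul_nonneg b0 c0)
          have e3 : B y * B (T μ y) * (2 * (a' - a) ^ 2) ≤ B (T μ y) * (2 * (a' - a) ^ 2) :=
            mul_le_mul_of_nonneg_right (mul_le_of_le_one_left c0 b1) (by positivity)
          have e4 : B y * B (T μ y) * (2 * (a' - c) ^ 2) ≤ B y * (2 * (a' - c) ^ 2) :=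
            mul_le_mul_of_nonneg_right (mul_le_of_le_one_right b0 c1) (by positivity)
          nlinarith
      · exact (integrable_unit hν _ (htm _ _ _ (hBT μ)) (ht0 _ _ _ (fun y => hB0 _))
            (ht1 _ _ _ (fun y => hB0 _) (fun y => hB1 _))).const_mul 2
      · exact (integrable_unit hν _ (htm _ _ _ hB) (ht0 _ _ _ hB0)
            (ht1 _ _ _ hB0 hB1)).const_mul 2)
    refine hle.trans ?_
    rw [M.add _ _ ((Bd.const (2 : ℝ)).mul hb1) ((Bd.const (2 : ℝ)).mul hb2),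
      M.smul 2 _ hb1, M.smul 2 _ hb2, h2]
    simp only [h1]
    have : M.val (fun γ => g γ) ≤ κ := hκ
    linarith
  -- ergodicity
  have h4 : M.val (fun γ => ∫ y, (B y * B (T μ y)) *
      (A (T (μ * γ⁻¹) y) - A (T (γ⁻¹ * μ⁻¹) y)) ^ 2 ∂ν) =
      (∫ y, B y * B (T μ y) ∂ν) * ∫ y, (A (T μ y) - A (T μ⁻¹ y)) ^ 2 ∂ν := by
    have h5 := hs.erg (M.comp invMonoidHom inv_surjective) (fun y => B y * B (T μ y))
      (fun y => (A (T μ y) - A (T μ⁻¹ y)) ^ 2) (hB.mul (hBT μ))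
      (((hAT μ).sub (hAT μ⁻¹)).pow_const 2)
      ⟨1, fun y => by
        rw [abs_of_nonneg (mul_nonneg (hB0 _) (hB0 _))]
        exact mul_le_one₀ (hB1 _) (hB0 _) (hB1 _)⟩
      ⟨1, fun y => by
        rw [abs_of_nonneg (sq_nonneg _)]
        exact sq_unit (hA0 _) (hA1 _) (hA0 _) (hA1 _)⟩
    rw [← h5, IMean.comp_val]
    congr 1
    funext γ
    simp only [invMonoidHom_apply, hs.T_mul, mul_comm μ⁻¹]
  have h6 : ∫ y, (A (T (μ ^ 2) y) - A y) ^ 2 ∂ν = ∫ y, (A (T μ y) - A (T μ⁻¹ y)) ^ 2 ∂ν := by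
    rw [← integral_sub' hs (fun y => (A (T μ y) - A (T μ⁻¹ y)) ^ 2)
      (((hAT μ).sub (hAT μ⁻¹)).pow_const 2) μ]
    simp only [hs.T_mul, inv_mul_cancel, hs.T_one, sq μ]
  rw [h6, ← h4]
  exact h3

end Pool.Agent.Lib.P3852C
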