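import Pool.Agent.Lib.P3852C.MeanBasic
import Pool.Agent.Lib.P3852C.GF

/-!
# The abstract systems of §8
-/

set_option autoImplicit false

namespace Pool.Agent.Lib.P3852C

open MeasureTheory

/-- The data of §8: a probability space with an action of `Γ` and functions `h x`. The index set of
`h` is the set of the real numbers `x` in `F`, `h` is a function on all reals for convenience. -/
structure Sys (F : Subfield ℂ) (Y : Type) [MeasurableSpace Y] (ν : Measure Y)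
    (T : Gam F → Y → Y) (h : ℝ → Y → ℝ) : Prop where
  prob : IsProbabilityMeasure ν
  mp : ∀ γ, MeasurePreserving (T γ) ν ν
  T_mul : ∀ γ δ y, T γ (T δ y) = T (γ * δ) y
  T_one : ∀ y, T 1 y = y
  meas : ∀ x, Measurable (h x)
  nonneg : ∀ x y, 0 ≤ h x y
  le_one : ∀ x y, h x y ≤ 1
  le34 : ∀ x : ℝ, (x : ℂ) ∈ F → 0 < x → ∫ y, h x y ∂ν ≤ 3 / 4
  erg : ∀ (M : IMean (Gam F)) (f g : Y → ℝ), Measurable f → Measurable g → Bd f → Bd g →
    M.val (fun γ => ∫ y, f y * g (T γ y) ∂ν) = (∫ y, f y ∂ν) * ∫ y, g y ∂ν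
  star : ∀ (M : IMean (Gam F)) (a b m : ℝ), (a : ℂ) ∈ F → (b : ℂ) ∈ F → (m : ℂ) ∈ F → 0 < b →
    b < a → 0 < m → m ^ 2 = a * b →
    (∫ y, h a y ∂ν) * (∫ y, h b y ∂ν) =
      M.val (fun γ => ∫ y, h m y * h (a - b) (T γ y) * h m (T (γ ^ 2) y) ∂ν)
  /-- if `γ` vanishes at all positive `x ≠ x₀` of `F` then it vanishes at `x₀` -/
  single : ∀ x₀ : ℝ, (x₀ : ℂ) ∈ F → 0 < x₀ →
    (∀ x : ℝ, (x : ℂ) ∈ F → 0 < x → x ≠ x₀ → ∫ y, h x y ∂ν = 0) → ∫ y, h x₀ y ∂ν = 0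

end Pool.Agent.Lib.P3852C
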